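import Pool.Agent.MP_7fd204_co.Mg.GeoA

/-! Basic tools of the finite check: strict evaluation, packed arrays, angles as Gaussian integers, exact arithmetic
in `ℚ(√2, √5, √3)`. -/

namespace UP

open Real

noncomputable section

/-- case distinction, directly by the recursor -/
def cond {α : Type} (c : Bool) (x y : α) : α := Bool.rec y x c

@[simp] theorem cond_true {α : Type} (x y : α) : cond true x y = x := rfl
@[simp] theorem cond_false {α : Type} (x y : α) : cond false x y = y := rfl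
@[simp] theorem cond_eq_if {α : Type} {b : Bool} {x y : α} : cond b x y = if b = true then x else y := by
  cases b <;> rfl

/-- evaluate `n` before going on -/
def fN {β : Type} (n : ℕ) (k : ℕ → β) : β := Nat.rec (k 0) (fun j _ => k (Nat.succ j)) n

@[simp] theorem fN_eq {β : Type} (n : ℕ) (k : ℕ → β) : fN n k = k n := by cases n <;> rfl

/-- evaluate a list -/
def fL {β : Type} (l : List ℕ) : (List ℕ → β) → β :=
  List.rec (fun k => k []) (fun a _ ih k => fN a fun a' => ih fun l' => k (a' :: l')) l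

@[simp] theorem fL_eq {β : Type} (l : List ℕ) (k : List ℕ → β) : fL l k = k l := by
  induction l generalizing k with
  | nil => rfl
  | cons a l ih => exact (fN_eq a fun a' => fL l fun l' => k (a' :: l')).trans (ih _)

def fLL {β : Type} (l : List (List ℕ)) : (List (List ℕ) → β) → β :=
  List.rec (fun k => k []) (fun a _ ih k => fL a fun a' => ih fun l' => k (a' :: l')) l

@[simp] theorem fLL_eq {β : Type} (l : List (List ℕ)) (k : List (List ℕ) → β) : fLL l k = k l := by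
  induction l generalizing k with
  | nil => rfl
  | cons a l ih => exact (fL_eq a fun a' => fLL l fun l' => k (a' :: l')).trans (ih _)

/-- `f` holds below `n` -/
def allR (n : ℕ) (f : ℕ → Bool) : Bool := Nat.rec true (fun k ih => cond (f k) ih false) n

theorem allR_iff {n : ℕ} {f : ℕ → Bool} : allR n f = true ↔ ∀ k, k < n → f k = true := by
  induction n with
  | zero => simp [allR]
  | succ n ih =>
    have : allR (n + 1) f = (f n && allR n f) := by
      show cond (f n) (allR n f) false = _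
      cases f n <;> rfl
    rw [this, Bool.and_eq_true, ih]
    exact ⟨fun h k hk => (Nat.lt_succ_iff_lt_or_eq.1 hk).elim (h.2 k) fun e => e ▸ h.1,
      fun h => ⟨h n (by omega), fun k hk => h k (by omega)⟩⟩

/-- `f` holds on `[lo, hi)` -/
def allI (lo hi : ℕ) (f : ℕ → Bool) : Bool := allR (Nat.sub hi lo) fun j => fN (Nat.add lo j) f

theorem allI_iff {lo hi : ℕ} {f : ℕ → Bool} : allI lo hi f = true ↔ ∀ k, lo ≤ k → k < hi → f k = true := by
  simp only [allI, allR_iff, fN_eq, Nat.sub_eq, Nat.add_eq]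
  exact ⟨fun h k h1 h2 => by simpa [Nat.add_sub_cancel' h1] using h (k - lo) (by omega),
    fun h k hk => h _ (by omega) (by omega)⟩

def anyI (lo hi : ℕ) (f : ℕ → Bool) : Bool := !allI lo hi fun k => !f k

theorem anyI_iff {lo hi : ℕ} {f : ℕ → Bool} : anyI lo hi f = true ↔ ∃ k, lo ≤ k ∧ k < hi ∧ f k = true := by
  rw [anyI, Bool.not_eq_true', ← Bool.not_eq_true, allI_iff]
  simp

def allL (l : List ℕ) (f : ℕ → Bool) : Bool := List.rec true (fun a _ ih => cond (f a) ih false) l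

theorem allL_iff {l : List ℕ} {f : ℕ → Bool} : allL l f = true ↔ ∀ a ∈ l, f a = true := by
  induction l with
  | nil => simp [allL]
  | cons a l ih =>
    have : allL (a :: l) f = (f a && allL l f) := by
      show cond (f a) (allL l f) false = _
      cases f a <;> rfl
    rw [this, Bool.and_eq_true, ih]; simp

def anyL (l : List ℕ) (f : ℕ → Bool) : Bool := List.rec false (fun a _ ih => Bool.rec ih true (f a)) l

theorem anyL_iff {l : List ℕ} {f : ℕ → Bool} : anyL l f = true ↔ ∃ a ∈ l, f a = true := by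
  induction l with
  | nil => simp [anyL]
  | cons a l ih =>
    have : anyL (a :: l) f = (f a || anyL l f) := by
      show (Bool.rec (anyL l f) true (f a) : Bool) = _
      cases f a <;> rfl
    rw [this, Bool.or_eq_true, ih]; simp

/-- read entry `i` of a packed table (used for data only) -/
def gt (w mk a i : ℕ) : ℕ := Nat.land (Nat.shiftRight a (Nat.mul w i)) mk

/-- arrays with 12 bit entries -/
def g12 (a i : ℕ) : ℕ := Nat.mod (Nat.shiftRight a (Nat.mul 12 i)) 4096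

/-- write `v` at a free place -/
def s12 (a i v : ℕ) : ℕ := cond (Nat.beq (g12 a i) 0) (Nat.add a (Nat.shiftLeft v (Nat.mul 12 i))) a

theorem g12_zero (i : ℕ) : g12 0 i = 0 := by simp [g12]

theorem g12_s12 {a i v : ℕ} (hv : v < 4096) (j : ℕ) :
    g12 (s12 a i v) j = if j = i ∧ g12 a i = 0 then v else g12 a j := by
  have key : ∀ a i : ℕ, g12 a i = a / 4096 ^ i % 4096 := fun a i => by
    show (a >>> (12 * i)) % 4096 = _
    rw [Nat.shiftRight_eq_div_pow, pow_mul]; norm_num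
  have ks : s12 a i v = if g12 a i = 0 then a + v * 4096 ^ i else a := by
    unfold s12
    by_cases h : g12 a i = 0
    · rw [if_pos h, h]
      show a + v <<< (12 * i) = _
      rw [Nat.shiftLeft_eq, pow_mul]; norm_num
    · rw [if_neg h]
      have : Nat.beq (g12 a i) 0 = false := by
        cases hb : Nat.beq (g12 a i) 0
        · rfl
        · exact absurd (Nat.eq_of_beq_eq_true hb) h
      rw [this]; rfl
  rw [ks]
  by_cases h : g12 a i = 0
  · rw [if_pos h]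
    have hp : ∀ n : ℕ, 0 < 4096 ^ n := fun n => by positivity
    rcases lt_trichotomy j i with hj | rfl | hj
    · rw [if_neg (fun h' => absurd h'.1 hj.ne), key, key]
      obtain ⟨d, rfl⟩ : ∃ d, i = j + (d + 1) := ⟨i - j - 1, by omega⟩
      have : a + v * 4096 ^ (j + (d + 1)) = a + (v * 4096 ^ d * 4096) * 4096 ^ j := by ring
      rw [this, Nat.add_mul_div_right _ _ (hp j), Nat.add_mul_mod_self_right]
    · rw [if_pos ⟨rfl, h⟩, key, Nat.add_mul_div_right _ _ (hp j)]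
      rw [key] at h
      omega
    · rw [if_neg (fun h' => absurd h'.1 hj.ne'), key, key]
      obtain ⟨d, rfl⟩ : ∃ d, j = i + (1 + d) := ⟨j - i - 1, by omega⟩
      rw [key] at h
      have e : ∀ x : ℕ, x / 4096 ^ (i + (1 + d)) = x / 4096 ^ i / 4096 / 4096 ^ d := fun x => by
        rw [Nat.div_div_eq_div_mul, Nat.div_div_eq_div_mul, pow_add, pow_add, pow_one]
      rw [e, e, Nat.add_mul_div_right _ _ (hp i)]
      have : (a / 4096 ^ i + v) / 4096 = a / 4096 ^ i / 4096 := by omega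
      rw [this]
  · rw [if_neg h, if_neg (fun h' => h h'.2)]

/-- bit test and bit set -/
def bt (a i : ℕ) : Bool := Nat.beq (Nat.mod (Nat.shiftRight a i) 2) 1
def bs (a i : ℕ) : ℕ := Nat.lor a (Nat.shiftLeft 1 i)

theorem bt_zero (i : ℕ) : bt 0 i = false := by simp [bt]; rfl

theorem bt_bs (a i j : ℕ) : bt (bs a i) j = (bt a j || decide (j = i)) := by
  have key : ∀ a i : ℕ, bt a i = a.testBit i := fun a i => by
    rw [Nat.testBit_eq_decide_div_mod_eq, ← Nat.shiftRight_eq_div_pow]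
    show Nat.beq ((a >>> i) % 2) 1 = _
    by_cases h : (a >>> i) % 2 = 1
    · rw [h]; simp
    · have : (a >>> i) % 2 = 0 := by omega
      rw [this]; simp; rfl
  rw [key, key]
  show (a ||| 1 <<< i).testBit j = _
  rw [Nat.testBit_or, Nat.one_shiftLeft, Nat.testBit_two_pow]
  simp only [eq_comm]

/-! Angles. -/

/-- the angle `q π / 2 + arctan (im / re)` -/
structure G where
  q : ℕ
  re : ℕ
  im : ℕ

def G.ang (a : G) : ℝ := a.q * (π / 2) + arctan (a.im / a.re)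

def G.mul (a b : G) : G :=
  G.rec (fun q1 r1 i1 => G.rec (fun q2 r2 i2 => (fun x y z : ℕ =>
    (Bool.rec ⟨Nat.add q1 q2, Nat.sub x y, z⟩ ⟨Nat.succ (Nat.add q1 q2), z, Nat.sub y x⟩ (Nat.ble x y) : G))
      (Nat.mul r1 r2) (Nat.mul i1 i2) (Nat.add (Nat.mul r1 i2) (Nat.mul i1 r2))) b) a

theorem ble_rec {α : Type} (u v : α) (x y : ℕ) : (Bool.rec u v (Nat.ble x y) : α) = if x ≤ y then v else u := by
  cases h : Nat.ble x y
  · rw [if_neg fun e => by simp [Nat.ble_eq.mpr e] at h]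
  · rw [if_pos (Nat.ble_eq.mp h)]

theorem G.mul_eq (a b : G) : a.mul b =
    if a.im * b.im < a.re * b.re then ⟨a.q + b.q, a.re * b.re - a.im * b.im, a.re * b.im + a.im * b.re⟩
    else ⟨a.q + b.q + 1, a.re * b.im + a.im * b.re, a.im * b.im - a.re * b.re⟩ := by
  obtain ⟨q1, r1, i1⟩ := a
  obtain ⟨q2, r2, i2⟩ := b
  refine (ble_rec _ _ (r1 * r2) (i1 * i2)).trans ?_
  by_cases h : i1 * i2 < r1 * r2
  · rw [if_pos h, if_neg (by omega)]; rfl
  · rw [if_neg h, if_pos (by omega)]; rfl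

theorem G.mul_re {a b : G} (ha : 0 < a.re) (hb : 0 < b.re) : 0 < (a.mul b).re := by
  rw [G.mul_eq]
  split_ifs with h
  · show 0 < a.re * b.re - a.im * b.im
    omega
  · show 0 < a.re * b.im + a.im * b.re
    have h1 : 0 < a.im * b.im := lt_of_lt_of_le (Nat.mul_pos ha hb) (not_lt.1 h)
    have h2 : 0 < a.im := Nat.pos_of_mul_pos_right h1
    have := Nat.mul_pos h2 hb
    omega

theorem G.ang_mul {a b : G} (ha : 0 < a.re) (hb : 0 < b.re) : (a.mul b).ang = a.ang + b.ang := by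
  have ha' : (0 : ℝ) < a.re := by exact_mod_cast ha
  have hb' : (0 : ℝ) < b.re := by exact_mod_cast hb
  rw [G.mul_eq]
  split_ifs with h
  · have h' : (a.im : ℝ) * b.im < a.re * b.re := by exact_mod_cast h
    have h1 : (a.im : ℝ) / a.re * (b.im / b.re) < 1 := by
      rw [div_mul_div_comm, div_lt_one (by positivity)]; exact h'
    have h2 := arctan_add h1
    have h3 : ((a.im : ℝ) / a.re + b.im / b.re) / (1 - a.im / a.re * (b.im / b.re)) =
        (a.re * b.im + a.im * b.re) / (a.re * b.re - a.im * b.im) := by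
      have : (a.re : ℝ) * b.re - a.im * b.im ≠ 0 := by linarith
      have h4 : (1 - (a.im : ℝ) / a.re * (b.im / b.re)) ≠ 0 := by linarith
      rw [div_eq_div_iff h4 this]
      field_simp
      ring
    simp only [G.ang]
    rw [Nat.cast_sub h.le]
    push_cast
    rw [← h3, ← h2]
    ring
  · have h1 : 0 < a.im * b.im := lt_of_lt_of_le (Nat.mul_pos ha hb) (not_lt.1 h)
    have h2 : (0 : ℝ) < a.im := by exact_mod_cast Nat.pos_of_mul_pos_right h1
    have h2' : (0 : ℝ) ≤ b.im := Nat.cast_nonneg _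
    have h3 := arctan_inv_of_pos (x := (a.im : ℝ) / a.re) (by positivity)
    have h4 : -((a.im : ℝ) / a.re)⁻¹ * (b.im / b.re) < 1 := by
      have : 0 ≤ ((a.im : ℝ) / a.re)⁻¹ * (b.im / b.re) := by positivity
      linarith
    have h5 := arctan_add h4
    have h6 : (-((a.im : ℝ) / a.re)⁻¹ + b.im / b.re) / (1 - -((a.im : ℝ) / a.re)⁻¹ * (b.im / b.re)) =
        (a.im * b.im - a.re * b.re) / (a.re * b.im + a.im * b.re) := by
      have e1 : (a.re : ℝ) * b.im + a.im * b.re ≠ 0 := by positivity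
      have e2 : (1 - -((a.im : ℝ) / a.re)⁻¹ * (b.im / b.re)) ≠ 0 := by linarith
      rw [div_eq_div_iff e2 e1]
      field_simp
      ring
    simp only [G.ang]
    rw [Nat.cast_sub (not_lt.1 h)]
    push_cast
    rw [← h6, ← h5, arctan_neg, h3]
    ring

def G.sq (a : G) : G := G.mul a a

/-- power, exponent below `2 ^ f` -/
def G.pow (a : G) (f : ℕ) : ℕ → G :=
  Nat.rec (fun _ => ⟨0, 1, 0⟩) (fun _ ih n => cond (Nat.beq n 0) ⟨0, 1, 0⟩
    (fN (Nat.div n 2) fun h => cond (Nat.beq (Nat.mod n 2) 0) (ih h).sq ((ih h).sq.mul a))) f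

theorem G.sq_eq (a : G) : a.sq = a.mul a := rfl

theorem G.pow_succ (a : G) (f n : ℕ) : a.pow (f + 1) n =
    if n = 0 then ⟨0, 1, 0⟩ else if n % 2 = 0 then (a.pow f (n / 2)).sq else (a.pow f (n / 2)).sq.mul a := by
  have : a.pow (f + 1) n = cond (Nat.beq n 0) ⟨0, 1, 0⟩ (fN (Nat.div n 2) fun h =>
    cond (Nat.beq (Nat.mod n 2) 0) (a.pow f h).sq ((a.pow f h).sq.mul a)) := rfl
  rw [this, fN_eq]
  cases n with
  | zero => rfl
  | succ n =>
    rw [if_neg (Nat.succ_ne_zero n)]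
    show cond (Nat.beq ((n + 1) % 2) 0) _ _ = _
    rcases Nat.mod_two_eq_zero_or_one (n + 1) with h | h
    · rw [if_pos h, h]; rfl
    · rw [if_neg (by omega), h]; rfl

theorem G.pow_re {a : G} (ha : 0 < a.re) (f n : ℕ) : 0 < (a.pow f n).re := by
  induction f generalizing n with
  | zero => exact Nat.one_pos
  | succ f ih =>
    rw [G.pow_succ, G.sq_eq]
    split_ifs
    · exact Nat.one_pos
    · exact G.mul_re (ih _) (ih _)
    · exact G.mul_re (G.mul_re (ih _) (ih _)) ha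

theorem G.ang_pow {a : G} (ha : 0 < a.re) {f n : ℕ} (hn : n < 2 ^ f) : (a.pow f n).ang = n * a.ang := by
  have h1 : G.ang ⟨0, 1, 0⟩ = 0 := by simp [G.ang]
  induction f generalizing n with
  | zero =>
    obtain rfl : n = 0 := by omega
    exact h1.trans (by simp)
  | succ f ih =>
    have h2 : n / 2 < 2 ^ f := by rw [Nat.pow_succ] at hn; omega
    have h3 := G.pow_re ha f (n / 2)
    rw [G.pow_succ, G.sq_eq]
    split_ifs with h0 he
    · rw [h0, h1]; simp
    · rw [G.ang_mul h3 h3, ih h2]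
      have : (n : ℝ) = (n / 2 : ℕ) + (n / 2 : ℕ) := by exact_mod_cast (by omega : n = n / 2 + n / 2)
      linear_combination (-a.ang) * this
    · rw [G.ang_mul (G.mul_re h3 h3) ha, G.ang_mul h3 h3, ih h2]
      have : (n : ℝ) = (n / 2 : ℕ) + (n / 2 : ℕ) + 1 := by exact_mod_cast (by omega : n = n / 2 + n / 2 + 1)
      linear_combination (-a.ang) * this

def G.le (a b : G) : Bool :=
  G.casesOn a fun q1 r1 i1 => G.casesOn b fun q2 r2 i2 =>
    Nat.blt q1 q2 || (Nat.beq q1 q2 && Nat.ble (Nat.mul i1 r2) (Nat.mul i2 r1))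

theorem G.le_sound {a b : G} (ha : 0 < a.re) (hb : 0 < b.re) (h : a.le b = true) : a.ang ≤ b.ang := by
  obtain ⟨q1, r1, i1⟩ := a
  obtain ⟨q2, r2, i2⟩ := b
  simp only [G.le, Bool.or_eq_true, Bool.and_eq_true, Nat.blt_eq, Nat.ble_eq, Nat.beq_eq, Nat.mul_eq] at h
  simp only [G.ang]
  rcases h with h | ⟨rfl, h⟩
  · have h1 : (q1 : ℝ) + 1 ≤ q2 := by exact_mod_cast h
    have h2 := arctan_lt_pi_div_two ((i1 : ℝ) / r1)
    have h3 : 0 ≤ arctan ((i2 : ℝ) / r2) := arctan_nonneg.2 (by positivity)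
    have h4 := mul_le_mul_of_nonneg_right h1 (by positivity : 0 ≤ π / 2)
    linarith
  · have ha' : (0 : ℝ) < r1 := by exact_mod_cast ha
    have hb' : (0 : ℝ) < r2 := by exact_mod_cast hb
    have h1 : (i1 : ℝ) / r1 ≤ i2 / r2 := by
      rw [div_le_div_iff₀ ha' hb']; exact_mod_cast h
    have := arctan_strictMono.monotone h1
    linarith

theorem G.q_le (a : G) : a.q * (π / 2) ≤ a.ang := by
  have : 0 ≤ arctan ((a.im : ℝ) / a.re) := arctan_nonneg.2 (by positivity)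
  simp only [G.ang]; linarith

theorem G.q_lt {a : G} (ha : 0 < a.re) (h : 0 < a.im) : a.q * (π / 2) < a.ang := by
  have ha' : (0 : ℝ) < a.re := by exact_mod_cast ha
  have h' : (0 : ℝ) < a.im := by exact_mod_cast h
  have : 0 < arctan ((a.im : ℝ) / a.re) := arctan_pos.2 (by positivity)
  simp only [G.ang]; linarith

theorem G.lt_q (a : G) : a.ang < (a.q + 1) * (π / 2) := by
  have := arctan_lt_pi_div_two ((a.im : ℝ) / a.re)
  simp only [G.ang]; linarith

/-- scale of all fixed point numbers -/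
def sg : ℕ := 18446744073709551629
def sg2 : ℕ := 340282366920938463942989953348216553641

/-- about half the binary length of `u * 2 ^ 112` -/
def lg (u : ℕ) : ℕ :=
  (Bool.rec (Bool.rec (Bool.rec (Bool.rec 56 57 (Nat.ble 4 u)) (Bool.rec 58 59 (Nat.ble 64 u)) (Nat.ble 16 u))
    (Bool.rec (Bool.rec 60 61 (Nat.ble 1024 u)) (Bool.rec 62 63 (Nat.ble 16384 u)) (Nat.ble 4096 u)) (Nat.ble 256
    u)) (Bool.rec (Bool.rec (Bool.rec 64 65 (Nat.ble 262144 u)) (Bool.rec 66 67 (Nat.ble 4194304 u)) (Nat.ble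
    1048576 u)) (Bool.rec (Bool.rec 68 69 (Nat.ble 67108864 u)) (Bool.rec 70 71 (Nat.ble 1073741824 u)) (Nat.ble
    268435456 u)) (Nat.ble 16777216 u)) (Nat.ble 65536 u))

/-- Newton iteration for the integer square root (its result is always checked) -/
def isq (t : ℕ) : ℕ :=
  (fun k => (fun x => (fun x => (fun x => (fun x => Nat.shiftRight (Nat.add x (Nat.div t x)) 1)
    (Nat.shiftRight (Nat.add x (Nat.div t x)) 1)) (Nat.shiftRight (Nat.add x (Nat.div t x)) 1))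
    (Nat.shiftRight (Nat.add x (Nat.div t x)) 1))
    (Nat.div (Nat.add (Nat.shiftRight t k) (Nat.shiftLeft 2 k)) 3)) (lg (Nat.shiftRight t 112))

/-- lower bound for `arctan (√t / sg)` -/
def gLo (t : ℕ) : G := ⟨0, sg, (fun x => Bool.rec (Nat.div t x) x (Nat.ble (Nat.mul x x) t)) (isq t)⟩

/-- upper bound for `arctan (√t / sg)` -/
def gHi (t : ℕ) : G := (fun y => Bool.rec ⟨1, 1, 0⟩ ⟨0, sg, y⟩ (Nat.ble t (Nat.mul y y))) (Nat.succ (isq t))

theorem sg_pos : (0 : ℝ) < sg := by norm_num [sg]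

theorem sg2_eq : (sg2 : ℝ) = sg * sg := by norm_num [sg, sg2]

theorem gLo_eq (t : ℕ) : ∃ z, z * z ≤ t ∧ gLo t = ⟨0, sg, z⟩ := by
  refine ⟨_, ?_, rfl⟩
  generalize isq t = x
  beta_reduce
  rw [ble_rec, Nat.mul_eq]
  split_ifs with h
  · exact h
  · exact (Nat.mul_le_mul_left _ (Nat.div_le_of_le_mul (not_le.1 h).le)).trans (Nat.div_mul_le_self t x)

theorem gHi_eq (t : ℕ) :
    gHi t = if t ≤ (isq t + 1) * (isq t + 1) then ⟨0, sg, isq t + 1⟩ else ⟨1, 1, 0⟩ := ble_rec _ _ _ _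

theorem gLo_re (t : ℕ) : 0 < (gLo t).re := by
  show 0 < sg
  norm_num [sg]

theorem gHi_re (t : ℕ) : 0 < (gHi t).re := by
  rw [gHi_eq]
  split_ifs
  · show 0 < sg
    norm_num [sg]
  · exact Nat.one_pos

theorem gLo_le {t : ℕ} {y : ℝ} (h : (t : ℝ) ≤ sg2 * y) : (gLo t).ang ≤ arctan √y := by
  obtain ⟨z, h1, e⟩ := gLo_eq t
  have h2 : (z : ℝ) * z ≤ t := by exact_mod_cast h1
  have h3 : (z : ℝ) / sg ≤ √y := by
    refine le_sqrt_of_sq_le ?_
    rw [div_pow, div_le_iff₀ (pow_pos sg_pos 2)]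
    rw [sg2_eq] at h
    nlinarith
  have := arctan_strictMono.monotone h3
  simp only [e, G.ang]
  simpa using this

theorem le_gHi {t : ℕ} {y : ℝ} (h : sg2 * y ≤ (t : ℝ)) : arctan √y ≤ (gHi t).ang := by
  rw [gHi_eq]
  generalize isq t + 1 = z
  split_ifs with h1
  · have h2 : (t : ℝ) ≤ z * z := by exact_mod_cast h1
    have h3 : √y ≤ (z : ℝ) / sg := by
      refine sqrt_le_iff.2 ⟨div_nonneg (Nat.cast_nonneg _) sg_pos.le, ?_⟩
      rw [div_pow, le_div_iff₀ (pow_pos sg_pos 2)]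
      rw [sg2_eq] at h
      nlinarith
    have := arctan_strictMono.monotone h3
    simp only [G.ang]
    simpa using this
  · refine (arctan_lt_pi_div_two √y).le.trans_eq ?_
    simp [G.ang]

def bLo (a b c : ℕ) : G := gLo (Nat.div (Nat.mul (Nat.mul sg2 b) (Nat.add (Nat.add a b) c)) (Nat.mul a c))

def bInf (ahi blo : ℕ) : G := gLo (Nat.div (Nat.mul sg2 blo) ahi)

def bHi (a b c : ℕ) : G :=
  Bool.rec (gHi (Nat.succ (Nat.div (Nat.mul (Nat.mul sg2 b) (Nat.add (Nat.add a b) c)) (Nat.mul a c)))) ⟨1, 1, 0⟩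
    (Nat.ble (Nat.mul b (Nat.mul c a)) 0)

theorem bLo_eq (a b c : ℕ) : bLo a b c = gLo (sg2 * b * (a + b + c) / (a * c)) := congrArg gLo rfl

theorem bHi_eq (a b c : ℕ) : bHi a b c =
    if b = 0 ∨ c = 0 ∨ a = 0 then ⟨1, 1, 0⟩ else gHi (sg2 * b * (a + b + c) / (a * c) + 1) :=
  (ble_rec _ _ _ _).trans (if_congr (by simp) rfl (congrArg gHi rfl))

theorem bet_mono {a b c a' b' c' : ℝ} (ha : 0 < a) (hb : 0 ≤ b) (hc : 0 < c) (h1 : a ≤ a') (h2 : b ≤ b')
    (h3 : c ≤ c') : b * (a' + b + c') / (a' * c') ≤ b' * (a + b' + c) / (a * c) := by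
  have ha' : 0 < a' := ha.trans_le h1
  have hc' : 0 < c' := hc.trans_le h3
  have hb' : 0 ≤ b' := hb.trans h2
  have e1 : b * (a' + b + c') / (a' * c') = b / c' + b * b / (a' * c') + b / a' := by field_simp
  have e2 : b' * (a + b' + c) / (a * c) = b' / c + b' * b' / (a * c) + b' / a := by field_simp
  rw [e1, e2]
  gcongr

theorem bet_scale {s A B C : ℝ} (hs : 0 < s) (hA : 0 < A) (hC : 0 < C) :
    (s * B) * (s * A + s * B + s * C) / ((s * A) * (s * C)) = B * (A + B + C) / (A * C) := by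
  field_simp

theorem bLo_re (a b c : ℕ) : 0 < (bLo a b c).re := by
  rw [bLo_eq]; exact gLo_re _

theorem bInf_re (a b : ℕ) : 0 < (bInf a b).re := gLo_re _

theorem bHi_re (a b c : ℕ) : 0 < (bHi a b c).re := by
  rw [bHi_eq]
  split_ifs
  · exact Nat.one_pos
  · exact gHi_re _

theorem bLo_le {ahi blo chi : ℕ} {A B C : ℝ} (hA : 0 < A) (hB : 0 < B) (hC : 0 < C)
    (h1 : ahi ≠ 0 → sg * A ≤ ahi) (h2 : (blo : ℝ) ≤ sg * B) (h3 : sg * C ≤ chi) :
    (bLo ahi blo chi).ang ≤ bet A B C := by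
  rw [bLo_eq]
  refine gLo_le ?_
  have s2 : (0 : ℝ) < sg2 := by norm_num [sg2]
  by_cases h0 : ahi = 0
  · rw [h0, zero_mul, Nat.div_zero, Nat.cast_zero]; positivity
  refine Nat.cast_div_le.trans ?_
  push_cast
  rw [← bet_scale sg_pos hA hC, mul_assoc, mul_div_assoc]
  exact mul_le_mul_of_nonneg_left (bet_mono (mul_pos sg_pos hA) (Nat.cast_nonneg _) (mul_pos sg_pos hC)
    (h1 h0) h2 h3) s2.le

theorem bInf_le {ahi blo : ℕ} {A B : ℝ} (hA : 0 < A) (hB : 0 < B)
    (h1 : ahi ≠ 0 → sg * A ≤ ahi) (h2 : (blo : ℝ) ≤ sg * B) : (bInf ahi blo).ang ≤ arctan √(B / A) := by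
  refine gLo_le ?_
  have s2 : (0 : ℝ) < sg2 := by norm_num [sg2]
  show ((sg2 * blo / ahi : ℕ) : ℝ) ≤ _
  by_cases h0 : ahi = 0
  · rw [h0, Nat.div_zero, Nat.cast_zero]; positivity
  refine Nat.cast_div_le.trans ?_
  push_cast
  rw [mul_div_assoc]
  refine mul_le_mul_of_nonneg_left ?_ s2.le
  rw [← mul_div_mul_left B A sg_pos.ne']
  exact div_le_div₀ (mul_pos sg_pos hB).le h2 (mul_pos sg_pos hA) (h1 h0)

theorem le_bHi {alo bhi clo : ℕ} {A B C : ℝ} (hA : 0 < A) (hB : 0 < B) (hC : 0 < C)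
    (h1 : (alo : ℝ) ≤ sg * A) (h2 : bhi ≠ 0 → sg * B ≤ bhi) (h3 : (clo : ℝ) ≤ sg * C) :
    bet A B C ≤ (bHi alo bhi clo).ang := by
  rw [bHi_eq]
  split_ifs with h0
  · refine (arctan_lt_pi_div_two _).le.trans_eq ?_
    simp [G.ang]
  push Not at h0
  obtain ⟨hb, hc, ha⟩ := h0
  refine le_gHi ?_
  have s2 : (0 : ℝ) < sg2 := by norm_num [sg2]
  have ha' : (0 : ℝ) < alo := by exact_mod_cast Nat.pos_of_ne_zero ha
  have hc' : (0 : ℝ) < clo := by exact_mod_cast Nat.pos_of_ne_zero hc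
  have h4 := bet_mono ha' (mul_pos sg_pos hB).le hc' h1 (h2 hb) h3
  rw [bet_scale sg_pos hA hC] at h4
  refine (mul_le_mul_of_nonneg_left h4 s2.le).trans ?_
  rw [← mul_div_assoc, div_le_iff₀ (mul_pos ha' hc'), ← mul_assoc]
  have h5 := Nat.lt_div_mul_add (a := sg2 * bhi * (alo + bhi + clo)) (Nat.mul_pos (Nat.pos_of_ne_zero ha)
    (Nat.pos_of_ne_zero hc))
  have h6 : sg2 * bhi * (alo + bhi + clo) ≤ (sg2 * bhi * (alo + bhi + clo) / (alo * clo) + 1) * (alo * clo) := by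
    rw [add_mul, one_mul]; exact h5.le
  exact_mod_cast h6

theorem inf_lt_bet {A B C : ℝ} (hA : 0 < A) (hB : 0 < B) (hC : 0 < C) : arctan √(B / A) < bet A B C := by
  refine arctan_strictMono (sqrt_lt_sqrt (by positivity) ?_)
  rw [div_lt_div_iff₀ hA (by positivity)]
  have : 0 < A * B * (A + B) := by positivity
  nlinarith

/-- two flags of a wedge: at least a right angle -/
theorem right_le {A B A' B' : ℝ} (hA : 0 < A) (hB : 0 < B) (hA' : 0 < A') (hB' : 0 < B')
    (h : A + B = A' + B') (h1 : A' ≤ B) : π / 2 ≤ arctan √(B / A) + arctan √(B' / A') := by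
  have h2 := arctan_inv_of_pos (x := √(B / A)) (by positivity)
  have h3 : (√(B / A))⁻¹ ≤ √(B' / A') := by
    rw [← sqrt_inv, inv_div]
    refine sqrt_le_sqrt ?_
    rw [div_le_div_iff₀ hB hA']
    exact mul_le_mul (by linarith) h1 hA'.le hB'.le
  have := arctan_strictMono.monotone h3
  linarith

/-! Exact arithmetic. -/

structure K1 where
  a : ℤ
  b : ℤ

structure K2 where
  a : K1
  b : K1

structure K where
  a : K2
  b : K2

def fZ {β : Type} (z : ℤ) (k : ℤ → β) : β :=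
  Int.casesOn z (fun n => fN n fun j => k (Int.ofNat j)) fun n => fN n fun j => k (Int.negSucc j)

@[simp] theorem fZ_eq {β : Type} (z : ℤ) (k : ℤ → β) : fZ z k = k z := by cases z <;> simp [fZ]

def zZ (z : ℤ) : Bool := Int.casesOn z (fun n => Nat.beq n 0) fun _ => false

def K1.ev (u : K1) : ℝ := u.a + u.b * √2
def K2.ev (u : K2) : ℝ := u.a.ev + u.b.ev * √5
def K.ev (u : K) : ℝ := u.a.ev + u.b.ev * √3

def K1.mk' (a b : ℤ) : K1 := fZ a fun a => fZ b fun b => ⟨a, b⟩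
def K1.z (u : K1) : Bool := K1.casesOn u fun a b => zZ a && zZ b
def K1.add (u v : K1) : K1 := K1.casesOn u fun a b => K1.casesOn v fun c d => K1.mk' (Int.add a c) (Int.add b d)
def K1.sub (u v : K1) : K1 := K1.casesOn u fun a b => K1.casesOn v fun c d => K1.mk' (Int.sub a c) (Int.sub b d)
def K1.smul (n : ℤ) (u : K1) : K1 := K1.casesOn u fun a b => K1.mk' (Int.mul n a) (Int.mul n b)
def K1.mul (u v : K1) : K1 := K1.casesOn u fun a b => K1.casesOn v fun c d =>
  K1.mk' (Int.add (Int.mul a c) (Int.mul 2 (Int.mul b d))) (Int.add (Int.mul a d) (Int.mul b c))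

def K2.mk' (a b : K1) : K2 := K1.casesOn a fun a1 a2 => K1.casesOn b fun b1 b2 => ⟨⟨a1, a2⟩, ⟨b1, b2⟩⟩
def K2.z (u : K2) : Bool := K2.casesOn u fun a b => a.z && b.z
def K2.add (u v : K2) : K2 := K2.casesOn u fun a b => K2.casesOn v fun c d => K2.mk' (a.add c) (b.add d)
def K2.sub (u v : K2) : K2 := K2.casesOn u fun a b => K2.casesOn v fun c d => K2.mk' (a.sub c) (b.sub d)
def K2.smul (n : ℤ) (u : K2) : K2 := K2.casesOn u fun a b => K2.mk' (a.smul n) (b.smul n)
def K2.mul (u v : K2) : K2 := K2.casesOn u fun a b => K2.casesOn v fun c d =>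
  cond (b.z && d.z) (K2.mk' (a.mul c) ⟨0, 0⟩)
    (K2.mk' ((a.mul c).add ((b.mul d).smul 5)) ((a.mul d).add (b.mul c)))

def K.mk' (a b : K2) : K := K2.casesOn a fun a1 a2 => K2.casesOn b fun b1 b2 => ⟨⟨a1, a2⟩, ⟨b1, b2⟩⟩
def K.z (u : K) : Bool := K.casesOn u fun a b => a.z && b.z
def K.add (u v : K) : K := K.casesOn u fun a b => K.casesOn v fun c d => K.mk' (a.add c) (b.add d)
def K.sub (u v : K) : K := K.casesOn u fun a b => K.casesOn v fun c d => K.mk' (a.sub c) (b.sub d)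
def K.smul (n : ℤ) (u : K) : K := K.casesOn u fun a b => K.mk' (a.smul n) (b.smul n)
def K.mul (u v : K) : K := K.casesOn u fun a b => K.casesOn v fun c d =>
  cond (b.z && d.z) (K.mk' (a.mul c) ⟨⟨0, 0⟩, ⟨0, 0⟩⟩)
    (K.mk' ((a.mul c).add ((b.mul d).smul 3)) ((a.mul d).add (b.mul c)))
def K.of (n : ℤ) : K := ⟨⟨⟨n, 0⟩, ⟨0, 0⟩⟩, ⟨⟨0, 0⟩, ⟨0, 0⟩⟩⟩

theorem zZ_sound {z : ℤ} (h : zZ z = true) : z = 0 := by
  cases z with
  | ofNat n => exact congrArg Int.ofNat (Nat.eq_of_beq_eq_true h)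
  | negSucc n => exact absurd h (by simp [zZ])

theorem K1.mk'_eq (a b : ℤ) : K1.mk' a b = ⟨a, b⟩ := by simp only [K1.mk', fZ_eq]

theorem K2.mk'_eq (a b : K1) : K2.mk' a b = ⟨a, b⟩ := by cases a; cases b; rfl

theorem K.mk'_eq (a b : K2) : K.mk' a b = ⟨a, b⟩ := by cases a; cases b; rfl

theorem K1.ev_add (u v : K1) : (u.add v).ev = u.ev + v.ev := by
  obtain ⟨a, b⟩ := u
  obtain ⟨c, d⟩ := v
  show (K1.mk' (a + c) (b + d)).ev = _
  simp only [K1.mk'_eq, K1.ev]; push_cast; ring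

theorem K1.ev_sub (u v : K1) : (u.sub v).ev = u.ev - v.ev := by
  obtain ⟨a, b⟩ := u
  obtain ⟨c, d⟩ := v
  show (K1.mk' (a - c) (b - d)).ev = _
  simp only [K1.mk'_eq, K1.ev]; push_cast; ring

theorem K1.ev_smul (n : ℤ) (u : K1) : (u.smul n).ev = n * u.ev := by
  obtain ⟨a, b⟩ := u
  show (K1.mk' (n * a) (n * b)).ev = _
  simp only [K1.mk'_eq, K1.ev]; push_cast; ring

theorem K1.ev_mul (u v : K1) : (u.mul v).ev = u.ev * v.ev := by
  obtain ⟨a, b⟩ := u
  obtain ⟨c, d⟩ := v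
  show (K1.mk' (a * c + 2 * (b * d)) (a * d + b * c)).ev = _
  have h : √2 * √2 = (2 : ℝ) := mul_self_sqrt (by norm_num)
  simp only [K1.mk'_eq, K1.ev]; push_cast
  linear_combination (-(b : ℝ) * d) * h

theorem K1.ev_z {u : K1} (h : u.z = true) : u.ev = 0 := by
  obtain ⟨a, b⟩ := u
  have h' : (zZ a && zZ b) = true := h
  rw [Bool.and_eq_true] at h'
  simp [K1.ev, zZ_sound h'.1, zZ_sound h'.2]

theorem K2.ev_add (u v : K2) : (u.add v).ev = u.ev + v.ev := by
  obtain ⟨a, b⟩ := u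
  obtain ⟨c, d⟩ := v
  show (K2.mk' (a.add c) (b.add d)).ev = _
  simp only [K2.mk'_eq, K2.ev, K1.ev_add]; ring

theorem K2.ev_sub (u v : K2) : (u.sub v).ev = u.ev - v.ev := by
  obtain ⟨a, b⟩ := u
  obtain ⟨c, d⟩ := v
  show (K2.mk' (a.sub c) (b.sub d)).ev = _
  simp only [K2.mk'_eq, K2.ev, K1.ev_sub]; ring

theorem K2.ev_smul (n : ℤ) (u : K2) : (u.smul n).ev = n * u.ev := by
  obtain ⟨a, b⟩ := u
  show (K2.mk' (a.smul n) (b.smul n)).ev = _
  simp only [K2.mk'_eq, K2.ev, K1.ev_smul]; ring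

theorem K2.ev_z {u : K2} (h : u.z = true) : u.ev = 0 := by
  obtain ⟨a, b⟩ := u
  have h' : (a.z && b.z) = true := h
  rw [Bool.and_eq_true] at h'
  simp [K2.ev, K1.ev_z h'.1, K1.ev_z h'.2]

theorem K2.ev_mul (u v : K2) : (u.mul v).ev = u.ev * v.ev := by
  obtain ⟨a, b⟩ := u
  obtain ⟨c, d⟩ := v
  show (cond (b.z && d.z) (K2.mk' (a.mul c) ⟨0, 0⟩)
    (K2.mk' ((a.mul c).add ((b.mul d).smul 5)) ((a.mul d).add (b.mul c)))).ev = _
  have h : √5 * √5 = (5 : ℝ) := mul_self_sqrt (by norm_num)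
  cases hz : (b.z && d.z)
  · simp only [cond_false, K2.mk'_eq, K2.ev, K1.ev_add, K1.ev_mul, K1.ev_smul]; push_cast
    linear_combination (-b.ev * d.ev) * h
  · rw [Bool.and_eq_true] at hz
    have h0 : K1.ev ⟨0, 0⟩ = 0 := by simp [K1.ev]
    simp only [cond_true, K2.mk'_eq, K2.ev, K1.ev_mul, K1.ev_z hz.1, K1.ev_z hz.2, h0]; ring

@[simp] theorem K.ev_add (u v : K) : (u.add v).ev = u.ev + v.ev := by
  obtain ⟨a, b⟩ := u
  obtain ⟨c, d⟩ := v
  show (K.mk' (a.add c) (b.add d)).ev = _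
  simp only [K.mk'_eq, K.ev, K2.ev_add]; ring

@[simp] theorem K.ev_sub (u v : K) : (u.sub v).ev = u.ev - v.ev := by
  obtain ⟨a, b⟩ := u
  obtain ⟨c, d⟩ := v
  show (K.mk' (a.sub c) (b.sub d)).ev = _
  simp only [K.mk'_eq, K.ev, K2.ev_sub]; ring

@[simp] theorem K.ev_smul (n : ℤ) (u : K) : (u.smul n).ev = n * u.ev := by
  obtain ⟨a, b⟩ := u
  show (K.mk' (a.smul n) (b.smul n)).ev = _
  simp only [K.mk'_eq, K.ev, K2.ev_smul]; ring

@[simp] theorem K.ev_mul (u v : K) : (u.mul v).ev = u.ev * v.ev := by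
  obtain ⟨a, b⟩ := u
  obtain ⟨c, d⟩ := v
  show (cond (b.z && d.z) (K.mk' (a.mul c) ⟨⟨0, 0⟩, ⟨0, 0⟩⟩)
    (K.mk' ((a.mul c).add ((b.mul d).smul 3)) ((a.mul d).add (b.mul c)))).ev = _
  have h : √3 * √3 = (3 : ℝ) := mul_self_sqrt (by norm_num)
  cases hz : (b.z && d.z)
  · simp only [cond_false, K.mk'_eq, K.ev, K2.ev_add, K2.ev_mul, K2.ev_smul]; push_cast
    linear_combination (-b.ev * d.ev) * h
  · rw [Bool.and_eq_true] at hz
    have h0 : K2.ev ⟨⟨0, 0⟩, ⟨0, 0⟩⟩ = 0 := by simp [K2.ev, K1.ev]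
    simp only [cond_true, K.mk'_eq, K.ev, K2.ev_mul, K2.ev_z hz.1, K2.ev_z hz.2, h0]; ring

@[simp] theorem K.ev_of (n : ℤ) : (K.of n).ev = n := by
  simp [K.of, K.ev, K2.ev, K1.ev]

theorem K.ev_z {u : K} (h : u.z = true) : u.ev = 0 := by
  obtain ⟨a, b⟩ := u
  have h' : (a.z && b.z) = true := h
  rw [Bool.and_eq_true] at h'
  simp [K.ev, K2.ev_z h'.1, K2.ev_z h'.2]

/-- lower bound of `z * y * 2 ^ 100` when `l ≤ y * 2 ^ 100 ≤ l + 1` -/
def loZ (z : ℤ) (l : ℕ) : ℤ :=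
  Int.casesOn z (fun n => Int.ofNat (Nat.mul n l)) fun n => Int.neg (Int.ofNat (Nat.mul (Nat.succ n) (Nat.succ l)))

/-- lower bound of `u.ev * 2 ^ 100` -/
def K.lo (u : K) : ℤ :=
  K.casesOn u fun a b => K2.casesOn a fun a1 a2 => K2.casesOn b fun b1 b2 =>
    Int.mul a1.a 1267650600228229401496703205376 + loZ a1.b 1792728671193156477399422023278 +
      loZ a2.a 2834552913828731364737627458571 + loZ a2.b 4008663174000766898982620825113 +
      loZ b1.a 2195635245840476761639769790215 + loZ b1.b 3105097142691986964054364292675 +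
      loZ b2.a 4909589663493768410059244511484 + loZ b2.b 6943208287799647183090434857986

/-- test for `0 < u` -/
def K.pos (u : K) : Bool := Int.casesOn u.lo (fun n => Nat.blt 0 n) fun _ => false

theorem loZ_le (z : ℤ) {l : ℕ} {w : ℝ} (h1 : (l : ℝ) ≤ w) (h2 : w ≤ l + 1) : (loZ z l : ℝ) ≤ z * w := by
  cases z with
  | ofNat n =>
    show (((n * l : ℕ) : ℤ) : ℝ) ≤ ((n : ℤ) : ℝ) * w
    push_cast
    exact mul_le_mul_of_nonneg_left h1 (Nat.cast_nonneg n)
  | negSucc n =>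
    show ((-(((n + 1) * (l + 1) : ℕ) : ℤ) : ℤ) : ℝ) ≤ ((Int.negSucc n : ℤ) : ℝ) * w
    rw [Int.cast_negSucc]
    push_cast
    have := mul_le_mul_of_nonneg_left h2 (by positivity : (0 : ℝ) ≤ n + 1)
    linarith

theorem loZ_sqrt (z : ℤ) (l n : ℕ) (h1 : l * l ≤ n * 2 ^ 200) (h2 : n * 2 ^ 200 ≤ (l + 1) * (l + 1)) :
    (loZ z l : ℝ) ≤ z * (√n * 2 ^ 100) := by
  have e : √(n : ℝ) * 2 ^ 100 = √((n : ℝ) * 2 ^ 200) := by
    rw [sqrt_mul (Nat.cast_nonneg n), show (2 : ℝ) ^ 200 = (2 ^ 100) ^ 2 by rw [← pow_mul],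
      sqrt_sq (by positivity)]
  rw [e]
  refine loZ_le z (le_sqrt_of_sq_le ?_) (sqrt_le_iff.2 ⟨by positivity, ?_⟩)
  · rw [sq]; exact_mod_cast h1
  · rw [sq]; exact_mod_cast h2

theorem K.lo_le (u : K) : (u.lo : ℝ) ≤ u.ev * 2 ^ 100 := by
  obtain ⟨⟨a1, a2⟩, ⟨b1, b2⟩⟩ := u
  have h2 := loZ_sqrt a1.b 1792728671193156477399422023278 2 (by norm_num) (by norm_num)
  have h5 := loZ_sqrt a2.a 2834552913828731364737627458571 5 (by norm_num) (by norm_num)
  have h10 := loZ_sqrt a2.b 4008663174000766898982620825113 (2 * 5) (by norm_num) (by norm_num)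
  have h3 := loZ_sqrt b1.a 2195635245840476761639769790215 3 (by norm_num) (by norm_num)
  have h6 := loZ_sqrt b1.b 3105097142691986964054364292675 (2 * 3) (by norm_num) (by norm_num)
  have h15 := loZ_sqrt b2.a 4909589663493768410059244511484 (5 * 3) (by norm_num) (by norm_num)
  have h30 := loZ_sqrt b2.b 6943208287799647183090434857986 (2 * 5 * 3) (by norm_num) (by norm_num)
  rw [Nat.cast_mul, sqrt_mul (Nat.cast_nonneg _)] at h10 h6 h15 h30
  rw [Nat.cast_mul, sqrt_mul (Nat.cast_nonneg _)] at h30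
  simp only [Nat.cast_ofNat] at h2 h5 h10 h3 h6 h15 h30
  show ((a1.a * 1267650600228229401496703205376 + loZ a1.b 1792728671193156477399422023278 +
      loZ a2.a 2834552913828731364737627458571 + loZ a2.b 4008663174000766898982620825113 +
      loZ b1.a 2195635245840476761639769790215 + loZ b1.b 3105097142691986964054364292675 +
      loZ b2.a 4909589663493768410059244511484 + loZ b2.b 6943208287799647183090434857986 : ℤ) : ℝ) ≤ _
  simp only [K.ev, K2.ev, K1.ev]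
  push_cast
  have e : (1267650600228229401496703205376 : ℝ) = 2 ^ 100 := by norm_num
  rw [e]
  generalize (2 : ℝ) ^ 100 = T at *
  linarith

theorem K.pos_sound {u : K} (h : u.pos = true) : 0 < u.ev := by
  have h1 : 0 < u.lo := by
    unfold K.pos at h
    generalize u.lo = z at h
    cases z with
    | ofNat n => exact Int.natCast_pos.2 (Eq.mp Nat.blt_eq h)
    | negSucc n => exact absurd h (by simp)
  have h2 : (0 : ℝ) < u.lo := by exact_mod_cast h1
  exact (mul_pos_iff_of_pos_right (by positivity)).1 (h2.trans_le u.lo_le)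

/-- multiply `P + Q √(-D)` by `σ + s √(-D)` for all pairs of the list -/
def kprod (D : K) (l : List (ℕ × K)) : K × K :=
  List.rec (K.of 1, K.of 0) (fun e _ ih => Prod.casesOn ih fun P Q => Prod.casesOn e fun σ s =>
    K.casesOn ((P.smul σ).sub ((Q.mul s).mul D)) fun a b => K.casesOn ((Q.smul σ).add (P.mul s)) fun c d =>
      (⟨a, b⟩, ⟨c, d⟩)) l

theorem kprod_sound {D : K} (hD : 0 < D.ev) (l : List (ℕ × K)) (hl : ∀ e ∈ l, 0 < e.1) :
    ∃ ρ : ℝ, 0 < ρ ∧
      (kprod D l).1.ev = ρ * cos (l.map fun e => arctan (e.2.ev * √D.ev / e.1)).sum ∧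
      (kprod D l).2.ev * √D.ev = ρ * sin (l.map fun e => arctan (e.2.ev * √D.ev / e.1)).sum := by
  induction l with
  | nil => exact ⟨1, one_pos, by simp [kprod], by simp [kprod]⟩
  | cons e l ih =>
    obtain ⟨ρ, hρ, h1, h2⟩ := ih fun e he => hl e (List.mem_cons_of_mem _ he)
    obtain ⟨σ, s⟩ := e
    have hσ : (0 : ℝ) < σ := by exact_mod_cast hl (σ, s) List.mem_cons_self
    have e : kprod D ((σ, s) :: l) = ((((kprod D l).1.smul σ).sub (((kprod D l).2.mul s).mul D)),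
        ((kprod D l).2.smul σ).add ((kprod D l).1.mul s)) := rfl
    rw [e]
    simp only [List.map_cons, List.sum_cons, K.ev_sub, K.ev_add, K.ev_smul, K.ev_mul, Int.cast_natCast]
    generalize (l.map fun e => arctan (e.2.ev * √D.ev / e.1)).sum = φ at h1 h2
    have hc := cos_arctan_pos (s.ev * √D.ev / σ)
    have ht := tan_arctan (s.ev * √D.ev / σ)
    rw [tan_eq_sin_div_cos, div_eq_div_iff hc.ne' hσ.ne'] at ht
    generalize arctan (s.ev * √D.ev / σ) = θ at hc ht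
    have hd : √D.ev * √D.ev = D.ev := mul_self_sqrt hD.le
    refine ⟨ρ * (σ / cos θ), by positivity, ?_, ?_⟩
    · rw [cos_add, mul_div_assoc', div_mul_eq_mul_div, eq_div_iff hc.ne']
      linear_combination (σ * cos θ) * h1 - (s.ev * √D.ev * cos θ) * h2 + ρ * sin φ * ht +
        ((kprod D l).2.ev * s.ev * cos θ) * hd
    · rw [sin_add, mul_div_assoc', div_mul_eq_mul_div, eq_div_iff hc.ne']
      linear_combination (σ * cos θ) * h2 + (s.ev * √D.ev * cos θ) * h1 - ρ * cos φ * ht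

end

end UP

/-! Finite automata describing the combinatorial behaviour of flags, unfolded vertex stars, the context of one level. -/

namespace UP

open Real

noncomputable section

variable {F : Type} {r : ℕ → F → F} {x : ℕ → F → ℝ} {m : ℕ → F → ℕ}

/-- polygons with at least 13 sides get the code `0` -/
def cd (p : ℕ) : ℕ := if 13 ≤ p then 0 else p

/-- list of states: `s i` table of `r i`, `M i` code of `m i`, `pj` state of the facet, `T` type, `lo` first state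
of a type -/
structure Aut where
  S : ℕ
  s : ℕ → ℕ → ℕ
  M : ℕ → ℕ → ℕ
  pj : ℕ → ℕ
  T : ℕ → ℕ
  lo : ℕ → ℕ

def Sim (r : ℕ → F → F) (m : ℕ → F → ℕ) (n : ℕ) (A : Aut) (a : F) (u : ℕ) : Prop :=
  ∀ w, Wd 0 n w → ∀ i, 1 ≤ i → i < n → cd (m i (act r w a)) = A.M i (act A.s w u)

def Reach (r : ℕ → F → F) (n : ℕ) (a b : F) : Prop := ∃ w, Wd 0 n w ∧ b = act r w a

theorem au_cons {α : Type} (s : ℕ → α → α) (i : ℕ) (w : List ℕ) (a : α) : act s (i :: w) a = act s w (s i a) := rfl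

theorem au_wd_cons {lo hi i : ℕ} {w : List ℕ} : Wd lo hi (i :: w) ↔ (lo ≤ i ∧ i < hi) ∧ Wd lo hi w := by
  simp [Wd]

theorem au_wd_app {lo hi : ℕ} {w w' : List ℕ} (h : Wd lo hi w) (h' : Wd lo hi w') : Wd lo hi (w ++ w') :=
  fun i hi => (List.mem_append.1 hi).elim (h i) (h' i)

theorem au_wd_one {lo hi i : ℕ} (h1 : lo ≤ i) (h2 : i < hi) : Wd lo hi [i] := by simp [Wd, h1, h2]

theorem au_wd_nil (lo hi : ℕ) : Wd lo hi [] := by simp [Wd]

theorem au_wd_mono {lo hi lo' hi' : ℕ} {w : List ℕ} (h : Wd lo hi w) (h1 : lo' ≤ lo) (h2 : hi ≤ hi') :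
    Wd lo' hi' w := fun i hi => ⟨h1.trans (h i hi).1, (h i hi).2.trans_le h2⟩

theorem au_act_app {α : Type} (s : ℕ → α → α) (w w' : List ℕ) (a : α) :
    act s (w ++ w') a = act s w' (act s w a) := by simp [act]

theorem Sys.mono {N n : ℕ} (S : Sys N r x m) (h : n ≤ N) : Sys n r x m := by
  exact ⟨fun i hi => S.rr i (by omega), fun i j h1 h2 => S.comm i j h1 (by omega), S.x0, S.x1,
    fun i hi => S.xlt i (by omega), fun i j h1 h2 => S.xr i j (by omega) (by omega),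
    fun i j h1 h2 h3 => S.mr i j h1 (by omega) (by omega), fun i h1 h2 => S.cyc i h1 (by omega),
    fun i h1 h2 => S.first i h1 (by omega), fun h2 => S.poly (by omega),
    fun i h1 h2 => S.ang i h1 (by omega), fun k h1 h2 => S.trans k h1 (by omega)⟩

theorem Reach.refl (n : ℕ) (a : F) : Reach r n a a := by
  exact ⟨[], au_wd_nil _ _, rfl⟩

theorem Reach.step {n i : ℕ} {a b : F} (h : Reach r n a b) (hi : i < n) : Reach r n a (r i b) := by
  obtain ⟨w, hw, rfl⟩ := h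
  exact ⟨w ++ [i], au_wd_app hw (au_wd_one (Nat.zero_le _) hi), by rw [au_act_app]; rfl⟩

theorem Reach.trans' {n : ℕ} {a b c : F} (h : Reach r n a b) (h' : Reach r n b c) : Reach r n a c := by
  obtain ⟨w, hw, rfl⟩ := h
  obtain ⟨w', hw', rfl⟩ := h'
  exact ⟨w ++ w', au_wd_app hw hw', by rw [au_act_app]⟩

theorem Reach.symm' {N n : ℕ} (S : Sys N r x m) (hn : n ≤ N) {a b : F} (h : Reach r n a b) : Reach r n b a := by
  obtain ⟨w, hw, rfl⟩ := h
  induction w generalizing a with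
  | nil => exact Reach.refl _ _
  | cons i w ih =>
    obtain ⟨hi, hw⟩ := au_wd_cons.1 hw
    have := (ih (a := r i a) hw).step hi.2
    rwa [S.rr i (by omega)] at this

theorem Eqv.refl' (k : ℕ) (a : F) : Eqv r m k a a := fun _ _ _ _ _ => rfl

theorem Eqv.trans' {k : ℕ} {a b c : F} (h : Eqv r m k a b) (h' : Eqv r m k b c) : Eqv r m k a c :=
  fun w hw i h1 h2 => (h w hw i h1 h2).trans (h' w hw i h1 h2)

theorem Sim.step {n j u : ℕ} {A : Aut} {a : F} (h : Sim r m n A a u) (hj : j < n) :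
    Sim r m n A (r j a) (A.s j u) := by
  exact fun w hw i h1 h2 => h (j :: w) (au_wd_cons.2 ⟨⟨Nat.zero_le _, hj⟩, hw⟩) i h1 h2

theorem Sim.base {n i u : ℕ} {A : Aut} {a : F} (h : Sim r m n A a u) (h1 : 1 ≤ i) (h2 : i < n) :
    cd (m i a) = A.M i u := by
  exact h [] (au_wd_nil _ _) i h1 h2

theorem Sim.eqv {n u : ℕ} {A : Aut} {a b : F} (h : Sim r m n A a u) (e : Eqv r m n a b) : Sim r m n A b u := by
  exact fun w hw i h1 h2 => by rw [← e w hw i h1 h2]; exact h w hw i h1 h2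

/-- coinduction -/
theorem sim_of_rel {n : ℕ} {A : Aut} (Q : F → ℕ → Prop)
    (h1 : ∀ b u, Q b u → ∀ i, i < n → Q (r i b) (A.s i u))
    (h2 : ∀ b u, Q b u → ∀ i, 1 ≤ i → i < n → cd (m i b) = A.M i u) {a : F} {u : ℕ} (h : Q a u) :
    Sim r m n A a u := by
  intro w hw
  induction w generalizing a u with
  | nil => exact h2 a u h
  | cons j w ih => exact ih (h1 a u h j (au_wd_cons.1 hw).1.2) (au_wd_cons.1 hw).2

theorem eqv_of_rel {n : ℕ} (Q : F → F → Prop) (h1 : ∀ b c, Q b c → ∀ i, i < n → Q (r i b) (r i c))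
    (h2 : ∀ b c, Q b c → ∀ i, 1 ≤ i → i < n → m i b = m i c) {a b : F} (h : Q a b) : Eqv r m n a b := by
  intro w hw
  induction w generalizing a b with
  | nil => exact h2 a b h
  | cons j w ih => exact ih (h1 a b h j (au_wd_cons.1 hw).1.2) (au_wd_cons.1 hw).2

/-- consistency of the list `A` of level `n` over the list `B` of level `n - 1` -/
def okL (n : ℕ) (A B : Aut) : Bool :=
  allR A.S fun u => fN (A.T u) fun t => fN (A.pj u) fun p =>
    (allR n fun i => fN (A.s i u) fun v => Nat.blt v A.S && Nat.beq (A.s i v) u && Nat.beq (A.T v) t) &&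
    (Nat.beq u (A.lo t) || anyI 1 n fun i => Nat.blt (A.s i u) u) &&
    Nat.blt p B.S &&
    (allR (Nat.sub n 1) fun i => Nat.beq (A.pj (A.s i u)) (B.s i p)) &&
    (allI 1 (Nat.sub n 1) fun i => Nat.beq (A.M i u) (B.M i p))

structure Lst (n : ℕ) (A B : Aut) : Prop where
  lt : ∀ u, u < A.S → ∀ i, i < n → A.s i u < A.S
  inv : ∀ u, u < A.S → ∀ i, i < n → A.s i (A.s i u) = u
  ty : ∀ u, u < A.S → ∀ i, i < n → A.T (A.s i u) = A.T u
  conn : ∀ u v, u < A.S → v < A.S → A.T u = A.T v → ∃ w, Wd 1 n w ∧ act A.s w u = v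
  root : ∀ u, u < A.S → A.lo (A.T u) < A.S ∧ A.T (A.lo (A.T u)) = A.T u
  pl : ∀ u, u < A.S → A.pj u < B.S
  ps : ∀ u, u < A.S → ∀ i, i + 1 < n → A.pj (A.s i u) = B.s i (A.pj u)
  pm : ∀ u, u < A.S → ∀ i, 1 ≤ i → i + 1 < n → A.M i u = B.M i (A.pj u)

theorem okL_sound {n : ℕ} {A B : Aut} (h : okL n A B = true) : Lst n A B := by
  simp only [okL, allR_iff, fN_eq, Bool.and_eq_true, Bool.or_eq_true, Nat.blt_eq, Nat.beq_eq, anyI_iff,
    allI_iff, Nat.sub_eq] at h
  have lt : ∀ u, u < A.S → ∀ i, i < n → A.s i u < A.S := fun u hu i hi => ((h u hu).1.1.1.1 i hi).1.1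
  have inv : ∀ u, u < A.S → ∀ i, i < n → A.s i (A.s i u) = u := fun u hu i hi =>
    ((h u hu).1.1.1.1 i hi).1.2
  have ty : ∀ u, u < A.S → ∀ i, i < n → A.T (A.s i u) = A.T u := fun u hu i hi =>
    ((h u hu).1.1.1.1 i hi).2
  have down : ∀ u, u < A.S → (A.lo (A.T u) < A.S ∧ A.T (A.lo (A.T u)) = A.T u) ∧
      (∃ w, Wd 1 n w ∧ act A.s w u = A.lo (A.T u)) ∧ ∃ w, Wd 1 n w ∧ act A.s w (A.lo (A.T u)) = u := by
    intro u
    induction u using Nat.strong_induction_on with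
    | _ u ih =>
      intro hu
      rcases (h u hu).1.1.1.2 with e | ⟨i, i1, i2, hi⟩
      · exact ⟨⟨e ▸ hu, by rw [← e]⟩, ⟨[], au_wd_nil _ _, e⟩, [], au_wd_nil _ _, e.symm⟩
      · obtain ⟨a1, ⟨w, hw, e⟩, w', hw', e'⟩ := ih _ hi (lt u hu i i2)
        rw [ty u hu i i2] at a1 e e'
        exact ⟨a1, ⟨i :: w, au_wd_cons.2 ⟨⟨i1, i2⟩, hw⟩, e⟩, w' ++ [i], au_wd_app hw' (au_wd_one i1 i2),
          by rw [au_act_app, e']; exact inv u hu i i2⟩
  refine ⟨lt, inv, ty, fun u v hu hv e => ?_, fun u hu => (down u hu).1, fun u hu => (h u hu).1.1.2,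
    fun u hu i hi => (h u hu).1.2 i (by omega), fun u hu i h1 h2 => (h u hu).2 i h1 (by omega)⟩
  obtain ⟨-, ⟨w, hw, e1⟩, -⟩ := down u hu
  obtain ⟨-, -, w', hw', e2⟩ := down v hv
  exact ⟨w ++ w', au_wd_app hw hw', by rw [au_act_app, e1, e, e2]⟩

theorem Sim.proj {n u : ℕ} {A B : Aut} (L : Lst (n + 1) A B) {a : F} (hu : u < A.S)
    (h : Sim r m (n + 1) A a u) : Sim r m n B a (A.pj u) := by
  refine sim_of_rel (fun b p => ∃ v, v < A.S ∧ Sim r m (n + 1) A b v ∧ p = A.pj v) ?_ ?_ ⟨u, hu, h, rfl⟩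
  · rintro b _ ⟨v, hv, hs, rfl⟩ i hi
    exact ⟨_, L.lt v hv i (by omega), hs.step (by omega), (L.ps v hv i (by omega)).symm⟩
  · rintro b _ ⟨v, hv, hs, rfl⟩ i h1 hi
    rw [hs.base h1 (by omega), L.pm v hv i h1 (by omega)]

def Uniq (r : ℕ → F → F) (m : ℕ → F → ℕ) (n : ℕ) (A : Aut) : Prop :=
  ∀ a u v, u < A.S → v < A.S → Sim r m n A a u → Sim r m n A a v → u = v

/-- pack `f 0, …, f (S - 1)` into 32 bit entries (the result is always checked) -/
def mk32 (S : ℕ) (f : ℕ → ℕ) : ℕ :=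
  (Nat.rec (fun a => a) (fun k ih a => fN (Nat.add (Nat.shiftLeft a 32) (f k)) ih) S : ℕ → ℕ) 0

def g32 (a i : ℕ) : ℕ := gt 32 4294967295 a i

/-- go on with a table that agrees with `f` below `S` -/
def tab32 (S : ℕ) (f : ℕ → ℕ) (k : (ℕ → ℕ) → Bool) : Bool :=
  fN (mk32 S f) fun a => allR S (fun u => Nat.beq (g32 a u) (f u)) && k (g32 a)

theorem tab32_sound {S : ℕ} {f : ℕ → ℕ} {k : (ℕ → ℕ) → Bool} (h : tab32 S f k = true) :
    ∃ g : ℕ → ℕ, (∀ u, u < S → g u = f u) ∧ k g = true := by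
  simp only [tab32, fN_eq, Bool.and_eq_true, allR_iff, Nat.beq_eq] at h
  exact ⟨_, h.1, h.2⟩

/-- `h` is injective below `S` -/
def injB (S : ℕ) (h : ℕ → ℕ) : Bool :=
  (Nat.rec (fun _ => true) (fun k ih B => fN (h k) fun v => !bt B v && fN (bs B v) ih) S : ℕ → Bool) 0

theorem injB_sound {S : ℕ} {h : ℕ → ℕ} (e : injB S h = true) : ∀ u v, u < S → v < S → h u = h v → u = v := by
  simp only [injB, fN_eq] at e
  have key : ∀ (k B : ℕ), (Nat.rec (fun _ => true) (fun k ih B => !bt B (h k) && ih (bs B (h k))) k :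
      ℕ → Bool) B = true → (∀ u, u < k → bt B (h u) = false) ∧ ∀ u v, u < k → v < k → h u = h v → u = v := by
    intro k
    induction k with
    | zero => simp
    | succ k ih =>
      intro B e
      simp only [Bool.and_eq_true, Bool.not_eq_true'] at e
      obtain ⟨a1, a2⟩ := ih _ e.2
      simp only [bt_bs, Bool.or_eq_false_iff, decide_eq_false_iff_not] at a1
      refine ⟨fun u hu => ?_, fun u v hu hv huv => ?_⟩
      · rcases Nat.lt_succ_iff_lt_or_eq.1 hu with hu | rfl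
        · exact (a1 u hu).1
        · exact e.1
      · rcases Nat.lt_succ_iff_lt_or_eq.1 hu with hu | rfl <;>
          rcases Nat.lt_succ_iff_lt_or_eq.1 hv with hv | rfl
        · exact a2 u v hu hv huv
        · exact absurd huv (a1 u hu).2
        · exact absurd huv.symm (a1 v hv).2
        · rfl
  exact (key S 0 e).2

def hstep (n c : ℕ) (A : Aut) (h : ℕ → ℕ) (u : ℕ) : ℕ :=
  fN (Nat.rec (h u) (fun i ih => Nat.add (Nat.mul ih c) (h (A.s i u))) n) fun v => Nat.mod (Nat.mul v v) 4294967291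

/-- hash signatures separate the states of level `n + 1` -/
def okH (n c rounds : ℕ) (A : Aut) : Bool :=
  (Nat.rec (fun h => injB A.S fun u => Nat.mod (h u) 131071)
    (fun _ ih h => tab32 A.S (hstep (n + 1) c A h) ih) rounds : (ℕ → ℕ) → Bool)
    fun u => Nat.add (Nat.mul (A.pj u) 16) (A.M n u)

theorem okH_sound {n c rounds : ℕ} {A B : Aut} (hn : 1 ≤ n) (L : Lst (n + 1) A B) (hB : Uniq r m n B)
    (h : okH n c rounds A = true) : Uniq r m (n + 1) A := by
  have key : ∀ (k : ℕ) (g : ℕ → ℕ),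
      (∀ a u v, u < A.S → v < A.S → Sim r m (n + 1) A a u → Sim r m (n + 1) A a v → g u = g v) →
      (Nat.rec (fun h => injB A.S fun u => Nat.mod (h u) 131071)
        (fun _ ih h => tab32 A.S (hstep (n + 1) c A h) ih) k : (ℕ → ℕ) → Bool) g = true →
      Uniq r m (n + 1) A := by
    intro k
    induction k with
    | zero =>
      intro g hg e a u v hu hv h1 h2
      exact injB_sound e u v hu hv (by rw [hg a u v hu hv h1 h2])
    | succ k ih =>
      intro g hg e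
      obtain ⟨g', e1, e2⟩ := tab32_sound e
      refine ih g' (fun a u v hu hv h1 h2 => ?_) e2
      have : ∀ l : ℕ, l ≤ n + 1 →
          (Nat.rec (g u) (fun i ih => Nat.add (Nat.mul ih c) (g (A.s i u))) l : ℕ) =
            Nat.rec (g v) (fun i ih => Nat.add (Nat.mul ih c) (g (A.s i v))) l := by
        intro l
        induction l with
        | zero => exact fun _ => hg a u v hu hv h1 h2
        | succ l ih =>
          intro hl
          have e3 := hg _ _ _ (L.lt u hu l hl) (L.lt v hv l hl) (h1.step hl) (h2.step hl)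
          exact congrArg₂ Nat.add (congrArg (Nat.mul · c) (ih (by omega))) e3
      rw [e1 u hu, e1 v hv, hstep, hstep, fN_eq, fN_eq, this _ le_rfl]
  refine key rounds _ (fun a u v hu hv h1 h2 => ?_) h
  rw [hB a _ _ (L.pl u hu) (L.pl v hv) (h1.proj L hu) (h2.proj L hv), ← h1.base hn (by omega),
    ← h2.base hn (by omega)]

/-- the unfolded vertex stars: `R i` table of `r i`, `kap` state, `klo`, `ksz` range of a type, `krep` a flag with a
given state, `kdn` generator leading to a smaller index, `ce` order in which the edges are established -/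
structure Unf where
  R : ℕ → ℕ → ℕ
  kap : ℕ → ℕ
  klo : ℕ → ℕ
  ksz : ℕ → ℕ
  krep : ℕ → ℕ
  kdn : ℕ → ℕ
  ce : ℕ → ℕ → ℕ

/-- walk `len` steps alternating `j, i`, all edges of rank below `rk`; returns the end plus one, or zero -/
def walkE (K : Unf) (rk len : ℕ) : ℕ → ℕ → ℕ → ℕ :=
  Nat.rec (fun k _ _ => Nat.succ k)
    (fun _ ih k j i => cond (Nat.blt (Nat.div (K.ce j k) 4) rk) (fN (K.R j k) fun k' => ih k' i j) 0) len

def ordE (A : Aut) (i j u : ℕ) : ℕ :=
  cond (Nat.beq (Nat.succ i) j) (A.M j u) (cond (Nat.beq (Nat.succ j) i) (A.M i u) 2)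

def okEdge (n : ℕ) (A : Aut) (K : Unf) (lo k i k1 : ℕ) : Bool :=
  fN (K.ce i k) fun e => cond (Nat.beq e 0) (!Nat.beq k lo && Nat.beq (K.kdn k) i)
    (fN (Nat.div e 4) fun rk => fN (Nat.mod e 4) fun j =>
      cond (Nat.beq j 0) (Nat.blt (Nat.div (K.ce i k1) 4) rk)
        (Nat.blt j n && !Nat.beq j i && fN (ordE A i j (K.kap k1)) fun o =>
          !Nat.beq o 0 && Nat.beq (walkE K rk (Nat.sub (Nat.mul 2 o) 1) k1 j i) (Nat.succ k)))

/-- the stars of the types `[t0, t1)` of level `n` are simply connected -/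
def okU (n : ℕ) (A : Aut) (K : Unf) (t0 t1 : ℕ) : Bool :=
  allI t0 t1 fun t => fN (K.klo t) fun lo => fN (Nat.add lo (K.ksz t)) fun hi => Nat.ble hi 4095 &&
    allI lo hi fun k => fN (K.kap k) fun u => Nat.blt u A.S &&
      (Nat.beq k lo || fN (K.kdn k) fun d => Nat.ble 1 d && Nat.blt d n && Nat.blt (K.R d k) k) &&
      allI 1 n fun i => fN (K.R i k) fun k1 => Nat.ble lo k1 && Nat.blt k1 hi && Nat.beq (K.R i k1) k &&
        Nat.beq (K.kap k1) (A.s i u) && okEdge n A K lo k i k1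

def okRep (A : Aut) (K : Unf) (lim nT : ℕ) : Bool :=
  allR lim fun u => fN (A.T u) fun t => fN (K.krep u) fun k => Nat.blt t nT && Nat.ble (K.klo t) k &&
    Nat.blt k (Nat.add (K.klo t) (K.ksz t)) && Nat.beq (K.kap k) u

/-- a flag of state `kap k0` has its star parametrised by the unfolded star of type `t` -/
def UpT (r : ℕ → F → F) (m : ℕ → F → ℕ) (n : ℕ) (A : Aut) (K : Unf) (t : ℕ) : Prop :=
  K.klo t + K.ksz t ≤ 4095 ∧ ∀ k0 b, K.klo t ≤ k0 → k0 < K.klo t + K.ksz t → Sim r m n A b (K.kap k0) →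
    ∃ h : ℕ → F, h k0 = b ∧ ∀ k, K.klo t ≤ k → k < K.klo t + K.ksz t →
      (∃ w, Wd 1 n w ∧ h k = act r w b) ∧ K.kap k < A.S ∧ Sim r m n A (h k) (K.kap k) ∧
      ∀ i, 1 ≤ i → i < n → K.klo t ≤ K.R i k ∧ K.R i k < K.klo t + K.ksz t ∧ h (K.R i k) = r i (h k)

theorem au_div (a b : ℕ) : Nat.div a b = a / b := rfl

theorem au_mod (a b : ℕ) : Nat.mod a b = a % b := rfl

/-- the flag with index `k` of the star with root `c` -/
def auH (r : ℕ → F → F) (K : Unf) (lo : ℕ) (c : F) (k : ℕ) : F :=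
  if _h : k ≠ lo ∧ K.R (K.kdn k) k < k then r (K.kdn k) (auH r K lo c (K.R (K.kdn k) k)) else c
termination_by k
decreasing_by exact _h.2

def auAlt (r : ℕ → F → F) : ℕ → ℕ → ℕ → F → F
  | 0, _, _, a => a
  | n + 1, j, i, a => auAlt r n i j (r j a)

theorem au_alt (i j o : ℕ) (a : F) :
    r i (auAlt r (2 * o + 1) j i a) = (fun b => r i (r j b))^[o + 1] a := by
  induction o generalizing a with
  | zero => rfl
  | succ o ih => exact ih (r i (r j a))

theorem au_rel {n i j u : ℕ} {A : Aut} {a : F} (S : Sys n r x m) (h : Sim r m n A a u) (j1 : 1 ≤ j) (j2 : j < n)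
    (i1 : 1 ≤ i) (i2 : i < n) (ji : j ≠ i) (o0 : ordE A i j u ≠ 0) :
    r i (auAlt r (2 * ordE A i j u - 1) j i a) = a := by
  obtain ⟨o, ho⟩ := Nat.exists_eq_succ_of_ne_zero o0
  have cdm : ∀ l, 1 ≤ l → l < n → A.M l u = o + 1 → m l a = o + 1 := fun l l1 l2 e => by
    have := h.base l1 l2
    rw [e, cd] at this
    split_ifs at this
    exact this
  rw [ho, show 2 * o.succ - 1 = 2 * o + 1 by omega, au_alt (r := r)]
  simp only [ordE, cond_eq_if, Nat.beq_eq] at ho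
  split_ifs at ho with c1 c2
  · have e := S.cyc j j1 j2 a
    rw [cdm j j1 j2 ho] at e
    have inv : Function.LeftInverse (fun b => r i (r j b)) (rot r j) := fun b => by
      simp only [rot, S.rr j j2, show j - 1 = i by omega, S.rr i i2]
    conv_lhs => rw [← e]
    exact inv.iterate _ a
  · have e := S.cyc i i1 i2 a
    rw [cdm i i1 i2 ho] at e
    have : rot r i = fun b => r i (r j b) := by
      funext b
      rw [rot, show i - 1 = j by omega]
    rwa [this] at e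
  · obtain rfl : o = 1 := by omega
    have : ∀ b, r i (r j b) = r j (r i b) := fun b => by
      rcases lt_or_gt_of_ne ji with l | l
      · exact (S.comm j i (by omega) i2 b).symm
      · exact S.comm i j (by omega) j2 b
    simp only [Function.iterate_succ_apply, Function.iterate_zero, id]
    rw [this a, S.rr j j2, S.rr i i2]

theorem okU_sound {n t0 t1 : ℕ} {A : Aut} {K : Unf} (S : Sys n r x m) (h : okU n A K t0 t1 = true) {t : ℕ}
    (h0 : t0 ≤ t) (h1 : t < t1) : UpT r m n A K t := by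
  simp only [okU, allI_iff, fN_eq, Bool.and_eq_true, Bool.or_eq_true, Nat.blt_eq, Nat.beq_eq, Nat.ble_eq,
    Nat.add_eq] at h
  obtain ⟨hb, h⟩ := h t h0 h1
  set lo := K.klo t
  set hi := lo + K.ksz t
  have dn : ∀ k, lo ≤ k → k < hi → k ≠ lo → 1 ≤ K.kdn k ∧ K.kdn k < n ∧ K.R (K.kdn k) k < k :=
    fun k k1 k2 k3 => by simpa [k3, and_assoc] using (h k k1 k2).1.2
  have ed : ∀ k, lo ≤ k → k < hi → ∀ i, 1 ≤ i → i < n → lo ≤ K.R i k ∧ K.R i k < hi ∧
      K.R i (K.R i k) = k ∧ K.kap (K.R i k) = A.s i (K.kap k) ∧ okEdge n A K lo k i (K.R i k) = true :=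
    fun k k1 k2 i i1 i2 => by simpa [and_assoc] using (h k k1 k2).2 i i1 i2
  have up : ∀ c k, lo ≤ k → k < hi → k ≠ lo →
      auH r K lo c k = r (K.kdn k) (auH r K lo c (K.R (K.kdn k) k)) := fun c k k1 k2 k3 => by
    rw [auH, dif_pos ⟨k3, (dn k k1 k2 k3).2.2⟩]
  have base : ∀ c, auH r K lo c lo = c := fun c => by rw [auH, dif_neg (by simp)]
  have sim : ∀ c, Sim r m n A c (K.kap lo) → ∀ k, lo ≤ k → k < hi →
      Sim r m n A (auH r K lo c k) (K.kap k) ∧ ∃ w, Wd 1 n w ∧ auH r K lo c k = act r w c := by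
    intro c hc k
    induction k using Nat.strong_induction_on with
    | _ k ih =>
      intro k1 k2
      by_cases k3 : k = lo
      · rw [k3, base]
        exact ⟨hc, [], au_wd_nil _ _, rfl⟩
      obtain ⟨d1, d2, d3⟩ := dn k k1 k2 k3
      obtain ⟨e1, e2, e3, -, -⟩ := ed k k1 k2 _ d1 d2
      obtain ⟨s, w, hw, e⟩ := ih _ d3 e1 e2
      rw [up c k k1 k2 k3]
      have := s.step d2
      rw [← (ed _ e1 e2 _ d1 d2).2.2.2.1, e3] at this
      exact ⟨this, w ++ [K.kdn k], au_wd_app hw (au_wd_one d1 d2), by rw [au_act_app, e]; rfl⟩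
  have edge : ∀ c, Sim r m n A c (K.kap lo) → ∀ q k i, K.ce i k / 4 = q → lo ≤ k → k < hi → 1 ≤ i → i < n →
      auH r K lo c (K.R i k) = r i (auH r K lo c k) := by
    intro c hc q
    induction q using Nat.strong_induction_on with
    | _ q ih =>
      intro k i hq k1 k2 i1 i2
      obtain ⟨e1, e2, e3, -, e5⟩ := ed k k1 k2 i i1 i2
      simp only [okEdge, fN_eq, cond_eq_if, Nat.beq_eq, au_div, au_mod] at e5
      split_ifs at e5 with c1 c2
      · simp only [Bool.and_eq_true, Bool.not_eq_true', Nat.beq_eq, ← Bool.not_eq_true] at e5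
        rw [up c k k1 k2 e5.1, e5.2, S.rr i i2]
      · have := ih _ (hq ▸ Nat.blt_eq.mp e5) _ i rfl e1 e2 i1 i2
        rw [e3] at this
        rw [this, S.rr i i2]
      · simp only [Bool.and_eq_true, Bool.not_eq_true', Nat.beq_eq, ← Bool.not_eq_true, Nat.blt_eq,
          Nat.sub_eq, Nat.mul_eq] at e5
        obtain ⟨⟨j2, ji⟩, o0, hw⟩ := e5
        set j := K.ce i k % 4
        have walk : ∀ len k' j' i', lo ≤ k' → k' < hi → 1 ≤ j' → j' < n → 1 ≤ i' → i' < n →
            walkE K (K.ce i k / 4) len k' j' i' = k + 1 →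
            auH r K lo c k = auAlt r len j' i' (auH r K lo c k') := by
          intro len
          induction len with
          | zero =>
            intro k' j' i' _ _ _ _ _ _ e
            have : k' + 1 = k + 1 := e
            rw [Nat.succ.inj this]
            rfl
          | succ len ih' =>
            intro k' j' i' a1 a2 a3 a4 a5 a6 e
            have e' : cond (Nat.blt (K.ce j' k' / 4) (K.ce i k / 4))
              (fN (K.R j' k') fun k'' => walkE K (K.ce i k / 4) len k'' i' j') 0 = k + 1 := e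
            rw [fN_eq, cond_eq_if] at e'
            split_ifs at e' with c3
            · obtain ⟨b1, b2, -⟩ := ed k' a1 a2 j' a3 a4
              rw [ih' _ _ _ b1 b2 a5 a6 a3 a4 e', ih _ (hq ▸ Nat.blt_eq.mp c3) k' j' rfl a1 a2 a3 a4]
              rfl
        rw [walk _ _ j i e1 e2 (by omega) j2 i1 i2 hw]
        exact (au_rel S (sim c hc _ e1 e2).1 (by omega) j2 i1 i2 ji o0).symm
  refine ⟨hb, fun k0 b k1 k2 hs => ?_⟩
  obtain ⟨c, hc, e, w, hw, rfl⟩ : ∃ c, Sim r m n A c (K.kap lo) ∧ auH r K lo c k0 = b ∧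
      ∃ w, Wd 1 n w ∧ c = act r w b := by
    induction k0 using Nat.strong_induction_on generalizing b with
    | _ k ih =>
      by_cases k3 : k = lo
      · exact ⟨b, k3 ▸ hs, by rw [k3, base], [], au_wd_nil _ _, rfl⟩
      obtain ⟨d1, d2, d3⟩ := dn k k1 k2 k3
      obtain ⟨e1, e2, -, e4, -⟩ := ed k k1 k2 _ d1 d2
      obtain ⟨c, hc, e, w, hw, e'⟩ := ih _ d3 (r (K.kdn k) b) e1 e2 (e4 ▸ hs.step d2)
      exact ⟨c, hc, by rw [up c k k1 k2 k3, e, S.rr _ d2], K.kdn k :: w,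
        au_wd_cons.2 ⟨⟨d1, d2⟩, hw⟩, e'⟩
  refine ⟨auH r K lo (act r w b), e, fun k a1 a2 => ?_⟩
  obtain ⟨s, w', hw', e'⟩ := sim _ hc k a1 a2
  exact ⟨⟨w ++ w', au_wd_app hw hw', by rw [au_act_app, e']⟩, (h k a1 a2).1.1, s, fun i i1 i2 =>
    ⟨(ed k a1 a2 i i1 i2).1, (ed k a1 a2 i i1 i2).2.1, edge _ hc _ k i rfl a1 a2 i1 i2⟩⟩

/-- numerical data of the states of level `n`: bounds (times `sg`, upper bound `0` = none) for
`x (n-1) - x (n-2)`, `x n - x (n-1)`, `x n`; `ur`: the wedge is at least a right angle; exact slopes -/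
structure Num where
  alo : ℕ → ℕ
  ahi : ℕ → ℕ
  blo : ℕ → ℕ
  bhi : ℕ → ℕ
  xlo : ℕ → ℕ
  xhi : ℕ → ℕ
  ur : ℕ → Bool
  dc : ℕ → ℕ
  sd : ℕ → ℕ
  sk : ℕ → K
  D : ℕ → K

/-- limit of `betF x n` for an infinitely large polytope -/
def binf (x : ℕ → F → ℝ) (n : ℕ) (b : F) : ℝ := arctan √((x n b - x (n - 1) b) / (x (n - 1) b - x (n - 2) b))

structure NumAt (r : ℕ → F → F) (x : ℕ → F → ℝ) (n : ℕ) (Z : Num) (b : F) (u : ℕ) : Prop where
  alo : (Z.alo u : ℝ) ≤ sg * (x (n - 1) b - x (n - 2) b)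
  ahi : Z.ahi u ≠ 0 → sg * (x (n - 1) b - x (n - 2) b) ≤ Z.ahi u
  blo : (Z.blo u : ℝ) ≤ sg * (x n b - x (n - 1) b)
  bhi : Z.bhi u ≠ 0 → sg * (x n b - x (n - 1) b) ≤ Z.bhi u
  xlo : (Z.xlo u : ℝ) ≤ sg * x n b
  xhi : Z.xhi u ≠ 0 → sg * x n b ≤ Z.xhi u
  ur : Z.ur u = true → π / 2 ≤ binf x n b + binf x n (r (n - 1) b)
  ex : Z.dc u ≠ 0 → 0 < (Z.D (Z.dc u)).ev ∧ 0 < Z.sd u ∧
    binf x n b = arctan ((Z.sk u).ev * √(Z.D (Z.dc u)).ev / Z.sd u)

/-- everything known about the facets (level `n`) inside one `(n+1)`-face, whose flags form the set `P` -/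
structure Ctx (r : ℕ → F → F) (x : ℕ → F → ℝ) (m : ℕ → F → ℕ) (n : ℕ) (A : Aut) (K : Unf) (Z : Num) (lim : ℕ)
    (col : F → ℕ) (P : F → Prop) : Prop where
  S : Sys (n + 1) r x m
  h2 : 2 ≤ n
  cl : ∀ i b, i ≤ n → P b → P (r i b)
  cn : ∀ b c, P b → P c → Reach r (n + 1) b c
  lt : ∀ b, P b → col b < lim
  cs : ∀ i b, i < n → P b → col (r i b) = A.s i (col b)
  ts : ∀ i b, i < n → P b → A.T (col (r i b)) = A.T (col b)
  cp : ∀ b, P b → A.pj (col (r n b)) = A.pj (col b)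
  cm : ∀ i b, 1 ≤ i → i < n → P b → cd (m i b) = A.M i (col b)
  ev : ∀ b c, P b → P c → Eqv r m n b c → col b = col c
  ty : ∀ b u, P b → u < lim → A.T u = A.T (col b) → ∃ c, P c ∧ col c = u
  num : ∀ b, P b → NumAt r x n Z b (col b)
  up : ∀ b, P b → K.klo (A.T (col b)) + K.ksz (A.T (col b)) ≤ 4095 ∧ K.klo (A.T (col b)) ≤ K.krep (col b) ∧
    K.krep (col b) < K.klo (A.T (col b)) + K.ksz (A.T (col b)) ∧
    ∃ h : ℕ → F, h (K.krep (col b)) = b ∧ ∀ k, K.klo (A.T (col b)) ≤ k → k < K.klo (A.T (col b)) + K.ksz (A.T (col b)) →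
      P (h k) ∧ col (h k) = K.kap k ∧ ∀ i, 1 ≤ i → i < n → K.klo (A.T (col b)) ≤ K.R i k ∧
        K.R i k < K.klo (A.T (col b)) + K.ksz (A.T (col b)) ∧ h (K.R i k) = r i (h k)

/-- what a finished level `n` hands to the next one -/
structure Lev (r : ℕ → F → F) (x : ℕ → F → ℝ) (m : ℕ → F → ℕ) (n : ℕ) (A B : Aut) (K : Unf) (Z : Num)
    (lim : ℕ) : Prop where
  L : Lst n A B
  le : lim ≤ A.S
  tot : ∀ a, ∃ u, u < A.S ∧ Sim r m n A a u
  uA : Uniq r m n A
  uB : Uniq r m (n - 1) B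
  num : ∀ a u, u < lim → Sim r m n A a u → NumAt r x n Z a u
  up : ∀ u, u < lim → UpT r m n A K (A.T u) ∧ K.klo (A.T u) ≤ K.krep u ∧
    K.krep u < K.klo (A.T u) + K.ksz (A.T u) ∧ K.kap (K.krep u) = u

theorem Lev.mono {n lim lim' : ℕ} {A B : Aut} {K : Unf} {Z : Num} (h : Lev r x m n A B K Z lim) (hl : lim' ≤ lim) :
    Lev r x m n A B K Z lim' :=
  ⟨h.L, hl.trans h.le, h.tot, h.uA, h.uB, fun a u hu => h.num a u (hu.trans_le hl), fun u hu => h.up u (hu.trans_le hl)⟩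

open Classical in
def Lev.col {n lim : ℕ} {A B : Aut} {K : Unf} {Z : Num} (h : Lev r x m n A B K Z lim) (a : F) : ℕ :=
  choose (h.tot a)

theorem Lev.col_lt {n lim : ℕ} {A B : Aut} {K : Unf} {Z : Num} (h : Lev r x m n A B K Z lim) (a : F) :
    h.col a < A.S := (Classical.choose_spec (h.tot a)).1

theorem Lev.col_sim {n lim : ℕ} {A B : Aut} {K : Unf} {Z : Num} (h : Lev r x m n A B K Z lim) (a : F) :
    Sim r m n A a (h.col a) := (Classical.choose_spec (h.tot a)).2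

theorem Lev.ctx {n lim : ℕ} {A B : Aut} {K : Unf} {Z : Num} (h : Lev r x m n A B K Z lim) (S : Sys (n + 1) r x m)
    (h2 : 2 ≤ n) (a : F) (hl : ∀ b, Reach r (n + 1) a b → h.col b < lim) :
    Ctx r x m n A K Z lim h.col (Reach r (n + 1) a) := by
  have cs : ∀ i b, i < n → h.col (r i b) = A.s i (h.col b) := fun i b hi =>
    h.uA _ _ _ (h.col_lt _) (h.L.lt _ (h.col_lt _) i hi) (h.col_sim _) ((h.col_sim b).step hi)
  have ca : ∀ w b, Wd 1 n w → h.col (act r w b) = act A.s w (h.col b) := by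
    intro w
    induction w with
    | nil => exact fun _ _ => rfl
    | cons i w ih =>
      intro b hw
      rw [au_cons, au_cons, ih _ (au_wd_cons.1 hw).2, cs i b (au_wd_cons.1 hw).1.2]
  have ra : ∀ w b, Wd 1 n w → Reach r (n + 1) a b → Reach r (n + 1) a (act r w b) := fun w b hw hb =>
    hb.trans' ⟨w, au_wd_mono hw (by omega) (by omega), rfl⟩
  refine ⟨S, h2, fun i b hi hb => hb.step (by omega), fun b c hb hc => (hb.symm' S le_rfl).trans' hc, hl,
    fun i b hi _ => cs i b hi, fun i b hi _ => by rw [cs i b hi, h.L.ty _ (h.col_lt b) i hi], fun b _ => ?_, fun i b h1 hi _ => (h.col_sim b).base h1 hi,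
    fun b c _ _ e => h.uA c _ _ (h.col_lt _) (h.col_lt _) ((h.col_sim b).eqv e) (h.col_sim c),
    fun b u hb hu e => ?_, fun b hb => h.num b _ (hl b hb) (h.col_sim b), fun b hb => ?_⟩
  · obtain ⟨n, rfl⟩ : ∃ l, n = l + 1 := ⟨n - 1, by omega⟩
    have e : Eqv r m n b (r (n + 1) b) := by
      refine eqv_of_rel (fun c d => d = r (n + 1) c) ?_ ?_ rfl
      · rintro c _ rfl i hi
        exact S.comm i (n + 1) (by omega) (by omega) c
      · rintro c _ rfl i h1 hi
        exact (S.mr i (n + 1) h1 (by omega) (by omega) (by omega) (by omega) c).symm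
    exact h.uB _ _ _ (h.L.pl _ (h.col_lt _)) (h.L.pl _ (h.col_lt _))
      ((h.col_sim _).proj h.L (h.col_lt _)) (((h.col_sim b).proj h.L (h.col_lt _)).eqv e)
  · obtain ⟨w, hw, e'⟩ := h.L.conn _ _ (h.col_lt b) (hu.trans_le h.le) e.symm
    exact ⟨act r w b, ra w b hw hb, by rw [ca w b hw, e']⟩
  · obtain ⟨⟨u1, u2⟩, u3, u4, u5⟩ := h.up _ (hl b hb)
    obtain ⟨g, g1, g2⟩ := u2 _ b u3 u4 (u5.symm ▸ h.col_sim b)
    refine ⟨u1, u3, u4, g, g1, fun k k1 k2 => ?_⟩
    obtain ⟨⟨w, hw, e⟩, a1, a2, a3⟩ := g2 k k1 k2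
    exact ⟨e ▸ ra w b hw hb, h.uA _ _ _ (h.col_lt _) a1 (h.col_sim _) a2, a3⟩

theorem okRep_sound {A : Aut} {K : Unf} {lim nT : ℕ} (h : okRep A K lim nT = true) {u : ℕ} (hu : u < lim) :
    A.T u < nT ∧ K.klo (A.T u) ≤ K.krep u ∧ K.krep u < K.klo (A.T u) + K.ksz (A.T u) ∧ K.kap (K.krep u) = u := by
  simp only [okRep, allR_iff, fN_eq, Bool.and_eq_true, Nat.blt_eq, Nat.beq_eq, Nat.ble_eq, Nat.add_eq] at h
  obtain ⟨⟨⟨a1, a2⟩, a3⟩, a4⟩ := h u hu
  exact ⟨a1, a2, a3, a4⟩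

end

end UP
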