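import Mathlib

-- part MP_7fd204_co.Sys
section

/-! Abstract flag systems: the interface between the geometry of uniform polytopes and the finite check.
A flag is `F_0 ⊂ F_1 ⊂ … ⊂ F_(N-1)` (and `F_N` the polytope); `r i` changes `F_i`;
`x i a` is (circumradius of `F_i`)^2 / (half edge length)^2; `m i a` is the order of `r i ∘ r (i-1)` at `a`
(`m 1` is the number of sides of `F_2`). -/

namespace UP

open Real

variable {F : Type}

/-- action of a word, first letter acts first -/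
def act (r : ℕ → F → F) (w : List ℕ) (a : F) : F := w.foldl (fun b i => r i b) a

/-- all letters in `[lo, hi)` -/
def Wd (lo hi : ℕ) (w : List ℕ) : Prop := ∀ i ∈ w, lo ≤ i ∧ i < hi

/-- same combinatorial behaviour inside the `k`-face -/
def Eqv (r : ℕ → F → F) (m : ℕ → F → ℕ) (k : ℕ) (a b : F) : Prop :=
  ∀ w, Wd 0 k w → ∀ i, 1 ≤ i → i < k → m i (act r w a) = m i (act r w b)

/-- the angle of the orthoscheme with squared legs `A, B, C` at its middle -/
noncomputable def bet (A B C : ℝ) : ℝ := arctan (√(B * (A + B + C) / (A * C)))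

noncomputable def betF (x : ℕ → F → ℝ) (i : ℕ) (a : F) : ℝ :=
  bet (x (i - 1) a - x (i - 2) a) (x i a - x (i - 1) a) (x (i + 1) a - x i a)

/-- one step round the face `F_(i-2)` inside `F_(i+1)` -/
def rot (r : ℕ → F → F) (i : ℕ) (a : F) : F := r i (r (i - 1) a)

structure Sys (N : ℕ) (r : ℕ → F → F) (x : ℕ → F → ℝ) (m : ℕ → F → ℕ) : Prop where
  rr : ∀ i, i < N → ∀ a, r i (r i a) = a
  comm : ∀ i j, i + 2 ≤ j → j < N → ∀ a, r i (r j a) = r j (r i a)
  x0 : ∀ a, x 0 a = 0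
  x1 : ∀ a, x 1 a = 1
  xlt : ∀ i, i < N → ∀ a, x i a < x (i + 1) a
  xr : ∀ i j, i ≤ N → j < N → i ≠ j → ∀ a, x i (r j a) = x i a
  mr : ∀ i j, 1 ≤ i → i < N → j < N → j + 2 ≠ i → j ≠ i + 1 → ∀ a, m i (r j a) = m i a
  cyc : ∀ i, 1 ≤ i → i < N → ∀ a, (rot r i)^[m i a] a = a
  first : ∀ i, 1 ≤ i → i < N → ∀ a c, 0 < c → c < m i a → (rot r i)^[c] a ≠ a
  poly : 2 ≤ N → ∀ a, 3 ≤ m 1 a ∧ x 2 a * sin (π / m 1 a) ^ 2 = 1
  ang : ∀ i, 2 ≤ i → i < N → ∀ a, ∑ j ∈ Finset.range (m i a),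
    (betF x i ((rot r i)^[j] a) + betF x i (r (i - 1) ((rot r i)^[j] a))) = 2 * π
  trans : ∀ k, 2 ≤ k → k ≤ N → ∀ a, ∃ w, Wd 1 k w ∧ Eqv r m k (r 0 a) (act r w a)

/-- every edge bisector respects the combinatorics (so, by rigidity, is a symmetry of the `n`-face) -/
def Mirror (r : ℕ → F → F) (m : ℕ → F → ℕ) (n : ℕ) (a : F) : Prop :=
  ∀ w, Wd 0 n w → Eqv r m n (r 0 (act r w a)) (act r w a)

/-- the steps `F_(i-1) ⊂ F_i` (`1 ≤ i ≤ n`) of the flags carry two colours, mixed diamonds are rectangles -/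
def Prod (r : ℕ → F → F) (x : ℕ → F → ℝ) (n : ℕ) (a : F) : Prop :=
  ∃ R : F → (ℕ → Bool) → Prop,
    (∃ t i j, R a t ∧ 1 ≤ i ∧ i ≤ n ∧ 1 ≤ j ∧ j ≤ n ∧ t i ≠ t j) ∧
    ∀ b t, R b t → R (r 0 b) t ∧ ∀ i, 1 ≤ i → i < n → R (r i b) (t ∘ Equiv.swap i (i + 1)) ∧
      (t i ≠ t (i + 1) → x i b + x i (r i b) = x (i - 1) b + x (i + 1) b)

/-- finite presentation: `f` lists the flags at one vertex, `R i` is the table of `r i` (`1 ≤ i < n`), `M i` the
table of `m i`, `r 0 (f k)` is equivalent to `f (Z k)`, and `f k` is equivalent to `f k'` when `C k = C k'` -/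
def Pres (r : ℕ → F → F) (m : ℕ → F → ℕ) (n s : ℕ) (R M : ℕ → ℕ → ℕ) (Z C : ℕ → ℕ) (a : F) : Prop :=
  ∃ f : ℕ → F, (∃ w, Wd 1 n w ∧ f 0 = act r w a) ∧ ∀ k, k < s →
    (∀ i, 1 ≤ i → i < n → R i k < s ∧ r i (f k) = f (R i k) ∧ m i (f k) = M i k) ∧
    Z k < s ∧ Eqv r m n (r 0 (f k)) (f (Z k)) ∧ ∀ k', k' < s → C k = C k' → Eqv r m n (f k) (f k')

end UP

/-! Tables of the non-reflective, non-product types and the statements delivered by the finite check. -/

namespace UP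

def tb (l : List (List ℕ)) (i k : ℕ) : ℕ := (l.getD i []).getD k 0

/-- antiprism over a `p`-gon: 8 flags at a vertex -/
def aR : ℕ → ℕ → ℕ := tb [[], [1, 0, 4, 5, 2, 3, 7, 6], [2, 3, 0, 1, 6, 7, 4, 5]]
def aM (p : ℕ) : ℕ → ℕ → ℕ := tb [[], [p, p, 3, 3, 3, 3, 3, 3], [4, 4, 4, 4, 4, 4, 4, 4]]
def aZ (k : ℕ) : ℕ := List.getD [0, 0, 2, 2, 6, 6, 4, 4] k 0
def aC (k : ℕ) : ℕ := List.getD [0, 0, 1, 1, 2, 2, 3, 3] k 0

/-- snub cube (`p = 4`), snub dodecahedron (`p = 5`): 10 flags at a vertex -/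
def nR : ℕ → ℕ → ℕ := tb [[], [1, 0, 4, 5, 2, 3, 8, 9, 6, 7], [2, 3, 0, 1, 6, 7, 4, 5, 9, 8]]
def nM (p : ℕ) : ℕ → ℕ → ℕ := tb [[], [p, p, 3, 3, 3, 3, 3, 3, 3, 3], [5, 5, 5, 5, 5, 5, 5, 5, 5, 5]]
def nZ (k : ℕ) : ℕ := List.getD [1, 0, 3, 2, 9, 7, 8, 5, 6, 4] k 0

/-! `g..` grand antiprism (88 flags at a vertex), `s..` snub 24-cell (60 flags at a vertex) -/

def gR : ℕ → ℕ → ℕ := tb
  [[], [1, 0, 6, 5, 9, 3, 2, 12, 14, 4, 16, 18, 7, 21, 8, 23, 10, 26, 11, 28, 30, 13, 32, 15, 35, 36, 17, 38, 19, 41,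
    20, 42, 22, 45, 46, 24, 25, 48, 27, 51, 52, 29, 31, 55, 56, 33, 34, 58, 37, 60, 61, 39, 40, 63, 64, 43, 44,
    66, 47, 69, 49, 50, 71, 53, 54, 73, 57, 76, 77, 59, 78, 62, 80, 65, 82, 83, 67, 68, 70, 85, 72, 86, 74, 75,
    87, 79, 81, 84], [2, 4, 0, 8, 1, 11, 9, 13, 3, 6, 17, 5, 20, 7, 18, 24, 25, 10, 14, 29, 12, 30, 33, 34, 15,
    16, 36, 39, 40, 19, 21, 43, 44, 22, 23, 46, 26, 49, 50, 27, 28, 52, 54, 31, 32, 56, 35, 53, 59, 37, 38, 61,
    41, 47, 42, 64, 45, 67, 68, 48, 69, 51, 70, 72, 55, 74, 75, 57, 58, 60, 62, 79, 63, 81, 65, 66, 83, 80, 84,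
    71, 77, 73, 86, 76, 78, 87, 82, 85], [3, 5, 7, 0, 10, 1, 12, 2, 15, 16, 4, 19, 6, 22, 23, 8, 9, 27, 28, 11,
    31, 32, 13, 14, 33, 37, 38, 17, 18, 39, 42, 20, 21, 24, 47, 45, 48, 25, 26, 29, 53, 51, 30, 49, 57, 35, 58,
    34, 36, 43, 62, 41, 63, 40, 65, 60, 66, 44, 46, 70, 55, 71, 50, 52, 73, 54, 56, 74, 75, 78, 59, 61, 79, 64,
    67, 68, 82, 83, 69, 72, 85, 84, 76, 77, 81, 80, 87, 86]]

def gM : ℕ → ℕ → ℕ := tb
  [[], [3, 3, 3, 3, 3, 3, 3, 3, 3, 3, 3, 3, 3, 3, 3, 3, 3, 3, 3, 3, 3, 3, 3, 3, 3, 3, 3, 3, 3, 3, 3, 3, 3, 3, 3, 3,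
    3, 3, 3, 3, 3, 3, 3, 3, 3, 3, 3, 3, 3, 3, 3, 3, 3, 3, 3, 3, 3, 3, 3, 3, 3, 3, 3, 3, 3, 3, 3, 3, 3, 3, 3, 3, 5,
    3, 3, 3, 3, 3, 3, 5, 5, 3, 3, 3, 3, 5, 3, 3], [3, 3, 3, 3, 3, 3, 3, 3, 3, 3, 3, 3, 3, 3, 3, 3, 3, 3, 3, 3, 3,
    3, 3, 3, 3, 3, 3, 3, 3, 3, 3, 3, 3, 3, 3, 3, 3, 3, 3, 3, 3, 3, 3, 3, 3, 3, 3, 4, 3, 3, 3, 3, 3, 4, 3, 3, 3, 3,
    4, 3, 3, 3, 4, 4, 3, 3, 3, 3, 4, 3, 4, 4, 4, 3, 3, 3, 3, 4, 4, 4, 4, 3, 3, 3, 4, 4, 3, 4], [5, 5, 5, 5, 5, 5,
    5, 5, 5, 5, 5, 5, 5, 5, 4, 5, 5, 5, 4, 5, 5, 5, 5, 4, 5, 5, 4, 5, 4, 5, 5, 5, 5, 5, 4, 4, 4, 5, 4, 5, 4, 4, 5,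
    5, 5, 4, 4, 4, 4, 5, 4, 4, 4, 4, 5, 4, 4, 5, 4, 4, 4, 4, 4, 4, 4, 5, 4, 5, 4, 4, 4, 4, 4, 4, 5, 4, 4, 4, 4, 4,
    4, 4, 4, 4, 4, 4, 4, 4]]

def gZ (k : ℕ) : ℕ := List.getD
    [19, 15, 29, 11, 15, 8, 29, 29, 5, 19, 8, 3, 29, 19, 18, 1, 11, 3, 14, 0, 19, 15, 11, 28, 1, 5, 14, 0, 23, 2,
    15, 11, 8, 5, 40, 28, 18, 1, 23, 2, 34, 41, 8, 5, 3, 18, 40, 53, 28, 1, 34, 41, 52, 47, 3, 18, 14, 0, 53, 40,
    28, 52, 47, 63, 14, 0, 23, 2, 47, 40, 53, 63, 72, 23, 2, 34, 41, 63, 53, 72, 72, 34, 41, 52, 47, 72, 52, 63] k 0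

def gC (k : ℕ) : ℕ := List.getD
    [0, 1, 2, 3, 1, 4, 2, 2, 5, 0, 4, 6, 2, 0, 7, 8, 3, 6, 9, 10, 0, 1, 3, 11, 8, 5, 9, 10, 12, 13, 1, 3, 4, 5,
    14, 11, 7, 8, 12, 13, 15, 16, 4, 5, 6, 7, 14, 17, 11, 8, 15, 16, 18, 19, 6, 7, 9, 10, 17, 14, 11, 18, 19, 20,
    9, 10, 12, 13, 19, 14, 17, 20, 21, 12, 13, 15, 16, 20, 17, 21, 21, 15, 16, 18, 19, 21, 18, 20] k 0

def sR : ℕ → ℕ → ℕ := tb
  [[], [1, 0, 6, 5, 9, 3, 2, 12, 14, 4, 16, 18, 7, 20, 8, 23, 10, 25, 11, 27, 13, 29, 30, 15, 33, 17, 36, 19, 38, 21,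
    22, 40, 39, 24, 43, 44, 26, 46, 28, 32, 31, 48, 50, 34, 35, 53, 37, 52, 41, 56, 42, 57, 47, 45, 59, 58, 49,
    51, 55, 54], [2, 4, 0, 8, 1, 11, 9, 13, 3, 6, 17, 5, 19, 7, 22, 21, 24, 10, 26, 12, 27, 15, 14, 32, 16, 35,
    18, 20, 34, 39, 36, 41, 23, 42, 28, 25, 30, 45, 47, 29, 49, 31, 33, 52, 50, 37, 54, 38, 55, 40, 44, 58, 43,
    59, 46, 48, 57, 56, 51, 53], [3, 5, 7, 0, 10, 1, 12, 2, 15, 16, 4, 17, 6, 21, 23, 8, 9, 11, 25, 28, 29, 13,
    31, 14, 34, 18, 37, 38, 19, 20, 40, 22, 41, 43, 24, 45, 46, 26, 27, 48, 30, 32, 51, 33, 53, 35, 36, 55, 39,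
    54, 57, 42, 58, 44, 49, 47, 59, 50, 52, 56]]

def sM : ℕ → ℕ → ℕ := tb
  [[], [3, 3, 3, 3, 3, 3, 3, 3, 3, 3, 3, 3, 3, 3, 3, 3, 3, 3, 3, 3, 3, 3, 3, 3, 3, 3, 3, 3, 3, 3, 3, 3, 3, 3, 3, 3,
    3, 3, 3, 3, 3, 3, 3, 3, 3, 3, 3, 3, 3, 3, 3, 3, 3, 3, 3, 3, 3, 3, 3, 3], [3, 3, 3, 5, 3, 5, 3, 3, 5, 3, 5, 5,
    3, 3, 5, 3, 5, 5, 5, 3, 3, 3, 5, 3, 5, 5, 5, 3, 3, 3, 5, 5, 3, 5, 3, 5, 5, 3, 3, 3, 5, 5, 5, 3, 5, 3, 3, 3, 5,
    5, 5, 5, 3, 3, 3, 5, 5, 5, 5, 3], [4, 3, 4, 4, 3, 3, 4, 4, 4, 4, 3, 3, 4, 4, 3, 4, 4, 3, 3, 4, 4, 4, 3, 3, 4,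
    3, 3, 4, 4, 4, 3, 3, 3, 3, 4, 3, 3, 3, 4, 4, 3, 3, 3, 3, 3, 3, 3, 4, 4, 3, 3, 3, 3, 3, 3, 4, 3, 3, 3, 3]]

def sZ (k : ℕ) : ℕ := List.getD
    [0, 37, 2, 3, 37, 26, 2, 7, 3, 0, 26, 18, 7, 7, 26, 0, 3, 18, 11, 7, 7, 2, 18, 37, 3, 11, 5, 7, 2, 2, 11, 18,
    37, 26, 0, 5, 5, 1, 2, 0, 11, 26, 18, 37, 5, 1, 1, 0, 3, 5, 11, 18, 37, 1, 1, 3, 5, 11, 26, 1] k 0

def sC (k : ℕ) : ℕ := List.getD
    [0, 1, 2, 3, 1, 4, 2, 5, 3, 0, 4, 6, 5, 5, 4, 0, 3, 6, 7, 5, 5, 2, 6, 1, 3, 7, 8, 5, 2, 2, 7, 6, 1, 4, 0, 8,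
    8, 9, 2, 0, 7, 4, 6, 1, 8, 9, 9, 0, 3, 8, 7, 6, 1, 9, 9, 3, 8, 7, 4, 9] k 0

variable {F : Type}

/-- no special polygon in the `n`-face -/
def Small (r : ℕ → F → F) (m : ℕ → F → ℕ) (n : ℕ) (a : F) : Prop :=
  ∀ w, Wd 0 n w → m 1 (act r w a) ∈ ({3, 4, 5, 6, 8, 10} : Set ℕ)

/-- the radii of the snub 24-cell and of the grand antiprism -/
def Gold (r : ℕ → F → F) (x : ℕ → F → ℝ) (m : ℕ → F → ℕ) (a : F) : Prop :=
  ∀ w, Wd 0 4 w → x 4 (act r w a) = 6 + 2 * √5 ∧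
    x 3 (act r w a) = if m 2 (act r w a) = 3 then 3 / 2 else (5 + √5) / 2

def C3 : Prop :=
  ∀ (F : Type) (r : ℕ → F → F) (x : ℕ → F → ℝ) (m : ℕ → F → ℕ), Sys 3 r x m → ∀ a,
    (Small r m 3 a ∧ (Mirror r m 3 a ∨ Pres r m 3 10 nR (nM 4) nZ id a ∨ Pres r m 3 10 nR (nM 5) nZ id a)) ∨
      Prod r x 3 a ∨ ∃ p, 4 ≤ p ∧ Pres r m 3 8 aR (aM p) aZ aC a

def C4 : Prop :=
  ∀ (F : Type) (r : ℕ → F → F) (x : ℕ → F → ℝ) (m : ℕ → F → ℕ), Sys 4 r x m → ∀ a,
    (Small r m 4 a ∧ (Mirror r m 4 a ∨ (Pres r m 4 60 sR sM sZ sC a ∧ Gold r x m a) ∨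
      (Pres r m 4 88 gR gM gZ gC a ∧ Gold r x m a))) ∨ Prod r x 4 a

def C5 : Prop :=
  ∀ (F : Type) (r : ℕ → F → F) (x : ℕ → F → ℝ) (m : ℕ → F → ℕ), Sys 5 r x m → ∀ a,
    Small r m 5 a → Mirror r m 5 a ∨ Prod r x 5 a

end UP

/-! Abstract rigidity: the combinatorial behaviour determines the radii. -/

namespace UP

open Real

variable {F : Type} {N : ℕ} {r : ℕ → F → F} {x : ℕ → F → ℝ} {m : ℕ → F → ℕ}

lemma act_app (r : ℕ → F → F) (w w' : List ℕ) (a : F) : act r (w ++ w') a = act r w' (act r w a) := by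
  simp [act, List.foldl_append]

lemma Eqv.act' {k : ℕ} {a b : F} (h : Eqv r m k a b) {w : List ℕ} (hw : Wd 0 k w) :
    Eqv r m k (act r w a) (act r w b) := fun w' hw' i h1 h2 => by
  rw [← act_app, ← act_app]
  refine h _ (fun j hj => ?_) i h1 h2
  rcases List.mem_append.1 hj with h3 | h3
  · exact hw j h3
  · exact hw' j h3

lemma Eqv.step {k : ℕ} {a b : F} (h : Eqv r m k a b) {j : ℕ} (hj : j < k) :
    Eqv r m k (r j a) (r j b) := h.act' (w := [j]) (by simp [Wd, hj])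

lemma Eqv.mono {k k' : ℕ} {a b : F} (h : Eqv r m k a b) (hk : k' ≤ k) : Eqv r m k' a b :=
  fun w hw i h1 h2 => h w (fun j hj => ⟨(hw j hj).1, (hw j hj).2.trans_le hk⟩) i h1 (h2.trans_le hk)

lemma Eqv.base {k : ℕ} {a b : F} (h : Eqv r m k a b) {i : ℕ} (h1 : 1 ≤ i) (h2 : i < k) :
    m i a = m i b := h [] (by simp [Wd]) i h1 h2

lemma Eqv.symm' {k : ℕ} {a b : F} (h : Eqv r m k a b) : Eqv r m k b a :=
  fun w hw i h1 h2 => (h w hw i h1 h2).symm

lemma Eqv.rot_iter {k i : ℕ} {a b : F} (h : Eqv r m k a b) (hi : i < k) (j : ℕ) :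
    Eqv r m k ((rot r i)^[j] a) ((rot r i)^[j] b) := by
  induction j with
  | zero => exact h
  | succ j ih =>
    rw [Function.iterate_succ_apply', Function.iterate_succ_apply']
    exact (ih.step (by omega)).step hi

lemma bet_anti {A B C C' : ℝ} (hA : 0 < A) (hB : 0 < B) (hC : 0 < C) (h : C < C') :
    bet A B C' < bet A B C := by
  have hC' : 0 < C' := hC.trans h
  refine arctan_strictMono (sqrt_lt_sqrt (by positivity) ?_)
  rw [div_lt_div_iff₀ (by positivity) (by positivity)]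
  have : 0 < A * B * (A + B) * (C' - C) := by have := sub_pos.2 h; positivity
  nlinarith

lemma Sys.x_rot (S : Sys N r x m) {i l : ℕ} (hi : i < N) (hl : l ≤ N) (h1 : l ≠ i) (h2 : l ≠ i - 1)
    (a : F) (j : ℕ) : x l ((rot r i)^[j] a) = x l a := by
  induction j with
  | zero => rfl
  | succ j ih =>
    rw [Function.iterate_succ_apply', rot, S.xr l i hl hi h1, S.xr l (i - 1) hl (by omega) h2, ih]

lemma Sys.m_pos (S : Sys N r x m) {i : ℕ} (h2 : 2 ≤ i) (hi : i < N) (a : F) : 0 < m i a := by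
  rcases Nat.eq_zero_or_pos (m i a) with h | h
  · have := S.ang i h2 hi a
    rw [h] at this
    simp at this
  · exact h

theorem Sys.rigid (S : Sys N r x m) (k : ℕ) (hk : k ≤ N) :
    ∀ a b, Eqv r m k a b → ∀ i, i ≤ k → x i a = x i b := by
  induction k with
  | zero =>
    intro a b _ i hi
    obtain rfl : i = 0 := by omega
    rw [S.x0, S.x0]
  | succ k ih =>
    intro a b h i hi
    have ih' := ih (by omega)
    by_cases hik : i ≤ k
    · exact ih' a b (h.mono (by omega)) i hik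
    obtain rfl : i = k + 1 := by omega
    rcases (by omega : k = 0 ∨ k = 1 ∨ 2 ≤ k) with rfl | rfl | h2
    · rw [S.x1, S.x1]
    · obtain ⟨p1, p2⟩ := S.poly hk a
      obtain ⟨-, q2⟩ := S.poly hk b
      rw [← h.base le_rfl (by omega)] at q2
      have hs : sin (π / m 1 a) ^ 2 ≠ 0 := fun h0 => by simp [h0] at p2
      exact mul_right_cancel₀ hs (p2.trans q2.symm)
    have lt : ∀ a b, Eqv r m (k + 1) a b → x (k + 1) a < x (k + 1) b → betF x k b < betF x k a := by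
      intro a b h hlt
      have e := ih' a b (h.mono (by omega))
      obtain ⟨l, rfl⟩ : ∃ l, k = l + 2 := ⟨k - 2, by omega⟩
      simp only [betF, show l + 2 - 1 = l + 1 from rfl, show l + 2 - 2 = l from rfl]
      rw [← e l (by omega), ← e (l + 1) (by omega), ← e (l + 2) le_rfl]
      exact bet_anti (sub_pos.2 (S.xlt l (by omega) a)) (sub_pos.2 (S.xlt (l + 1) (by omega) a))
        (sub_pos.2 (S.xlt (l + 2) (by omega) a)) (by linarith)
    have no : ∀ a b, Eqv r m (k + 1) a b → ¬ x (k + 1) a < x (k + 1) b := by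
      intro a b h hlt
      have e1 := S.ang k h2 hk a
      have e2 := S.ang k h2 hk b
      rw [← h.base (by omega) (by omega), ← e1] at e2
      refine absurd e2 (ne_of_lt (Finset.sum_lt_sum_of_nonempty
        ⟨0, Finset.mem_range.2 (S.m_pos h2 hk a)⟩ fun j _ => ?_))
      have h' := h.rot_iter (i := k) (by omega) j
      have x1 := S.x_rot hk hk (by omega) (by omega) a j
      have x2 := S.x_rot hk hk (by omega) (by omega) b j
      refine add_lt_add (lt _ _ h' (by rwa [x1, x2])) (lt _ _ (h'.step (by omega)) ?_)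
      rwa [S.xr _ _ hk (by omega) (by omega), S.xr _ _ hk (by omega) (by omega), x1, x2]
    exact le_antisymm (not_lt.1 (no b a h.symm')) (not_lt.1 (no a b h))

end UP

/-! The rectangle lemma: mixed diamonds of a two-coloured flag system are rectangles. -/

namespace UP

open Real

variable {F : Type} {N : ℕ} {r : ℕ → F → F} {x : ℕ → F → ℝ} {m : ℕ → F → ℕ}

lemma rect_atan {u v w : ℝ} (hu : 0 < u) (hv : 0 < v) (hw : 0 < w) (h : u + v + w = u * v * w) :
    arctan u + arctan v + arctan w = π := by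
  have h1 : 1 < u * v := by
    by_contra h2
    have := mul_le_mul_of_nonneg_right (not_lt.1 h2) hw.le
    linarith
  have h2 : (u + v) / (1 - u * v) = -w := by
    rw [div_eq_iff (by linarith)]
    linarith
  rw [arctan_add_eq_add_pi h1 hu, h2, arctan_neg]
  ring

lemma rect_sqrt {A B C : ℝ} (hA : 0 < A) (hB : 0 < B) (hC : 0 < C) (s : ℝ) :
    √(B * s / (A * C)) = B * √(s / (A * B * C)) := by
  rw [show B * s / (A * C) = B ^ 2 * (s / (A * B * C)) by field_simp, sqrt_mul (sq_nonneg _),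
    sqrt_sq hB.le]

lemma rect_bet {A B C : ℝ} (hA : 0 < A) (hB : 0 < B) (hC : 0 < C) :
    bet A B C + bet A C B + bet C A B = π := by
  have hs : 0 < (A + B + C) / (A * B * C) := by positivity
  have e := mul_self_sqrt hs.le
  have hp := sqrt_pos.2 hs
  unfold bet
  rw [rect_sqrt hA hB hC, rect_sqrt hA hC hB, rect_sqrt hC hA hB,
    show (A + C + B) / (A * C * B) = (A + B + C) / (A * B * C) by ring,
    show (C + A + B) / (C * A * B) = (A + B + C) / (A * B * C) by ring]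
  generalize √((A + B + C) / (A * B * C)) = k at e hp
  refine rect_atan (by positivity) (by positivity) (by positivity) ?_
  rw [eq_div_iff (by positivity)] at e
  linear_combination (-k) * e

/-- the angle equation round a triangle with two rectangles -/
lemma rect_hex {p q s w H : ℝ} (hp : 0 < p) (hq : 0 < q) (hs : 0 < s) (hpw : p < w) (hqw : q < w)
    (h1 : w < H) (h2 : p + s < H) (h3 : q + s < H)
    (h : bet p (w - p) (H - w) + bet p s (H - (p + s)) + bet s p (H - (p + s)) +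
      (bet q (w - q) (H - w) + bet q s (H - (q + s)) + bet s q (H - (q + s))) = 2 * π) :
    H = w + s := by
  have a1 := sub_pos.2 hpw
  have a2 := sub_pos.2 hqw
  have b1 := sub_pos.2 h1
  have b2 := sub_pos.2 h2
  have b3 := sub_pos.2 h3
  have e1 := rect_bet hp a1 hs
  have e2 := rect_bet hq a2 hs
  rcases lt_trichotomy H (w + s) with hl | hl | hl
  · have c1 := bet_anti hp a1 b1 (show H - w < s by linarith)
    have c2 := bet_anti hp hs b2 (show H - (p + s) < w - p by linarith)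
    have c3 := bet_anti hs hp b2 (show H - (p + s) < w - p by linarith)
    have c4 := bet_anti hq a2 b1 (show H - w < s by linarith)
    have c5 := bet_anti hq hs b3 (show H - (q + s) < w - q by linarith)
    have c6 := bet_anti hs hq b3 (show H - (q + s) < w - q by linarith)
    linarith
  · exact hl
  · have c1 := bet_anti hp a1 hs (show s < H - w by linarith)
    have c2 := bet_anti hp hs a1 (show w - p < H - (p + s) by linarith)
    have c3 := bet_anti hs hp a1 (show w - p < H - (p + s) by linarith)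
    have c4 := bet_anti hq a2 hs (show s < H - w by linarith)
    have c5 := bet_anti hq hs a2 (show w - q < H - (q + s) by linarith)
    have c6 := bet_anti hs hq a2 (show w - q < H - (q + s) by linarith)
    linarith

/-- the same with the radii of the three vertices `y` and the three sides `z` -/
lemma rect_hex' {lo hi yp yq ys zpq zps zqs : ℝ} (hp : lo < yp) (hq : lo < yq) (hs : lo < ys)
    (hpw : yp < zpq) (hqw : yq < zpq) (h1 : zpq < hi) (h2 : zps < hi) (h3 : zqs < hi)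
    (e1 : yp + ys = lo + zps) (e2 : yq + ys = lo + zqs)
    (h : bet (yp - lo) (zpq - yp) (hi - zpq) + bet (yp - lo) (zps - yp) (hi - zps) +
      bet (ys - lo) (zps - ys) (hi - zps) + (bet (yq - lo) (zpq - yq) (hi - zpq) +
      bet (yq - lo) (zqs - yq) (hi - zqs) + bet (ys - lo) (zqs - ys) (hi - zqs)) = 2 * π) :
    zpq + zps = yp + hi := by
  obtain rfl : zps = yp + ys - lo := by linarith
  obtain rfl : zqs = yq + ys - lo := by linarith
  have := rect_hex (p := yp - lo) (q := yq - lo) (s := ys - lo) (w := zpq - lo) (H := hi - lo)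
    (by linarith) (by linarith) (by linarith) (by linarith) (by linarith) (by linarith)
    (by linarith) (by linarith) (by
      rw [← h]
      congr 2 <;> [congr 1; skip; congr 1; skip] <;> congr 1 <;> ring)
  linarith

theorem Sys.rect (S : Sys N r x m) {n : ℕ} (hn : n ≤ N) (R : F → (ℕ → Bool) → Prop)
    (hR : ∀ b t, R b t → ∀ i, 1 ≤ i → i < n → R (r i b) (t ∘ Equiv.swap i (i + 1)))
    (h1 : ∀ b t, R b t → 1 < n → t 1 ≠ t 2 → m 1 b = 4)
    (h2 : ∀ b t, R b t → ∀ i, 2 ≤ i → i < n → ¬ (t (i - 1) = t i ∧ t i = t (i + 1)) → m i b = 3)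
    (l : ℕ) : l + 1 < n → ∀ b t, R b t → t (l + 1) ≠ t (l + 2) →
      x (l + 1) b + x (l + 1) (r (l + 1) b) = x l b + x (l + 2) b := by
  induction l with
  | zero =>
    intro hl b t hb ht
    have h := (S.poly (by omega) b).2
    rw [h1 b t hb hl ht, Nat.cast_ofNat, sin_pi_div_four, div_pow, sq_sqrt (by norm_num)] at h
    simp only [zero_add, S.x0, S.x1]
    linarith
  | succ l ih =>
    intro hl b t hb ht
    have ih := ih (by omega)
    have hN : l + 2 < N := by omega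
    have hm : m (l + 2) b = 3 := h2 b t hb (l + 2) (by omega) hl fun h => ht h.2
    have hc := S.cyc (l + 2) (by omega) hN b
    have ha := S.ang (l + 2) (by omega) hN b
    rw [hm] at hc ha
    simp only [Finset.sum_range_succ, Finset.sum_range_zero, Function.iterate_succ_apply',
      Function.iterate_zero_apply, rot, betF, zero_add, show l + 2 - 1 = l + 1 from rfl,
      show l + 2 - 2 = l from rfl] at hc ha
    have sw1 : ∀ u : ℕ → Bool, (u ∘ Equiv.swap (l + 1) (l + 1 + 1)) (l + 1) = u (l + 2) ∧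
        (u ∘ Equiv.swap (l + 1) (l + 1 + 1)) (l + 2) = u (l + 1) ∧
        (u ∘ Equiv.swap (l + 1) (l + 1 + 1)) (l + 3) = u (l + 3) := fun u =>
      ⟨congrArg u (Equiv.swap_apply_left _ _), congrArg u (Equiv.swap_apply_right _ _),
        congrArg u (Equiv.swap_apply_of_ne_of_ne (by omega) (by omega))⟩
    have sw2 : ∀ u : ℕ → Bool, (u ∘ Equiv.swap (l + 2) (l + 2 + 1)) (l + 1) = u (l + 1) ∧
        (u ∘ Equiv.swap (l + 2) (l + 2 + 1)) (l + 2) = u (l + 3) ∧
        (u ∘ Equiv.swap (l + 2) (l + 2 + 1)) (l + 3) = u (l + 2) := fun u =>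
      ⟨congrArg u (Equiv.swap_apply_of_ne_of_ne (by omega) (by omega)),
        congrArg u (Equiv.swap_apply_left _ _), congrArg u (Equiv.swap_apply_right _ _)⟩
    have step : ∀ b t, R b t → ∃ u, R (r (l + 2) (r (l + 1) b)) u ∧ u (l + 1) = t (l + 2) ∧
        u (l + 2) = t (l + 3) ∧ u (l + 3) = t (l + 1) := fun b t hb =>
      ⟨_, hR _ _ (hR b t hb (l + 1) (by omega) (by omega)) (l + 2) (by omega) hl,
        (sw2 _).1.trans (sw1 _).1, (sw2 _).2.1.trans (sw1 _).2.2, (sw2 _).2.2.trans (sw1 _).2.1⟩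
    obtain ⟨t1, hb1, p1, p2, p3⟩ := step b t hb
    obtain ⟨t2, hb2, q1, q2, q3⟩ := step _ t1 hb1
    have i0 := ih b t hb
    have i1 := ih _ t1 hb1
    have i2 := ih _ t2 hb2
    have hb' : r (l + 2) b = r (l + 1) (r (l + 2) (r (l + 1) (r (l + 2) (r (l + 1) b)))) := by
      conv_lhs => rw [← hc]
      exact S.rr _ hN _
    have y1 : ∀ c, x (l + 1) (r (l + 2) c) = x (l + 1) c := S.xr _ _ (by omega) hN (by omega)
    have z1 : ∀ c, x (l + 2) (r (l + 1) c) = x (l + 2) c := S.xr _ _ (by omega) (by omega) (by omega)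
    have l1 : ∀ c, x l (r (l + 1) c) = x l c := S.xr _ _ (by omega) (by omega) (by omega)
    have l2 : ∀ c, x l (r (l + 2) c) = x l c := S.xr _ _ (by omega) hN (by omega)
    have u1 : ∀ c, x (l + 2 + 1) (r (l + 1) c) = x (l + 2 + 1) c :=
      S.xr _ _ (by omega) (by omega) (by omega)
    have u2 : ∀ c, x (l + 2 + 1) (r (l + 2) c) = x (l + 2 + 1) c := S.xr _ _ (by omega) hN (by omega)
    have y0 := y1 b
    rw [hb'] at y0
    have k0 := fun c => S.xlt l (by omega) c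
    have k1 : ∀ c, x (l + 1) c < x (l + 2) c := fun c => S.xlt (l + 1) (by omega) c
    have k2 := fun c => S.xlt (l + 2) hN c
    have f0 := k0 b
    have f1 := k0 (r (l + 1) b)
    have f2 := k0 (r (l + 1) (r (l + 2) (r (l + 1) b)))
    have g0 := k1 b
    have g1 := k1 (r (l + 1) b)
    have g4 := k1 (r (l + 2) (r (l + 1) (r (l + 2) (r (l + 1) b))))
    have g5 := k1 (r (l + 1) (r (l + 2) (r (l + 1) (r (l + 2) (r (l + 1) b)))))
    have j0 := k2 b
    have j1 := k2 (r (l + 2) (r (l + 1) b))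
    have j2 := k2 (r (l + 2) (r (l + 1) (r (l + 2) (r (l + 1) b))))
    show x (l + 2) b + x (l + 2) (r (l + 2) b) = x (l + 1) b + x (l + 2 + 1) b
    rw [hb']
    simp only [y0, y1, z1, l1, l2, u1, u2] at ha i0 i1 i2 f1 f2 g1 g4 g5 j1 j2 ⊢
    have ht' : t (l + 2) ≠ t (l + 3) := ht
    by_cases h01 : t (l + 1) = t (l + 2)
    · have e1 := i1 (by rw [p1, p2]; exact ht')
      have e2 := i2 (by rw [q1, q2, p2, p3, h01]; exact ht'.symm)
      exact rect_hex' f0 f1 f2 g0 g1 j0 j2 j1 (by linarith) e1 (by linarith)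
    · have e0 := i0 h01
      have e1 := i1 (by rw [p1, p2]; exact ht')
      have := rect_hex' f0 f2 f1 g5 g4 j2 j0 j1 e0 (by linarith) (by linarith)
      linarith

theorem Sys.prod_of (S : Sys N r x m) {n : ℕ} (hn : n ≤ N) {a : F} (R : F → (ℕ → Bool) → Prop)
    (h0 : ∃ t i j, R a t ∧ 1 ≤ i ∧ i ≤ n ∧ 1 ≤ j ∧ j ≤ n ∧ t i ≠ t j)
    (hR : ∀ b t, R b t → R (r 0 b) t ∧
      ∀ i, 1 ≤ i → i < n → R (r i b) (t ∘ Equiv.swap i (i + 1)))
    (h1 : ∀ b t, R b t → 1 < n → t 1 ≠ t 2 → m 1 b = 4)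
    (h2 : ∀ b t, R b t → ∀ i, 2 ≤ i → i < n → ¬ (t (i - 1) = t i ∧ t i = t (i + 1)) → m i b = 3) :
    Prod r x n a := by
  refine ⟨R, h0, fun b t hb => ⟨(hR b t hb).1, fun i hi hi' => ⟨(hR b t hb).2 i hi hi', ?_⟩⟩⟩
  obtain ⟨l, rfl⟩ : ∃ l, i = l + 1 := ⟨i - 1, by omega⟩
  exact S.rect hn R (fun b t hb => (hR b t hb).2) h1 h2 l hi' b t hb

end UP

end

-- part MP_7fd204_co.GeoA
section

/-! Faces of a finite point configuration: rank, gradedness, diamond property, edge cone lemma. -/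

namespace Pool.Agent.MP_7fd204_co

open Classical

noncomputable section

variable {E : Type*} [NormedAddCommGroup E] [InnerProductSpace ℝ E]

/-- homogenisation -/
def hm (x : E) : ℝ × E := (1, x)

/-- affine functionals, as linear functionals on the homogenised space -/
abbrev Fn (E : Type*) [NormedAddCommGroup E] [InnerProductSpace ℝ E] := (ℝ × E) →ₗ[ℝ] ℝ

/-- `F` is the zero set in `V` of an affine functional that is nonnegative on `V` -/
def Face (V F : Finset E) : Prop :=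
  ∃ l : Fn E, (∀ x ∈ V, 0 ≤ l (hm x)) ∧ ∀ x, x ∈ F ↔ x ∈ V ∧ l (hm x) = 0

def sp (F : Finset E) : Submodule ℝ (ℝ × E) := Submodule.span ℝ (hm '' (F : Set E))

/-- rank = dimension + 1 -/
def rk (F : Finset E) : ℕ := Module.finrank ℝ (sp F)

instance (F : Finset E) : FiniteDimensional ℝ (sp F) :=
  FiniteDimensional.span_of_finite ℝ ((F.finite_toSet).image _)

/-- the affine functional `x ↦ ⟪u, x⟫ + b` -/
def aff (u : E) (b : ℝ) : Fn E :=
  b • LinearMap.fst ℝ ℝ E + (innerₛₗ ℝ u) ∘ₗ LinearMap.snd ℝ ℝ E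

@[simp] lemma aff_hm (u : E) (b : ℝ) (x : E) : aff u b (hm x) = inner ℝ u x + b := by
  simp [aff, hm, add_comm]

lemma hm_mem_sp {F : Finset E} {x : E} (hx : x ∈ F) : hm x ∈ sp F :=
  Submodule.subset_span ⟨x, hx, rfl⟩

lemma sp_mono {F G : Finset E} (h : F ⊆ G) : sp F ≤ sp G :=
  Submodule.span_mono (Set.image_mono h)

lemma rk_mono {F G : Finset E} (h : F ⊆ G) : rk F ≤ rk G :=
  Submodule.finrank_mono (sp_mono h)

lemma vanish_sp {F : Finset E} {l : Fn E} (h : ∀ x ∈ F, l (hm x) = 0) {z : ℝ × E} (hz : z ∈ sp F) :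
    l z = 0 := by
  have : sp F ≤ LinearMap.ker l := by
    refine Submodule.span_le.2 ?_
    rintro _ ⟨x, hx, rfl⟩
    exact h x hx
  exact this hz

lemma Face.subset {V F : Finset E} (h : Face V F) : F ⊆ V := by
  obtain ⟨l, -, hl⟩ := h
  exact fun x hx => ((hl x).1 hx).1

lemma Face.refl (V : Finset E) : Face V V := ⟨0, by simp, by simp⟩

lemma Face.empty (V : Finset E) : Face V ∅ :=
  ⟨LinearMap.fst ℝ ℝ E, by simp [hm], by simp [hm]⟩

lemma face_filter (V : Finset E) (l : Fn E) (h : ∀ x ∈ V, 0 ≤ l (hm x)) :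
    Face V (V.filter fun x => l (hm x) = 0) := ⟨l, h, by simp⟩

/-- exposing functional -/
lemma Face.expose {V F : Finset E} (h : Face V F) :
    ∃ l : Fn E, (∀ x ∈ V, 0 ≤ l (hm x)) ∧ (∀ x ∈ F, l (hm x) = 0) ∧
      ∀ x ∈ V, x ∉ F → 0 < l (hm x) := by
  obtain ⟨l, h0, hl⟩ := h
  exact ⟨l, h0, fun x hx => ((hl x).1 hx).2,
    fun x hx hx' => lt_of_le_of_ne (h0 x hx) fun h => hx' ((hl x).2 ⟨hx, h.symm⟩)⟩

lemma face_of_expose {V F : Finset E} (hs : F ⊆ V) (l : Fn E) (h0 : ∀ x ∈ F, l (hm x) = 0)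
    (h1 : ∀ x ∈ V, x ∉ F → 0 < l (hm x)) : Face V F := by
  refine ⟨l, fun x hx => ?_, fun x => ⟨fun hx => ⟨hs hx, h0 x hx⟩, fun ⟨hx, h⟩ => ?_⟩⟩
  · by_cases hF : x ∈ F
    · exact (h0 x hF).ge
    · exact (h1 x hx hF).le
  · by_contra hF
    exact (h1 x hx hF).ne' h

lemma Face.restrict {V G F : Finset E} (h : Face V F) (hG : G ⊆ V) (hF : F ⊆ G) : Face G F := by
  obtain ⟨l, h0, h1, h2⟩ := h.expose
  exact face_of_expose hF l h1 fun x hx hx' => h2 x (hG hx) hx'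

lemma exists_big (V : Finset E) (a b : E → ℝ) (h : ∀ v ∈ V, 0 < a v) :
    ∃ M : ℝ, 0 < M ∧ ∀ v ∈ V, b v < M * a v := by
  have h0 : 0 ≤ ∑ v ∈ V, |b v / a v| := Finset.sum_nonneg fun v _ => abs_nonneg _
  refine ⟨∑ v ∈ V, |b v / a v| + 1, by linarith, fun v hv => ?_⟩
  have h1 : |b v / a v| ≤ ∑ v ∈ V, |b v / a v| :=
    Finset.single_le_sum (f := fun v => |b v / a v|) (fun v _ => abs_nonneg _) hv
  have h2 : b v / a v < ∑ v ∈ V, |b v / a v| + 1 := by linarith [le_abs_self (b v / a v)]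
  exact (div_lt_iff₀ (h v hv)).1 h2

lemma Face.trans {V G F : Finset E} (h1 : Face V G) (h2 : Face G F) : Face V F := by
  obtain ⟨g, g0, g1, g2⟩ := h1.expose
  obtain ⟨f, f0, f1, f2⟩ := h2.expose
  obtain ⟨M, hM, hM'⟩ := exists_big (V \ G) (fun x => g (hm x)) (fun x => - f (hm x))
    (fun v hv => g2 v (Finset.mem_sdiff.1 hv).1 (Finset.mem_sdiff.1 hv).2)
  refine face_of_expose (h2.subset.trans h1.subset) (f + M • g) (fun x hx => ?_) (fun x hx hx' => ?_)
  · simp [f1 x hx, g1 x (h2.subset hx)]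
  · by_cases hG : x ∈ G
    · simp [g1 x hG, f2 x hG hx']
    · have := hM' x (Finset.mem_sdiff.2 ⟨hx, hG⟩)
      simp only [LinearMap.add_apply, LinearMap.smul_apply, smul_eq_mul]
      linarith

lemma Face.inter {V G F : Finset E} (h1 : Face V G) (h2 : Face V F) : Face V (G ∩ F) := by
  obtain ⟨g, g0, g1, g2⟩ := h1.expose
  obtain ⟨f, f0, f1, f2⟩ := h2.expose
  refine face_of_expose (Finset.inter_subset_left.trans h1.subset) (f + g) (fun x hx => ?_)
    (fun x hx hx' => ?_)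
  · rw [Finset.mem_inter] at hx
    simp [f1 x hx.2, g1 x hx.1]
  · rw [Finset.mem_inter, not_and_or] at hx'
    simp only [LinearMap.add_apply]
    rcases hx' with h | h
    · linarith [g2 x hx h, f0 x hx]
    · linarith [f2 x hx h, g0 x hx]

lemma rk_lt {G F : Finset E} (h : Face G F) (hne : F ≠ G) : rk F < rk G := by
  obtain ⟨l, l0, l1, l2⟩ := h.expose
  obtain ⟨x, hx, hx'⟩ : ∃ x ∈ G, x ∉ F := by
    by_contra hc
    push Not at hc
    exact hne (Finset.Subset.antisymm h.subset hc)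
  refine Submodule.finrank_lt_finrank_of_lt (lt_of_le_of_ne (sp_mono h.subset) fun he => ?_)
  have : hm x ∈ sp F := he ▸ hm_mem_sp hx
  exact (l2 x hx hx').ne' (vanish_sp l1 this)

lemma eq_of_rk {G F : Finset E} (h : Face G F) (hr : rk G ≤ rk F) : F = G := by
  by_contra hne
  exact absurd (rk_lt h hne) (not_lt.2 hr)

/-- two faces of `V`, one inside the other, of equal rank coincide -/
lemma eq_of_rk' {V G F : Finset E} (hG : Face V G) (hF : Face V F) (hs : F ⊆ G)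
    (hr : rk G ≤ rk F) : F = G := eq_of_rk (hF.restrict hG.subset hs) hr

@[simp] lemma rk_empty : rk (∅ : Finset E) = 0 := by
  have : sp (∅ : Finset E) = ⊥ := by simp [sp]
  rw [rk, this, finrank_bot]

lemma hm_ne_zero (x : E) : hm x ≠ 0 := by simp [hm]

@[simp] lemma rk_singleton (v : E) : rk ({v} : Finset E) = 1 := by
  have : sp ({v} : Finset E) = Submodule.span ℝ {hm v} := by simp [sp]
  rw [rk, this, finrank_span_singleton (hm_ne_zero v)]

lemma rk_pos {F : Finset E} (h : F.Nonempty) : 0 < rk F := by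
  obtain ⟨v, hv⟩ := h
  have := rk_mono (Finset.singleton_subset_iff.2 hv)
  simp at this
  omega

lemma nonempty_of_rk {F : Finset E} (h : 0 < rk F) : F.Nonempty := by
  rcases F.eq_empty_or_nonempty with rfl | h'
  · simp at h
  · exact h'

lemma eq_empty_of_rk {F : Finset E} (h : rk F = 0) : F = ∅ := by
  rcases F.eq_empty_or_nonempty with rfl | h'
  · rfl
  · have := rk_pos h'; omega

lemma rk_pair {v w : E} (h : v ≠ w) : rk ({v, w} : Finset E) = 2 := by
  have hli : LinearIndependent ℝ ![hm v, hm w] := by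
    rw [LinearIndependent.pair_iff]
    intro s t hst
    have h1 : s + t = 0 := by simpa [hm] using congrArg Prod.fst hst
    have h2 : s • v + t • w = 0 := by simpa [hm] using congrArg Prod.snd hst
    have ht : t = -s := by linarith
    subst ht
    have : s • (v - w) = 0 := by rw [smul_sub]; simpa [sub_eq_add_neg] using h2
    rcases smul_eq_zero.1 this with h3 | h3
    · simp [h3]
    · exact absurd (sub_eq_zero.1 h3) h
  have := finrank_span_eq_card hli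
  have he : Submodule.span ℝ (Set.range ![hm v, hm w]) = sp ({v, w} : Finset E) := by
    simp [sp, Set.image_insert_eq, Set.pair_comm]
  rw [he] at this
  simpa [rk] using this

lemma eq_singleton_of_rk {F : Finset E} (h : rk F = 1) : ∃ v, F = {v} := by
  obtain ⟨v, hv⟩ := nonempty_of_rk (F := F) (by omega)
  refine ⟨v, Finset.eq_singleton_iff_unique_mem.2 ⟨hv, fun w hw => ?_⟩⟩
  by_contra hne
  have h2 := rk_mono (F := {w, v}) (G := F) (by
    intro x hx
    simp only [Finset.mem_insert, Finset.mem_singleton] at hx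
    rcases hx with rfl | rfl <;> assumption)
  rw [rk_pair hne] at h2
  omega

/-- a functional vanishing on `A` and at one more vector, not vanishing on `C` -/
lemma exists_fn {A C : Finset E} (z : ℝ × E) (h : rk A + 2 ≤ rk C) :
    ∃ χ : Fn E, (∀ x ∈ A, χ (hm x) = 0) ∧ χ z = 0 ∧ ∃ x ∈ C, χ (hm x) ≠ 0 := by
  set S := sp A ⊔ Submodule.span ℝ {z} with hS
  have hfin : FiniteDimensional ℝ S := inferInstance
  have h1 : Module.finrank ℝ S ≤ rk A + 1 := by
    refine (Submodule.finrank_add_le_finrank_add_finrank _ _).trans ?_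
    have := finrank_span_le_card (R := ℝ) ({z} : Set (ℝ × E))
    simp at this
    unfold rk
    omega
  obtain ⟨x, hx, hxS⟩ : ∃ x ∈ C, hm x ∉ S := by
    by_contra hc
    push Not at hc
    have : sp C ≤ S := by
      refine Submodule.span_le.2 ?_
      rintro _ ⟨x, hx, rfl⟩
      exact hc x hx
    have := Submodule.finrank_mono this
    unfold rk at h h1
    omega
  obtain ⟨χ, hχ, hχS⟩ := Submodule.exists_le_ker_of_notMem hxS
  refine ⟨χ, fun y hy => hχS (Submodule.mem_sup_left (hm_mem_sp hy)),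
    hχS (Submodule.mem_sup_right (Submodule.mem_span_singleton_self z)), x, hx, hχ⟩

/-- rotate an exposing functional about `A` until it hits the points where `μ / l` is minimal -/
lemma exists_min {A C : Finset E} (hA : Face C A) (hne : A ≠ C) (μ : Fn E)
    (hμ : ∀ x ∈ A, μ (hm x) = 0) :
    ∃ (l : Fn E) (t : ℝ) (y : E), (∀ x ∈ A, l (hm x) = 0) ∧ (∀ x ∈ C, x ∉ A → 0 < l (hm x)) ∧
      y ∈ C ∧ y ∉ A ∧ μ (hm y) = t * l (hm y) ∧ ∀ x ∈ C, t * l (hm x) ≤ μ (hm x) := by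
  obtain ⟨l, l0, l1, l2⟩ := hA.expose
  have hn : (C \ A).Nonempty := by
    rw [Finset.sdiff_nonempty]
    exact fun h => hne (Finset.Subset.antisymm hA.subset h)
  obtain ⟨y, hy, hmin⟩ := Finset.exists_min_image (C \ A) (fun x => μ (hm x) / l (hm x)) hn
  rw [Finset.mem_sdiff] at hy
  refine ⟨l, μ (hm y) / l (hm y), y, l1, l2, hy.1, hy.2, ?_, fun x hx => ?_⟩
  · field_simp [(l2 y hy.1 hy.2).ne']
  · by_cases hxA : x ∈ A
    · simp [l1 x hxA, hμ x hxA]
    · exact (le_div_iff₀ (l2 x hx hxA)).1 (hmin x (Finset.mem_sdiff.2 ⟨hx, hxA⟩))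

/-- a proper face strictly above `A` -/
lemma exists_between {A C : Finset E} (hA : Face C A) (h : rk A + 2 ≤ rk C) :
    ∃ D, Face C D ∧ A ⊆ D ∧ rk A < rk D ∧ rk D < rk C := by
  have hne : A ≠ C := by rintro rfl; omega
  obtain ⟨y0, hy0, hy0'⟩ : ∃ x ∈ C, x ∉ A := by
    by_contra hc
    push Not at hc
    exact hne (Finset.Subset.antisymm hA.subset hc)
  obtain ⟨χ, c1, c2, x0, hx0, c3⟩ := exists_fn (hm y0) h
  obtain ⟨l, t, y, l1, l2, hy, hyA, hyt, hmin⟩ := exists_min hA hne χ c1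
  have hD : Face C (C.filter fun x => (χ - t • l) (hm x) = 0) :=
    face_filter C _ fun x hx => by simp; linarith [hmin x hx]
  have hAD : A ⊆ C.filter fun x => (χ - t • l) (hm x) = 0 := fun x hx => by
    simp [hA.subset hx, c1 x hx, l1 x hx]
  refine ⟨_, hD, hAD, rk_lt (hA.restrict hD.subset hAD) fun he => ?_, rk_lt hD fun he => ?_⟩
  · apply hyA
    rw [he]
    simp [hy, hyt]
  · have hall : ∀ x ∈ C, χ (hm x) = t * l (hm x) := fun x hx => by
      rw [← he] at hx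
      have := (Finset.mem_filter.1 hx).2
      simp at this
      linarith
    have ht : t = 0 := by
      have := hall y0 hy0
      rw [c2] at this
      rcases mul_eq_zero.1 this.symm with h | h
      · exact h
      · exact absurd h (l2 y0 hy0 hy0').ne'
    exact c3 (by rw [hall x0 hx0, ht, zero_mul])

/-- gradedness -/
lemma exists_up {A C : Finset E} (hA : Face C A) (h : rk A < rk C) :
    ∃ B, Face C B ∧ A ⊆ B ∧ rk B = rk A + 1 := by
  induction' hk : rk C using Nat.strong_induction_on with k ih generalizing C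
  by_cases h1 : rk C = rk A + 1
  · exact ⟨C, Face.refl C, hA.subset, h1⟩
  · obtain ⟨D, hD, hAD, h2, h3⟩ := exists_between hA (by omega)
    obtain ⟨B, hB, hAB, h4⟩ := ih (rk D) (hk ▸ h3) (hA.restrict hD.subset hAD) h2 rfl
    exact ⟨B, hD.trans hB, hAB, h4⟩

lemma exists_rk {A C : Finset E} (hA : Face C A) (k : ℕ) (h1 : rk A ≤ k) (h2 : k ≤ rk C) :
    ∃ B, Face C B ∧ A ⊆ B ∧ rk B = k := by
  induction k, h1 using Nat.le_induction with
  | base => exact ⟨A, hA, subset_rfl, rfl⟩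
  | succ k hk ih =>
    obtain ⟨B, hB, hAB, hr⟩ := ih (by omega)
    obtain ⟨B', hB', hBB, hr'⟩ := exists_up hB (by omega)
    exact ⟨B', hB', hAB.trans hBB, by omega⟩

/-- edge cone lemma -/
lemma edge_cone {B C : Finset E} (hB : Face C B) (μ : Fn E) (hμ : ∀ x ∈ B, μ (hm x) = 0)
    (hneg : ∃ x ∈ C, μ (hm x) < 0) :
    ∃ D, Face C D ∧ B ⊆ D ∧ rk D = rk B + 1 ∧ ∀ x ∈ D, x ∉ B → μ (hm x) < 0 := by
  obtain ⟨x0, hx0, hx0'⟩ := hneg
  have hx0B : x0 ∉ B := fun h => hx0'.ne (hμ x0 h)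
  have hne : B ≠ C := by rintro rfl; exact hx0B hx0
  obtain ⟨l, t, y, l1, l2, hy, hyA, hyt, hmin⟩ := exists_min hB hne μ hμ
  have ht : t < 0 := by
    have := hmin x0 hx0
    have h2 := l2 x0 hx0 hx0B
    by_contra hc
    push Not at hc
    nlinarith [mul_nonneg hc h2.le]
  have hD : Face C (C.filter fun x => (μ - t • l) (hm x) = 0) :=
    face_filter C _ fun x hx => by simp; linarith [hmin x hx]
  have hAD : B ⊆ C.filter fun x => (μ - t • l) (hm x) = 0 := fun x hx => by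
    simp [hB.subset hx, hμ x hx, l1 x hx]
  have hlt := rk_lt (hB.restrict hD.subset hAD) fun he => by
    apply hyA
    rw [he]
    simp [hy, hyt]
  obtain ⟨D, hD', hBD, hr⟩ := exists_up (hB.restrict hD.subset hAD) hlt
  refine ⟨D, hD.trans hD', hBD, hr, fun x hx hxB => ?_⟩
  have h1 := Finset.mem_filter.1 (hD'.subset hx)
  have h2 := h1.2
  simp at h2
  have h3 := l2 x h1.1 hxB
  nlinarith

/-- on a face of corank one relative to `A`, functionals vanishing on `A` are proportional -/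
lemma proportional {A B : Finset E} (hs : A ⊆ B) (hr : rk B ≤ rk A + 1) (l μ : Fn E)
    (hl : ∀ x ∈ A, l (hm x) = 0) (hμ : ∀ x ∈ A, μ (hm x) = 0) {y : E} (hy : y ∈ B)
    (hly : l (hm y) ≠ 0) : ∀ x ∈ B, μ (hm x) * l (hm y) = μ (hm y) * l (hm x) := by
  have hnot : hm y ∉ sp A := fun h => hly (vanish_sp hl h)
  have hle : sp A ⊔ Submodule.span ℝ {hm y} ≤ sp B :=
    sup_le (sp_mono hs) ((Submodule.span_singleton_le_iff_mem _ _).2 (hm_mem_sp hy))
  have hlt : sp A < sp A ⊔ Submodule.span ℝ {hm y} :=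
    lt_of_le_of_ne le_sup_left fun he => hnot
      (he ▸ Submodule.mem_sup_right (Submodule.mem_span_singleton_self _))
  have h1 := Submodule.finrank_lt_finrank_of_lt hlt
  have heq : sp A ⊔ Submodule.span ℝ {hm y} = sp B :=
    Submodule.eq_of_le_of_finrank_le hle (by unfold rk at hr; omega)
  intro x hx
  have := hm_mem_sp hx
  rw [← heq] at this
  obtain ⟨a, ha, b, hb, hab⟩ := Submodule.mem_sup.1 this
  obtain ⟨s, rfl⟩ := Submodule.mem_span_singleton.1 hb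
  rw [← hab]
  simp [vanish_sp hl ha, vanish_sp hμ ha]
  ring

/-- the faces between `A` and `C` -/
def Mid (A C B : Finset E) : Prop := Face C B ∧ A ⊆ B ∧ rk B = rk A + 1

/-- diamond, with signs: if `χ` vanishes on `A` and takes both signs on `C`, the two middle faces
lie on the two sides of `χ` and there are no others -/
lemma diamond_sign {A C : Finset E} (hA : Face C A) (hr : rk C = rk A + 2) (χ : Fn E)
    (h0 : ∀ x ∈ A, χ (hm x) = 0) (hp : ∃ x ∈ C, 0 < χ (hm x)) (hn : ∃ x ∈ C, χ (hm x) < 0) :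
    ∃ B₁ B₂, Mid A C B₁ ∧ Mid A C B₂ ∧ (∀ x ∈ B₁, x ∉ A → 0 < χ (hm x)) ∧
      (∀ x ∈ B₂, x ∉ A → χ (hm x) < 0) ∧ ∀ B, Mid A C B → B = B₁ ∨ B = B₂ := by
  obtain ⟨B₂, f2, s2, r2, n2⟩ := edge_cone hA χ h0 hn
  obtain ⟨B₁, f1, s1, r1, n1⟩ := edge_cone hA (-χ) (by simpa using h0) (by simpa using hp)
  have n1' : ∀ x ∈ B₁, x ∉ A → 0 < χ (hm x) := fun x hx hx' => by simpa using n1 x hx hx'
  refine ⟨B₁, B₂, ⟨f1, s1, r1⟩, ⟨f2, s2, r2⟩, n1', n2, fun B ⟨fB, sB, rB⟩ => ?_⟩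
  have pt : ∀ D, Face C D → A ⊆ D → rk D = rk A + 1 → ∃ y ∈ D, y ∉ A := fun D _ sD rD => by
    by_contra hc
    push Not at hc
    have := rk_mono (F := D) (G := A) hc
    omega
  obtain ⟨y1, hy1, hy1'⟩ := pt B₁ f1 s1 r1
  obtain ⟨y2, hy2, hy2'⟩ := pt B₂ f2 s2 r2
  obtain ⟨y, hy, hy'⟩ := pt B fB sB rB
  obtain ⟨m, m0, m1, m2⟩ := fB.expose
  obtain ⟨m₁, a0, a1, a2⟩ := f1.expose
  obtain ⟨m₂, b0, b1, b2⟩ := f2.expose
  -- if y1 ∈ B then B = B₁
  have key : ∀ D z, Face C D → A ⊆ D → rk D = rk A + 1 → z ∈ D → z ∉ A → z ∈ B → B = D := by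
    intro D z fD sD rD hz hzA hzB
    have hi := fD.inter fB
    have hsub : A ⊆ D ∩ B := Finset.subset_inter sD sB
    have hlt := rk_lt (hA.restrict hi.subset hsub) fun he => hzA (by
      rw [he]; exact Finset.mem_inter.2 ⟨hz, hzB⟩)
    have e1 := eq_of_rk' fD hi Finset.inter_subset_left (by omega)
    have e2 := eq_of_rk' fB hi Finset.inter_subset_right (by omega)
    rw [← e2, e1]
  by_contra hc
  push Not at hc
  have hy1B : y1 ∉ B := fun h => hc.1 (key B₁ y1 f1 s1 r1 hy1 hy1' h)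
  have hy2B : y2 ∉ B := fun h => hc.2 (key B₂ y2 f2 s2 r2 hy2 hy2' h)
  have hyB1 : y ∉ B₁ := fun h => hc.1 (key B₁ y f1 s1 r1 h hy' hy)
  have hyB2 : y ∉ B₂ := fun h => hc.2 (key B₂ y f2 s2 r2 h hy' hy)
  -- span C = span A + y1 + y2
  have c1 := n1' y1 hy1 hy1'
  have c2 := n2 y2 hy2 hy2'
  have hy1B2 : y1 ∉ B₂ := fun h => absurd (n2 y1 h hy1') (not_lt.2 c1.le)
  have hins : insert y1 B₂ ⊆ C := Finset.insert_subset (f1.subset hy1) f2.subset
  have hnot : hm y1 ∉ sp B₂ := fun h => (b2 y1 (f1.subset hy1) hy1B2).ne' (vanish_sp b1 h)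
  have hle : sp B₂ ⊔ Submodule.span ℝ {hm y1} ≤ sp C :=
    sup_le (sp_mono f2.subset) ((Submodule.span_singleton_le_iff_mem _ _).2 (hm_mem_sp (f1.subset hy1)))
  have hlt : sp B₂ < sp B₂ ⊔ Submodule.span ℝ {hm y1} :=
    lt_of_le_of_ne le_sup_left fun he => hnot
      (he ▸ Submodule.mem_sup_right (Submodule.mem_span_singleton_self _))
  have h1 := Submodule.finrank_lt_finrank_of_lt hlt
  have heq : sp B₂ ⊔ Submodule.span ℝ {hm y1} = sp C :=
    Submodule.eq_of_le_of_finrank_le hle (by unfold rk at hr r2; omega)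
  have hyC := hm_mem_sp (fB.subset hy)
  rw [← heq] at hyC
  obtain ⟨a, ha, b, hb, hab⟩ := Submodule.mem_sup.1 hyC
  obtain ⟨s, rfl⟩ := Submodule.mem_span_singleton.1 hb
  -- on span B₂ the functionals m and m₁ are proportional
  have hprop : m a * m₁ (hm y2) = m (hm y2) * m₁ a := by
    have hz : ∀ x ∈ B₂, (m₁ (hm y2) • m - m (hm y2) • m₁) (hm x) = 0 := fun x hx => by
      have hy2B1 : y2 ∉ B₁ := fun h => absurd (n1' y2 h hy2') (not_lt.2 c2.le)
      have := proportional s2 (by omega) m₁ m (fun x hx => a1 x (s1 hx)) (fun x hx => m1 x (sB hx))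
        hy2 (a2 y2 (f2.subset hy2) hy2B1).ne' x hx
      simp
      linarith
    have := vanish_sp hz ha
    simp at this
    linarith
  have hy2B1 : y2 ∉ B₁ := fun h => absurd (n1' y2 h hy2') (not_lt.2 c2.le)
  have e1 : m a + s * m (hm y1) = 0 := by
    have := m1 y hy
    rw [← hab] at this
    simpa using this
  have e2 : 0 < m₁ a := by
    have := a2 y (fB.subset hy) hyB1
    rw [← hab] at this
    simpa [a1 y1 hy1] using this
  have e3 : 0 < s := by
    have := b2 y (fB.subset hy) hyB2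
    rw [← hab] at this
    simp [vanish_sp b1 ha] at this
    have h4 := b2 y1 (f1.subset hy1) hy1B2
    by_contra hs
    push Not at hs
    nlinarith
  have p1 := m2 y1 (f1.subset hy1) hy1B
  have p2 := m2 y2 (f2.subset hy2) hy2B
  have p3 := a2 y2 (f2.subset hy2) hy2B1
  have : m a < 0 := by nlinarith
  nlinarith [mul_pos p2 e2, mul_pos (neg_pos.2 this) p3]

/-- diamond property -/
lemma diamond {A C : Finset E} (hA : Face C A) (hr : rk C = rk A + 2) :
    ∃ B₁ B₂, B₁ ≠ B₂ ∧ Mid A C B₁ ∧ Mid A C B₂ ∧ ∀ B, Mid A C B → B = B₁ ∨ B = B₂ := by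
  obtain ⟨χ, c1, c2, x0, hx0, c3⟩ := exists_fn (A := A) (C := C) (∑ x ∈ C, hm x) hr.ge
  rw [map_sum] at c2
  have hp : ∃ x ∈ C, 0 < χ (hm x) := by
    by_contra hc
    push Not at hc
    exact c3 ((Finset.sum_eq_zero_iff_of_nonpos hc).1 c2 x0 hx0)
  have hn : ∃ x ∈ C, χ (hm x) < 0 := by
    by_contra hc
    push Not at hc
    exact c3 ((Finset.sum_eq_zero_iff_of_nonneg hc).1 c2 x0 hx0)
  obtain ⟨B₁, B₂, m1, m2, p1, p2, hu⟩ := diamond_sign hA hr χ c1 hp hn
  refine ⟨B₁, B₂, fun he => ?_, m1, m2, hu⟩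
  obtain ⟨y, hy, hy'⟩ : ∃ y ∈ B₁, y ∉ A := by
    by_contra hc
    push Not at hc
    have := rk_mono (F := B₁) (G := A) hc
    have := m1.2.2
    omega
  exact absurd (p2 y (he ▸ hy) hy') (not_lt.2 (p1 y hy hy').le)

lemma Mid.exists_not_mem {A C B : Finset E} (h : Mid A C B) : ∃ y ∈ B, y ∉ A := by
  by_contra hc
  push Not at hc
  have := rk_mono (F := B) (G := A) hc
  have := h.2.2
  omega

lemma Mid.inter {A C B B' : Finset E} (hA : Face C A) (h : Mid A C B) (h' : Mid A C B')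
    (hne : B ≠ B') : B ∩ B' = A := by
  have hi := h.1.inter h'.1
  have hsub : A ⊆ B ∩ B' := Finset.subset_inter h.2.1 h'.2.1
  by_contra hc
  have hlt := rk_lt (hA.restrict hi.subset hsub) (Ne.symm hc)
  have e1 := eq_of_rk' h.1 hi Finset.inter_subset_left (by have := h.2.2; omega)
  have e2 := eq_of_rk' h'.1 hi Finset.inter_subset_right (by have := h'.2.2; omega)
  exact hne (e1.symm.trans e2)

/-- adjacency of atoms above `A` inside `C` -/
def Adj (A C B B' : Finset E) : Prop :=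
  Mid A C B ∧ Mid A C B' ∧ B ≠ B' ∧ ∃ D, Face C D ∧ B ⊆ D ∧ B' ⊆ D ∧ rk D = rk A + 2

/-- the atoms above `A` are connected (simplex method) -/
lemma atoms_connected {A C B B' : Finset E} (hA : Face C A) (h : Mid A C B) (h' : Mid A C B') :
    Relation.ReflTransGen (Adj A C) B B' := by
  obtain ⟨l, l0, l1, l2⟩ := hA.expose
  obtain ⟨η, e0, e1, e2⟩ := h'.1.expose
  have eA : ∀ x ∈ A, η (hm x) = 0 := fun x hx => e1 x (h'.2.1 hx)
  -- measure: number of points with smaller ratio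
  have main : ∀ (n : ℕ) (B : Finset E) (y : E), Mid A C B → y ∈ B → y ∉ A →
      ((C \ A).filter fun x => η (hm x) / l (hm x) < η (hm y) / l (hm y)).card = n →
      Relation.ReflTransGen (Adj A C) B B' := by
    intro n
    induction n using Nat.strong_induction_on with
    | _ n ih =>
      intro B y hB hy hyA hn
      by_cases hBB : B = B'
      · rw [hBB]
      have hyC := hB.1.subset hy
      have ly := l2 y hyC hyA
      have hyB' : y ∉ B' := fun hh => hyA (by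
        rw [← Mid.inter hA hB h' hBB]; exact Finset.mem_inter.2 ⟨hy, hh⟩)
      have ey := e2 y hyC hyB'
      set ρ := η (hm y) / l (hm y) with hρ
      have ρpos : 0 < ρ := div_pos ey ly
      have hμ : ∀ x ∈ B, (η - ρ • l) (hm x) = 0 := fun x hx => by
        have := proportional hB.2.1 hB.2.2.le l η l1 eA hy ly.ne' x hx
        simp only [LinearMap.sub_apply, LinearMap.smul_apply, smul_eq_mul, hρ]
        field_simp
        linarith
      obtain ⟨y', hy', hy'A⟩ := h'.exists_not_mem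
      obtain ⟨D, fD, sD, rD, nD⟩ := edge_cone hB.1 (η - ρ • l) hμ ⟨y', h'.1.subset hy', by
        have := l2 y' (h'.1.subset hy') hy'A
        simp [e1 y' hy']
        positivity⟩
      have hAD : Face D A := hA.restrict fD.subset (hB.2.1.trans sD)
      have rD' : rk D = rk A + 2 := by have := hB.2.2; omega
      obtain ⟨B₁, B₂, hne, m1, m2, hu⟩ := diamond hAD rD'
      have hBD : Mid A D B := ⟨hB.1.restrict fD.subset sD, hB.2⟩
      obtain ⟨B'', m'', hne''⟩ : ∃ B'', Mid A D B'' ∧ B ≠ B'' := by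
        rcases hu B hBD with rfl | rfl
        · exact ⟨B₂, m2, hne⟩
        · exact ⟨B₁, m1, hne.symm⟩
      have mC : Mid A C B'' := ⟨fD.trans m''.1, m''.2⟩
      obtain ⟨z, hz, hzA⟩ := m''.exists_not_mem
      have hzB : z ∉ B := fun hh => hzA (by
        rw [← Mid.inter hA hB mC hne'']; exact Finset.mem_inter.2 ⟨hh, hz⟩)
      have hzC := mC.1.subset hz
      have lz := l2 z hzC hzA
      have hlt : η (hm z) / l (hm z) < ρ := by
        have := nD z (m''.1.subset hz) hzB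
        simp only [LinearMap.sub_apply, LinearMap.smul_apply, smul_eq_mul] at this
        rw [div_lt_iff₀ lz]
        linarith
      refine Relation.ReflTransGen.head ⟨hB, mC, hne'', D, fD, sD, m''.1.subset, rD'⟩
        (ih _ ?_ B'' z mC hz hzA rfl)
      rw [← hn]
      refine Finset.card_lt_card ⟨fun x hx => ?_, fun hs => ?_⟩
      · rw [Finset.mem_filter] at hx ⊢
        exact ⟨hx.1, hx.2.trans hlt⟩
      · have := hs (Finset.mem_filter.2 ⟨Finset.mem_sdiff.2 ⟨hzC, hzA⟩, hlt⟩)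
        exact lt_irrefl _ (Finset.mem_filter.1 this).2
  obtain ⟨y, hy, hyA⟩ := h.exists_not_mem
  exact main _ B y h hy hyA rfl

/-- a rank two face of a set in convex position is a pair -/
lemma eq_pair_of_rk {F : Finset E} (hpts : ∀ v ∈ F, Face F {v}) (h : rk F = 2) :
    ∃ v w, v ≠ w ∧ F = {v, w} := by
  obtain ⟨B₁, B₂, hne, m1, m2, hu⟩ := diamond (Face.empty F) (by simpa using h)
  obtain ⟨v, rfl⟩ := eq_singleton_of_rk (F := B₁) (by simpa using m1.2.2)
  obtain ⟨w, rfl⟩ := eq_singleton_of_rk (F := B₂) (by simpa using m2.2.2)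
  refine ⟨v, w, fun he => hne (by rw [he]), ?_⟩
  ext x
  simp only [Finset.mem_insert, Finset.mem_singleton]
  constructor
  · intro hx
    rcases hu {x} ⟨hpts x hx, by simp, by simp⟩ with h | h
    · exact Or.inl (Finset.singleton_injective h)
    · exact Or.inr (Finset.singleton_injective h)
  · rintro (rfl | rfl)
    · exact m1.1.subset (by simp)
    · exact m2.1.subset (by simp)

/-- edge cone lemma at a vertex -/
lemma vertex_cone {G : Finset E} (hpts : ∀ v ∈ G, Face G {v}) {u : E} (hu : u ∈ G) (μ : Fn E)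
    (h0 : μ (hm u) = 0) (h : ∀ w, w ≠ u → Face G {u, w} → 0 ≤ μ (hm w)) :
    ∀ x ∈ G, 0 ≤ μ (hm x) := by
  by_contra hc
  push Not at hc
  obtain ⟨D, fD, sD, rD, nD⟩ := edge_cone (hpts u hu) μ (by simpa using h0) hc
  obtain ⟨v, w, hvw, rfl⟩ := eq_pair_of_rk (F := D)
    (fun v hv => (hpts v (fD.subset hv)).restrict fD.subset (by simpa using hv)) (by simpa using rD)
  have hu' : u = v ∨ u = w := by simpa using sD
  rcases hu' with rfl | rfl
  · exact absurd (nD w (by simp) (by simpa using hvw.symm)) (not_lt.2 (h w hvw.symm fD))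
  · exact absurd (nD v (by simp) (by simpa using hvw)) (not_lt.2 (h v hvw (by
      rwa [Finset.pair_comm] at fD)))

end

end Pool.Agent.MP_7fd204_co

/-! Flags of a finite point configuration, the involutions `fr i`, strong connectivity. -/

namespace Pool.Agent.MP_7fd204_co

open Classical

noncomputable section

variable {E : Type} [NormedAddCommGroup E] [InnerProductSpace ℝ E] {V : Finset E}

/-- a flag; `f k` is the face of rank `k` (dimension `k - 1`), and `V` itself for `k ≥ rk V` -/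
@[ext] structure Flag (V : Finset E) where
  f : ℕ → Finset E
  face : ∀ k, Face V (f k)
  mono : ∀ k, f k ⊆ f (k + 1)
  rk_f : ∀ k, rk (f k) = min k (rk V)

lemma Flag.le (Φ : Flag V) {j k : ℕ} (h : j ≤ k) : Φ.f j ⊆ Φ.f k := by
  induction k, h using Nat.le_induction with
  | base => exact subset_rfl
  | succ k _ ih => exact ih.trans (Φ.mono k)

lemma Flag.face_le (Φ : Flag V) {j k : ℕ} (h : j ≤ k) : Face (Φ.f k) (Φ.f j) :=
  (Φ.face j).restrict (Φ.face k).subset (Φ.le h)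

lemma Flag.rk_of_le (Φ : Flag V) {k : ℕ} (h : k ≤ rk V) : rk (Φ.f k) = k := by
  rw [Φ.rk_f, min_eq_left h]

lemma Flag.top (Φ : Flag V) {k : ℕ} (h : rk V ≤ k) : Φ.f k = V :=
  eq_of_rk (Φ.face k) (by rw [Φ.rk_f, min_eq_right h])

lemma Flag.zero (Φ : Flag V) : Φ.f 0 = ∅ := eq_empty_of_rk (by simp [Φ.rk_f])

lemma Flag.nonempty (Φ : Flag V) {k : ℕ} (hk : 1 ≤ k) (h : 1 ≤ rk V) : (Φ.f k).Nonempty :=
  nonempty_of_rk (by rw [Φ.rk_f]; omega)

lemma Flag.mid (Φ : Flag V) {i : ℕ} (h : i + 2 ≤ rk V) :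
    Mid (Φ.f i) (Φ.f (i + 2)) (Φ.f (i + 1)) :=
  ⟨Φ.face_le (by omega), Φ.mono i, by rw [Φ.rk_of_le (by omega), Φ.rk_of_le (by omega)]⟩

lemma Flag.gap (Φ : Flag V) {i : ℕ} (h : i + 2 ≤ rk V) : rk (Φ.f (i + 2)) = rk (Φ.f i) + 2 := by
  rw [Φ.rk_of_le (by omega), Φ.rk_of_le (by omega)]

/-- the other face of the diamond -/
def other (A B C : Finset E) : Finset E :=
  if h : ∃ B', Mid A C B' ∧ B' ≠ B then h.choose else B

lemma other_spec {A B C : Finset E} (hA : Face C A) (hr : rk C = rk A + 2) (hB : Mid A C B) :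
    Mid A C (other A B C) ∧ other A B C ≠ B := by
  have h : ∃ B', Mid A C B' ∧ B' ≠ B := by
    obtain ⟨B₁, B₂, hne, m1, m2, hu⟩ := diamond hA hr
    rcases hu B hB with rfl | rfl
    · exact ⟨B₂, m2, hne.symm⟩
    · exact ⟨B₁, m1, hne⟩
  rw [other, dif_pos h]
  exact h.choose_spec

lemma eq_other {A B C B' : Finset E} (hA : Face C A) (hr : rk C = rk A + 2) (hB : Mid A C B)
    (hB' : Mid A C B') (hne : B' ≠ B) : B' = other A B C := by
  obtain ⟨mo, ho⟩ := other_spec hA hr hB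
  obtain ⟨B₁, B₂, h12, m1, m2, hu⟩ := diamond hA hr
  rcases hu B hB with h1 | h1 <;> rcases hu B' hB' with h2 | h2 <;>
    rcases hu _ mo with h3 | h3 <;> simp_all

/-- change the face of dimension `i` -/
def fr (i : ℕ) (Φ : Flag V) : Flag V :=
  if h : i + 2 ≤ rk V then
    { f := Function.update Φ.f (i + 1) (other (Φ.f i) (Φ.f (i + 1)) (Φ.f (i + 2)))
      face := fun k => by
        have ho := (other_spec (Φ.face_le (by omega)) (Φ.gap h) (Φ.mid h)).1
        by_cases hk : k = i + 1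
        · subst hk
          simpa using (Φ.face (i + 2)).trans ho.1
        · simpa [hk] using Φ.face k
      mono := fun k => by
        have ho := (other_spec (Φ.face_le (by omega)) (Φ.gap h) (Φ.mid h)).1
        by_cases hk : k = i + 1
        · subst hk
          simpa using ho.1.subset
        · by_cases hk' : k = i
          · subst hk'
            simpa using ho.2.1
          · simpa [hk, hk'] using Φ.mono k
      rk_f := fun k => by
        have ho := (other_spec (Φ.face_le (by omega)) (Φ.gap h) (Φ.mid h)).1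
        by_cases hk : k = i + 1
        · subst hk
          have := ho.2.2
          rw [Φ.rk_of_le (by omega)] at this
          simp [this]
          omega
        · simpa [hk] using Φ.rk_f k }
  else Φ

lemma fr_f_ne (Φ : Flag V) {i j : ℕ} (h : j ≠ i + 1) : (fr i Φ).f j = Φ.f j := by
  unfold fr
  split_ifs
  · simp [h]
  · rfl

lemma fr_f_self (Φ : Flag V) {i : ℕ} (h : i + 2 ≤ rk V) :
    (fr i Φ).f (i + 1) = other (Φ.f i) (Φ.f (i + 1)) (Φ.f (i + 2)) := by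
  unfold fr
  simp [h]

lemma fr_mid (Φ : Flag V) {i : ℕ} (h : i + 2 ≤ rk V) :
    Mid (Φ.f i) (Φ.f (i + 2)) ((fr i Φ).f (i + 1)) := by
  rw [fr_f_self Φ h]
  exact (other_spec (Φ.face_le (by omega)) (Φ.gap h) (Φ.mid h)).1

lemma fr_ne (Φ : Flag V) {i : ℕ} (h : i + 2 ≤ rk V) : (fr i Φ).f (i + 1) ≠ Φ.f (i + 1) := by
  rw [fr_f_self Φ h]
  exact (other_spec (Φ.face_le (by omega)) (Φ.gap h) (Φ.mid h)).2

/-- a flag that differs from `Φ` exactly in dimension `i` is `fr i Φ` -/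
lemma eq_fr {Φ Ψ : Flag V} {i : ℕ} (h : i + 2 ≤ rk V) (h1 : ∀ j, j ≠ i + 1 → Ψ.f j = Φ.f j)
    (h2 : Ψ.f (i + 1) ≠ Φ.f (i + 1)) : Ψ = fr i Φ := by
  ext1
  funext j
  by_cases hj : j = i + 1
  · subst hj
    rw [fr_f_self Φ h]
    refine eq_other (Φ.face_le (by omega)) (Φ.gap h) (Φ.mid h) ?_ h2
    have := Ψ.mid h
    rwa [h1 i (by omega), h1 (i + 2) (by omega)] at this
  · rw [fr_f_ne Φ hj, h1 j hj]

lemma eq_or_eq_fr {Φ Ψ : Flag V} {i : ℕ} (h : i + 2 ≤ rk V)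
    (h1 : ∀ j, j ≠ i + 1 → Ψ.f j = Φ.f j) : Ψ = Φ ∨ Ψ = fr i Φ := by
  by_cases h2 : Ψ.f (i + 1) = Φ.f (i + 1)
  · left
    ext1
    funext j
    by_cases hj : j = i + 1
    · rw [hj, h2]
    · exact h1 j hj
  · exact Or.inr (eq_fr h h1 h2)

lemma fr_fr (i : ℕ) (Φ : Flag V) : fr i (fr i Φ) = Φ := by
  by_cases h : i + 2 ≤ rk V
  · exact (eq_fr h (fun j hj => (fr_f_ne Φ hj).symm) (fr_ne Φ h).symm).symm
  · simp [fr, h]

lemma fr_comm {i j : ℕ} (hij : i + 2 ≤ j) (Φ : Flag V) : fr i (fr j Φ) = fr j (fr i Φ) := by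
  by_cases hj : j + 2 ≤ rk V
  · have hi : i + 2 ≤ rk V := by omega
    ext1
    funext k
    by_cases h1 : k = i + 1
    · subst h1
      rw [fr_f_self _ hi, fr_f_ne (fr i Φ) (by omega), fr_f_self _ hi, fr_f_ne Φ (by omega),
        fr_f_ne Φ (by omega), fr_f_ne Φ (by omega)]
    · by_cases h2 : k = j + 1
      · subst h2
        rw [fr_f_ne (fr j Φ) h1, fr_f_self _ hj, fr_f_self _ hj, fr_f_ne Φ (by omega),
          fr_f_ne Φ (by omega), fr_f_ne Φ (by omega)]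
      · rw [fr_f_ne _ h1, fr_f_ne _ h2, fr_f_ne _ h2, fr_f_ne _ h1]
  · have e : ∀ Ψ : Flag V, fr j Ψ = Ψ := fun Ψ => by simp [fr, hj]
    rw [e, e]

instance : Finite (Flag V) := by
  let g : Flag V → (Fin (rk V) → V.powerset) := fun Φ k =>
    ⟨Φ.f k, Finset.mem_powerset.2 (Φ.face k).subset⟩
  refine Finite.of_injective g fun Φ Ψ h => ?_
  ext1
  funext k
  by_cases hk : k < rk V
  · exact congrArg Subtype.val (congrFun h ⟨k, hk⟩)
  · rw [Φ.top (by omega), Ψ.top (by omega)]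

/-- a saturated chain of faces from `A` to `C` -/
lemma exists_chain {A C : Finset E} (hA : Face C A) :
    ∃ g : ℕ → Finset E, g (rk A) = A ∧ g (rk C) = C ∧
      (∀ k, rk A ≤ k → k ≤ rk C → Face C (g k) ∧ rk (g k) = k) ∧
      ∀ k, rk A ≤ k → k < rk C → g k ⊆ g (k + 1) := by
  obtain ⟨n, hn⟩ : ∃ n, rk C = rk A + n := ⟨rk C - rk A, by have := rk_mono hA.subset; omega⟩
  induction n generalizing A with
  | zero =>
    have := eq_of_rk hA hn.le
    subst this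
    exact ⟨fun _ => A, rfl, rfl, fun k h1 h2 => ⟨hA, le_antisymm h1 h2⟩, fun _ _ _ => subset_rfl⟩
  | succ n ih =>
    obtain ⟨B, hB, hAB, hr⟩ := exists_up hA (by omega)
    obtain ⟨g, g1, g2, g3, g4⟩ := ih hB (by omega)
    refine ⟨Function.update g (rk A) A, by simp, ?_, fun k h1 h2 => ?_, fun k h1 h2 => ?_⟩
    · rw [Function.update_of_ne (by omega), g2]
    · by_cases hk : k = rk A
      · subst hk
        simpa using hA
      · rw [Function.update_of_ne hk]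
        exact g3 k (by omega) h2
    · by_cases hk : k = rk A
      · subst hk
        rw [Function.update_self, Function.update_of_ne (by omega), ← hr, g1]
        exact hAB
      · rw [Function.update_of_ne hk, Function.update_of_ne (by omega)]
        exact g4 k (by omega) h2

lemma exists_flag0 (V : Finset E) : Nonempty (Flag V) := by
  obtain ⟨g, g1, g2, g3, g4⟩ := exists_chain (Face.empty V)
  simp only [rk_empty] at g1 g3 g4
  refine ⟨⟨fun k => g (min k (rk V)), fun k => (g3 _ (by omega) (by omega)).1, fun k => ?_,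
    fun k => (g3 _ (by omega) (by omega)).2⟩⟩
  by_cases hk : k < rk V
  · rw [min_eq_left hk.le, min_eq_left hk]
    exact g4 k (by omega) hk
  · rw [min_eq_right (by omega), min_eq_right (by omega)]

/-- change a flag strictly between the ranks `a` and `c` so that it passes through `B` -/
lemma splice (Φ : Flag V) {a c : ℕ} (hc : c ≤ rk V) {B : Finset E} (hB : Face V B)
    (h1 : Φ.f a ⊆ B) (h2 : B ⊆ Φ.f c) (hac : a ≤ c) :
    ∃ Θ : Flag V, Θ.f (rk B) = B ∧ ∀ j, j ≤ a ∨ c ≤ j → Θ.f j = Φ.f j := by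
  have ra := Φ.rk_of_le (k := a) (by omega)
  have rc := Φ.rk_of_le hc
  have hab : a ≤ rk B := ra ▸ rk_mono h1
  have hbc : rk B ≤ c := rc ▸ rk_mono h2
  obtain ⟨g, g1, g2, g3, g4⟩ := exists_chain ((Φ.face a).restrict hB.subset h1)
  obtain ⟨h, k1, k2, k3, k4⟩ := exists_chain (hB.restrict (Φ.face c).subset h2)
  rw [ra] at g1 g3 g4
  rw [rc] at k2 k3 k4
  let F : ℕ → Finset E := fun j =>
    if j ≤ a then Φ.f j else if j ≤ rk B then g j else if j ≤ c then h j else Φ.f j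
  have F1 : ∀ j, j ≤ a → F j = Φ.f j := fun j hj => by simp [F, hj]
  have F2 : ∀ j, a ≤ j → j ≤ rk B → F j = g j := fun j hj hj' => by
    by_cases h0 : j = a
    · subst h0
      rw [F1 _ le_rfl, g1]
    · simp [F, hj', show ¬ j ≤ a by omega]
  have F3 : ∀ j, rk B ≤ j → j ≤ c → F j = h j := fun j hj hj' => by
    by_cases h0 : j = rk B
    · subst h0
      rw [F2 _ hab le_rfl, g2, k1]
    · simp [F, hj', show ¬ j ≤ a by omega, show ¬ j ≤ rk B by omega]
  have F4 : ∀ j, c ≤ j → F j = Φ.f j := fun j hj => by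
    by_cases h0 : j = c
    · subst h0
      rw [F3 _ hbc le_rfl, k2]
    · simp [F, show ¬ j ≤ a by omega, show ¬ j ≤ rk B by omega, show ¬ j ≤ c by omega]
  refine ⟨⟨F, fun k => ?_, fun k => ?_, fun k => ?_⟩, ?_, fun j hj => ?_⟩
  · rcases le_total k a with h0 | h0
    · rw [F1 k h0]; exact Φ.face k
    rcases le_total k (rk B) with h3 | h3
    · rw [F2 k h0 h3]; exact hB.trans (g3 k h0 h3).1
    rcases le_total k c with h4 | h4
    · rw [F3 k h3 h4]; exact (Φ.face c).trans (k3 k h3 h4).1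
    · rw [F4 k h4]; exact Φ.face k
  · rcases lt_or_ge k a with h0 | h0
    · rw [F1 k h0.le, F1 _ h0]; exact Φ.mono k
    rcases lt_or_ge k (rk B) with h3 | h3
    · rw [F2 k h0 h3.le, F2 _ (by omega) h3]; exact g4 k h0 h3
    rcases lt_or_ge k c with h4 | h4
    · rw [F3 k h3 h4.le, F3 _ (by omega) h4]; exact k4 k h3 h4
    · rw [F4 k h4, F4 _ (by omega)]; exact Φ.mono k
  · rcases le_total k a with h0 | h0
    · rw [F1 k h0]; exact Φ.rk_f k
    rcases le_total k (rk B) with h3 | h3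
    · rw [F2 k h0 h3, (g3 k h0 h3).2]; omega
    rcases le_total k c with h4 | h4
    · rw [F3 k h3 h4, (k3 k h3 h4).2]; omega
    · rw [F4 k h4]; exact Φ.rk_f k
  · show F (rk B) = B
    rw [F2 _ hab le_rfl, g2]
  · rcases hj with hj | hj
    · exact F1 j hj
    · exact F4 j hj

lemma exists_flag {B : Finset E} (hB : Face V B) : ∃ Φ : Flag V, Φ.f (rk B) = B := by
  obtain ⟨Φ⟩ := exists_flag0 V
  obtain ⟨Θ, h, -⟩ := splice Φ (a := 0) le_rfl hB (by simp [Φ.zero]) (by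
    rw [Φ.top le_rfl]; exact hB.subset) (Nat.zero_le _)
  exact ⟨Θ, h⟩

lemma exists_flag2 {B D : Finset E} (hB : Face V B) (hD : Face V D) (h : B ⊆ D) :
    ∃ Φ : Flag V, Φ.f (rk B) = B ∧ Φ.f (rk D) = D := by
  obtain ⟨Φ, hΦ⟩ := exists_flag hD
  obtain ⟨Θ, h1, h2⟩ := splice Φ (a := 0) (rk_mono hD.subset) hB (by simp [Φ.zero]) (by
    rw [hΦ]; exact h) (Nat.zero_le _)
  exact ⟨Θ, h1, by rw [h2 _ (Or.inr le_rfl), hΦ]⟩

lemma act_nil {F : Type} (r : ℕ → F → F) (a : F) : UP.act r [] a = a := rfl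

lemma act_cons {F : Type} (r : ℕ → F → F) (i : ℕ) (w : List ℕ) (a : F) :
    UP.act r (i :: w) a = UP.act r w (r i a) := rfl

lemma act_append {F : Type} (r : ℕ → F → F) (w w' : List ℕ) (a : F) :
    UP.act r (w ++ w') a = UP.act r w' (UP.act r w a) := by
  simp [UP.act, List.foldl_append]

lemma wd_append {lo hi : ℕ} {w w' : List ℕ} (h : UP.Wd lo hi w) (h' : UP.Wd lo hi w') :
    UP.Wd lo hi (w ++ w') := fun i hi => by
  rcases List.mem_append.1 hi with h1 | h1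
  · exact h i h1
  · exact h' i h1

lemma wd_mono {lo hi lo' hi' : ℕ} {w : List ℕ} (h : UP.Wd lo hi w) (h1 : lo' ≤ lo) (h2 : hi ≤ hi') :
    UP.Wd lo' hi' w := fun i hi => ⟨h1.trans (h i hi).1, (h i hi).2.trans_le h2⟩

/-- words in the letters `[lo, hi)` only change the ranks `lo + 1, …, hi` -/
lemma act_f {lo hi : ℕ} {w : List ℕ} (h : UP.Wd lo hi w) (Φ : Flag V) {j : ℕ}
    (hj : j ≤ lo ∨ hi < j) : (UP.act fr w Φ).f j = Φ.f j := by
  induction w generalizing Φ with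
  | nil => rfl
  | cons i w ih =>
    rw [act_cons, ih (fun k hk => h k (List.mem_cons_of_mem _ hk)), fr_f_ne]
    have := h i (by simp)
    omega

/-- strong connectivity -/
lemma connect {a c : ℕ} (hc : c ≤ rk V) (Φ Ψ : Flag V)
    (h : ∀ j, j ≤ a ∨ c ≤ j → Ψ.f j = Φ.f j) :
    ∃ w, UP.Wd a (c - 1) w ∧ Ψ = UP.act fr w Φ := by
  induction' hn : c - a using Nat.strong_induction_on with n ih generalizing a Φ Ψ
  by_cases hac : c ≤ a + 1
  · refine ⟨[], by simp [UP.Wd], ?_⟩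
    ext1
    funext j
    exact h j (by omega)
  have ih' : ∀ Φ Ψ : Flag V, (∀ j, j ≤ a + 1 ∨ c ≤ j → Ψ.f j = Φ.f j) →
      ∃ w, UP.Wd a (c - 1) w ∧ Ψ = UP.act fr w Φ := fun Φ Ψ hh => by
    obtain ⟨w, hw, e⟩ := ih (c - (a + 1)) (by omega) Φ Ψ hh rfl
    exact ⟨w, wd_mono hw (by omega) le_rfl, e⟩
  have ra := Φ.rk_of_le (k := a) (by omega)
  have hA : Face (Φ.f c) (Φ.f a) := Φ.face_le (by omega)
  have midΨ : ∀ Ψ : Flag V, (∀ j, j ≤ a ∨ c ≤ j → Ψ.f j = Φ.f j) →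
      Mid (Φ.f a) (Φ.f c) (Ψ.f (a + 1)) := fun Ψ h => by
    rw [← h a (Or.inl le_rfl), ← h c (Or.inr le_rfl)]
    exact ⟨Ψ.face_le (by omega), Ψ.mono a, by rw [Ψ.rk_of_le (by omega), Ψ.rk_of_le (by omega)]⟩
  have path := atoms_connected hA (midΨ Φ fun _ _ => rfl) (midΨ Ψ h)
  have key : ∀ B, Relation.ReflTransGen (Adj (Φ.f a) (Φ.f c)) (Φ.f (a + 1)) B →
      ∀ Ψ : Flag V, (∀ j, j ≤ a ∨ c ≤ j → Ψ.f j = Φ.f j) → Ψ.f (a + 1) = B →
      ∃ w, UP.Wd a (c - 1) w ∧ Ψ = UP.act fr w Φ := by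
    intro B hB
    induction hB with
    | refl =>
      intro Ψ h1 h2
      refine ih' Φ Ψ fun j hj => ?_
      by_cases hj' : j = a + 1
      · rw [hj', h2]
      · exact h1 j (by omega)
    | @tail B B' _ hadj ihB =>
      intro Ψ h1 h2
      obtain ⟨mB, mB', hne, D, fD, sD, sD', rD⟩ := hadj
      rw [ra] at rD
      have rB' : rk B' = a + 1 := by rw [mB'.2.2, ra]
      have rB : rk B = a + 1 := by rw [mB.2.2, ra]
      have fDV : Face V D := (Φ.face c).trans fD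
      obtain ⟨Θ, t1, t2⟩ := splice Ψ (a := a + 1) hc fDV (by rw [h2]; exact sD')
        (by rw [h1 c (Or.inr le_rfl)]; exact fD.subset) (by omega)
      rw [rD] at t1
      obtain ⟨Θ', s1, s2⟩ := splice Θ (a := a) (c := a + 2) (by omega) ((Φ.face c).trans mB.1)
        (by rw [t2 a (by omega), h1 a (by omega)]; exact mB.2.1) (by rw [t1]; exact sD) (by omega)
      rw [rB] at s1
      obtain ⟨w1, hw1, e1⟩ := ihB Θ' (fun j hj => by
        rw [s2 j (by omega), t2 j (by omega), h1 j hj]) s1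
      have e2 : Θ = fr a Θ' := eq_fr (by omega) (fun j hj => (s2 j (by omega)).symm) (by
        rw [s1, t2 (a + 1) (by omega), h2]; exact hne.symm)
      obtain ⟨w2, hw2, e3⟩ := ih' Θ Ψ fun j hj => (t2 j hj).symm
      refine ⟨w1 ++ (a :: w2), wd_append hw1 fun i hi => ?_, ?_⟩
      · rcases List.mem_cons.1 hi with rfl | hi
        · omega
        · exact hw2 i hi
      · rw [act_append, act_cons, ← e1, ← e2, e3]
  exact key _ path Ψ h rfl

/-- all flags are connected -/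
lemma connect_all {N : ℕ} (hN : rk V = N + 1) (Φ Ψ : Flag V) :
    ∃ w, UP.Wd 0 N w ∧ Ψ = UP.act fr w Φ := by
  have := connect (a := 0) (c := N + 1) hN.ge Φ Ψ fun j hj => by
    rcases hj with hj | hj
    · obtain rfl : j = 0 := by omega
      rw [Φ.zero, Ψ.zero]
    · rw [Φ.top (by omega), Ψ.top (by omega)]
  simpa using this

/-- induction along flags -/
lemma flag_induction {N : ℕ} (hN : rk V = N + 1) (P : Flag V → Prop) {Φ : Flag V} (h0 : P Φ)
    (hs : ∀ Ψ i, i < N → P Ψ → P (fr i Ψ)) (Ψ : Flag V) : P Ψ := by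
  obtain ⟨w, hw, rfl⟩ := connect_all hN Φ Ψ
  induction w generalizing Φ with
  | nil => exact h0
  | cons i w ih =>
    exact ih (hs Φ i (hw i (by simp)).2 h0) fun k hk => hw k (List.mem_cons_of_mem _ hk)

end

end Pool.Agent.MP_7fd204_co

/-! Centroids, circumradii and orthogonal frames of flags of a uniform configuration. -/

namespace Pool.Agent.MP_7fd204_co

open Classical

noncomputable section

variable {E : Type} [NormedAddCommGroup E] [InnerProductSpace ℝ E] {V : Finset E} {a : ℝ}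

/-- centroid -/
def cen (F : Finset E) : E := (F.card : ℝ)⁻¹ • ∑ x ∈ F, x

/-- mean squared distance to the centroid -/
def rad (F : Finset E) : ℝ := (F.card : ℝ)⁻¹ * ∑ x ∈ F, ‖x - cen F‖ ^ 2

/-- convex position, all faces vertex transitive, all edges of length `a` -/
structure Uni (V : Finset E) (a : ℝ) : Prop where
  apos : 0 < a
  pts : ∀ v ∈ V, Face V {v}
  trans : ∀ F, Face V F → ∀ v ∈ F, ∀ w ∈ F, ∃ g : E ≃ᵢ E, F.image g = F ∧ g v = w
  edge : ∀ v w, v ≠ w → Face V {v, w} → dist v w = a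

lemma Uni.face (h : Uni V a) {F : Finset E} (hF : Face V F) : Uni F a where
  apos := h.apos
  pts := fun v hv => (h.pts v (hF.subset hv)).restrict hF.subset (by simpa using hv)
  trans := fun G hG => h.trans G (hF.trans hG)
  edge := fun v w hvw hG => h.edge v w hvw (hF.trans hG)

/-- normalised squared circumradius of the face of dimension `i` -/
def fx (a : ℝ) (i : ℕ) (Φ : Flag V) : ℝ := 4 * rad (Φ.f (i + 1)) / a ^ 2

/-- period of the rotation round the face of dimension `i - 2` inside the face of dimension `i + 1` -/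
def fm (i : ℕ) (Φ : Flag V) : ℕ := Function.minimalPeriod (UP.rot fr i) Φ

/-- centre of the face of dimension `i` -/
def fc (i : ℕ) (Φ : Flag V) : E := cen (Φ.f (i + 1))

/-- the frame of a flag (`i ≥ 1`) -/
def fe (i : ℕ) (Φ : Flag V) : E := cen (Φ.f (i + 1)) - cen (Φ.f i)

lemma hm_cen {F : Finset E} (hF : F.Nonempty) : hm (cen F) = (F.card : ℝ)⁻¹ • ∑ x ∈ F, hm x := by
  have hc : (F.card : ℝ) ≠ 0 := by exact_mod_cast hF.card_pos.ne'
  ext
  · simp [hm, Prod.fst_sum, hc]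
  · simp [hm, Prod.snd_sum, cen]

lemma fn_cen {F : Finset E} (hF : F.Nonempty) (l : Fn E) :
    l (hm (cen F)) = (F.card : ℝ)⁻¹ * ∑ x ∈ F, l (hm x) := by
  rw [hm_cen hF, map_smul, map_sum, smul_eq_mul]

lemma hm_cen_mem {F : Finset E} (hF : F.Nonempty) : hm (cen F) ∈ sp F := by
  rw [hm_cen hF]
  exact Submodule.smul_mem _ _ (Submodule.sum_mem _ fun x hx => hm_mem_sp hx)

lemma fn_cen_pos {F : Finset E} (l : Fn E) (h0 : ∀ x ∈ F, 0 ≤ l (hm x))
    (h1 : ∃ x ∈ F, 0 < l (hm x)) : 0 < l (hm (cen F)) := by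
  obtain ⟨x, hx, hx'⟩ := h1
  have hF : F.Nonempty := ⟨x, hx⟩
  rw [fn_cen hF]
  have hc : (0 : ℝ) < F.card := by exact_mod_cast hF.card_pos
  exact mul_pos (inv_pos.2 hc) (Finset.sum_pos' h0 ⟨x, hx, hx'⟩)

lemma fn_cen_zero {F : Finset E} (hF : F.Nonempty) (l : Fn E) (h0 : ∀ x ∈ F, l (hm x) = 0) :
    l (hm (cen F)) = 0 := vanish_sp h0 (hm_cen_mem hF)

/-- a nonnegative functional vanishing at the centroid vanishes on the set -/
lemma fn_zero_of_cen {F : Finset E} (l : Fn E) (h0 : ∀ x ∈ F, 0 ≤ l (hm x))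
    (h1 : l (hm (cen F)) = 0) : ∀ x ∈ F, l (hm x) = 0 := fun x hx => by
  by_contra hc
  exact (fn_cen_pos l h0 ⟨x, hx, lt_of_le_of_ne (h0 x hx) (Ne.symm hc)⟩).ne' h1

@[simp] lemma cen_singleton (v : E) : cen ({v} : Finset E) = v := by simp [cen]

lemma cen_pair {v w : E} (h : v ≠ w) : cen ({v, w} : Finset E) = (2 : ℝ)⁻¹ • (v + w) := by
  simp [cen, Finset.card_pair h, Finset.sum_pair h]

lemma sum_sub_cen {F : Finset E} (hF : F.Nonempty) : ∑ y ∈ F, (y - cen F) = 0 := by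
  have hc : (F.card : ℝ) ≠ 0 := by exact_mod_cast hF.card_pos.ne'
  rw [Finset.sum_sub_distrib, Finset.sum_const, cen, ← Nat.cast_smul_eq_nsmul ℝ, smul_smul,
    mul_inv_cancel₀ hc, one_smul, sub_self]

lemma sum_dist_sq {F : Finset E} (hF : F.Nonempty) (x : E) :
    ∑ y ∈ F, dist x y ^ 2 = F.card * ‖x - cen F‖ ^ 2 + ∑ y ∈ F, ‖y - cen F‖ ^ 2 := by
  have h1 : ∀ y ∈ F, dist x y ^ 2 =
      ‖x - cen F‖ ^ 2 - 2 * inner ℝ (x - cen F) (y - cen F) + ‖y - cen F‖ ^ 2 := fun y _ => by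
    rw [dist_eq_norm, ← norm_sub_sq_real]
    congr 2
    abel
  rw [Finset.sum_congr rfl h1, Finset.sum_add_distrib, Finset.sum_sub_distrib, ← Finset.mul_sum,
    ← inner_sum, sum_sub_cen hF]
  simp

lemma Uni.norm_sq (h : Uni V a) {F : Finset E} (hF : Face V F) {x : E} (hx : x ∈ F) :
    ‖x - cen F‖ ^ 2 = rad F := by
  have hne : F.Nonempty := ⟨x, hx⟩
  have hc : (F.card : ℝ) ≠ 0 := by exact_mod_cast hne.card_pos.ne'
  have key : ∀ y ∈ F, ‖y - cen F‖ ^ 2 = ‖x - cen F‖ ^ 2 := fun y hy => by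
    obtain ⟨g, hg, hxy⟩ := h.trans F hF x hx y hy
    have e1 := sum_dist_sq hne x
    have e2 := sum_dist_sq hne y
    have e3 : ∑ z ∈ F, dist y z ^ 2 = ∑ z ∈ F, dist x z ^ 2 := by
      conv_lhs => rw [← hg, Finset.sum_image (fun _ _ _ _ h => g.injective h)]
      exact Finset.sum_congr rfl fun z _ => by rw [← hxy, g.dist_eq]
    have : (F.card : ℝ) * ‖y - cen F‖ ^ 2 = F.card * ‖x - cen F‖ ^ 2 := by linarith
    exact mul_left_cancel₀ hc this
  rw [rad, Finset.sum_congr rfl key, Finset.sum_const, nsmul_eq_mul, ← mul_assoc,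
    inv_mul_cancel₀ hc, one_mul]

/-- the centre of `G` projects to the centre of `F` -/
lemma Uni.orth (h : Uni V a) {F G : Finset E} (hF : Face V F) (hG : Face V G) (hs : F ⊆ G)
    {y : E} (hy : hm y ∈ sp F) : inner ℝ (cen G - cen F) (y - cen F) = 0 := by
  have h1 : ∀ x ∈ F, aff (cen G - cen F) (-(inner ℝ (cen G - cen F) (cen F)) -
      (rad F + ‖cen G - cen F‖ ^ 2 - rad G) / 2) (hm x) = 0 := fun x hx => by
    have e1 := h.norm_sq hF hx
    have e2 := h.norm_sq hG (hs hx)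
    have e3 : x - cen G = (x - cen F) - (cen G - cen F) := by abel
    rw [e3, norm_sub_sq_real, e1, real_inner_comm, inner_sub_right] at e2
    rw [aff_hm]
    linarith
  have hne : F.Nonempty := by
    rcases F.eq_empty_or_nonempty with rfl | h
    · have : sp (∅ : Finset E) = ⊥ := by simp [sp]
      rw [this] at hy
      exact absurd hy (hm_ne_zero y)
    · exact h
  have e1 := vanish_sp h1 hy
  have e2 := fn_cen_zero hne _ h1
  rw [aff_hm] at e1 e2
  rw [inner_sub_right]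
  linarith

lemma Uni.rad_add (h : Uni V a) {F G : Finset E} (hF : Face V F) (hG : Face V G) (hs : F ⊆ G)
    (hne : F.Nonempty) : rad G = rad F + ‖cen G - cen F‖ ^ 2 := by
  obtain ⟨x, hx⟩ := hne
  have e1 := h.norm_sq hF hx
  have e2 := h.norm_sq hG (hs hx)
  have e3 : x - cen G = (x - cen F) - (cen G - cen F) := by abel
  rw [e3, norm_sub_sq_real, e1, real_inner_comm, h.orth hF hG hs (hm_mem_sp hx)] at e2
  linarith

lemma cen_ne {F G : Finset E} (hF : Face G F) (hne : F.Nonempty) (h : F ≠ G) :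
    cen G ≠ cen F := by
  obtain ⟨l, l0, l1, l2⟩ := hF.expose
  obtain ⟨x, hx, hx'⟩ : ∃ x ∈ G, x ∉ F := by
    by_contra hc
    push Not at hc
    exact h (Finset.Subset.antisymm hF.subset hc)
  intro he
  have := fn_cen_pos l l0 ⟨x, hx, l2 x hx hx'⟩
  rw [he, fn_cen_zero hne l l1] at this
  exact lt_irrefl _ this

lemma hm_cen_not_mem {F G : Finset E} (hF : Face G F) (h : F ≠ G) : hm (cen G) ∉ sp F := by
  obtain ⟨l, l0, l1, l2⟩ := hF.expose
  obtain ⟨x, hx, hx'⟩ : ∃ x ∈ G, x ∉ F := by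
    by_contra hc
    push Not at hc
    exact h (Finset.Subset.antisymm hF.subset hc)
  exact fun hm' => (fn_cen_pos l l0 ⟨x, hx, l2 x hx hx'⟩).ne' (vanish_sp l1 hm')

/-- the two middle faces of a diamond have their centres on opposite sides -/
lemma opposite {A C B B' : Finset E} (hA : Face C A) (hr : rk C = rk A + 2) (hB : Mid A C B)
    (hB' : Mid A C B') (hne : B ≠ B') (χ : Fn E) (h0 : ∀ x ∈ A, χ (hm x) = 0)
    (hc : χ (hm (cen C)) = 0) (h1 : ∃ x ∈ C, χ (hm x) ≠ 0) :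
    χ (hm (cen B)) * χ (hm (cen B')) < 0 := by
  obtain ⟨x0, hx0, hx0'⟩ := h1
  have hp : ∃ x ∈ C, 0 < χ (hm x) := by
    by_contra hcon
    push Not at hcon
    exact hx0' (by
      have := fn_zero_of_cen (-χ) (by simpa using hcon) (by simpa using hc) x0 hx0
      simpa using this)
  have hn : ∃ x ∈ C, χ (hm x) < 0 := by
    by_contra hcon
    push Not at hcon
    exact hx0' (fn_zero_of_cen χ hcon hc x0 hx0)
  obtain ⟨B₁, B₂, m1, m2, p1, p2, hu⟩ := diamond_sign hA hr χ h0 hp hn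
  have q1 : 0 < χ (hm (cen B₁)) := by
    obtain ⟨y, hy, hy'⟩ := m1.exists_not_mem
    refine fn_cen_pos χ (fun x hx => ?_) ⟨y, hy, p1 y hy hy'⟩
    by_cases hxA : x ∈ A
    · exact (h0 x hxA).ge
    · exact (p1 x hx hxA).le
  have q2 : χ (hm (cen B₂)) < 0 := by
    obtain ⟨y, hy, hy'⟩ := m2.exists_not_mem
    have := fn_cen_pos (-χ) (F := B₂) (fun x hx => ?_) ⟨y, hy, by simpa using p2 y hy hy'⟩
    · simpa using this
    · by_cases hxA : x ∈ A
      · simp [h0 x hxA]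
      · simpa using (p2 x hx hxA).le
  rcases hu B hB with rfl | rfl <;> rcases hu B' hB' with rfl | rfl
  · exact absurd rfl hne
  · exact mul_neg_of_pos_of_neg q1 q2
  · exact mul_neg_of_neg_of_pos q2 q1
  · exact absurd rfl hne

lemma fc_fr_ne (Φ : Flag V) {i j : ℕ} (h : j ≠ i) : fc j (fr i Φ) = fc j Φ := by
  rw [fc, fc, fr_f_ne Φ (by omega)]

lemma fx_fr_ne (Φ : Flag V) {i j : ℕ} (h : j ≠ i) : fx a j (fr i Φ) = fx a j Φ := by
  rw [fx, fx, fr_f_ne Φ (by omega)]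

lemma fe_fr_ne (Φ : Flag V) {i j : ℕ} (h : j ≠ i) (h' : j ≠ i + 1) : fe j (fr i Φ) = fe j Φ := by
  rw [fe, fe, fr_f_ne Φ (by omega), fr_f_ne Φ h']

lemma fe_fr_add (Φ : Flag V) (i : ℕ) :
    fe (i + 1) (fr i Φ) = fe i Φ + fe (i + 1) Φ - fe i (fr i Φ) := by
  simp only [fe]
  rw [fr_f_ne Φ (j := i + 1 + 1) (by omega), fr_f_ne Φ (j := i) (by omega)]
  abel

lemma fe_succ (Φ : Flag V) (i : ℕ) : fe (i + 1) Φ = fc (i + 1) Φ - fc i Φ := rfl

lemma fc_top {N : ℕ} (hN : rk V = N + 1) (Φ : Flag V) : fc N Φ = cen V := by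
  rw [fc, Φ.top hN.le]

lemma fc_sub (Φ : Flag V) {j k : ℕ} (h : j ≤ k) :
    fc k Φ - fc j Φ = ∑ i ∈ Finset.Ioc j k, fe i Φ := by
  induction k, h using Nat.le_induction with
  | base => simp
  | succ k hk ih => rw [Finset.sum_Ioc_succ_top hk, ← ih, fe_succ]; abel

lemma f_one (Φ : Flag V) (h : 1 ≤ rk V) : Φ.f 1 = {fc 0 Φ} := by
  obtain ⟨v, hv⟩ := eq_singleton_of_rk (Φ.rk_of_le h)
  simp [fc, hv]

lemma fc_zero_mem (Φ : Flag V) (h : 1 ≤ rk V) {k : ℕ} (hk : 1 ≤ k) : fc 0 Φ ∈ Φ.f k :=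
  Φ.le hk (by simp [f_one Φ h])

lemma fc_zero_mem_V (Φ : Flag V) (h : 1 ≤ rk V) : fc 0 Φ ∈ V :=
  (Φ.face 1).subset (fc_zero_mem Φ h le_rfl)

lemma Uni.exists_flag_vertex (h : Uni V a) {v : E} (hv : v ∈ V) : ∃ Φ : Flag V, fc 0 Φ = v := by
  obtain ⟨Φ, hΦ⟩ := exists_flag (h.pts v hv)
  rw [rk_singleton] at hΦ
  exact ⟨Φ, by simp [fc, hΦ]⟩

lemma fc_zero_ne (Φ : Flag V) (h : 2 ≤ rk V) : fc 0 Φ ≠ fc 0 (fr 0 Φ) := fun he => by
  have := fr_ne Φ (i := 0) h
  rw [f_one _ (by omega), f_one _ (by omega), he] at this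
  exact this rfl

lemma Uni.f_two (hU : Uni V a) (Φ : Flag V) (h : 2 ≤ rk V) :
    Φ.f 2 = {fc 0 Φ, fc 0 (fr 0 Φ)} := by
  obtain ⟨v, w, hvw, he⟩ := eq_pair_of_rk (hU.face (Φ.face 2)).pts (Φ.rk_of_le h)
  have h1 := fc_zero_mem Φ (by omega) (k := 2) (by omega)
  have h2 := fc_zero_mem (fr 0 Φ) (by omega) (k := 2) (by omega)
  rw [fr_f_ne Φ (by omega)] at h2
  have h3 := fc_zero_ne Φ h
  rw [he] at h1 h2 ⊢
  simp only [Finset.mem_insert, Finset.mem_singleton] at h1 h2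
  rcases h1 with h1 | h1 <;> rcases h2 with h2 | h2
  · exact absurd (h1.trans h2.symm) h3
  · rw [h1, h2]
  · rw [h1, h2, Finset.pair_comm]
  · exact absurd (h1.trans h2.symm) h3

lemma Uni.exists_flag_edge (hU : Uni V a) {v w : E} (hvw : v ≠ w) (h : Face V {v, w}) :
    ∃ Φ : Flag V, fc 0 Φ = v ∧ fc 0 (fr 0 Φ) = w := by
  obtain ⟨Φ, h1, h2⟩ := exists_flag2 (hU.pts v (h.subset (by simp))) h (by simp)
  rw [rk_singleton] at h1
  rw [rk_pair hvw] at h2
  have h3 : 2 ≤ rk V := by simpa [rk_pair hvw] using rk_mono h.subset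
  have e1 : fc 0 Φ = v := by simp [fc, h1]
  refine ⟨Φ, e1, ?_⟩
  have h4 := hU.f_two Φ h3
  have h5 : fc 0 (fr 0 Φ) ∈ ({v, w} : Finset E) := by rw [← h2, h4]; simp
  have h6 := fc_zero_ne Φ h3
  simp only [Finset.mem_insert, Finset.mem_singleton] at h5
  rcases h5 with h5 | h5
  · exact absurd (e1.trans h5.symm) h6
  · exact h5

lemma Uni.fc_fr_zero (hU : Uni V a) (Φ : Flag V) (h : 2 ≤ rk V) :
    fc 0 (fr 0 Φ) = fc 0 Φ + (2 : ℝ) • fe 1 Φ := by
  rw [fe_succ, fc, fc, fc, hU.f_two Φ h, cen_pair (fc_zero_ne Φ h), smul_sub, smul_smul]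
  simp only [fc]
  norm_num
  module

lemma Uni.fe_fr_zero (hU : Uni V a) (Φ : Flag V) (h : 2 ≤ rk V) :
    fe 1 (fr 0 Φ) = - fe 1 Φ := by
  rw [fe_succ, fc_fr_ne Φ (by omega), hU.fc_fr_zero Φ h, fe_succ]
  module

lemma fx_zero (Φ : Flag V) (h : 1 ≤ rk V) : fx a 0 Φ = 0 := by
  simp [fx, f_one Φ h, rad]

lemma Uni.fx_one (hU : Uni V a) (Φ : Flag V) (h : 2 ≤ rk V) : fx a 1 Φ = 1 := by
  have h1 := hU.edge _ _ (fc_zero_ne Φ h) (hU.f_two Φ h ▸ Φ.face 2)
  have h2 := hU.norm_sq (Φ.face 2) (fc_zero_mem Φ (by omega) (k := 2) (by omega))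
  rw [hU.fc_fr_zero Φ h, dist_eq_norm] at h1
  have h3 : fc 0 Φ - cen (Φ.f 2) = - fe 1 Φ := by rw [fe_succ]; simp [fc]
  rw [h3, norm_neg] at h2
  have h4 : a = 2 * ‖fe 1 Φ‖ := by
    rw [← h1]
    simp [norm_smul]
  have := hU.apos
  rw [fx, ← h2, div_eq_one_iff_eq (by positivity), h4]
  ring

lemma Uni.fe_norm (hU : Uni V a) (Φ : Flag V) (h : 1 ≤ rk V) (i : ℕ) :
    ‖fe (i + 1) Φ‖ ^ 2 = a ^ 2 / 4 * (fx a (i + 1) Φ - fx a i Φ) := by
  have := hU.rad_add (Φ.face (i + 1)) (Φ.face (i + 2)) (Φ.mono _) (Φ.nonempty (by omega) h)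
  have ha := hU.apos
  rw [fx, fx, this, fe]
  field_simp
  ring

lemma fe_ne (Φ : Flag V) {i : ℕ} (h1 : 1 ≤ i) (h : i + 1 ≤ rk V) : fe i Φ ≠ 0 := by
  refine sub_ne_zero.2 (cen_ne (Φ.face_le (by omega)) (Φ.nonempty h1 (by omega)) fun he => ?_)
  have := congrArg rk he
  rw [Φ.rk_of_le (by omega), Φ.rk_of_le h] at this
  omega

lemma Uni.fx_lt (hU : Uni V a) (Φ : Flag V) {i : ℕ} (h : i + 2 ≤ rk V) :
    fx a i Φ < fx a (i + 1) Φ := by
  have h1 := hU.fe_norm Φ (by omega) i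
  have h2 : 0 < ‖fe (i + 1) Φ‖ ^ 2 := by
    have := norm_pos_iff.2 (fe_ne Φ (i := i + 1) (by omega) h)
    positivity
  have ha := hU.apos
  have h3 : 0 < a ^ 2 / 4 := by positivity
  rw [h1] at h2
  linarith [(mul_pos_iff_of_pos_left h3).1 h2]

/-- `fe j` is orthogonal to the face of rank `k ≤ j` -/
lemma Uni.fe_orth_sp (hU : Uni V a) (Φ : Flag V) {j k : ℕ} (hjk : k ≤ j) {y y' : E}
    (hy : hm y ∈ sp (Φ.f k)) (hy' : hm y' ∈ sp (Φ.f k)) : inner ℝ (fe j Φ) (y - y') = 0 := by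
  have e1 := hU.orth (Φ.face j) (Φ.face (j + 1)) (Φ.mono j) (sp_mono (Φ.le hjk) hy)
  have e2 := hU.orth (Φ.face j) (Φ.face (j + 1)) (Φ.mono j) (sp_mono (Φ.le hjk) hy')
  have : y - y' = (y - cen (Φ.f j)) - (y' - cen (Φ.f j)) := by abel
  rw [this, inner_sub_right, fe, e1, e2, sub_zero]

lemma Uni.fe_orth (hU : Uni V a) (Φ : Flag V) (h : 1 ≤ rk V) {i j : ℕ} (hi : 1 ≤ i) (hj : 1 ≤ j)
    (hij : i ≠ j) : inner ℝ (fe i Φ) (fe j Φ) = 0 := by
  wlog hlt : j < i generalizing i j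
  · rw [real_inner_comm]
    exact this hj hi hij.symm (by omega)
  exact hU.fe_orth_sp Φ (k := j + 1) hlt (hm_cen_mem (Φ.nonempty (by omega) h))
    (sp_mono (Φ.mono j) (hm_cen_mem (Φ.nonempty hj h)))

lemma sp_succ (Φ : Flag V) {k : ℕ} (h : k + 1 ≤ rk V) :
    sp (Φ.f (k + 1)) = sp (Φ.f k) ⊔ Submodule.span ℝ {hm (cen (Φ.f (k + 1)))} := by
  have r1 := Φ.rk_of_le h
  have r0 := Φ.rk_of_le (k := k) (by omega)
  have hnot : hm (cen (Φ.f (k + 1))) ∉ sp (Φ.f k) :=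
    hm_cen_not_mem (Φ.face_le (by omega)) fun he => by rw [he] at r0; omega
  have hle : sp (Φ.f k) ⊔ Submodule.span ℝ {hm (cen (Φ.f (k + 1)))} ≤ sp (Φ.f (k + 1)) :=
    sup_le (sp_mono (Φ.mono k)) ((Submodule.span_singleton_le_iff_mem _ _).2
      (hm_cen_mem (Φ.nonempty (by omega) (by omega))))
  have hlt : sp (Φ.f k) < sp (Φ.f k) ⊔ Submodule.span ℝ {hm (cen (Φ.f (k + 1)))} :=
    lt_of_le_of_ne le_sup_left fun he => hnot
      (he ▸ Submodule.mem_sup_right (Submodule.mem_span_singleton_self _))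
  have h1 := Submodule.finrank_lt_finrank_of_lt hlt
  exact (Submodule.eq_of_le_of_finrank_le hle (by unfold rk at r1 r0; omega)).symm

/-- the frame spans the direction space of the face -/
lemma frame_span (Φ : Flag V) {k : ℕ} (h : k + 1 ≤ rk V) {z : ℝ × E} (hz : z ∈ sp (Φ.f (k + 1))) :
    ∃ c : ℕ → ℝ, z.2 = z.1 • fc k Φ + ∑ i ∈ Finset.Ioc 0 k, c i • fe i Φ := by
  induction k generalizing z with
  | zero =>
    rw [sp_succ Φ h, Φ.zero] at hz
    have : sp (∅ : Finset E) = ⊥ := by simp [sp]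
    rw [this, bot_sup_eq] at hz
    obtain ⟨s, rfl⟩ := Submodule.mem_span_singleton.1 hz
    exact ⟨0, by simp [hm, fc]⟩
  | succ k ih =>
    rw [sp_succ Φ h] at hz
    obtain ⟨u, hu, b, hb, rfl⟩ := Submodule.mem_sup.1 hz
    obtain ⟨s, rfl⟩ := Submodule.mem_span_singleton.1 hb
    obtain ⟨c, hc⟩ := ih (by omega) hu
    refine ⟨Function.update c (k + 1) (-u.1), ?_⟩
    rw [Finset.sum_Ioc_succ_top (by omega), Function.update_self]
    have : ∑ i ∈ Finset.Ioc 0 k, Function.update c (k + 1) (-u.1) i • fe i Φ =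
        ∑ i ∈ Finset.Ioc 0 k, c i • fe i Φ := Finset.sum_congr rfl fun i hi => by
      rw [Function.update_of_ne (by have := (Finset.mem_Ioc.1 hi).2; omega)]
    rw [this, fe_succ]
    simp only [Prod.snd_add, Prod.fst_add, Prod.smul_snd, Prod.smul_fst, hm, hc, fc, smul_eq_mul,
      mul_one]
    module

lemma frame_span' (Φ : Flag V) {k : ℕ} (h : k + 1 ≤ rk V) {y y' : E}
    (hy : hm y ∈ sp (Φ.f (k + 1))) (hy' : hm y' ∈ sp (Φ.f (k + 1))) :
    ∃ c : ℕ → ℝ, y - y' = ∑ i ∈ Finset.Ioc 0 k, c i • fe i Φ := by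
  obtain ⟨c, hc⟩ := frame_span Φ h (Submodule.sub_mem _ hy hy')
  exact ⟨c, by simpa [hm] using hc⟩

/-- coefficients of the frame update -/
def co1 (A B A' B' : ℝ) : ℝ := (A' - √(A' * B') / √(A * B) * B) / (A + B)
def co2 (A B A' B' : ℝ) : ℝ := (A' + √(A' * B') / √(A * B) * A) / (A + B)

/-- plane geometry: a point of the circle with diameter `u + w` on the other side from `u` -/
lemma circle_formula {u w u' : E} {s t k A B A' B' : ℝ} (hk : 0 < k) (hA : 0 < A) (hB : 0 < B)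
    (hA' : 0 < A') (hB' : 0 < B') (hs : A + B = A' + B') (huw : inner ℝ u w = 0)
    (hu : ‖u‖ ^ 2 = k * A) (hw : ‖w‖ ^ 2 = k * B) (hu' : ‖u'‖ ^ 2 = k * A')
    (he : u' = s • u + t • w) (ho : inner ℝ (u + w - u') u' = 0)
    (hopp : inner ℝ (B • u - A • w) u * inner ℝ (B • u - A • w) u' < 0) :
    u' = co1 A B A' B' • u + co2 A B A' B' • w := by
  have huu : inner ℝ u u = k * A := by rw [real_inner_self_eq_norm_sq, hu]
  have hww : inner ℝ w w = k * B := by rw [real_inner_self_eq_norm_sq, hw]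
  have hwu : inner ℝ w u = 0 := by rw [real_inner_comm, huw]
  have h1 : s ^ 2 * A + t ^ 2 * B = A' := by
    rw [← real_inner_self_eq_norm_sq, he] at hu'
    simp only [inner_add_left, inner_add_right, real_inner_smul_left, real_inner_smul_right, huu,
      hww, huw, hwu] at hu'
    have : k * (s ^ 2 * A + t ^ 2 * B) = k * A' := by linarith
    exact mul_left_cancel₀ hk.ne' this
  have h2 : s * A + t * B = A' := by
    rw [inner_sub_left, real_inner_self_eq_norm_sq, hu', he] at ho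
    simp only [inner_add_left, inner_add_right, real_inner_smul_left, real_inner_smul_right, huu,
      hww, huw, hwu] at ho
    have : k * (s * A + t * B) = k * A' := by linarith
    exact mul_left_cancel₀ hk.ne' this
  have h3 : s < t := by
    rw [he] at hopp
    simp only [inner_sub_left, inner_add_right, real_inner_smul_left, real_inner_smul_right, huu,
      hww, huw, hwu] at hopp
    have hp : 0 < (k * A * B) ^ 2 := by positivity
    by_contra hc
    push Not at hc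
    nlinarith [mul_nonneg hp.le (sub_nonneg.2 hc)]
  have hAB : 0 < A + B := by linarith
  have h4 : (t - s) ^ 2 * (A * B) = A' * B' := by
    have : B' = A + B - A' := by linarith
    rw [this]
    have e : (t - s) ^ 2 * (A * B) = (s ^ 2 * A + t ^ 2 * B) * (A + B) - (s * A + t * B) ^ 2 := by
      ring
    rw [e, h1, h2]
    ring
  have h5 : √(A' * B') / √(A * B) = t - s := by
    rw [← h4, Real.sqrt_mul (sq_nonneg _), Real.sqrt_sq (by linarith), mul_div_assoc,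
      div_self (Real.sqrt_pos.2 (by positivity)).ne', mul_one]
  have e1 : co1 A B A' B' = s := by
    rw [co1, h5, div_eq_iff hAB.ne', ← h2]
    ring
  have e2 : co2 A B A' B' = t := by
    rw [co2, h5, div_eq_iff hAB.ne', ← h2]
    ring
  rw [e1, e2, he]

/-- frame update under `fr (i + 1)` -/
lemma Uni.fe_fr (hU : Uni V a) (Φ : Flag V) {i : ℕ} (h : i + 3 ≤ rk V) :
    fe (i + 1) (fr (i + 1) Φ) =
      co1 (fx a (i + 1) Φ - fx a i Φ) (fx a (i + 2) Φ - fx a (i + 1) Φ)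
        (fx a (i + 1) (fr (i + 1) Φ) - fx a i Φ) (fx a (i + 2) Φ - fx a (i + 1) (fr (i + 1) Φ)) •
          fe (i + 1) Φ +
      co2 (fx a (i + 1) Φ - fx a i Φ) (fx a (i + 2) Φ - fx a (i + 1) Φ)
        (fx a (i + 1) (fr (i + 1) Φ) - fx a i Φ) (fx a (i + 2) Φ - fx a (i + 1) (fr (i + 1) Φ)) •
          fe (i + 2) Φ := by
  set Ψ := fr (i + 1) Φ with hΨ
  have ha := hU.apos
  have h1 : 1 ≤ rk V := by omega
  have x0 : fx a i Ψ = fx a i Φ := fx_fr_ne Φ (by omega)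
  have x2 : fx a (i + 2) Ψ = fx a (i + 2) Φ := fx_fr_ne Φ (by omega)
  have f1 : Ψ.f (i + 1) = Φ.f (i + 1) := fr_f_ne Φ (by omega)
  have f3 : Ψ.f (i + 3) = Φ.f (i + 3) := fr_f_ne Φ (by omega)
  have hA := hU.fx_lt Φ (i := i) (by omega)
  have hB := hU.fx_lt Φ (i := i + 1) (by omega)
  have hA' := hU.fx_lt Ψ (i := i) (by omega)
  have hB' := hU.fx_lt Ψ (i := i + 1) (by omega)
  have n1 := hU.fe_norm Φ h1 i
  have n2 := hU.fe_norm Φ h1 (i + 1)
  have n3 := hU.fe_norm Ψ h1 i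
  rw [x0] at hA' n3
  rw [show i + 1 + 1 = i + 2 from rfl, x2] at hB'
  have m2 : hm (cen (Ψ.f (i + 2))) ∈ sp (Φ.f (i + 3)) :=
    f3 ▸ sp_mono (Ψ.mono _) (hm_cen_mem (Ψ.nonempty (by omega) h1))
  have m1 : hm (cen (Φ.f (i + 1))) ∈ sp (Φ.f (i + 1)) := hm_cen_mem (Φ.nonempty (by omega) h1)
  obtain ⟨c, hc⟩ := frame_span' Φ (k := i + 2) h m2 (sp_mono (Φ.le (by omega)) m1)
  have e0 : fe (i + 1) Ψ = cen (Ψ.f (i + 2)) - cen (Φ.f (i + 1)) := by rw [fe, f1]
  rw [← e0, Finset.sum_Ioc_succ_top (by omega), Finset.sum_Ioc_succ_top (by omega)] at hc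
  have hz : ∑ j ∈ Finset.Ioc 0 i, c j • fe j Φ = 0 := by
    rw [← inner_self_eq_zero (𝕜 := ℝ)]
    have e1 : ∑ j ∈ Finset.Ioc 0 i, c j • fe j Φ =
        fe (i + 1) Ψ - c (i + 1) • fe (i + 1) Φ - c (i + 2) • fe (i + 2) Φ := by rw [hc]; abel
    nth_rewrite 1 [e1]
    rw [inner_sum]
    refine Finset.sum_eq_zero fun j hj => ?_
    have hj' := Finset.mem_Ioc.1 hj
    have o1 : inner ℝ (fe (i + 1) Ψ) (fe j Φ) = 0 := by
      rw [← fe_fr_ne Φ (i := i + 1) (j := j) (by omega) (by omega)]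
      exact hU.fe_orth Ψ h1 (by omega) hj'.1 (by omega)
    simp [inner_sub_left, real_inner_smul_left, real_inner_smul_right, o1,
      hU.fe_orth Φ h1 (i := i + 1) (by omega) hj'.1 (by omega),
      hU.fe_orth Φ h1 (i := i + 2) (by omega) hj'.1 (by omega)]
  rw [hz, zero_add] at hc
  have o12 := hU.fe_orth Φ h1 (i := i + 1) (j := i + 2) (by omega) (by omega) (by omega)
  have o21 := hU.fe_orth Φ h1 (i := i + 2) (j := i + 1) (by omega) (by omega) (by omega)
  rw [show i + 1 + 1 = i + 2 from rfl] at n2 hB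
  refine circle_formula (k := a ^ 2 / 4) (by positivity) (by linarith) (by linarith) (by linarith)
    (by linarith) (by ring) o12 n1 n2 n3 hc ?_ ?_
  · rw [← fe_fr_add Φ (i + 1)]
    exact hU.fe_orth Ψ h1 (by omega) (by omega) (by omega)
  · set u := (fx a (i + 2) Φ - fx a (i + 1) Φ) • fe (i + 1) Φ -
      (fx a (i + 1) Φ - fx a i Φ) • fe (i + 2) Φ with hu
    have := opposite (Φ.face_le (by omega)) (Φ.gap (i := i + 1) h) (Φ.mid h) (fr_mid Φ h)
      (fr_ne Φ h).symm (aff u (-inner ℝ u (cen (Φ.f (i + 1))))) (fun x hx => ?_) ?_ ?_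
    · simp only [aff_hm, ← sub_eq_add_neg, ← inner_sub_right] at this
      rw [e0]
      exact this
    · rw [aff_hm, ← sub_eq_add_neg, ← inner_sub_right, hu, inner_sub_left, real_inner_smul_left,
        real_inner_smul_left, hU.fe_orth_sp Φ le_rfl (hm_mem_sp hx) m1,
        hU.fe_orth_sp Φ (by omega) (hm_mem_sp hx) m1]
      simp
    · have e : cen (Φ.f (i + 1 + 2)) - cen (Φ.f (i + 1)) = fe (i + 1) Φ + fe (i + 2) Φ := by
        simp only [fe]; abel
      rw [aff_hm, ← sub_eq_add_neg, ← inner_sub_right, e, hu]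
      simp only [inner_sub_left, inner_add_right, real_inner_smul_left, o12, o21,
        real_inner_self_eq_norm_sq, n1, n2]
      ring
    · by_contra hcon
      push Not at hcon
      have := vanish_sp hcon (sp_mono (Φ.mono (i + 2)) (hm_cen_mem (Φ.nonempty (by omega) h1)))
      rw [aff_hm, ← sub_eq_add_neg, ← inner_sub_right] at this
      change inner ℝ u (fe (i + 1) Φ) = 0 at this
      rw [hu] at this
      simp only [inner_sub_left, real_inner_smul_left, o21,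
        real_inner_self_eq_norm_sq, n1] at this
      have hp : 0 < (fx a (i + 2) Φ - fx a (i + 1) Φ) * (a ^ 2 / 4 * (fx a (i + 1) Φ - fx a i Φ)) :=
        mul_pos (by linarith) (mul_pos (by positivity) (by linarith))
      linarith

end

end Pool.Agent.MP_7fd204_co

end
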