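import Pool.Agent.MP_7fd204_co.Mg.ChkA
import Pool.Agent.MP_7fd204_co.Mg.GeoA

/-! The cycles of facets round a face of codimension three: numerical tests, enumeration, groups. -/

namespace UP

open Real

noncomputable section

variable {F : Type} {r : ℕ → F → F} {x : ℕ → F → ℝ} {m : ℕ → F → ℕ} {n lim : ℕ} {A : Aut} {K : Unf} {Z : Num}
  {col : F → ℕ} {P : F → Prop}

/-- the flags `a, rot a, rot (rot a), …` -/
def orb (r : ℕ → F → F) (n : ℕ) : F → ℕ → List F
  | _, 0 => []
  | a, l + 1 => a :: orb r n (rot r n a) l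

/-- the angle of the facet of `c` at the face of codimension three -/
def wed (r : ℕ → F → F) (x : ℕ → F → ℝ) (n : ℕ) (c : F) : ℝ := betF x n c + betF x n (r (n - 1) c)

/-- the states of the facets round the face of codimension three of `a` -/
def cy (r : ℕ → F → F) (m : ℕ → F → ℕ) (n : ℕ) (col : F → ℕ) (a : F) : List ℕ := (orb r n a (m n a)).map col

theorem orb_eq (a : F) (l : ℕ) : orb r n a l = (List.range l).map fun j => (rot r n)^[j] a := by
  induction l generalizing a with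
  | zero => rfl
  | succ l ih =>
    rw [orb, ih, List.range_succ_eq_map, List.map_cons, List.map_map]
    rfl

theorem Ctx.rotP (h : Ctx r x m n A K Z lim col P) {a : F} (ha : P a) : P (rot r n a) :=
  h.cl _ _ le_rfl (h.cl _ _ (Nat.sub_le _ _) ha)

theorem Ctx.orbP (h : Ctx r x m n A K Z lim col P) {a : F} (ha : P a) (l : ℕ) : ∀ c ∈ orb r n a l, P c := by
  induction l generalizing a with
  | zero => simp [orb]
  | succ l ih =>
    intro c hc
    rw [orb, List.mem_cons] at hc
    rcases hc with rfl | hc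
    · exact ha
    · exact ih (h.rotP ha) c hc

theorem Ctx.xeq (h : Ctx r x m n A K Z lim col P) {a b : F} (ha : P a) (hb : P b) :
    x (n + 1) a = x (n + 1) b := by
  obtain ⟨w, hw, rfl⟩ := h.cn a b ha hb
  clear ha hb
  induction w generalizing a with
  | nil => rfl
  | cons i w ih =>
    have hi := (hw i (by simp)).2
    have e : act r (i :: w) a = act r w (r i a) := rfl
    rw [e, ← ih (a := r i a) fun j hj => hw j (by simp [hj]), h.S.xr _ _ le_rfl hi hi.ne']

theorem Sys.orb_sum (S : Sys (n + 1) r x m) (h2 : 2 ≤ n) (a : F) :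
    ((orb r n a (m n a)).map (wed r x n)).sum = 2 * π := by
  rw [orb_eq, List.map_map, ← S.ang n h2 (Nat.lt_succ_self n) a]
  rfl

theorem Sys.three_le (S : Sys (n + 1) r x m) (h2 : 2 ≤ n) (a : F) : 3 ≤ m n a := by
  have h := S.ang n h2 (Nat.lt_succ_self n) a
  by_contra hlt
  have hp := pi_pos
  have hb : ∀ c, betF x n c < π / 2 := fun c => arctan_lt_pi_div_two _
  have h3 : m n a = 0 ∨ m n a = 1 ∨ m n a = 2 := by omega
  rcases h3 with e | e | e <;> rw [e] at h <;>
    simp only [Finset.sum_range_succ, Finset.sum_range_zero] at h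
  · linarith
  · linarith [hb ((rot r n)^[0] a), hb (r (n - 1) ((rot r n)^[0] a))]
  · linarith [hb ((rot r n)^[0] a), hb (r (n - 1) ((rot r n)^[0] a)), hb ((rot r n)^[1] a),
      hb (r (n - 1) ((rot r n)^[1] a))]

/-- sum of the angles `f c`, `f (s c)` over a list -/
def sumG (s : ℕ → ℕ) (f : ℕ → G) (p : List ℕ) : G :=
  List.rec ⟨0, 1, 0⟩ (fun c _ ih => (ih.mul (f c)).mul (fN (s c) f)) p

def dnS (n : ℕ) (A : Aut) (Z : Num) (a : ℕ) (p : List ℕ) : G :=
  sumG (A.s (Nat.sub n 1)) (fun c => bLo (Z.ahi c) (Z.blo c) (Nat.sub a (Z.xlo c))) p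

def upS (n : ℕ) (A : Aut) (Z : Num) (b : ℕ) (p : List ℕ) : G :=
  sumG (A.s (Nat.sub n 1))
    (fun c => bHi (Z.alo c) (Z.bhi c) (fN (Z.xhi c) fun y => cond (Nat.beq y 0) 0 (Nat.sub b y))) p

/-- lower bound of the wedge for an infinitely large polytope -/
def wInf (n : ℕ) (A : Aut) (Z : Num) (c : ℕ) : G :=
  cond (Z.ur c) ⟨1, 1, 0⟩
    ((bInf (Z.ahi c) (Z.blo c)).mul (fN (A.s (Nat.sub n 1) c) fun e => bInf (Z.ahi e) (Z.blo e)))

def infS (n : ℕ) (A : Aut) (Z : Num) (p : List ℕ) : G :=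
  List.rec ⟨0, 1, 0⟩ (fun c _ ih => ih.mul (wInf n A Z c)) p

/-- the radius exceeds `a` -/
def dnB (n : ℕ) (A : Aut) (Z : Num) (a : ℕ) (p : List ℕ) : Bool :=
  anyL p (fun c => Nat.ble a (Z.xlo c)) ||
    G.casesOn (dnS n A Z a p) fun q _ y => Nat.ble 5 q || (Nat.beq q 4 && Nat.blt 0 y)

/-- the radius is below `b` -/
def upB (n : ℕ) (A : Aut) (Z : Num) (b : ℕ) (p : List ℕ) : Bool := Nat.ble (upS n A Z b p).q 3

def maxX (Z : Num) (x0 : ℕ) (p : List ℕ) : ℕ :=
  List.rec x0 (fun c _ ih => fN ih fun a => fN (Z.xlo c) fun b => cond (Nat.ble a b) b a) p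

/-- exact slopes of the wedges that are not counted as right angles -/
def exL (s : ℕ → ℕ) (Z : Num) (p : List ℕ) : List (ℕ × UP.K) :=
  List.rec [] (fun c _ ih => cond (Z.ur c) ih ((Z.sd c, Z.sk c) :: (Z.sd (s c), Z.sk (s c)) :: ih)) p

def evenR (Z : Num) (p : List ℕ) : Bool := List.rec true (fun c _ ih => cond (Z.ur c) (!ih) ih) p

/-- the limit angles add up to at least `2 π`, exactly -/
def exk (n : ℕ) (A : Aut) (Z : Num) (d : ℕ) (p : List ℕ) : Bool :=
  !Nat.beq d 0 && Nat.ble 3 (infS n A Z p).q &&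
    allL p (fun c => Z.ur c || (Nat.beq (Z.dc c) d && Nat.beq (Z.dc (A.s (Nat.sub n 1) c)) d)) &&
    Prod.casesOn (kprod (Z.D d) (exL (A.s (Nat.sub n 1)) Z p)) fun p1 p2 =>
      cond (evenR Z p) p2.z p1.z && anyL p fun c => !Z.ur c

theorem t1308_one : (⟨0, 1, 0⟩ : G).ang = 0 := by simp [G.ang]

theorem t1308_sumG (s : ℕ → ℕ) {f : ℕ → G} (hf : ∀ c, 0 < (f c).re) (p : List ℕ) :
    0 < (sumG s f p).re ∧ (sumG s f p).ang = (p.map fun c => (f c).ang + (f (s c)).ang).sum := by
  induction p with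
  | nil => exact ⟨Nat.one_pos, t1308_one⟩
  | cons c p ih =>
    have e : sumG s f (c :: p) = ((sumG s f p).mul (f c)).mul (fN (s c) f) := rfl
    rw [e, fN_eq]
    have h1 := G.mul_re ih.1 (hf c)
    refine ⟨G.mul_re h1 (hf _), ?_⟩
    rw [G.ang_mul h1 (hf _), G.ang_mul ih.1 (hf c), ih.2, List.map_cons, List.sum_cons]
    ring

theorem t1308_wre (c : ℕ) : 0 < (wInf n A Z c).re := by
  unfold wInf
  cases Z.ur c
  · rw [cond_false, fN_eq]
    exact G.mul_re (bInf_re _ _) (bInf_re _ _)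
  · exact Nat.one_pos

theorem t1308_infS (p : List ℕ) :
    0 < (infS n A Z p).re ∧ (infS n A Z p).ang = (p.map fun c => (wInf n A Z c).ang).sum := by
  induction p with
  | nil => exact ⟨Nat.one_pos, t1308_one⟩
  | cons c p ih =>
    have e : infS n A Z (c :: p) = (infS n A Z p).mul (wInf n A Z c) := rfl
    rw [e]
    refine ⟨G.mul_re ih.1 (t1308_wre c), ?_⟩
    rw [G.ang_mul ih.1 (t1308_wre c), ih.2, List.map_cons, List.sum_cons]
    ring

theorem t1308_maxX {x0 : ℕ} {Y : ℝ} (h0 : (x0 : ℝ) ≤ Y) (p : List ℕ) (hp : ∀ c ∈ p, (Z.xlo c : ℝ) ≤ Y) :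
    (maxX Z x0 p : ℝ) ≤ Y := by
  induction p with
  | nil => exact h0
  | cons c p ih =>
    have e : maxX Z x0 (c :: p) =
      fN (maxX Z x0 p) fun a => fN (Z.xlo c) fun b => cond (Nat.ble a b) b a := rfl
    rw [e, fN_eq, fN_eq]
    cases Nat.ble (maxX Z x0 p) (Z.xlo c)
    · exact ih fun d hd => hp d (by simp [hd])
    · exact hp c (by simp)

theorem t1308_sg : (0 : ℝ) < sg := by unfold sg; positivity

theorem Ctx.t1308_A (h : Ctx r x m n A K Z lim col P) (c : F) : 0 < x (n - 1) c - x (n - 2) c := by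
  have h2 := h.h2
  have := h.S.xlt (n - 2) (by omega) c
  rw [show n - 2 + 1 = n - 1 by omega] at this
  linarith

theorem Ctx.t1308_B (h : Ctx r x m n A K Z lim col P) (c : F) : 0 < x n c - x (n - 1) c := by
  have h2 := h.h2
  have := h.S.xlt (n - 1) (by omega) c
  rw [show n - 1 + 1 = n by omega] at this
  linarith

theorem Ctx.t1308_C (h : Ctx r x m n A K Z lim col P) (c : F) : 0 < x (n + 1) c - x n c :=
  sub_pos.2 (h.S.xlt n (Nat.lt_succ_self n) c)

theorem Ctx.t1308_n (h : Ctx r x m n A K Z lim col P) (c : F) : x n (r (n - 1) c) = x n c := by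
  have h2 := h.h2
  exact h.S.xr _ _ (by omega) (by omega) (by omega) c

theorem Ctx.t1308_n2 (h : Ctx r x m n A K Z lim col P) (c : F) : x (n - 2) (r (n - 1) c) = x (n - 2) c := by
  have h2 := h.h2
  exact h.S.xr _ _ (by omega) (by omega) (by omega) c

theorem Ctx.t1308_P (h : Ctx r x m n A K Z lim col P) {c : F} (hc : P c) : P (r (n - 1) c) :=
  h.cl _ _ (Nat.sub_le _ _) hc

theorem Ctx.t1308_col (h : Ctx r x m n A K Z lim col P) {c : F} (hc : P c) :
    A.s (Nat.sub n 1) (col c) = col (r (n - 1) c) := by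
  have h2 := h.h2
  exact (h.cs (n - 1) c (by omega) hc).symm

theorem Ctx.t1308_lo (h : Ctx r x m n A K Z lim col P) {a : ℕ} {X : ℝ} (hX : sg * X ≤ a) {c : F} (hc : P c)
    (h1 : x n c < X) : (bLo (Z.ahi (col c)) (Z.blo (col c)) (Nat.sub a (Z.xlo (col c)))).ang ≤
      bet (x (n - 1) c - x (n - 2) c) (x n c - x (n - 1) c) (X - x n c) := by
  have N := h.num c hc
  refine bLo_le (h.t1308_A c) (h.t1308_B c) (sub_pos.2 h1) N.ahi N.blo ?_
  have h3 : (a : ℝ) ≤ (Nat.sub a (Z.xlo (col c)) : ℕ) + Z.xlo (col c) := by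
    rw [Nat.sub_eq]
    exact_mod_cast (by omega : a ≤ a - Z.xlo (col c) + Z.xlo (col c))
  have := N.xlo
  rw [mul_sub]
  linarith

theorem Ctx.t1308_hi (h : Ctx r x m n A K Z lim col P) {b : ℕ} {X : ℝ} (hX : (b : ℝ) ≤ sg * X) {c : F}
    (hc : P c) (h1 : x n c < X) : bet (x (n - 1) c - x (n - 2) c) (x n c - x (n - 1) c) (X - x n c) ≤
      (bHi (Z.alo (col c)) (Z.bhi (col c))
        (fN (Z.xhi (col c)) fun y => cond (Nat.beq y 0) 0 (Nat.sub b y))).ang := by
  have N := h.num c hc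
  refine le_bHi (h.t1308_A c) (h.t1308_B c) (sub_pos.2 h1) N.alo N.bhi ?_
  have h0 : (0 : ℝ) ≤ sg * (X - x n c) := (mul_pos t1308_sg (sub_pos.2 h1)).le
  rw [fN_eq]
  cases e : Nat.beq (Z.xhi (col c)) 0
  · rw [cond_false, Nat.sub_eq]
    have h4 := N.xhi (Nat.ne_of_beq_eq_false e)
    rcases le_total (Z.xhi (col c)) b with h5 | h5
    · rw [Nat.cast_sub h5, mul_sub]
      linarith
    · rw [Nat.sub_eq_zero_of_le h5, Nat.cast_zero]
      exact h0
  · rw [cond_true, Nat.cast_zero]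
    exact h0

theorem Ctx.t1308_wed (h : Ctx r x m n A K Z lim col P) {b c : F} (hb : P b) (hc : P c) : wed r x n c =
    bet (x (n - 1) c - x (n - 2) c) (x n c - x (n - 1) c) (x (n + 1) b - x n c) +
      bet (x (n - 1) (r (n - 1) c) - x (n - 2) c) (x n c - x (n - 1) (r (n - 1) c)) (x (n + 1) b - x n c) := by
  rw [wed, betF, betF, h.t1308_n, h.t1308_n2, h.xeq hc hb, h.xeq (h.t1308_P hc) hb]

/-- the limit of the wedge, or a right angle -/
def t1308_th (r : ℕ → F → F) (x : ℕ → F → ℝ) (n : ℕ) (Z : Num) (col : F → ℕ) (c : F) : ℝ :=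
  cond (Z.ur (col c)) (π / 2) (binf x n c + binf x n (r (n - 1) c))

theorem Ctx.t1308_inf (h : Ctx r x m n A K Z lim col P) {c : F} (hc : P c) :
    (bInf (Z.ahi (col c)) (Z.blo (col c))).ang ≤ binf x n c :=
  bInf_le (h.t1308_A c) (h.t1308_B c) (h.num c hc).ahi (h.num c hc).blo

theorem Ctx.t1308_le_th (h : Ctx r x m n A K Z lim col P) {c : F} (hc : P c) :
    (wInf n A Z (col c)).ang ≤ t1308_th r x n Z col c := by
  unfold wInf t1308_th
  cases Z.ur (col c)
  · rw [cond_false, cond_false, fN_eq, G.ang_mul (bInf_re _ _) (bInf_re _ _), h.t1308_col hc]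
    exact add_le_add (h.t1308_inf hc) (h.t1308_inf (h.t1308_P hc))
  · simp [G.ang]

theorem Ctx.t1308_th_lt (h : Ctx r x m n A K Z lim col P) {c : F} (hc : P c) :
    t1308_th r x n Z col c < wed r x n c := by
  have h1 : ∀ c, binf x n c < betF x n c := fun c => inf_lt_bet (h.t1308_A c) (h.t1308_B c) (h.t1308_C c)
  have h2 := add_lt_add (h1 c) (h1 (r (n - 1) c))
  unfold t1308_th wed
  cases e : Z.ur (col c)
  · exact h2
  · exact ((h.num c hc).ur e).trans_lt h2

theorem Ctx.t1308_ex (h : Ctx r x m n A K Z lim col P) {d : ℕ} (hd : d ≠ 0) (L : List F) (hL : ∀ c ∈ L, P c)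
    (hall : ∀ c ∈ L, Z.ur (col c) = false → Z.dc (col c) = d ∧ Z.dc (col (r (n - 1) c)) = d) :
    (∀ e ∈ exL (A.s (Nat.sub n 1)) Z (L.map col), 0 < e.1) ∧ ∃ T : ℝ,
      cond (evenR Z (L.map col)) (sin T) (cos T) = 0 ∧ (L.map (t1308_th r x n Z col)).sum =
        T + ((exL (A.s (Nat.sub n 1)) Z (L.map col)).map
          fun e => arctan (e.2.ev * √(Z.D d).ev / e.1)).sum := by
  induction L with
  | nil => exact ⟨fun e he => absurd he List.not_mem_nil, 0, sin_zero, by simp [exL]⟩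
  | cons c L ih =>
    obtain ⟨i1, T, i2, i3⟩ := ih (fun b hb => hL b (by simp [hb])) fun b hb => hall b (by simp [hb])
    have hc := hL c (by simp)
    have e1 : exL (A.s (Nat.sub n 1)) Z ((c :: L).map col) = cond (Z.ur (col c))
      (exL (A.s (Nat.sub n 1)) Z (L.map col)) ((Z.sd (col c), Z.sk (col c)) ::
        (Z.sd (A.s (Nat.sub n 1) (col c)), Z.sk (A.s (Nat.sub n 1) (col c))) ::
          exL (A.s (Nat.sub n 1)) Z (L.map col)) := rfl
    have e2 : evenR Z ((c :: L).map col) = cond (Z.ur (col c)) (!evenR Z (L.map col)) (evenR Z (L.map col)) :=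
      rfl
    rw [e1, e2, List.map_cons, List.sum_cons, i3, t1308_th, h.t1308_col hc]
    cases e : Z.ur (col c)
    · obtain ⟨d1, d2⟩ := hall c (by simp) e
      obtain ⟨-, a1, a2⟩ := (h.num c hc).ex (d1 ▸ hd)
      obtain ⟨-, b1, b2⟩ := (h.num _ (h.t1308_P hc)).ex (d2 ▸ hd)
      simp only [cond_false]
      refine ⟨fun e he => ?_, T, i2, ?_⟩
      · rcases List.mem_cons.1 he with rfl | he
        · exact a1
        · rcases List.mem_cons.1 he with rfl | he
          · exact b1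
          · exact i1 e he
      · rw [List.map_cons, List.map_cons, List.sum_cons, List.sum_cons, a2, b2, d1, d2]
        ring
    · simp only [cond_true]
      refine ⟨i1, T + π / 2, ?_, by ring⟩
      revert i2
      cases evenR Z (L.map col) <;> simp [sin_add_pi_div_two, cos_add_pi_div_two]

section
variable (h : Ctx r x m n A K Z lim col P) {L : List F} (hL : ∀ c ∈ L, P c)
include h hL

/-- lower bound of the angle sum at any radius `X` below `a` -/
theorem Ctx.dnS_le {a : ℕ} {X : ℝ} (hX : sg * X ≤ a) (h1 : ∀ c ∈ L, x n c < X) :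
    (dnS n A Z a (L.map col)).ang ≤ (L.map fun c =>
      bet (x (n - 1) c - x (n - 2) c) (x n c - x (n - 1) c) (X - x n c) +
      bet (x (n - 1) (r (n - 1) c) - x (n - 2) c) (x n c - x (n - 1) (r (n - 1) c)) (X - x n c)).sum := by
  rw [dnS, (t1308_sumG _ (fun c => bLo_re _ _ _) _).2, List.map_map]
  refine List.sum_le_sum fun c hc => ?_
  have h0 := h1 c hc
  have hc := hL c hc
  have h2 := h.t1308_lo hX (h.t1308_P hc) (by rw [h.t1308_n]; exact h0)
  rw [h.t1308_n, h.t1308_n2, ← h.t1308_col hc] at h2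
  exact add_le_add (h.t1308_lo hX hc h0) h2

theorem Ctx.le_upS {b : ℕ} {X : ℝ} (hX : (b : ℝ) ≤ sg * X) (h1 : ∀ c ∈ L, x n c < X) :
    (L.map fun c =>
      bet (x (n - 1) c - x (n - 2) c) (x n c - x (n - 1) c) (X - x n c) +
      bet (x (n - 1) (r (n - 1) c) - x (n - 2) c) (x n c - x (n - 1) (r (n - 1) c)) (X - x n c)).sum ≤
      (upS n A Z b (L.map col)).ang := by
  rw [upS, (t1308_sumG _ (fun c => bHi_re _ _ _) _).2, List.map_map]
  refine List.sum_le_sum fun c hc => ?_
  have h0 := h1 c hc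
  have hc := hL c hc
  have h2 := h.t1308_hi hX (h.t1308_P hc) (by rw [h.t1308_n]; exact h0)
  rw [h.t1308_n, h.t1308_n2, ← h.t1308_col hc] at h2
  exact add_le_add (h.t1308_hi hX hc h0) h2

theorem Ctx.t1308_sum {b : F} (hb : P b) : (L.map fun c =>
      bet (x (n - 1) c - x (n - 2) c) (x n c - x (n - 1) c) (x (n + 1) b - x n c) +
      bet (x (n - 1) (r (n - 1) c) - x (n - 2) c) (x n c - x (n - 1) (r (n - 1) c))
        (x (n + 1) b - x n c)).sum = (L.map (wed r x n)).sum :=
  congrArg List.sum (List.map_congr_left fun c hc => (h.t1308_wed hb (hL c hc)).symm)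

theorem Ctx.dn_sound {a : ℕ} (hs : (L.map (wed r x n)).sum = 2 * π) (e : dnB n A Z a (L.map col) = true) {b : F}
    (hb : P b) : (a : ℝ) < sg * x (n + 1) b := by
  have h1 : ∀ c, P c → x n c < x (n + 1) b := fun c hc => by
    rw [← h.xeq hc hb]
    exact h.S.xlt n (Nat.lt_succ_self n) c
  rw [dnB, Bool.or_eq_true, anyL_iff] at e
  rcases e with ⟨u, hu, e⟩ | e
  · obtain ⟨c, hc, rfl⟩ := List.mem_map.1 hu
    have h2 : (a : ℝ) ≤ Z.xlo (col c) := by exact_mod_cast Nat.le_of_ble_eq_true e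
    exact (h2.trans (h.num c (hL c hc)).xlo).trans_lt (mul_lt_mul_of_pos_left (h1 c (hL c hc)) t1308_sg)
  · by_contra hn
    have h2 := h.dnS_le hL (not_lt.1 hn) fun c hc => h1 c (hL c hc)
    rw [h.t1308_sum hL hb, hs] at h2
    have h3 : 0 < (dnS n A Z a (L.map col)).re := (t1308_sumG _ (fun c => bLo_re _ _ _) _).1
    generalize dnS n A Z a (L.map col) = g at e h2 h3
    obtain ⟨q, y, z⟩ := g
    have hp := pi_pos
    simp only [Bool.or_eq_true, Bool.and_eq_true, Nat.ble_eq, Nat.beq_eq, Nat.blt_eq] at e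
    rcases e with e | ⟨rfl, e⟩
    · have h4 := G.q_le ⟨q, y, z⟩
      have h5 : (5 : ℝ) ≤ q := by exact_mod_cast e
      simp only at h4
      nlinarith
    · have h4 := G.q_lt (a := ⟨4, y, z⟩) h3 e
      simp only [Nat.cast_ofNat] at h4
      linarith

theorem Ctx.up_sound {a : ℕ} (hs : (L.map (wed r x n)).sum = 2 * π) (e : upB n A Z a (L.map col) = true) {b : F}
    (hb : P b) : sg * x (n + 1) b < a := by
  have h1 : ∀ c, P c → x n c < x (n + 1) b := fun c hc => by
    rw [← h.xeq hc hb]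
    exact h.S.xlt n (Nat.lt_succ_self n) c
  by_contra hn
  have h2 := h.le_upS hL (not_lt.1 hn) fun c hc => h1 c (hL c hc)
  rw [h.t1308_sum hL hb, hs] at h2
  have h3 := G.lt_q (upS n A Z a (L.map col))
  have h4 : ((upS n A Z a (L.map col)).q : ℝ) ≤ 3 := by exact_mod_cast Nat.le_of_ble_eq_true e
  have hp := pi_pos
  nlinarith

omit h hL in
theorem t1308_ne (hs : (L.map (wed r x n)).sum = 2 * π) : L ≠ [] := by
  rintro rfl
  have hp := pi_pos
  simp only [List.map_nil, List.sum_nil] at hs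
  linarith

theorem Ctx.none_sound {x0 : ℕ} (hs : (L.map (wed r x n)).sum = 2 * π)
    (h0 : ∀ b, P b → (x0 : ℝ) ≤ sg * x (n + 1) b)
    (e : upB n A Z (maxX Z x0 (L.map col)) (L.map col) = true) : False := by
  obtain ⟨b, hb⟩ := List.exists_mem_of_ne_nil L (t1308_ne hs)
  have hb := hL b hb
  refine absurd (h.up_sound hL hs e hb) (not_lt.2 (t1308_maxX (h0 b hb) _ fun u hu => ?_))
  obtain ⟨c, hc, rfl⟩ := List.mem_map.1 hu
  have hc := hL c hc
  refine (h.num c hc).xlo.trans (mul_le_mul_of_nonneg_left ?_ t1308_sg.le)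
  rw [← h.xeq hc hb]
  exact (h.S.xlt n (Nat.lt_succ_self n) c).le

theorem Ctx.t1308_between (hs : (L.map (wed r x n)).sum = 2 * π) :
    (infS n A Z (L.map col)).ang ≤ (L.map (t1308_th r x n Z col)).sum ∧
      (L.map (t1308_th r x n Z col)).sum < 2 * π := by
  rw [(t1308_infS _).2, List.map_map, ← hs]
  exact ⟨List.sum_le_sum fun c hc => h.t1308_le_th (hL c hc),
    List.sum_lt_sum_of_ne_nil (t1308_ne hs) _ _ fun c hc => h.t1308_th_lt (hL c hc)⟩

theorem Ctx.over_sound (hs : (L.map (wed r x n)).sum = 2 * π) (e : 4 ≤ (infS n A Z (L.map col)).q) : False := by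
  obtain ⟨h1, h2⟩ := h.t1308_between hL hs
  have h3 := G.q_le (infS n A Z (L.map col))
  have h4 : (4 : ℝ) ≤ (infS n A Z (L.map col)).q := by exact_mod_cast e
  have hp := pi_pos
  nlinarith

theorem Ctx.exk_sound {d : ℕ} (hs : (L.map (wed r x n)).sum = 2 * π) (e : exk n A Z d (L.map col) = true) :
    False := by
  obtain ⟨h1, h2⟩ := h.t1308_between hL hs
  rw [exk, Bool.and_eq_true, Bool.and_eq_true, Bool.and_eq_true, allL_iff] at e
  obtain ⟨⟨⟨e1, e2⟩, e3⟩, e4⟩ := e
  have hd : d ≠ 0 := Nat.ne_of_beq_eq_false (by simpa using e1)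
  have hall : ∀ c ∈ L, Z.ur (col c) = false → Z.dc (col c) = d ∧ Z.dc (col (r (n - 1) c)) = d :=
    fun c hc hu => by
      have := e3 _ (List.mem_map_of_mem hc)
      rw [hu, Bool.false_or, Bool.and_eq_true, h.t1308_col (hL c hc)] at this
      exact ⟨Nat.eq_of_beq_eq_true this.1, Nat.eq_of_beq_eq_true this.2⟩
  obtain ⟨i1, T, i2, i3⟩ := h.t1308_ex hd L hL hall
  have e5 : (cond (evenR Z (L.map col)) (kprod (Z.D d) (exL (A.s (Nat.sub n 1)) Z (L.map col))).2.z
      (kprod (Z.D d) (exL (A.s (Nat.sub n 1)) Z (L.map col))).1.z && anyL (L.map col) fun c => !Z.ur c) =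
      true := e4
  rw [Bool.and_eq_true, anyL_iff] at e5
  obtain ⟨e5, u, hu, e6⟩ := e5
  obtain ⟨c, hc, rfl⟩ := List.mem_map.1 hu
  have d1 := (hall c hc (by simpa using e6)).1
  have hD : 0 < (Z.D d).ev := d1 ▸ ((h.num c (hL c hc)).ex (d1 ▸ hd)).1
  obtain ⟨ρ, hρ, k1, k2⟩ := kprod_sound hD _ i1
  have h3 := G.q_le (infS n A Z (L.map col))
  have h4 : (3 : ℝ) ≤ (infS n A Z (L.map col)).q := by exact_mod_cast Nat.le_of_ble_eq_true e2
  have hp := pi_pos
  have h5 : sin (L.map (t1308_th r x n Z col)).sum = 0 := by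
    rw [i3, sin_add]
    revert i2 e5
    cases evenR Z (L.map col) <;> simp only [cond_true, cond_false] <;> intro i2 e5
    · rw [UP.K.ev_z e5] at k1
      rw [i2, (mul_eq_zero.1 k1.symm).resolve_left hρ.ne', mul_zero, zero_mul, add_zero]
    · rw [UP.K.ev_z e5, zero_mul] at k2
      rw [i2, (mul_eq_zero.1 k2.symm).resolve_left hρ.ne', mul_zero, zero_mul, add_zero]
  generalize (L.map (t1308_th r x n Z col)).sum = Θ at h1 h2 h5
  have h6 := sin_pos_of_pos_of_lt_pi (x := 2 * π - Θ) (by linarith) (by nlinarith)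
  rw [sin_two_pi_sub, h5] at h6
  simp at h6

end

theorem Ctx.wInf_lt (h : Ctx r x m n A K Z lim col P) {c : F} (hc : P c) :
    0 < (wInf n A Z (col c)).re ∧ (wInf n A Z (col c)).ang < wed r x n c :=
  ⟨t1308_wre _, (h.t1308_le_th hc).trans_lt (h.t1308_th_lt hc)⟩

end

end UP

/-! The cycles of facets round a face of codimension three: numerical tests, enumeration, groups. -/

namespace UP

open Real

noncomputable section

variable {F : Type} {r : ℕ → F → F} {x : ℕ → F → ℝ} {m : ℕ → F → ℕ} {n lim : ℕ} {A : Aut} {K : Unf} {Z : Num}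
  {col : F → ℕ} {P : F → Prop}

/-! Enumeration. -/

/-- `E` lists the states by ridge state `p` on `[off p, off (p+1))`, sorted by `key = 2048 * angle + max c (s c)` -/
structure Dfs where
  E : ℕ → ℕ
  pos : ℕ → ℕ
  off : ℕ → ℕ
  key : ℕ → ℕ
  nP : ℕ

def om : G := ⟨0, 1024, 1⟩

theorem om_re : 0 < om.re := by decide

theorem om_full : 2 * π ≤ 6434 * om.ang := by
  have h1 : 4 ≤ (om.pow 13 6434).q := by decide +kernel
  have h2 := G.ang_pow om_re (f := 13) (n := 6434) (by norm_num)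
  have h3 := G.q_le (om.pow 13 6434)
  have h4 : (4 : ℝ) ≤ ((om.pow 13 6434).q : ℝ) := by exact_mod_cast h1
  have h5 := mul_le_mul_of_nonneg_right h4 (show 0 ≤ π / 2 by positivity)
  rw [h2] at h3
  push_cast at h3
  linarith

theorem om_pos : 0 < om.ang := by
  have := om_full
  have := pi_pos
  linarith

def okE (n : ℕ) (A : Aut) (Z : Num) (D : Dfs) (lim : ℕ) : Bool :=
  (allR lim fun c => fN (A.pj c) fun p => fN (D.pos c) fun j => fN (A.s (Nat.sub n 1) c) fun e =>
    fN (D.key c) fun k => Nat.blt p D.nP && Nat.ble (D.off p) j && Nat.blt j (D.off (Nat.succ p)) &&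
      Nat.beq (D.E j) c && Nat.beq (D.key e) k &&
      Nat.blt k 8388608 && (Nat.blt c e || (om.pow 12 (Nat.div k 2048)).le (wInf n A Z c))) &&
  allR D.nP fun p => allI (D.off p) (Nat.sub (D.off (Nat.succ p)) 1) fun j =>
    Nat.ble (D.key (D.E j)) (D.key (D.E (Nat.succ j)))

/-- depth first search; a path is listed last wedge first; `[]` signals lack of fuel -/
def dfs (nx : ℕ → ℕ) (D : Dfs) (k0 p0 fuel : ℕ) : List ℕ → ℕ → ℕ → ℕ → List (List ℕ) → List (List ℕ) :=
  Nat.rec (fun _ _ _ _ acc => [] :: acc)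
    (fun _ ih path l sm p acc =>
      fN (D.off p) fun o => fN (Nat.sub (D.off (Nat.succ p)) o) fun cnt =>
        (fun rest : List (List ℕ) => cond (Nat.ble 3 l && Nat.beq p p0) (path :: rest) rest)
          ((Nat.rec (fun _ => acc) (fun _ jh j => fN (D.E j) fun c => fN (D.key c) fun k =>
            fN (Nat.add sm (Nat.div k 2048)) fun s' => cond (Nat.blt k0 k || Nat.ble 6434 s') acc
              (fN (nx c) fun p' => ih (c :: path) (Nat.succ l) s' p' (fN (Nat.succ j) jh))) cnt : ℕ → List (List ℕ)) o))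
    fuel

/-- all cycles whose largest wedge starts with a state in `[c0, c0 + cnt)` -/
def dfsAll (n : ℕ) (A : Aut) (D : Dfs) (cnt : ℕ) : ℕ → List (List ℕ) :=
  Nat.rec (fun _ => []) (fun _ ih c => fN (A.s (Nat.sub n 1) c) fun e => cond (Nat.ble e c)
    (fN (D.key c) fun k => fN (A.pj c) fun p0 => fN (A.pj e) fun p =>
      dfs (fun c => A.pj (A.s (Nat.sub n 1) c)) D k p0 8 [c] 1 (Nat.div k 2048) p (fN (Nat.succ c) ih))
    (fN (Nat.succ c) ih)) cnt

/-- `a` starts the cycle at its largest key -/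
def Top (r : ℕ → F → F) (n : ℕ) (A : Aut) (D : Dfs) (col : F → ℕ) (a : F) : Prop :=
  A.s (n - 1) (col a) ≤ col a ∧ ∀ j, D.key (col ((rot r n)^[j] a)) ≤ D.key (col a)

theorem okE_at {D : Dfs} (e : okE n A Z D lim = true) {c : ℕ} (hc : c < lim) :
    A.pj c < D.nP ∧ D.off (A.pj c) ≤ D.pos c ∧ D.pos c < D.off (A.pj c + 1) ∧ D.E (D.pos c) = c ∧
      D.key (A.s (n - 1) c) = D.key c ∧ D.key c < 8388608 ∧
      (c < A.s (n - 1) c ∨ (om.pow 12 (D.key c / 2048)).le (wInf n A Z c) = true) := by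
  unfold okE at e
  rw [Bool.and_eq_true, allR_iff] at e
  have h := e.1 c hc
  simp only [fN_eq, Bool.and_eq_true, Bool.or_eq_true, Nat.blt_eq, Nat.ble_eq, Nat.beq_eq] at h
  obtain ⟨⟨⟨⟨⟨⟨h1, h2⟩, h3⟩, h4⟩, h5⟩, h6⟩, h7⟩ := h
  exact ⟨h1, h2, h3, h4, h5, h6, h7⟩

theorem okE_sorted {D : Dfs} (e : okE n A Z D lim = true) {p : ℕ} (hp : p < D.nP) {i j : ℕ} (h0 : D.off p ≤ i)
    (hij : i ≤ j) (h1 : j < D.off (p + 1)) : D.key (D.E i) ≤ D.key (D.E j) := by
  unfold okE at e
  rw [Bool.and_eq_true, allR_iff, allR_iff] at e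
  have h := allI_iff.1 (e.2 p hp)
  induction j, hij using Nat.le_induction with
  | base => exact le_rfl
  | succ j hij ih =>
    have h2 := h j (h0.trans hij) (show j < D.off (p + 1) - 1 by omega)
    exact (ih (by omega)).trans (Nat.ble_eq.mp h2)

theorem Ctx.rr1 (h : Ctx r x m n A K Z lim col P) (a : F) : r (n - 1) (r (n - 1) a) = a :=
  h.S.rr _ (by omega) a

theorem Ctx.cs1 (h : Ctx r x m n A K Z lim col P) {a : F} (ha : P a) : col (r (n - 1) a) = A.s (n - 1) (col a) :=
  h.cs _ _ (by have := h.h2; omega) ha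

theorem Ctx.itP (h : Ctx r x m n A K Z lim col P) {a : F} (ha : P a) (j : ℕ) : P ((rot r n)^[j] a) := by
  induction j with
  | zero => exact ha
  | succ j ih => rw [Function.iterate_succ_apply']; exact h.rotP ih

theorem Ctx.key_r (h : Ctx r x m n A K Z lim col P) {D : Dfs} (e : okE n A Z D lim = true) {a : F} (ha : P a) :
    D.key (col (r (n - 1) a)) = D.key (col a) := by
  rw [h.cs1 ha]
  exact (okE_at e (h.lt a ha)).2.2.2.2.1

theorem Ctx.key_lt0 (h : Ctx r x m n A K Z lim col P) {D : Dfs} (e : okE n A Z D lim = true) {a : F} (ha : P a)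
    (h1 : ¬col a < A.s (n - 1) (col a)) : ((D.key (col a) / 2048 : ℕ) : ℝ) * om.ang < wed r x n a := by
  obtain ⟨-, -, -, -, -, h2, h3⟩ := okE_at e (h.lt a ha)
  obtain ⟨h4, h5⟩ := h.wInf_lt ha
  have h6 := G.le_sound (G.pow_re om_re _ _) h4 (h3.resolve_left h1)
  rw [G.ang_pow om_re (by omega)] at h6
  exact h6.trans_lt h5

theorem Ctx.key_lt (h : Ctx r x m n A K Z lim col P) {D : Dfs} (e : okE n A Z D lim = true) {a : F} (ha : P a) :
    ((D.key (col a) / 2048 : ℕ) : ℝ) * om.ang < wed r x n a := by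
  by_cases h1 : col a < A.s (n - 1) (col a)
  · have hb : P (r (n - 1) a) := h.cl _ _ (Nat.sub_le _ _) ha
    have h2 := h.key_lt0 e hb (by rw [← h.cs1 hb, h.rr1, h.cs1 ha]; omega)
    rw [h.key_r e ha] at h2
    have h3 : wed r x n (r (n - 1) a) = wed r x n a := by
      unfold wed
      rw [h.rr1, add_comm]
    rwa [h3] at h2
  · exact h.key_lt0 e ha h1

theorem Ctx.key_sum (h : Ctx r x m n A K Z lim col P) {D : Dfs} (e : okE n A Z D lim = true) {a : F} (ha : P a) :
    ∑ j ∈ Finset.range (m n a), D.key (col ((rot r n)^[j] a)) / 2048 < 6434 := by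
  have h1 := h.S.ang n h.h2 (Nat.lt_succ_self n) a
  have h3 := h.S.three_le h.h2 a
  have h2 : ∑ j ∈ Finset.range (m n a), ((D.key (col ((rot r n)^[j] a)) / 2048 : ℕ) : ℝ) * om.ang <
      ∑ j ∈ Finset.range (m n a), wed r x n ((rot r n)^[j] a) :=
    Finset.sum_lt_sum_of_nonempty (Finset.nonempty_range_iff.2 (by omega)) fun j _ => h.key_lt e (h.itP ha j)
  rw [← Finset.sum_mul, ← Nat.cast_sum] at h2
  have h4 : ∑ j ∈ Finset.range (m n a), wed r x n ((rot r n)^[j] a) = 2 * π := h1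
  have h5 := lt_of_mul_lt_mul_right ((h2.trans_eq h4).trans_le om_full) om_pos.le
  exact_mod_cast h5

/-- the inner loop of `dfs` -/
def inl (nx : ℕ → ℕ) (D : Dfs) (k0 : ℕ) (ih : List ℕ → ℕ → ℕ → ℕ → List (List ℕ) → List (List ℕ)) (path : List ℕ)
    (l sm : ℕ) (acc : List (List ℕ)) (cnt : ℕ) : ℕ → List (List ℕ) :=
  Nat.rec (fun _ => acc) (fun _ jh j => fN (D.E j) fun c => fN (D.key c) fun k =>
    fN (Nat.add sm (Nat.div k 2048)) fun s' => cond (Nat.blt k0 k || Nat.ble 6434 s') acc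
      (fN (nx c) fun p' => ih (c :: path) (Nat.succ l) s' p' (fN (Nat.succ j) jh))) cnt

section
variable {nx : ℕ → ℕ} {D : Dfs} {k0 p0 : ℕ}

theorem inl_succ (ih : List ℕ → ℕ → ℕ → ℕ → List (List ℕ) → List (List ℕ)) (path : List ℕ) (l sm : ℕ)
    (acc : List (List ℕ)) (cnt j : ℕ) : inl nx D k0 ih path l sm acc (cnt + 1) j =
      cond (Nat.blt k0 (D.key (D.E j)) || Nat.ble 6434 (sm + D.key (D.E j) / 2048)) acc
        (ih (D.E j :: path) (l + 1) (sm + D.key (D.E j) / 2048) (nx (D.E j))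
          (inl nx D k0 ih path l sm acc cnt (j + 1))) := by
  have : inl nx D k0 ih path l sm acc (cnt + 1) j = fN (D.E j) fun c => fN (D.key c) fun k =>
      fN (Nat.add sm (Nat.div k 2048)) fun s' => cond (Nat.blt k0 k || Nat.ble 6434 s') acc
        (fN (nx c) fun p' => ih (c :: path) (Nat.succ l) s' p'
          (fN (Nat.succ j) (inl nx D k0 ih path l sm acc cnt))) := rfl
  rw [this]
  simp only [fN_eq]
  rfl

theorem dfs_succ (f : ℕ) (path : List ℕ) (l sm p : ℕ) (acc : List (List ℕ)) :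
    dfs nx D k0 p0 (f + 1) path l sm p acc = cond (Nat.ble 3 l && Nat.beq p p0)
      (path :: inl nx D k0 (dfs nx D k0 p0 f) path l sm acc (D.off (p + 1) - D.off p) (D.off p))
      (inl nx D k0 (dfs nx D k0 p0 f) path l sm acc (D.off (p + 1) - D.off p) (D.off p)) := by
  have : dfs nx D k0 p0 (f + 1) path l sm p acc =
      fN (D.off p) fun o => fN (Nat.sub (D.off (Nat.succ p)) o) fun cnt =>
        (fun rest : List (List ℕ) => cond (Nat.ble 3 l && Nat.beq p p0) (path :: rest) rest)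
          (inl nx D k0 (dfs nx D k0 p0 f) path l sm acc cnt o) := rfl
  rw [this]
  simp only [fN_eq]
  rfl

theorem inl_sub {ih : List ℕ → ℕ → ℕ → ℕ → List (List ℕ) → List (List ℕ)}
    (hi : ∀ path l sm p acc, acc ⊆ ih path l sm p acc) (path : List ℕ) (l sm : ℕ) (acc : List (List ℕ))
    (cnt j : ℕ) : acc ⊆ inl nx D k0 ih path l sm acc cnt j := by
  induction cnt generalizing j with
  | zero => exact List.Subset.refl _
  | succ cnt jh =>
    rw [inl_succ]
    cases (Nat.blt k0 (D.key (D.E j)) || Nat.ble 6434 (sm + D.key (D.E j) / 2048))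
    · exact List.Subset.trans (jh (j + 1)) (hi _ _ _ _ _)
    · exact List.Subset.refl _

theorem inl_dfs (f : ℕ) (path : List ℕ) (l sm p : ℕ) (acc : List (List ℕ)) :
    inl nx D k0 (dfs nx D k0 p0 f) path l sm acc (D.off (p + 1) - D.off p) (D.off p) ⊆
      dfs nx D k0 p0 (f + 1) path l sm p acc := by
  rw [dfs_succ]
  cases (Nat.ble 3 l && Nat.beq p p0)
  · exact List.Subset.refl _
  · exact List.subset_cons_self _ _

theorem dfs_sub (f : ℕ) (path : List ℕ) (l sm p : ℕ) (acc : List (List ℕ)) :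
    acc ⊆ dfs nx D k0 p0 f path l sm p acc := by
  induction f generalizing path l sm p acc with
  | zero => exact List.subset_cons_self _ _
  | succ f ih => exact List.Subset.trans (inl_sub ih _ _ _ _ _ _) (inl_dfs f path l sm p acc)

/-- the inner loop reaches the position `t` -/
theorem inl_reach {ih : List ℕ → ℕ → ℕ → ℕ → List (List ℕ) → List (List ℕ)}
    (hi : ∀ path l sm p acc, acc ⊆ ih path l sm p acc) (path : List ℕ) (l sm : ℕ) (acc : List (List ℕ))
    {t : ℕ} (h1 : D.key (D.E t) ≤ k0) (h2 : sm + D.key (D.E t) / 2048 < 6434) (cnt j : ℕ) (hj : j ≤ t)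
    (hc : t < j + cnt) (hs : ∀ i, j ≤ i → i ≤ t → D.key (D.E i) ≤ D.key (D.E t)) :
    ∃ acc', ih (D.E t :: path) (l + 1) (sm + D.key (D.E t) / 2048) (nx (D.E t)) acc' ⊆
      inl nx D k0 ih path l sm acc cnt j := by
  induction cnt generalizing j with
  | zero => omega
  | succ cnt jh =>
    have h3 := hs j le_rfl hj
    have h4 : D.key (D.E j) / 2048 ≤ D.key (D.E t) / 2048 := Nat.div_le_div_right h3
    have h5 : (Nat.blt k0 (D.key (D.E j)) || Nat.ble 6434 (sm + D.key (D.E j) / 2048)) = false := by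
      rw [← Bool.not_eq_true, Bool.or_eq_true, Nat.blt_eq, Nat.ble_eq]
      omega
    rw [inl_succ, h5, cond_false]
    rcases hj.lt_or_eq with h6 | rfl
    · obtain ⟨acc', h7⟩ := jh (j + 1) h6 (by omega) fun i hi1 hi2 => hs i (by omega) hi2
      exact ⟨acc', List.Subset.trans h7 (hi _ _ _ _ _)⟩
    · exact ⟨_, List.Subset.refl _⟩

end

theorem dfsAll_succ (D : Dfs) (cnt c : ℕ) : dfsAll n A D (cnt + 1) c = cond (Nat.ble (A.s (n - 1) c) c)
    (dfs (fun c => A.pj (A.s (n - 1) c)) D (D.key c) (A.pj c) 8 [c] 1 (D.key c / 2048) (A.pj (A.s (n - 1) c))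
      (dfsAll n A D cnt (c + 1))) (dfsAll n A D cnt (c + 1)) := by
  have : dfsAll n A D (cnt + 1) c = fN (A.s (Nat.sub n 1) c) fun e => cond (Nat.ble e c)
      (fN (D.key c) fun k => fN (A.pj c) fun p0 => fN (A.pj e) fun p =>
        dfs (fun c => A.pj (A.s (Nat.sub n 1) c)) D k p0 8 [c] 1 (Nat.div k 2048) p
          (fN (Nat.succ c) (dfsAll n A D cnt)))
      (fN (Nat.succ c) (dfsAll n A D cnt)) := rfl
  rw [this]
  simp only [fN_eq]
  rfl

theorem dfsAll_reach (D : Dfs) {t : ℕ} (ht : A.s (n - 1) t ≤ t) (cnt c : ℕ) (h0 : c ≤ t) (h1 : t < c + cnt) :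
    ∃ acc, dfs (fun c => A.pj (A.s (n - 1) c)) D (D.key t) (A.pj t) 8 [t] 1 (D.key t / 2048)
      (A.pj (A.s (n - 1) t)) acc ⊆ dfsAll n A D cnt c := by
  induction cnt generalizing c with
  | zero => omega
  | succ cnt ih =>
    rw [dfsAll_succ]
    rcases h0.lt_or_eq with h2 | rfl
    · obtain ⟨acc, h3⟩ := ih (c + 1) h2 (by omega)
      refine ⟨acc, List.Subset.trans h3 ?_⟩
      cases Nat.ble (A.s (n - 1) c) c
      · exact List.Subset.refl _
      · rw [cond_true]
        exact dfs_sub _ _ _ _ _ _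
    · rw [Nat.ble_eq.mpr ht, cond_true]
      exact ⟨_, List.Subset.refl _⟩

theorem Ctx.pj_rot (h : Ctx r x m n A K Z lim col P) {a : F} (ha : P a) :
    A.pj (col (rot r n a)) = A.pj (A.s (n - 1) (col a)) := by
  rw [← h.cs1 ha]
  exact h.cp _ (h.cl _ _ (Nat.sub_le _ _) ha)

theorem Ctx.dfs_inv (h : Ctx r x m n A K Z lim col P) {D : Dfs} (e : okE n A Z D lim = true) {a : F} (ha : P a)
    (ht : Top r n A D col a) (f l : ℕ) (hl : l ≤ m n a) (acc : List (List ℕ)) :
    ∃ z ∈ dfs (fun c => A.pj (A.s (n - 1) c)) D (D.key (col a)) (A.pj (col a)) f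
      ((List.range l).map fun j => col ((rot r n)^[j] a)).reverse l
      (∑ j ∈ Finset.range l, D.key (col ((rot r n)^[j] a)) / 2048) (A.pj (col ((rot r n)^[l] a))) acc,
      z = ((List.range (m n a)).map fun j => col ((rot r n)^[j] a)).reverse ∨ z = [] := by
  induction f generalizing l acc with
  | zero => exact ⟨[], List.mem_cons_self, Or.inr rfl⟩
  | succ f ih =>
    rcases hl.lt_or_eq with hl | rfl
    · have hb := h.itP ha l
      obtain ⟨h1, h2, h3, h4, -⟩ := okE_at e (h.lt _ hb)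
      have h5 : ∑ j ∈ Finset.range (l + 1), D.key (col ((rot r n)^[j] a)) / 2048 < 6434 :=
        (Finset.sum_le_sum_of_subset (Finset.range_mono hl)).trans_lt (h.key_sum e ha)
      rw [Finset.sum_range_succ] at h5
      obtain ⟨acc', h6⟩ := inl_reach (nx := fun c => A.pj (A.s (n - 1) c)) (D := D) (k0 := D.key (col a))
        (dfs_sub (nx := fun c => A.pj (A.s (n - 1) c)) (D := D) (k0 := D.key (col a)) (p0 := A.pj (col a)) f)
        ((List.range l).map fun j => col ((rot r n)^[j] a)).reverse l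
        (∑ j ∈ Finset.range l, D.key (col ((rot r n)^[j] a)) / 2048) acc (t := D.pos (col ((rot r n)^[l] a)))
        (by rw [h4]; exact ht.2 l) (by rw [h4]; exact h5)
        (D.off (A.pj (col ((rot r n)^[l] a)) + 1) - D.off (A.pj (col ((rot r n)^[l] a)))) _ h2 (by omega)
        fun i hi1 hi2 => okE_sorted e h1 hi1 hi2 h3
      obtain ⟨z, hz, hz'⟩ := ih (l + 1) hl acc'
      refine ⟨z, inl_dfs _ _ _ _ _ _ (h6 ?_), hz'⟩
      rw [h4]
      rwa [List.range_succ, List.map_append, List.reverse_append, Finset.sum_range_succ,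
        Function.iterate_succ_apply', h.pj_rot hb] at hz
    · refine ⟨_, ?_, Or.inl rfl⟩
      have h1 : (rot r n)^[m n a] a = a := h.S.cyc n (by have := h.h2; omega) (Nat.lt_succ_self n) a
      rw [dfs_succ, h1, Nat.ble_eq.mpr (h.S.three_le h.h2 a), Nat.beq_refl]
      exact List.mem_cons_self

theorem Ctx.exists_top (h : Ctx r x m n A K Z lim col P) {D : Dfs} (e : okE n A Z D lim = true) {b : F} (hb : P b) :
    ∃ a j, P a ∧ Top r n A D col a ∧ (b = (rot r n)^[j] a ∨ b = (rot r n)^[j] (r (n - 1) a)) := by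
  have h3 := h.S.three_le h.h2 b
  have hper : Function.IsPeriodicPt (rot r n) (m n b) b :=
    h.S.cyc n (by have := h.h2; omega) (Nat.lt_succ_self n) b
  have hbd : BddAbove (Set.range fun j => D.key (col ((rot r n)^[j] b))) := by
    refine ⟨8388608, ?_⟩
    rintro _ ⟨j, rfl⟩
    exact (okE_at e (h.lt _ (h.itP hb j))).2.2.2.2.2.1.le
  obtain ⟨j0, hj0⟩ := Nat.sSup_mem (Set.range_nonempty _) hbd
  have hmax : ∀ j, D.key (col ((rot r n)^[j] b)) ≤ D.key (col ((rot r n)^[j0] b)) := fun j =>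
    (le_csSup hbd ⟨j, rfl⟩).trans_eq hj0.symm
  have hback : b = (rot r n)^[m n b * j0 - j0] ((rot r n)^[j0] b) := by
    rw [← Function.iterate_add_apply, Nat.sub_add_cancel (Nat.le_mul_of_pos_left _ (by omega))]
    exact (hper.mul_const j0).eq.symm
  have hc := h.itP hb j0
  by_cases h1 : A.s (n - 1) (col ((rot r n)^[j0] b)) ≤ col ((rot r n)^[j0] b)
  · refine ⟨_, _, hc, ⟨h1, fun j => ?_⟩, Or.inl hback⟩
    rw [← Function.iterate_add_apply]
    exact hmax _
  · have hd : P (r (n - 1) ((rot r n)^[j0] b)) := h.cl _ _ (Nat.sub_le _ _) hc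
    refine ⟨_, m n b * j0 - j0, hd, ⟨?_, fun j => ?_⟩, Or.inr ?_⟩
    · rw [← h.cs1 hd, h.rr1, h.cs1 hc]
      omega
    · obtain ⟨t, ht⟩ : ∃ t, (rot r n)^[j] (r (n - 1) ((rot r n)^[j0] b)) = r (n - 1) ((rot r n)^[t] b) := by
        induction j with
        | zero => exact ⟨j0, rfl⟩
        | succ j ih =>
          obtain ⟨t, ht⟩ := ih
          refine ⟨t + (m n b - 1), ?_⟩
          have h4 : (rot r n)^[t] b = rot r n ((rot r n)^[t + (m n b - 1)] b) := by
            rw [← Function.iterate_succ_apply' (rot r n), show (t + (m n b - 1)).succ = t + m n b by omega,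
              Function.iterate_add_apply, hper.eq]
          rw [Function.iterate_succ_apply', ht, h4]
          generalize (rot r n)^[t + (m n b - 1)] b = y
          unfold rot
          rw [h.rr1, h.S.rr n (Nat.lt_succ_self n)]
      rw [ht, h.key_r e (h.itP hb t), h.key_r e hc]
      exact hmax t
    · rw [h.rr1]
      exact hback

theorem Ctx.dfs_complete (h : Ctx r x m n A K Z lim col P) {D : Dfs} (e : okE n A Z D lim = true) {a : F} (ha : P a)
    (ht : Top r n A D col a) {c0 cnt : ℕ} (h0 : c0 ≤ col a) (h1 : col a < c0 + cnt) :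
    (cy r m n col a).reverse ∈ dfsAll n A D cnt c0 ∨ [] ∈ dfsAll n A D cnt c0 := by
  obtain ⟨acc, h2⟩ := dfsAll_reach (n := n) (A := A) D ht.1 cnt c0 h0 h1
  obtain ⟨z, hz, hz'⟩ := h.dfs_inv e ha ht 8 1 (by have := h.S.three_le h.h2 a; omega) acc
  rw [Finset.sum_range_one, Function.iterate_one, h.pj_rot ha] at hz
  have h3 : cy r m n col a = (List.range (m n a)).map fun j => col ((rot r n)^[j] a) := by
    unfold cy
    rw [orb_eq, List.map_map]
    rfl
  rcases hz' with rfl | rfl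
  · exact Or.inl (h3 ▸ h2 hz)
  · exact Or.inr (h2 hz)

end

end UP

/-! The cycles of facets round a face of codimension three: numerical tests, enumeration, groups. -/

namespace UP

open Real

noncomputable section

variable {F : Type} {r : ℕ → F → F} {x : ℕ → F → ℝ} {m : ℕ → F → ℕ} {n lim : ℕ} {A : Aut} {K : Unf} {Z : Num}
  {col : F → ℕ} {P : F → Prop}

/-! Groups of cycles with the same radius. -/

/-- group `g`: radius in `(ga g, gb g)`, killers `kil` on `[kof g, kof (g+1))`, surviving cycles `al` on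
`[aof g, aof (g+1))` -/
structure Grp where
  nG : ℕ
  ga : ℕ → ℕ
  gb : ℕ → ℕ
  kof : ℕ → ℕ
  kil : ℕ → ℕ
  aof : ℕ → ℕ
  al : ℕ → List ℕ

def okG (lim : ℕ) (Q : Grp) : Bool :=
  (allR (Nat.sub Q.nG 1) fun g => fN (Q.gb g) fun b => fN (Q.ga (Nat.succ g)) fun a =>
    !Nat.beq b 0 && Nat.ble b a && Nat.ble (Q.ga g) a) &&
  allR Q.nG fun g => allI (Q.kof g) (Q.kof (Nat.succ g)) fun j => Nat.blt (Q.kil j) lim

def eqL (l : List ℕ) : List ℕ → Bool :=
  List.rec (fun l' => List.casesOn l' true fun _ _ => false)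
    (fun a _ ih l' => List.casesOn l' false fun b t => Nat.beq a b && ih t) l

theorem eqL_sound {l l' : List ℕ} (h : eqL l l' = true) : l = l' := by
  induction l generalizing l' with
  | nil => cases l' with
    | nil => rfl
    | cons b t => exact absurd h (by simp [eqL])
  | cons a l ih => cases l' with
    | nil => exact absurd h (by simp [eqL])
    | cons b t =>
      have h' : (Nat.beq a b && eqL l t) = true := h
      rw [Bool.and_eq_true, Nat.beq_eq] at h'
      rw [h'.1, ih h'.2]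

/-- scan the killers: the first one whose type occurs must not occur itself; without any the cycle survives -/
def scanK (n : ℕ) (A : Aut) (Q : Grp) (p : List ℕ) (fin : Bool) (cnt : ℕ) : ℕ → Bool :=
  Nat.rec (fun _ => fin) (fun _ ih j => fN (Q.kil j) fun k => fN (A.T k) fun t =>
    cond (anyL p fun c => Nat.beq (A.T c) t)
      (allL p fun c => !Nat.beq c k && !Nat.beq (A.s (Nat.sub n 1) c) k) (fN (Nat.succ j) ih)) cnt

def chk (n : ℕ) (A : Aut) (Z : Num) (Q : Grp) (x0 : ℕ) (p : List ℕ) (t : ℕ) : Bool :=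
  fN (Nat.mod t 4) fun kd => fN (Nat.div t 4) fun v =>
    cond (Nat.beq kd 0)
      (fN (Nat.mod v 1024) fun g => fN (Nat.add (Q.aof g) (Nat.div v 1024)) fun j => fN (Q.kof g) fun k0 =>
        fN (Nat.sub (Q.kof (Nat.succ g)) k0) fun cnt => fN (Q.ga g) fun a => fN (Q.gb g) fun b =>
          Nat.blt g Q.nG && anyL p (fun _ => true) && dnB n A Z a p && (Nat.beq b 0 || upB n A Z b p) &&
            scanK n A Q p (Nat.blt j (Q.aof (Nat.succ g)) && eqL (Q.al j) p) cnt k0)
      (cond (Nat.beq kd 1) (anyL p (fun _ => true) && fN (maxX Z x0 p) fun b => upB n A Z b p)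
        (cond (Nat.beq kd 2) (Nat.ble 4 (infS n A Z p).q) (exk n A Z v p)))

def chkAll (n : ℕ) (A : Aut) (Z : Num) (Q : Grp) (x0 : ℕ) (tag : ℕ → ℕ) (l : List (List ℕ)) : ℕ → Bool :=
  List.rec (fun _ => true) (fun p _ ih i => fN (tag i) (chk n A Z Q x0 p) && fN (Nat.succ i) ih) l

/-- the check of one range of starting states -/
def okC (n : ℕ) (A : Aut) (Z : Num) (D : Dfs) (Q : Grp) (x0 : ℕ) (tag : ℕ → ℕ) (c0 cnt : ℕ) : Bool :=
  chkAll n A Z Q x0 tag (dfsAll n A D cnt c0) 0

def rot1 (l : List ℕ) : List ℕ := List.casesOn l [] fun a t => t ++ [a]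

def rots (cnt : ℕ) : List ℕ → List (List ℕ) → List (List ℕ) :=
  Nat.rec (fun _ acc => acc) (fun _ ih l acc => fL l fun l' => l' :: ih (rot1 l') acc) cnt

/-- all rotations and reflections of the surviving cycles `[j, j + cnt)` -/
def expand (s : ℕ → ℕ) (al : ℕ → List ℕ) (cnt : ℕ) : ℕ → List (List ℕ) :=
  Nat.rec (fun _ => []) (fun _ ih j => fL (al j) fun p => fN p.length fun l =>
    rots l p.reverse (rots l (p.map s) (fN (Nat.succ j) ih))) cnt

def Grp.ex (Q : Grp) (n : ℕ) (A : Aut) (g : ℕ) : List (List ℕ) :=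
  expand (A.s (Nat.sub n 1)) Q.al (Nat.sub (Q.aof (Nat.succ g)) (Q.aof g)) (Q.aof g)

theorem rot1_eq (l : List ℕ) : rot1 l = l.rotate 1 := by
  cases l <;> simp [rot1]

theorem rots_succ (cnt : ℕ) (l : List ℕ) (acc : List (List ℕ)) :
    rots (cnt + 1) l acc = l :: rots cnt (rot1 l) acc :=
  fL_eq l fun l' => l' :: rots cnt (rot1 l') acc

theorem mem_rots_acc {cnt : ℕ} {l p : List ℕ} {acc : List (List ℕ)} (h : p ∈ acc) :
    p ∈ rots cnt l acc := by
  induction cnt generalizing l with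
  | zero => exact h
  | succ c ih => rw [rots_succ]; exact List.mem_cons_of_mem _ ih

theorem mem_rots_lt {cnt k : ℕ} {l : List ℕ} {acc : List (List ℕ)} (h : k < cnt) :
    l.rotate k ∈ rots cnt l acc := by
  induction cnt generalizing l k with
  | zero => omega
  | succ c ih =>
    rw [rots_succ]
    rcases k with _ | k
    · simp
    · rw [add_comm k 1, ← List.rotate_rotate, ← rot1_eq]
      exact List.mem_cons_of_mem _ (ih (by omega))

theorem mem_rots {k : ℕ} {l : List ℕ} {acc : List (List ℕ)} {c : ℕ} (hc : c = l.length)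
    (h : 0 < c) : l.rotate k ∈ rots c l acc := by
  rw [← List.rotate_mod]
  exact mem_rots_lt (hc ▸ Nat.mod_lt _ (hc ▸ h))

theorem expand_succ (s : ℕ → ℕ) (al : ℕ → List ℕ) (cnt j : ℕ) : expand s al (cnt + 1) j =
    rots (al j).length (al j).reverse
      (rots (al j).length ((al j).map s) (expand s al cnt (j + 1))) := by
  have : expand s al (cnt + 1) j = fL (al j) fun p => fN p.length fun l =>
    rots l p.reverse (rots l (p.map s) (fN (Nat.succ j) (expand s al cnt))) := rfl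
  rw [this]; simp only [fL_eq, fN_eq]

theorem mem_expand_of {s : ℕ → ℕ} {al : ℕ → List ℕ} {cnt j0 i k : ℕ} {p : List ℕ} (h0 : j0 ≤ i)
    (h1 : i < j0 + cnt) (hl : 0 < (al i).length)
    (hp : p = (al i).reverse.rotate k ∨ p = ((al i).map s).rotate k) : p ∈ expand s al cnt j0 := by
  induction cnt generalizing j0 with
  | zero => omega
  | succ c ih =>
    rw [expand_succ]
    rcases h0.eq_or_lt with rfl | h
    · rcases hp with rfl | rfl
      · exact mem_rots (by simp) hl
      · exact mem_rots_acc (mem_rots (by simp) hl)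
    · exact mem_rots_acc (mem_rots_acc (ih h (by omega)))

theorem cy_eq (a : F) : cy r m n col a = (List.range (m n a)).map fun j => col ((rot r n)^[j] a) := by
  rw [cy, orb_eq, List.map_map]; rfl

section
variable (S : Sys (n + 1) r x m) (h2 : 2 ≤ n)
include S h2

theorem Sys.m_r (a : F) : m n (r (n - 1) a) = m n a :=
  S.mr n (n - 1) (by omega) (by omega) (by omega) (by omega) (by omega) a

theorem Sys.m_rot (a : F) : m n (rot r n a) = m n a :=
  (S.mr n n (by omega) (by omega) (by omega) (by omega) (by omega) _).trans (S.m_r h2 a)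

theorem Sys.cy_rot (a : F) : cy r m n col (rot r n a) = (cy r m n col a).rotate 1 := by
  have h3 := S.three_le h2 a
  have hc := S.cyc n (by omega) (by omega) a
  rw [cy_eq, cy_eq, S.m_rot h2]
  obtain ⟨l, hl⟩ : ∃ l, m n a = l + 1 := ⟨m n a - 1, by omega⟩
  rw [hl] at hc ⊢
  conv_rhs => rw [List.range_succ_eq_map]
  rw [List.range_succ]
  simp only [List.map_append, List.map_cons, List.map_nil, List.map_map, List.rotate_cons_succ,
    List.rotate_zero, Function.iterate_zero, id]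
  rw [← Function.iterate_succ_apply, hc]
  rfl

theorem Sys.cy_iter (a : F) (j : ℕ) :
    cy r m n col ((rot r n)^[j] a) = (cy r m n col a).rotate j := by
  induction j with
  | zero => simp
  | succ j ih => rw [Function.iterate_succ_apply', S.cy_rot h2, ih, List.rotate_rotate]

theorem Sys.rot_refl (k : ℕ) (y : F) :
    (rot r n)^[k] (r (n - 1) ((rot r n)^[k] y)) = r (n - 1) y := by
  induction k with
  | zero => rfl
  | succ k ih =>
    rw [Function.iterate_succ_apply, Function.iterate_succ_apply', ← ih]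
    congr 1
    simp only [rot]
    rw [S.rr (n - 1) (by omega), S.rr n (by omega)]

theorem Sys.col_mem (a : F) : col a ∈ cy r m n col a := by
  have h3 := S.three_le h2 a
  rw [cy_eq]
  exact List.mem_map.2 ⟨0, List.mem_range.2 (by omega), rfl⟩

end

theorem Ctx.iterP (h : Ctx r x m n A K Z lim col P) {a : F} (ha : P a) (j : ℕ) :
    P ((rot r n)^[j] a) := by
  induction j with
  | zero => exact ha
  | succ j ih => rw [Function.iterate_succ_apply']; exact h.rotP ih

theorem Ctx.cy_cases (h : Ctx r x m n A K Z lim col P) {a b : F} (ha : P a) {j : ℕ}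
    (hb : b = (rot r n)^[j] a ∨ b = (rot r n)^[j] (r (n - 1) a)) :
    ∃ k, cy r m n col b = (cy r m n col a).rotate k ∨
      cy r m n col b = ((cy r m n col a).reverse.map (A.s (n - 1))).rotate k := by
  have h2 := h.h2
  have h3 := h.S.three_le h2 a
  rcases hb with rfl | rfl
  · exact ⟨j, Or.inl (h.S.cy_iter h2 a j)⟩
  have hc := h.S.cyc n (by omega) (by omega) a
  have hc' := h.S.cyc n (by omega) (by omega) (r (n - 1) a)
  rw [h.S.m_r h2] at hc'
  have e : cy r m n col (rot r n (r (n - 1) a)) =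
      (cy r m n col a).reverse.map (A.s (n - 1)) := by
    rw [cy_eq, cy_eq, h.S.m_rot h2, h.S.m_r h2]
    refine List.ext_getElem (by simp) fun k k1 k2 => ?_
    have hk : k < m n a := by simpa using k1
    simp only [List.getElem_map, List.getElem_range, List.getElem_reverse, List.length_map,
      List.length_range]
    rw [← h.cs (n - 1) _ (by omega) (h.iterP ha _),
      ← h.S.rot_refl h2 (k + 1) ((rot r n)^[m n a - 1 - k] a),
      ← Function.iterate_add_apply, show k + 1 + (m n a - 1 - k) = m n a by omega, hc,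
      Function.iterate_succ_apply]
  refine ⟨j + (m n a - 1), Or.inr ?_⟩
  rw [← e, ← h.S.cy_iter h2, Function.iterate_add_apply, ← Function.iterate_succ_apply,
    show (m n a - 1).succ = m n a by omega, hc']

theorem Ctx.mem_expand (h : Ctx r x m n A K Z lim col P) {a b : F} (ha : P a) {j : ℕ}
    (hb : b = (rot r n)^[j] a ∨ b = (rot r n)^[j] (r (n - 1) a)) {al : ℕ → List ℕ} {cnt j0 i : ℕ} (h0 : j0 ≤ i)
    (h1 : i < j0 + cnt) (e : al i = (cy r m n col a).reverse) :
    cy r m n col b ∈ expand (A.s (Nat.sub n 1)) al cnt j0 := by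
  obtain ⟨k, hk⟩ := h.cy_cases ha hb
  refine mem_expand_of (k := k) h0 h1 ?_ (by rwa [e, List.reverse_reverse])
  rw [e, List.length_reverse]
  exact List.length_pos_of_mem (h.S.col_mem h.h2 a)

theorem scanK_succ (Q : Grp) (p : List ℕ) (fin : Bool) (cnt j : ℕ) :
    scanK n A Q p fin (cnt + 1) j = cond (anyL p fun c => Nat.beq (A.T c) (A.T (Q.kil j)))
      (allL p fun c => !Nat.beq c (Q.kil j) && !Nat.beq (A.s (Nat.sub n 1) c) (Q.kil j))
      (scanK n A Q p fin cnt (j + 1)) := by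
  have : scanK n A Q p fin (cnt + 1) j = fN (Q.kil j) fun k => fN (A.T k) fun t =>
    cond (anyL p fun c => Nat.beq (A.T c) t)
      (allL p fun c => !Nat.beq c k && !Nat.beq (A.s (Nat.sub n 1) c) k)
      (fN (Nat.succ j) (scanK n A Q p fin cnt)) := rfl
  rw [this]; simp only [fN_eq]

theorem scanK_sound {Q : Grp} {p : List ℕ} {fin : Bool} {cnt j0 : ℕ}
    (h : scanK n A Q p fin cnt j0 = true) (j : ℕ) (h0 : j0 ≤ j)
    (hn : ∀ i, j0 ≤ i → i < j → i < j0 + cnt → ∀ c ∈ p, A.T c ≠ A.T (Q.kil i)) :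
    (j < j0 + cnt → (∃ c ∈ p, A.T c = A.T (Q.kil j)) →
      ∀ c ∈ p, c ≠ Q.kil j ∧ A.s (n - 1) c ≠ Q.kil j) ∧ (j0 + cnt ≤ j → fin = true) := by
  induction cnt generalizing j0 with
  | zero => exact ⟨fun h => by omega, fun _ => h⟩
  | succ k ih =>
    rw [scanK_succ] at h
    rcases h0.eq_or_lt with rfl | hj
    · refine ⟨fun _ ⟨c, hc, e⟩ d hd => ?_, fun h => by omega⟩
      rw [anyL_iff.2 ⟨c, hc, Nat.beq_eq ▸ e⟩, cond_true, allL_iff] at h
      simpa [← Bool.not_eq_true, Nat.beq_eq] using h d hd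
    · have : (anyL p fun c => Nat.beq (A.T c) (A.T (Q.kil j0))) = false := by
        rw [← Bool.not_eq_true, anyL_iff]
        rintro ⟨c, hc, e⟩
        exact hn j0 le_rfl hj (by omega) c hc (Nat.eq_of_beq_eq_true e)
      rw [this, cond_false] at h
      have := ih h hj fun i a b c => hn i (by omega) b (by omega)
      exact ⟨fun a => this.1 (by omega), fun a => this.2 (by omega)⟩

theorem chkAll_mem {Q : Grp} {x0 : ℕ} {tag : ℕ → ℕ} {l : List (List ℕ)} {i : ℕ}
    (h : chkAll n A Z Q x0 tag l i = true) : ∀ p ∈ l, ∃ t, chk n A Z Q x0 p t = true := by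
  induction l generalizing i with
  | nil => simp
  | cons a l ih =>
    have h' : (fN (tag i) (chk n A Z Q x0 a) && fN (Nat.succ i) (chkAll n A Z Q x0 tag l)) = true := h
    rw [Bool.and_eq_true, fN_eq, fN_eq] at h'
    intro p hp
    rcases List.mem_cons.1 hp with rfl | hp
    exacts [⟨_, h'.1⟩, ih h'.2 p hp]

theorem chk_cases {Q : Grp} {x0 t : ℕ} {p : List ℕ} (h : chk n A Z Q x0 p t = true) :
    (∃ g j, Q.aof g ≤ j ∧ g < Q.nG ∧ p ≠ [] ∧ dnB n A Z (Q.ga g) p = true ∧
      (Q.gb g = 0 ∨ upB n A Z (Q.gb g) p = true) ∧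
      scanK n A Q p (Nat.blt j (Q.aof (g + 1)) && eqL (Q.al j) p) (Q.kof (g + 1) - Q.kof g)
        (Q.kof g) = true) ∨
    (p ≠ [] ∧ upB n A Z (maxX Z x0 p) p = true) ∨ 4 ≤ (infS n A Z p).q ∨
    ∃ d, exk n A Z d p = true := by
  have hne : anyL p (fun _ => true) = true → p ≠ [] := fun h e => by
    rw [e] at h; exact absurd h (by simp [anyL])
  simp only [chk, fN_eq, cond_eq_if] at h
  split_ifs at h
  · simp only [Bool.and_eq_true, Bool.or_eq_true, Nat.beq_eq, Nat.blt_eq] at h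
    exact Or.inl ⟨_, _, Nat.le_add_right _ _, h.1.1.1.1, hne h.1.1.1.2, h.1.1.2, h.1.2, h.2⟩
  · rw [Bool.and_eq_true] at h
    exact Or.inr (Or.inl ⟨hne h.1, h.2⟩)
  · exact Or.inr (Or.inr (Or.inl (Nat.le_of_ble_eq_true h)))
  · exact Or.inr (Or.inr (Or.inr ⟨_, h⟩))

theorem chk_nil {Q : Grp} {x0 t : ℕ} : chk n A Z Q x0 [] t ≠ true := fun h => by
  rcases chk_cases h with ⟨_, _, _, _, h, _⟩ | ⟨h, _⟩ | h | ⟨d, h⟩
  · exact h rfl
  · exact h rfl
  · exact absurd h (by simp [infS])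
  · simp [exk, infS] at h

/-- result of the cycle check: one group contains all cycles -/
theorem Ctx.group (h : Ctx r x m n A K Z lim col P) {D : Dfs} {Q : Grp} {x0 : ℕ} (e : okE n A Z D lim = true)
    (eG : okG lim Q = true) (h0 : ∀ b, P b → (x0 : ℝ) ≤ sg * x (n + 1) b)
    (hC : ∀ c, c < lim → ∃ tag c0 cnt, c0 ≤ c ∧ c < c0 + cnt ∧ okC n A Z D Q x0 tag c0 cnt = true)
    {b0 : F} (hb : P b0) : ∃ g, g < Q.nG ∧ ∀ b, P b → cy r m n col b ∈ Q.ex n A g := by
  have h2 := h.h2
  simp only [okG, Bool.and_eq_true, allR_iff, allI_iff, fN_eq, Nat.ble_eq, Nat.blt_eq, Nat.sub_eq,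
    Bool.not_eq_true', ← Bool.not_eq_true, Nat.beq_eq, Nat.succ_eq_add_one] at eG
  obtain ⟨G1, G2⟩ := eG
  set X : ℝ := sg * x (n + 1) b0
  have key : ∀ a, P a → Top r n A D col a → ∃ g j, g < Q.nG ∧ (Q.ga g : ℝ) < X ∧
      (Q.gb g ≠ 0 → X < Q.gb g) ∧ Q.aof g ≤ j ∧
      scanK n A Q (cy r m n col a).reverse (Nat.blt j (Q.aof (g + 1)) &&
        eqL (Q.al j) (cy r m n col a).reverse) (Q.kof (g + 1) - Q.kof g) (Q.kof g) = true := by
    intro a ha ht
    obtain ⟨tag, c0, cnt, c1, c2, c3⟩ := hC _ (h.lt a ha)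
    have c4 := chkAll_mem c3
    obtain ⟨t, c5⟩ := c4 _ ((h.dfs_complete e ha ht c1 c2).resolve_right fun hn =>
      (c4 _ hn).elim fun _ => chk_nil)
    have hL : ∀ c ∈ (orb r n a (m n a)).reverse, P c := fun c hc =>
      h.orbP ha _ c (List.mem_reverse.1 hc)
    have hs : (((orb r n a (m n a)).reverse).map (wed r x n)).sum = 2 * π := by
      rw [List.map_reverse, List.sum_reverse, h.S.orb_sum h2]
    have ep : (cy r m n col a).reverse = (orb r n a (m n a)).reverse.map col := by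
      rw [cy, List.map_reverse]
    rcases chk_cases c5 with ⟨g, j, d1, d2, -, d3, d4, d5⟩ | ⟨-, d⟩ | d | ⟨_, d⟩
    · exact ⟨g, j, d2, h.dn_sound hL hs (ep ▸ d3) hb,
        fun h0 => h.up_sound hL hs (ep ▸ d4.resolve_left h0) hb, d1, d5⟩
    · exact (h.none_sound hL hs h0 (ep ▸ d)).elim
    · exact (h.over_sound hL hs (ep ▸ d)).elim
    · exact (h.exk_sound hL hs (ep ▸ d)).elim
  have mono : ∀ g d, g + d < Q.nG → Q.ga g ≤ Q.ga (g + d) := by
    intro g d
    induction d with
    | zero => exact fun _ => le_rfl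
    | succ d ih => exact fun hd => (ih (by omega)).trans (G1 (g + d) (by omega)).2
  have uq : ∀ g g', g < g' → g' < Q.nG → (Q.gb g ≠ 0 → X < Q.gb g) → (Q.ga g' : ℝ) < X → False := by
    intro g g' a1 a2 a3 a4
    have b1 := (G1 g (by omega)).1
    have b2 := mono (g + 1) (g' - (g + 1)) (by omega)
    rw [show g + 1 + (g' - (g + 1)) = g' by omega] at b2
    have b3 : (Q.gb g : ℝ) ≤ Q.ga g' := by exact_mod_cast b1.2.trans b2
    linarith [a3 b1.1]
  obtain ⟨a0, -, p0, t0, -⟩ := h.exists_top e hb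
  obtain ⟨g, -, g1, g2, g3, -⟩ := key a0 p0 t0
  have key' : ∀ a, P a → Top r n A D col a → ∃ j, Q.aof g ≤ j ∧
      scanK n A Q (cy r m n col a).reverse (Nat.blt j (Q.aof (g + 1)) &&
        eqL (Q.al j) (cy r m n col a).reverse) (Q.kof (g + 1) - Q.kof g) (Q.kof g) = true := by
    intro a ha ht
    obtain ⟨g', j, a1, a2, a3, a4⟩ := key a ha ht
    rcases lt_trichotomy g g' with o | rfl | o
    · exact (uq g g' o a1 g3 a2).elim
    · exact ⟨j, a4⟩
    · exact (uq g' g o g1 a3 g2).elim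
  have hp : ∀ a, P a → ∀ c ∈ (cy r m n col a).reverse, ∃ y, P y ∧ col y = c := fun a ha c hc => by
    obtain ⟨y, hy, e⟩ := List.mem_map.1 (List.mem_reverse.1 hc)
    exact ⟨y, h.orbP ha _ y hy, e⟩
  have kill : ∀ j, Q.kof g ≤ j → j < Q.kof (g + 1) → ∀ c, P c → A.T (col c) ≠ A.T (Q.kil j) := by
    intro j
    induction j using Nat.strong_induction_on with
    | _ j ih =>
      intro j1 j2 c hc ec
      obtain ⟨c', hc', e'⟩ := h.ty c _ hc (G2 g g1 j j1 j2) ec.symm
      obtain ⟨a, i, pa, ta, hi⟩ := h.exists_top e hc'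
      obtain ⟨_, -, sc⟩ := key' a pa ta
      have s1 := (scanK_sound sc j j1 fun i i1 i2 _ u hu => by
        obtain ⟨y, py, rfl⟩ := hp a pa u hu
        exact ih i i2 i1 (by omega) y py).1 (by omega)
      have s2 := h.S.col_mem (col := col) h2 c'
      rw [e'] at s2
      obtain ⟨k, hk | hk⟩ := h.cy_cases pa hi <;> rw [hk, List.mem_rotate] at s2
      · have s3 := List.mem_reverse.2 s2
        exact (s1 ⟨_, s3, rfl⟩ _ s3).1 rfl
      · obtain ⟨u, hu, eu⟩ := List.mem_map.1 s2
        obtain ⟨y, py, rfl⟩ := hp a pa u hu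
        refine (s1 ⟨_, hu, ?_⟩ _ hu).2 eu
        rw [← eu, ← h.cs _ _ (by omega) py, h.ts _ _ (by omega) py]
  refine ⟨g, g1, fun b pb => ?_⟩
  obtain ⟨a, i, pa, ta, hi⟩ := h.exists_top e pb
  obtain ⟨j, j1, sc⟩ := key' a pa ta
  have s1 := (scanK_sound sc _ (Nat.le_add_right _ _) fun i i1 i2 _ u hu => by
    obtain ⟨y, py, rfl⟩ := hp a pa u hu
    exact kill i i1 (by omega) y py).2 le_rfl
  rw [Bool.and_eq_true, Nat.blt_eq] at s1
  refine h.mem_expand pa hi j1 ?_ (eqL_sound s1.2)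
  simp only [Nat.sub_eq, Nat.succ_eq_add_one]
  omega

end

end UP

/-! Free development of the star of a vertex from the stars of the facets. -/

namespace UP

noncomputable section

variable {F : Type} {r : ℕ → F → F} {x : ℕ → F → ℝ} {m : ℕ → F → ℕ} {n lim : ℕ} {A : Aut} {K : Unf} {Z : Num}
  {col : F → ℕ} {P : F → Prop}

/-- `r i` (`1 ≤ i < n`) on the nodes; `U` gives the place of a node in the unfolded stars -/
def stp (K : Unf) (U i k : ℕ) : ℕ := fN (g12 U k) fun u => Nat.sub (Nat.add k (K.R i u)) u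

/-- record `r n a = b` and transport it along the word -/
def link (K : Unf) (U : ℕ) (w : List ℕ) : ℕ → ℕ → ℕ → ℕ :=
  List.rec (fun J a b => fN (s12 J a (Nat.succ b)) fun J1 => s12 J1 b (Nat.succ a))
    (fun i _ ih J a b => fN (s12 J a (Nat.succ b)) fun J1 => fN (s12 J1 b (Nat.succ a)) fun J2 =>
      fN (stp K U i a) fun a' => fN (stp K U i b) fun b' => ih J2 a' b') w

/-- append the piece `[lo, lo + cnt)` -/
def app (lo nn cnt : ℕ) : ℕ → ℕ :=
  Nat.rec (fun U => U) (fun j ih U => fN (s12 U (Nat.add nn j) (Nat.add lo j)) ih) cnt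

/-- the known part of the cycle from node `k0`: states, and the last node -/
def pth {β : Type} (n : ℕ) (K : Unf) (U J k0 f : ℕ) : ℕ → (List ℕ → ℕ → β) → β :=
  Nat.rec (fun k c => fN (K.kap (g12 U k)) fun u => fN (stp K U (Nat.sub n 1) k) fun b => c [u] b)
    (fun _ ih k c => fN (K.kap (g12 U k)) fun u => fN (stp K U (Nat.sub n 1) k) fun b => fN (g12 J b) fun j =>
      cond (Nat.beq j 0 || Nat.beq j (Nat.succ k0)) (c [u] b)
        (fN (Nat.sub j 1) fun k' => ih k' fun l b' => c (u :: l) b')) f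

/-- compare a cycle with a path: `0` mismatch, `1` cycle shorter, `2` equal, `c + 3` the cycle goes on with `c` -/
def mt (e : List ℕ) : List ℕ → ℕ :=
  List.rec (fun p => List.casesOn p 2 fun _ _ => 1)
    (fun c _ ih p => List.casesOn p (Nat.add c 3) fun d t => cond (Nat.beq c d) (ih t) 0) e

def opts (p : List ℕ) (thr : ℕ) (EX : List (List ℕ)) : List ℕ → List ℕ :=
  List.rec (fun acc => acc) (fun e _ ih acc => fN (mt e p) fun o =>
    cond (Nat.beq o 0 || Nat.ble thr o || anyL acc fun y => Nat.beq y o) (ih acc) (ih (o :: acc))) EX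

/-- the lists whose head is `v` modulo `md` -/
def flt (md v : ℕ) (EX : List (List ℕ)) : List (List ℕ) :=
  List.rec [] (fun e _ ih => cond (List.rec true (fun c _ _ => Nat.beq (Nat.mod c md) v) e) (e :: ih) ih) EX

/-- the lists that start like `p` -/
def sel (p : List ℕ) (EX : List (List ℕ)) : List (List ℕ) :=
  List.rec EX (fun c _ _ => fN (Nat.mod c 8) fun u => fN (Nat.mod c 4096) fun v => flt 4096 v (flt 8 u EX)) p

def runO (f : ℕ → ℕ → ℕ) (l : List ℕ) : ℕ → ℕ :=
  List.rec (fun q => q) (fun o _ ih q => fN (f o q) fun q' => cond (Nat.beq q' 0) 0 (ih q')) l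

/-- the development; `ct` is the tape of choices, the result is the next place on the tape, `0` = failure -/
def dev (n : ℕ) (A : Aut) (K : Unf) (wd : List ℕ) (EX : List (List ℕ)) (ct : ℕ → ℕ) (leaf : ℕ → ℕ → ℕ → ℕ → ℕ)
    (fuel : ℕ) : ℕ → ℕ → ℕ → ℕ → ℕ :=
  Nat.rec (fun _ _ _ _ => 0) (fun _ ih nn U J p => fN (ct p) fun t => fN (Nat.succ p) fun p1 =>
    cond (Nat.beq t 0) (leaf nn U J p1) (fN (Nat.sub t 1) fun k => cond (Nat.blt k nn)
      (pth n K U J k 5 k fun l b => fN (cond (Nat.beq (g12 J b) t) 3 100000) fun thr =>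
        runO (fun o q => cond (Nat.blt o 2) 0 (cond (Nat.beq o 2)
          (fN (link K U wd J b k) fun J' => ih nn U J' q)
          (fN (Nat.sub o 3) fun c => fN (A.T c) fun ty => fN (K.klo ty) fun lo => fN (K.ksz ty) fun sz =>
            fN (Nat.add nn sz) fun nn' => cond (Nat.ble nn' 4095)
              (fN (app lo nn sz U) fun U' => fN (Nat.sub (Nat.add nn (K.krep c)) lo) fun k' =>
                fN (link K U' wd J b k') fun J' => ih nn' U' J' q) 0)))
          (opts l thr (sel l EX) []) p1) 0)) fuel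

def rmT (A : Aut) (t : ℕ) (EX : List (List ℕ)) : List (List ℕ) :=
  List.rec [] (fun e _ ih => cond (anyL e fun c => Nat.beq (A.T c) t) ih (e :: ih)) EX

def endE (lim0 : ℕ) (EX : List (List ℕ)) : Bool :=
  List.rec true (fun e _ ih => List.casesOn e true (fun c _ => Nat.blt c lim0) && ih) EX

/-- develop from the types on the tape, one after the other, until no cycle starts with a state `≥ lim0` -/
def roots (n : ℕ) (A : Aut) (K : Unf) (wd : List ℕ) (ct : ℕ → ℕ) (leaf : ℕ → ℕ → ℕ → ℕ → ℕ) (lim0 fuel : ℕ) :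
    List (List ℕ) → ℕ → Bool :=
  Nat.rec (fun _ _ => false) (fun _ ih EX p => fN (ct p) fun t => cond (Nat.beq t 0) (endE lim0 EX)
    (fN (Nat.sub t 1) fun ty => fN (K.ksz ty) fun sz => fN (app (K.klo ty) 0 sz 0) fun U =>
      fN (dev n A K wd EX ct leaf 300 sz U 0 (Nat.succ p)) fun q =>
        !Nat.beq q 0 && fLL (rmT A ty EX) fun EX' => ih EX' q)) fuel

structure Inv (r : ℕ → F → F) (n : ℕ) (K : Unf) (col : F → ℕ) (P : F → Prop) (nn U J : ℕ) (g : ℕ → F) : Prop where
  le : nn ≤ 4095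
  pos : 0 < nn
  zero : ∀ k, nn ≤ k → g12 U k = 0
  mem : ∀ k, k < nn → P (g k)
  cl : ∀ k, k < nn → col (g k) = K.kap (g12 U k)
  st : ∀ k i, k < nn → 1 ≤ i → i < n → stp K U i k < nn ∧ g (stp K U i k) = r i (g k)
  jj : ∀ k, g12 J k ≠ 0 → k < nn ∧ g12 J k - 1 < nn ∧ g (g12 J k - 1) = r n (g k)

theorem Inv.put {nn U J a b : ℕ} {g : ℕ → F} (I : Inv r n K col P nn U J g) (ha : a < nn) (hb : b < nn)
    (e : g b = r n (g a)) : Inv r n K col P nn U (s12 J a (Nat.succ b)) g := by
  refine ⟨I.le, I.pos, I.zero, I.mem, I.cl, I.st, fun k hk => ?_⟩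
  have := I.le
  rw [g12_s12 (by omega)] at hk ⊢
  split_ifs at hk ⊢ with c
  · rw [c.1]
    exact ⟨ha, hb, e⟩
  · exact I.jj k hk

theorem Ctx.link_inv (h : Ctx r x m n A K Z lim col P) {wd : List ℕ} (hw : ∀ i ∈ wd, 1 ≤ i ∧ i + 2 ≤ n)
    {nn U J a b : ℕ} {g : ℕ → F} (I : Inv r n K col P nn U J g) (ha : a < nn) (hb : b < nn)
    (e : g b = r n (g a)) : Inv r n K col P nn U (link K U wd J a b) g := by
  have rr := h.S.rr n (by omega)
  induction wd generalizing J a b with
  | nil =>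
    show Inv r n K col P nn U (fN _ fun J1 => s12 J1 b (Nat.succ a)) g
    rw [fN_eq]
    exact (I.put ha hb e).put hb ha (by rw [e, rr])
  | cons i w ih =>
    show Inv r n K col P nn U (fN _ fun J1 => fN (s12 J1 b (Nat.succ a)) fun J2 =>
      fN (stp K U i a) fun a' => fN (stp K U i b) fun b' => link K U w J2 a' b') g
    simp only [fN_eq]
    obtain ⟨i1, i2⟩ := hw i (by simp)
    obtain ⟨a1, a2⟩ := I.st a i ha i1 (by omega)
    obtain ⟨b1, b2⟩ := I.st b i hb i1 (by omega)
    exact ih (fun j hj => hw j (by simp [hj])) ((I.put ha hb e).put hb ha (by rw [e, rr])) a1 b1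
      (by rw [a2, b2, e, h.S.comm i n i2 (by omega)])

theorem g12_app {lo nn cnt U : ℕ} (h : lo + cnt ≤ 4096) (hz : ∀ k, nn ≤ k → g12 U k = 0) (k : ℕ) :
    g12 (app lo nn cnt U) k = if nn ≤ k ∧ k < nn + cnt then lo + (k - nn) else g12 U k := by
  have key : ∀ cnt U, lo + cnt ≤ 4096 → (∀ k, nn ≤ k → k < nn + cnt → g12 U k = 0) →
      g12 (app lo nn cnt U) k = if nn ≤ k ∧ k < nn + cnt then lo + (k - nn) else g12 U k := by
    intro cnt
    induction cnt with
    | zero =>
      intro U _ _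
      rw [if_neg (by omega)]
      rfl
    | succ j ih =>
      intro U h hz
      have e : app lo nn (j + 1) U = app lo nn j (s12 U (nn + j) (lo + j)) := fN_eq _ _
      rw [e, ih _ (by omega) fun l l1 l2 => by
        rw [g12_s12 (by omega), if_neg (by omega), hz l l1 (by omega)], g12_s12 (by omega),
        hz (nn + j) (by omega) (by omega)]
      split_ifs <;> omega
  exact key cnt U h fun k h1 _ => hz k h1

theorem Ctx.app_core (h : Ctx r x m n A K Z lim col P) {nn U J : ℕ} {g : ℕ → F}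
    (zero : ∀ k, nn ≤ k → g12 U k = 0) (mem : ∀ k, k < nn → P (g k))
    (cl : ∀ k, k < nn → col (g k) = K.kap (g12 U k))
    (st : ∀ k i, k < nn → 1 ≤ i → i < n → stp K U i k < nn ∧ g (stp K U i k) = r i (g k))
    (jj : ∀ k, g12 J k ≠ 0 → k < nn ∧ g12 J k - 1 < nn ∧ g (g12 J k - 1) = r n (g k))
    {b : F} (hb : P b) (hn : nn + K.ksz (A.T (col b)) ≤ 4095) :
    ∃ g' : ℕ → F, (∀ k, k < nn → g' k = g k) ∧
      Inv r n K col P (nn + K.ksz (A.T (col b))) (app (K.klo (A.T (col b))) nn (K.ksz (A.T (col b))) U) J g' ∧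
      nn + K.krep (col b) - K.klo (A.T (col b)) < nn + K.ksz (A.T (col b)) ∧
      g' (nn + K.krep (col b) - K.klo (A.T (col b))) = b := by
  obtain ⟨u1, u2, u3, H, u4, u5⟩ := h.up b hb
  generalize K.klo (A.T (col b)) = lo at *
  generalize K.ksz (A.T (col b)) = sz at *
  have e := g12_app (lo := lo) (cnt := sz) (by omega) zero
  refine ⟨fun k => if k < nn then g k else H (lo + (k - nn)), fun k hk => if_pos hk,
    ⟨hn, by omega, fun k hk => ?_, fun k hk => ?_, fun k hk => ?_, fun k i hk i1 i2 => ?_, fun k hk => ?_⟩,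
    by omega, ?_⟩
  · rw [e, if_neg (by omega), zero k (by omega)]
  · split_ifs with c
    · exact mem k c
    · exact (u5 _ (by omega) (by omega)).1
  · rw [e]
    by_cases c : k < nn
    · rw [if_pos c, if_neg (by omega), cl k c]
    · rw [if_neg c, if_pos (by omega), (u5 _ (by omega) (by omega)).2.1]
  · simp only [stp, fN_eq, Nat.sub_eq, Nat.add_eq] at st ⊢
    rw [e]
    by_cases c : k < nn
    · obtain ⟨a1, a2⟩ := st k i c i1 i2
      rw [if_neg (show ¬ (nn ≤ k ∧ k < nn + sz) by omega), if_pos a1, if_pos c]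
      exact ⟨by omega, a2⟩
    · obtain ⟨a1, a2, a3⟩ := (u5 (lo + (k - nn)) (by omega) (by omega)).2.2 i i1 i2
      rw [if_pos (show nn ≤ k ∧ k < nn + sz by omega), if_neg c, if_neg (by omega), ← a3]
      exact ⟨by omega, congrArg H (by omega)⟩
  · obtain ⟨a1, a2, a3⟩ := jj k hk
    rw [if_pos a1, if_pos a2]
    exact ⟨by omega, by omega, a3⟩
  · beta_reduce
    rw [if_neg (by omega)]
    exact (congrArg H (by omega)).trans u4

/-- a new piece at the flag `b` -/
theorem Ctx.app_inv (h : Ctx r x m n A K Z lim col P) {nn U J : ℕ} {g : ℕ → F} (I : Inv r n K col P nn U J g)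
    {b : F} (hb : P b) (hn : nn + K.ksz (A.T (col b)) ≤ 4095) :
    ∃ g' : ℕ → F, (∀ k, k < nn → g' k = g k) ∧
      Inv r n K col P (nn + K.ksz (A.T (col b))) (app (K.klo (A.T (col b))) nn (K.ksz (A.T (col b))) U) J g' ∧
      nn + K.krep (col b) - K.klo (A.T (col b)) < nn + K.ksz (A.T (col b)) ∧
      g' (nn + K.krep (col b) - K.klo (A.T (col b))) = b := by
  exact h.app_core I.zero I.mem I.cl I.st I.jj hb hn

theorem Ctx.root_inv (h : Ctx r x m n A K Z lim col P) {b : F} (hb : P b) :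
    ∃ g : ℕ → F, Inv r n K col P (K.ksz (A.T (col b))) (app (K.klo (A.T (col b))) 0 (K.ksz (A.T (col b))) 0) 0 g := by
  obtain ⟨g, -, I, -⟩ := h.app_core (nn := 0) (U := 0) (J := 0) (g := fun _ => b) (fun k _ => g12_zero k)
    (by simp) (by simp) (by simp) (by simp [g12_zero]) hb (by have := (h.up b hb).1; omega)
  exact ⟨g, by simpa using I⟩

theorem Ctx.pth_eq (h : Ctx r x m n A K Z lim col P) {nn U J : ℕ} {g : ℕ → F} (I : Inv r n K col P nn U J g)
    {β : Type} (k0 f : ℕ) {k : ℕ} (hk : k < nn) (c : List ℕ → ℕ → β) :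
    ∃ l b, 1 ≤ l ∧ b < nn ∧ r n (g b) = (rot r n)^[l] (g k) ∧
      pth n K U J k0 f k c = c ((orb r n (g k) l).map col) b := by
  have h2 := h.h2
  induction f generalizing k c with
  | zero =>
    obtain ⟨a1, a2⟩ := I.st k (n - 1) hk (by omega) (by omega)
    refine ⟨1, _, le_rfl, a1, by rw [a2]; rfl, ?_⟩
    show (fN _ fun u => fN (stp K U (Nat.sub n 1) k) fun b => c [u] b) = _
    simp [orb, I.cl k hk]
  | succ f ih =>
    obtain ⟨a1, a2⟩ := I.st k (n - 1) hk (by omega) (by omega)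
    have e : pth n K U J k0 (f + 1) k c = fN (K.kap (g12 U k)) fun u => fN (stp K U (Nat.sub n 1) k) fun b =>
      fN (g12 J b) fun j => cond (Nat.beq j 0 || Nat.beq j (Nat.succ k0)) (c [u] b)
        (fN (Nat.sub j 1) fun k' => pth n K U J k0 f k' fun l b' => c (u :: l) b') := rfl
    simp only [e, fN_eq, Nat.sub_eq, cond_eq_if]
    split_ifs with c1
    · exact ⟨1, _, le_rfl, a1, by rw [a2]; rfl, by simp [orb, I.cl k hk]⟩
    · simp only [Bool.or_eq_true, Nat.beq_eq, not_or] at c1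
      obtain ⟨-, b2, b3⟩ := I.jj _ c1.1
      obtain ⟨l, b, l1, l2, l3, l4⟩ := ih b2 fun l b' => c (K.kap (g12 U k) :: l) b'
      have e2 : g (g12 J (stp K U (n - 1) k) - 1) = rot r n (g k) := by rw [b3, a2]; rfl
      rw [e2] at l3 l4
      exact ⟨l + 1, b, by omega, l2, l3, by rw [l4, ← I.cl k hk]; rfl⟩

theorem mt_orb (a : F) (p l : ℕ) : mt ((orb r n a p).map col) ((orb r n a l).map col) =
    if p < l then 1 else if p = l then 2 else col ((rot r n)^[l] a) + 3 := by
  induction p generalizing a l with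
  | zero => cases l <;> rfl
  | succ p ih =>
    cases l with
    | zero => rfl
    | succ l =>
      have e : mt ((orb r n a (p + 1)).map col) ((orb r n a (l + 1)).map col) =
        cond (Nat.beq (col a) (col a))
          (mt ((orb r n (rot r n a) p).map col) ((orb r n (rot r n a) l).map col)) 0 := rfl
      rw [e, ih]
      simp

theorem mem_opts {p : List ℕ} {thr o : ℕ} {EX : List (List ℕ)} {acc : List ℕ}
    (h : o ∈ acc ∨ ∃ e ∈ EX, mt e p = o ∧ o ≠ 0 ∧ o < thr) : o ∈ opts p thr EX acc := by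
  induction EX generalizing acc with
  | nil => simpa [opts] using h
  | cons e EX ih =>
    have e1 : opts p thr (e :: EX) acc = fN (mt e p) fun o =>
      cond (Nat.beq o 0 || Nat.ble thr o || anyL acc fun y => Nat.beq y o) (opts p thr EX acc)
        (opts p thr EX (o :: acc)) := rfl
    simp only [e1, fN_eq, cond_eq_if, Bool.or_eq_true, Nat.beq_eq, Nat.ble_eq, anyL_iff]
    rcases h with h | ⟨e', he, h1, h2, h3⟩
    · split_ifs
      · exact ih (Or.inl h)
      · exact ih (Or.inl (List.mem_cons_of_mem _ h))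
    rcases List.mem_cons.1 he with rfl | he
    · split_ifs with c
      · rcases c with (c | c) | ⟨y, hy, c⟩
        · omega
        · omega
        · exact ih (Or.inl (by rwa [← h1, ← c]))
      · exact ih (Or.inl (by simp [h1]))
    · split_ifs <;> exact ih (Or.inr ⟨e', he, h1, h2, h3⟩)

theorem mem_flt {md c : ℕ} {t : List ℕ} {EX : List (List ℕ)} (h : c :: t ∈ EX) : c :: t ∈ flt md (Nat.mod c md) EX := by
  induction EX with
  | nil => simp at h
  | cons e EX ih =>
    have e1 : flt md (Nat.mod c md) (e :: EX) = cond (List.rec true (fun d _ _ => Nat.beq (Nat.mod d md) (Nat.mod c md)) e)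
      (e :: flt md (Nat.mod c md) EX) (flt md (Nat.mod c md) EX) := rfl
    rw [e1, cond_eq_if]
    rcases List.mem_cons.1 h with rfl | h
    · rw [if_pos (Nat.beq_refl _)]
      simp
    · split_ifs
      · exact List.mem_cons_of_mem _ (ih h)
      · exact ih h

theorem mem_sel {a : F} {p l : ℕ} {EX : List (List ℕ)} (hp : 0 < p) (h : (orb r n a p).map col ∈ EX) :
    (orb r n a p).map col ∈ sel ((orb r n a l).map col) EX := by
  obtain ⟨p, rfl⟩ : ∃ q, p = q + 1 := ⟨p - 1, by omega⟩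
  cases l with
  | zero => exact h
  | succ l =>
    show _ ∈ fN (Nat.mod (col a) 8) fun u => fN (Nat.mod (col a) 4096) fun v => flt 4096 v (flt 8 u EX)
    rw [fN_eq, fN_eq]
    exact mem_flt (mem_flt h)

theorem runO_mem {f : ℕ → ℕ → ℕ} {l : List ℕ} {q o : ℕ} (h : runO f l q ≠ 0) (ho : o ∈ l) : ∃ q', f o q' ≠ 0 := by
  induction l generalizing q with
  | nil => simp at ho
  | cons a l ih =>
    have e1 : runO f (a :: l) q = fN (f a q) fun q' => cond (Nat.beq q' 0) 0 (runO f l q') := rfl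
    simp only [e1, fN_eq, cond_eq_if, Nat.beq_eq] at h
    split_ifs at h with c
    · exact absurd rfl h
    rcases List.mem_cons.1 ho with rfl | ho
    · exact ⟨q, c⟩
    · exact ih h ho

theorem Ctx.dev_sound (h : Ctx r x m n A K Z lim col P) {wd : List ℕ} (hw : ∀ i ∈ wd, 1 ≤ i ∧ i + 2 ≤ n)
    (hl : lim ≤ 4096) {EX : List (List ℕ)} (hE : ∀ b, P b → cy r m n col b ∈ EX) {ct : ℕ → ℕ}
    {leaf : ℕ → ℕ → ℕ → ℕ → ℕ} {Res : Prop}
    (hleaf : ∀ nn U J p g, Inv r n K col P nn U J g → leaf nn U J p ≠ 0 → Res) (fuel : ℕ) :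
    ∀ nn U J p g, Inv r n K col P nn U J g → dev n A K wd EX ct leaf fuel nn U J p ≠ 0 → Res := by
  have h2 := h.h2
  induction fuel with
  | zero => exact fun _ _ _ _ _ _ e => absurd rfl e
  | succ fuel ih =>
    intro nn U J p g I e
    have e1 : dev n A K wd EX ct leaf (fuel + 1) nn U J p = fN (ct p) fun t => fN (Nat.succ p) fun p1 =>
      cond (Nat.beq t 0) (leaf nn U J p1) (fN (Nat.sub t 1) fun k => cond (Nat.blt k nn)
      (pth n K U J k 5 k fun l b => fN (cond (Nat.beq (g12 J b) t) 3 100000) fun thr =>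
        runO (fun o q => cond (Nat.blt o 2) 0 (cond (Nat.beq o 2)
          (fN (link K U wd J b k) fun J' => dev n A K wd EX ct leaf fuel nn U J' q)
          (fN (Nat.sub o 3) fun c => fN (A.T c) fun ty => fN (K.klo ty) fun lo => fN (K.ksz ty) fun sz =>
            fN (Nat.add nn sz) fun nn' => cond (Nat.ble nn' 4095)
              (fN (app lo nn sz U) fun U' => fN (Nat.sub (Nat.add nn (K.krep c)) lo) fun k' =>
                fN (link K U' wd J b k') fun J' => dev n A K wd EX ct leaf fuel nn' U' J' q) 0)))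
          (opts l thr (sel l EX) []) p1) 0) := rfl
    simp only [e1, fN_eq, Nat.sub_eq, Nat.add_eq, cond_eq_if, Nat.beq_eq, Nat.blt_eq, Nat.ble_eq] at e
    split_ifs at e with c1 c2
    · exact hleaf _ _ _ _ g I e
    swap
    · exact absurd rfl e
    generalize hk : ct p - 1 = k at e c2
    obtain ⟨l, b, l1, l2, l3, l4⟩ := h.pth_eq I k 5 c2 _
    rw [l4] at e
    have hP : P ((rot r n)^[l] (g k)) := l3 ▸ h.cl _ _ le_rfl (I.mem b l2)
    have hm := mt_orb (r := r) (n := n) (col := col) (g k) (m n (g k)) l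
    obtain ⟨q, hq⟩ := runO_mem e (mem_opts (o := mt (cy r m n col (g k)) ((orb r n (g k) l).map col))
      (Or.inr ⟨_, mem_sel (by have := h.S.three_le h2 (g k); omega) (hE _ (I.mem k c2)), rfl,
        by rw [cy, hm]; split_ifs <;> omega, by
        rw [cy, hm]
        have := h.lt _ hP
        by_cases c3 : g12 J b = ct p
        · obtain ⟨-, -, b3⟩ := I.jj b (by omega)
          rw [c3, hk, l3] at b3
          have : ¬ l < m n (g k) := fun hc => h.S.first n (by omega) (by omega) _ l l1 hc b3.symm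
          split_ifs <;> omega
        · split_ifs <;> omega⟩))
    rw [cy, hm] at hq
    by_cases d1 : m n (g k) < l
    · simp [d1] at hq
    by_cases d2 : m n (g k) = l
    · simp only [d2, lt_irrefl, if_true, if_false] at hq
      refine ih _ _ _ _ g (h.link_inv hw I l2 c2 ?_) hq
      rw [l3, ← d2, h.S.cyc n (by omega) (by omega)]
    · rw [if_neg d1, if_neg d2, if_neg (by omega), if_neg (by omega), Nat.add_sub_cancel] at hq
      split_ifs at hq with d3
      · obtain ⟨g', g1, I', g2, g3⟩ := h.app_inv I hP d3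
        exact ih _ _ _ _ g' (h.link_inv hw I' (by omega) g2 (by rw [g3, g1 b l2, l3])) hq
      · exact absurd rfl hq

theorem endE_lt {lim0 c : ℕ} {t : List ℕ} {EX : List (List ℕ)} (e : endE lim0 EX = true) (h : c :: t ∈ EX) :
    c < lim0 := by
  induction EX with
  | nil => simp at h
  | cons a EX ih =>
    have e1 : endE lim0 (a :: EX) = (List.casesOn a true (fun c _ => Nat.blt c lim0) && endE lim0 EX) := rfl
    rw [e1, Bool.and_eq_true] at e
    rcases List.mem_cons.1 h with rfl | h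
    · exact Nat.blt_eq.mp e.1
    · exact ih e.2 h

theorem mem_rmT {t : ℕ} {l : List ℕ} {EX : List (List ℕ)} (h : l ∈ EX) (h1 : ∀ c ∈ l, A.T c ≠ t) :
    l ∈ rmT A t EX := by
  induction EX with
  | nil => simp at h
  | cons a EX ih =>
    have e1 : rmT A t (a :: EX) = cond (anyL a fun c => Nat.beq (A.T c) t) (rmT A t EX) (a :: rmT A t EX) := rfl
    simp only [e1, cond_eq_if, anyL_iff, Nat.beq_eq]
    rcases List.mem_cons.1 h with rfl | h
    · rw [if_neg fun ⟨c, hc, e⟩ => h1 c hc e]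
      simp
    · split_ifs
      · exact ih h
      · exact List.mem_cons_of_mem _ (ih h)

theorem Ctx.roots_sound (h : Ctx r x m n A K Z lim col P) {wd : List ℕ} (hw : ∀ i ∈ wd, 1 ≤ i ∧ i + 2 ≤ n)
    (hl : lim ≤ 4096) {ct : ℕ → ℕ} {leaf : ℕ → ℕ → ℕ → ℕ → ℕ} {Res : Prop}
    (hleaf : ∀ nn U J p g, Inv r n K col P nn U J g → leaf nn U J p ≠ 0 → Res) {lim0 : ℕ}
    (h0 : ∃ b, P b ∧ lim0 ≤ col b) (fuel : ℕ) : ∀ EX p, (∀ b, P b → cy r m n col b ∈ EX) →
      roots n A K wd ct leaf lim0 fuel EX p = true → Res := by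
  induction fuel with
  | zero => exact fun _ _ _ e => absurd e Bool.false_ne_true
  | succ fuel ih =>
    intro EX p hE e
    have e1 : roots n A K wd ct leaf lim0 (fuel + 1) EX p = fN (ct p) fun t => cond (Nat.beq t 0) (endE lim0 EX)
      (fN (Nat.sub t 1) fun ty => fN (K.ksz ty) fun sz => fN (app (K.klo ty) 0 sz 0) fun U =>
        fN (dev n A K wd EX ct leaf 300 sz U 0 (Nat.succ p)) fun q =>
          !Nat.beq q 0 && fLL (rmT A ty EX) fun EX' => roots n A K wd ct leaf lim0 fuel EX' q) := rfl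
    simp only [e1, fN_eq, fLL_eq, cond_eq_if, Nat.beq_eq] at e
    split_ifs at e with c
    · obtain ⟨b, hb, l⟩ := h0
      obtain ⟨k, hk⟩ : ∃ k, m n b = k + 1 := ⟨m n b - 1, by have := h.S.three_le h.h2 b; omega⟩
      have := hE b hb
      rw [cy, hk] at this
      exact absurd (endE_lt e this) (by omega)
    simp only [Bool.and_eq_true, Bool.not_eq_true', ← Bool.not_eq_true, Nat.beq_eq] at e
    by_cases c2 : ∃ b, P b ∧ A.T (col b) = Nat.sub (ct p) 1
    · obtain ⟨b, hb, c2⟩ := c2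
      obtain ⟨g, I⟩ := h.root_inv hb
      rw [c2] at I
      exact h.dev_sound hw hl hE hleaf _ _ _ _ _ g I e.1
    · refine ih _ _ (fun b hb => mem_rmT (hE b hb) fun c hc e => c2 ?_) e.2
      obtain ⟨d, hd, rfl⟩ := List.mem_map.1 hc
      exact ⟨d, h.orbP hb _ d hd, e⟩

end

end UP

/-! Analysis of a vertex star: which state can lie at the other end of an edge. -/

namespace UP

noncomputable section

variable {F : Type} {r : ℕ → F → F} {x : ℕ → F → ℝ} {m : ℕ → F → ℕ} {n lim : ℕ} {A : Aut} {K : Unf} {Z : Num}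
  {col : F → ℕ} {P : F → Prop}

/-- automaton of a vertex star: `R i` (`1 ≤ i ≤ n`), facet states `U`, top orders `M`, two-colourings `tt`,
elimination script `scr`, kind of conclusion, place `lo` in the next list -/
structure Star where
  ns : ℕ
  R : ℕ → ℕ → ℕ
  U : ℕ → ℕ
  M : ℕ → ℕ
  tt : ℕ → ℕ
  scr : List ℕ
  kind : ℕ
  lo : ℕ

def SS (r : ℕ → F → F) (n : ℕ) (col : F → ℕ) (St : Star) (b : F) (s : ℕ) : Prop :=
  ∀ w, Wd 1 (n + 1) w → col (act r w b) = St.U (act St.R w s)

/-- build the map from the nodes to the states (the result is always checked) -/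
def bld (K : Unf) (U : ℕ) (St : Star) (ct : ℕ → ℕ) (c : ℕ → ℕ → ℕ) (cnt : ℕ) : ℕ → ℕ → ℕ → ℕ :=
  Nat.rec (fun _ nu p => c nu p) (fun _ ih k nu p => fN (K.kdn (g12 U k)) fun d => fN (Nat.succ k) fun k' =>
    cond (Nat.beq d 0)
      (fN (Nat.add nu (Nat.shiftLeft (ct p) (Nat.mul 12 k))) fun nu' => fN (Nat.succ p) fun p' => ih k' nu' p')
      (fN (Nat.add nu (Nat.shiftLeft (St.R d (g12 nu (stp K U d k))) (Nat.mul 12 k))) fun nu' => ih k' nu' p)) cnt

def leafS (n : ℕ) (K : Unf) (St : Star) (ct : ℕ → ℕ) (nn U J p : ℕ) : ℕ :=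
  bld K U St ct (fun nu p' => cond (allR nn fun k => fN (g12 nu k) fun v => fN (g12 J k) fun j =>
    Nat.blt v St.ns && Nat.beq (St.U v) (K.kap (g12 U k)) && !Nat.beq j 0 &&
      Nat.beq (g12 nu (Nat.sub j 1)) (St.R n v) &&
      allI 1 n fun i => Nat.beq (g12 nu (stp K U i k)) (St.R i v)) p' 0) nn 0 0 p

theorem bld_eq (K : Unf) (U : ℕ) (St : Star) (ct : ℕ → ℕ) (c : ℕ → ℕ → ℕ) (cnt : ℕ) :
    ∀ k nu p, ∃ nu' p', bld K U St ct c cnt k nu p = c nu' p' := by
  induction cnt with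
  | zero => exact fun _ nu p => ⟨nu, p, rfl⟩
  | succ cnt ih =>
    intro k nu p
    have e : bld K U St ct c (cnt + 1) k nu p = fN (K.kdn (g12 U k)) fun d => fN (Nat.succ k) fun k' =>
      cond (Nat.beq d 0)
        (fN (Nat.add nu (Nat.shiftLeft (ct p) (Nat.mul 12 k))) fun nu' => fN (Nat.succ p) fun p' =>
          bld K U St ct c cnt k' nu' p')
        (fN (Nat.add nu (Nat.shiftLeft (St.R d (g12 nu (stp K U d k))) (Nat.mul 12 k))) fun nu' =>
          bld K U St ct c cnt k' nu' p) := rfl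
    simp only [e, fN_eq, cond_eq_if]
    split_ifs <;> exact ih _ _ _

theorem SS.step {St : Star} {b : F} {s i : ℕ} (h : SS r n col St b s) (h1 : 1 ≤ i) (h2 : i ≤ n) :
    SS r n col St (r i b) (St.R i s) :=
  fun w hw => h (i :: w) (au_wd_cons.2 ⟨⟨h1, by omega⟩, hw⟩)

theorem SS.base {St : Star} {b : F} {s : ℕ} (h : SS r n col St b s) : col b = St.U s := h [] (au_wd_nil _ _)

theorem SS_of_rel {St : Star} (Q : F → ℕ → Prop)
    (h1 : ∀ b s, Q b s → ∀ i, 1 ≤ i → i ≤ n → Q (r i b) (St.R i s)) (h2 : ∀ b s, Q b s → col b = St.U s)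
    {b : F} {s : ℕ} (h : Q b s) : SS r n col St b s := by
  intro w hw
  induction w generalizing b s with
  | nil => exact h2 b s h
  | cons j w ih =>
    obtain ⟨a1, a2⟩ := au_wd_cons.1 hw
    exact ih (h1 b s h j a1.1 (by omega)) a2

theorem Ctx.actP (h : Ctx r x m n A K Z lim col P) {w : List ℕ} (hw : Wd 0 (n + 1) w) {b : F} (hb : P b) :
    P (act r w b) := by
  induction w generalizing b with
  | nil => exact hb
  | cons j w ih =>
    obtain ⟨a1, a2⟩ := au_wd_cons.1 hw
    exact ih a2 (h.cl j b (by omega) hb)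

theorem Ctx.ssEqv (h : Ctx r x m n A K Z lim col P) {St : Star} {b c : F} {s : ℕ} (hb : P b) (hc : P c)
    (e : Eqv r m (n + 1) b c) (hS : SS r n col St b s) : SS r n col St c s := fun w hw => by
  have hw' := au_wd_mono hw (Nat.zero_le _) le_rfl
  rw [← hS w hw]
  exact (h.ev _ _ (h.actP hw' hb) (h.actP hw' hc) ((e.act' hw').mono (by omega))).symm

theorem leafS_sound {St : Star} {ct : ℕ → ℕ} {nn U J p : ℕ} {g : ℕ → F} (h1 : 1 ≤ n)
    (I : Inv r n K col P nn U J g) (e : leafS n K St ct nn U J p ≠ 0) :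
    ∃ b s, P b ∧ s < St.ns ∧ SS r n col St b s := by
  obtain ⟨nu, p', e1⟩ := bld_eq K U St ct _ nn 0 0 p
  rw [leafS, e1, cond_eq_if] at e
  split_ifs at e with c
  swap
  · exact absurd rfl e
  simp only [allR_iff, fN_eq, Bool.and_eq_true, Nat.blt_eq, Nat.beq_eq, Bool.not_eq_true', ← Bool.not_eq_true,
    allI_iff, Nat.sub_eq] at c
  refine ⟨g 0, g12 nu 0, I.mem 0 I.pos, (c 0 I.pos).1.1.1.1,
    SS_of_rel (fun b s => ∃ k, k < nn ∧ b = g k ∧ s = g12 nu k) ?_ ?_ ⟨0, I.pos, rfl, rfl⟩⟩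
  · rintro _ _ ⟨k, hk, rfl, rfl⟩ i i1 i2
    obtain ⟨⟨⟨-, a2⟩, a3⟩, a4⟩ := c k hk
    by_cases d : i = n
    · obtain ⟨-, b2, b3⟩ := I.jj k a2
      exact ⟨_, b2, by rw [b3, d], by rw [a3, d]⟩
    · obtain ⟨b1, b2⟩ := I.st k i hk i1 (by omega)
      exact ⟨_, b1, b2.symm, (a4 i i1 (by omega)).symm⟩
  · rintro _ _ ⟨k, hk, rfl, rfl⟩
    rw [I.cl k hk, (c k hk).1.1.1.2]

def okS (n : ℕ) (St : Star) : Bool :=
  Nat.ble St.ns 256 && allR St.ns fun s => allI 1 (Nat.succ n) fun i => Nat.blt (St.R i s) St.ns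

theorem okS_lt {St : Star} (e : okS n St = true) :
    St.ns ≤ 256 ∧ ∀ s, s < St.ns → ∀ i, 1 ≤ i → i ≤ n → St.R i s < St.ns := by
  simp only [okS, Bool.and_eq_true, Nat.ble_eq, allR_iff, allI_iff, Nat.blt_eq] at e
  exact ⟨e.1, fun s hs i h1 h2 => e.2 s hs i h1 (by omega)⟩

/-- every flag has a state -/
theorem Ctx.tot (h : Ctx r x m n A K Z lim col P) {St : Star} (e : okS n St = true)
    (h0 : ∃ b s, P b ∧ s < St.ns ∧ SS r n col St b s) : ∀ b, P b → ∃ s, s < St.ns ∧ SS r n col St b s := by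
  obtain ⟨b0, s0, hb0, h0⟩ := h0
  have key : ∀ w b s, Wd 1 (n + 1) w → s < St.ns → SS r n col St b s →
      ∃ s', s' < St.ns ∧ SS r n col St (act r w b) s' := by
    intro w
    induction w with
    | nil => exact fun b s _ h1 h2 => ⟨s, h1, h2⟩
    | cons j w ih =>
      intro b s hw h1 h2
      obtain ⟨a1, a2⟩ := au_wd_cons.1 hw
      exact ih _ _ a2 ((okS_lt e).2 s h1 j a1.1 (by omega)) (h2.step a1.1 (by omega))
  intro b hb
  obtain ⟨w, hw, rfl⟩ := h.cn b0 b hb0 hb
  clear hb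
  induction w generalizing b0 s0 with
  | nil => exact ⟨s0, h0⟩
  | cons j w ih =>
    obtain ⟨a1, a2⟩ := au_wd_cons.1 hw
    have hP := h.cl j b0 (by omega) hb0
    by_cases c : j = 0
    · subst c
      obtain ⟨w', hw', e'⟩ := h.S.trans (n + 1) (by have := h.h2; omega) le_rfl b0
      obtain ⟨s, s1, s2⟩ := key w' b0 s0 hw' h0.1 h0.2
      exact ih _ s hP ⟨s1, h.ssEqv (h.actP (au_wd_mono hw' (Nat.zero_le _) le_rfl) hb0) hP e'.symm' s2⟩ a2
    · exact ih _ _ hP ⟨(okS_lt e).2 s0 h0.1 j (by omega) (by omega), h0.2.step (by omega) (by omega)⟩ a2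

def vinit (A : Aut) (St : Star) : List ℕ :=
  (Nat.rec (fun acc => acc) (fun s ih acc => fN (A.s 0 (St.U s)) fun z => fN (Nat.mul s 256) fun s' =>
    (Nat.rec ih (fun t jh acc => cond (Nat.beq (St.U t) z) (fN (Nat.add s' t) fun e => jh (e :: acc)) (jh acc))
      St.ns : List ℕ → List ℕ) acc) St.ns : List ℕ → List ℕ) []

def mask (V : List ℕ) : ℕ := (List.rec (fun B => B) (fun e _ ih B => fN (bs B e) ih) V : ℕ → ℕ) 0

def vround (n : ℕ) (St : Star) (V : List ℕ) : List ℕ :=
  fN (mask V) fun B => (List.rec (fun acc => acc) (fun e _ ih acc => fN (Nat.div e 256) fun s =>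
    fN (Nat.mod e 256) fun t => cond (bt B (Nat.add (Nat.mul t 256) s) &&
      allI 2 (Nat.succ n) fun i => bt B (Nat.add (Nat.mul (St.R i s) 256) (St.R i t)))
      (ih (e :: acc)) (ih acc)) V : List ℕ → List ℕ) []

def same (n : ℕ) (St : Star) (d : ℕ) : ℕ → ℕ → Bool :=
  Nat.rec (fun y s => Nat.beq (St.U y) (St.U s)) (fun _ ih y s => Nat.beq (St.U y) (St.U s) &&
    allI 1 (Nat.succ n) fun i => fN (St.R i y) fun y' => fN (St.R i s) fun s' => ih y' s') d

def wstep (St : Star) (V : List ℕ) (B : ℕ) : ℕ :=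
  (List.rec (fun C => C) (fun e _ ih C => cond (bt B (Nat.div e 256)) (fN (bs C (St.R 1 (Nat.mod e 256))) ih)
    (ih C)) V : ℕ → ℕ) 0

def wwalk (St : Star) (V : List ℕ) (cnt : ℕ) : ℕ → ℕ := Nat.rec (fun B => B) (fun _ ih B => fN (wstep St V B) ih) cnt

/-- the walk round the polygon that starts with the pair `e` cannot close -/
def wfail (n : ℕ) (A : Aut) (St : Star) (V : List ℕ) (e : ℕ) : Bool :=
  fN (Nat.div e 256) fun s => fN (A.M 1 (St.U s)) fun p => !Nat.beq p 0 &&
    fN (wwalk St V (Nat.sub p 1) (bs 0 (St.R 1 (Nat.mod e 256)))) fun B =>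
      allR St.ns fun y => !(bt B y && same n St 5 y s)

def rmE (e : ℕ) (V : List ℕ) : List ℕ := List.rec [] (fun a _ ih => cond (Nat.beq a e) ih (a :: ih)) V

def runV (n : ℕ) (A : Aut) (St : Star) (k : List ℕ → Bool) (scr : List ℕ) : List ℕ → Bool :=
  List.rec k (fun o _ ih V => cond (Nat.beq o 0) (fL (vround n St V) ih)
    (fN (Nat.sub o 1) fun e => wfail n A St V e && fL (rmE e V) ih)) scr

/-- `V` contains all pairs of states at the two ends of an edge -/
def VI (r : ℕ → F → F) (n : ℕ) (col : F → ℕ) (P : F → Prop) (St : Star) (V : List ℕ) : Prop :=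
  ∀ b s t, P b → s < St.ns → t < St.ns → SS r n col St b s → SS r n col St (r 0 b) t → s * 256 + t ∈ V

theorem Ctx.vinit_VI (h : Ctx r x m n A K Z lim col P) (St : Star) : VI r n col P St (vinit A St) := by
  intro b s t hb hs ht h1 h2
  have e : St.U t = A.s 0 (St.U s) := by
    rw [← h2.base, ← h1.base, h.cs 0 b (by have := h.h2; omega) hb]
  simp only [vinit, fN_eq, cond_eq_if, Nat.beq_eq, Nat.mul_eq, Nat.add_eq]
  have key : ∀ (l : ℕ) (acc : List ℕ), s * 256 + t ∈ acc ∨ s < l → s * 256 + t ∈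
      (Nat.rec (fun acc => acc) (fun s ih acc => (Nat.rec ih (fun t jh acc =>
        if St.U t = A.s 0 (St.U s) then jh ((s * 256 + t) :: acc) else jh acc) St.ns : List ℕ → List ℕ) acc) l :
          List ℕ → List ℕ) acc := by
    intro l
    induction l with
    | zero => exact fun acc h => h.resolve_right (by omega)
    | succ l ih =>
      have inner : ∀ (q : ℕ) (f : List ℕ → List ℕ),
          (∀ acc, s * 256 + t ∈ acc ∨ s < l → s * 256 + t ∈ f acc) →
          ∀ acc, (s * 256 + t ∈ acc ∨ s < l) ∨ (s = l ∧ t < q) → s * 256 + t ∈ (Nat.rec f (fun t jh acc =>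
            if St.U t = A.s 0 (St.U l) then jh ((l * 256 + t) :: acc) else jh acc) q : List ℕ → List ℕ) acc := by
        intro q f hf
        induction q with
        | zero => exact fun acc h => hf acc (h.resolve_right (by omega))
        | succ q jh =>
          intro acc h
          dsimp only
          split_ifs with c
          · refine jh _ ?_
            rcases h with (h | h) | ⟨rfl, h⟩
            · exact Or.inl (Or.inl (List.mem_cons_of_mem _ h))
            · exact Or.inl (Or.inr h)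
            · by_cases d : t = q
              · exact Or.inl (Or.inl (by simp [d]))
              · exact Or.inr ⟨rfl, by omega⟩
          · refine jh _ (h.imp_right ?_)
            rintro ⟨rfl, h⟩
            exact ⟨rfl, lt_of_le_of_ne (by omega) fun d => c (d ▸ e)⟩
      intro acc h
      refine inner St.ns _ ih acc ?_
      rcases h with h | h
      · exact Or.inl (Or.inl h)
      · by_cases d : s = l
        · exact Or.inr ⟨d, ht⟩
        · exact Or.inl (Or.inr (by omega))
  exact key _ _ (Or.inr hs)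

theorem bt_mask {V : List ℕ} {e : ℕ} (h : e ∈ V) : bt (mask V) e = true := by
  simp only [mask, fN_eq]
  have key : ∀ (V : List ℕ) (B : ℕ), bt B e = true ∨ e ∈ V →
      bt ((List.rec (fun B => B) (fun e _ ih B => ih (bs B e)) V : ℕ → ℕ) B) e = true := by
    intro V
    induction V with
    | nil => exact fun B h => h.resolve_right (by simp)
    | cons a V ih =>
      intro B h
      refine ih _ ?_
      rw [bt_bs]
      rcases h with h | h
      · simp [h]
      · rcases List.mem_cons.1 h with h | h <;> simp [h]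
  exact key V 0 (Or.inr h)

theorem mem_filt (c : ℕ → Bool) {e : ℕ} (he : c e = true) (V : List ℕ) : ∀ acc : List ℕ, e ∈ acc ∨ e ∈ V →
    e ∈ (List.rec (fun acc => acc) (fun e _ ih acc => cond (c e) (ih (e :: acc)) (ih acc)) V :
      List ℕ → List ℕ) acc := by
  induction V with
  | nil => exact fun acc h => h.resolve_right (by simp)
  | cons a V ih =>
    intro acc h
    dsimp only
    rw [cond_eq_if]
    split_ifs with d
    · refine ih _ ?_
      simp only [List.mem_cons] at h ⊢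
      tauto
    · refine ih _ (h.imp_right fun h => (List.mem_cons.1 h).resolve_left fun e' : e = a => d (e' ▸ he))

theorem st_div {s t : ℕ} (h : t < 256) : (s * 256 + t) / 256 = s := by omega

theorem st_mod {s t : ℕ} (h : t < 256) : (s * 256 + t) % 256 = t := by omega

theorem Ctx.vround_VI (h : Ctx r x m n A K Z lim col P) {St : Star} (e : okS n St = true) {V : List ℕ}
    (hV : VI r n col P St V) : VI r n col P St (vround n St V) := by
  intro b s t hb hs ht h1 h2
  obtain ⟨e1, e2⟩ := okS_lt e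
  simp only [vround, fN_eq]
  refine mem_filt (fun e => bt (mask V) (Nat.add (Nat.mul (Nat.mod e 256) 256) (Nat.div e 256)) &&
    allI 2 (Nat.succ n) fun i => bt (mask V)
      (Nat.add (Nat.mul (St.R i (Nat.div e 256)) 256) (St.R i (Nat.mod e 256)))) ?_ V []
    (Or.inr (hV b s t hb hs ht h1 h2))
  simp only [au_div, au_mod, st_div (show t < 256 by omega), st_mod (show t < 256 by omega), Bool.and_eq_true,
    allI_iff, Nat.add_eq, Nat.mul_eq]
  refine ⟨bt_mask (hV (r 0 b) t s (h.cl 0 b (by omega) hb) ht hs h2 (by rwa [h.S.rr 0 (by omega)])),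
    fun i i1 i2 => bt_mask (hV (r i b) _ _ (h.cl i b (by omega) hb) (e2 s hs i (by omega) (by omega))
      (e2 t ht i (by omega) (by omega)) (h1.step (by omega) (by omega)) ?_)⟩
  rw [h.S.comm 0 i i1 i2]
  exact h2.step (by omega) (by omega)

theorem same_of {St : Star} (d : ℕ) : ∀ (b : F) (y s : ℕ), SS r n col St b y → SS r n col St b s →
    same n St d y s = true := by
  induction d with
  | zero => exact fun b y s h1 h2 => Nat.beq_eq.mpr (by rw [← h1.base, h2.base])
  | succ d ih =>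
    intro b y s h1 h2
    have e : same n St (d + 1) y s = (Nat.beq (St.U y) (St.U s) &&
      allI 1 (Nat.succ n) fun i => fN (St.R i y) fun y' => fN (St.R i s) fun s' => same n St d y' s') := rfl
    simp only [e, fN_eq, Bool.and_eq_true, allI_iff, Nat.beq_eq]
    exact ⟨by rw [← h1.base, h2.base], fun i i1 i2 =>
      ih _ _ _ (h1.step i1 (by omega)) (h2.step i1 (by omega))⟩

theorem bt_wstep {St : Star} {V : List ℕ} {B s t : ℕ} (ht : t < 256) (h : s * 256 + t ∈ V) (hB : bt B s = true) :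
    bt (wstep St V B) (St.R 1 t) = true := by
  simp only [wstep, fN_eq, cond_eq_if, au_div, au_mod]
  have key : ∀ (V : List ℕ) (C : ℕ), bt C (St.R 1 t) = true ∨ s * 256 + t ∈ V →
      bt ((List.rec (fun C => C) (fun e _ ih C => if bt B (e / 256) = true then ih (bs C (St.R 1 (e % 256)))
        else ih C) V : ℕ → ℕ) C) (St.R 1 t) = true := by
    intro V
    induction V with
    | nil => exact fun B h => h.resolve_right (by simp)
    | cons a V ih =>
      intro C h
      dsimp only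
      split_ifs with c
      · refine ih _ ?_
        rw [bt_bs]
        rcases h with h | h
        · simp [h]
        · rcases List.mem_cons.1 h with h | h
          · simp [← h, st_mod ht]
          · simp [h]
      · refine ih _ (h.imp_right fun h => (List.mem_cons.1 h).resolve_left fun e => c ?_)
        rwa [← e, st_div ht]
  exact key V 0 (Or.inr h)

theorem Ctx.wwalk_sound (h : Ctx r x m n A K Z lim col P) {St : Star} (e : okS n St = true)
    (h0 : ∃ b s, P b ∧ s < St.ns ∧ SS r n col St b s) {V : List ℕ} (hV : VI r n col P St V) (cnt : ℕ) :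
    ∀ (c : F) (y B : ℕ), P c → y < St.ns → SS r n col St c y → bt B y = true →
      ∃ y', y' < St.ns ∧ SS r n col St ((rot r 1)^[cnt] c) y' ∧ bt (wwalk St V cnt B) y' = true := by
  have h2 := h.h2
  obtain ⟨e1, e2⟩ := okS_lt e
  induction cnt with
  | zero => exact fun c y B _ a1 a2 a3 => ⟨y, a1, a2, a3⟩
  | succ cnt ih =>
    intro c y B hc a1 a2 a3
    have hP := h.cl 0 c (by omega) hc
    obtain ⟨t, t1, t2⟩ := h.tot e h0 _ hP
    have e3 : wwalk St V (cnt + 1) B = wwalk St V cnt (wstep St V B) := fN_eq _ _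
    rw [e3]
    exact ih (r 1 (r 0 c)) _ _ (h.cl 1 _ (by omega) hP) (e2 t t1 1 le_rfl (by omega)) (t2.step le_rfl (by omega))
      (bt_wstep (by omega) (hV c y t hc a1 t1 a2 t2) a3)

theorem cd_eq {p q : ℕ} (h : cd p = q) (h0 : q ≠ 0) : p = q := by
  unfold cd at h
  split_ifs at h <;> omega

theorem Ctx.wfail_sound (h : Ctx r x m n A K Z lim col P) {St : Star} (e : okS n St = true)
    (h0 : ∃ b s, P b ∧ s < St.ns ∧ SS r n col St b s) {V : List ℕ} (hV : VI r n col P St V) {b : F} {s t : ℕ}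
    (hb : P b) (hs : s < St.ns) (ht : t < St.ns) (h1 : SS r n col St b s) (h2 : SS r n col St (r 0 b) t) :
    wfail n A St V (s * 256 + t) ≠ true := by
  intro c
  have n2 := h.h2
  obtain ⟨e1, e2⟩ := okS_lt e
  simp only [wfail, fN_eq, au_div, au_mod, st_div (show t < 256 by omega), st_mod (show t < 256 by omega),
    Bool.and_eq_true, allR_iff, Bool.not_eq_true', ← Bool.not_eq_true, Nat.beq_eq, Nat.sub_eq] at c
  have e3 := cd_eq ((h.cm 1 b le_rfl (by omega) hb).trans (by rw [h1.base])) c.1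
  obtain ⟨y, y1, y2, y3⟩ := h.wwalk_sound e h0 hV (A.M 1 (St.U s) - 1) (rot r 1 b) (St.R 1 t)
    (bs 0 (St.R 1 t)) (h.cl 1 _ (by omega) (h.cl 0 b (by omega) hb)) (e2 t ht 1 le_rfl (by omega))
    (h2.step le_rfl (by omega)) (by simp [bt_bs])
  rw [← Function.iterate_succ_apply, show (A.M 1 (St.U s) - 1).succ = m 1 b by have := c.1; omega,
    h.S.cyc 1 le_rfl (by omega)] at y2
  exact c.2 y y1 ⟨y3, same_of 5 b y s y2 h1⟩

theorem mem_rmE {a e : ℕ} {V : List ℕ} (h : a ∈ V) (hne : e ≠ a) : a ∈ rmE e V := by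
  induction V with
  | nil => simp at h
  | cons c V ih =>
    have e1 : rmE e (c :: V) = cond (Nat.beq c e) (rmE e V) (c :: rmE e V) := rfl
    simp only [e1, cond_eq_if, Nat.beq_eq]
    rcases List.mem_cons.1 h with rfl | h
    · rw [if_neg hne.symm]
      simp
    · split_ifs
      · exact ih h
      · exact List.mem_cons_of_mem _ (ih h)

theorem Ctx.runV_sound (h : Ctx r x m n A K Z lim col P) {St : Star} (e : okS n St = true)
    (h0 : ∃ b s, P b ∧ s < St.ns ∧ SS r n col St b s) {k : List ℕ → Bool} (scr : List ℕ) :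
    ∀ V, VI r n col P St V → runV n A St k scr V = true → ∃ V', VI r n col P St V' ∧ k V' = true := by
  induction scr with
  | nil => exact fun V h1 h2 => ⟨V, h1, h2⟩
  | cons o scr ih =>
    intro V h1 h2
    have e1 : runV n A St k (o :: scr) V = cond (Nat.beq o 0) (fL (vround n St V) (runV n A St k scr))
      (fN (Nat.sub o 1) fun e => wfail n A St V e && fL (rmE e V) (runV n A St k scr)) := rfl
    simp only [e1, fN_eq, fL_eq, cond_eq_if] at h2
    split_ifs at h2
    · exact ih _ (h.vround_VI e h1) h2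
    · rw [Bool.and_eq_true] at h2
      exact ih _ (fun b s t hb hs ht a1 a2 => mem_rmE (h1 b s t hb hs ht a1 a2)
        fun c => h.wfail_sound e h0 h1 hb hs ht a1 a2 (c ▸ h2.1)) h2.2

def seqS (n : ℕ) (St : Star) (l : ℕ) : ℕ → List ℕ :=
  Nat.rec (fun _ => []) (fun _ ih s => fN (St.R n (St.R (Nat.sub n 1) s)) fun s' => St.U s :: ih s') l

def pre (e : List ℕ) : List ℕ → Bool :=
  List.rec (fun _ => true) (fun c _ ih l => List.casesOn l true fun d t => Nat.beq c d && ih t) e

def len (l : List ℕ) : ℕ := List.rec 0 (fun _ _ ih => Nat.succ ih) l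

theorem len_eq (l : List ℕ) : len l = l.length := by
  induction l with
  | nil => rfl
  | cons a l ih => exact congrArg Nat.succ ih

/-- the lengths that occur -/
def lens (EX : List (List ℕ)) : List ℕ → List ℕ :=
  List.rec (fun a => a) (fun e _ ih a => fN (len e) fun p => cond (anyL a fun y => Nat.beq y p) (ih a) (ih (p :: a))) EX

theorem mem_lens {EX : List (List ℕ)} {p : ℕ} {a : List ℕ} (h : p ∈ a ∨ ∃ e ∈ EX, e.length = p) : p ∈ lens EX a := by
  induction EX generalizing a with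
  | nil => simpa [lens] using h
  | cons e EX ih =>
    have e1 : lens (e :: EX) a =
      fN (len e) fun p => cond (anyL a fun y => Nat.beq y p) (lens EX a) (lens EX (p :: a)) := rfl
    simp only [e1, fN_eq, cond_eq_if, anyL_iff, Nat.beq_eq, len_eq]
    simp only [List.mem_cons, exists_eq_or_imp] at h
    split_ifs with c
    · obtain ⟨y, hy, c⟩ := c
      exact ih (h.elim Or.inl fun h => h.imp_left fun h => by rwa [← h, ← c])
    · exact ih (h.elim (fun h => Or.inl (List.mem_cons_of_mem _ h)) fun h => h.imp_left fun h => by simp [h])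

def drp (p : ℕ) : List ℕ → List ℕ := Nat.rec (fun l => l) (fun _ ih l => List.rec [] (fun _ t _ => ih t) l) p

/-- the length of the top cycle is determined -/
def topM (n : ℕ) (St : Star) (EX : List (List ℕ)) : Bool :=
  fL (lens EX []) fun LL => allR St.ns fun s => fN (St.M s) fun q => Nat.blt q 13 &&
    ((allL LL fun p => Nat.beq p q) || fL (seqS n St 7 s) fun l =>
      (allL LL fun p => Nat.beq p q || !pre (drp p l) l) ||
        List.rec true (fun e _ ih => (!pre e l || Nat.beq e.length q || !pre (e ++ e) l) && ih) EX)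

theorem Ctx.topM_sound (h : Ctx r x m n A K Z lim col P) {St : Star} {EX : List (List ℕ)}
    (hE : ∀ b, P b → cy r m n col b ∈ EX) (e : topM n St EX = true) {b : F} {s : ℕ} (hb : P b) (hs : s < St.ns)
    (hS : SS r n col St b s) : m n b = St.M s ∧ St.M s < 13 := by
  have n2 := h.h2
  simp only [topM, allR_iff, fL_eq, fN_eq, Bool.and_eq_true, Nat.blt_eq, Bool.or_eq_true, allL_iff, Nat.beq_eq] at e
  obtain ⟨e1, e2⟩ := e s hs
  have hm : m n b ∈ lens EX [] := mem_lens (Or.inr ⟨_, hE b hb, by simp [cy, orb_eq]⟩)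
  refine ⟨?_, e1⟩
  rcases e2 with e2 | e2
  · exact e2 _ hm
  have seq : ∀ (l : ℕ) (b : F) (s : ℕ), SS r n col St b s → seqS n St l s = (orb r n b l).map col := by
    intro l
    induction l with
    | zero => exact fun _ _ _ => rfl
    | succ l ih =>
      intro b s hS
      have e : seqS n St (l + 1) s = St.U s :: seqS n St l (St.R n (St.R (n - 1) s)) :=
        fN_eq _ fun s' => St.U s :: seqS n St l s'
      rw [e, ih _ _ ((hS.step (i := n - 1) (by omega) (by omega)).step (by omega) le_rfl), ← hS.base]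
      rfl
  have pr : ∀ (p l : ℕ) (b : F), pre ((orb r n b p).map col) ((orb r n b l).map col) = true := by
    intro p
    induction p with
    | zero => exact fun _ _ => rfl
    | succ p ih =>
      intro l b
      cases l with
      | zero => rfl
      | succ l =>
        have e : pre ((orb r n b (p + 1)).map col) ((orb r n b (l + 1)).map col) = (Nat.beq (col b) (col b) &&
          pre ((orb r n (rot r n b) p).map col) ((orb r n (rot r n b) l).map col)) := rfl
        rw [e, ih]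
        simp
  have all : ∀ (EX : List (List ℕ)) (f : List ℕ → Bool),
      (List.rec true (fun e _ ih => f e && ih) EX : Bool) = true → ∀ e ∈ EX, f e = true := by
    intro EX f
    induction EX with
    | nil => simp
    | cons a EX ih =>
      intro h e he
      dsimp only at h
      rw [Bool.and_eq_true] at h
      rcases List.mem_cons.1 he with rfl | he
      · exact h.1
      · exact ih h.2 e he
  have ad : ∀ (p q : ℕ) (b : F), orb r n b (p + q) = orb r n b p ++ orb r n ((rot r n)^[p] b) q := by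
    intro p q
    induction p with
    | zero => intro b; rw [Nat.zero_add]; rfl
    | succ p ih => intro b; rw [Nat.succ_add, orb, ih, orb]; rfl
  have dr : ∀ (p l : ℕ) (b : F), drp p ((orb r n b l).map col) = (orb r n ((rot r n)^[p] b) (l - p)).map col := by
    intro p
    induction p with
    | zero => exact fun _ _ => rfl
    | succ p ih =>
      intro l b
      cases l with
      | zero => rw [Nat.zero_sub]; rfl
      | succ l => rw [Nat.succ_sub_succ]; exact ih l _
  rcases e2 with e2 | e2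
  · refine (e2 _ hm).resolve_right ?_
    rw [seq 7 b s hS, dr, h.S.cyc n (by omega) (by omega), pr]
    simp
  have := all EX (fun e => !pre e (seqS n St 7 s) || Nat.beq e.length (St.M s) || !pre (e ++ e) (seqS n St 7 s))
    e2 _ (hE b hb)
  have e3 := ad (m n b) (m n b) b
  rw [h.S.cyc n (by omega) (by omega)] at e3
  rw [seq 7 b s hS, cy, ← List.map_append, ← e3, pr, pr] at this
  simpa [orb_eq] using this

/-- conditions on the two-colouring `tt s` (bits `1 … N`) of the steps of a flag -/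
def okT (N : ℕ) (R Mf : ℕ → ℕ → ℕ) (tt : ℕ → ℕ) (s : ℕ) : Bool :=
  fN (tt s) fun t => (anyI 1 N fun i => bt t i != bt t (Nat.succ i)) &&
    (bt t 1 == bt t 2 || Nat.beq (Mf 1 s) 4) &&
    (allI 2 N fun i => (bt t (Nat.sub i 1) == bt t i && bt t i == bt t (Nat.succ i)) || Nat.beq (Mf i s) 3) &&
    allI 1 N fun i => fN (tt (R i s)) fun t' =>
      (fun f : ℕ → Bool => (allI 1 (Nat.succ N) fun j => f j == bt t' j) || allI 1 (Nat.succ N) fun j => f j != bt t' j)
        fun j => bt t (cond (Nat.beq j i) (Nat.succ i) (cond (Nat.beq j (Nat.succ i)) i j))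

theorem Sys.prod_rel {N : ℕ} (S : Sys N r x m) (h2 : 2 ≤ N) {R Mf : ℕ → ℕ → ℕ} {tt : ℕ → ℕ} (Q : F → ℕ → Prop)
    (hs : ∀ b s i, Q b s → 1 ≤ i → i < N → Q (r i b) (R i s))
    (h0 : ∀ b s, Q b s → ∃ t, Q (r 0 b) t ∧ tt t = tt s)
    (hm : ∀ b s i, Q b s → 1 ≤ i → i < N → cd (m i b) = Mf i s)
    (hok : ∀ b s, Q b s → okT N R Mf tt s = true) {a : F} {s : ℕ} (ha : Q a s) :
    Prod r x N a ∧ ∀ i, 1 ≤ i → i < N → bt (tt s) i ≠ bt (tt s) (i + 1) →
      x i a + x i (r i a) = x (i - 1) a + x (i + 1) a := by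
  simp only [okT, fN_eq, Bool.and_eq_true, Bool.or_eq_true, anyI_iff, allI_iff, Nat.beq_eq, beq_iff_eq,
    bne_iff_ne, Nat.sub_eq, Nat.succ_eq_add_one, cond_eq_if] at hok
  let T : F → (ℕ → Bool) → Prop := fun b t => ∃ s c, Q b s ∧ ∀ j, 1 ≤ j → j ≤ N → t j = xor c (bt (tt s) j)
  have t0 : T a (bt (tt s)) := ⟨s, false, ha, by simp⟩
  have t1 : ∀ b t, T b t → ∀ i, 1 ≤ i → i < N → T (r i b) (t ∘ Equiv.swap i (i + 1)) := by
    rintro b t ⟨s, c, hq, ht⟩ i i1 i2
    have e : ∀ j, 1 ≤ j → j ≤ N → (t ∘ Equiv.swap i (i + 1)) j =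
        xor c (bt (tt s) (if j = i then i + 1 else if j = i + 1 then i else j)) := fun j j1 j2 => by
      rw [Function.comp_apply, Equiv.swap_apply_def]
      exact ht _ (by split_ifs <;> omega) (by split_ifs <;> omega)
    rcases (hok b s hq).2 i i1 i2 with k | k
    · exact ⟨_, c, hs b s i hq i1 i2, fun j j1 j2 => by rw [e j j1 j2, k j j1 (by omega)]⟩
    · refine ⟨_, !c, hs b s i hq i1 i2, fun j j1 j2 => ?_⟩
      rw [e j j1 j2]
      have := k j j1 (by omega)
      revert this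
      generalize bt (tt s) _ = y
      generalize bt (tt (R i s)) j = z
      cases c <;> cases y <;> cases z <;> simp
  have t2 : ∀ b t, T b t → 1 < N → t 1 ≠ t 2 → m 1 b = 4 := by
    rintro b t ⟨s, c, hq, ht⟩ h1 hne
    refine cd_eq ((hm b s 1 hq le_rfl h1).trans (((hok b s hq).1.1.2).resolve_left fun e => hne ?_)) (by omega)
    rw [ht 1 le_rfl (by omega), ht 2 (by omega) h2, e]
  have t3 : ∀ b t, T b t → ∀ i, 2 ≤ i → i < N → ¬ (t (i - 1) = t i ∧ t i = t (i + 1)) → m i b = 3 := by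
    rintro b t ⟨s, c, hq, ht⟩ i i1 i2 hne
    refine cd_eq ((hm b s i hq (by omega) i2).trans
      (((hok b s hq).1.2 i i1 i2).resolve_left fun e => hne ?_)) (by omega)
    rw [ht (i - 1) (by omega) (by omega), ht i (by omega) (by omega), ht (i + 1) (by omega) (by omega), e.1, e.2]
    exact ⟨rfl, rfl⟩
  refine ⟨S.prod_of le_rfl T ?_ (fun b t hT => ⟨?_, t1 b t hT⟩) t2 t3, fun i i1 i2 hne => ?_⟩
  · obtain ⟨i, i1, i2, hne⟩ := (hok a s ha).1.1.1
    exact ⟨_, i, i + 1, t0, i1, by omega, by omega, by omega, hne⟩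
  · obtain ⟨s, c, hq, ht⟩ := hT
    obtain ⟨s', q1, q2⟩ := h0 b s hq
    exact ⟨s', c, q1, by rwa [q2]⟩
  · obtain ⟨l, rfl⟩ : ∃ l, i = l + 1 := ⟨i - 1, by omega⟩
    exact S.rect le_rfl T t1 t2 t3 l i2 a _ t0 hne

/-- kinds: `0` impossible, `1` listed in `B`, `2` reflective, `3` product (`2`, `3` only at the top level) -/
def starOK (n : ℕ) (A B : Aut) (top : Bool) (EX : List (List ℕ)) (St : Star) : Bool :=
  okS n St && fL (vinit A St) (runV n A St (fun V => fN St.kind fun kd =>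
    cond (Nat.beq kd 0)
      ((allR St.ns fun s => Nat.beq s 0 || anyI 1 (Nat.succ n) fun i => Nat.blt (St.R i s) s) &&
        allL V fun e => Nat.ble 256 e)
      (topM n St EX && cond top
        (cond (Nat.beq kd 2)
          ((allR St.ns fun s => fN (St.U s) fun c => allI 1 n fun i => !Nat.beq (A.M i c) 0) &&
            allL V fun e => Nat.beq (Nat.div e 256) (Nat.mod e 256))
          ((allR St.ns (okT (Nat.succ n) St.R (fun i s => cond (Nat.beq i n) (St.M s) (A.M i (St.U s))) St.tt)) &&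
            allL V fun e => Nat.beq (St.tt (Nat.div e 256)) (St.tt (Nat.mod e 256))))
        (Nat.ble (Nat.add St.lo St.ns) B.S &&
          (allR St.ns fun s => fN (Nat.add St.lo s) fun u => Nat.beq (B.M n u) (St.M s) &&
            (allI 1 n fun i => Nat.beq (B.M i u) (A.M i (St.U s))) &&
            allI 1 (Nat.succ n) fun i => Nat.beq (B.s i u) (Nat.add St.lo (St.R i s))) &&
          allL V fun e => Nat.beq (B.s 0 (Nat.add St.lo (Nat.div e 256))) (Nat.add St.lo (Nat.mod e 256)))))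
    St.scr)

/-- the result of one level -/
def Res (r : ℕ → F → F) (x : ℕ → F → ℝ) (m : ℕ → F → ℕ) (n : ℕ) (B : Aut) (top : Bool) (P : F → Prop) : Prop :=
  ∀ a, P a → cond top (Mirror r m (n + 1) a ∨ Prod r x (n + 1) a) (∃ u, u < B.S ∧ Sim r m (n + 1) B a u)

theorem Ctx.star_sound (h : Ctx r x m n A K Z lim col P) {B : Aut} {top : Bool} {EX : List (List ℕ)} {St : Star}
    (hE : ∀ b, P b → cy r m n col b ∈ EX) (e : starOK n A B top EX St = true)
    (h0 : ∃ b s, P b ∧ s < St.ns ∧ SS r n col St b s) : Res r x m n B top P := by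
  have n2 := h.h2
  simp only [starOK, Bool.and_eq_true, fL_eq] at e
  obtain ⟨eS, e⟩ := e
  obtain ⟨e1, e2⟩ := okS_lt eS
  obtain ⟨V, hV, e⟩ := h.runV_sound eS h0 _ _ (h.vinit_VI St) e
  have tot := h.tot eS h0
  have nxt : ∀ b s, P b → s < St.ns → SS r n col St b s →
      ∃ t, t < St.ns ∧ SS r n col St (r 0 b) t ∧ s * 256 + t ∈ V := fun b s hb hs hS => by
    obtain ⟨t, t1, t2⟩ := tot _ (h.cl 0 b (by omega) hb)
    exact ⟨t, t1, t2, hV b s t hb hs t1 hS t2⟩
  simp only [fN_eq, cond_eq_if, Nat.beq_eq] at e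
  by_cases k0 : St.kind = 0
  · exfalso
    simp only [k0, if_true, Bool.and_eq_true, allR_iff, allL_iff, Bool.or_eq_true, anyI_iff, Nat.beq_eq,
      Nat.blt_eq, Nat.ble_eq] at e
    obtain ⟨b, s, hb, hs, hS⟩ := h0
    induction s using Nat.strong_induction_on generalizing b with
    | _ s ih =>
      rcases e.1 s hs with rfl | ⟨i, i1, i2, c⟩
      · obtain ⟨t, t1, -, t3⟩ := nxt b 0 hb hs hS
        have := e.2 _ t3
        omega
      · exact ih _ c (r i b) (h.cl i b (by omega) hb) (by omega) (hS.step i1 (by omega))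
  rw [if_neg k0, Bool.and_eq_true] at e
  obtain ⟨eM, e⟩ := e
  have tM := fun b s hb hs hS => h.topM_sound hE eM (b := b) (s := s) hb hs hS
  have tC : ∀ b s, P b → s < St.ns → SS r n col St b s → cd (m n b) = St.M s := fun b s hb hs hS => by
    obtain ⟨a1, a2⟩ := tM b s hb hs hS
    rw [a1, cd, if_neg (by omega)]
  intro a ha
  obtain ⟨s, hs, hS⟩ := tot a ha
  cases top
  · simp only [Bool.false_eq_true, if_false, Bool.and_eq_true, allR_iff, allL_iff, allI_iff, Nat.beq_eq,
      Nat.ble_eq, Nat.add_eq, au_div, au_mod] at e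
    refine ⟨St.lo + s, by omega, sim_of_rel (fun b u => ∃ s, s < St.ns ∧ P b ∧ SS r n col St b s ∧ u = St.lo + s)
      ?_ ?_ ⟨s, hs, ha, hS, rfl⟩⟩
    · rintro b _ ⟨s, hs, hb, hS, rfl⟩ i hi
      by_cases c : i = 0
      · subst c
        obtain ⟨t, t1, t2, t3⟩ := nxt b s hb hs hS
        have := e.2 _ t3
        rw [st_div (by omega), st_mod (by omega)] at this
        exact ⟨t, t1, h.cl 0 b (by omega) hb, t2, this⟩
      · exact ⟨_, e2 s hs i (by omega) (by omega), h.cl i b (by omega) hb, hS.step (by omega) (by omega),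
          (e.1.2 s hs).2 i (by omega) hi⟩
    · rintro b _ ⟨s, hs, hb, hS, rfl⟩ i i1 hi
      by_cases c : i = n
      · rw [c, tC b s hb hs hS, (e.1.2 s hs).1.1]
      · rw [h.cm i b i1 (by omega) hb, hS.base, (e.1.2 s hs).1.2 i i1 (by omega)]
  simp only [if_true] at e
  split_ifs at e with k2
  · simp only [Bool.and_eq_true, allR_iff, allL_iff, allI_iff, Nat.beq_eq, Bool.not_eq_true',
      ← Bool.not_eq_true, au_div, au_mod] at e
    have fix : ∀ b s, P b → s < St.ns → SS r n col St b s → SS r n col St (r 0 b) s := fun b s hb hs hS => by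
      obtain ⟨t, t1, t2, t3⟩ := nxt b s hb hs hS
      have := e.2 _ t3
      rw [st_div (by omega), st_mod (by omega)] at this
      rwa [this]
    refine Or.inl fun w hw => ?_
    have hb := h.actP hw ha
    obtain ⟨s, hs, hS⟩ := tot _ hb
    refine eqv_of_rel (fun c d => P c ∧ P d ∧ ∃ s, s < St.ns ∧ SS r n col St c s ∧ SS r n col St d s) ?_ ?_
      ⟨h.cl 0 _ (by omega) hb, hb, s, hs, fix _ s hb hs hS, hS⟩
    · rintro c d ⟨hc, hd, s, hs, s1, s2⟩ i hi
      refine ⟨h.cl i c (by omega) hc, h.cl i d (by omega) hd, ?_⟩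
      by_cases c0 : i = 0
      · subst c0
        exact ⟨s, hs, fix c s hc hs s1, fix d s hd hs s2⟩
      · exact ⟨_, e2 s hs i (by omega) (by omega), s1.step (by omega) (by omega), s2.step (by omega) (by omega)⟩
    · rintro c d ⟨hc, hd, s, hs, s1, s2⟩ i i1 hi
      by_cases c0 : i = n
      · rw [c0, (tM c s hc hs s1).1, (tM d s hd hs s2).1]
      · have z := e.1 s hs i i1 (by omega)
        rw [cd_eq ((h.cm i c i1 (by omega) hc).trans (by rw [s1.base])) z,
          cd_eq ((h.cm i d i1 (by omega) hd).trans (by rw [s2.base])) z]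
  · simp only [Bool.and_eq_true, allR_iff, allL_iff, Nat.beq_eq, au_div, au_mod] at e
    refine Or.inr (h.S.prod_rel (by omega) (fun b s => P b ∧ s < St.ns ∧ SS r n col St b s) ?_ ?_ ?_
      (fun b s hq => e.1 s hq.2.1) ⟨ha, hs, hS⟩).1
    · rintro b s i ⟨hb, hs, hS⟩ i1 i2
      exact ⟨h.cl i b (by omega) hb, e2 s hs i i1 (by omega), hS.step i1 (by omega)⟩
    · rintro b s ⟨hb, hs, hS⟩
      obtain ⟨t, t1, t2, t3⟩ := nxt b s hb hs hS
      have := e.2 _ t3
      rw [st_div (by omega), st_mod (by omega)] at this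
      exact ⟨t, ⟨h.cl 0 b (by omega) hb, t1, t2⟩, this.symm⟩
    · rintro b s i ⟨hb, hs, hS⟩ i1 i2
      split_ifs with c
      · rw [c, tC b s hb hs hS]
      · rw [h.cm i b i1 (by omega) hb, hS.base]

end

end UP

/-! Three polyhedral vertex stars need vertex transitivity in full; the check of one group and of one level. -/

namespace UP

noncomputable section

variable {F : Type} {r : ℕ → F → F} {x : ℕ → F → ℝ} {m : ℕ → F → ℕ} {n lim : ℕ} {A : Aut} {K : Unf} {Z : Num}
  {col : F → ℕ} {P : F → Prop}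

/-- the finished development as a star -/
def lfStar (K : Unf) (nn U J : ℕ) : Star :=
  ⟨nn, fun i k => cond (Nat.beq i 1) (stp K U 1 k) (Nat.sub (g12 J k) 1), fun k => K.kap (g12 U k),
    fun _ => Nat.div nn 2, fun _ => 0, [], 0, 0⟩

def sameZ (St : Star) (z : ℕ → ℕ) (d : ℕ) : ℕ → ℕ → Bool :=
  Nat.rec (fun y s => Nat.beq (St.U y) (St.U s)) (fun _ ih y s => Nat.beq (St.U y) (St.U s) &&
    (fN (z y) fun y' => fN (z s) fun s' => ih y' s') &&
    (fN (St.R 1 y) fun y' => fN (St.R 1 s) fun s' => ih y' s') &&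
    (fN (St.R 2 y) fun y' => fN (St.R 2 s) fun s' => ih y' s')) d

def walkZ (St : Star) (z : ℕ → ℕ) (cnt : ℕ) : ℕ → ℕ :=
  Nat.rec (fun k => k) (fun _ ih k => fN (St.R 1 (z k)) ih) cnt

/-- the choice `z` of the flags equivalent to `r 0` of the nodes violates a relation -/
def badZ (A : Aut) (St : Star) (z : ℕ → ℕ) (d : ℕ) : Bool :=
  anyI 0 St.ns fun k => (fN (z (z k)) fun y => !sameZ St z d y k) ||
    fN (A.M 1 (St.U k)) fun p => !Nat.beq p 0 && fN (walkZ St z p k) fun y => !sameZ St z d y k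

/-- `mu` maps the automaton given by `z` into the list `B` -/
def goodZ (A B : Aut) (St : Star) (z : ℕ → ℕ) (mu : ℕ) : Bool :=
  allR St.ns fun k => fN (g12 mu k) fun u => Nat.beq (B.s 0 u) (g12 mu (z k)) &&
    Nat.beq (B.s 1 u) (g12 mu (St.R 1 k)) && Nat.beq (B.s 2 u) (g12 mu (St.R 2 k)) && Nat.blt u B.S &&
    Nat.beq (B.M 1 u) (A.M 1 (St.U k)) && Nat.beq (B.M 2 u) (St.M k)

/-- all choices, edge by edge; entries are stored plus one -/
def allZ (A B : Aut) (St : Star) (mus : List ℕ) (cnt : ℕ) : ℕ → Bool :=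
  Nat.rec (fun W => (allR St.ns fun k => !Nat.beq (g12 W k) 0) &&
      (fun z : ℕ → ℕ => badZ A St z 1 || badZ A St z 3 || anyL mus (goodZ A B St z) || badZ A St z 5) fun k => Nat.sub (g12 W k) 1)
    (fun k ih W => fN (St.R 2 k) fun k2 => cond (Nat.blt k k2)
      (allR St.ns fun b => fN (St.R 2 b) fun b2 =>
        !(Nat.beq (St.U b) (A.s 0 (St.U k)) && Nat.beq (St.U b2) (A.s 0 (St.U k2))) ||
          fN (s12 W k (Nat.succ b)) fun W1 => fN (s12 W1 k2 (Nat.succ b2)) ih)
      (ih W)) cnt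

def leafK (n : ℕ) (A B : Aut) (K : Unf) (top : Bool) (EX : List (List ℕ)) (mus : List ℕ) (nn U J p : ℕ) : ℕ :=
  cond (Nat.beq n 2 && !top && (allR nn fun k => !Nat.beq (g12 J k) 0) && topM n (lfStar K nn U J) EX &&
    allZ A B (lfStar K nn U J) mus nn 0) p 0

theorem kl_same_succ (St : Star) (z : ℕ → ℕ) (d y s : ℕ) : sameZ St z (d + 1) y s =
    (Nat.beq (St.U y) (St.U s) && (fN (z y) fun y' => fN (z s) fun s' => sameZ St z d y' s') &&
      (fN (St.R 1 y) fun y' => fN (St.R 1 s) fun s' => sameZ St z d y' s') &&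
      (fN (St.R 2 y) fun y' => fN (St.R 2 s) fun s' => sameZ St z d y' s')) := rfl

theorem kl_walk_succ (St : Star) (z : ℕ → ℕ) (c k : ℕ) :
    walkZ St z (c + 1) k = fN (St.R 1 (z k)) (walkZ St z c) := rfl

theorem kl_all_zero (A B : Aut) (St : Star) (mus : List ℕ) (W : ℕ) : allZ A B St mus 0 W =
    ((allR St.ns fun k => !Nat.beq (g12 W k) 0) &&
      (badZ A St (fun k => g12 W k - 1) 1 || badZ A St (fun k => g12 W k - 1) 3 ||
        anyL mus (goodZ A B St fun k => g12 W k - 1) || badZ A St (fun k => g12 W k - 1) 5)) := rfl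

theorem kl_all_succ (A B : Aut) (St : Star) (mus : List ℕ) (k W : ℕ) : allZ A B St mus (k + 1) W =
    fN (St.R 2 k) fun k2 => cond (Nat.blt k k2)
      (allR St.ns fun b => fN (St.R 2 b) fun b2 =>
        !(Nat.beq (St.U b) (A.s 0 (St.U k)) && Nat.beq (St.U b2) (A.s 0 (St.U k2))) ||
          fN (s12 W k (Nat.succ b)) fun W1 => fN (s12 W1 k2 (Nat.succ b2)) (allZ A B St mus k))
      (allZ A B St mus k W) := rfl

/-- the nodes of the star are flags -/
structure KlS (r : ℕ → F → F) (m : ℕ → F → ℕ) (col : F → ℕ) (P : F → Prop) (St : Star) (g : ℕ → F) : Prop where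
  le : St.ns ≤ 4095
  pos : 0 < St.ns
  mem : ∀ k, k < St.ns → P (g k)
  cl : ∀ k, k < St.ns → col (g k) = St.U k
  st : ∀ k i, k < St.ns → 1 ≤ i → i < 3 → St.R i k < St.ns ∧ g (St.R i k) = r i (g k)

theorem KlS.act {St : Star} {g : ℕ → F} (I : KlS r m col P St g) (w : List ℕ) (hw : Wd 1 3 w) :
    ∀ k, k < St.ns → act St.R w k < St.ns ∧ g (act St.R w k) = act r w (g k) := by
  induction w with
  | nil => exact fun k hk => ⟨hk, rfl⟩
  | cons i w ih =>
    intro k hk
    obtain ⟨⟨i1, i2⟩, hw⟩ := au_wd_cons.1 hw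
    obtain ⟨a1, a2⟩ := I.st k i hk i1 i2
    rw [au_cons, au_cons, ← a2]
    exact ih hw _ a1

section
variable (h : Ctx r x m 2 A K Z lim col P) {St : Star} {g : ℕ → F} (I : KlS r m col P St g)
include h I

theorem Ctx.kl_lab {k b : ℕ} (hk : k < St.ns) (hb : b < St.ns) (e : Eqv r m 3 (r 0 (g k)) (g b)) :
    St.U b = A.s 0 (St.U k) := by
  rw [← I.cl b hb, ← I.cl k hk, ← h.cs 0 _ (by omega) (I.mem k hk)]
  exact (h.ev _ _ (h.cl 0 _ (by omega) (I.mem k hk)) (I.mem b hb) (e.mono (by omega))).symm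

section
variable {z : ℕ → ℕ} (hz : ∀ k, k < St.ns → z k < St.ns ∧ Eqv r m 3 (r 0 (g k)) (g (z k)))
include hz

theorem Ctx.kl_same (d : ℕ) : ∀ y s, y < St.ns → s < St.ns → Eqv r m 3 (g y) (g s) →
    sameZ St z d y s = true := by
  have u : ∀ y s, y < St.ns → s < St.ns → Eqv r m 3 (g y) (g s) → St.U y = St.U s := fun y s hy hs e => by
    rw [← I.cl y hy, ← I.cl s hs]
    exact h.ev _ _ (I.mem y hy) (I.mem s hs) (e.mono (by omega))
  induction d with
  | zero => exact fun y s hy hs e => Nat.beq_eq.mpr (u y s hy hs e)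
  | succ d ih =>
    intro y s hy hs e
    have st : ∀ i, 1 ≤ i → i < 3 → sameZ St z d (St.R i y) (St.R i s) = true := fun i i1 i2 => by
      obtain ⟨a1, a2⟩ := I.st y i hy i1 i2
      obtain ⟨b1, b2⟩ := I.st s i hs i1 i2
      exact ih _ _ a1 b1 (by rw [a2, b2]; exact e.step i2)
    simp only [kl_same_succ, fN_eq, Bool.and_eq_true, Nat.beq_eq]
    exact ⟨⟨⟨u y s hy hs e, ih _ _ (hz y hy).1 (hz s hs).1
      (((hz y hy).2.symm'.trans' (e.step (by omega))).trans' (hz s hs).2)⟩, st 1 le_rfl (by omega)⟩,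
      st 2 (by omega) (by omega)⟩

omit h in
theorem kl_walk (c : ℕ) : ∀ k a, k < St.ns → Eqv r m 3 (g k) a →
    walkZ St z c k < St.ns ∧ Eqv r m 3 (g (walkZ St z c k)) ((rot r 1)^[c] a) := by
  induction c with
  | zero => exact fun k a hk e => ⟨hk, e⟩
  | succ c ih =>
    intro k a hk e
    obtain ⟨a1, a2⟩ := I.st _ 1 (hz k hk).1 le_rfl (by omega)
    rw [kl_walk_succ, fN_eq, Function.iterate_succ_apply]
    refine ih _ _ a1 ?_
    rw [a2]
    exact ((hz k hk).2.symm'.trans' (e.step (by omega))).step (by omega)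

theorem Ctx.kl_bad (d : ℕ) : badZ A St z d = false := by
  rw [← Bool.not_eq_true, badZ, anyI_iff]
  rintro ⟨k, -, hk, e⟩
  simp only [fN_eq, Bool.or_eq_true, Bool.and_eq_true, Bool.not_eq_true', ← Bool.not_eq_true, Nat.beq_eq] at e
  rcases e with e | ⟨e0, e⟩
  · refine e (h.kl_same I hz d _ _ (hz _ (hz k hk).1).1 hk ?_)
    have := (hz _ (hz k hk).1).2.symm'.trans' ((hz k hk).2.symm'.step (j := 0) (by omega))
    rwa [h.S.rr 0 (by omega)] at this
  · have c := h.cm 1 _ le_rfl (by omega) (I.mem k hk)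
    rw [I.cl k hk] at c
    have c' : A.M 1 (St.U k) = m 1 (g k) := by
      rw [← c] at e0 ⊢
      unfold cd at e0 ⊢
      split_ifs at e0 ⊢ with c1
      · exact absurd rfl e0
      · rfl
    obtain ⟨a1, a2⟩ := kl_walk I hz (A.M 1 (St.U k)) k _ hk (Eqv.refl' 3 _)
    refine e (h.kl_same I hz d _ _ a1 hk ?_)
    rwa [c', h.S.cyc 1 le_rfl (by omega), ← c'] at a2

theorem Ctx.kl_good (hm : ∀ k, k < St.ns → m 2 (g k) = St.M k ∧ St.M k < 13) {B : Aut} {mu : ℕ}
    (e : goodZ A B St z mu = true) : Res r x m 2 B false P := by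
  simp only [goodZ, allR_iff, fN_eq, Bool.and_eq_true, Nat.beq_eq, Nat.blt_eq] at e
  let Q : F → ℕ → Prop := fun b u => ∃ k, k < St.ns ∧ u = g12 mu k ∧ Eqv r m 3 b (g k)
  have h1 : ∀ b u, Q b u → ∀ i, i < 3 → Q (r i b) (B.s i u) := by
    rintro b _ ⟨k, hk, rfl, q⟩ i hi
    obtain ⟨⟨⟨⟨⟨e0, e1⟩, e2⟩, -⟩, -⟩, -⟩ := e k hk
    rcases (by omega : i = 0 ∨ i = 1 ∨ i = 2) with rfl | rfl | rfl
    · exact ⟨z k, (hz k hk).1, e0, (q.step hi).trans' (hz k hk).2⟩
    · obtain ⟨a1, a2⟩ := I.st k 1 hk le_rfl hi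
      exact ⟨_, a1, e1, by rw [a2]; exact q.step hi⟩
    · obtain ⟨a1, a2⟩ := I.st k 2 hk (by omega) hi
      exact ⟨_, a1, e2, by rw [a2]; exact q.step hi⟩
  have h2 : ∀ b u, Q b u → ∀ i, 1 ≤ i → i < 3 → cd (m i b) = B.M i u := by
    rintro b _ ⟨k, hk, rfl, q⟩ i i1 hi
    obtain ⟨⟨-, e1⟩, e2⟩ := e k hk
    rw [q.base i1 hi]
    rcases (by omega : i = 1 ∨ i = 2) with rfl | rfl
    · rw [e1, h.cm 1 _ le_rfl (by omega) (I.mem k hk), I.cl k hk]
    · rw [e2, (hm k hk).1, cd, if_neg (by have := (hm k hk).2; omega)]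
  have h3 : ∀ w, Wd 0 3 w → ∀ b u, Q b u → ∃ u', Q (act r w b) u' := by
    intro w
    induction w with
    | nil => exact fun _ b u q => ⟨u, q⟩
    | cons i w ih => exact fun hw b u q => ih (au_wd_cons.1 hw).2 _ _ (h1 b u q i (au_wd_cons.1 hw).1.2)
  intro a ha
  obtain ⟨w, hw, rfl⟩ := h.cn _ _ (I.mem 0 I.pos) ha
  obtain ⟨u, q⟩ := h3 w hw _ _ ⟨0, I.pos, rfl, Eqv.refl' 3 _⟩
  refine ⟨u, ?_, sim_of_rel Q h1 h2 q⟩
  obtain ⟨k, hk, rfl, -⟩ := q
  exact (e k hk).1.1.2

end

theorem Ctx.kl_all (hm : ∀ k, k < St.ns → m 2 (g k) = St.M k ∧ St.M k < 13) {B : Aut} {mus : List ℕ} (c : ℕ) :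
    c ≤ St.ns → ∀ W, (∀ k, k < St.ns → g12 W k ≠ 0 →
      g12 W k - 1 < St.ns ∧ Eqv r m 3 (r 0 (g k)) (g (g12 W k - 1))) →
      allZ A B St mus c W = true → Res r x m 2 B false P := by
  have put : ∀ W k b, b < St.ns → Eqv r m 3 (r 0 (g k)) (g b) → (∀ k, k < St.ns → g12 W k ≠ 0 →
      g12 W k - 1 < St.ns ∧ Eqv r m 3 (r 0 (g k)) (g (g12 W k - 1))) → ∀ j, j < St.ns →
      g12 (s12 W k (Nat.succ b)) j ≠ 0 → g12 (s12 W k (Nat.succ b)) j - 1 < St.ns ∧
        Eqv r m 3 (r 0 (g j)) (g (g12 (s12 W k (Nat.succ b)) j - 1)) := by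
    intro W k b hb e hW j hj
    rw [g12_s12 (by have := I.le; omega)]
    split_ifs with c1
    · rw [c1.1]
      exact fun _ => ⟨hb, e⟩
    · exact hW j hj
  induction c with
  | zero =>
    intro _ W hW e
    simp only [kl_all_zero, Bool.and_eq_true, allR_iff, Bool.not_eq_true', ← Bool.not_eq_true, Nat.beq_eq,
      Bool.or_eq_true, anyL_iff] at e
    have hz := fun k hk => hW k hk (e.1 k hk)
    rcases e.2 with ((e' | e') | ⟨mu, -, e'⟩) | e'
    · exact absurd e' (by simp [h.kl_bad I hz])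
    · exact absurd e' (by simp [h.kl_bad I hz])
    · exact h.kl_good I hz hm e'
    · exact absurd e' (by simp [h.kl_bad I hz])
  | succ k ih =>
    intro hk W hW e
    rw [kl_all_succ, fN_eq, cond_eq_if] at e
    split_ifs at e with c1
    · obtain ⟨w, hw, q⟩ := h.S.trans 3 (by omega) le_rfl (g k)
      obtain ⟨b1, b2⟩ := I.act w hw k hk
      rw [← b2] at q
      obtain ⟨a1, a2⟩ := I.st k 2 hk (by omega) (by omega)
      obtain ⟨a3, a4⟩ := I.st _ 2 b1 (by omega) (by omega)
      have q2 : Eqv r m 3 (r 0 (g (St.R 2 k))) (g (St.R 2 (act St.R w k))) := by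
        rw [a2, a4, h.S.comm 0 2 le_rfl (by omega)]
        exact q.step (by omega)
      have e' := allR_iff.1 e _ b1
      simp only [fN_eq, Bool.or_eq_true, Bool.not_eq_true', ← Bool.not_eq_true, Bool.and_eq_true,
        Nat.beq_eq] at e'
      rcases e' with e' | e'
      · exact absurd ⟨h.kl_lab I hk b1 q, h.kl_lab I a1 a3 q2⟩ e'
      · exact ih (by omega) _ (put _ _ _ a3 q2 (put _ _ _ b1 q hW)) e'
    · exact ih (by omega) W hW e

end

theorem Ctx.leafK_sound (h : Ctx r x m n A K Z lim col P) {B : Aut} {top : Bool} {EX : List (List ℕ)}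
    (hE : ∀ b, P b → cy r m n col b ∈ EX) {mus : List ℕ} {nn U J p : ℕ} {g : ℕ → F}
    (I : Inv r n K col P nn U J g) (e : leafK n A B K top EX mus nn U J p ≠ 0) : Res r x m n B top P := by
  rw [leafK, cond_eq_if] at e
  split_ifs at e with c
  swap
  · exact absurd rfl e
  simp only [Bool.and_eq_true, allR_iff, Bool.not_eq_true', Nat.beq_eq] at c
  obtain ⟨⟨⟨⟨rfl, rfl⟩, c1⟩, c2⟩, c3⟩ := c
  have J : KlS r m col P (lfStar K nn U J) g := by
    refine ⟨I.le, I.pos, I.mem, I.cl, fun k i hk i1 i2 => ?_⟩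
    rcases (by omega : i = 1 ∨ i = 2) with rfl | rfl
    · exact I.st k 1 hk le_rfl (by omega)
    · exact (I.jj k fun e0 => by simpa [e0] using c1 k hk).2
  refine h.kl_all J (fun k hk => h.topM_sound hE c2 (J.mem k hk) hk fun w hw => ?_) nn le_rfl 0
    (fun k _ e0 => absurd (g12_zero k) e0) c3
  obtain ⟨a1, a2⟩ := J.act w hw k hk
  rw [← a2, J.cl _ a1]

def nthS (l : List Star) : ℕ → (Star → ℕ) → ℕ → ℕ :=
  List.rec (fun _ _ d => d) (fun s _ ih i k d => Nat.casesOn i (k s) fun j => ih j k d) l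

theorem nthS_cases (l : List Star) (i : ℕ) (k : Star → ℕ) (d : ℕ) :
    nthS l i k d = d ∨ ∃ s ∈ l, nthS l i k d = k s := by
  induction l generalizing i with
  | nil => exact Or.inl rfl
  | cons s l ih =>
    cases i with
    | zero => exact Or.inr ⟨s, List.mem_cons_self, rfl⟩
    | succ j =>
      rcases ih j with e | ⟨t, ht, e⟩
      · exact Or.inl e
      · exact Or.inr ⟨t, List.mem_cons_of_mem _ ht, e⟩

/-- the check of group `g`: its stars, and the development along the tape `ct` -/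
def okD (n : ℕ) (A B : Aut) (K : Unf) (Q : Grp) (wd : List ℕ) (top : Bool) (lim0 : ℕ) (mus : List ℕ) (g : ℕ)
    (stars : List Star) (ct : ℕ → ℕ) : Bool :=
  fLL (Q.ex n A g) fun EX => List.rec true (fun s _ ih => starOK n A B top EX s && ih) stars &&
    roots n A K wd ct (fun nn U J p => fN (Nat.succ p) fun p1 =>
      nthS stars (ct p) (fun s => leafS n K s ct nn U J p1) (leafK n A B K top EX mus nn U J p1)) lim0 40 EX 0

/-- one regime of one level -/
theorem Ctx.level (h : Ctx r x m n A K Z lim col P) {B : Aut} {D : Dfs} {Q : Grp} {x0 lim0 : ℕ} {wd mus : List ℕ}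
    {top : Bool} (hw : ∀ i ∈ wd, 1 ≤ i ∧ i + 2 ≤ n) (hl : lim ≤ 4096) (e : okE n A Z D lim = true)
    (eG : okG lim Q = true) (h0 : ∀ b, P b → (x0 : ℝ) ≤ sg * x (n + 1) b)
    (hC : ∀ c, c < lim → ∃ tag c0 cnt, c0 ≤ c ∧ c < c0 + cnt ∧ okC n A Z D Q x0 tag c0 cnt = true)
    (hD : ∀ g, g < Q.nG → ∃ stars ct, okD n A B K Q wd top lim0 mus g stars ct = true)
    (hb : ∃ b, P b ∧ lim0 ≤ col b) : Res r x m n B top P := by
  obtain ⟨b0, hb0, hb1⟩ := hb
  obtain ⟨g, hg, hE⟩ := h.group e eG h0 hC hb0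
  obtain ⟨stars, ct, eD⟩ := hD g hg
  rw [okD, fLL_eq, Bool.and_eq_true] at eD
  obtain ⟨e1, e2⟩ := eD
  have all : ∀ l : List Star, (List.rec true (fun s _ ih => starOK n A B top (Q.ex n A g) s && ih) l : Bool) = true →
      ∀ s ∈ l, starOK n A B top (Q.ex n A g) s = true := by
    intro l
    induction l with
    | nil => simp
    | cons t l ih =>
      intro e3 s hs
      have e4 := (Bool.and_eq_true _ _).mp e3
      rcases List.mem_cons.1 hs with rfl | hs
      · exact e4.1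
      · exact ih e4.2 s hs
  refine h.roots_sound hw hl (fun nn U J p g' I e3 => ?_) ⟨b0, hb0, hb1⟩ 40 _ 0 hE e2
  rw [fN_eq] at e3
  rcases nthS_cases stars (ct p) (fun s => leafS n K s ct nn U J p.succ) (leafK n A B K top (Q.ex n A g) mus nn U J p.succ)
    with e4 | ⟨s, hs, e4⟩
  · rw [e4] at e3
    exact h.leafK_sound hE I e3
  · rw [e4] at e3
    exact h.star_sound hE (all stars e1 s hs) (leafS_sound (by have := h.h2; omega) I e3)

end

end UP
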