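import Pool.Agent.MP_7fd204_co.Mg.GeoA
import Pool.Agent.MP_7fd204_co.Defs

-- part MP_7fd204_co.GeoB
section

/-! The angles round a face of codimension three add up to `2 π`. -/

namespace Pool.Agent.MP_7fd204_co

open Classical Real

noncomputable section

/-- planar lemma: a closed positively turning sequence that does not pass over its start turns once -/
lemma planar (z : ℕ → ℂ) (n : ℕ) (hn : 0 < n) (h0 : ∀ j, 0 < (z (j + 1) / z j).im)
    (hcl : z n = z 0)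
    (hinj : ∀ j, 0 < j → j < n → ∀ s t : ℝ, 0 < s → 0 ≤ t → z 0 ≠ s * z j + t * z (j + 1)) :
    ∑ j ∈ Finset.range n, Complex.arg (z (j + 1) / z j) = 2 * π := by
  set β : ℕ → ℝ := fun j => Complex.arg (z (j + 1) / z j) with hβ
  have hz : ∀ j, z j ≠ 0 := fun j h => by simpa [h] using h0 j
  have hq : ∀ j, z (j + 1) / z j ≠ 0 := fun j => div_ne_zero (hz _) (hz _)
  have b0 : ∀ j, 0 < β j := fun j => by
    refine lt_of_le_of_ne (Complex.arg_nonneg_iff.2 (h0 j).le) fun h => ?_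
    exact (h0 j).ne' (Complex.arg_eq_zero_iff.1 h.symm).2
  have b1 : ∀ j, β j < π := fun j => Complex.arg_lt_pi_iff.2 (Or.inr (h0 j).ne')
  have hstep : ∀ j, ∃ σ : ℝ, 0 < σ ∧ z (j + 1) = σ * Complex.exp (β j * Complex.I) * z j := fun j =>
    ⟨‖z (j + 1) / z j‖, norm_pos_iff.2 (hq j), by
      rw [hβ, Complex.norm_mul_exp_arg_mul_I, div_mul_cancel₀ _ (hz j)]⟩
  set Θ : ℕ → ℝ := fun j => ∑ i ∈ Finset.range j, β i with hΘ
  have hΘs : ∀ j, Θ (j + 1) = Θ j + β j := fun j => Finset.sum_range_succ _ _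
  have hpol : ∀ j, ∃ ρ : ℝ, 0 < ρ ∧ z j = ρ * Complex.exp (Θ j * Complex.I) * z 0 := by
    intro j
    induction j with
    | zero => exact ⟨1, one_pos, by simp [hΘ]⟩
    | succ j ih =>
      obtain ⟨ρ, hρ, e1⟩ := ih
      obtain ⟨σ, hσ, e2⟩ := hstep j
      refine ⟨σ * ρ, mul_pos hσ hρ, ?_⟩
      rw [e2, e1, hΘs]
      push_cast
      rw [add_mul, Complex.exp_add]
      ring
  obtain ⟨ρ, hρ, e⟩ := hpol n
  rw [hcl] at e
  have e1 : (ρ : ℂ) * Complex.exp (Θ n * Complex.I) = 1 :=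
    mul_right_cancel₀ (hz 0) (by rw [← e, one_mul])
  have e2 : ρ = 1 := by
    have := congrArg norm e1
    rw [norm_mul, Complex.norm_exp_ofReal_mul_I, Complex.norm_real, Real.norm_eq_abs,
      abs_of_pos hρ] at this
    simpa using this
  rw [e2] at e1
  obtain ⟨k, hk⟩ := Complex.exp_eq_one_iff.1 (by simpa using e1 : Complex.exp (Θ n * Complex.I) = 1)
  have hk' : Θ n = k * (2 * π) := by
    have := congrArg Complex.im hk
    simpa using this
  have hpos : 0 < Θ n := Finset.sum_pos (fun i _ => b0 i) ⟨0, Finset.mem_range.2 hn⟩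
  have hk1 : (0 : ℝ) < k := by
    by_contra hc
    push Not at hc
    nlinarith [pi_pos]
  have hk2 : 1 ≤ k := by exact_mod_cast hk1
  change Θ n = 2 * π
  by_contra hne
  have hk3 : 2 ≤ k := by
    rcases hk2.eq_or_lt with h | h
    · exact absurd (by rw [hk', ← h]; simp) hne
    · omega
  have hgt : 2 * π < Θ n := by
    have : (2 : ℝ) ≤ k := by exact_mod_cast hk3
    nlinarith [pi_pos]
  have hex : ∃ j, 2 * π < Θ j := ⟨n, hgt⟩
  have hm1 := Nat.find_spec hex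
  have hm2 : Nat.find hex ≤ n := Nat.find_min' hex hgt
  obtain ⟨j, hj⟩ : ∃ j, Nat.find hex = j + 1 := by
    refine ⟨Nat.find hex - 1, ?_⟩
    have : Nat.find hex ≠ 0 := fun h => by
      rw [h] at hm1
      simp [hΘ] at hm1
      linarith [pi_pos]
    omega
  have hm3 : Θ j ≤ 2 * π := not_lt.1 (Nat.find_min hex (by omega))
  rw [hj, hΘs] at hm1
  have hj0 : 0 < j := by
    rcases Nat.eq_zero_or_pos j with rfl | h
    · simp [hΘ] at hm1
      linarith [b1 0, pi_pos]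
    · exact h
  obtain ⟨ρ', hρ', f1⟩ := hpol j
  obtain ⟨σ, hσ, f2⟩ := hstep j
  set δ := 2 * π - Θ j with hδ
  have s1 : 0 < sin (β j) := sin_pos_of_pos_of_lt_pi (b0 j) (b1 j)
  have s2 : 0 < sin (β j - δ) := sin_pos_of_pos_of_lt_pi (by linarith) (by linarith [b1 j])
  have s3 : 0 ≤ sin δ := sin_nonneg_of_nonneg_of_le_pi (by linarith) (by linarith [b1 j])
  refine hinj j hj0 (by omega) (sin (β j - δ) / (ρ' * sin (β j))) (sin δ / (ρ' * σ * sin (β j)))
    (by positivity) (by positivity) ?_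
  have g1 : Complex.exp (δ * Complex.I) * Complex.exp (Θ j * Complex.I) = 1 := by
    rw [← Complex.exp_add, ← add_mul, hδ]
    push_cast
    rw [sub_add_cancel]
    exact Complex.exp_two_pi_mul_I
  have g2 : ((sin (β j - δ) : ℝ) : ℂ) + (sin δ : ℝ) * Complex.exp (β j * Complex.I) =
      (sin (β j) : ℝ) * Complex.exp (δ * Complex.I) := by
    apply Complex.ext
    · simp only [Complex.add_re, Complex.ofReal_re, Complex.re_ofReal_mul,
        Complex.exp_ofReal_mul_I_re, sin_sub]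
      ring
    · simp only [Complex.add_im, Complex.ofReal_im, Complex.im_ofReal_mul,
        Complex.exp_ofReal_mul_I_im]
      ring
  have c1 : (ρ' : ℂ) ≠ 0 := by exact_mod_cast hρ'.ne'
  have c2 : (σ : ℂ) ≠ 0 := by exact_mod_cast hσ.ne'
  have c3 : ((sin (β j) : ℝ) : ℂ) ≠ 0 := by exact_mod_cast s1.ne'
  rw [f2, f1]
  simp only [Complex.ofReal_div, Complex.ofReal_mul]
  generalize Complex.exp (β j * Complex.I) = eb at g2 ⊢
  generalize Complex.exp (δ * Complex.I) = ed at g1 g2 ⊢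
  generalize Complex.exp (Θ j * Complex.I) = et at g1 ⊢
  field_simp
  linear_combination (-et * z 0) * g2 - ((sin (β j) : ℝ) : ℂ) * z 0 * g1

lemma sum_range_two (f : ℕ → ℝ) (m : ℕ) :
    ∑ j ∈ Finset.range (2 * m), f j = ∑ t ∈ Finset.range m, (f (2 * t) + f (2 * t + 1)) := by
  induction m with
  | zero => simp
  | succ m ih =>
    rw [show 2 * (m + 1) = 2 * m + 1 + 1 by ring, Finset.sum_range_succ, Finset.sum_range_succ, ih,
      Finset.sum_range_succ]
    ring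

lemma im_div_swap {u w : ℂ} (h : 0 < (w / u).im) : (u / w).im < 0 := by
  rw [← inv_div, Complex.inv_im]
  have : w / u ≠ 0 := fun h0 => by simp [h0] at h
  exact div_neg_of_neg_of_pos (by linarith) (Complex.normSq_pos.2 this)

variable {E : Type} [NormedAddCommGroup E] [InnerProductSpace ℝ E] {V : Finset E} {a : ℝ}

/-- the functional `x ↦ im (p x / w)` -/
def imdiv (p : (ℝ × E) →ₗ[ℝ] ℂ) (w : ℂ) : Fn E :=
  Complex.imLm ∘ₗ (LinearMap.mulRight ℝ w⁻¹) ∘ₗ p

lemma imdiv_apply (p : (ℝ × E) →ₗ[ℝ] ℂ) (w : ℂ) (z : ℝ × E) : imdiv p w z = (p z / w).im := by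
  simp [imdiv, div_eq_mul_inv]

lemma vanish_sp_c {F : Finset E} {p : (ℝ × E) →ₗ[ℝ] ℂ} (h : ∀ x ∈ F, p (hm x) = 0) {z : ℝ × E}
    (hz : z ∈ sp F) : p z = 0 := by
  have : sp F ≤ LinearMap.ker p := by
    refine Submodule.span_le.2 ?_
    rintro _ ⟨x, hx, rfl⟩
    exact h x hx
  exact this hz

lemma stepB (Θ : Flag V) {i : ℕ} (h : i + 3 ≤ rk V) (p : (ℝ × E) →ₗ[ℝ] ℂ)
    (h1 : ∀ x ∈ Θ.f i, p (hm x) = 0)
    (h3 : 0 < (p (hm (cen (Θ.f (i + 2)))) / p (hm (cen (Θ.f (i + 1))))).im) :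
    0 < (p (hm (cen ((fr i Θ).f (i + 1)))) / p (hm (cen (Θ.f (i + 2))))).im := by
  have h4 := im_div_swap h3
  have hw : p (hm (cen (Θ.f (i + 2)))) ≠ 0 := fun h0 => by simp [h0] at h3
  have := opposite (Θ.face_le (by omega)) (Θ.gap (i := i) (by omega)) (Θ.mid (by omega))
    (fr_mid Θ (by omega)) (fr_ne Θ (by omega)).symm (imdiv p (p (hm (cen (Θ.f (i + 2))))))
    (fun x hx => by simp [imdiv_apply, h1 x hx]) (by simp [imdiv_apply, div_self hw]) (by
      by_contra hc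
      push Not at hc
      have := vanish_sp hc (sp_mono (Θ.mono (i + 1)) (hm_cen_mem (Θ.nonempty (by omega) (by omega))))
      rw [imdiv_apply] at this
      exact h4.ne this)
  rw [imdiv_apply, imdiv_apply] at this
  exact pos_of_mul_neg_right this h4.le

lemma stepD (Θ : Flag V) {i : ℕ} (h : i + 3 ≤ rk V) (p : (ℝ × E) →ₗ[ℝ] ℂ)
    (h1 : ∀ x ∈ Θ.f i, p (hm x) = 0) (h2 : p (hm (cen (Θ.f (i + 3)))) = 0)
    (h3 : (p (hm (cen (Θ.f (i + 2)))) / p (hm (cen (Θ.f (i + 1))))).im ≠ 0) :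
    (p (hm (cen (Θ.f (i + 2)))) / p (hm (cen (Θ.f (i + 1))))).im *
      (p (hm (cen ((fr (i + 1) Θ).f (i + 2)))) / p (hm (cen (Θ.f (i + 1))))).im < 0 := by
  have hu : p (hm (cen (Θ.f (i + 1)))) ≠ 0 := fun h0 => by simp [h0] at h3
  have := opposite (Θ.face_le (by omega)) (Θ.gap (i := i + 1) h) (Θ.mid h)
    (fr_mid Θ h) (fr_ne Θ h).symm (imdiv p (p (hm (cen (Θ.f (i + 1))))))
    (fun x hx => by
      have hx' := hm_mem_sp hx
      rw [sp_succ Θ (by omega)] at hx'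
      obtain ⟨y, hy, b, hb, e⟩ := Submodule.mem_sup.1 hx'
      obtain ⟨s, rfl⟩ := Submodule.mem_span_singleton.1 hb
      rw [imdiv_apply, ← e, map_add, vanish_sp_c h1 hy, map_smul, zero_add, Complex.real_smul,
        mul_div_assoc, div_self hu]
      simp) (by simp [imdiv_apply, h2]) (by
      by_contra hc
      push Not at hc
      have := vanish_sp hc (sp_mono (Θ.mono (i + 2)) (hm_cen_mem (Θ.nonempty (by omega) (by omega))))
      rw [imdiv_apply] at this
      exact h3 this)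
  rwa [imdiv_apply, imdiv_apply] at this

lemma kernel (Φ : Flag V) {i : ℕ} (h : i + 3 ≤ rk V) (p : (ℝ × E) →ₗ[ℝ] ℂ)
    (h1 : ∀ x ∈ Φ.f i, p (hm x) = 0) (h2 : p (hm (cen (Φ.f (i + 3)))) = 0)
    (h3 : 0 < (p (hm (cen (Φ.f (i + 2)))) / p (hm (cen (Φ.f (i + 1))))).im) {z : ℝ × E}
    (hz : z ∈ sp (Φ.f (i + 3))) (hp : p z = 0) :
    ∃ y ∈ sp (Φ.f i), ∃ γ : ℝ, z = y + γ • hm (cen (Φ.f (i + 3))) := by
  have hu : p (hm (cen (Φ.f (i + 1)))) ≠ 0 := fun h0 => by simp [h0] at h3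
  rw [sp_succ Φ h] at hz
  obtain ⟨y2, hy2, b, hb, rfl⟩ := Submodule.mem_sup.1 hz
  obtain ⟨γ, rfl⟩ := Submodule.mem_span_singleton.1 hb
  rw [sp_succ Φ (by omega)] at hy2
  obtain ⟨y1, hy1, b, hb, rfl⟩ := Submodule.mem_sup.1 hy2
  obtain ⟨β, rfl⟩ := Submodule.mem_span_singleton.1 hb
  rw [sp_succ Φ (by omega)] at hy1
  obtain ⟨y, hy, b, hb, rfl⟩ := Submodule.mem_sup.1 hy1
  obtain ⟨α, rfl⟩ := Submodule.mem_span_singleton.1 hb
  simp only [map_add, map_smul, vanish_sp_c h1 hy, h2, smul_zero, add_zero, zero_add,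
    Complex.real_smul] at hp
  have e1 : (α : ℂ) + β * (p (hm (cen (Φ.f (i + 2)))) / p (hm (cen (Φ.f (i + 1))))) = 0 := by
    field_simp
    linear_combination hp
  have e2 := congrArg Complex.im e1
  simp only [Complex.add_im, Complex.ofReal_im, Complex.im_ofReal_mul, zero_add,
    Complex.zero_im] at e2
  have hβ : β = 0 := (mul_eq_zero.1 e2).resolve_right h3.ne'
  have hα : α = 0 := by simpa [hβ] using e1
  exact ⟨y, hy, γ, by simp [hα, hβ]⟩

lemma rot_f (Φ : Flag V) (i t : ℕ) {j : ℕ} (h1 : j ≠ i + 1) (h2 : j ≠ i + 2) :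
    ((UP.rot fr (i + 1))^[t] Φ).f j = Φ.f j := by
  induction t with
  | zero => rfl
  | succ t ih =>
    rw [Function.iterate_succ_apply', UP.rot, fr_f_ne _ h2, Nat.add_sub_cancel, fr_f_ne _ h1, ih]

lemma fm_pos (Φ : Flag V) (i : ℕ) : 0 < fm i Φ := by
  refine Function.minimalPeriod_pos_of_mem_periodicPts
    (Function.Injective.mem_periodicPts (fun x y h => ?_) Φ)
  have := congrArg (fun z => fr (i - 1) (fr i z)) h
  simpa [UP.rot, fr_fr] using this

/-- abstract cycle theorem. `p` projects the face of rank `i + 3` to the plane, killing the face of rank `i`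
and the centre. -/
lemma cycle_sum (Φ : Flag V) {i : ℕ} (h : i + 3 ≤ rk V) (p : (ℝ × E) →ₗ[ℝ] ℂ)
    (h1 : ∀ x ∈ Φ.f i, p (hm x) = 0) (h2 : p (hm (cen (Φ.f (i + 3)))) = 0)
    (h3 : 0 < (p (hm (cen (Φ.f (i + 2)))) / p (hm (cen (Φ.f (i + 1))))).im) :
    ∑ j ∈ Finset.range (fm (i + 1) Φ),
      (|Complex.arg (p (hm (cen (((UP.rot fr (i + 1))^[j] Φ).f (i + 2)))) /
          p (hm (cen (((UP.rot fr (i + 1))^[j] Φ).f (i + 1)))))| +
       |Complex.arg (p (hm (cen ((fr i ((UP.rot fr (i + 1))^[j] Φ)).f (i + 2)))) /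
          p (hm (cen ((fr i ((UP.rot fr (i + 1))^[j] Φ)).f (i + 1)))))|) = 2 * π := by
  set Ψ : ℕ → Flag V := fun t => (UP.rot fr (i + 1))^[t] Φ with hΨ
  have ΨA : ∀ t, (Ψ t).f i = Φ.f i := fun t => rot_f Φ i t (by omega) (by omega)
  have ΨC : ∀ t, (Ψ t).f (i + 3) = Φ.f (i + 3) := fun t => rot_f Φ i t (by omega) (by omega)
  have Ψs : ∀ t, Ψ (t + 1) = fr (i + 1) (fr i (Ψ t)) := fun t => by
    simp only [hΨ, Function.iterate_succ_apply', UP.rot, Nat.add_sub_cancel]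
  have ΨB : ∀ t, (Ψ (t + 1)).f (i + 1) = (fr i (Ψ t)).f (i + 1) := fun t => by
    rw [Ψs, fr_f_ne _ (by omega)]
  have ΨD : ∀ t, (fr i (Ψ t)).f (i + 2) = (Ψ t).f (i + 2) := fun t => fr_f_ne _ (by omega)
  set u : ℕ → ℂ := fun t => p (hm (cen ((Ψ t).f (i + 1)))) with hu
  set w : ℕ → ℂ := fun t => p (hm (cen ((Ψ t).f (i + 2)))) with hw
  have q2 : ∀ t, 0 < (w t / u t).im → 0 < (u (t + 1) / w t).im := fun t ht => by
    have := stepB (Ψ t) h p (by rw [ΨA]; exact h1) ht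
    rwa [← ΨB] at this
  have q1 : ∀ t, 0 < (w t / u t).im := by
    intro t
    induction t with
    | zero => exact h3
    | succ t ih =>
      have k1 := im_div_swap (q2 t ih)
      have := stepD (fr i (Ψ t)) h p (by rw [fr_f_ne _ (by omega), ΨA]; exact h1)
        (by rw [fr_f_ne _ (by omega), ΨC]; exact h2) (by rw [ΨD, ← ΨB]; exact k1.ne)
      rw [ΨD, ← ΨB, ← Ψs] at this
      exact pos_of_mul_neg_right this k1.le
  let z : ℕ → ℂ := fun j => if j % 2 = 0 then u (j / 2) else w (j / 2)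
  have z0 : ∀ t, z (2 * t) = u t := fun t => by simp [z]
  have z1 : ∀ t, z (2 * t + 1) = w t := fun t => by
    have : (2 * t + 1) / 2 = t := by omega
    simp [z, this]
  have z2 : ∀ t, z (2 * t + 1 + 1) = u (t + 1) := fun t => z0 (t + 1)
  have hpos : ∀ j, 0 < (z (j + 1) / z j).im := fun j => by
    obtain ⟨t, rfl | rfl⟩ := Nat.even_or_odd' j
    · rw [z0, z1]; exact q1 t
    · rw [z1, z2]; exact q2 t (q1 t)
  have hm0 := fm_pos Φ (i + 1)
  have key := planar z (2 * fm (i + 1) Φ) (by omega) hpos (by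
    rw [z0, show z 0 = u 0 from z0 0]
    simp only [hu, hΨ, fm, Function.iterate_minimalPeriod, Function.iterate_zero, id]) ?_
  · rw [sum_range_two] at key
    rw [← key]
    refine Finset.sum_congr rfl fun t _ => ?_
    rw [z0, z1, z2]
    change |(w t / u t).arg| + |(p (hm (cen ((fr i (Ψ t)).f (i + 2)))) /
      p (hm (cen ((fr i (Ψ t)).f (i + 1))))).arg| = _
    rw [ΨD, ← ΨB]
    change |(w t / u t).arg| + |(w t / u (t + 1)).arg| = _
    rw [abs_of_nonneg (Complex.arg_nonneg_iff.2 (q1 t).le), ← inv_div (u (t + 1)),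
      Complex.abs_arg_inv, abs_of_nonneg (Complex.arg_nonneg_iff.2 (q2 t (q1 t)).le)]
  intro j hj0 hj s t hs ht he
  have r1 : 1 ≤ rk V := by omega
  -- the two faces whose centres bound the sector
  have main : ∀ (τ : ℕ) (X Y : Finset E), X.Nonempty → Y.Nonempty → X ⊆ (Ψ τ).f (i + 2) →
      Y ⊆ (Ψ τ).f (i + 2) → u 0 = s * p (hm (cen X)) + t * p (hm (cen Y)) → X ⊆ Φ.f (i + 1) := by
    intro τ X Y nX nY sX sY e
    have sD : (Ψ τ).f (i + 2) ⊆ Φ.f (i + 3) := ΨC τ ▸ (Ψ τ).mono (i + 2)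
    have nB := Φ.nonempty (k := i + 1) (by omega) r1
    obtain ⟨y, hy, γ, e2⟩ := kernel Φ h p h1 h2 h3
      (z := hm (cen (Φ.f (i + 1))) - s • hm (cen X) - t • hm (cen Y))
      (Submodule.sub_mem _ (Submodule.sub_mem _ (sp_mono (Φ.le (by omega)) (hm_cen_mem nB))
        (Submodule.smul_mem _ _ (sp_mono (sX.trans sD) (hm_cen_mem nX))))
        (Submodule.smul_mem _ _ (sp_mono (sY.trans sD) (hm_cen_mem nY)))) (by
        simp only [map_sub, map_smul, Complex.real_smul]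
        have : p (hm (cen (Φ.f (i + 1)))) = u 0 := rfl
        rw [this, e]
        ring)
    have fD : Face (Φ.f (i + 3)) ((Ψ τ).f (i + 2)) := ΨC τ ▸ (Ψ τ).face_le (by omega)
    have fB : Face (Φ.f (i + 3)) (Φ.f (i + 1)) := Φ.face_le (by omega)
    have posC : ∀ (G : Finset E) (l : Fn E), rk G < i + 3 → (∀ x ∈ Φ.f (i + 3), 0 ≤ l (hm x)) →
        (∀ x ∈ Φ.f (i + 3), x ∉ G → 0 < l (hm x)) → 0 < l (hm (cen (Φ.f (i + 3)))) := by
      intro G l hG l0 l2
      refine fn_cen_pos l l0 ?_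
      by_contra hc
      push Not at hc
      have : Φ.f (i + 3) ⊆ G := fun x hx => by
        by_contra hx'
        exact absurd (l2 x hx hx') (not_lt.2 (hc x hx))
      have := rk_mono this
      rw [Φ.rk_of_le h] at this
      omega
    have nonneg : ∀ (G : Finset E) (l : Fn E), G.Nonempty → G ⊆ Φ.f (i + 3) →
        (∀ x ∈ Φ.f (i + 3), 0 ≤ l (hm x)) → 0 ≤ l (hm (cen G)) := fun G l nG sG l0 => by
      rw [fn_cen nG]
      exact mul_nonneg (by positivity) (Finset.sum_nonneg fun x hx => l0 x (sG hx))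
    obtain ⟨l, l0, l1, l2⟩ := fD.expose
    obtain ⟨m, m0, m1, m2⟩ := fB.expose
    have a1 := congrArg l e2
    have a2 := congrArg m e2
    have sA : Φ.f i ⊆ (Ψ τ).f (i + 2) := ΨA τ ▸ (Ψ τ).le (by omega)
    simp only [map_sub, map_add, map_smul, smul_eq_mul] at a1 a2
    rw [fn_cen_zero nX l fun x hx => l1 x (sX hx), fn_cen_zero nY l fun x hx => l1 x (sY hx),
      vanish_sp (fun x hx => l1 x (sA hx)) hy] at a1
    rw [fn_cen_zero nB m m1, vanish_sp (fun x hx => m1 x (Φ.mono i hx)) hy] at a2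
    have b1 := posC _ l (by rw [(Ψ τ).rk_of_le (by omega)]; omega) l0 l2
    have b2 := posC _ m (by rw [Φ.rk_of_le (by omega)]; omega) m0 m2
    have b3 := nonneg _ l nB (Φ.le (by omega)) l0
    have b4 := nonneg _ m nX (sX.trans sD) m0
    have b5 := nonneg _ m nY (sY.trans sD) m0
    have hγ : 0 ≤ γ := by
      by_contra hc
      push Not at hc
      nlinarith
    have b6 : m (hm (cen X)) = 0 := by
      have : s * m (hm (cen X)) ≤ 0 := by nlinarith [mul_nonneg hγ b2.le, mul_nonneg ht b5]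
      by_contra hc
      have := mul_pos hs (lt_of_le_of_ne b4 (Ne.symm hc))
      linarith
    intro x hx
    by_contra hx'
    exact (m2 x (sD (sX hx)) hx').ne' (fn_zero_of_cen m (fun x hx => m0 x (sD (sX hx))) b6 x hx)
  rw [show z 0 = u 0 from z0 0] at he
  obtain ⟨τ, rfl | rfl⟩ := Nat.even_or_odd' j
  · rw [z0, z1] at he
    have hX := main τ _ _ ((Ψ τ).nonempty (by omega) r1) ((Ψ τ).nonempty (by omega) r1)
      ((Ψ τ).mono (i + 1)) subset_rfl he
    have eB : (Ψ τ).f (i + 1) = Φ.f (i + 1) := eq_of_rk' (Φ.face _) ((Ψ τ).face _) hX (by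
      rw [Φ.rk_f, (Ψ τ).rk_f])
    rcases eq_or_eq_fr (Φ := Φ) (Ψ := Ψ τ) (i := i + 1) h (fun j hj => by
      by_cases hj' : j = i + 1
      · rw [hj', eB]
      · exact rot_f Φ i τ hj' hj) with e | e
    · have := Function.IsPeriodicPt.minimalPeriod_le (f := UP.rot fr (i + 1)) (x := Φ) (n := τ)
        (by omega) e
      unfold fm at hj
      omega
    · have k1 := stepD Φ h p h1 h2 h3.ne'
      have k2 := q1 τ
      simp only [hu, hw] at k2
      rw [eB, e] at k2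
      nlinarith [mul_pos h3 k2]
  · rw [z1, z2] at he
    have hX := main τ _ _ ((Ψ τ).nonempty (by omega) r1) ((Ψ (τ + 1)).nonempty (by omega) r1)
      subset_rfl (by rw [ΨB, ← ΨD]; exact (fr i (Ψ τ)).mono _) he
    have := rk_mono hX
    rw [(Ψ τ).rk_of_le (by omega), Φ.rk_of_le (by omega)] at this
    omega

lemma abs_arg_div {u w : ℂ} {g n n' : ℝ} (hg : 0 < g) (h1 : u.re * w.re + u.im * w.im = g)
    (h2 : u.re ^ 2 + u.im ^ 2 = n) (h3 : w.re ^ 2 + w.im ^ 2 = n') :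
    |Complex.arg (w / u)| = arctan (√((n * n' - g ^ 2) / g ^ 2)) := by
  have hu : u ≠ 0 := fun h => by simp [h] at h1; linarith
  have hn := Complex.normSq_pos.2 hu
  have hre : (w / u).re = g / Complex.normSq u := by
    rw [Complex.div_re, ← h1]; ring
  have him : (w / u).im = (w.im * u.re - w.re * u.im) / Complex.normSq u := by
    rw [Complex.div_im]; ring
  have hpos : 0 < (w / u).re := by rw [hre]; positivity
  have hlt := abs_lt.1 (Complex.abs_arg_lt_pi_div_two_iff.2 (Or.inl hpos))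
  have e1 : Complex.arg (w / u) = arctan ((w.im * u.re - w.re * u.im) / g) := by
    rw [← arctan_tan hlt.1 hlt.2, Complex.tan_arg, hre, him]
    congr 1
    field_simp
  have e2 : (n * n' - g ^ 2) / g ^ 2 = ((w.im * u.re - w.re * u.im) / g) ^ 2 := by
    rw [← h1, ← h2, ← h3, div_pow]
    congr 1
    ring
  rw [e1, e2, sqrt_sq_eq_abs]
  rcases le_total 0 ((w.im * u.re - w.re * u.im) / g) with h | h
  · rw [abs_of_nonneg h, abs_of_nonneg (arctan_nonneg.2 h)]
  · rw [abs_of_nonpos h, abs_of_nonpos (arctan_le_zero.2 h), arctan_neg]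

/-- orthogonal projection to the plane spanned by the orthogonal vectors `u, v`, with origin `c` -/
def qq (u v c : E) : (ℝ × E) →ₗ[ℝ] ℂ :=
  (‖u‖⁻¹ • aff u (-inner ℝ u c)).smulRight (1 : ℂ) +
    (‖v‖⁻¹ • aff v (-inner ℝ v c)).smulRight Complex.I

lemma qq_re (u v c x : E) : (qq u v c (hm x)).re = inner ℝ u (x - c) / ‖u‖ := by
  simp [qq, inner_sub_right]
  ring

lemma qq_im (u v c x : E) : (qq u v c (hm x)).im = inner ℝ v (x - c) / ‖v‖ := by
  simp [qq, inner_sub_right]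
  ring

lemma qq_dot (u v c x y : E) :
    (qq u v c (hm x)).re * (qq u v c (hm y)).re + (qq u v c (hm x)).im * (qq u v c (hm y)).im =
      inner ℝ u (x - c) * inner ℝ u (y - c) / ‖u‖ ^ 2 +
        inner ℝ v (x - c) * inner ℝ v (y - c) / ‖v‖ ^ 2 := by
  simp only [qq_re, qq_im]
  ring

/-- centres of faces between the ranks `k` and `n + 1` differ by combinations of `fe k, …, fe n` -/
lemma Uni.section_span (hU : Uni V a) (Φ Θ : Flag V) {k n j : ℕ} (h : n + 1 ≤ rk V) (hk : 1 ≤ k)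
    (hkj : k ≤ j) (hj : j ≤ n + 1) (h1 : ∀ i, i ≤ k → Θ.f i = Φ.f i)
    (h2 : Θ.f (n + 1) = Φ.f (n + 1)) :
    ∃ c : ℕ → ℝ, cen (Θ.f j) - cen (Φ.f (n + 1)) = ∑ i ∈ Finset.Ioc (k - 1) n, c i • fe i Φ := by
  have r1 : 1 ≤ rk V := by omega
  obtain ⟨c, hc⟩ := frame_span' Φ h (y := cen (Θ.f j)) (y' := cen (Φ.f (n + 1)))
    (h2 ▸ sp_mono (Θ.le hj) (hm_cen_mem (Θ.nonempty (by omega) r1)))
    (hm_cen_mem (Φ.nonempty (by omega) r1))
  refine ⟨c, ?_⟩
  rw [← Finset.sum_Ioc_consecutive _ (Nat.zero_le (k - 1)) (by omega : k - 1 ≤ n)] at hc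
  have hz : ∑ i ∈ Finset.Ioc 0 (k - 1), c i • fe i Φ = 0 := by
    rw [← inner_self_eq_zero (𝕜 := ℝ)]
    have e1 : ∑ i ∈ Finset.Ioc 0 (k - 1), c i • fe i Φ = (cen (Θ.f j) - cen (Φ.f (n + 1))) -
        ∑ i ∈ Finset.Ioc (k - 1) n, c i • fe i Φ := by rw [hc]; abel
    nth_rewrite 1 [e1]
    rw [inner_sum]
    refine Finset.sum_eq_zero fun i hi => ?_
    have hi' := Finset.mem_Ioc.1 hi
    have m1 : hm (cen (Φ.f (i + 1))) ∈ sp (Θ.f j) :=
      h1 (i + 1) (by omega) ▸ sp_mono (Θ.le (by omega)) (hm_cen_mem (Θ.nonempty (by omega) r1))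
    have m2 : hm (cen (Φ.f i)) ∈ sp (Θ.f j) :=
      h1 i (by omega) ▸ sp_mono (Θ.le (by omega)) (hm_cen_mem (Θ.nonempty (by omega) r1))
    have o1 := hU.orth (Θ.face j) (Θ.face (n + 1)) (Θ.le hj) m1
    have o2 := hU.orth (Θ.face j) (Θ.face (n + 1)) (Θ.le hj) m2
    have o3 : inner ℝ (cen (Θ.f j) - cen (Φ.f (n + 1))) (fe i Φ) = 0 := by
      have : fe i Φ = (cen (Φ.f (i + 1)) - cen (Θ.f j)) - (cen (Φ.f i) - cen (Θ.f j)) := by
        rw [fe]; abel
      rw [← neg_sub, inner_neg_left, this, inner_sub_right, ← h2, o1, o2]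
      simp
    rw [real_inner_smul_right, inner_sub_left, o3, sum_inner, Finset.sum_eq_zero]
    · simp
    · intro l hl
      have hl' := Finset.mem_Ioc.1 hl
      rw [real_inner_smul_left, hU.fe_orth Φ r1 (by omega) hi'.1 (by omega), mul_zero]
  rw [hc, hz, zero_add]

lemma parseval3 {e1 e2 e3 : E} {α β γ : ℝ} (hα : 0 < α) (hβ : 0 < β) (hγ : 0 < γ)
    (n1 : inner ℝ e1 e1 = α) (n2 : inner ℝ e2 e2 = β) (n3 : inner ℝ e3 e3 = γ)
    (o12 : inner ℝ e1 e2 = 0) (o13 : inner ℝ e1 e3 = 0) (o23 : inner ℝ e2 e3 = 0)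
    {y y' : E} (hy : ∃ a1 a2 a3 : ℝ, y = a1 • e1 + a2 • e2 + a3 • e3)
    (hy' : ∃ a1 a2 a3 : ℝ, y' = a1 • e1 + a2 • e2 + a3 • e3) :
    inner ℝ ((β + γ) • e1 - α • (e2 + e3)) y * inner ℝ ((β + γ) • e1 - α • (e2 + e3)) y' /
        ‖(β + γ) • e1 - α • (e2 + e3)‖ ^ 2 +
      inner ℝ (γ • e2 - β • e3) y * inner ℝ (γ • e2 - β • e3) y' / ‖γ • e2 - β • e3‖ ^ 2 =
      inner ℝ y y' - inner ℝ (e1 + e2 + e3) y * inner ℝ (e1 + e2 + e3) y' / (α + β + γ) := by
  obtain ⟨a1, a2, a3, rfl⟩ := hy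
  obtain ⟨b1, b2, b3, rfl⟩ := hy'
  have o21 : inner ℝ e2 e1 = 0 := by rw [real_inner_comm, o12]
  have o31 : inner ℝ e3 e1 = 0 := by rw [real_inner_comm, o13]
  have o32 : inner ℝ e3 e2 = 0 := by rw [real_inner_comm, o23]
  have h1 : ‖(β + γ) • e1 - α • (e2 + e3)‖ ^ 2 = α * (β + γ) * (α + β + γ) := by
    simp only [← real_inner_self_eq_norm_sq, inner_add_left, inner_add_right, inner_sub_left,
      inner_sub_right, real_inner_smul_left, real_inner_smul_right, n1, n2, n3, o12, o13, o23, o21,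
      o31, o32]
    ring
  have h2 : ‖γ • e2 - β • e3‖ ^ 2 = β * γ * (β + γ) := by
    simp only [← real_inner_self_eq_norm_sq, inner_sub_left,
      inner_sub_right, real_inner_smul_left, real_inner_smul_right, n2, n3, o23, o32]
    ring
  rw [h1, h2]
  simp only [inner_add_left, inner_add_right, inner_sub_left,
    real_inner_smul_left, real_inner_smul_right, n1, n2, n3, o12, o13, o23, o21, o31, o32]
  field_simp
  ring

theorem Uni.ang (hU : Uni V a) (Φ : Flag V) {i : ℕ} (h2 : 2 ≤ i) (h : i + 2 ≤ rk V) :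
    ∑ j ∈ Finset.range (fm i Φ), (UP.betF (fx a) i ((UP.rot fr i)^[j] Φ) +
      UP.betF (fx a) i (fr (i - 1) ((UP.rot fr i)^[j] Φ))) = 2 * π := by
  obtain ⟨k, rfl⟩ : ∃ k, i = k + 2 := ⟨i - 2, by omega⟩
  have r1 : 1 ≤ rk V := by omega
  have ha := hU.apos
  have nn : ∀ (Θ : Flag V) (j : ℕ), inner ℝ (fe (j + 1) Θ) (fe (j + 1) Θ) =
      a ^ 2 / 4 * (fx a (j + 1) Θ - fx a j Θ) := fun Θ j => by
    rw [real_inner_self_eq_norm_sq, hU.fe_norm Θ r1]
  have pp : ∀ (Θ : Flag V) (j : ℕ), j ≤ k + 2 → 0 < fx a (j + 1) Θ - fx a j Θ := fun Θ j hj =>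
    sub_pos.2 (hU.fx_lt Θ (by omega))
  have oo : ∀ (Θ : Flag V) (i j : ℕ), i ≠ j → inner ℝ (fe (i + 1) Θ) (fe (j + 1) Θ) = 0 :=
    fun Θ i j hij => hU.fe_orth Θ r1 (by omega) (by omega) (by omega)
  set e1 := fe (k + 1) Φ with he1
  set e2 := fe (k + 2) Φ with he2
  set e3 := fe (k + 3) Φ with he3
  set α := inner ℝ e1 e1 with hα
  set β := inner ℝ e2 e2 with hβ
  set γ := inner ℝ e3 e3 with hγ
  have αp : 0 < α := by rw [hα, he1, nn]; exact mul_pos (by positivity) (pp Φ k (by omega))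
  have βp : 0 < β := by rw [hβ, he2, nn]; exact mul_pos (by positivity) (pp Φ (k + 1) (by omega))
  have γp : 0 < γ := by rw [hγ, he3, nn]; exact mul_pos (by positivity) (pp Φ (k + 2) (by omega))
  have o12 : inner ℝ e1 e2 = 0 := oo Φ k (k + 1) (by omega)
  have o13 : inner ℝ e1 e3 = 0 := oo Φ k (k + 2) (by omega)
  have o23 : inner ℝ e2 e3 = 0 := oo Φ (k + 1) (k + 2) (by omega)
  have o21 : inner ℝ e2 e1 = 0 := by rw [real_inner_comm, o12]
  have o31 : inner ℝ e3 e1 = 0 := by rw [real_inner_comm, o13]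
  have o32 : inner ℝ e3 e2 = 0 := by rw [real_inner_comm, o23]
  set u0 := (β + γ) • e1 - α • (e2 + e3) with hu0
  set v0 := γ • e2 - β • e3 with hv0
  set c := cen (Φ.f (k + 4)) with hc
  have hs : ∀ Θ : Flag V, cen (Θ.f (k + 4)) - cen (Θ.f (k + 1)) =
      fe (k + 1) Θ + fe (k + 2) Θ + fe (k + 3) Θ := fun Θ => by simp only [fe]; abel
  have hD : ∀ Θ : Flag V, cen (Θ.f (k + 3)) - cen (Θ.f (k + 4)) = - fe (k + 3) Θ := fun Θ => by
    simp only [fe]; abel
  have hB : ∀ Θ : Flag V, cen (Θ.f (k + 2)) - cen (Θ.f (k + 4)) =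
      - (fe (k + 2) Θ + fe (k + 3) Θ) := fun Θ => by simp only [fe]; abel
  have key : ∀ Θ : Flag V, (∀ j, j ≠ k + 2 → j ≠ k + 3 → Θ.f j = Φ.f j) →
      |Complex.arg (qq u0 v0 c (hm (cen (Θ.f (k + 3)))) / qq u0 v0 c (hm (cen (Θ.f (k + 2)))))| =
        UP.betF (fx a) (k + 2) Θ := by
    intro Θ hΘ
    have sp3 : ∀ j, k + 1 ≤ j → j ≤ k + 4 →
        ∃ a1 a2 a3 : ℝ, cen (Θ.f j) - c = a1 • e1 + a2 • e2 + a3 • e3 := fun j j1 j2 => by
      obtain ⟨d, hd⟩ := hU.section_span Φ Θ (k := k + 1) (n := k + 3) (j := j) h (by omega) j1 j2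
        (fun i hi => hΘ i (by omega) (by omega)) (hΘ _ (by omega) (by omega))
      rw [Nat.add_sub_cancel, Finset.sum_Ioc_succ_top (by omega),
        Finset.sum_Ioc_succ_top (by omega), Finset.sum_Ioc_succ_top (by omega)] at hd
      exact ⟨d (k + 1), d (k + 2), d (k + 3), by simpa using hd⟩
    have cΘ : c = cen (Θ.f (k + 4)) := by rw [hΘ _ (by omega) (by omega)]
    have es : e1 + e2 + e3 = fe (k + 1) Θ + fe (k + 2) Θ + fe (k + 3) Θ := by
      rw [← hs Θ, hΘ _ (by omega) (by omega), hΘ (k + 1) (by omega) (by omega), hs Φ]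
    have yB := sp3 (k + 2) (by omega) (by omega)
    have yD := sp3 (k + 3) (by omega) (by omega)
    have P1 := parseval3 αp βp γp rfl rfl rfl o12 o13 o23 yB yD
    have P2 := parseval3 αp βp γp rfl rfl rfl o12 o13 o23 yB yB
    have P3 := parseval3 αp βp γp rfl rfl rfl o12 o13 o23 yD yD
    have eS : α + β + γ = inner ℝ (e1 + e2 + e3) (e1 + e2 + e3) := by
      simp only [inner_add_left, inner_add_right, o12, o13, o23, o21, o31, o32]
      ring
    rw [← qq_dot, eS, es] at P1 P2 P3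
    rw [cΘ] at P1 P2 P3
    rw [hB] at P1 P2
    rw [hD] at P1 P3
    have A0 := pp Θ k (by omega)
    have B0 := pp Θ (k + 1) (by omega)
    have C0 := pp Θ (k + 2) (by omega)
    have m1 := nn Θ k
    have m2 := nn Θ (k + 1)
    have m3 := nn Θ (k + 2)
    have t12 := oo Θ k (k + 1) (by omega)
    have t13 := oo Θ k (k + 2) (by omega)
    have t23 := oo Θ (k + 1) (k + 2) (by omega)
    have t21 := oo Θ (k + 1) k (by omega)
    have t31 := oo Θ (k + 2) k (by omega)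
    have t32 := oo Θ (k + 2) (k + 1) (by omega)
    simp only [show k + 1 + 1 = k + 2 from rfl, show k + 2 + 1 = k + 3 from rfl] at *
    simp only [inner_add_left, inner_add_right, inner_neg_left, inner_neg_right, m1, m2, m3, t12,
      t13, t23, t21, t31, t32] at P1 P2 P3
    rw [← cΘ] at P1 P2 P3
    set A := fx a (k + 1) Θ - fx a k Θ with hA
    set B := fx a (k + 2) Θ - fx a (k + 1) Θ with hB'
    set C := fx a (k + 3) Θ - fx a (k + 2) Θ with hC
    have S0 : 0 < A + B + C := by positivity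
    rw [abs_arg_div (g := a ^ 2 / 4 * (A * C / (A + B + C)))
      (n := a ^ 2 / 4 * (A * (B + C) / (A + B + C))) (n' := a ^ 2 / 4 * ((A + B) * C / (A + B + C)))
      (by positivity) (by rw [P1]; field_simp; ring) (by rw [sq, sq, P2]; field_simp; ring)
      (by rw [sq, sq, P3]; field_simp; ring)]
    change _ = arctan (√(B * (A + B + C) / (A * C)))
    congr 2
    field_simp
    ring
  have hu : 0 < ‖u0‖ := by
    refine norm_pos_iff.2 fun h0 => ?_
    have := congrArg (fun y => inner ℝ y e1) h0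
    simp only [hu0, inner_sub_left, inner_add_left, real_inner_smul_left, o21, o31,
      inner_zero_left] at this
    nlinarith [mul_pos (add_pos βp γp) αp]
  have hv : 0 < ‖v0‖ := by
    refine norm_pos_iff.2 fun h0 => ?_
    have := congrArg (fun y => inner ℝ y e2) h0
    simp only [hv0, inner_sub_left, real_inner_smul_left, o32, inner_zero_left] at this
    nlinarith [mul_pos γp βp]
  have main := cycle_sum Φ (i := k + 1) h (qq u0 v0 c) (fun x hx => ?_) ?_ ?_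
  · rw [← main]
    refine Finset.sum_congr rfl fun j _ => ?_
    rw [← key _ fun l l1 l2 => rot_f Φ (k + 1) j l1 l2,
      ← key (fr (k + 2 - 1) _) fun l l1 l2 => by
        rw [fr_f_ne _ (by omega)]; exact rot_f Φ (k + 1) j l1 l2]
    rfl
  · have m1 : hm (cen (Φ.f (k + 1))) ∈ sp (Φ.f (k + 1)) := hm_cen_mem (Φ.nonempty (by omega) r1)
    have z1 : inner ℝ e1 (x - cen (Φ.f (k + 1))) = 0 := hU.fe_orth_sp Φ le_rfl (hm_mem_sp hx) m1
    have z2 : inner ℝ e2 (x - cen (Φ.f (k + 1))) = 0 := hU.fe_orth_sp Φ (by omega) (hm_mem_sp hx) m1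
    have z3 : inner ℝ e3 (x - cen (Φ.f (k + 1))) = 0 := hU.fe_orth_sp Φ (by omega) (hm_mem_sp hx) m1
    have ex : x - c = (x - cen (Φ.f (k + 1))) - (e1 + e2 + e3) := by rw [← hs Φ]; abel
    apply Complex.ext
    · rw [qq_re, ex, inner_sub_right]
      simp only [hu0, inner_sub_left, inner_add_left, inner_add_right, real_inner_smul_left, z1, z2,
        z3, o12, o13, o23, o21, o31, o32, ← hα, ← hβ, ← hγ]
      simp
      ring_nf
      simp
    · rw [qq_im, ex, inner_sub_right]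
      simp only [hv0, inner_sub_left, inner_add_left, inner_add_right, real_inner_smul_left, z1, z2,
        z3, o12, o13, o23, o21, o31, o32, ← hα, ← hβ, ← hγ]
      simp
      ring_nf
      simp
  · apply Complex.ext
    · rw [qq_re]; simp [hc]
    · rw [qq_im]; simp [hc]
  · have w1 : (qq u0 v0 c (hm (cen (Φ.f (k + 2))))).re = α * (β + γ) / ‖u0‖ := by
      rw [qq_re, hB Φ]
      simp only [hu0, inner_sub_left, inner_add_left, inner_add_right, inner_neg_right,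
        real_inner_smul_left, ← he2, ← he3, o12, o13, o23, o32, ← hβ, ← hγ]
      ring
    have w2 : (qq u0 v0 c (hm (cen (Φ.f (k + 2))))).im = 0 := by
      rw [qq_im, hB Φ]
      simp only [hv0, inner_sub_left, inner_add_left, inner_add_right, inner_neg_right,
        real_inner_smul_left, ← he2, ← he3, o23, o32, ← hβ, ← hγ]
      ring
    have w3 : (qq u0 v0 c (hm (cen (Φ.f (k + 3))))).im = β * γ / ‖v0‖ := by
      rw [qq_im, hD Φ]
      simp only [hv0, inner_sub_left, inner_neg_right, real_inner_smul_left, ← he3, o23, ← hγ]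
      ring
    change 0 < (qq u0 v0 c (hm (cen (Φ.f (k + 3)))) / qq u0 v0 c (hm (cen (Φ.f (k + 2))))).im
    rw [Complex.div_im, w2, w3, Complex.normSq_apply, w1, w2]
    simp only [mul_zero, zero_div, sub_zero, add_zero]
    positivity

theorem Uni.poly (hU : Uni V a) (Φ : Flag V) (h : 3 ≤ rk V) :
    3 ≤ fm 1 Φ ∧ fx a 2 Φ * sin (π / fm 1 Φ) ^ 2 = 1 := by
  have r1 : 1 ≤ rk V := by omega
  have ha := hU.apos
  set X := fx a 2 Φ with hX
  have X1 : 1 < X := by
    have := hU.fx_lt Φ (i := 1) h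
    rwa [hU.fx_one Φ (by omega)] at this
  have n1 : ∀ Θ : Flag V, inner ℝ (fe 1 Θ) (fe 1 Θ) = a ^ 2 / 4 := fun Θ => by
    have := hU.fe_norm Θ r1 0
    rw [zero_add, hU.fx_one Θ (by omega), fx_zero Θ r1] at this
    rw [real_inner_self_eq_norm_sq, this]
    ring
  have n2 : ∀ Θ : Flag V, inner ℝ (fe 2 Θ) (fe 2 Θ) = a ^ 2 / 4 * (fx a 2 Θ - 1) := fun Θ => by
    have := hU.fe_norm Θ r1 1
    rw [hU.fx_one Θ (by omega)] at this
    rw [real_inner_self_eq_norm_sq, this]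
  have o12 : ∀ Θ : Flag V, inner ℝ (fe 1 Θ) (fe 2 Θ) = 0 := fun Θ =>
    hU.fe_orth Θ r1 (by omega) (by omega) (by omega)
  have o21 : ∀ Θ : Flag V, inner ℝ (fe 2 Θ) (fe 1 Θ) = 0 := fun Θ =>
    hU.fe_orth Θ r1 (by omega) (by omega) (by omega)
  set c := cen (Φ.f 3) with hc
  have hD : ∀ Θ : Flag V, cen (Θ.f 2) - cen (Θ.f 3) = - fe 2 Θ := fun Θ => by simp only [fe]; abel
  have hB : ∀ Θ : Flag V, cen (Θ.f 1) - cen (Θ.f 3) = - (fe 1 Θ + fe 2 Θ) := fun Θ => by
    simp only [fe]; abel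
  have par : ∀ y y' : E, (∃ s t : ℝ, y = s • fe 1 Φ + t • fe 2 Φ) →
      (∃ s t : ℝ, y' = s • fe 1 Φ + t • fe 2 Φ) →
      inner ℝ (fe 1 Φ) y * inner ℝ (fe 1 Φ) y' / ‖fe 1 Φ‖ ^ 2 +
        inner ℝ (fe 2 Φ) y * inner ℝ (fe 2 Φ) y' / ‖fe 2 Φ‖ ^ 2 = inner ℝ y y' := by
    rintro _ _ ⟨s, t, rfl⟩ ⟨s', t', rfl⟩
    simp only [← real_inner_self_eq_norm_sq, inner_add_left, inner_add_right, real_inner_smul_left,
      real_inner_smul_right, n1, n2, o12, o21, ← hX]
    have : X - 1 ≠ 0 := by linarith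
    field_simp
    ring
  have key : ∀ Θ : Flag V, Θ.f 3 = Φ.f 3 →
      |Complex.arg (qq (fe 1 Φ) (fe 2 Φ) c (hm (cen (Θ.f 2))) /
        qq (fe 1 Φ) (fe 2 Φ) c (hm (cen (Θ.f 1))))| = arctan (√(1 / (X - 1))) := by
    intro Θ hΘ
    have sp2 : ∀ j, 1 ≤ j → j ≤ 3 → ∃ s t : ℝ, cen (Θ.f j) - c = s • fe 1 Φ + t • fe 2 Φ :=
      fun j j1 j2 => by
        obtain ⟨d, hd⟩ := frame_span' Φ (k := 2) h (y := cen (Θ.f j)) (y' := c)
          (hΘ ▸ sp_mono (Θ.le j2) (hm_cen_mem (Θ.nonempty j1 r1)))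
          (hm_cen_mem (Φ.nonempty (by omega) r1))
        rw [Finset.sum_Ioc_succ_top (by omega), Finset.sum_Ioc_succ_top (by omega)] at hd
        exact ⟨d 1, d 2, by simpa using hd⟩
    have P1 := par _ _ (sp2 1 (by omega) (by omega)) (sp2 2 (by omega) (by omega))
    have P2 := par _ _ (sp2 1 (by omega) (by omega)) (sp2 1 (by omega) (by omega))
    have P3 := par _ _ (sp2 2 (by omega) (by omega)) (sp2 2 (by omega) (by omega))
    rw [← qq_dot] at P1 P2 P3
    have cΘ : c = cen (Θ.f 3) := by rw [hΘ]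
    have XΘ : fx a 2 Θ = X := by rw [hX, fx, fx, hΘ]
    rw [cΘ] at P1 P2 P3
    rw [hB] at P1 P2
    rw [hD] at P1 P3
    simp only [inner_add_left, inner_add_right, inner_neg_left, inner_neg_right, n1, n2, o12, o21,
      XΘ] at P1 P2 P3
    rw [← cΘ] at P1 P2 P3
    have X0 : 0 < X - 1 := by linarith
    rw [abs_arg_div (g := a ^ 2 / 4 * (X - 1)) (n := a ^ 2 / 4 * X) (n' := a ^ 2 / 4 * (X - 1))
      (by positivity) (by rw [P1]; ring) (by rw [sq, sq, P2]; ring) (by rw [sq, sq, P3]; ring)]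
    congr 2
    field_simp
    ring
  have hu : 0 < ‖fe 2 Φ‖ := norm_pos_iff.2 (fe_ne Φ (by omega) h)
  have hv : 0 < ‖fe 1 Φ‖ := norm_pos_iff.2 (fe_ne Φ (by omega) (by omega))
  have main := cycle_sum Φ (i := 0) h (qq (fe 1 Φ) (fe 2 Φ) c) (by simp [Φ.zero]) ?_ ?_
  · have e : ∑ j ∈ Finset.range (fm 1 Φ), (arctan (√(1 / (X - 1))) + arctan (√(1 / (X - 1)))) =
        2 * π := by
      rw [← main]
      refine Finset.sum_congr rfl fun j _ => ?_
      rw [key _ (rot_f Φ 0 j (by omega) (by omega)),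
        key (fr 0 _) (by rw [fr_f_ne _ (by omega)]; exact rot_f Φ 0 j (by omega) (by omega))]
    rw [Finset.sum_const, Finset.card_range, nsmul_eq_mul] at e
    have hm0 : (0 : ℝ) < fm 1 Φ := by exact_mod_cast fm_pos Φ 1
    have e2 : π / fm 1 Φ = arctan (√(1 / (X - 1))) := by
      rw [div_eq_iff hm0.ne']
      linarith
    constructor
    · have := arctan_lt_pi_div_two (√(1 / (X - 1)))
      have h3 : (2 : ℝ) < fm 1 Φ := by
        by_contra hcon
        push Not at hcon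
        rw [← e2, div_lt_div_iff₀ hm0 two_pos] at this
        nlinarith [pi_pos]
      exact_mod_cast h3
    · have X0 : 0 < X - 1 := by linarith
      rw [e2, sin_sq_arctan, sq_sqrt (by positivity)]
      field_simp
      ring
  · apply Complex.ext
    · rw [qq_re]; simp [hc]
    · rw [qq_im]; simp [hc]
  · change 0 < (qq (fe 1 Φ) (fe 2 Φ) c (hm (cen (Φ.f 2))) /
      qq (fe 1 Φ) (fe 2 Φ) c (hm (cen (Φ.f 1)))).im
    have X0 : 0 < X - 1 := by linarith
    have w1 : (qq (fe 1 Φ) (fe 2 Φ) c (hm (cen (Φ.f 1)))).re = -(a ^ 2 / 4 / ‖fe 1 Φ‖) := by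
      rw [qq_re, hB Φ]
      simp only [inner_add_right, inner_neg_right, n1, o12]
      ring
    have w2 : (qq (fe 1 Φ) (fe 2 Φ) c (hm (cen (Φ.f 2)))).re = 0 := by
      rw [qq_re, hD Φ]
      simp [o12]
    have w3 : (qq (fe 1 Φ) (fe 2 Φ) c (hm (cen (Φ.f 2)))).im =
        -(a ^ 2 / 4 * (X - 1) / ‖fe 2 Φ‖) := by
      rw [qq_im, hD Φ]
      simp only [inner_neg_right, n2, ← hX]
      ring
    have w4 : 0 < Complex.normSq (qq (fe 1 Φ) (fe 2 Φ) c (hm (cen (Φ.f 1)))) := by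
      refine Complex.normSq_pos.2 fun h0 => ?_
      rw [h0] at w1
      have : 0 < a ^ 2 / 4 / ‖fe 1 Φ‖ := by positivity
      simp only [Complex.zero_re] at w1
      linarith
    rw [Complex.div_im, w1, w2, w3, ← sub_div]
    refine div_pos ?_ w4
    have : 0 < a ^ 2 / 4 * (X - 1) / ‖fe 2 Φ‖ * (a ^ 2 / 4 / ‖fe 1 Φ‖) := by positivity
    linarith

end

end Pool.Agent.MP_7fd204_co

/-! Rigidity: flags with the same radii along all words differ by an isometry. -/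

namespace Pool.Agent.MP_7fd204_co

open Classical

noncomputable section

variable {E : Type} [NormedAddCommGroup E] [InnerProductSpace ℝ E] {V V' : Finset E} {a : ℝ}
  {N : ℕ}

/-- same normalised radii along all words -/
def Beh (a : ℝ) (N : ℕ) (Φ : Flag V) (Ψ : Flag V') : Prop :=
  ∀ w, UP.Wd 0 N w → ∀ i, i ≤ N → fx a i (UP.act fr w Φ) = fx a i (UP.act fr w Ψ)

lemma Beh.step {Φ : Flag V} {Ψ : Flag V'} (h : Beh a N Φ Ψ) {j : ℕ} (hj : j < N) :
    Beh a N (fr j Φ) (fr j Ψ) := fun w hw i hi =>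
  h (j :: w) (fun k hk => by
    rcases List.mem_cons.1 hk with rfl | hk
    · exact ⟨Nat.zero_le _, hj⟩
    · exact hw k hk) i hi

lemma Beh.act {Φ : Flag V} {Ψ : Flag V'} (h : Beh a N Φ Ψ) {w : List ℕ} (hw : UP.Wd 0 N w) :
    Beh a N (UP.act fr w Φ) (UP.act fr w Ψ) := fun w' hw' i hi => by
  rw [← act_append, ← act_append]
  exact h _ (wd_append hw hw') i hi

lemma Beh.base {Φ : Flag V} {Ψ : Flag V'} (h : Beh a N Φ Ψ) {i : ℕ} (hi : i ≤ N) :
    fx a i Φ = fx a i Ψ := h [] (by simp [UP.Wd]) i hi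

lemma Beh.symm {Φ : Flag V} {Ψ : Flag V'} (h : Beh a N Φ Ψ) : Beh a N Ψ Φ :=
  fun w hw i hi => (h w hw i hi).symm

/-- `g` carries the frame of `Φ` to the frame of `Ψ` -/
def Carries (N : ℕ) (g : E →ₗ[ℝ] E) (Φ : Flag V) (Ψ : Flag V') : Prop :=
  ∀ i, 1 ≤ i → i ≤ N → g (fe i Φ) = fe i Ψ

lemma Carries.step (hU : Uni V a) (hU' : Uni V' a) (hN : rk V = N + 1) (hN' : rk V' = N + 1)
    {g : E →ₗ[ℝ] E} {Φ : Flag V} {Ψ : Flag V'} (hB : Beh a N Φ Ψ) (h : Carries N g Φ Ψ) {j : ℕ}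
    (hj : j < N) : Carries N g (fr j Φ) (fr j Ψ) := by
  intro i h1 h2
  rcases j with _ | j
  · by_cases hi : i = 1
    · subst hi
      rw [hU.fe_fr_zero Φ (by omega), hU'.fe_fr_zero Ψ (by omega), map_neg, h 1 h1 h2]
    · rw [fe_fr_ne Φ (by omega) (by omega), fe_fr_ne Ψ (by omega) (by omega), h i h1 h2]
  · have key : g (fe (j + 1) (fr (j + 1) Φ)) = fe (j + 1) (fr (j + 1) Ψ) := by
      rw [hU.fe_fr Φ (by omega), hU'.fe_fr Ψ (by omega), map_add, map_smul, map_smul,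
        h (j + 1) (by omega) (by omega), h (j + 2) (by omega) (by omega),
        hB.base (i := j) (by omega), hB.base (i := j + 1) (by omega),
        hB.base (i := j + 2) (by omega), (hB.step hj).base (i := j + 1) (by omega)]
    by_cases hi : i = j + 1
    · rw [hi, key]
    · by_cases hi' : i = j + 2
      · subst hi'
        rw [fe_fr_add Φ (j + 1), fe_fr_add Ψ (j + 1), map_sub, map_add, key,
          h (j + 1) (by omega) (by omega), h (j + 1 + 1) (by omega) (by omega)]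
      · rw [fe_fr_ne Φ hi hi', fe_fr_ne Ψ hi hi', h i h1 h2]

lemma Carries.act (hU : Uni V a) (hU' : Uni V' a) (hN : rk V = N + 1) (hN' : rk V' = N + 1)
    {g : E →ₗ[ℝ] E} {Φ : Flag V} {Ψ : Flag V'} (hB : Beh a N Φ Ψ) (h : Carries N g Φ Ψ)
    {w : List ℕ} (hw : UP.Wd 0 N w) : Carries N g (UP.act fr w Φ) (UP.act fr w Ψ) := by
  induction w generalizing Φ Ψ with
  | nil => exact h
  | cons j w ih =>
    have hj := (hw j (by simp)).2
    exact ih (hB.step hj) (h.step hU hU' hN hN' hB hj) fun k hk => hw k (List.mem_cons_of_mem _ hk)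

lemma Carries.centre (hN : rk V = N + 1) (hN' : rk V' = N + 1) {g : E →ₗ[ℝ] E} {Φ : Flag V}
    {Ψ : Flag V'} (h : Carries N g Φ Ψ) {j : ℕ} (hj : j ≤ N) :
    g (fc j Φ - cen V) = fc j Ψ - cen V' := by
  rw [← fc_top hN Φ, ← fc_top hN' Ψ, ← neg_sub, map_neg, fc_sub Φ hj, ← neg_sub (fc N Ψ),
    fc_sub Ψ hj, map_sum]
  congr 1
  exact Finset.sum_congr rfl fun i hi => by
    have := Finset.mem_Ioc.1 hi
    exact h i (by omega) this.2

/-- a linear map carrying a frame to a frame with the same behaviour maps vertices to vertices -/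
lemma Carries.vertex (hU : Uni V a) (hU' : Uni V' a) (hN : rk V = N + 1) (hN' : rk V' = N + 1)
    {g : E →ₗ[ℝ] E} {Φ : Flag V} {Ψ : Flag V'} (hB : Beh a N Φ Ψ) (h : Carries N g Φ Ψ)
    {v : E} (hv : v ∈ V) : cen V' + g (v - cen V) ∈ V' := by
  obtain ⟨Θ, rfl⟩ := hU.exists_flag_vertex hv
  obtain ⟨w, hw, rfl⟩ := connect_all hN Φ Θ
  rw [(h.act hU hU' hN hN' hB hw).centre hN hN' (Nat.zero_le _), add_sub_cancel]
  exact fc_zero_mem_V _ (by omega)

/-- `y` is orthogonal to the direction space of `V` -/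
def Perp (V : Finset E) (y : E) : Prop := ∀ v ∈ V, inner ℝ y (v - cen V) = 0

lemma Perp.of_sp {y : E} (h : Perp V y) {z z' : E} (hz : hm z ∈ sp V) (hz' : hm z' ∈ sp V) :
    inner ℝ y (z - z') = 0 := by
  have h1 : ∀ x ∈ V, aff y (-inner ℝ y (cen V)) (hm x) = 0 := fun x hx => by
    rw [aff_hm, ← sub_eq_add_neg, ← inner_sub_right, h x hx]
  have e1 := vanish_sp h1 hz
  have e2 := vanish_sp h1 hz'
  rw [aff_hm] at e1 e2
  rw [inner_sub_right]
  linarith

lemma Perp.fe {y : E} (h : Perp V y) (hV : 1 ≤ rk V) (Φ : Flag V) {i : ℕ} (hi : 1 ≤ i) :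
    inner ℝ y (fe i Φ) = 0 :=
  h.of_sp (sp_mono (Φ.face _).subset (hm_cen_mem (Φ.nonempty (by omega) hV)))
    (sp_mono (Φ.face _).subset (hm_cen_mem (Φ.nonempty hi hV)))

lemma perp_of_fe (hN : rk V = N + 1) (Φ : Flag V) {y : E}
    (h : ∀ i, 1 ≤ i → i ≤ N → inner ℝ y (fe i Φ) = 0) : Perp V y := fun v hv => by
  obtain ⟨c, hc⟩ := frame_span' Φ (k := N) hN.ge (y := v) (y' := cen V)
    (by rw [Φ.top hN.le]; exact hm_mem_sp hv) (by rw [Φ.top hN.le]; exact hm_cen_mem ⟨v, hv⟩)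
  rw [hc, inner_sum]
  refine Finset.sum_eq_zero fun i hi => ?_
  have := Finset.mem_Ioc.1 hi
  rw [real_inner_smul_right, h i this.1 this.2, mul_zero]

/-- every vector is a combination of the frame plus a vector perpendicular to `V` -/
lemma Uni.decomp (hU : Uni V a) (hN : rk V = N + 1) (Φ : Flag V) (y : E) :
    ∃ (c : ℕ → ℝ) (z : E), Perp V z ∧ y = z + ∑ i ∈ Finset.Ioc 0 N, c i • fe i Φ := by
  refine ⟨fun i => inner ℝ (fe i Φ) y / ‖fe i Φ‖ ^ 2,
    y - ∑ i ∈ Finset.Ioc 0 N, (inner ℝ (fe i Φ) y / ‖fe i Φ‖ ^ 2) • fe i Φ, ?_, by simp⟩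
  refine perp_of_fe hN Φ fun j h1 h2 => ?_
  rw [inner_sub_left, sum_inner, Finset.sum_eq_single j]
  · have := norm_pos_iff.2 (fe_ne Φ h1 (by omega))
    rw [real_inner_smul_left, real_inner_self_eq_norm_sq, real_inner_comm]
    field_simp
    ring
  · intro i hi hij
    rw [real_inner_smul_left, hU.fe_orth Φ (by omega) (Finset.mem_Ioc.1 hi).1 h1 hij, mul_zero]
  · intro hj
    exact absurd (Finset.mem_Ioc.2 ⟨h1, h2⟩) hj

/-- two linear maps agreeing on a frame and on the perpendicular space are equal -/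
lemma Uni.ext_frame (hU : Uni V a) (hN : rk V = N + 1) (Φ : Flag V) {g g' : E →ₗ[ℝ] E}
    (h1 : ∀ i, 1 ≤ i → i ≤ N → g (fe i Φ) = g' (fe i Φ)) (h2 : ∀ y, Perp V y → g y = g' y) :
    g = g' := by
  ext y
  obtain ⟨c, z, hz, rfl⟩ := hU.decomp hN Φ y
  rw [map_add, map_add, h2 z hz, map_sum, map_sum]
  congr 1
  exact Finset.sum_congr rfl fun i hi => by
    have := Finset.mem_Ioc.1 hi
    rw [map_smul, map_smul, h1 i this.1 this.2]

lemma Uni.norm_comb (hU : Uni V a) (hN : rk V = N + 1) (Φ : Flag V) (c : ℕ → ℝ) {z : E}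
    (hz : Perp V z) : ‖z + ∑ i ∈ Finset.Ioc 0 N, c i • fe i Φ‖ ^ 2 =
      ‖z‖ ^ 2 + ∑ i ∈ Finset.Ioc 0 N, c i ^ 2 * ‖fe i Φ‖ ^ 2 := by
  rw [norm_add_sq_real, inner_sum, Finset.sum_eq_zero (fun i hi => by
    rw [real_inner_smul_right, hz.fe (by omega) Φ (Finset.mem_Ioc.1 hi).1, mul_zero]),
    ← real_inner_self_eq_norm_sq (∑ i ∈ Finset.Ioc 0 N, c i • fe i Φ), sum_inner]
  simp only [mul_zero, add_zero]
  congr 1
  refine Finset.sum_congr rfl fun i hi => ?_
  rw [inner_sum, Finset.sum_eq_single i]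
  · rw [real_inner_smul_left, real_inner_smul_right, real_inner_self_eq_norm_sq]
    ring
  · intro j hj hij
    rw [real_inner_smul_left, real_inner_smul_right,
      hU.fe_orth Φ (by omega) (Finset.mem_Ioc.1 hi).1 (Finset.mem_Ioc.1 hj).1 hij.symm]
    simp
  · intro h
    exact absurd hi h

/-- two flags of `V` with the same radii differ by a linear isometry fixing the perpendicular space -/
lemma Uni.exists_iso [FiniteDimensional ℝ E] (hU : Uni V a) (hN : rk V = N + 1) (Φ Ψ : Flag V)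
    (hx : ∀ i, i ≤ N → fx a i Φ = fx a i Ψ) :
    ∃ g : E ≃ₗᵢ[ℝ] E, Carries N (g.toLinearEquiv : E →ₗ[ℝ] E) Φ Ψ ∧ ∀ y, Perp V y → g y = y := by
  let g : E →ₗ[ℝ] E := LinearMap.id + ∑ i ∈ Finset.Ioc 0 N,
    ((‖fe i Φ‖ ^ 2)⁻¹ • innerₛₗ ℝ (fe i Φ)).smulRight (fe i Ψ - fe i Φ)
  have hg : ∀ y, g y = y + ∑ i ∈ Finset.Ioc 0 N,
      ((‖fe i Φ‖ ^ 2)⁻¹ * inner ℝ (fe i Φ) y) • (fe i Ψ - fe i Φ) := fun y => by
    simp [g, LinearMap.sum_apply]
  have h1 : Carries N g Φ Ψ := fun j h1 h2 => by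
    rw [hg, Finset.sum_eq_single j]
    · have := norm_pos_iff.2 (fe_ne Φ h1 (by omega))
      rw [real_inner_self_eq_norm_sq, inv_mul_cancel₀ (by positivity)]
      simp
    · intro i hi hij
      rw [hU.fe_orth Φ (by omega) (Finset.mem_Ioc.1 hi).1 h1 hij]
      simp
    · intro hj
      exact absurd (Finset.mem_Ioc.2 ⟨h1, h2⟩) hj
  have h2 : ∀ y, Perp V y → g y = y := fun y hy => by
    rw [hg, Finset.sum_eq_zero, add_zero]
    intro i hi
    rw [real_inner_comm, hy.fe (by omega) Φ (Finset.mem_Ioc.1 hi).1]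
    simp
  have h3 : ∀ y, ‖g y‖ = ‖y‖ := fun y => by
    obtain ⟨c, z, hz, rfl⟩ := hU.decomp hN Φ y
    have e : g (z + ∑ i ∈ Finset.Ioc 0 N, c i • fe i Φ) = z + ∑ i ∈ Finset.Ioc 0 N, c i • fe i Ψ := by
      rw [map_add, h2 z hz, map_sum]
      congr 1
      exact Finset.sum_congr rfl fun i hi => by
        have := Finset.mem_Ioc.1 hi
        rw [map_smul, h1 i this.1 this.2]
    rw [e, ← sq_eq_sq₀ (norm_nonneg _) (norm_nonneg _), hU.norm_comb hN Φ c hz,
      hU.norm_comb hN Ψ c hz]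
    congr 1
    refine Finset.sum_congr rfl fun i hi => ?_
    have := Finset.mem_Ioc.1 hi
    obtain ⟨k, rfl⟩ : ∃ k, i = k + 1 := ⟨i - 1, by omega⟩
    rw [hU.fe_norm Φ (by omega), hU.fe_norm Ψ (by omega), hx k (by omega), hx (k + 1) this.2]
  exact ⟨(⟨g, h3⟩ : E →ₗᵢ[ℝ] E).toLinearIsometryEquiv rfl, h1, h2⟩

/-- `g` is a symmetry of `V` about its centre, fixing the perpendicular space -/
def IsSym (V : Finset E) (g : E ≃ₗᵢ[ℝ] E) : Prop :=
  (∀ v ∈ V, cen V + g (v - cen V) ∈ V) ∧ ∀ y, Perp V y → g y = y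

/-- rigidity -/
lemma Uni.exists_sym [FiniteDimensional ℝ E] (hU : Uni V a) (hN : rk V = N + 1) {Φ Ψ : Flag V}
    (hB : Beh a N Φ Ψ) :
    ∃ g : E ≃ₗᵢ[ℝ] E, IsSym V g ∧ Carries N (g.toLinearEquiv : E →ₗ[ℝ] E) Φ Ψ := by
  obtain ⟨g, h1, h2⟩ := hU.exists_iso hN Φ Ψ fun i hi => hB.base hi
  exact ⟨g, ⟨fun v hv => h1.vertex hU hU hN hN hB hv, h2⟩, h1⟩

lemma IsSym.surj {g : E ≃ₗᵢ[ℝ] E} (h : IsSym V g) {v : E} (hv : v ∈ V) :
    ∃ u ∈ V, cen V + g (u - cen V) = v := by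
  have := Finset.surj_on_of_inj_on_of_card_le (s := V) (t := V)
    (fun u _ => cen V + g (u - cen V)) (fun u hu => h.1 u hu)
    (fun u u' _ _ he => by simpa using he) le_rfl v hv
  obtain ⟨u, hu, he⟩ := this
  exact ⟨u, hu, he.symm⟩

/-- the symmetry group -/
def symGroup (V : Finset E) : Subgroup (E ≃ₗᵢ[ℝ] E) where
  carrier := {g | IsSym V g}
  one_mem' := ⟨fun v hv => by simpa using hv, fun _ _ => rfl⟩
  mul_mem' := fun {g h} hg hh => ⟨fun v hv => by simpa using hg.1 _ (hh.1 v hv), fun y hy => by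
    simp [hh.2 y hy, hg.2 y hy]⟩
  inv_mem' := fun {g} hg => ⟨fun v hv => by
    obtain ⟨u, hu, rfl⟩ := IsSym.surj hg hv
    simpa using hu, fun y hy => by
    have := hg.2 y hy
    conv_lhs => rw [← this]
    simp⟩

lemma Uni.finite_symGroup (hU : Uni V a) (hN : rk V = N + 1) : Finite (symGroup V) := by
  let φ : symGroup V → (V → V) := fun g v => ⟨cen V + g.1 (v.1 - cen V), g.2.1 v.1 v.2⟩
  refine Finite.of_injective φ fun g g' he => ?_
  obtain ⟨Φ⟩ := exists_flag0 V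
  have h1 : ∀ v ∈ V, g.1 (v - cen V) = g'.1 (v - cen V) := fun v hv => by
    simpa [φ] using congrFun he ⟨v, hv⟩
  have h2 : ∀ F : Finset E, F ⊆ V → F.Nonempty → g.1 (cen F - cen V) = g'.1 (cen F - cen V) := by
    intro F hF hne
    have hc : (F.card : ℝ) ≠ 0 := by exact_mod_cast hne.card_pos.ne'
    have e : cen F - cen V = (F.card : ℝ)⁻¹ • ∑ x ∈ F, (x - cen V) := by
      rw [Finset.sum_sub_distrib, Finset.sum_const, smul_sub, ← Nat.cast_smul_eq_nsmul ℝ, smul_smul,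
        inv_mul_cancel₀ hc, one_smul, cen]
    rw [e, map_smul, map_smul, map_sum, map_sum, Finset.sum_congr rfl fun x hx => h1 x (hF hx)]
  have := hU.ext_frame hN Φ (g := (g.1.toLinearEquiv : E →ₗ[ℝ] E))
    (g' := (g'.1.toLinearEquiv : E →ₗ[ℝ] E)) (fun i hi _ => ?_) (fun y hy => ?_)
  · ext y
    exact LinearMap.congr_fun this y
  · have e : fe i Φ = (cen (Φ.f (i + 1)) - cen V) - (cen (Φ.f i) - cen V) := by rw [fe]; abel
    have e1 := h2 _ (Φ.face (i + 1)).subset (Φ.nonempty (by omega) (by omega))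
    have e2 := h2 _ (Φ.face i).subset (Φ.nonempty hi (by omega))
    rw [e]
    simp only [map_sub] at e1 e2 ⊢
    simp only [LinearEquiv.coe_coe, LinearIsometryEquiv.coe_toLinearEquiv]
    rw [e1, e2]
  · simp [g.2.2 y hy, g'.2.2 y hy]

lemma Uni.finite_of_le (hU : Uni V a) (hN : rk V = N + 1) {W : Subgroup (E ≃ₗᵢ[ℝ] E)}
    (h : W ≤ symGroup V) : Finite W :=
  haveI := hU.finite_symGroup hN
  Finite.of_injective _ (Subgroup.inclusion_injective h)

/-- a group of symmetries that moves the vertex of every flag to its neighbour (up to flags at the same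
vertex) is vertex transitive -/
lemma Uni.orbit_eq (hU : Uni V a) (hN : rk V = N + 1) {W : Subgroup (E ≃ₗᵢ[ℝ] E)}
    (h : W ≤ symGroup V) {v : E} (hv : v ∈ V)
    (hs : ∀ Φ : Flag V, 1 ≤ N → (∃ g ∈ W, fc 0 Φ = cen V + g (v - cen V)) →
      ∃ g ∈ W, fc 0 (fr 0 Φ) = cen V + g (v - cen V)) :
    (V : Set E) = {x | ∃ w ∈ W, x = cen V + w (v - cen V)} := by
  ext x
  constructor
  · intro hx
    obtain ⟨Φ, hΦ⟩ := hU.exists_flag_vertex hv
    obtain ⟨Ψ, rfl⟩ := hU.exists_flag_vertex hx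
    refine flag_induction hN (fun Ψ => ∃ w ∈ W, fc 0 Ψ = cen V + w (v - cen V)) (Φ := Φ)
      ⟨1, W.one_mem, by simp [hΦ]⟩ (fun Ψ i hi hΨ => ?_) Ψ
    by_cases h0 : i = 0
    · subst h0
      exact hs Ψ hi hΨ
    · rwa [fc_fr_ne Ψ (Ne.symm h0)]
  · rintro ⟨w, hw, rfl⟩
    exact (h hw).1 v hv

end

end Pool.Agent.MP_7fd204_co

/-! The flags of a uniform configuration form a flag system. -/

namespace Pool.Agent.MP_7fd204_co

open Classical Real

noncomputable section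

variable {E : Type} [NormedAddCommGroup E] [InnerProductSpace ℝ E] {V : Finset E} {a : ℝ} {N : ℕ}

lemma ins_semi {α : Type} {f g u : α → α} (hu : Function.Injective u)
    (h : Function.Semiconj u g f) (x : α) :
    Function.minimalPeriod f (u x) = Function.minimalPeriod g x := by
  refine Function.minimalPeriod_eq_minimalPeriod_iff.2 fun n => ?_
  show f^[n] (u x) = u x ↔ g^[n] x = x
  rw [← (h.iterate_right n).eq x, hu.eq_iff]

lemma ins_inv {α : Type} {f g : α → α} (h : Function.LeftInverse g f)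
    (h' : Function.LeftInverse f g) (x : α) :
    Function.minimalPeriod g x = Function.minimalPeriod f x := by
  refine Function.minimalPeriod_eq_minimalPeriod_iff.2 fun n => ?_
  show g^[n] x = x ↔ f^[n] x = x
  constructor
  · intro e
    conv_lhs => rw [← e]
    exact h'.iterate n x
  · intro e
    conv_lhs => rw [← e]
    exact h.iterate n x

lemma ins_fr_inj (j : ℕ) : Function.Injective (fr (V := V) j) :=
  Function.LeftInverse.injective (fr_fr j)

lemma fm_fr {i j : ℕ} (hi : 1 ≤ i) (h1 : j + 2 ≠ i) (h2 : j ≠ i + 1) (Φ : Flag V) :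
    fm i (fr j Φ) = fm i Φ := by
  have hinv := ins_inv (f := UP.rot (fr (V := V)) i) (g := fun Ψ => fr (i - 1) (fr i Ψ))
    (fun Ψ => by simp only [UP.rot, fr_fr]) (fun Ψ => by simp only [UP.rot, fr_fr]) Φ
  unfold fm
  by_cases e1 : j = i - 1
  · rw [← hinv, e1]
    exact ins_semi (ins_fr_inj _) (fun Ψ => by simp only [UP.rot, fr_fr]) Φ
  by_cases e2 : j = i
  · rw [← hinv, e2]
    exact ins_semi (ins_fr_inj _) (fun Ψ => by simp only [UP.rot]) Φ
  refine ins_semi (ins_fr_inj _) (fun Ψ => ?_) Φ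
  simp only [UP.rot]
  rcases lt_or_ge j i with h | h
  · rw [fr_comm (show j + 2 ≤ i by omega), fr_comm (show j + 2 ≤ i - 1 by omega)]
  · rw [← fr_comm (show i + 2 ≤ j by omega), ← fr_comm (show i - 1 + 2 ≤ j by omega)]

/-- the linear map of the homogenised space induced by an isometry -/
def ins_lin (g : E ≃ᵢ E) : (ℝ × E) →ₗ[ℝ] (ℝ × E) :=
  (LinearMap.fst ℝ ℝ E).prod ((LinearMap.fst ℝ ℝ E).smulRight (g 0) +
    g.toRealLinearIsometryEquiv.toLinearEquiv.toLinearMap ∘ₗ LinearMap.snd ℝ ℝ E)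

lemma ins_lin_hm (g : E ≃ᵢ E) (x : E) : ins_lin g (hm x) = hm (g x) := by
  simp [ins_lin, hm]

lemma face_image (g : E ≃ᵢ E) {F G : Finset E} (h : Face F G) : Face (F.image g) (G.image g) := by
  obtain ⟨l, h0, hl⟩ := h
  refine ⟨l ∘ₗ ins_lin g.symm, fun x hx => ?_, fun x => ?_⟩
  · obtain ⟨y, hy, rfl⟩ := Finset.mem_image.1 hx
    rw [LinearMap.comp_apply, ins_lin_hm, g.symm_apply_apply]
    exact h0 y hy
  · obtain ⟨y, rfl⟩ := g.surjective x
    rw [LinearMap.comp_apply, ins_lin_hm, g.symm_apply_apply,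
      g.injective.mem_finset_image, g.injective.mem_finset_image]
    exact hl y

lemma ins_rk_le (g : E ≃ᵢ E) (F : Finset E) : rk (F.image g) ≤ rk F := by
  have e : sp (F.image g) = (sp F).map (ins_lin g) := by
    rw [sp, sp, Submodule.map_span, Finset.coe_image, Set.image_image, Set.image_image]
    simp only [ins_lin_hm]
  rw [rk, e]
  exact Submodule.finrank_map_le _ _

lemma rk_image (g : E ≃ᵢ E) (F : Finset E) : rk (F.image g) = rk F := by
  refine le_antisymm (ins_rk_le g F) ?_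
  have := ins_rk_le g.symm (F.image g)
  rwa [Finset.image_image, show (g.symm : E → E) ∘ g = id from funext g.symm_apply_apply,
    Finset.image_id] at this

lemma ins_mid (g : E ≃ᵢ E) {A B C : Finset E} (h : Mid A C B) :
    Mid (A.image g) (C.image g) (B.image g) :=
  ⟨face_image g h.1, Finset.image_subset_image h.2.1, by rw [rk_image, rk_image, h.2.2]⟩

/-- `g` carries the faces of rank at most `k + 1` of the first flag to those of the second -/
def ins_Rel (g : E ≃ᵢ E) (k : ℕ) (Θ Θ' : Flag V) : Prop :=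
  ∀ j, j ≤ k + 1 → Θ'.f j = (Θ.f j).image g

lemma ins_step {g : E ≃ᵢ E} {k : ℕ} (hk : k + 1 ≤ rk V) {Θ Θ' : Flag V} (h : ins_Rel g k Θ Θ')
    {i : ℕ} (hi : i < k) : ins_Rel g k (fr i Θ) (fr i Θ') := by
  intro j hj
  by_cases e : j = i + 1
  · subst e
    have h2 : i + 2 ≤ rk V := by omega
    rw [fr_f_self Θ' h2]
    refine (eq_other (Θ'.face_le (by omega)) (Θ'.gap h2) (Θ'.mid h2) ?_ ?_).symm
    · rw [h i (by omega), h (i + 2) (by omega)]
      exact ins_mid g (fr_mid Θ h2)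
    · rw [h (i + 1) (by omega)]
      exact fun he => fr_ne Θ h2 (Finset.image_injective g.injective he)
  · rw [fr_f_ne _ e, fr_f_ne _ e, h j hj]

lemma ins_act {g : E ≃ᵢ E} {k : ℕ} (hk : k + 1 ≤ rk V) {w : List ℕ} (hw : UP.Wd 0 k w)
    {Θ Θ' : Flag V} (h : ins_Rel g k Θ Θ') : ins_Rel g k (UP.act fr w Θ) (UP.act fr w Θ') := by
  induction w generalizing Θ Θ' with
  | nil => exact h
  | cons i w ih =>
    rw [act_cons, act_cons]
    exact ih (fun l hl => hw l (List.mem_cons_of_mem _ hl)) (ins_step hk h (hw i (by simp)).2)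

lemma ins_rot_f {i j : ℕ} (hi : 1 ≤ i) (hj : i + 1 < j) (n : ℕ) (Θ : Flag V) :
    ((UP.rot fr i)^[n] Θ).f j = Θ.f j := by
  induction n with
  | zero => rfl
  | succ n ih =>
    rw [Function.iterate_succ_apply', UP.rot, fr_f_ne _ (by omega), fr_f_ne _ (by omega), ih]

lemma ins_fm {g : E ≃ᵢ E} {k : ℕ} (hk : k + 1 ≤ rk V) {Θ Θ' : Flag V} (h : ins_Rel g k Θ Θ')
    {i : ℕ} (h1 : 1 ≤ i) (hi : i < k) : fm i Θ = fm i Θ' := by
  have key : ∀ n, ins_Rel g k ((UP.rot fr i)^[n] Θ) ((UP.rot fr i)^[n] Θ') := by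
    intro n
    induction n with
    | zero => exact h
    | succ n ih =>
      rw [Function.iterate_succ_apply', Function.iterate_succ_apply']
      exact ins_step hk (ins_step hk ih (by omega)) hi
  refine Function.minimalPeriod_eq_minimalPeriod_iff.2 fun n => ?_
  show (UP.rot fr i)^[n] Θ = Θ ↔ (UP.rot fr i)^[n] Θ' = Θ'
  constructor
  · intro e
    ext1
    funext j
    by_cases hj : j ≤ k + 1
    · rw [key n j hj, e, h j hj]
    · exact ins_rot_f h1 (by omega) n Θ'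
  · intro e
    ext1
    funext j
    by_cases hj : j ≤ k + 1
    · apply Finset.image_injective g.injective
      rw [← key n j hj, e, h j hj]
    · exact ins_rot_f h1 (by omega) n Θ

lemma Uni.sys_trans (hU : Uni V a) (hN : rk V = N + 1) {k : ℕ} (h2 : 2 ≤ k) (hk : k ≤ N)
    (Φ : Flag V) : ∃ w, UP.Wd 1 k w ∧ UP.Eqv fr fm k (fr 0 Φ) (UP.act fr w Φ) := by
  have hF : (fr 0 Φ).f (k + 1) = Φ.f (k + 1) := fr_f_ne Φ (by omega)
  obtain ⟨g, hg, hv⟩ := hU.trans (Φ.f (k + 1)) (Φ.face _) (fc 0 (fr 0 Φ))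
    (hF ▸ fc_zero_mem (fr 0 Φ) (by omega) (by omega)) (fc 0 Φ)
    (fc_zero_mem Φ (by omega) (by omega))
  let Ψ : Flag V :=
    { f := fun j => if j ≤ k + 1 then ((fr 0 Φ).f j).image g else Φ.f j
      face := fun j => by
        split_ifs with hj
        · have := face_image g ((fr 0 Φ).face_le hj)
          rw [hF, hg] at this
          exact (Φ.face _).trans this
        · exact Φ.face j
      mono := fun j => by
        by_cases hj : j + 1 ≤ k + 1
        · rw [if_pos hj, if_pos (by omega)]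
          exact Finset.image_subset_image ((fr 0 Φ).mono j)
        · rw [if_neg hj]
          split_ifs with hj'
          · obtain rfl : j = k + 1 := by omega
            rw [hF, hg]
            exact Φ.mono _
          · exact Φ.mono j
      rk_f := fun j => by
        split_ifs with hj
        · rw [rk_image, (fr 0 Φ).rk_f]
        · exact Φ.rk_f j }
  have hR : ins_Rel g k (fr 0 Φ) Ψ := fun j hj => if_pos hj
  obtain ⟨w, hw, e⟩ := connect (a := 1) (c := k + 1) (by omega) Φ Ψ fun j hj => by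
    by_cases hj' : j ≤ k + 1
    · rw [hR j hj']
      rcases hj with hj | hj
      · rcases Nat.le_one_iff_eq_zero_or_eq_one.1 hj with rfl | rfl
        · rw [Flag.zero, Flag.zero, Finset.image_empty]
        · rw [f_one _ (by omega), f_one Φ (by omega), Finset.image_singleton, hv]
      · obtain rfl : j = k + 1 := by omega
        rw [hF, hg]
    · exact if_neg hj'
  refine ⟨w, hw, fun w' hw' i h1 hi => ?_⟩
  rw [← e]
  exact ins_fm (by omega) (ins_act (by omega) hw' hR) h1 hi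

theorem Uni.sys (hU : Uni V a) (hN : rk V = N + 1) (h1 : 1 ≤ N) :
    UP.Sys N (fr (V := V)) (fx a) fm where
  rr := fun i _ Φ => fr_fr i Φ
  comm := fun i j hij _ Φ => fr_comm hij Φ
  x0 := fun Φ => fx_zero Φ (by omega)
  x1 := fun Φ => hU.fx_one Φ (by omega)
  xlt := fun i hi Φ => hU.fx_lt Φ (by omega)
  xr := fun i j _ _ hij Φ => fx_fr_ne Φ hij
  mr := fun i j hi _ _ h1 h2 Φ => fm_fr hi h1 h2 Φ
  cyc := fun i _ _ Φ => Function.iterate_minimalPeriod
  first := fun i _ _ Φ c hc hc' he =>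
    absurd (Function.IsPeriodicPt.minimalPeriod_le hc he) (not_le.2 hc')
  poly := fun h Φ => hU.poly Φ (by omega)
  ang := fun i h2 hi Φ => hU.ang Φ h2 (by omega)
  trans := fun k h2 hk Φ => hU.sys_trans hN h2 hk Φ

end

end Pool.Agent.MP_7fd204_co

end

-- part MP_7fd204_co.GeoC
section

/-! From uniform polytopes (sets) to uniform configurations (finite sets of vertices). -/

namespace Pool.Agent.MP_7fd204_co

open Classical

noncomputable section

/-- rank is dimension plus one -/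
lemma dim_hull {F : Finset E5} (hF : F.Nonempty) : dim (convexHull ℝ (F : Set E5)) + 1 = rk F := by
  obtain ⟨v, hv⟩ := hF
  have h1 : vectorSpan ℝ (convexHull ℝ (F : Set E5)) = vectorSpan ℝ (F : Set E5) := by
    rw [← direction_affineSpan, affineSpan_convexHull, direction_affineSpan]
  have h2 : sp F = (vectorSpan ℝ (F : Set E5)).map (LinearMap.inr ℝ ℝ E5) ⊔
      Submodule.span ℝ {hm v} := by
    refine le_antisymm (Submodule.span_le.2 ?_) (sup_le ?_ ?_)
    · rintro _ ⟨x, hx, rfl⟩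
      refine Submodule.mem_sup.2 ⟨_, ⟨x - v, vsub_mem_vectorSpan ℝ hx hv, rfl⟩, hm v,
        Submodule.mem_span_singleton_self _, ?_⟩
      simp [hm]
    · rw [vectorSpan_def, Submodule.map_span, Submodule.span_le]
      rintro _ ⟨_, ⟨x, hx, y, hy, rfl⟩, rfl⟩
      have := (sp F).sub_mem (hm_mem_sp hx) (hm_mem_sp hy)
      simpa [hm] using this
    · exact (Submodule.span_singleton_le_iff_mem _ _).2 (hm_mem_sp hv)
  have h3 : hm v ∉ (vectorSpan ℝ (F : Set E5)).map (LinearMap.inr ℝ ℝ E5) := by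
    rintro ⟨x, -, hx⟩
    simpa [hm] using congrArg Prod.fst hx
  rw [dim, h1, rk, h2, Submodule.finrank_sup_span_singleton h3,
    ← (Submodule.equivMapOfInjective _ LinearMap.inr_injective _).finrank_eq]

/-- a polytope is the hull of its finitely many extreme points, and each of them is exposed -/
lemma exists_vertices (V₀ : Finset E5) :
    ∃ V : Finset E5, convexHull ℝ (V₀ : Set E5) = convexHull ℝ (V : Set E5) ∧
      ∀ v ∈ V, Face V {v} := by
  induction V₀ using Finset.strongInduction with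
  | H V₀ ih =>
    by_cases h : ∃ v ∈ V₀, v ∈ convexHull ℝ ((V₀.erase v : Finset E5) : Set E5)
    · obtain ⟨v, hv, hv'⟩ := h
      obtain ⟨V, h1, h2⟩ := ih _ (Finset.erase_ssubset hv)
      refine ⟨V, Eq.trans (le_antisymm (convexHull_min (fun x hx => ?_) (convex_convexHull _ _))
        (convexHull_mono (Finset.coe_subset.2 (Finset.erase_subset _ _)))) h1, h2⟩
      by_cases hxv : x = v
      · rwa [hxv]
      · exact subset_convexHull ℝ _ (Finset.mem_coe.2 (Finset.mem_erase.2 ⟨hxv, hx⟩))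
    · push Not at h
      refine ⟨V₀, rfl, fun v hv => ?_⟩
      obtain ⟨f, u, h1, h2⟩ := geometric_hahn_banach_point_closed (convex_convexHull ℝ _)
        ((Finset.finite_toSet _).isCompact_convexHull ℝ).isClosed (h v hv)
      refine face_of_expose (by simpa using hv)
        (f.toLinearMap ∘ₗ LinearMap.snd ℝ ℝ E5 - f v • LinearMap.fst ℝ ℝ E5) (fun x hx => ?_)
        fun x hx hx' => ?_
      · rw [Finset.mem_singleton.1 hx]
        simp [hm]
      · have := h2 x (subset_convexHull ℝ _ (Finset.mem_coe.2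
          (Finset.mem_erase.2 ⟨by simpa using hx', hx⟩)))
        simp [hm]
        linarith

lemma br_exposed {V F : Finset E5} (hF : Face V F) :
    IsExposed ℝ (convexHull ℝ (V : Set E5)) (convexHull ℝ (F : Set E5)) := by
  intro hne
  obtain ⟨l, l0, l1, l2⟩ := hF.expose
  obtain ⟨L, hL⟩ : ∃ L : E5 →L[ℝ] ℝ, ∀ x, L x = l (1, 0) - l (hm x) :=
    ⟨LinearMap.toContinuousLinearMap (-(l ∘ₗ LinearMap.inr ℝ ℝ E5)), fun x => by
      rw [← map_sub]
      simp [hm, ← map_neg]⟩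
  have h1 : ∀ y ∈ convexHull ℝ (V : Set E5), L y ≤ l (1, 0) :=
    convexHull_min (t := {y | L y ≤ l (1, 0)}) (fun y hy => (hL y).trans_le (sub_le_self _ (l0 y hy)))
      (convex_halfSpace_le L.toLinearMap.isLinear _)
  have h2 : ∀ y ∈ convexHull ℝ (F : Set E5), L y = l (1, 0) :=
    convexHull_min (t := {y | L y = l (1, 0)}) (fun y hy => (hL y).trans (by rw [l1 y hy, sub_zero]))
      (convex_hyperplane L.toLinearMap.isLinear _)
  refine ⟨L, Set.Subset.antisymm (fun x hx => ⟨convexHull_mono (Finset.coe_subset.2 hF.subset) hx,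
    fun y hy => (h1 y hy).trans (h2 x hx).ge⟩) fun x hx => ?_⟩
  obtain ⟨y, hy⟩ := hne
  have h3 := (h2 y hy).ge.trans (hx.2 y (convexHull_mono (Finset.coe_subset.2 hF.subset) hy))
  obtain ⟨w, w0, w1, w2⟩ := Finset.mem_convexHull'.1 hx.1
  have h4 : ∑ y ∈ V, w y * l (hm y) = l (1, 0) - L x := by
    rw [← w2, map_sum]
    simp only [map_smul, smul_eq_mul]
    simp only [hL, mul_sub, Finset.sum_sub_distrib, ← Finset.sum_mul, w1]
    ring
  have h5 : ∀ y ∈ V, y ∉ F → w y = 0 := fun y hy hy' =>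
    (mul_eq_zero.1 ((Finset.sum_eq_zero_iff_of_nonneg fun y hy =>
      mul_nonneg (w0 y hy) (l0 y hy)).1 (by linarith [h1 x hx.1]) y hy)).resolve_right
        (l2 y hy hy').ne'
  refine Finset.mem_convexHull'.2 ⟨w, fun y hy => w0 y (hF.subset hy), ?_, ?_⟩
  · rw [← w1]
    exact Finset.sum_subset hF.subset h5
  · rw [← w2]
    exact Finset.sum_subset hF.subset fun y hy hy' => by rw [h5 y hy hy', zero_smul]

lemma br_image (g : E5 ≃ᵢ E5) (s : Set E5) : g '' convexHull ℝ s = convexHull ℝ (g '' s) :=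
  AffineMap.image_convexHull g.toRealAffineIsometryEquiv.toAffineEquiv.toAffineMap s

lemma br_pts {V G : Finset E5} (hpts : ∀ v ∈ V, Face V {v}) (hG : Face V G) :
    ∀ v ∈ G, Face G {v} := fun v hv =>
  (hpts v (hG.subset hv)).restrict hG.subset (by simpa using hv)

lemma br_face {V G : Finset E5} (hG : Face V G) {k : ℕ} (hr : rk G = k + 1) :
    IsFace (convexHull ℝ (V : Set E5)) k (convexHull ℝ (G : Set E5)) := by
  have hne : G.Nonempty := nonempty_of_rk (by omega)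
  have := dim_hull hne
  exact ⟨convexHull_nonempty_iff.2 hne, br_exposed hG, by omega⟩

/-- uniformity as a recursion on the dimension -/
def Unif : ℕ → Set E5 → Prop
  | 0, _ => False
  | 1, _ => False
  | 2, P => IsRegularPolygon P
  | n + 3, P => IsPolytope (n + 3) P ∧
      (∀ v ∈ P.extremePoints ℝ, ∀ v' ∈ P.extremePoints ℝ, ∃ f : E5 ≃ᵢ E5, f '' P = P ∧ f v = v') ∧
      ∀ F, IsFace P (n + 2) F → Unif (n + 2) F

lemma IsUniform.unif {n : ℕ} {P : Set E5} (h : IsUniform n P) : Unif n P := by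
  induction h with
  | polygon P h => exact h
  | step n P hn h1 h2 _ ih =>
    obtain ⟨k, rfl⟩ : ∃ k, n = k + 2 := ⟨n - 2, by omega⟩
    exact ⟨h1, h2, ih⟩

lemma br_poly {n : ℕ} {P : Set E5} (h : Unif n P) : 2 ≤ n ∧ IsPolytope n P :=
  match n, h with
  | 2, h => ⟨le_rfl, h.1⟩
  | _ + 3, h => ⟨by omega, h.1⟩

lemma extreme_hull {V : Finset E5} (hpts : ∀ v ∈ V, Face V {v}) :
    (convexHull ℝ (V : Set E5)).extremePoints ℝ = (V : Set E5) := by
  refine le_antisymm extremePoints_convexHull_subset fun v hv => ?_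
  have := (br_exposed (hpts v hv)).isExtreme
  rw [Finset.coe_singleton, convexHull_singleton] at this
  exact isExtreme_singleton.1 this

lemma exposed_hull {V F : Finset E5} (hF : Face V F) :
    IsExposed ℝ (convexHull ℝ (V : Set E5)) (convexHull ℝ (F : Set E5)) := by
  exact br_exposed hF

/-- an isometry preserving the hull preserves the vertex set -/
lemma image_of_hull {V : Finset E5} (hpts : ∀ v ∈ V, Face V {v}) (g : E5 ≃ᵢ E5)
    (h : g '' convexHull ℝ (V : Set E5) = convexHull ℝ (V : Set E5)) : V.image g = V := by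
  refine (Finset.eq_of_subset_of_card_le (fun v hv => ?_) Finset.card_image_le).symm
  have h1 : v ∈ (convexHull ℝ (V : Set E5)).extremePoints ℝ := by
    rw [extreme_hull hpts]
    exact hv
  rw [← h, br_image] at h1
  have h2 := extremePoints_convexHull_subset h1
  rwa [← Finset.coe_image] at h2

/-- all faces of dimension at least two of a uniform polytope are uniform -/
lemma uniform_face (n : ℕ) {V F : Finset E5} (hpts : ∀ v ∈ V, Face V {v}) (hV : V.Nonempty)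
    (h : Unif n (convexHull ℝ (V : Set E5))) (hF : Face V F) (hr : 3 ≤ rk F) :
    Unif (rk F - 1) (convexHull ℝ (F : Set E5)) := by
  induction n using Nat.strong_induction_on generalizing V with
  | _ n ih =>
    have h1 := dim_hull hV
    rw [(br_poly h).2.2] at h1
    by_cases h2 : rk V ≤ rk F
    · rw [eq_of_rk hF h2, ← h1]
      exact h
    obtain ⟨m, rfl⟩ : ∃ m, n = m + 3 := ⟨n - 3, by omega⟩
    obtain ⟨G, hG, hFG, hrG⟩ := exists_rk hF (m + 3) (by omega) (by omega)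
    exact ih (m + 2) (by omega) (br_pts hpts hG) (nonempty_of_rk (by omega))
      (h.2.2 _ (br_face hG hrG)) (hF.restrict hG.subset hFG)

lemma br_trans {n : ℕ} {F : Finset E5} (hpts : ∀ v ∈ F, Face F {v})
    (h : Unif n (convexHull ℝ (F : Set E5))) {v w : E5} (hv : v ∈ F) (hw : w ∈ F) :
    ∃ g : E5 ≃ᵢ E5, g '' convexHull ℝ (F : Set E5) = convexHull ℝ (F : Set E5) ∧ g v = w := by
  have he := extreme_hull hpts
  match n, h with
  | 2, h =>
    have h1 := dim_hull ⟨v, hv⟩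
    rw [h.1.2] at h1
    obtain ⟨B, b1, b2, b3⟩ := exists_up (hpts v hv) (by rw [rk_singleton]; omega)
    obtain ⟨C, c1, c2, c3⟩ := exists_up (hpts w hw) (by rw [rk_singleton]; omega)
    rw [rk_singleton] at b3 c3
    obtain ⟨g, g1, g2, -⟩ := h.2 v (he.ge hv) w (he.ge hw) _ _ (br_face b1 b3) (br_face c1 c3)
      (subset_convexHull ℝ _ (b2 (by simp))) (subset_convexHull ℝ _ (c2 (by simp)))
    exact ⟨g, g1, g2⟩
  | _ + 3, h => exact h.2.1 v (he.ge hv) w (he.ge hw)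

theorem bridge (n : ℕ) (P : Set E5) (h : Unif n P) :
    ∃ (V : Finset E5) (a : ℝ), P = convexHull ℝ (V : Set E5) ∧ Uni V a ∧ rk V = n + 1 := by
  obtain ⟨hn, ⟨V₀, hV₀, rfl⟩, hd⟩ := br_poly h
  obtain ⟨V, hV, hpts⟩ := exists_vertices V₀
  have hne : V.Nonempty := by
    rw [← Finset.coe_nonempty, ← convexHull_nonempty_iff (𝕜 := ℝ), ← hV, convexHull_nonempty_iff]
    exact hV₀
  rw [hV] at h hd
  have hr : rk V = n + 1 := by rw [← dim_hull hne, hd]
  obtain ⟨Φ⟩ := exists_flag0 V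
  have hall := flag_induction hr (fun Ψ => Metric.diam (convexHull ℝ (Ψ.f 2 : Set E5)) =
    Metric.diam (convexHull ℝ (Φ.f 2 : Set E5))) (Φ := Φ) rfl fun Ψ i _ hΨ => by
      rw [← hΨ]
      by_cases hi : i = 1
      swap
      · rw [fr_f_ne Ψ (by omega)]
      subst hi
      have h3 := Ψ.rk_of_le (k := 3) (by omega)
      have h4 := uniform_face n hpts hne h (Ψ.face 3) h3.ge
      rw [h3] at h4
      obtain ⟨u, hu⟩ := eq_singleton_of_rk (Ψ.rk_of_le (k := 1) (by omega))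
      have hu2 : u ∈ Ψ.f 2 := Ψ.mono 1 (by simp [hu])
      have hu3 : u ∈ (convexHull ℝ (Ψ.f 3 : Set E5)).extremePoints ℝ := by
        rw [extreme_hull (br_pts hpts (Ψ.face 3))]
        exact Ψ.mono 2 hu2
      have hm := fr_mid Ψ (i := 1) (by omega)
      obtain ⟨f, -, -, hf⟩ := h4.2 u hu3 u hu3 _ _
        (br_face (Ψ.face_le (j := 2) (k := 3) (by omega)) (Ψ.rk_of_le (by omega)))
        (br_face hm.1 (hm.2.2.trans (by rw [hu, rk_singleton])))
        (subset_convexHull ℝ _ hu2) (subset_convexHull ℝ _ (hm.2.1 (by simp [hu])))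
      rw [← hf, f.isometry.diam_image]
  have hdiam : ∀ v w : E5, Metric.diam (convexHull ℝ ({v, w} : Set E5)) = dist v w :=
    fun v w => by rw [convexHull_diam, Metric.diam_pair]
  refine ⟨V, Metric.diam (convexHull ℝ (Φ.f 2 : Set E5)), hV, ⟨?_, hpts, fun F hF v hv w hw => ?_,
    fun v w hvw hF => ?_⟩, hr⟩
  · obtain ⟨v, w, hvw, e⟩ := eq_pair_of_rk (br_pts hpts (Φ.face 2)) (Φ.rk_of_le (by omega))
    rw [e, @Finset.coe_pair _ (_), hdiam]
    exact dist_pos.2 hvw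
  · by_cases hvw : v = w
    · refine ⟨IsometryEquiv.refl _, Finset.coe_injective ?_, hvw⟩
      rw [@Finset.coe_image _ _ (_)]
      exact Set.image_id _
    by_cases h3 : 3 ≤ rk F
    · obtain ⟨g, h1, h2⟩ := br_trans (br_pts hpts hF) (uniform_face n hpts hne h hF h3) hv hw
      refine ⟨g, Finset.coe_injective ?_, h2⟩
      have := congrArg (fun s : Finset E5 => (s : Set E5)) (image_of_hull (br_pts hpts hF) g h1)
      beta_reduce at this
      rw [@Finset.coe_image _ _ (_)] at this ⊢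
      exact this
    have h2 : 2 ≤ rk F := (rk_pair hvw).ge.trans (rk_mono (by
      simp [Finset.insert_subset_iff, hv, hw]))
    obtain ⟨x, y, hxy, rfl⟩ := eq_pair_of_rk (br_pts hpts hF) (by omega)
    refine ⟨(IsometryEquiv.neg E5).trans (IsometryEquiv.addLeft (v + w)), ?_, by simp⟩
    simp only [Finset.mem_insert, Finset.mem_singleton] at hv hw
    rcases hv with rfl | rfl <;> rcases hw with rfl | rfl <;> simp_all [Finset.pair_comm]
  · obtain ⟨Ψ, hΨ⟩ := exists_flag hF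
    rw [rk_pair hvw] at hΨ
    rw [← hall Ψ, hΨ, @Finset.coe_pair _ (_), hdiam]

end

end Pool.Agent.MP_7fd204_co

/-! Mirror configurations are orbits of finite reflection groups; products; the grand antiprism prism. -/

namespace Pool.Agent.MP_7fd204_co

open Classical Pointwise

noncomputable section

variable {V : Finset E5} {a : ℝ} {N : ℕ}

lemma mi_carries (hU : Uni V a) (hN : rk V = N + 1) (h1 : 1 ≤ N) (Φ : Flag V) :
    Carries N ((ℝ ∙ fe 1 Φ)ᗮ.reflection.toLinearEquiv : E5 →ₗ[ℝ] E5) Φ (fr 0 Φ) := by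
  intro i hi1 hi2
  by_cases hi : i = 1
  · subst hi
    rw [hU.fe_fr_zero Φ (by omega)]
    exact Submodule.reflection_orthogonalComplement_singleton_eq_neg _
  · rw [fe_fr_ne Φ (by omega) (by omega)]
    apply Submodule.reflection_mem_subspace_eq_self
    rw [Submodule.mem_orthogonal_singleton_iff_inner_right]
    exact hU.fe_orth Φ (by omega) le_rfl hi1 (Ne.symm hi)

lemma mi_sym (hU : Uni V a) (hN : rk V = N + 1) (h1 : 1 ≤ N) (Φ : Flag V)
    (h : Beh a N (fr 0 Φ) Φ) : IsSym V (ℝ ∙ fe 1 Φ)ᗮ.reflection :=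
  ⟨fun v hv => (mi_carries hU hN h1 Φ).vertex hU hU hN hN h.symm hv, fun y hy =>
    Submodule.reflection_mem_subspace_eq_self
      (Submodule.mem_orthogonal_singleton_iff_inner_left.2 (hy.fe (by omega) Φ le_rfl))⟩

theorem Uni.mirror (hU : Uni V a) (hN : rk V = N + 1) (h : ∀ Φ : Flag V, Beh a N (fr 0 Φ) Φ) :
    IsOrbitHull (convexHull ℝ (V : Set E5)) := by
  let S : Set E5 := {s | 1 ≤ N ∧ ∃ Φ : Flag V, s = fe 1 Φ}
  let W : Subgroup (E5 ≃ₗᵢ[ℝ] E5) := Subgroup.closure ((fun a : E5 => (ℝ ∙ a)ᗮ.reflection) '' S)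
  have hW : W ≤ symGroup V := by
    refine (Subgroup.closure_le _).2 ?_
    rintro _ ⟨s, ⟨h1, Φ, rfl⟩, rfl⟩
    exact mi_sym hU hN h1 Φ (h Φ)
  obtain ⟨v, hv⟩ := nonempty_of_rk (F := V) (by omega)
  refine ⟨W, cen V, v - cen V, ⟨hU.finite_of_le hN hW, S, ?_, rfl⟩, ?_⟩
  · rintro s ⟨h1, Φ, rfl⟩
    exact fe_ne Φ le_rfl (by omega)
  · rw [hU.orbit_eq hN hW hv]
    rintro Φ h1 ⟨g, hg, he⟩
    refine ⟨(ℝ ∙ fe 1 Φ)ᗮ.reflection * g,
      W.mul_mem (Subgroup.subset_closure ⟨fe 1 Φ, ⟨h1, Φ, rfl⟩, rfl⟩) hg, ?_⟩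
    have hc := (mi_carries hU hN h1 Φ).centre hN hN (Nat.zero_le N)
    rw [he, add_sub_cancel_left] at hc
    have hc' : (ℝ ∙ fe 1 Φ)ᗮ.reflection (g (v - cen V)) = fc 0 (fr 0 Φ) - cen V := hc
    rw [LinearIsometryEquiv.coe_mul, Function.comp_apply, hc', add_sub_cancel]

lemma mi_span_vadd (c : E5) (A : Set E5) : vectorSpan ℝ (c +ᵥ A) = vectorSpan ℝ A := by
  rw [vectorSpan_def, vectorSpan_def]
  congr 1
  ext x
  constructor
  · rintro ⟨_, ⟨y, hy, rfl⟩, _, ⟨z, hz, rfl⟩, rfl⟩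
    exact ⟨y, hy, z, hz, by simp⟩
  · rintro ⟨y, hy, z, hz, rfl⟩
    exact ⟨c +ᵥ y, ⟨y, hy, rfl⟩, c +ᵥ z, ⟨z, hz, rfl⟩, by simp⟩

lemma mi_vadd_add (c : E5) (A B : Set E5) : c +ᵥ (A + B) = (c +ᵥ A) + B := by
  ext x
  constructor
  · rintro ⟨_, ⟨y, hy, z, hz, rfl⟩, rfl⟩
    exact ⟨c +ᵥ y, ⟨y, hy, rfl⟩, z, hz, by simp [add_assoc]⟩
  · rintro ⟨_, ⟨y, hy, rfl⟩, z, hz, rfl⟩
    exact ⟨y + z, ⟨y, hy, z, hz, rfl⟩, by simp [add_assoc]⟩

lemma IsWythoffian.vadd {P : Set E5} (h : IsWythoffian P) (c : E5) : IsWythoffian (c +ᵥ P) := by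
  induction h with
  | orbit P h =>
    obtain ⟨W, c0, v, hW, rfl⟩ := h
    refine .orbit _ ⟨W, c + c0, v, hW, ?_⟩
    rw [← convexHull_vadd]
    congr 1
    ext x
    constructor
    · rintro ⟨_, ⟨w, hw, rfl⟩, rfl⟩
      exact ⟨w, hw, by simp [add_assoc]⟩
    · rintro ⟨w, hw, rfl⟩
      exact ⟨c0 + w v, ⟨w, hw, rfl⟩, by simp [add_assoc]⟩
  | snub P h =>
    obtain ⟨W, c0, v, hW, rfl⟩ := h
    refine .snub _ ⟨W, c + c0, v, hW, ?_⟩
    rw [← convexHull_vadd]
    congr 1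
    ext x
    constructor
    · rintro ⟨_, ⟨w, hw, hd, rfl⟩, rfl⟩
      exact ⟨w, hw, hd, by simp [add_assoc]⟩
    · rintro ⟨w, hw, hd, rfl⟩
      exact ⟨c0 + w v, ⟨w, hw, hd, rfl⟩, by simp [add_assoc]⟩
  | prod A B hA hB ho ihA _ =>
    rw [mi_vadd_add]
    exact .prod _ _ ihA hB (by rwa [mi_span_vadd])

lemma mi_span_hull {F : Finset E5} {v : E5} (hv : v ∈ F) :
    vectorSpan ℝ (convexHull ℝ (F : Set E5)) = Submodule.span ℝ ((· -ᵥ v) '' (F : Set E5)) := by
  rw [← direction_affineSpan, affineSpan_convexHull, direction_affineSpan,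
    vectorSpan_eq_span_vsub_set_right ℝ (Finset.mem_coe.2 hv)]

theorem wyth_prod {F₁ F₂ : Finset E5} {v : E5} (hv₁ : v ∈ F₁) (hv₂ : v ∈ F₂)
    (ho : ∀ x ∈ F₁, ∀ y ∈ F₂, inner ℝ (x - v) (y - v) = 0)
    (hV : ∀ z, z ∈ V ↔ ∃ x ∈ F₁, ∃ y ∈ F₂, z = x + y - v)
    (h₁ : IsWythoffian (convexHull ℝ (F₁ : Set E5))) (h₂ : IsWythoffian (convexHull ℝ (F₂ : Set E5))) :
    IsWythoffian (convexHull ℝ (V : Set E5)) := by
  have e : (V : Set E5) = (-v) +ᵥ ((F₁ : Set E5) + (F₂ : Set E5)) := by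
    ext z
    rw [Finset.mem_coe, hV]
    constructor
    · rintro ⟨x, hx, y, hy, rfl⟩
      exact ⟨x + y, ⟨x, hx, y, hy, rfl⟩, by simp [sub_eq_neg_add]⟩
    · rintro ⟨_, ⟨x, hx, y, hy, rfl⟩, rfl⟩
      exact ⟨x, hx, y, hy, by simp [sub_eq_neg_add]⟩
  rw [e, convexHull_vadd, convexHull_add]
  refine IsWythoffian.vadd (.prod _ _ h₁ h₂ ?_) _
  rw [mi_span_hull hv₁, mi_span_hull hv₂, Submodule.isOrtho_span]
  rintro _ ⟨x, hx, rfl⟩ _ ⟨y, hy, rfl⟩
  exact ho x hx y hy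

/-- `V` is the vertex set of a grand antiprism of edge length `a` -/
def IsGrand (V : Finset E5) (a : ℝ) : Prop :=
  ∃ f : E5 ≃ᵢ E5, (V : Set E5) =
    f '' ((a * phi) • {y : E5 | (fun i : Fin 4 => y i.castSucc) ∈ grandVerts ∧ y 4 = 0})

lemma mi_phi_pos : 0 < phi := by
  unfold phi
  positivity

/-- the last unit vector -/
def mi_e : E5 := EuclideanSpace.single 4 1

lemma mi_e_cast (i : Fin 4) : mi_e i.castSucc = 0 := by
  have : i.castSucc ≠ (4 : Fin 5) := (Fin.castSucc_lt_last i).ne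
  simp [mi_e, this]

lemma mi_e_four : mi_e 4 = 1 := by simp [mi_e]

lemma mi_prism {F₁ : Finset E5} {v w : E5} (ha : 0 < a)
    (hV : ∀ z, z ∈ V ↔ ∃ x ∈ F₁, z = x ∨ z = x + w - v) (f : E5 ≃ᵢ E5)
    (hf : (F₁ : Set E5) =
      f '' ((a * phi) • {y : E5 | (fun i : Fin 4 => y i.castSucc) ∈ grandVerts ∧ y 4 = 0}))
    (hu : ∀ y, f (y + a • mi_e) = f y + w - v) :
    Similar (convexHull ℝ (V : Set E5)) grandPrism := by
  have hp := mi_phi_pos
  have hs : ∀ y : E5, (a * phi) • (y + phi⁻¹ • mi_e) = (a * phi) • y + a • mi_e := fun y => by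
    rw [smul_add, smul_smul, mul_assoc, mul_inv_cancel₀ hp.ne', mul_one]
  have e : (V : Set E5) = f '' ((a * phi) •
      {y : E5 | (fun i : Fin 4 => y i.castSucc) ∈ grandVerts ∧ (y 4 = 0 ∨ y 4 = phi⁻¹)}) := by
    ext z
    rw [Finset.mem_coe, hV]
    constructor
    · rintro ⟨x, hx, hz⟩
      have hx' : x ∈ (F₁ : Set E5) := hx
      rw [hf] at hx'
      obtain ⟨_, ⟨y, ⟨hy1, hy2⟩, rfl⟩, rfl⟩ := hx'
      rcases hz with rfl | rfl
      · exact ⟨_, ⟨y, ⟨hy1, Or.inl hy2⟩, rfl⟩, rfl⟩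
      · refine ⟨_, ⟨y + phi⁻¹ • mi_e, ⟨?_, Or.inr ?_⟩, rfl⟩, ?_⟩
        · simpa [mi_e_cast] using hy1
        · simp [hy2, mi_e_four]
        · simp only
          rw [hs, hu]
    · rintro ⟨_, ⟨y, ⟨hy1, hy2⟩, rfl⟩, rfl⟩
      rcases hy2 with hy2 | hy2
      · refine ⟨_, ?_, Or.inl rfl⟩
        rw [← Finset.mem_coe, hf]
        exact ⟨_, ⟨y, ⟨hy1, hy2⟩, rfl⟩, rfl⟩
      · refine ⟨f ((a * phi) • (y - phi⁻¹ • mi_e)), ?_, Or.inr ?_⟩
        · rw [← Finset.mem_coe, hf]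
          refine ⟨_, ⟨y - phi⁻¹ • mi_e, ⟨?_, ?_⟩, rfl⟩, rfl⟩
          · simpa [mi_e_cast] using hy1
          · simp [hy2, mi_e_four]
        · rw [← hu, ← hs, sub_add_cancel]
  refine ⟨a * phi, f, mul_pos ha hp, ?_⟩
  rw [e, grandPrism, ← convexHull_smul]
  exact (f.toRealAffineIsometryEquiv.toAffineEquiv.toAffineMap.image_convexHull _).symm

lemma mi_half (x : Fin 4 → ℝ) (h : ∀ i, |x i| = 1 / 2) : x ∈ grandVerts := by
  refine ⟨Or.inr (Or.inl h), fun h3 => ?_, fun h0 => ?_⟩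
  · have := h 3
    rw [h3.1] at this
    norm_num at this
  · have := h 0
    rw [h0.1] at this
    norm_num at this

/-- the point with first four coordinates one half -/
def mi_h : E5 := WithLp.toLp 2 fun j => if j = 4 then 0 else 1 / 2

lemma mi_h_cast (i : Fin 4) : mi_h i.castSucc = 1 / 2 := by
  have : i.castSucc ≠ (4 : Fin 5) := (Fin.castSucc_lt_last i).ne
  simp [mi_h, this]

lemma mi_h_four : mi_h 4 = 0 := by simp [mi_h]

theorem grand_prism {F₁ : Finset E5} {v w : E5} (ha : 0 < a) (hv₁ : v ∈ F₁) (hvw : dist v w = a)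
    (ho : ∀ x ∈ F₁, inner ℝ (x - v) (w - v) = 0)
    (hV : ∀ z, z ∈ V ↔ ∃ x ∈ F₁, z = x ∨ z = x + w - v) (h₁ : IsGrand F₁ a) :
    Similar (convexHull ℝ (V : Set E5)) grandPrism := by
  obtain ⟨f, hf⟩ := h₁
  have hp := mi_phi_pos
  have ht : a * phi ≠ 0 := (mul_pos ha hp).ne'
  set L := f.toRealLinearIsometryEquiv with hL
  have hfL : ∀ x, f x = L x + f 0 := fun x => by
    rw [hL, IsometryEquiv.toRealLinearIsometryEquiv_apply, sub_add_cancel]
  set u := L.symm (w - v) with hu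
  have hLu : L u = w - v := by rw [hu, LinearIsometryEquiv.apply_symm_apply]
  have hmem : ∀ y : E5, (∀ i : Fin 4, |y i.castSucc| = 1 / 2) → y 4 = 0 → f ((a * phi) • y) ∈ F₁ :=
    fun y h1 h2 => by
      rw [← Finset.mem_coe, hf]
      exact ⟨_, ⟨y, ⟨mi_half _ h1, h2⟩, rfl⟩, rfl⟩
  have hz : ∀ i : Fin 4, u i.castSucc = 0 := fun i => by
    have hi : i.castSucc ≠ (4 : Fin 5) := (Fin.castSucc_lt_last i).ne
    have m1 := ho _ (hmem mi_h (fun j => by rw [mi_h_cast]; norm_num) mi_h_four)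
    have m2 := ho _ (hmem (mi_h - EuclideanSpace.single i.castSucc 1) (fun j => by
      by_cases hj : j = i
      · subst hj
        simp [mi_h_cast]
        norm_num
      · simp [mi_h_cast, hj]) (by simp [mi_h_four, hi.symm]))
    have m3 : inner ℝ (f ((a * phi) • mi_h) -
        f ((a * phi) • (mi_h - EuclideanSpace.single i.castSucc 1))) (w - v) = 0 := by
      rw [← sub_sub_sub_cancel_right _ _ v, inner_sub_left, m1, m2, sub_zero]
    rw [hfL, hfL ((a * phi) • (mi_h - _)), add_sub_add_right_eq_sub, ← map_sub, ← hLu,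
      LinearIsometryEquiv.inner_map_map, ← smul_sub, sub_sub_cancel, real_inner_smul_left,
      EuclideanSpace.inner_single_left] at m3
    simpa [ha.ne', hp.ne'] using m3
  have hue : u = u 4 • mi_e := by
    ext j
    refine Fin.lastCases ?_ (fun i => ?_) j
    · show u 4 = (u 4 • mi_e) 4
      simp [mi_e_four]
    · simp [hz, mi_e_cast]
  have hn : |u 4| = a := by
    have h1 : ‖u‖ = a := by
      rw [hu, LinearIsometryEquiv.norm_map, ← dist_eq_norm, dist_comm, hvw]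
    rw [hue, norm_smul] at h1
    simpa [mi_e] using h1
  rcases (abs_eq ha.le).1 hn with h4 | h4
  · refine mi_prism ha hV f hf fun y => ?_
    rw [hfL, hfL y, map_add, ← h4, ← hue, hLu]
    abel
  · let R : E5 ≃ₗᵢ[ℝ] E5 := (ℝ ∙ mi_e)ᗮ.reflection
    have hR1 : ∀ y : E5, y 4 = 0 → R y = y := fun y hy => by
      apply Submodule.reflection_mem_subspace_eq_self
      rw [Submodule.mem_orthogonal_singleton_iff_inner_right, mi_e, EuclideanSpace.inner_single_left]
      simp [hy]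
    have hR2 : R mi_e = -mi_e := Submodule.reflection_orthogonalComplement_singleton_eq_neg _
    refine mi_prism ha hV (R.toIsometryEquiv.trans f) ?_ fun y => ?_
    · rw [hf]
      refine Set.image_congr ?_
      rintro _ ⟨y, ⟨-, hy⟩, rfl⟩
      show f _ = f (R _)
      rw [hR1 _ (by simp [hy])]
    · show f (R (y + a • mi_e)) = f (R y) + w - v
      rw [map_add, map_smul, hR2, hfL, hfL (R y), map_add, smul_neg, ← neg_smul, ← h4, ← hue, hLu]
      abel

end

end Pool.Agent.MP_7fd204_co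

/-! Two-coloured frames give an orthogonal product decomposition. -/

namespace Pool.Agent.MP_7fd204_co

open Classical

noncomputable section

variable {E : Type} [NormedAddCommGroup E] [InnerProductSpace ℝ E] [FiniteDimensional ℝ E]
  {V : Finset E} {a : ℝ} {N : ℕ}

lemma pr_co {A B : ℝ} (hA : 0 < A) (hB : 0 < B) : co1 A B B A = 0 ∧ co2 A B B A = 1 := by
  have h : √(B * A) / √(A * B) = 1 := by
    rw [mul_comm B A, div_self (Real.sqrt_pos.2 (mul_pos hA hB)).ne']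
  rw [co1, co2, h, one_mul, one_mul, sub_self, zero_div, add_comm B A, div_self (add_pos hA hB).ne']
  exact ⟨rfl, rfl⟩

/-- a mixed diamond is a rectangle -/
lemma Uni.fe_swap (hU : Uni V a) (Φ : Flag V) {i : ℕ} (h : i + 3 ≤ rk V)
    (hx : fx a (i + 1) Φ + fx a (i + 1) (fr (i + 1) Φ) = fx a i Φ + fx a (i + 2) Φ) :
    fe (i + 1) (fr (i + 1) Φ) = fe (i + 2) Φ ∧ fe (i + 2) (fr (i + 1) Φ) = fe (i + 1) Φ := by
  have hA := hU.fx_lt Φ (i := i) (by omega)
  have hB := hU.fx_lt Φ (i := i + 1) (by omega)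
  rw [show i + 1 + 1 = i + 2 from rfl] at hB
  have h1 : fe (i + 1) (fr (i + 1) Φ) = fe (i + 2) Φ := by
    rw [hU.fe_fr Φ h,
      show fx a (i + 1) (fr (i + 1) Φ) - fx a i Φ = fx a (i + 2) Φ - fx a (i + 1) Φ by linarith,
      show fx a (i + 2) Φ - fx a (i + 1) (fr (i + 1) Φ) = fx a (i + 1) Φ - fx a i Φ by linarith]
    obtain ⟨e1, e2⟩ := pr_co (sub_pos.2 hA) (sub_pos.2 hB)
    rw [e1, e2, zero_smul, one_smul, zero_add]
  refine ⟨h1, ?_⟩
  rw [fe_fr_add Φ (i + 1), h1]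
  exact add_sub_cancel_right _ _

omit [FiniteDimensional ℝ E] in
lemma pr_fe_mem (Φ : Flag V) (h1 : 1 ≤ rk V) {W : Submodule ℝ E}
    (h : ∀ v ∈ V, ∀ w ∈ V, w - v ∈ W) {j : ℕ} (hj : 1 ≤ j) : fe j Φ ∈ W := by
  have hv := fc_zero_mem_V Φ h1
  have key : ∀ k, 1 ≤ k → cen (Φ.f k) - fc 0 Φ ∈ W := fun k hk => by
    have hc : ((Φ.f k).card : ℝ) ≠ 0 := by exact_mod_cast (Φ.nonempty hk h1).card_pos.ne'
    have e : cen (Φ.f k) - fc 0 Φ = ((Φ.f k).card : ℝ)⁻¹ • ∑ x ∈ Φ.f k, (x - fc 0 Φ) := by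
      rw [Finset.sum_sub_distrib, Finset.sum_const, smul_sub, ← Nat.cast_smul_eq_nsmul ℝ, smul_smul,
        inv_mul_cancel₀ hc, one_smul, cen]
    rw [e]
    exact Submodule.smul_mem _ _ (Submodule.sum_mem _ fun x hx => h _ hv _ ((Φ.face k).subset hx))
  simpa [fe] using sub_mem (key (j + 1) (by omega)) (key j hj)

/-- every edge is parallel to `U` or to its orthogonal complement, and both kinds occur -/
def Split (V : Finset E) : Prop :=
  ∃ U : Submodule ℝ E, (∀ v w, v ≠ w → Face V {v, w} → w - v ∈ U ∨ w - v ∈ Uᗮ) ∧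
    (∃ v ∈ V, ∃ w ∈ V, w - v ∉ U) ∧ (∃ v ∈ V, ∃ w ∈ V, w - v ∉ Uᗮ)

lemma Uni.edge_split (hU : Uni V a) (hN : rk V = N + 1) (Φ : Flag V)
    (h : UP.Prod fr (fx a) N Φ) : Split V := by
  obtain ⟨R, ⟨t0, i0, j0, hR0, hi1, hi2, hj1, hj2, hne⟩, hR⟩ := h
  have h1 : 1 ≤ rk V := by omega
  set U : Submodule ℝ E := Submodule.span ℝ {y | ∃ i, 1 ≤ i ∧ t0 i = true ∧ y = fe i Φ} with hUdef
  set col : Bool → Submodule ℝ E := fun b => cond b U Uᗮ with hcol
  have base : ∀ i, 1 ≤ i → fe i Φ ∈ col (t0 i) := by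
    intro i hi
    cases ht : t0 i
    · refine (Submodule.mem_orthogonal _ _).2 fun u hu => ?_
      induction hu using Submodule.span_induction with
      | mem y hy =>
        obtain ⟨j, hj, htj, rfl⟩ := hy
        exact hU.fe_orth Φ h1 hj hi fun e => by simp [e, ht] at htj
      | zero => simp
      | add y z _ _ hy hz => rw [inner_add_left, hy, hz, add_zero]
      | smul c y _ hy => rw [real_inner_smul_left, hy, mul_zero]
    · exact Submodule.subset_span ⟨i, hi, ht, rfl⟩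
  have key : ∀ Ψ : Flag V, ∃ t, R Ψ t ∧ ∀ i, 1 ≤ i → fe i Ψ ∈ col (t i) := by
    refine flag_induction hN _ ⟨t0, hR0, base⟩ ?_
    rintro Ψ k hk ⟨t, ht, hin⟩
    obtain ⟨r0, rs⟩ := hR Ψ t ht
    rcases k with _ | i
    · refine ⟨t, r0, fun j hj => ?_⟩
      by_cases e : j = 1
      · subst e
        rw [hU.fe_fr_zero Ψ (by omega)]
        exact neg_mem (hin 1 le_rfl)
      · rw [fe_fr_ne Ψ (by omega) (by omega)]
        exact hin j hj
    · obtain ⟨r1, r2⟩ := rs (i + 1) (by omega) hk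
      have m1 := hin (i + 1) (by omega)
      have m2 := hin (i + 2) (by omega)
      have both : fe (i + 1) (fr (i + 1) Ψ) ∈ col (t (i + 2)) ∧
          fe (i + 2) (fr (i + 1) Ψ) ∈ col (t (i + 1)) := by
        by_cases e : t (i + 1) = t (i + 2)
        · rw [← e] at m2 ⊢
          have m3 : fe (i + 1) (fr (i + 1) Ψ) ∈ col (t (i + 1)) := by
            rw [hU.fe_fr Ψ (by omega)]
            exact add_mem (Submodule.smul_mem _ _ m1) (Submodule.smul_mem _ _ m2)
          refine ⟨m3, ?_⟩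
          rw [fe_fr_add Ψ (i + 1)]
          exact sub_mem (add_mem m1 m2) m3
        · obtain ⟨e1, e2⟩ := hU.fe_swap Ψ (i := i) (by omega) (r2 e)
          rw [e1, e2]
          exact ⟨m2, m1⟩
      refine ⟨_, r1, fun j hj => ?_⟩
      by_cases e1 : j = i + 1
      · subst e1
        rw [Function.comp_apply, Equiv.swap_apply_left]
        exact both.1
      by_cases e2 : j = i + 1 + 1
      · subst e2
        rw [Function.comp_apply, Equiv.swap_apply_right]
        exact both.2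
      · rw [Function.comp_apply, Equiv.swap_apply_of_ne_of_ne e1 e2, fe_fr_ne Ψ e1 e2]
        exact hin j hj
  have both : ∀ j, 1 ≤ j → j ≤ N → fe j Φ ∈ U → fe j Φ ∈ Uᗮ → False := fun j h2 h3 m1 m2 =>
    fe_ne Φ h2 (by omega) (inner_self_eq_zero.1 (Submodule.inner_right_of_mem_orthogonal m1 m2))
  obtain ⟨i, j, i1, i2, j1, j2, ti, tj⟩ :
      ∃ i j, 1 ≤ i ∧ i ≤ N ∧ 1 ≤ j ∧ j ≤ N ∧ t0 i = true ∧ t0 j = false := by
    cases e : t0 i0
    · exact ⟨j0, i0, hj1, hj2, hi1, hi2, by simpa [e] using hne, e⟩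
    · exact ⟨i0, j0, hi1, hi2, hj1, hj2, e, by simpa [e] using hne⟩
  refine ⟨U, fun v w hvw hf => ?_, ?_, ?_⟩
  · obtain ⟨Ψ, e1, e2⟩ := hU.exists_flag_edge hvw hf
    obtain ⟨t, -, hin⟩ := key Ψ
    have m := hin 1 le_rfl
    rw [← e2, ← e1, hU.fc_fr_zero Ψ (by omega), add_sub_cancel_left]
    cases e : t 1
    · rw [e] at m
      exact Or.inr (Submodule.smul_mem _ _ m)
    · rw [e] at m
      exact Or.inl (Submodule.smul_mem _ _ m)
  · by_contra hc
    push Not at hc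
    have m := base j j1
    rw [tj] at m
    exact both j j1 j2 (pr_fe_mem Φ h1 hc j1) m
  · by_contra hc
    push Not at hc
    have m := base i i1
    rw [ti] at m
    exact both i i1 i2 m (pr_fe_mem Φ h1 hc i1)

/-- the affine functional `x ↦ L (x - u)` -/
def prFn (L : E →ₗ[ℝ] ℝ) (u : E) : Fn E :=
  L ∘ₗ LinearMap.snd ℝ ℝ E - L u • LinearMap.fst ℝ ℝ E

omit [FiniteDimensional ℝ E] in
lemma pr_fn (L : E →ₗ[ℝ] ℝ) (u x : E) : prFn L u (hm x) = L (x - u) := by
  simp [prFn, hm]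

omit [FiniteDimensional ℝ E] in
lemma pr_cone {G : Finset E} (hpts : ∀ v ∈ G, Face G {v}) {u : E} (hu : u ∈ G) (L : E →ₗ[ℝ] ℝ)
    (h : ∀ w, w ≠ u → Face G {u, w} → 0 ≤ L (w - u)) : ∀ x ∈ G, 0 ≤ L (x - u) := by
  simpa only [pr_fn] using vertex_cone hpts hu (prFn L u) (by simp [pr_fn])
    (by simpa only [pr_fn] using h)

omit [FiniteDimensional ℝ E] in
lemma pr_face (L : E →ₗ[ℝ] ℝ) (u : E) (h : ∀ x ∈ V, 0 ≤ L (x - u)) :
    Face V (V.filter fun x => L (x - u) = 0) := by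
  simpa only [pr_fn] using face_filter V (prFn L u) (by simpa only [pr_fn] using h)

omit [FiniteDimensional ℝ E] in
lemma pr_expose {v : E} (h : Face V {v}) :
    ∃ L : E →ₗ[ℝ] ℝ, (∀ x ∈ V, 0 ≤ L (x - v)) ∧ ∀ x ∈ V, L (x - v) = 0 → x = v := by
  obtain ⟨l, l0, l1, l2⟩ := h.expose
  have e : ∀ x, (l ∘ₗ LinearMap.inr ℝ ℝ E) (x - v) = l (hm x) := fun x => by
    have : LinearMap.inr ℝ ℝ E (x - v) = hm x - hm v := by simp [hm]
    rw [LinearMap.comp_apply, this, map_sub, l1 v (Finset.mem_singleton_self v), sub_zero]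
  refine ⟨l ∘ₗ LinearMap.inr ℝ ℝ E, fun x hx => e x ▸ l0 x hx, fun x hx h0 => ?_⟩
  by_contra hne
  exact (l2 x hx (by simpa using hne)).ne' (e x ▸ h0)

/-- complementary projections, one of which kills each edge -/
structure PrSplit (V : Finset E) (P Q : E →ₗ[ℝ] E) : Prop where
  pts : ∀ v ∈ V, Face V {v}
  add : ∀ x, P x + Q x = x
  pq : ∀ x, P (Q x) = 0
  qp : ∀ x, Q (P x) = 0
  edge : ∀ v w, v ≠ w → Face V {v, w} → P (w - v) = 0 ∨ Q (w - v) = 0

section
omit [FiniteDimensional ℝ E]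
variable {P Q : E →ₗ[ℝ] E}

lemma PrSplit.symm (S : PrSplit V P Q) : PrSplit V Q P :=
  ⟨S.pts, fun x => (add_comm _ _).trans (S.add x), S.qp, S.pq,
    fun v w h hf => (S.edge v w h hf).symm⟩

lemma PrSplit.self (S : PrSplit V P Q) {x : E} (h : Q x = 0) : P x = x := by
  simpa [h] using S.add x

lemma PrSplit.min (S : PrSplit V P Q) {z : E} (hz : z ∈ V) (L : E →ₗ[ℝ] ℝ)
    (h : ∀ x ∈ V, 0 ≤ L (x - z)) : ∀ x ∈ V, 0 ≤ (L ∘ₗ P) (x - z) := by
  refine pr_cone S.pts hz _ fun w hw hf => ?_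
  rw [LinearMap.comp_apply]
  rcases S.edge z w hw.symm hf with e | e
  · rw [e, map_zero]
  · rw [S.self e]
    exact h w (hf.subset (by simp))

lemma PrSplit.uniq (S : PrSplit V P Q) {u : E} (hu : u ∈ V) (L : E →ₗ[ℝ] ℝ)
    (h : ∀ x ∈ V, 0 ≤ L (x - u)) (h' : ∀ x ∈ V, L (x - u) = 0 → x = u) {z : E} (hz : z ∈ V)
    (h0 : (L ∘ₗ P) (z - u) = 0) : P (z - u) = 0 := by
  have hG := pr_face (L ∘ₗ P) u (S.min hu L h)
  have key := pr_cone (G := V.filter fun x => (L ∘ₗ P) (x - u) = 0)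
    (fun v hv => (S.pts v (hG.subset hv)).restrict hG.subset (by simpa using hv))
    (u := u) (by simp [hu]) (-(innerₛₗ ℝ (P (z - u))) ∘ₗ P) (fun w hw hf => by
      have hw' := Finset.mem_filter.1 (hf.subset (show w ∈ ({u, w} : Finset E) by simp))
      rcases S.edge u w hw.symm (hG.trans hf) with e | e
      · simp only [LinearMap.neg_apply, LinearMap.comp_apply, e, map_zero, neg_zero, le_refl]
      · have := hw'.2
        rw [LinearMap.comp_apply, S.self e] at this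
        exact absurd (h' w hw'.1 this) hw) z (Finset.mem_filter.2 ⟨hz, h0⟩)
  rw [LinearMap.neg_apply, LinearMap.comp_apply, innerₛₗ_apply_apply, neg_nonneg] at key
  exact real_inner_self_nonpos.1 key

lemma PrSplit.face (S : PrSplit V P Q) {v : E} (hv : v ∈ V) :
    Face V (V.filter fun x => P (x - v) = 0) := by
  obtain ⟨L, h, h'⟩ := pr_expose (S.pts v hv)
  have := pr_face (L ∘ₗ P) v (S.min hv L h)
  rwa [Finset.filter_congr (q := fun x => P (x - v) = 0) fun x hx =>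
    ⟨S.uniq hv L h h' hx, fun e => by rw [LinearMap.comp_apply, e, map_zero]⟩] at this

lemma PrSplit.half (S : PrSplit V P Q) {u z : E} (hu : u ∈ V) (hz : z ∈ V) (L L' : E →ₗ[ℝ] ℝ)
    (h : ∀ x ∈ V, 0 ≤ L (x - u)) (h' : ∀ x ∈ V, L (x - u) = 0 → x = u)
    (hm : ∀ x ∈ V, 0 ≤ (L ∘ₗ P + L' ∘ₗ Q) (x - z)) : P (z - u) = 0 := by
  have h1 := S.min hz _ hm u hu
  have h2 := S.min hu L h z hz
  rw [LinearMap.comp_apply, LinearMap.add_apply, LinearMap.comp_apply, LinearMap.comp_apply,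
    S.self (S.qp _), S.qp, map_zero, add_zero, ← neg_sub, map_neg, map_neg, neg_nonneg] at h1
  exact S.uniq hu L h h' hz (le_antisymm h1 h2)

lemma PrSplit.mix (S : PrSplit V P Q) {u u' : E} (hu : u ∈ V) (hu' : u' ∈ V) :
    ∃ z ∈ V, P (z - u) = 0 ∧ Q (z - u') = 0 := by
  obtain ⟨L, h, h'⟩ := pr_expose (S.pts u hu)
  obtain ⟨L', k, k'⟩ := pr_expose (S.pts u' hu')
  obtain ⟨z, hz, hmin⟩ := V.exists_min_image (fun x => (L ∘ₗ P + L' ∘ₗ Q) x) ⟨u, hu⟩
  have hm : ∀ x ∈ V, 0 ≤ (L ∘ₗ P + L' ∘ₗ Q) (x - z) := fun x hx => by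
    rw [map_sub, sub_nonneg]
    exact hmin x hx
  exact ⟨z, hz, S.half hu hz L L' h h' hm, S.symm.half hu' hz L' L k k' (by rwa [add_comm])⟩

end

/-- if every edge is parallel to `U` or to `Uᗮ` then the configuration is a product -/
lemma split_of_edges (hpts : ∀ v ∈ V, Face V {v}) (U : Submodule ℝ E)
    (h : ∀ v w, v ≠ w → Face V {v, w} → w - v ∈ U ∨ w - v ∈ Uᗮ) {v : E} (hv : v ∈ V) :
    Face V (V.filter fun x => x - v ∈ U) ∧ Face V (V.filter fun x => x - v ∈ Uᗮ) ∧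
      ∀ z, z ∈ V ↔ ∃ x ∈ V, ∃ y ∈ V, x - v ∈ U ∧ y - v ∈ Uᗮ ∧ z = x + y - v := by
  set P : E →ₗ[ℝ] E := U.starProjection.toLinearMap with hP
  set Q : E →ₗ[ℝ] E := Uᗮ.starProjection.toLinearMap with hQ
  have hPQ : ∀ x, P x + Q x = x := fun x => U.starProjection_add_starProjection_orthogonal x
  have hP0 : ∀ x, P x = 0 ↔ x ∈ Uᗮ := fun x => U.starProjection_apply_eq_zero_iff
  have hQ0 : ∀ x, Q x = 0 ↔ x ∈ U := fun x => by
    have := Uᗮ.starProjection_apply_eq_zero_iff (v := x)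
    rwa [Submodule.orthogonal_orthogonal] at this
  have S : PrSplit V P Q :=
    ⟨hpts, hPQ, fun x => (hP0 _).2 (Uᗮ.starProjection_apply_mem x),
      fun x => (hQ0 _).2 (U.starProjection_apply_mem x), fun v w hvw hf => by
        rw [hP0, hQ0]
        exact (h v w hvw hf).symm⟩
  have zero : ∀ x, P x = 0 → Q x = 0 → x = 0 := fun x h1 h2 => by
    rw [← hPQ x, h1, h2, add_zero]
  refine ⟨?_, ?_, fun z => ⟨fun hz => ?_, ?_⟩⟩
  · simpa only [hQ0] using S.symm.face hv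
  · simpa only [hP0] using S.face hv
  · obtain ⟨x, hx, x1, x2⟩ := S.mix hz hv
    obtain ⟨y, hy, y1, y2⟩ := S.mix hv hz
    refine ⟨x, hx, y, hy, (hQ0 _).1 x2, (hP0 _).1 y1, (sub_eq_zero.1 (zero _ ?_ ?_)).symm⟩
    · rw [show x + y - v - z = (x - z) + (y - v) by abel, map_add, x1, y1, add_zero]
    · rw [show x + y - v - z = (x - v) + (y - z) by abel, map_add, x2, y2, add_zero]
  · rintro ⟨x, hx, y, hy, x2, y1, rfl⟩
    obtain ⟨z, hz, z1, z2⟩ := S.mix hx hy
    have : x + y - v = z := by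
      refine sub_eq_zero.1 (zero _ ?_ ?_)
      · rw [show x + y - v - z = (y - v) - (z - x) by abel, map_sub, z1, (hP0 _).2 y1, sub_zero]
      · rw [show x + y - v - z = (x - v) - (z - y) by abel, map_sub, z2, (hQ0 _).2 x2, sub_zero]
    rwa [this]

lemma rk_add_le {F₁ F₂ : Finset E} (h₁ : F₁ ⊆ V) (h₂ : F₂ ⊆ V) {v : E} (hv₁ : v ∈ F₁) (hv₂ : v ∈ F₂)
    (ho : ∀ x ∈ F₁, ∀ y ∈ F₂, inner ℝ (x - v) (y - v) = 0) : rk F₁ + rk F₂ ≤ rk V + 1 := by
  have e := Submodule.finrank_sup_add_finrank_inf_eq (sp F₁) (sp F₂)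
  have l1 : Module.finrank ℝ ↥(sp F₁ ⊔ sp F₂) ≤ rk V :=
    Submodule.finrank_mono (sup_le (sp_mono h₁) (sp_mono h₂))
  have l2 : Module.finrank ℝ ↥(sp F₁ ⊓ sp F₂) ≤ rk ({v} : Finset E) := by
    refine Submodule.finrank_mono fun z hz => ?_
    have val : ∀ u : E, aff u (-inner ℝ u v) z = inner ℝ u (z.2 - z.1 • v) := fun u => by
      simp [aff, inner_sub_right, real_inner_smul_right]
      ring
    have k1 : ∀ y ∈ F₂, inner ℝ (y - v) (z.2 - z.1 • v) = 0 := fun y hy => by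
      rw [← val]
      refine vanish_sp (fun x hx => ?_) hz.1
      rw [aff_hm, ← sub_eq_add_neg, ← inner_sub_right, real_inner_comm]
      exact ho x hx y hy
    have k2 : inner ℝ (z.2 - z.1 • v) (z.2 - z.1 • v) = 0 := by
      rw [← val]
      refine vanish_sp (fun y hy => ?_) hz.2
      rw [aff_hm, ← sub_eq_add_neg, ← inner_sub_right, real_inner_comm]
      exact k1 y hy
    have k3 : z = z.1 • hm v := by
      ext
      · simp [hm]
      · simpa [hm] using sub_eq_zero.1 (inner_self_eq_zero.1 k2)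
    rw [k3]
    exact Submodule.smul_mem _ _ (hm_mem_sp (Finset.mem_singleton_self v))
  rw [rk_singleton] at l2
  unfold rk at l1 ⊢
  omega

theorem Uni.prod_split (hU : Uni V a) (hN : rk V = N + 1) (Φ : Flag V) (h : Split V) :
    ∃ (F₁ F₂ : Finset E) (v : E), Face V F₁ ∧ Face V F₂ ∧ 2 ≤ rk F₁ ∧ 2 ≤ rk F₂ ∧
      rk F₁ + rk F₂ ≤ N + 2 ∧ v ∈ F₁ ∧ v ∈ F₂ ∧
      (∀ x ∈ F₁, ∀ y ∈ F₂, inner ℝ (x - v) (y - v) = 0) ∧
      ∀ z, z ∈ V ↔ ∃ x ∈ F₁, ∃ y ∈ F₂, z = x + y - v := by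
  obtain ⟨U, hE, hn1, hn2⟩ := h
  have hv := fc_zero_mem_V Φ (by omega)
  set v := fc 0 Φ
  obtain ⟨f1, f2, hz⟩ := split_of_edges hU.pts U hE hv
  have big : ∀ W W' : Submodule ℝ E, (∃ x ∈ V, ∃ y ∈ V, y - x ∉ W') →
      (∀ z ∈ V, ∃ x ∈ V, ∃ y ∈ V, x - v ∈ W ∧ y - v ∈ W' ∧ z = x + y - v) →
      2 ≤ rk (V.filter fun x => x - v ∈ W) := by
    rintro W W' ⟨x, hx, y, hy, hxy⟩ hs
    have hm' : v ∈ V.filter fun x => x - v ∈ W := by simp [hv]
    have := rk_pos ⟨v, hm'⟩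
    by_contra hc
    obtain ⟨u, hu⟩ := eq_singleton_of_rk (F := V.filter fun x => x - v ∈ W) (by omega)
    have all : ∀ z ∈ V, z - v ∈ W' := fun z hz => by
      obtain ⟨x, hx, y, hy, x1, y1, rfl⟩ := hs z hz
      have hx' : x ∈ V.filter fun x => x - v ∈ W := Finset.mem_filter.2 ⟨hx, x1⟩
      rw [hu, Finset.mem_singleton] at hx' hm'
      rwa [hx', ← hm', add_sub_cancel_left]
    exact hxy (by simpa using sub_mem (all y hy) (all x hx))
  have ho : ∀ x ∈ V.filter fun x => x - v ∈ U, ∀ y ∈ V.filter fun x => x - v ∈ Uᗮ,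
      inner ℝ (x - v) (y - v) = 0 := fun x hx y hy =>
    Submodule.inner_right_of_mem_orthogonal (Finset.mem_filter.1 hx).2 (Finset.mem_filter.1 hy).2
  have m1 : v ∈ V.filter fun x => x - v ∈ U := by simp [hv]
  have m2 : v ∈ V.filter fun x => x - v ∈ Uᗮ := by simp [hv]
  refine ⟨_, _, v, f1, f2, big U Uᗮ hn2 fun z h => (hz z).1 h, big Uᗮ U hn1 fun z h => ?_, ?_,
    m1, m2, ho, fun z => (hz z).trans ⟨?_, ?_⟩⟩
  · obtain ⟨x, hx, y, hy, x1, y1, e⟩ := (hz z).1 h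
    exact ⟨y, hy, x, hx, y1, x1, by rw [e, add_comm]⟩
  · have := rk_add_le f1.subset f2.subset m1 m2 ho
    omega
  · rintro ⟨x, hx, y, hy, x1, y1, e⟩
    exact ⟨x, Finset.mem_filter.2 ⟨hx, x1⟩, y, Finset.mem_filter.2 ⟨hy, y1⟩, e⟩
  · rintro ⟨x, hx, y, hy, e⟩
    rw [Finset.mem_filter] at hx hy
    exact ⟨x, hx.1, y, hy.1, hx.2, hy.2, e⟩

end

end Pool.Agent.MP_7fd204_co

/-! Assembly of the classification from the results about abstract flag systems. -/

namespace Pool.Agent.MP_7fd204_co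

open Classical

noncomputable section

/-- abstract rigidity -/
def Rigid : Prop :=
  ∀ (F : Type) (N : ℕ) (r : ℕ → F → F) (x : ℕ → F → ℝ) (m : ℕ → F → ℕ), UP.Sys N r x m →
    ∀ a b, UP.Eqv r m N a b → ∀ i, i ≤ N → x i a = x i b

lemma eqv_act {F : Type} {r : ℕ → F → F} {m : ℕ → F → ℕ} {k : ℕ} {a b : F}
    (h : UP.Eqv r m k a b) {w : List ℕ} (hw : UP.Wd 0 k w) :
    UP.Eqv r m k (UP.act r w a) (UP.act r w b) := fun w' hw' i h1 h2 => by
  rw [← act_append, ← act_append]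
  exact h _ (wd_append hw hw') i h1 h2

lemma beh_of_eqv (hR : Rigid) {E : Type} [NormedAddCommGroup E] [InnerProductSpace ℝ E]
    {V : Finset E} {a : ℝ} {N : ℕ} (hU : Uni V a) (hN : rk V = N + 1) (h1 : 1 ≤ N) {Φ Ψ : Flag V}
    (h : UP.Eqv fr fm N Φ Ψ) : Beh a N Φ Ψ := fun _ hw i hi =>
  hR _ N _ _ _ (hU.sys hN h1) _ _ (eqv_act h hw) i hi

lemma wyth_of_mirror (hR : Rigid) {V : Finset E5} {a : ℝ} {N : ℕ} (hU : Uni V a)
    (hN : rk V = N + 1) (h1 : 1 ≤ N) {Φ : Flag V} (h : UP.Mirror fr fm N Φ) :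
    IsWythoffian (convexHull ℝ (V : Set E5)) := by
  refine IsWythoffian.orbit _ (hU.mirror hN fun Ψ => ?_)
  obtain ⟨w, hw, rfl⟩ := connect_all hN Φ Ψ
  exact beh_of_eqv hR hU hN h1 (h w hw)

lemma mirror_low {E : Type} [NormedAddCommGroup E] [InnerProductSpace ℝ E] {V : Finset E} {N : ℕ}
    (h : N ≤ 2) (Φ : Flag V) : UP.Mirror fr fm N Φ := by
  have key : ∀ (w : List ℕ) (Ψ : Flag V), UP.Wd 0 N w → fm 1 (UP.act fr w Ψ) = fm 1 Ψ := by
    intro w
    induction w with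
    | nil => intro _ _; rfl
    | cons j w ih =>
      intro Ψ hw
      have := hw j (by simp)
      rw [act_cons, ih _ fun k hk => hw k (List.mem_cons_of_mem _ hk),
        fm_fr le_rfl (by omega) (by omega)]
  intro w hw w' hw' i h1 h2
  obtain rfl : i = 1 := by omega
  rw [key w' _ hw', key w' _ hw', fm_fr le_rfl (by omega) (by omega)]

/-- the local classification in dimensions three, four and five -/
structure Local : Prop where
  three : ∀ (V : Finset E5) (a : ℝ), Uni V a → rk V = 4 → ∀ Φ : Flag V,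
    UP.Mirror fr fm 3 Φ ∨ Split V ∨ IsSnubHull (convexHull ℝ (V : Set E5))
  four : ∀ (V : Finset E5) (a : ℝ), Uni V a → rk V = 5 → ∀ Φ : Flag V,
    UP.Mirror fr fm 4 Φ ∨ Split V ∨ IsSnubHull (convexHull ℝ (V : Set E5)) ∨
      IsGrand V a
  five : ∀ (V : Finset E5) (a : ℝ), Uni V a → rk V = 6 → ∀ Φ : Flag V,
    UP.Mirror fr fm 5 Φ ∨ Split V

lemma Uni.edge_face {E : Type} [NormedAddCommGroup E] [InnerProductSpace ℝ E] {V F : Finset E}
    {a : ℝ} {v : E} (hU : Uni V a) (f2 : Face V F) (r2 : rk F = 2) (hv : v ∈ F) :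
    ∃ w, dist v w = a ∧ ∀ y, y ∈ F ↔ y = v ∨ y = w := by
  obtain ⟨p, q, hpq, rfl⟩ := eq_pair_of_rk (hU.face f2).pts r2
  have : v = p ∨ v = q := by simpa using hv
  rcases this with rfl | rfl
  · exact ⟨q, hU.edge _ _ hpq f2, by simp⟩
  · exact ⟨p, by rw [dist_comm]; exact hU.edge _ _ hpq f2, by simp [or_comm]⟩

lemma grand_case {V F₁ F₂ : Finset E5} {a : ℝ} {v : E5} (hU : Uni V a) (f2 : Face V F₂)
    (r2 : rk F₂ = 2) (hv₁ : v ∈ F₁) (hv₂ : v ∈ F₂)
    (ho : ∀ x ∈ F₁, ∀ y ∈ F₂, inner ℝ (x - v) (y - v) = 0)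
    (hV : ∀ z, z ∈ V ↔ ∃ x ∈ F₁, ∃ y ∈ F₂, z = x + y - v) (h : IsGrand F₁ a) :
    Similar (convexHull ℝ (V : Set E5)) grandPrism := by
  obtain ⟨w, hw, hF⟩ := hU.edge_face f2 r2 hv₂
  refine grand_prism hU.apos hv₁ hw (fun x hx => ho x hx w ((hF w).2 (Or.inr rfl)))
    (fun z => ?_) h
  rw [hV]
  simp [hF]

theorem classify (hR : Rigid) (hL : Local) (N : ℕ) : ∀ (V : Finset E5) (a : ℝ), Uni V a →
    rk V = N + 1 → 1 ≤ N → N ≤ 5 → IsWythoffian (convexHull ℝ (V : Set E5)) ∨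
      (N = 4 ∧ IsGrand V a) ∨ (N = 5 ∧ Similar (convexHull ℝ (V : Set E5)) grandPrism) := by
  induction N using Nat.strong_induction_on with
  | _ N ih =>
    intro V a hU hN h1 h5
    obtain ⟨Φ⟩ := exists_flag0 V
    have hprod : Split V → IsWythoffian (convexHull ℝ (V : Set E5)) ∨
        (N = 4 ∧ IsGrand V a) ∨ (N = 5 ∧ Similar (convexHull ℝ (V : Set E5)) grandPrism) := by
      intro hp
      obtain ⟨F₁, F₂, v, f1, f2, r1, r2, r3, v1, v2, ho, hV⟩ := hU.prod_split hN Φ hp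
      have i1 := ih (rk F₁ - 1) (by omega) F₁ a (hU.face f1) (by omega) (by omega) (by omega)
      have i2 := ih (rk F₂ - 1) (by omega) F₂ a (hU.face f2) (by omega) (by omega) (by omega)
      rcases i1 with w1 | ⟨e1, g1⟩ | ⟨e1, -⟩
      · rcases i2 with w2 | ⟨e2, g2⟩ | ⟨e2, -⟩
        · exact Or.inl (wyth_prod v1 v2 ho hV w1 w2)
        · refine Or.inr (Or.inr ⟨by omega, grand_case hU f1 (by omega) v2 v1
            (fun x hx y hy => by rw [real_inner_comm]; exact ho y hy x hx) (fun z => ?_) g2⟩)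
          rw [hV]
          constructor <;> rintro ⟨x, hx, y, hy, rfl⟩ <;> exact ⟨y, hy, x, hx, by abel⟩
        · omega
      · exact Or.inr (Or.inr ⟨by omega, grand_case hU f2 (by omega) v1 v2 ho hV g1⟩)
      · omega
    rcases (by omega : N ≤ 2 ∨ N = 3 ∨ N = 4 ∨ N = 5) with h | rfl | rfl | rfl
    · exact Or.inl (wyth_of_mirror hR hU hN h1 (mirror_low h Φ))
    · rcases hL.three V a hU hN Φ with h | h | h
      · exact Or.inl (wyth_of_mirror hR hU hN h1 h)
      · exact hprod h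
      · exact Or.inl (IsWythoffian.snub _ h)
    · rcases hL.four V a hU hN Φ with h | h | h | h
      · exact Or.inl (wyth_of_mirror hR hU hN h1 h)
      · exact hprod h
      · exact Or.inl (IsWythoffian.snub _ h)
      · exact Or.inr (Or.inl ⟨rfl, h⟩)
    · rcases hL.five V a hU hN Φ with h | h
      · exact Or.inl (wyth_of_mirror hR hU hN h1 h)
      · exact hprod h

theorem main_of (hR : Rigid) (hL : Local) (P : Set E5) (h : Unif 5 P) :
    IsWythoffian P ∨ Similar P grandPrism := by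
  obtain ⟨V, a, rfl, hU, hN⟩ := bridge 5 P h
  rcases classify hR hL 5 V a hU hN (by omega) le_rfl with h | ⟨h, -⟩ | ⟨-, h⟩
  · exact Or.inl h
  · omega
  · exact Or.inr h

end

end Pool.Agent.MP_7fd204_co

end
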