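import Pool.Agent.MP_7fd204_co.Mg.GeoC

/-! Direction spaces of faces, images under isometries, translates. -/

namespace Pool.Agent.MP_7fd204_co

open Classical

noncomputable section

variable {E : Type} [NormedAddCommGroup E] [InnerProductSpace ℝ E] [FiniteDimensional ℝ E]
  {V F F' : Finset E} {a : ℝ}

/-- direction space -/
def dr (F : Finset E) : Submodule ℝ E := vectorSpan ℝ (F : Set E)

/-- translate -/
def tr (t : E) (F : Finset E) : Finset E := F.image (IsometryEquiv.addRight t)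

lemma mem_tr {t x : E} : x ∈ tr t F ↔ x - t ∈ F := by
  simp only [tr, Finset.mem_image, IsometryEquiv.addRight_apply]
  constructor
  · rintro ⟨y, hy, rfl⟩
    simpa using hy
  · exact fun h => ⟨_, h, by simp⟩

lemma tr_tr (s t : E) (F : Finset E) : tr s (tr t F) = tr (s + t) F := by
  ext x
  simp only [mem_tr, sub_sub]

lemma tr_zero (F : Finset E) : tr 0 F = F := by
  ext x
  simp [mem_tr]

lemma tr_mono (t : E) (h : F ⊆ F') : tr t F ⊆ tr t F' := fun _ hx => mem_tr.2 (h (mem_tr.1 hx))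

lemma sub_mem_dr {x y : E} (hx : x ∈ F) (hy : y ∈ F) : x - y ∈ dr F :=
  vsub_mem_vectorSpan ℝ (Finset.mem_coe.2 hx) (Finset.mem_coe.2 hy)

lemma dr_le {U : Submodule ℝ E} : dr F ≤ U ↔ ∀ x ∈ F, ∀ y ∈ F, x - y ∈ U := by
  refine ⟨fun h x hx y hy => h (sub_mem_dr hx hy), fun h => ?_⟩
  rw [dr, vectorSpan_def, Submodule.span_le]
  rintro _ ⟨x, hx, y, hy, rfl⟩
  exact h x hx y hy

lemma dr_mono (h : F ⊆ F') : dr F ≤ dr F' := dr_le.2 fun _ hx _ hy => sub_mem_dr (h hx) (h hy)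

lemma mem_sp_of_dr {d : E} (h : d ∈ dr F) : ((0 : ℝ), d) ∈ sp F := by
  have : dr F ≤ (sp F).comap (LinearMap.inr ℝ ℝ E) := dr_le.2 fun x hx y hy => by
    simpa [hm] using sub_mem (hm_mem_sp hx) (hm_mem_sp hy)
  exact this h

lemma finrank_dr (hF : F.Nonempty) : Module.finrank ℝ (dr F) + 1 = rk F := by
  obtain ⟨v, hv⟩ := hF
  have e : sp F = (dr F).map (LinearMap.inr ℝ ℝ E) ⊔ Submodule.span ℝ {hm v} := by
    refine le_antisymm (Submodule.span_le.2 ?_) (sup_le ?_ ?_)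
    · rintro _ ⟨x, hx, rfl⟩
      have : hm x = LinearMap.inr ℝ ℝ E (x - v) + hm v := by simp [hm]
      rw [this]
      exact Submodule.add_mem_sup (Submodule.mem_map_of_mem (sub_mem_dr hx hv))
        (Submodule.mem_span_singleton_self _)
    · rintro _ ⟨d, hd, rfl⟩
      exact mem_sp_of_dr hd
    · rw [Submodule.span_singleton_le_iff_mem]
      exact hm_mem_sp hv
  have h1 := Submodule.finrank_sup_add_finrank_inf_eq ((dr F).map (LinearMap.inr ℝ ℝ E))
    (Submodule.span ℝ {hm v})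
  have h2 : (dr F).map (LinearMap.inr ℝ ℝ E) ⊓ Submodule.span ℝ {hm v} = ⊥ := by
    rw [eq_bot_iff]
    rintro z ⟨⟨d, -, rfl⟩, hz⟩
    obtain ⟨c, hc⟩ := Submodule.mem_span_singleton.1 hz
    have : c = 0 := by simpa [hm] using congrArg Prod.fst hc
    rw [← hc, this, zero_smul]
    exact Submodule.zero_mem _
  rw [h2, finrank_bot, finrank_span_singleton (hm_ne_zero v),
    ← (Submodule.equivMapOfInjective _ LinearMap.inr_injective (dr F)).finrank_eq, ← e] at h1
  unfold rk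
  omega

lemma sub_cen_mem_dr {x : E} (hx : x ∈ F) : x - cen F ∈ dr F := by
  have hc : (F.card : ℝ) ≠ 0 := by exact_mod_cast (Finset.card_pos.2 ⟨x, hx⟩).ne'
  have e : x - cen F = (F.card : ℝ)⁻¹ • ∑ y ∈ F, (x - y) := by
    rw [Finset.sum_sub_distrib, Finset.sum_const, smul_sub, ← Nat.cast_smul_eq_nsmul ℝ, smul_smul,
      inv_mul_cancel₀ hc, one_smul, cen]
  rw [e]
  exact Submodule.smul_mem _ _ (Submodule.sum_mem _ fun y hy => sub_mem_dr hx hy)

lemma mem_face_of_dr (hF : Face V F) (hne : F.Nonempty) {x : E} (hx : x ∈ V)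
    (h : x - cen F ∈ dr F) : x ∈ F := by
  obtain ⟨l, -, h1, h2⟩ := hF.expose
  by_contra hc
  have e : hm x = hm (cen F) + ((0 : ℝ), x - cen F) := by simp [hm]
  have := h2 x hx hc
  rw [e, vanish_sp h1 (add_mem (hm_cen_mem hne) (mem_sp_of_dr h))] at this
  exact lt_irrefl _ this

lemma Uni.cen_orth (hU : Uni V a) (hF : Face V F) (hne : F.Nonempty) : cen F - cen V ∈ (dr F)ᗮ := by
  have : dr F ≤ (ℝ ∙ (cen F - cen V))ᗮ := dr_le.2 fun x hx y hy => by
    rw [Submodule.mem_orthogonal_singleton_iff_inner_right, ← neg_sub (cen V), inner_neg_left,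
      show x - y = (x - cen F) - (y - cen F) by abel, inner_sub_right,
      hU.orth hF (Face.refl V) hF.subset (hm_mem_sp hx),
      hU.orth hF (Face.refl V) hF.subset (hm_mem_sp hy)]
    simp
  exact (Submodule.mem_orthogonal _ _).2 fun u hu => by
    rw [real_inner_comm]
    exact Submodule.mem_orthogonal_singleton_iff_inner_right.1 (this hu)

lemma Uni.cen_norm (hU : Uni V a) (hF : Face V F) (hne : F.Nonempty) :
    ‖cen F - cen V‖ ^ 2 = rad V - rad F := by
  rw [hU.rad_add hF (Face.refl V) hF.subset hne, norm_sub_rev]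
  ring

lemma iso_sub (g : E ≃ᵢ E) (x y : E) : g x - g y = g.toRealLinearIsometryEquiv (x - y) := by
  rw [map_sub]
  simp [IsometryEquiv.toRealLinearIsometryEquiv_apply]

lemma cen_image (g : E ≃ᵢ E) (hne : F.Nonempty) : cen (F.image g) = g (cen F) := by
  have hc : (F.card : ℝ) ≠ 0 := by exact_mod_cast hne.card_pos.ne'
  have e := congrArg g.toRealLinearIsometryEquiv (sum_sub_cen hne)
  rw [map_sum, map_zero] at e
  simp only [← iso_sub] at e
  rw [Finset.sum_sub_distrib, Finset.sum_const, sub_eq_zero] at e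
  rw [cen, Finset.card_image_of_injective _ g.injective,
    Finset.sum_image fun x _ y _ h => g.injective h, e, ← Nat.cast_smul_eq_nsmul ℝ, smul_smul,
    inv_mul_cancel₀ hc, one_smul]

lemma rad_image (g : E ≃ᵢ E) (hne : F.Nonempty) : rad (F.image g) = rad F := by
  rw [rad, rad, cen_image g hne, Finset.card_image_of_injective _ g.injective,
    Finset.sum_image fun x _ y _ h => g.injective h]
  simp only [iso_sub, LinearIsometryEquiv.norm_map]

lemma dr_image (g : E ≃ᵢ E) (F : Finset E) :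
    dr (F.image g) = (dr F).map (g.toRealLinearIsometryEquiv.toLinearEquiv : E →ₗ[ℝ] E) := by
  refine le_antisymm (dr_le.2 fun x hx y hy => ?_) (Submodule.map_le_iff_le_comap.2
    (dr_le.2 fun x hx y hy => ?_))
  · obtain ⟨x', hx', rfl⟩ := Finset.mem_image.1 hx
    obtain ⟨y', hy', rfl⟩ := Finset.mem_image.1 hy
    exact ⟨x' - y', sub_mem_dr hx' hy', (iso_sub g x' y').symm⟩
  · have := sub_mem_dr (Finset.mem_image_of_mem g hx) (Finset.mem_image_of_mem g hy)
    rwa [iso_sub] at this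

lemma dr_image_orth (g : E ≃ᵢ E) (h : dr F ⟂ dr F') : dr (F.image g) ⟂ dr (F'.image g) := by
  rw [dr_image, dr_image, Submodule.isOrtho_iff_inner_eq]
  rintro _ ⟨x, hx, rfl⟩ _ ⟨y, hy, rfl⟩
  exact (g.toRealLinearIsometryEquiv.inner_map_map x y).trans (h.inner_eq hx hy)

lemma Split.image (g : E ≃ᵢ E) (h : Split F) : Split (F.image g) := by
  obtain ⟨U, h1, ⟨v, hv, w, hw, h2⟩, v', hv', w', hw', h3⟩ := h
  set A := g.toRealLinearIsometryEquiv
  set U' := U.map (A.toLinearEquiv : E →ₗ[ℝ] E)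
  have k1 : ∀ y, A y ∈ U' ↔ y ∈ U := fun y =>
    ⟨fun ⟨z, hz, e⟩ => by rwa [← A.injective e], fun hy => ⟨y, hy, rfl⟩⟩
  have k2 : ∀ y, A y ∈ U'ᗮ ↔ y ∈ Uᗮ := fun y => by
    simp only [Submodule.mem_orthogonal]
    refine ⟨fun h u hu => by simpa using h _ ((k1 u).2 hu), ?_⟩
    rintro h _ ⟨u, hu, rfl⟩
    simpa using h u hu
  refine ⟨U', fun x y hxy hf => ?_, ⟨g v, Finset.mem_image_of_mem g hv, g w,
    Finset.mem_image_of_mem g hw, by rwa [iso_sub, k1]⟩, g v', Finset.mem_image_of_mem g hv', g w',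
    Finset.mem_image_of_mem g hw', by rwa [iso_sub, k2]⟩
  obtain ⟨x, rfl⟩ := g.surjective x
  obtain ⟨y, rfl⟩ := g.surjective y
  have := face_image g.symm hf
  simp only [Finset.image_image, Finset.image_insert, Finset.image_singleton,
    IsometryEquiv.symm_apply_apply, Function.comp_def, Finset.image_id'] at this
  rw [iso_sub, k1, k2]
  exact h1 x y (fun e => hxy (by rw [e])) this

lemma Split.of_image (g : E ≃ᵢ E) (h : Split (F.image g)) : Split F := by
  simpa [Finset.image_image, Function.comp_def] using h.image g.symm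

lemma dr_tr (t : E) (F : Finset E) : dr (tr t F) = dr F :=
  le_antisymm (dr_le.2 fun x hx y hy => by
    simpa using sub_mem_dr (mem_tr.1 hx) (mem_tr.1 hy)) (dr_le.2 fun x hx y hy => by
    have := sub_mem_dr (F := tr t F) (x := x + t) (y := y + t) (by simpa [mem_tr]) (by simpa [mem_tr])
    simpa using this)

lemma rk_tr (t : E) (F : Finset E) : rk (tr t F) = rk F := rk_image _ _

lemma rad_tr (t : E) (hne : F.Nonempty) : rad (tr t F) = rad F := rad_image _ hne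

lemma cen_tr (t : E) (hne : F.Nonempty) : cen (tr t F) = cen F + t := cen_image _ hne

lemma face_tr (t : E) (h : Face F F') : Face (tr t F) (tr t F') := face_image _ h

lemma split_tr (t : E) : Split (tr t F) ↔ Split F := ⟨Split.of_image _, Split.image _⟩

end

end Pool.Agent.MP_7fd204_co

/-! Families of parallel faces that are closed under passing to the opposite face. -/

namespace Pool.Agent.MP_7fd204_co

open Classical

noncomputable section

variable {E : Type} [NormedAddCommGroup E] [InnerProductSpace ℝ E] [FiniteDimensional ℝ E]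
  {V : Finset E} {a σ σ' : ℝ} {U U' : Submodule ℝ E} {K K' : Finset E → Prop}

/-- a family `K` of faces with direction `U` and radius `σ`; every face one dimension above a member
contains another member -/
structure Fam (V : Finset E) (U : Submodule ℝ E) (σ : ℝ) (K : Finset E → Prop) : Prop where
  ne : ∃ F, K F
  face : ∀ F, K F → Face V F ∧ F.Nonempty ∧ dr F = U ∧ rad F = σ
  next : ∀ F, K F → ∀ D, Face V D → F ⊆ D → rk D = rk F + 1 → ∃ F', K F' ∧ F' ⊆ D ∧ ¬ F' ⊆ F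

lemma ly_const (h : Fam V U σ K) {l : E} (hl : l ∈ Uᗮ) {F : Finset E} (hF : K F) {x : E}
    (hx : x ∈ F) : inner ℝ l x = inner ℝ l (cen F) := by
  have h1 : x - cen F ∈ U := (h.face F hF).2.2.1 ▸ sub_cen_mem_dr hx
  have h2 := Submodule.inner_left_of_mem_orthogonal h1 hl
  rw [inner_sub_right] at h2
  linarith

lemma ly_zero (hV : dr V = ⊤) {m : E} {c : ℝ} (h : ∀ x ∈ V, inner ℝ m x = c) : m = 0 := by
  have h1 : dr V ≤ (ℝ ∙ m)ᗮ := dr_le.2 fun x hx y hy => by
    rw [Submodule.mem_orthogonal_singleton_iff_inner_right, inner_sub_right, h x hx, h y hy,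
      sub_self]
  have h2 := Submodule.mem_orthogonal_singleton_iff_inner_right.1 (h1 (hV ▸ Submodule.mem_top : m ∈ dr V))
  exact inner_self_eq_zero.1 h2

lemma ly_orth (hU : Uni V a) (h : Fam V U σ K) {F : Finset E} (hF : K F) :
    cen F - cen V ∈ Uᗮ := by
  obtain ⟨h1, h2, h3, -⟩ := h.face F hF
  exact h3 ▸ hU.cen_orth h1 h2

/-- a functional vanishing on `U` is maximised on a member of the family -/
lemma Fam.layer (h : Fam V U σ K) {l : E} (hl : l ∈ Uᗮ) :
    ∃ F, K F ∧ ∀ x ∈ V, inner ℝ l (x - cen F) ≤ 0 := by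
  obtain ⟨F₀, hF₀⟩ := h.ne
  have mem : ∀ F, K F → F ∈ V.powerset.filter K := fun F hF =>
    Finset.mem_filter.2 ⟨Finset.mem_powerset.2 (h.face F hF).1.subset, hF⟩
  obtain ⟨F, hF, hmax⟩ := Finset.exists_max_image (V.powerset.filter K)
    (fun F => inner ℝ l (cen F)) ⟨F₀, mem F₀ hF₀⟩
  have hK : K F := (Finset.mem_filter.1 hF).2
  refine ⟨F, hK, fun x hx => ?_⟩
  by_contra hc
  rw [not_le, inner_sub_right] at hc
  obtain ⟨D, hD, hFD, hr, hneg⟩ := edge_cone (h.face F hK).1 (aff (-l) (inner ℝ l (cen F)))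
    (fun y hy => by rw [aff_hm, inner_neg_left, ly_const h hl hK hy, neg_add_cancel])
    ⟨x, hx, by rw [aff_hm, inner_neg_left]; linarith⟩
  obtain ⟨F', hK', hF'D, hns⟩ := h.next F hK D hD hFD hr
  obtain ⟨y, hy, hyF⟩ := Finset.not_subset.1 hns
  have h1 := hneg y (hF'D hy) hyF
  rw [aff_hm, inner_neg_left, ly_const h hl hK' hy] at h1
  have h2 : inner ℝ l (cen F') ≤ inner ℝ l (cen F) := hmax F' (mem F' hK')
  linarith

/-- a vertex at maximal distance from `U` lies on a member -/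
lemma Fam.on (hU : Uni V a) (h : Fam V U σ K) {x y : E} (hx : x ∈ V) (hy : y ∈ Uᗮ)
    (hxy : x - cen V - y ∈ U) (hn : ‖y‖ ^ 2 = rad V - σ) : ∃ F, K F ∧ x ∈ F := by
  obtain ⟨F, hK, hF⟩ := h.layer hy
  obtain ⟨h1, h2, h3, h4⟩ := h.face F hK
  have e1 := hU.cen_norm h1 h2
  have e2 := Submodule.inner_left_of_mem_orthogonal hxy hy
  have e3 := hF x hx
  have e4 : x - cen F = (x - cen V - y) + (y - (cen F - cen V)) := by abel
  rw [e4, inner_add_right, e2, inner_sub_right, real_inner_self_eq_norm_sq] at e3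
  have e5 : ‖y - (cen F - cen V)‖ ^ 2 ≤ 0 := by
    rw [norm_sub_sq_real, e1, h4]
    linarith
  have e6 : y - (cen F - cen V) = 0 := by
    rw [← norm_eq_zero]
    exact pow_eq_zero_iff two_ne_zero |>.1 (le_antisymm e5 (sq_nonneg _))
  refine ⟨F, hK, mem_face_of_dr h1 h2 hx ?_⟩
  rw [e4, e6, add_zero, h3]
  exact hxy

/-- two families with a common normal vector meet in a facet -/
lemma Fam.meet (hU : Uni V a) (hV : dr V = ⊤) (h : Fam V U σ K) (h' : Fam V U' σ' K') {u : E}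
    (u0 : u ≠ 0) (hu : u ∈ Uᗮ) (hu' : u ∈ U'ᗮ) :
    ∃ F F' H, K F ∧ K' F' ∧ Face V H ∧ rk H + 1 = rk V ∧ F ⊆ H ∧ F' ⊆ H := by
  have _ := hU.apos
  obtain ⟨F, hK, hF⟩ := h.layer hu
  obtain ⟨F', hK', hF'⟩ := h'.layer hu'
  obtain ⟨h1, ⟨x, hx⟩, -⟩ := h.face F hK
  obtain ⟨h1', ⟨x', hx'⟩, -⟩ := h'.face F' hK'
  have e : inner ℝ u (cen F') = inner ℝ u (cen F) := by
    have e1 := hF x' (h1'.subset hx')
    have e2 := hF' x (h1.subset hx)
    rw [inner_sub_right, ly_const h' hu' hK' hx'] at e1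
    rw [inner_sub_right, ly_const h hu hK hx] at e2
    linarith
  have hG := face_filter V (aff (-u) (inner ℝ u (cen F))) fun y hy => by
    have e1 := hF y hy
    rw [inner_sub_right] at e1
    rw [aff_hm, inner_neg_left]
    linarith
  have hlt := rk_lt hG fun he => u0 (ly_zero hV (c := inner ℝ u (cen F)) fun y hy => by
    rw [← he] at hy
    have e1 := (Finset.mem_filter.1 hy).2
    rw [aff_hm, inner_neg_left] at e1
    linarith)
  obtain ⟨H, hH, hGH, hr⟩ := exists_rk hG (rk V - 1) (by omega) (by omega)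
  refine ⟨F, F', H, hK, hK', hH, by omega, fun y hy => hGH ?_, fun y hy => hGH ?_⟩
  · refine Finset.mem_filter.2 ⟨h1.subset hy, ?_⟩
    rw [aff_hm, inner_neg_left, ly_const h hu hK hy, neg_add_cancel]
  · refine Finset.mem_filter.2 ⟨h1'.subset hy, ?_⟩
    rw [aff_hm, inner_neg_left, ly_const h' hu' hK' hy, e, neg_add_cancel]

/-- a vector whose product with the centres of the members is constant lies in `U` -/
lemma Fam.mem_of_const (hU : Uni V a) (hV : dr V = ⊤) (h : Fam V U σ K) {n : E} {κ : ℝ}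
    (hn : ∀ F, K F → inner ℝ n (cen F - cen V) = κ) : n ∈ U := by
  obtain ⟨p, hp, m, hm', rfl⟩ := U.exists_add_mem_mem_orthogonal n
  have e : ∀ F, K F → inner ℝ m (cen F) = κ + inner ℝ m (cen V) := fun F hF => by
    have e1 := hn F hF
    rw [inner_add_left, Submodule.inner_right_of_mem_orthogonal hp (ly_orth hU h hF),
      inner_sub_right] at e1
    linarith
  obtain ⟨F, hK, hF⟩ := h.layer hm'
  obtain ⟨F', hK', hF'⟩ := h.layer (neg_mem hm')
  have e0 : m = 0 := ly_zero hV (c := κ + inner ℝ m (cen V)) fun x hx => by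
    have e1 := hF x hx
    have e2 := hF' x hx
    rw [inner_sub_right, e F hK] at e1
    rw [inner_neg_left, inner_sub_right, e F' hK'] at e2
    linarith
  rw [e0, add_zero]
  exact hp

/-- if the translates of a face cover the vertices then the configuration splits -/
lemma Uni.split_of_tr (hU : Uni V a) {F : Finset E} (h2 : 2 ≤ rk F) (hlt : rk F < rk V)
    (h : ∀ x ∈ V, ∃ t, Face V (tr t F) ∧ x ∈ tr t F) : Split V := by
  have hF : F.Nonempty := nonempty_of_rk (by omega)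
  have hV : V.Nonempty := nonempty_of_rk (by omega)
  have hc : ∀ t, Face V (tr t F) → cen F + t - cen V ∈ (dr F)ᗮ := fun t ht => by
    have := hU.cen_orth ht (hF.image _)
    rwa [dr_tr, cen_tr t hF] at this
  refine ⟨dr F, fun x y _ hf => ?_, ?_, ?_⟩
  · obtain ⟨t, ht, hx⟩ := h x (hf.subset (by simp))
    obtain ⟨t', ht', hy⟩ := h y (hf.subset (by simp))
    rw [mem_tr] at hx hy
    obtain ⟨l, l0, l1, l2⟩ := hf.expose
    have m1 : x - t + t' ∈ V := ht'.subset (mem_tr.2 (by simpa using hx))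
    have m2 : y - t' + t ∈ V := ht.subset (mem_tr.2 (by simpa using hy))
    have e : l (hm (x - t + t')) + l (hm (y - t' + t)) = l (hm x) + l (hm y) := by
      rw [← map_add, ← map_add]
      congr 1
      simp only [hm, Prod.mk_add_mk, Prod.mk.injEq, true_and]
      abel
    rw [l1 x (by simp), l1 y (by simp)] at e
    have m3 : x - t + t' ∈ ({x, y} : Finset E) := by
      by_contra hn
      have e1 := l2 _ m1 hn
      have e2 := l0 _ m2
      linarith
    rcases Finset.mem_insert.1 m3 with e1 | e1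
    · left
      have e2 : y - x = (y - t') - (x - t) := by
        rw [← sub_eq_zero]
        rw [← sub_eq_zero] at e1
        rw [← e1]
        abel
      rw [e2]
      exact sub_mem_dr hy hx
    · right
      have e2 : y - x = (cen F + t' - cen V) - (cen F + t - cen V) := by
        rw [← Finset.mem_singleton.1 e1]
        abel
      rw [e2]
      exact sub_mem (hc t' ht') (hc t ht)
  · by_contra hn
    push Not at hn
    have e1 := Submodule.finrank_mono (dr_le.2 fun x hx y hy => hn y hy x hx)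
    have e2 := finrank_dr hF
    have e3 := finrank_dr hV
    omega
  · by_contra hn
    push Not at hn
    obtain ⟨x, hx⟩ := hV
    obtain ⟨t, ht, -⟩ := h x hx
    have e1 : dr F ≤ (dr F)ᗮ := by
      have := (dr_mono ht.subset).trans (dr_le.2 fun x hx y hy => hn y hy x hx)
      rwa [dr_tr] at this
    have e2 : dr F = ⊥ := by
      rw [← (dr F).inf_orthogonal_eq_bot, inf_eq_left.2 e1]
    have e3 := finrank_dr hF
    rw [e2, finrank_bot] at e3
    omega

end

end Pool.Agent.MP_7fd204_co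

/-! Faces that do not split inside faces that split. -/

namespace Pool.Agent.MP_7fd204_co

open Classical

noncomputable section

variable {E : Type} [NormedAddCommGroup E] [InnerProductSpace ℝ E] [FiniteDimensional ℝ E]
  {V F F' H K B : Finset E} {a : ℝ}

/-- every edge is parallel to `U` or to its orthogonal complement -/
def sl_E (H : Finset E) (U : Submodule ℝ E) : Prop :=
  ∀ v w, v ≠ w → Face H {v, w} → w - v ∈ U ∨ w - v ∈ Uᗮ

lemma sl_symm {U : Submodule ℝ E} (h : sl_E H U) : sl_E H Uᗮ := fun v w hvw hf => by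
  rw [Submodule.orthogonal_orthogonal]
  exact (h v w hvw hf).symm

lemma sl_dich {U : Submodule ℝ E} (h : sl_E H U) (hB : Face H B) (nB : ¬ Split B) :
    dr B ≤ U ∨ dr B ≤ Uᗮ := by
  by_contra hc
  rw [not_or, dr_le, dr_le] at hc
  push Not at hc
  obtain ⟨⟨x, hx, y, hy, h1⟩, x', hx', y', hy', h2⟩ := hc
  exact nB ⟨U, fun v w hvw hf => h v w hvw (hB.trans hf), ⟨y, hy, x, hx, h1⟩, y', hy', x', hx', h2⟩

lemma sl_pick (sH : Split H) (hB : Face H B) (nB : ¬ Split B) :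
    ∃ W : Submodule ℝ E, sl_E H W ∧ (∃ v ∈ H, ∃ w ∈ H, w - v ∉ W) ∧ dr B ≤ W := by
  obtain ⟨U, h1, h2, h3⟩ := sH
  rcases sl_dich (U := U) h1 hB nB with h | h
  · exact ⟨U, h1, h2, h⟩
  · exact ⟨Uᗮ, sl_symm h1, h3, h⟩

lemma sl_tr {U : Submodule ℝ E} (hpts : ∀ v ∈ H, Face H {v}) (h : sl_E H U) {v v' : E}
    (hv : v ∈ H) (hv' : v' ∈ H) :
    ∃ t, (H.filter fun x => x - v' ∈ U) = tr t (H.filter fun x => x - v ∈ U) := by
  obtain ⟨-, -, hz⟩ := split_of_edges hpts U h hv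
  obtain ⟨x0, -, y0, hy0, x1, y1, e⟩ := (hz v').1 hv'
  refine ⟨y0 - v, ?_⟩
  ext z
  rw [mem_tr, Finset.mem_filter, Finset.mem_filter]
  have e1 : z - v' = (z - (y0 - v) - v) - (x0 - v) := by rw [e]; abel
  constructor
  · rintro ⟨hzH, hzU⟩
    have m : z - (y0 - v) - v ∈ U := by
      have := add_mem hzU x1
      rwa [e1, sub_add_cancel] at this
    refine ⟨?_, m⟩
    obtain ⟨x, hx, y, -, x2, y2, rfl⟩ := (hz z).1 hzH
    have m1 : y - y0 ∈ U := by
      have := sub_mem m x2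
      rwa [show x + y - v - (y0 - v) - v - (x - v) = y - y0 by abel] at this
    have m2 : y - y0 ∈ Uᗮ := by
      have := sub_mem y2 y1
      rwa [sub_sub_sub_cancel_right] at this
    have : y = y0 :=
      sub_eq_zero.1 (inner_self_eq_zero.1 (Submodule.inner_right_of_mem_orthogonal m1 m2))
    rwa [this, show x + y0 - v - (y0 - v) = x by abel]
  · rintro ⟨hzH, hzU⟩
    refine ⟨(hz z).2 ⟨_, hzH, y0, hy0, hzU, y1, by abel⟩, ?_⟩
    rw [e1]
    exact sub_mem hzU x1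

lemma sl_lt {U : Submodule ℝ E} (hpts : ∀ v ∈ H, Face H {v}) (h : sl_E H U)
    (hn : ∃ v ∈ H, ∃ w ∈ H, w - v ∉ U) {v : E} (hv : v ∈ H) :
    rk (H.filter fun x => x - v ∈ U) < rk H := by
  refine rk_lt (split_of_edges hpts U h hv).1 fun he => ?_
  obtain ⟨x, hx, y, hy, hxy⟩ := hn
  rw [← he, Finset.mem_filter] at hx hy
  exact hxy (by simpa using sub_mem hy.2 hx.2)

lemma sl_sub {U : Submodule ℝ E} (hs : B ⊆ H) (h : dr B ≤ U) {v : E} (hv : v ∈ B) :
    B ⊆ H.filter fun x => x - v ∈ U := fun _ hx =>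
  Finset.mem_filter.2 ⟨hs hx, h (sub_mem_dr hx hv)⟩

lemma sl_add {U : Submodule ℝ E} (hs : B ⊆ H) (h : dr B ≤ Uᗮ) {v : E} (hv : v ∈ B) :
    rk (H.filter fun x => x - v ∈ U) + rk B ≤ rk H + 1 :=
  rk_add_le (Finset.filter_subset _ _) hs (v := v) (by simp [hs hv]) hv fun _ hx _ hy =>
    Submodule.inner_right_of_mem_orthogonal (Finset.mem_filter.1 hx).2 (h (sub_mem_dr hy hv))

lemma sl_fe {U : Submodule ℝ E} (hU : Uni F a) (hr : 2 ≤ rk F) (h : sl_E F U) (Ψ : Flag F) :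
    fe 1 Ψ ∈ U ∨ fe 1 Ψ ∈ Uᗮ := by
  have hf := Ψ.face 2
  rw [hU.f_two Ψ hr] at hf
  have := h _ _ (fc_zero_ne Ψ hr) hf
  rw [hU.fc_fr_zero Ψ hr, add_sub_cancel_left] at this
  simpa only [Submodule.smul_mem_iff _ (two_ne_zero (α := ℝ))] using this

lemma sl_inner (hU : Uni F a) (hr : rk F = 3) (h : 4 * rad F / a ^ 2 ≠ 2) (Ψ : Flag F) :
    inner ℝ (fe 1 Ψ) (fe 1 (fr 1 Ψ)) ≠ 0 := by
  have e := hU.fe_fr Ψ (i := 0) (by omega)
  have e2 : fx a 2 Ψ = 4 * rad F / a ^ 2 := by rw [fx, Ψ.top (by omega)]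
  have l := hU.fx_lt Ψ (i := 1) (by omega)
  simp only [zero_add, Nat.reduceAdd] at e l
  rw [fx_zero Ψ (by omega), hU.fx_one Ψ (by omega), hU.fx_one (fr 1 Ψ) (by omega), e2] at e
  rw [hU.fx_one Ψ (by omega), e2] at l
  rw [e, inner_add_right, real_inner_smul_right, real_inner_smul_right,
    hU.fe_orth Ψ (by omega) le_rfl (by omega) (show (1 : ℕ) ≠ 2 by omega), mul_zero, add_zero]
  refine mul_ne_zero ?_ (inner_self_ne_zero.2 (fe_ne Ψ le_rfl (by omega)))
  set B := 4 * rad F / a ^ 2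
  rw [co1, div_self (Real.sqrt_pos.2 (by linarith)).ne']
  refine div_ne_zero (fun e => h ?_) (by linarith)
  linarith

lemma sl_all {U : Submodule ℝ E} (hU : Uni F a) (hr : rk F = 3) (h : 4 * rad F / a ^ 2 ≠ 2)
    (hE : sl_E F U) (Φ : Flag F) (h0 : fe 1 Φ ∈ U) : ∀ v ∈ F, ∀ w ∈ F, w - v ∈ U := by
  have key : ∀ Ψ : Flag F, fe 1 Ψ ∈ U ∧ fc 0 Ψ - fc 0 Φ ∈ U := by
    refine flag_induction (N := 2) hr _ (Φ := Φ) ⟨h0, by simp⟩ ?_
    rintro Ψ i hi ⟨m1, m2⟩
    rcases i with _ | _ | i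
    · rw [hU.fe_fr_zero Ψ (by omega), hU.fc_fr_zero Ψ (by omega), add_sub_right_comm]
      exact ⟨neg_mem m1, add_mem m2 (Submodule.smul_mem _ _ m1)⟩
    · rw [fc_fr_ne Ψ (by omega)]
      refine ⟨(sl_fe hU (by omega) hE _).resolve_right fun m => ?_, m2⟩
      exact sl_inner hU hr h Ψ (Submodule.inner_right_of_mem_orthogonal m1 m)
    · omega
  intro v hv w hw
  obtain ⟨Ψ, rfl⟩ := hU.exists_flag_vertex hv
  obtain ⟨Ψ', rfl⟩ := hU.exists_flag_vertex hw
  simpa using sub_mem (key Ψ').2 (key Ψ).2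

/-- a polygon other than a square does not split -/
lemma Uni.not_split (hU : Uni F a) (hr : rk F = 3) (h : 4 * rad F / a ^ 2 ≠ 2) : ¬ Split F := by
  rintro ⟨U, h1, ⟨v, hv, w, hw, h2⟩, v', hv', w', hw', h3⟩
  obtain ⟨Φ⟩ := exists_flag0 F
  rcases sl_fe (U := U) hU (by omega) h1 Φ with m | m
  · exact h2 (sl_all hU hr h h1 Φ m v hv w hw)
  · exact h3 (sl_all hU hr h (sl_symm h1) Φ m v' hv' w' hw')

/-- the opposite facet -/
lemma Uni.next (hU : Uni V a) (hF : Face V F) (hK : Face V K) (hs : F ⊆ K) (hr : rk K = rk F + 1)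
    (hne : F.Nonempty) (sK : Split K) (nF : ¬ Split F) :
    ∃ t, Face V (tr t F) ∧ tr t F ⊆ K ∧ ¬ tr t F ⊆ F := by
  have hFK := hF.restrict hK.subset hs
  have hp := (hU.face hK).pts
  obtain ⟨W, h1, h2, h3⟩ := sl_pick sK hFK nF
  obtain ⟨v, hv⟩ := hne
  have l := sl_lt hp h1 h2 (hs hv)
  have e := eq_of_rk' (split_of_edges hp W h1 (hs hv)).1 hFK (sl_sub hs h3 hv) (by omega)
  obtain ⟨v', hv', hn⟩ : ∃ x ∈ K, x ∉ F := by
    by_contra hc
    push Not at hc
    have := rk_mono (F := K) (G := F) hc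
    omega
  obtain ⟨t, ht⟩ := sl_tr hp h1 (hs hv) hv'
  rw [← e] at ht
  refine ⟨t, ?_, ?_, fun hc => hn (hc ?_)⟩
  · rw [← ht]
    exact hK.trans (split_of_edges hp W h1 hv').1
  · rw [← ht]
    exact Finset.filter_subset _ _
  · rw [← ht]
    simp [hv']

lemma Uni.dr_le_of (hU : Uni V a) (hH : Face V H) (sH : Split H) (hK : Face V K) (hKH : K ⊆ H)
    (hr : rk H = rk K + 1) (nK : ¬ Split K) (hB : Face V B) (hBH : B ⊆ H) (nB : ¬ Split B)
    (h3 : 3 ≤ rk B) : dr B ≤ dr K := by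
  have hKH' := hK.restrict hH.subset hKH
  have hp := (hU.face hH).pts
  obtain ⟨W, h1, h2, h4⟩ := sl_pick sH hKH' nK
  have r := rk_mono hBH
  obtain ⟨v, hv⟩ := nonempty_of_rk (F := K) (by omega)
  obtain ⟨v', hv'⟩ := nonempty_of_rk (F := B) (by omega)
  have l := sl_lt hp h1 h2 (hKH hv)
  have e := eq_of_rk' (split_of_edges hp W h1 (hKH hv)).1 hKH' (sl_sub hKH h4 hv) (by omega)
  obtain ⟨t, ht⟩ := sl_tr hp h1 (hKH hv) (hBH hv')
  rw [← e] at ht
  rcases sl_dich h1 (hB.restrict hH.subset hBH) nB with m | m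
  · have := dr_mono (sl_sub hBH m hv')
    rwa [ht, dr_tr] at this
  · have := sl_add hBH m hv'
    rw [ht, rk_tr] at this
    omega

/-- two polygons in a four dimensional product -/
lemma Uni.pair (hU : Uni V a) (hH : Face V H) (sH : Split H) (hr : rk H = 5) (hF : Face V F)
    (hFH : F ⊆ H) (r3 : rk F = 3) (nF : ¬ Split F) (hF' : Face V F') (hFH' : F' ⊆ H)
    (r3' : rk F' = 3) (nF' : ¬ Split F') :
    (∃ t K, Face V K ∧ rk K = 4 ∧ F ⊆ K ∧ Face V (tr t F') ∧ tr t F' ⊆ K) ∨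
      (dr F ⟂ dr F' ∧ ∃ t, Face V (tr t F) ∧ ∃ z ∈ F', z ∈ tr t F) := by
  have hFH1 := hF.restrict hH.subset hFH
  have hFH2 := hF'.restrict hH.subset hFH'
  have hp := (hU.face hH).pts
  obtain ⟨W, h1, h2, h4⟩ := sl_pick sH hFH1 nF
  obtain ⟨v, hv⟩ := nonempty_of_rk (F := F) (by omega)
  obtain ⟨v', hv'⟩ := nonempty_of_rk (F := F') (by omega)
  have l := sl_lt hp h1 h2 (hFH hv)
  have f1 := (split_of_edges hp W h1 (hFH hv)).1
  have f2 := (split_of_edges hp W h1 (hFH' hv')).1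
  obtain ⟨t, ht⟩ := sl_tr hp h1 (hFH hv) (hFH' hv')
  rcases sl_dich h1 hFH2 nF' with m | m
  · have f3 := face_tr (-t) (hFH2.restrict f2.subset (sl_sub hFH' m hv'))
    rw [ht, tr_tr, neg_add_cancel, tr_zero] at f3
    obtain ⟨K, hK, hs, hk⟩ := exists_rk f1 4 (by omega) (by omega)
    exact Or.inl ⟨-t, K, hH.trans hK, hk, (sl_sub hFH h4 hv).trans hs, hH.trans (f1.trans f3),
      f3.subset.trans hs⟩
  · have l2 := sl_add hFH' m hv'
    rw [ht, rk_tr] at l2
    have e := eq_of_rk' f1 hFH1 (sl_sub hFH h4 hv) (by omega)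
    rw [← e] at ht
    refine Or.inr ⟨(Submodule.isOrtho_orthogonal_right W).mono h4 m, t, ?_, v', hv', ?_⟩
    · rw [← ht]
      exact hH.trans f2
    · rw [← ht]
      simp [hFH' hv']

end

end Pool.Agent.MP_7fd204_co

/-! A five dimensional configuration with a special polygon splits. -/

namespace Pool.Agent.MP_7fd204_co

open Classical Module

noncomputable section

variable {E : Type} [NormedAddCommGroup E] [InnerProductSpace ℝ E] [FiniteDimensional ℝ E]
  [hE : Fact (finrank ℝ E = 5)] {V F F' K : Finset E} {a ρ : ℝ}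

/-- polygon of radius `ρ` -/
def Sp (V : Finset E) (ρ : ℝ) (F : Finset E) : Prop := Face V F ∧ rk F = 3 ∧ rad F = ρ

structure BigH (V : Finset E) (ρ : ℝ) : Prop where
  two : ∀ F, Sp V ρ F → ¬ Split F
  three : ∀ K, Face V K → rk K = 4 → ∀ F F', Sp V ρ F → Sp V ρ F' → F ⊆ K → F' ⊆ K → dr F = dr F'
  four : ∀ H, Face V H → rk H = 5 → ∀ F, Sp V ρ F → F ⊆ H → Split H

lemma Sp.ne (h : Sp V ρ F) : F.Nonempty := nonempty_of_rk (by rw [h.2.1]; omega)

lemma Sp.fr (h : Sp V ρ F) : finrank ℝ (dr F) = 2 := by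
  have := finrank_dr h.ne
  rw [h.2.1] at this
  omega

lemma Sp.image (h : Sp V ρ F) (hK : Face V K) (hs : F ⊆ K) {g : E ≃ᵢ E} (hg : K.image g = K) :
    Sp V ρ (F.image g) :=
  ⟨hK.trans (hg ▸ face_image g (h.1.restrict hK.subset hs)), by rw [rk_image, h.2.1],
    by rw [rad_image g h.ne, h.2.2]⟩

lemma Sp.tr (h : Sp V ρ F) {t : E} (ht : Face V (tr t F)) : Sp V ρ (tr t F) :=
  ⟨ht, by rw [rk_tr, h.2.1], by rw [rad_tr t h.ne, h.2.2]⟩

lemma fr_five : finrank ℝ E = 5 := hE.out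

lemma fr_orth (W : Submodule ℝ E) : finrank ℝ W + finrank ℝ Wᗮ = 5 := by
  rw [Submodule.finrank_add_finrank_orthogonal, fr_five]

lemma exists_normal {U U' : Submodule ℝ E} (h : finrank ℝ ↥(U ⊔ U') ≤ 4) :
    ∃ u : E, u ≠ 0 ∧ u ∈ Uᗮ ∧ u ∈ U'ᗮ := by
  have := fr_orth (U ⊔ U')
  obtain ⟨u, hu, u0⟩ := Submodule.exists_mem_ne_zero_of_ne_bot (p := (U ⊔ U')ᗮ) fun e => by
    rw [e, finrank_bot] at this
    omega
  exact ⟨u, u0, Submodule.orthogonal_le le_sup_left hu, Submodule.orthogonal_le le_sup_right hu⟩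

lemma fr_sup_le (U U' : Submodule ℝ E) : finrank ℝ ↥(U ⊔ U') ≤ finrank ℝ U + finrank ℝ U' :=
  Submodule.finrank_add_le_finrank_add_finrank U U'

lemma fr_sup_orth {U U' : Submodule ℝ E} (h : U ⟂ U') :
    finrank ℝ ↥(U ⊔ U') = finrank ℝ U + finrank ℝ U' := by
  have := Submodule.finrank_sup_add_finrank_inf_eq U U'
  rwa [h.disjoint.eq_bot, finrank_bot, add_zero] at this

lemma dr_top (hN : rk V = 6) : dr V = ⊤ := by
  have := finrank_dr (F := V) (nonempty_of_rk (by omega))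
  exact Submodule.eq_top_of_finrank_eq (by rw [fr_five (E := E)]; omega)

lemma BigH.famL (hU : Uni V a) (h : BigH V ρ) (hF : Sp V ρ F) :
    Fam V (dr F) ρ fun G => Sp V ρ G ∧ dr G = dr F where
  ne := ⟨F, hF, rfl⟩
  face := fun G hG => ⟨hG.1.1, hG.1.ne, hG.2, hG.1.2.2⟩
  next := fun G ⟨hG, e⟩ D hD hs hr => by
    obtain ⟨v, hv⟩ := hG.ne
    obtain ⟨x, hx, hx'⟩ : ∃ x ∈ D, x ∉ G := by
      by_contra hc
      push Not at hc
      have := rk_mono (show D ⊆ G from hc)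
      omega
    obtain ⟨g, g1, rfl⟩ := hU.trans D hD v (hs hv) x hx
    have s : G.image g ⊆ D := g1 ▸ Finset.image_subset_image hs
    have hG' := hG.image hD hs g1
    exact ⟨_, ⟨hG', (h.three D hD (by rw [hr, hG.2.1]) _ _ hG' hG s hs).trans e⟩, s,
      fun hc => hx' (hc (Finset.mem_image_of_mem g hv))⟩

lemma BigH.dich (hU : Uni V a) (hN : rk V = 6) (h : BigH V ρ) (hF : Sp V ρ F) (hF' : Sp V ρ F') :
    dr F = dr F' ∨ (dr F ⟂ dr F' ∧ ∃ z G G', Sp V ρ G ∧ Sp V ρ G' ∧ dr G ⟂ dr G' ∧ z ∈ G ∧ z ∈ G') := by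
  obtain ⟨u, u0, u1, u2⟩ := exists_normal (U := dr F) (U' := dr F')
    ((fr_sup_le _ _).trans (by rw [hF.fr, hF'.fr]))
  obtain ⟨G, G', H, ⟨g1, e1⟩, ⟨g2, e2⟩, hH, hr, s1, s2⟩ :=
    (h.famL hU hF).meet hU (dr_top hN) (h.famL hU hF') u0 u1 u2
  rcases hU.pair hH (h.four H hH (by omega) G g1 s1) (by omega) g1.1 s1 g1.2.1 (h.two _ g1) g2.1 s2
    g2.2.1 (h.two _ g2) with ⟨t, K, hK, r4, k1, k2, k3⟩ | ⟨o, t, ht, z, z1, z2⟩
  · left
    rw [← e1, ← e2, h.three K hK r4 _ _ g1 (g2.tr k2) k1 k3, dr_tr]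
  · exact Or.inr ⟨e1 ▸ e2 ▸ o, z, _, _, g1.tr ht, g2, by rwa [dr_tr], z2, z1⟩

lemma BigH.cover (hU : Uni V a) (hN : rk V = 6) (h : BigH V ρ) (hF : Sp V ρ F) {x : E}
    (hx : x ∈ V) : ∃ G, Sp V ρ G ∧ dr G = dr F ∧ x ∈ G := by
  obtain ⟨v, hv⟩ := hF.ne
  obtain ⟨g, g1, rfl⟩ := hU.trans V (Face.refl V) v (hF.1.subset hv) x hx
  have h1 := hF.image (Face.refl V) hF.1.subset g1
  rcases h.dich hU hN h1 hF with e | ⟨-, z, G, G', s1, s2, o, z1, z2⟩
  · exact ⟨_, h1, e, Finset.mem_image_of_mem g hv⟩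
  obtain ⟨k, k1, k2⟩ := hU.trans V (Face.refl V) z (s1.1.subset z1) _ hx
  have t1 := s1.image (Face.refl V) s1.1.subset k1
  have t2 := s2.image (Face.refl V) s2.1.subset k1
  rcases h.dich hU hN t1 hF with e | ⟨o1, -⟩
  · exact ⟨_, t1, e, k2 ▸ Finset.mem_image_of_mem k z1⟩
  rcases h.dich hU hN t2 hF with e | ⟨o2, -⟩
  · exact ⟨_, t2, e, k2 ▸ Finset.mem_image_of_mem k z2⟩
  have f1 := fr_sup_orth (dr_image_orth k o)
  have f2 := fr_sup_orth (Submodule.isOrtho_sup_left.2 ⟨o1, o2⟩)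
  have f3 := Submodule.finrank_le (dr (G.image k) ⊔ dr (G'.image k) ⊔ dr F)
  rw [f2, f1, t1.fr, t2.fr, hF.fr, fr_five] at f3
  omega

lemma Uni.famT (hU : Uni V a) (hK : Face V K) (hne : K.Nonempty) (nK : ¬ Split K)
    (h : ∀ t D, Face V (tr t K) → Face V D → tr t K ⊆ D → rk D = rk K + 1 → Split D) :
    Fam V (dr K) (rad K) fun G => Face V G ∧ ∃ t, G = tr t K where
  ne := ⟨K, hK, 0, (tr_zero K).symm⟩
  face := by
    rintro _ ⟨hG, t, rfl⟩
    exact ⟨hG, hne.image _, dr_tr _ _, rad_tr _ hne⟩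
  next := by
    rintro _ ⟨hG, t, rfl⟩ D hD hs hr
    obtain ⟨s, s1, s2, s3⟩ := hU.next hG hD hs hr (hne.image _)
      (h t D hG hD hs (by rw [hr, rk_tr])) (by rwa [split_tr])
    exact ⟨_, ⟨s1, _, tr_tr s t K⟩, s2, s3⟩

lemma Fam.on_face {U : Submodule ℝ E} {σ : ℝ} {P : Finset E → Prop} (hU : Uni V a)
    (h : Fam V U σ P) (hK : Face V K) (e1 : dr K = U) (e2 : rad K = σ) {x : E} (hx : x ∈ K) :
    ∃ G, P G ∧ x ∈ G :=
  h.on hU (hK.subset hx) (y := cen K - cen V) (e1 ▸ hU.cen_orth hK ⟨x, hx⟩)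
    (by rw [sub_sub_sub_cancel_right, ← e1]; exact sub_cen_mem_dr hx)
    (by rw [hU.cen_norm hK ⟨x, hx⟩, e2])

lemma BigH.tr_split (h : BigH V ρ) (hF : Sp V ρ F) (hK : Face V K) (hs : F ⊆ K) {t : E}
    {D : Finset E} (ht : Face V (tr t K)) (hD : Face V D) (s : tr t K ⊆ D) (hr : rk D = 5) :
    Split D :=
  h.four D hD hr _ (hF.tr (ht.trans (face_tr t (hF.1.restrict hK.subset hs))))
    ((tr_mono t hs).trans s)

lemma BigH.famK (hU : Uni V a) (h : BigH V ρ) (hF : Sp V ρ F) (hK : Face V K) (r4 : rk K = 4)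
    (hs : F ⊆ K) (nK : ¬ Split K) : Fam V (dr K) (rad K) fun G => Face V G ∧ ∃ t, G = tr t K :=
  hU.famT hK (hF.ne.mono hs) nK fun _ _ ht hD s hr => h.tr_split hF hK hs ht hD s (by omega)

lemma fr_three (r4 : rk K = 4) : finrank ℝ (dr K) = 3 := by
  have := finrank_dr (F := K) (nonempty_of_rk (by omega))
  omega

/-- all special polygons parallel -/
lemma BigH.case_one (hU : Uni V a) (hN : rk V = 6) (h : BigH V ρ) (hF : Sp V ρ F) (hK : Face V K)
    (r4 : rk K = 4) (hs : F ⊆ K) (nK : ¬ Split K) (hall : ∀ G, Sp V ρ G → dr G = dr F) {x : E}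
    (hx : x ∈ V) : ∃ G, (Face V G ∧ ∃ t, G = tr t K) ∧ x ∈ G := by
  obtain ⟨v, hv⟩ := hF.ne
  obtain ⟨g, g1, rfl⟩ := hU.trans V (Face.refl V) v (hF.1.subset hv) x hx
  have h1 := hF.image (Face.refl V) hF.1.subset g1
  have k1 : Face V (K.image g) := g1 ▸ face_image g hK
  have r4' : rk (K.image g) = 4 := by rw [rk_image, r4]
  have s1 : F.image g ⊆ K.image g := Finset.image_subset_image hs
  have n1 : ¬ Split (K.image g) := fun hc => nK (hc.of_image g)
  have f1 := Submodule.finrank_sup_add_finrank_inf_eq (dr K) (dr (K.image g))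
  have f2 : finrank ℝ (dr F) ≤ finrank ℝ ↥(dr K ⊓ dr (K.image g)) :=
    Submodule.finrank_mono (le_inf (dr_mono hs) (hall _ h1 ▸ dr_mono s1))
  rw [fr_three r4, fr_three r4'] at f1
  rw [hF.fr] at f2
  obtain ⟨u, u0, u1, u2⟩ := exists_normal (U := dr K) (U' := dr (K.image g)) (by omega)
  obtain ⟨_, _, H, ⟨c1, t, rfl⟩, ⟨c2, t', rfl⟩, hH, hr, d1, d2⟩ :=
    (h.famK hU hF hK r4 hs nK).meet hU (dr_top hN) (h.famK hU h1 k1 r4' s1 n1) u0 u1 u2
  have := hU.dr_le_of hH (h.tr_split hF hK hs c1 hH d1 (by omega)) c1 d1 (by rw [rk_tr]; omega)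
    (by rwa [split_tr]) c2 d2 (by rwa [split_tr]) (by rw [rk_tr]; omega)
  rw [dr_tr, dr_tr] at this
  exact (h.famK hU hF hK r4 hs nK).on_face hU k1
    (Submodule.eq_of_le_of_finrank_eq this (by rw [fr_three r4, fr_three r4']))
    (rad_image g (hF.ne.mono hs)) (s1 (Finset.mem_image_of_mem g hv))

/-- two orthogonal special planes -/
lemma BigH.case_two (hU : Uni V a) (hN : rk V = 6) (h : BigH V ρ) (hF : Sp V ρ F) (hK : Face V K)
    (r4 : rk K = 4) (hs : F ⊆ K) (nK : ¬ Split K) (hF' : Sp V ρ F') (o : dr F' ⟂ dr F) {x : E}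
    (hx : x ∈ V) : ∃ G, (Face V G ∧ ∃ t, G = tr t K) ∧ x ∈ G := by
  have fam := h.famK hU hF hK r4 hs nK
  have f4 := fr_sup_orth o
  rw [hF.fr, hF'.fr] at f4
  obtain ⟨n, n0, n1, n2⟩ := exists_normal (U := dr F') (U' := dr F) f4.le
  have step1 : n ∉ (dr K)ᗮ := fun hn => by
    obtain ⟨_, G, H, ⟨c1, t, rfl⟩, ⟨c2, e2⟩, hH, hr, d1, d2⟩ :=
      fam.meet hU (dr_top hN) (h.famL hU hF') n0 hn n1
    have := hU.dr_le_of hH (h.four H hH (by omega) _ c2 d2) c1 d1 (by rw [rk_tr]; omega)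
      (by rwa [split_tr]) c2.1 d2 (h.two _ c2) c2.2.1.ge
    rw [dr_tr, e2] at this
    have f5 := Submodule.finrank_mono (sup_le this (dr_mono hs))
    rw [fr_three r4] at f5
    omega
  have sp1 : (dr F' ⊔ dr F)ᗮ = ℝ ∙ n := by
    have := fr_orth (dr F' ⊔ dr F)
    refine (Submodule.eq_of_le_of_finrank_eq ?_ (by rw [finrank_span_singleton n0]; omega)).symm
    rw [Submodule.span_singleton_le_iff_mem, ← Submodule.inf_orthogonal]
    exact ⟨n1, n2⟩
  have dec : ∀ y ∈ V, ∃ p ∈ dr F, ∃ p' ∈ dr F', ∃ c : ℝ, ‖p‖ ^ 2 = ρ ∧ ‖p'‖ ^ 2 = ρ ∧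
      y - cen V = p + p' + c • n := fun y hy => by
    obtain ⟨G, g1, g2, g3⟩ := h.cover hU hN hF hy
    obtain ⟨G', g1', g2', g3'⟩ := h.cover hU hN hF' hy
    have m1 : y - cen G ∈ dr F := g2 ▸ sub_cen_mem_dr g3
    have m2 : y - cen G' ∈ dr F' := g2' ▸ sub_cen_mem_dr g3'
    have : y - cen V - (y - cen G) - (y - cen G') ∈ (dr F' ⊔ dr F)ᗮ := by
      rw [← Submodule.inf_orthogonal]
      constructor
      · rw [show y - cen V - (y - cen G) - (y - cen G') = (cen G' - cen V) - (y - cen G) by abel]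
        exact sub_mem (g2' ▸ hU.cen_orth g1'.1 g1'.ne) (o.symm.le m1)
      · rw [show y - cen V - (y - cen G) - (y - cen G') = (cen G - cen V) - (y - cen G') by abel]
        exact sub_mem (g2 ▸ hU.cen_orth g1.1 g1.ne) (o.le m2)
    rw [sp1] at this
    obtain ⟨c, hc⟩ := Submodule.mem_span_singleton.1 this
    exact ⟨_, m1, _, m2, c, by rw [hU.norm_sq g1.1 g3, g1.2.2], by rw [hU.norm_sq g1'.1 g3', g1'.2.2],
      by rw [hc]; abel⟩
  have step2 : ∀ y ∈ V, inner ℝ n (y - cen V) ^ 2 = ‖n‖ ^ 2 * (rad V - 2 * ρ) := fun y hy => by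
    obtain ⟨p, hp, p', hp', c, e1, e2, e3⟩ := dec y hy
    have a1 : inner ℝ p n = 0 := Submodule.inner_right_of_mem_orthogonal hp n2
    have a2 : inner ℝ p' n = 0 := Submodule.inner_right_of_mem_orthogonal hp' n1
    have a3 : inner ℝ p p' = 0 := o.symm.inner_eq hp hp'
    have a4 := hU.norm_sq (Face.refl V) hy
    rw [e3, norm_add_sq_real, norm_add_sq_real, a3, e1, e2, real_inner_smul_right, inner_add_left,
      a1, a2, norm_smul, mul_pow, Real.norm_eq_abs, sq_abs] at a4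
    rw [e3, inner_add_right, inner_add_right, real_inner_comm, a1, real_inner_comm, a2,
      real_inner_smul_right, real_inner_self_eq_norm_sq, ← a4]
    ring
  obtain ⟨x₁, h₁, x₂, h₂, hne⟩ : ∃ x₁ ∈ K, ∃ x₂ ∈ K, inner ℝ n (x₁ - x₂) ≠ 0 := by
    by_contra hc
    push Not at hc
    have : dr K ≤ (ℝ ∙ n)ᗮ := dr_le.2 fun y hy z hz =>
      Submodule.mem_orthogonal_singleton_iff_inner_right.2 (hc y hy z hz)
    exact step1 ((Submodule.mem_orthogonal _ _).2 fun u hu => by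
      rw [real_inner_comm]
      exact Submodule.mem_orthogonal_singleton_iff_inner_right.1 (this hu))
  have step4 : n ∈ dr K := by
    refine fam.mem_of_const hU (dr_top hN) (κ := inner ℝ n (cen K - cen V)) ?_
    rintro _ ⟨c1, t, rfl⟩
    have e1 := step2 _ (hK.subset h₁)
    have e2 := step2 _ (hK.subset h₂)
    have e3 := step2 (x₁ + t) (c1.subset (by simpa [mem_tr]))
    have e4 := step2 (x₂ + t) (c1.subset (by simpa [mem_tr]))
    rw [add_sub_right_comm, inner_add_right] at e3 e4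
    rw [← sub_sub_sub_cancel_right x₁ x₂ (cen V), inner_sub_right] at hne
    have : inner ℝ n t = 0 := by
      refine (mul_eq_zero.1 ?_).resolve_left hne
      linear_combination (e3 - e1 - e4 + e2) / 2
    rw [cen_tr t ⟨x₁, h₁⟩, add_sub_right_comm, inner_add_right, this, add_zero]
  have sp2 : dr F ⊔ ℝ ∙ n = dr K := by
    refine Submodule.eq_of_le_of_finrank_eq (sup_le (dr_mono hs) (by simpa)) ?_
    rw [fr_sup_orth (Submodule.isOrtho_comm.1 (by simpa [Submodule.isOrtho_iff_le] using n2)),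
      hF.fr, finrank_span_singleton n0, fr_three r4]
  have o2 : dr F' ≤ (dr K)ᗮ := by
    rw [← sp2, ← Submodule.isOrtho_iff_le, Submodule.isOrtho_sup_right]
    exact ⟨o, Submodule.isOrtho_comm.1 (by simpa [Submodule.isOrtho_iff_le] using n1)⟩
  have key : ∀ y ∈ V, ∃ p' ∈ (dr K)ᗮ, ‖p'‖ ^ 2 = ρ ∧ y - cen V - p' ∈ dr K := fun y hy => by
    obtain ⟨p, hp, p', hp', c, -, e2, e3⟩ := dec y hy
    refine ⟨p', o2 hp', e2, ?_⟩
    rw [e3, show p + p' + c • n - p' = p + c • n by abel]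
    exact add_mem (dr_mono hs hp) (Submodule.smul_mem _ _ step4)
  obtain ⟨q, q1, q2, q3⟩ := key _ (hK.subset h₁)
  have e : q = cen K - cen V := by
    have m1 : q - (cen K - cen V) ∈ dr K := by
      rw [show q - (cen K - cen V) = (x₁ - cen K) - (x₁ - cen V - q) by abel]
      exact sub_mem (sub_cen_mem_dr h₁) q3
    have m2 := sub_mem q1 (hU.cen_orth hK ⟨x₁, h₁⟩)
    exact sub_eq_zero.1 (inner_self_eq_zero.1 (Submodule.inner_right_of_mem_orthogonal m1 m2))
  obtain ⟨p', p1, p2, p3⟩ := key x hx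
  exact fam.on hU hx p1 p3 (by rw [p2, ← q2, e, hU.cen_norm hK ⟨x₁, h₁⟩])

theorem BigH.split (hU : Uni V a) (hN : rk V = 6) (h : BigH V ρ) (hF : Sp V ρ F) : Split V := by
  by_cases hc : ∀ G D, Sp V ρ G → Face V D → G ⊆ D → rk D = 4 → Split D
  · have fam := hU.famT hF.1 hF.ne (h.two _ hF) fun t D ht hD s hr =>
      hc _ D (hF.tr ht) hD s (by rw [hr, hF.2.1])
    refine hU.split_of_tr (F := F) (by rw [hF.2.1]; omega) (by rw [hF.2.1]; omega) fun x hx => ?_
    obtain ⟨G, g1, g2, g3⟩ := h.cover hU hN hF hx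
    obtain ⟨_, ⟨c, t, rfl⟩, hx'⟩ := fam.on_face hU g1.1 g2 (g1.2.2.trans hF.2.2.symm) g3
    exact ⟨t, c, hx'⟩
  push Not at hc
  obtain ⟨G, K, hG, hK, hs, r4, nK⟩ := hc
  refine hU.split_of_tr (F := K) (by omega) (by omega) fun x hx => ?_
  obtain ⟨_, ⟨c, t, rfl⟩, hx'⟩ : ∃ G, (Face V G ∧ ∃ t, G = tr t K) ∧ x ∈ G := by
    by_cases hall : ∀ G', Sp V ρ G' → dr G' = dr G
    · exact h.case_one hU hN hG hK r4 hs nK hall hx
    · push Not at hall
      obtain ⟨G', hG', hne⟩ := hall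
      exact h.case_two hU hN hG hK r4 hs nK hG' ((h.dich hU hN hG' hG).resolve_left hne).1 hx
  exact ⟨t, c, hx'⟩

end

end Pool.Agent.MP_7fd204_co
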