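import Pool.Agent.MP_7fd204_co.Mg.GeoC
import Pool.Agent.MP_7fd204_co.Mg.GeoA
import Pool.Agent.MP_7fd204_co.Mg.GeoE

-- part MP_7fd204_co.GeoD
section

/-! Snub criterion, and generation of a vertex transitive group from a finite presentation of the star. -/

namespace Pool.Agent.MP_7fd204_co

open Classical

noncomputable section

theorem rigid : Rigid := fun _ N _ _ _ S a b h i hi => S.rigid N le_rfl a b h i hi

/-- reflection in the hyperplane orthogonal to `a` -/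
def rf (a : E5) : E5 ≃ₗᵢ[ℝ] E5 := (ℝ ∙ a)ᗮ.reflection

lemma rf_apply (a x : E5) : rf a x = x - (2 * inner ℝ a x / inner ℝ a a) • a := by
  rw [rf, Submodule.reflection_orthogonal_apply, Submodule.reflection_singleton_apply,
    real_inner_self_eq_norm_sq, neg_sub, two_smul, mul_div_assoc, two_mul, add_smul]
  simp

lemma rf_mul_rf (a : E5) : rf a * rf a = 1 := Submodule.reflection_mul_reflection _

lemma rf_fix {a y : E5} (h : inner ℝ a y = 0) : rf a y = y := by simp [rf_apply, h]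

/-- determinant of a linear isometry -/
def dt (w : E5 ≃ₗᵢ[ℝ] E5) : ℝ := LinearMap.det (w.toLinearEquiv : E5 →ₗ[ℝ] E5)

lemma dt_mul (g h : E5 ≃ₗᵢ[ℝ] E5) : dt (g * h) = dt g * dt h := by
  rw [dt, dt, dt, ← LinearMap.det_comp]
  rfl

lemma dt_one : dt 1 = 1 := by
  have : ((1 : E5 ≃ₗᵢ[ℝ] E5).toLinearEquiv : E5 →ₗ[ℝ] E5) = LinearMap.id := rfl
  rw [dt, this, LinearMap.det_id]

lemma dt_rf {a : E5} (ha : a ≠ 0) : dt (rf a) = -1 := by
  have := ((ℝ ∙ a)ᗮ).det_reflection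
  rw [Submodule.orthogonal_orthogonal, finrank_span_singleton ha, pow_one] at this
  exact this

/-- three reflections with coplanar normals compose to a reflection -/
lemma rf_three {a b : E5} (ha : a ≠ 0) (hb : b ≠ 0) (l μ : ℝ) (hm : l • a + μ • b ≠ 0) :
    ∃ c, c ≠ 0 ∧ rf (l • a + μ • b) * (rf a * rf b) = rf c := by
  set A := inner ℝ a a with hA
  set B := inner ℝ b b with hB
  set c := inner ℝ a b with hc
  have hc' : inner ℝ b a = c := real_inner_comm _ _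
  have A0 : A ≠ 0 := inner_self_ne_zero.2 ha
  have B0 : B ≠ 0 := inner_self_ne_zero.2 hb
  have M0 : l ^ 2 * A + 2 * l * μ * c + μ ^ 2 * B ≠ 0 := by
    have := inner_self_ne_zero (𝕜 := ℝ).2 hm
    simp only [inner_add_left, inner_add_right, real_inner_smul_left, real_inner_smul_right, ← hA,
      ← hB, ← hc, hc'] at this
    convert this using 1
    ring
  have hn : inner ℝ ((-(μ * B)) • a + (l * A + 2 * μ * c) • b)
      ((-(μ * B)) • a + (l * A + 2 * μ * c) • b) =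
      A * B * (l ^ 2 * A + 2 * l * μ * c + μ ^ 2 * B) := by
    simp only [inner_add_left, inner_add_right, real_inner_smul_left, real_inner_smul_right, ← hA,
      ← hB, ← hc, hc']
    ring
  refine ⟨(-(μ * B)) • a + (l * A + 2 * μ * c) • b, fun h0 => ?_, ?_⟩
  · rw [h0, inner_zero_left] at hn
    exact mul_ne_zero (mul_ne_zero A0 B0) M0 hn.symm
  · ext1 x
    have hm' : inner ℝ (l • a + μ • b) (l • a + μ • b) =
        l ^ 2 * A + 2 * l * μ * c + μ ^ 2 * B := by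
      simp only [inner_add_left, inner_add_right, real_inner_smul_left, real_inner_smul_right, ← hA,
        ← hB, ← hc, hc']
      ring
    simp only [LinearIsometryEquiv.coe_mul, Function.comp_apply, rf_apply, hn, hm']
    simp only [inner_add_left, inner_sub_right, real_inner_smul_left, real_inner_smul_right, ← hA,
      ← hB, ← hc, hc']
    obtain ⟨K, hK⟩ : ∃ K, K = l ^ 2 * A + 2 * l * μ * c + μ ^ 2 * B := ⟨_, rfl⟩
    rw [← hK] at M0 ⊢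
    match_scalars <;> field_simp <;> (try rw [hK]) <;> ring

variable {V : Finset E5} {a : ℝ} {N : ℕ}

/-- snub criterion -/
theorem snub_criterion (hU : Uni V a) (hN : rk V = N + 1) {m : E5} (hm : m ≠ 0)
    (G : Set (E5 ≃ₗᵢ[ℝ] E5)) (hG : ∀ g ∈ G, IsSym V g ∧ ∃ c, c ≠ 0 ∧ rf m * g = rf c) {v : E5}
    (horb : (V : Set E5) = {x | ∃ w ∈ Subgroup.closure G, x = cen V + w (v - cen V)}) :
    IsSnubHull (convexHull ℝ (V : Set E5)) := by
  set H := Subgroup.closure G with hH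
  have hle : H ≤ symGroup V := (Subgroup.closure_le _).2 fun g hg => (hG g hg).1
  have hfin : Finite H := hU.finite_of_le hN hle
  have ss := rf_mul_rf m
  have conj : ∀ h ∈ H, rf m * h * rf m ∈ H := by
    intro h hh
    induction hh using Subgroup.closure_induction with
    | mem g hg =>
      obtain ⟨-, c, -, e⟩ := hG g hg
      have : rf m * g * rf m = g⁻¹ := by
        rw [eq_inv_iff_mul_eq_one, mul_assoc, e, rf_mul_rf]
      rw [this]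
      exact H.inv_mem (Subgroup.subset_closure hg)
    | one => rw [mul_one, ss]; exact H.one_mem
    | mul g h _ _ ih1 ih2 =>
      have : rf m * (g * h) * rf m = (rf m * g * rf m) * (rf m * h * rf m) := by
        simp only [mul_assoc]
        rw [← mul_assoc (rf m) (rf m), ss, one_mul]
      rw [this]
      exact H.mul_mem ih1 ih2
    | inv g _ ih =>
      have : rf m * g⁻¹ * rf m = (rf m * g * rf m)⁻¹ := by
        rw [eq_inv_iff_mul_eq_one]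
        simp only [mul_assoc]
        rw [← mul_assoc (rf m) (rf m), ss, one_mul, ← mul_assoc g⁻¹, inv_mul_cancel, one_mul, ss]
      rw [this]
      exact H.inv_mem ih
  have det1 : ∀ h ∈ H, dt h = 1 := by
    intro h hh
    induction hh using Subgroup.closure_induction with
    | mem g hg =>
      obtain ⟨-, c, hc, e⟩ := hG g hg
      have := congrArg dt e
      rw [dt_mul, dt_rf hm, dt_rf hc] at this
      linarith
    | one => exact dt_one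
    | mul g h _ _ ih1 ih2 => rw [dt_mul, ih1, ih2, mul_one]
    | inv g _ ih =>
      have := dt_mul g g⁻¹
      rw [mul_inv_cancel, dt_one, ih, one_mul] at this
      exact this.symm
  let S : Set E5 := {c | c ≠ 0 ∧ (c = m ∨ ∃ g ∈ G, rf m * g = rf c)}
  set W := Subgroup.closure ((fun a : E5 => (ℝ ∙ a)ᗮ.reflection) '' S) with hW
  have hWH : ∀ w ∈ W, w ∈ H ∨ rf m * w ∈ H := by
    intro w hw
    induction hw using Subgroup.closure_induction with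
    | mem g hg =>
      obtain ⟨c, ⟨-, rfl | ⟨g', hg', e⟩⟩, rfl⟩ := hg
      · right
        change rf c * rf c ∈ H
        rw [ss]
        exact H.one_mem
      · right
        change rf m * rf c ∈ H
        rw [← e, ← mul_assoc, ss, one_mul]
        exact Subgroup.subset_closure hg'
    | one => exact Or.inl H.one_mem
    | mul g h _ _ ih1 ih2 =>
      rcases ih1 with h1 | h1 <;> rcases ih2 with h2 | h2
      · exact Or.inl (H.mul_mem h1 h2)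
      · right
        have : rf m * (g * h) = (rf m * g * rf m) * (rf m * h) := by
          simp only [mul_assoc]
          rw [← mul_assoc (rf m) (rf m), ss, one_mul]
        rw [this]
        exact H.mul_mem (conj g h1) h2
      · right
        rw [← mul_assoc]
        exact H.mul_mem h1 h2
      · left
        have : g * h = (rf m * (rf m * g) * rf m) * (rf m * h) := by
          simp only [mul_assoc]
          rw [← mul_assoc (rf m) (rf m), ss, one_mul, ← mul_assoc (rf m) (rf m), ss, one_mul]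
        rw [this]
        exact H.mul_mem (conj _ h1) h2
    | inv g _ ih =>
      rcases ih with h1 | h1
      · exact Or.inl (H.inv_mem h1)
      · right
        have : rf m * g⁻¹ = (rf m * (rf m * g) * rf m)⁻¹ := by
          rw [eq_inv_iff_mul_eq_one, ← mul_assoc (rf m) (rf m), ss, one_mul]
          simp only [mul_assoc]
          rw [← mul_assoc g⁻¹, inv_mul_cancel, one_mul, ss]
        rw [this]
        exact H.inv_mem (conj _ h1)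
  have mW : rf m ∈ W := Subgroup.subset_closure ⟨m, ⟨hm, Or.inl rfl⟩, rfl⟩
  have hHW : H ≤ W := (Subgroup.closure_le _).2 fun g hg => by
    obtain ⟨-, c, hc, e⟩ := hG g hg
    have : g = rf m * rf c := by rw [← e, ← mul_assoc, ss, one_mul]
    rw [this]
    exact W.mul_mem mW (Subgroup.subset_closure ⟨c, ⟨hc, Or.inr ⟨g, hg, e⟩⟩, rfl⟩)
  refine ⟨W, cen V, v - cen V, ⟨?_, S, fun c hc => hc.1, rfl⟩, ?_⟩
  · have h1 : (H : Set (E5 ≃ₗᵢ[ℝ] E5)).Finite := Set.toFinite _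
    refine Set.Finite.subset (h1.union (h1.image fun h => rf m * h)) fun w hw => ?_
    rcases hWH w hw with h | h
    · exact Or.inl h
    · exact Or.inr ⟨_, h, by simp only; rw [← mul_assoc, ss, one_mul]⟩
  · rw [horb]
    congr 1
    ext x
    constructor
    · rintro ⟨w, hw, rfl⟩
      exact ⟨w, hHW hw, det1 w hw, rfl⟩
    · rintro ⟨w, hw, hd, rfl⟩
      refine ⟨w, ?_, rfl⟩
      rcases hWH w hw with h | h
      · exact h
      · have := det1 _ h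
        change dt w = 1 at hd
        rw [dt_mul, dt_rf hm, hd] at this
        norm_num at this

/-- `g` maps the flag `Φ` to the flag `Ψ` -/
def Maps (a : ℝ) (N : ℕ) (g : E5 ≃ₗᵢ[ℝ] E5) (Φ Ψ : Flag V) : Prop :=
  Beh a N Φ Ψ ∧ Carries N (g.toLinearEquiv : E5 →ₗ[ℝ] E5) Φ Ψ

lemma Maps.step (hU : Uni V a) (hN : rk V = N + 1) {g : E5 ≃ₗᵢ[ℝ] E5} {Φ Ψ : Flag V}
    (h : Maps a N g Φ Ψ) {j : ℕ} (hj : j < N) : Maps a N g (fr j Φ) (fr j Ψ) :=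
  ⟨h.1.step hj, h.2.step hU hU hN hN h.1 hj⟩

lemma Maps.mul {g g' : E5 ≃ₗᵢ[ℝ] E5} {Θ Φ Ψ : Flag V} (h : Maps a N g Φ Ψ) (h' : Maps a N g' Θ Φ) :
    Maps a N (g * g') Θ Ψ :=
  ⟨fun w hw i hi => (h'.1 w hw i hi).trans (h.1 w hw i hi), fun i h1 h2 => by
    rw [← h.2 i h1 h2, ← h'.2 i h1 h2]; rfl⟩

lemma Maps.inv {g : E5 ≃ₗᵢ[ℝ] E5} {Φ Ψ : Flag V} (h : Maps a N g Φ Ψ) : Maps a N g⁻¹ Ψ Φ :=
  ⟨h.1.symm, fun i h1 h2 => by
    rw [← h.2 i h1 h2]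
    simp⟩

lemma Maps.one (Φ : Flag V) : Maps a N 1 Φ Φ := ⟨fun _ _ _ _ => rfl, fun _ _ _ => rfl⟩

/-- an element of `H` maps `f k'` to the flag across the edge of `f k` -/
def Lk (a : ℝ) (N : ℕ) (H : Subgroup (E5 ≃ₗᵢ[ℝ] E5)) (f : ℕ → Flag V) (p : ℕ × ℕ) : Prop :=
  ∃ g ∈ H, Maps a N g (f p.2) (fr 0 (f p.1))

/-- `p` follows from the pairs in `L` -/
def lkOk (N : ℕ) (R : ℕ → ℕ → ℕ) (T : ℕ → Bool) (L : List (ℕ × ℕ)) (p : ℕ × ℕ) : Bool :=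
  L.any fun q => (p.1 == q.2 && p.2 == q.1) ||
    ((List.range N).any fun i => decide (2 ≤ i) && p.1 == R i q.1 && p.2 == R i q.2) ||
    (T q.1 && p.1 == R 1 q.1 && L.any fun q' => q'.1 == R 1 q.2 && p.2 == R 1 q'.2)

def lkRun (N : ℕ) (R : ℕ → ℕ → ℕ) (T : ℕ → Bool) : List (ℕ × ℕ) → List (ℕ × ℕ) → Bool
  | _, [] => true
  | L, p :: D => lkOk N R T L p && lkRun N R T (p :: L) D

lemma tri_rel {Φ : Flag V} (h : fm 1 Φ = 3) : fr 0 (fr 1 Φ) = fr 1 (fr 0 (fr 1 (fr 0 Φ))) := by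
  have e : (UP.rot fr 1)^[3] Φ = Φ := by
    rw [← h]
    exact Function.iterate_minimalPeriod
  simp only [Function.iterate_succ_apply', Function.iterate_zero, id, UP.rot, Nat.sub_self] at e
  conv_lhs => rw [← e, fr_fr, fr_fr]

lemma lk_ok (hU : Uni V a) (hN : rk V = N + 1) (h2 : 2 ≤ N) {H : Subgroup (E5 ≃ₗᵢ[ℝ] E5)}
    {f : ℕ → Flag V} {s : ℕ} {R : ℕ → ℕ → ℕ} {T : ℕ → Bool}
    (hR : ∀ k, k < s → ∀ i, 1 ≤ i → i < N → R i k < s ∧ fr i (f k) = f (R i k))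
    (hT : ∀ k, k < s → T k = true → fm 1 (f k) = 3) {L : List (ℕ × ℕ)}
    (hL : ∀ q ∈ L, q.1 < s ∧ q.2 < s ∧ Lk a N H f q) {p : ℕ × ℕ} (h : lkOk N R T L p = true) :
    p.1 < s ∧ p.2 < s ∧ Lk a N H f p := by
  simp only [lkOk, List.any_eq_true, Bool.or_eq_true, Bool.and_eq_true, beq_iff_eq,
    decide_eq_true_eq, List.mem_range] at h
  obtain ⟨q, hq, h⟩ := h
  obtain ⟨q1, q2, g, hg, mg⟩ := hL q hq
  rcases h with (⟨e1, e2⟩ | ⟨i, hi, ⟨i2, e1⟩, e2⟩) | ⟨⟨t, e1⟩, q', hq', e2, e3⟩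
  · refine ⟨e1 ▸ q2, e2 ▸ q1, g⁻¹, H.inv_mem hg, ?_⟩
    have := (mg.step hU hN (j := 0) (by omega)).inv
    rwa [fr_fr, ← e1, ← e2] at this
  · obtain ⟨a1, a2⟩ := hR q.1 q1 i (by omega) hi
    obtain ⟨b1, b2⟩ := hR q.2 q2 i (by omega) hi
    refine ⟨e1 ▸ a1, e2 ▸ b1, g, hg, ?_⟩
    have := mg.step hU hN hi
    rwa [← fr_comm i2, a2, b2, ← e1, ← e2] at this
  · obtain ⟨q1', q2', g', hg', mg'⟩ := hL q' hq'
    obtain ⟨a1, a2⟩ := hR q.1 q1 1 le_rfl (by omega)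
    obtain ⟨b1, b2⟩ := hR q.2 q2 1 le_rfl (by omega)
    obtain ⟨c1, c2⟩ := hR q'.2 q2' 1 le_rfl (by omega)
    refine ⟨e1 ▸ a1, e3 ▸ c1, g * g', H.mul_mem hg hg', ?_⟩
    have k1 := (mg.step hU hN (j := 1) (by omega)).step hU hN (j := 0) (by omega)
    rw [b2, ← e2] at k1
    have k2 := (k1.mul mg').step hU hN (j := 1) (by omega)
    rwa [← tri_rel (hT _ q1 t), a2, c2, ← e1, ← e3] at k2

lemma lk_run (hU : Uni V a) (hN : rk V = N + 1) (h2 : 2 ≤ N) {H : Subgroup (E5 ≃ₗᵢ[ℝ] E5)}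
    {f : ℕ → Flag V} {s : ℕ} {R : ℕ → ℕ → ℕ} {T : ℕ → Bool}
    (hR : ∀ k, k < s → ∀ i, 1 ≤ i → i < N → R i k < s ∧ fr i (f k) = f (R i k))
    (hT : ∀ k, k < s → T k = true → fm 1 (f k) = 3) (D : List (ℕ × ℕ)) : ∀ L : List (ℕ × ℕ),
    (∀ q ∈ L, q.1 < s ∧ q.2 < s ∧ Lk a N H f q) → lkRun N R T L D = true →
      ∀ q ∈ D ++ L, q.1 < s ∧ q.2 < s ∧ Lk a N H f q := by
  induction D with
  | nil => intro L hL _; simpa using hL
  | cons p D ih =>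
    intro L hL h q hq
    simp only [lkRun, Bool.and_eq_true] at h
    have hp := lk_ok hU hN h2 hR hT hL h.1
    refine ih (p :: L) (fun q hq => ?_) h.2 q (by
      simp only [List.mem_append, List.mem_cons] at hq ⊢
      tauto)
    rcases List.mem_cons.1 hq with rfl | hq
    · exact hp
    · exact hL q hq

/-- if every edge at the vertex is crossed by an element of `H` then `H` is vertex transitive -/
lemma orbit_of_lk (hU : Uni V a) (hN : rk V = N + 1) {H : Subgroup (E5 ≃ₗᵢ[ℝ] E5)}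
    (hH : H ≤ symGroup V) {f : ℕ → Flag V} {s : ℕ} {R : ℕ → ℕ → ℕ} (hs : 0 < s)
    (hR : ∀ k, k < s → ∀ i, 1 ≤ i → i < N → R i k < s ∧ fr i (f k) = f (R i k))
    (hv : ∀ k, k < s → fc 0 (f k) = fc 0 (f 0))
    (hL : ∀ k, k < s → ∃ k', k' < s ∧ Lk a N H f (k, k')) :
    (V : Set E5) = {x | ∃ w ∈ H, x = cen V + w (fc 0 (f 0) - cen V)} := by
  ext x
  constructor
  · intro hx
    obtain ⟨Ψ, rfl⟩ := hU.exists_flag_vertex hx
    have := flag_induction hN (fun Ψ => ∃ g ∈ H, ∃ k, k < s ∧ Maps a N g (f k) Ψ) (Φ := f 0)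
      ⟨1, H.one_mem, 0, hs, Maps.one _⟩ (fun Ψ i hi ⟨g, hg, k, hk, mg⟩ => ?_) Ψ
    · obtain ⟨g, hg, k, hk, mg⟩ := this
      refine ⟨g, hg, ?_⟩
      have e := mg.2.centre hN hN (Nat.zero_le _)
      rw [hv k hk] at e
      change g (fc 0 (f 0) - cen V) = _ at e
      rw [e, add_sub_cancel]
    · by_cases h0 : i = 0
      · subst h0
        obtain ⟨k', hk', g', hg', mg'⟩ := hL k hk
        exact ⟨g * g', H.mul_mem hg hg', k', hk', (mg.step hU hN hi).mul mg'⟩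
      · obtain ⟨r1, r2⟩ := hR k hk i (by omega) hi
        exact ⟨g, hg, R i k, r1, r2 ▸ mg.step hU hN hi⟩
  · rintro ⟨w, hw, rfl⟩
    exact (hH hw).1 _ (fc_zero_mem_V _ (by omega))

/-- reachability of all states from state `0` -/
def reach (N : ℕ) (R : ℕ → ℕ → ℕ) : List ℕ → List ℕ → Bool
  | _, [] => true
  | L, k :: D => (L.any fun k' => (List.range N).any fun i => decide (1 ≤ i) && k == R i k') &&
      reach N R (k :: L) D

lemma reach_ind {N s : ℕ} {R : ℕ → ℕ → ℕ} (P : ℕ → Prop)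
    (hP : ∀ k i, 1 ≤ i → i < N → P k → P (R i k)) (D : List ℕ) : ∀ L : List ℕ,
    (∀ k ∈ L, P k) → reach N R L D = true → ∀ k ∈ D ++ L, P k := by
  induction D with
  | nil => intro L hL _; simpa using hL
  | cons p D ih =>
    intro L hL h q hq
    simp only [reach, Bool.and_eq_true, List.any_eq_true, decide_eq_true_eq, beq_iff_eq,
      List.mem_range] at h
    obtain ⟨⟨k', hk', i, hi, h1, e⟩, h⟩ := h
    refine ih (p :: L) (fun q hq => ?_) h q (by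
      simp only [List.mem_append, List.mem_cons] at hq ⊢
      tauto)
    rcases List.mem_cons.1 hq with rfl | hq
    · exact e ▸ hP k' i h1 hi (hL k' hk')
    · exact hL q hq

/-- if `fr j` keeps the radius then it acts on the frame as a reflection -/
lemma Uni.rf_carries (hU : Uni V a) (hN : rk V = N + 1) (Φ : Flag V) {j : ℕ} (h1 : 1 ≤ j)
    (hj : j < N) (hx : fx a j (fr j Φ) = fx a j Φ) :
    ∃ n : E5, n ≠ 0 ∧ (∀ y, Perp V y → inner ℝ n y = 0) ∧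
      Carries N ((rf n).toLinearEquiv : E5 →ₗ[ℝ] E5) Φ (fr j Φ) := by
  obtain ⟨i, rfl⟩ : ∃ i, j = i + 1 := ⟨j - 1, by omega⟩
  have r1 : 1 ≤ rk V := by omega
  set Ψ := fr (i + 1) Φ with hΨ
  have hn : ‖fe (i + 1) Φ‖ = ‖fe (i + 1) Ψ‖ := by
    rw [← sq_eq_sq₀ (norm_nonneg _) (norm_nonneg _), hU.fe_norm Φ r1, hU.fe_norm Ψ r1, hx,
      fx_fr_ne Φ (by omega)]
  have k1 : rf (fe (i + 1) Φ - fe (i + 1) Ψ) (fe (i + 1) Φ) = fe (i + 1) Ψ :=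
    Submodule.reflection_sub hn
  have hadd := fe_fr_add Φ (i + 1)
  rw [← hΨ] at hadd
  refine ⟨fe (i + 1) Φ - fe (i + 1) Ψ, fun h0 => ?_, fun y hy => ?_, fun l l1 l2 => ?_⟩
  · have e : cen (Φ.f (i + 2)) = cen (Ψ.f (i + 2)) := by
      have := sub_eq_zero.1 h0
      rw [fe, fe, fr_f_ne Φ (j := i + 1) (by omega)] at this
      exact sub_left_injective this
    obtain ⟨l, l0, l1, l2⟩ := (Φ.face (i + 2)).expose
    have z := fn_cen_zero (Φ.nonempty (k := i + 2) (by omega) r1) l l1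
    rw [e] at z
    have hs : Ψ.f (i + 2) ⊆ Φ.f (i + 2) := fun x hx => by
      by_contra hx'
      exact (l2 x ((Ψ.face _).subset hx) hx').ne'
        (fn_zero_of_cen l (fun x hx => l0 x ((Ψ.face _).subset hx)) z x hx)
    exact fr_ne Φ (by omega) (eq_of_rk' (Φ.face _) (Ψ.face _) hs (by rw [Φ.rk_f, Ψ.rk_f]))
  · rw [real_inner_comm, inner_sub_right, hy.fe r1 Φ h1, hy.fe r1 Ψ h1, sub_zero]
  · change rf _ _ = _
    by_cases e1 : l = i + 1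
    · rw [e1, k1]
    · by_cases e2 : l = i + 1 + 1
      · have o1 := hU.fe_orth Φ r1 (i := i + 1) (j := i + 1 + 1) h1 (by omega) (by omega)
        have o2 := hU.fe_orth Ψ r1 (i := i + 1) (j := i + 1 + 1) h1 (by omega) (by omega)
        have k2 : rf (fe (i + 1) Φ - fe (i + 1) Ψ) (fe (i + 1) Φ + fe (i + 1 + 1) Φ) =
            fe (i + 1) Φ + fe (i + 1 + 1) Φ := by
          refine rf_fix ?_
          have e : fe (i + 1) Φ + fe (i + 1 + 1) Φ = fe (i + 1) Ψ + fe (i + 1 + 1) Ψ := by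
            rw [hadd]; abel
          rw [inner_sub_left]
          nth_rewrite 2 [e]
          rw [inner_add_right, inner_add_right, o1, o2, real_inner_self_eq_norm_sq,
            real_inner_self_eq_norm_sq, hn, sub_self]
        rw [map_add, k1] at k2
        rw [e2, hadd, ← k2]
        abel
      · rw [fe_fr_ne Φ e1 e2]
        refine rf_fix ?_
        rw [inner_sub_left, hU.fe_orth Φ r1 h1 l1 (Ne.symm e1), ← fe_fr_ne Φ e1 e2,
          hU.fe_orth Ψ r1 h1 l1 (Ne.symm e1), sub_zero]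

/-- a symmetry taking `Φ` to `fr 0 (fr j Φ)` is a product of two reflections -/
lemma Uni.rotation (hU : Uni V a) (hN : rk V = N + 1) (Φ : Flag V) {j : ℕ} (h1 : 1 ≤ j)
    (hj : j < N) (hB : Beh a N Φ (fr 0 (fr j Φ))) :
    ∃ p q : E5, p ≠ 0 ∧ q ≠ 0 ∧ (∀ y, Perp V y → inner ℝ p y = 0) ∧
      (∀ y, Perp V y → inner ℝ q y = 0) ∧ (∀ t : ℝ, q ≠ t • p) ∧ IsSym V (rf p * rf q) ∧
      Maps a N (rf p * rf q) Φ (fr 0 (fr j Φ)) := by
  have r1 : 1 ≤ rk V := by omega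
  have hx : fx a j (fr j Φ) = fx a j Φ := by
    rw [hB.base hj.le, fx_fr_ne (fr j Φ) (by omega)]
  obtain ⟨q, q0, q1, q2⟩ := hU.rf_carries hN Φ h1 hj hx
  have p0 := fe_ne (fr j Φ) (i := 1) le_rfl (by omega)
  have p1 : ∀ y, Perp V y → inner ℝ (fe 1 (fr j Φ)) y = 0 := fun y hy => by
    rw [real_inner_comm]; exact hy.fe r1 _ le_rfl
  have p2 := mi_carries hU hN (by omega) (fr j Φ)
  have hc : Carries N ((rf (fe 1 (fr j Φ)) * rf q).toLinearEquiv : E5 →ₗ[ℝ] E5) Φ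
      (fr 0 (fr j Φ)) := fun i i1 i2 => by
    rw [← p2 i i1 i2, ← q2 i i1 i2]; rfl
  refine ⟨_, q, p0, q0, p1, q1, fun t ht => ?_, ⟨fun v hv => hc.vertex hU hU hN hN hB hv,
    fun y hy => ?_⟩, hB, hc⟩
  · have t0 : t ≠ 0 := fun h => q0 (by rw [ht, h, zero_smul])
    have e : rf q = rf (fe 1 (fr j Φ)) := by
      rw [rf, rf, ht]
      congr 2
      exact Submodule.span_singleton_smul_eq (IsUnit.mk0 t t0) _
    have e2 := hc.centre hN hN (Nat.zero_le _)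
    rw [e, rf_mul_rf] at e2
    have e3 : fc 0 Φ = fc 0 (fr 0 (fr j Φ)) := sub_left_injective e2
    rw [← fc_fr_ne Φ (i := j) (by omega)] at e3
    exact fc_zero_ne _ (by omega) e3
  · simp [rf_fix (q1 y hy), rf_fix (p1 y hy)]

/-- two planes in the direction space of a three dimensional configuration meet -/
lemma Uni.planes_meet (hU : Uni V a) (hN : rk V = 3 + 1) {p q p' q' : E5} (p0 : p ≠ 0) (p0' : p' ≠ 0)
    (h : ∀ z ∈ [p, q, p', q'], ∀ y, Perp V y → inner ℝ z y = 0) (i1 : ∀ t : ℝ, q ≠ t • p)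
    (i2 : ∀ t : ℝ, q' ≠ t • p') :
    ∃ l μ l' μ' : ℝ, l • p + μ • q ≠ 0 ∧ l • p + μ • q = l' • p' + μ' • q' := by
  obtain ⟨Φ⟩ := exists_flag0 V
  let T : Submodule ℝ E5 := Submodule.span ℝ (Set.range ![fe 1 Φ, fe 2 Φ, fe 3 Φ])
  have hT : ∀ z ∈ [p, q, p', q'], z ∈ T := fun z hz => by
    obtain ⟨c, y, hy, e⟩ := hU.decomp hN Φ z
    have y0 : y = 0 := by
      have := h z hz y hy
      rw [e, inner_add_left, sum_inner, Finset.sum_eq_zero fun i hi => by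
        rw [real_inner_smul_left, real_inner_comm, hy.fe (by omega) Φ (Finset.mem_Ioc.1 hi).1,
          mul_zero], add_zero] at this
      exact inner_self_eq_zero.1 this
    rw [e, y0, zero_add]
    refine Submodule.sum_mem _ fun i hi => Submodule.smul_mem _ _ (Submodule.subset_span ?_)
    have := Finset.mem_Ioc.1 hi
    obtain rfl | rfl | rfl : i = 1 ∨ i = 2 ∨ i = 3 := by omega
    · exact ⟨0, rfl⟩
    · exact ⟨1, rfl⟩
    · exact ⟨2, rfl⟩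
  have hd : Module.finrank ℝ T ≤ 3 := by
    exact finrank_range_le_card (R := ℝ) ![fe 1 Φ, fe 2 Φ, fe 3 Φ]
  have hdep : ¬ LinearIndependent ℝ (![⟨p, hT p (by simp)⟩, ⟨q, hT q (by simp)⟩,
      ⟨p', hT p' (by simp)⟩, ⟨q', hT q' (by simp)⟩] : Fin 4 → T) := fun hi => by
    have := hi.fintype_card_le_finrank
    simp at this
    omega
  obtain ⟨g, hg, i, hi⟩ := Fintype.not_linearIndependent_iff.1 hdep
  have e := congrArg Subtype.val hg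
  simp only [Fin.sum_univ_four, Matrix.cons_val_zero, Matrix.cons_val_one, Matrix.cons_val,
    Submodule.coe_add, Submodule.coe_smul, Submodule.coe_zero] at e
  have ind : ∀ (u w : E5) (s t : ℝ), u ≠ 0 → (∀ t : ℝ, w ≠ t • u) → s • u + t • w = 0 →
      s = 0 ∧ t = 0 := fun u w s t u0 hw he => by
    have t0 : t = 0 := by
      by_contra t0
      refine hw (-s / t) ?_
      have : w = t⁻¹ • (t • w) := by rw [smul_smul, inv_mul_cancel₀ t0, one_smul]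
      rw [this, eq_neg_of_add_eq_zero_right he, smul_neg, smul_smul, ← neg_smul]
      congr 1
      field_simp
    rw [t0, zero_smul, add_zero] at he
    exact ⟨(smul_eq_zero.1 he).resolve_right u0, t0⟩
  refine ⟨g 0, g 1, -g 2, -g 3, fun h0 => ?_, ?_⟩
  · obtain ⟨a0, a1⟩ := ind p q _ _ p0 i1 h0
    rw [add_assoc, h0, zero_add] at e
    obtain ⟨a2, a3⟩ := ind p' q' _ _ p0' i2 e
    fin_cases i <;> simp_all
  · rw [neg_smul, neg_smul, ← neg_add, eq_neg_iff_add_eq_zero, ← add_assoc, e]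

/-- three dimensional snubs and antiprisms from a finite presentation -/
theorem snub3 (hU : Uni V a) (hN : rk V = 3 + 1) {s : ℕ} {R M : ℕ → ℕ → ℕ} {Z C : ℕ → ℕ}
    {Φ : Flag V} (h : UP.Pres fr fm 3 s R M Z C Φ) (T : ℕ → Bool)
    (hT : ∀ k, k < s → T k = true → M 1 k = 3) (k₁ j₁ k₂ j₂ : ℕ) (D : List (ℕ × ℕ)) (D' : List ℕ)
    (b₁ : k₁ < s ∧ 1 ≤ j₁ ∧ j₁ < 3 ∧ C k₁ = C (Z (R j₁ k₁)))
    (b₂ : k₂ < s ∧ 1 ≤ j₂ ∧ j₂ < 3 ∧ C k₂ = C (Z (R j₂ k₂)))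
    (hD : lkRun 3 R T [(R j₁ k₁, k₁), (R j₂ k₂, k₂)] D = true)
    (hall : ∀ k, k < s → ∃ q ∈ D ++ [(R j₁ k₁, k₁), (R j₂ k₂, k₂)], q.1 = k)
    (hD' : reach 3 R [0] D' = true) (hall' : ∀ k, k < s → k ∈ D' ++ [0]) :
    IsSnubHull (convexHull ℝ (V : Set E5)) := by
  obtain ⟨f, -, hf⟩ := h
  have hR : ∀ k, k < s → ∀ i, 1 ≤ i → i < 3 → R i k < s ∧ fr i (f k) = f (R i k) :=
    fun k hk i h1 h2 => ⟨((hf k hk).1 i h1 h2).1, ((hf k hk).1 i h1 h2).2.1⟩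
  have gen : ∀ k j, k < s ∧ 1 ≤ j ∧ j < 3 ∧ C k = C (Z (R j k)) →
      Beh a 3 (f k) (fr 0 (fr j (f k))) := fun k j ⟨hk, h1, h2, hC⟩ => by
    obtain ⟨r1, r2⟩ := hR k hk j h1 h2
    obtain ⟨-, z1, z2, -⟩ := hf _ r1
    have e1 := (hf k hk).2.2.2 _ z1 hC
    rw [r2]
    exact beh_of_eqv rigid hU hN (by omega) fun w hw i i1 i2 =>
      (e1 w hw i i1 i2).trans (z2 w hw i i1 i2).symm
  obtain ⟨p, q, p0, q0, p1, q1, i1, s1, m1⟩ := hU.rotation hN (f k₁) b₁.2.1 b₁.2.2.1 (gen _ _ b₁)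
  obtain ⟨p', q', p0', q0', p1', q1', i2, s2, m2⟩ :=
    hU.rotation hN (f k₂) b₂.2.1 b₂.2.2.1 (gen _ _ b₂)
  obtain ⟨l, μ, l', μ', m0, hm⟩ := hU.planes_meet hN p0 p0' (by
    simp only [List.mem_cons, List.not_mem_nil, or_false]
    rintro z (rfl | rfl | rfl | rfl) <;> assumption) i1 i2
  have hs : 0 < s := by omega
  refine snub_criterion hU hN m0 {rf p * rf q, rf p' * rf q'} ?_ (v := fc 0 (f 0)) ?_
  · rintro g (rfl | rfl)
    · exact ⟨s1, rf_three p0 q0 l μ m0⟩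
    · exact ⟨s2, by rw [hm] at m0 ⊢; exact rf_three p0' q0' l' μ' m0⟩
  · refine orbit_of_lk hU hN ((Subgroup.closure_le _).2 ?_) hs hR (fun k hk => ?_) fun k hk => ?_
    · rintro g (rfl | rfl) <;> assumption
    · refine (reach_ind (s := s) (fun k => k < s ∧ fc 0 (f k) = fc 0 (f 0))
        (fun k i h1 h2 ⟨hk, e⟩ => ?_) D' [0] (by simp [hs]) hD' k (hall' k hk)).2
      obtain ⟨r1, r2⟩ := hR k hk i h1 h2
      exact ⟨r1, by rw [← r2, fc_fr_ne _ (by omega), e]⟩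
    · obtain ⟨z, hz, rfl⟩ := hall k hk
      have := lk_run (a := a) (H := Subgroup.closure {rf p * rf q, rf p' * rf q'}) hU hN (by omega) hR
        (fun k hk ht => by rw [((hf k hk).1 1 le_rfl (by omega)).2.2, hT k hk ht]) D _ ?_ hD z hz
      · exact ⟨z.2, this.2.1, this.2.2⟩
      · simp only [List.mem_cons, List.not_mem_nil, or_false]
        rintro _ (rfl | rfl)
        · obtain ⟨r1, r2⟩ := hR k₁ b₁.1 j₁ b₁.2.1 b₁.2.2.1
          exact ⟨r1, b₁.1, _, Subgroup.subset_closure (by simp), r2 ▸ m1⟩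
        · obtain ⟨r1, r2⟩ := hR k₂ b₂.1 j₂ b₂.2.1 b₂.2.2.1
          exact ⟨r1, b₂.1, _, Subgroup.subset_closure (by simp), r2 ▸ m2⟩

end

end Pool.Agent.MP_7fd204_co

/-! Explicit models with coordinates in `ℤ[√5]` for four dimensional configurations. -/

namespace Pool.Agent.MP_7fd204_co

open Classical

noncomputable section

variable {V : Finset E5} {a : ℝ}

lemma perp_zero (ε : ℕ → E5) (h0 : ∀ i, 1 ≤ i → i ≤ 4 → ε i ≠ 0 ∧ ε i 4 = 0)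
    (ho : ∀ i j, 1 ≤ i → i < j → j ≤ 4 → inner ℝ (ε i) (ε j) = 0) {y : E5} (hy : y 4 = 0)
    (h : ∀ i, 1 ≤ i → i ≤ 4 → inner ℝ (ε i) y = 0) : y = 0 := by
  by_contra hne
  let v : Fin 6 → E5 := fun i =>
    if i.val < 4 then ε (i.val + 1) else if i.val = 4 then EuclideanSpace.single 4 1 else y
  have key : ∀ i j : Fin 6, i < j → inner ℝ (v i) (v j) = 0 := fun i j hij => by
    have hij' : i.val < j.val := hij
    have hj := j.2
    by_cases h1 : j.val < 4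
    · simp only [v, h1, show i.val < 4 by omega, if_true]
      exact ho _ _ (by omega) (by omega) (by omega)
    · by_cases h2 : j.val = 4
      · simp only [v, h2, show i.val < 4 by omega, if_true]
        simp [EuclideanSpace.inner_single_right, (h0 (i.val + 1) (by omega) (by omega)).2]
      · by_cases h3 : i.val < 4
        · simp only [v, h1, h2, h3, if_true, if_false]
          exact h _ (by omega) (by omega)
        · simp only [v, h1, h2, show i.val = 4 by omega, if_true, if_false]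
          simp [EuclideanSpace.inner_single_left, hy]
  have li : LinearIndependent ℝ v := by
    refine linearIndependent_of_ne_zero_of_inner_eq_zero (fun i => ?_) fun i j hij => ?_
    · by_cases h1 : i.val < 4
      · simp only [v, h1, if_true]
        exact (h0 _ (by omega) (by omega)).1
      · by_cases h2 : i.val = 4
        · simp [v, h2]
        · simpa only [v, h1, h2, if_false] using hne
    · rcases lt_or_gt_of_ne hij with h1 | h1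
      · exact key i j h1
      · rw [real_inner_comm]; exact key j i h1
  have := li.fintype_card_le_finrank
  simp at this

lemma exists_psi {E : Type} [NormedAddCommGroup E] [InnerProductSpace ℝ E] [FiniteDimensional ℝ E]
    (hE : Module.finrank ℝ E = Fintype.card (Fin 5)) (u w : ℕ → E)
    (h0 : ∀ i, 1 ≤ i → i ≤ 4 → u i ≠ 0 ∧ ‖u i‖ = ‖w i‖)
    (hu : ∀ i j, 1 ≤ i → i < j → j ≤ 4 → inner ℝ (u i) (u j) = 0)
    (hw : ∀ i j, 1 ≤ i → i < j → j ≤ 4 → inner ℝ (w i) (w j) = 0) :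
    ∃ ψ : E ≃ₗᵢ[ℝ] E, ∀ i, 1 ≤ i → i ≤ 4 → ψ (u i) = w i := by
  have on : ∀ z : ℕ → E, (∀ i, 1 ≤ i → i ≤ 4 → ‖u i‖ = ‖z i‖) →
      (∀ i j, 1 ≤ i → i < j → j ≤ 4 → inner ℝ (z i) (z j) = 0) →
      ∃ b : OrthonormalBasis (Fin 5) ℝ E, ∀ i ∈ {i : Fin 5 | i.val < 4},
        b i = ‖u (i.val + 1)‖⁻¹ • z (i.val + 1) := fun z hz ho => by
    have hv : Orthonormal ℝ (Set.domRestrict {i : Fin 5 | i.val < 4}
        fun i => ‖u (i.val + 1)‖⁻¹ • z (i.val + 1)) := by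
      refine ⟨fun i => ?_, fun i j hij => ?_⟩
      · have hi : i.1.val < 4 := i.2
        have := norm_pos_iff.2 (h0 (i.1.val + 1) (by omega) (by omega)).1
        simp only [Set.domRestrict_apply, norm_smul, norm_inv, norm_norm,
          ← hz (i.1.val + 1) (by omega) (by omega)]
        field_simp
      · have hi : i.1.val < 4 := i.2
        have hj : j.1.val < 4 := j.2
        have hne : i.1.val ≠ j.1.val := fun h => hij (Subtype.ext (Fin.ext h))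
        simp only [Set.domRestrict_apply, real_inner_smul_left, real_inner_smul_right]
        rcases lt_or_gt_of_ne hne with h | h
        · rw [ho _ _ (by omega) (by omega) (by omega)]; simp
        · rw [real_inner_comm, ho _ _ (by omega) (by omega) (by omega)]; simp
    exact Orthonormal.exists_orthonormalBasis_extension_of_card_eq hE hv
  obtain ⟨b, hb⟩ := on u (fun _ _ _ => rfl) hu
  obtain ⟨b', hb'⟩ := on w (fun i h1 h2 => (h0 i h1 h2).2) hw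
  refine ⟨b.equiv b' (Equiv.refl _), fun i h1 h2 => ?_⟩
  obtain ⟨l, rfl⟩ : ∃ l, i = l + 1 := ⟨i - 1, by omega⟩
  have e := b.equiv_apply_basis b' (Equiv.refl _) ⟨l, by omega⟩
  rw [Equiv.refl_apply, hb _ (by simp; omega), hb' _ (by simp; omega), map_smul] at e
  have := norm_pos_iff.2 (h0 (l + 1) h1 h2).1
  exact smul_right_injective _ (inv_ne_zero this.ne') e

/-- frames of a model star -/
structure Frames (a : ℝ) (f : ℕ → Flag V) (s : ℕ) (R : ℕ → ℕ → ℕ) (ε : ℕ → ℕ → E5) : Prop where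
  four : ∀ k, k < s → ∀ i, 1 ≤ i → i ≤ 4 → ε k i 4 = 0
  nrm : ∀ k, k < s → ∀ i, i < 4 →
    ‖ε k (i + 1)‖ ^ 2 = a ^ 2 / 4 * (fx a (i + 1) (f k) - fx a i (f k))
  orth : ∀ k, k < s → ∀ i j, 1 ≤ i → i < j → j ≤ 4 → inner ℝ (ε k i) (ε k j) = 0
  keep : ∀ k, k < s → ∀ j i, 1 ≤ j → j < 4 → 1 ≤ i → i ≤ 4 → i ≠ j → i ≠ j + 1 →
    ε (R j k) i = ε k i
  sum : ∀ k, k < s → ∀ j, 1 ≤ j → j < 4 → ε (R j k) j + ε (R j k) (j + 1) = ε k j + ε k (j + 1)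
  opp : ∀ k, k < s → ∀ j, 1 ≤ j → j < 4 →
    inner ℝ (ε k (j + 1)) (ε k (j + 1)) * inner ℝ (ε k j) (ε (R j k) j) <
      inner ℝ (ε k j) (ε k j) * inner ℝ (ε k (j + 1)) (ε (R j k) j)

lemma Frames.ne (hU : Uni V a) (hN : rk V = 4 + 1) {f : ℕ → Flag V} {s : ℕ} {R : ℕ → ℕ → ℕ}
    {ε : ℕ → ℕ → E5} (h : Frames a f s R ε) {k : ℕ} (hk : k < s) {i : ℕ} (h1 : 1 ≤ i) (h2 : i ≤ 4) :
    ε k i ≠ 0 ∧ ‖ε k i‖ = ‖fe i (f k)‖ := by
  obtain ⟨l, rfl⟩ : ∃ l, i = l + 1 := ⟨i - 1, by omega⟩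
  have e : ‖ε k (l + 1)‖ = ‖fe (l + 1) (f k)‖ := by
    rw [← sq_eq_sq₀ (norm_nonneg _) (norm_nonneg _), h.nrm k hk l (by omega),
      hU.fe_norm _ (by omega)]
  exact ⟨norm_pos_iff.1 (e ▸ norm_pos_iff.2 (fe_ne _ h1 (by omega))), e⟩

lemma Frames.span (hU : Uni V a) (hN : rk V = 4 + 1) {f : ℕ → Flag V} {s : ℕ} {R : ℕ → ℕ → ℕ}
    {ε : ℕ → ℕ → E5} (h : Frames a f s R ε) {k : ℕ} (hk : k < s) {y : E5} (hy : y 4 = 0) :
    ∃ c : ℕ → ℝ, y = ∑ i ∈ Finset.Ioc 0 4, c i • ε k i ∧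
      ∀ i, 1 ≤ i → i ≤ 4 → inner ℝ (ε k i) y = 0 → c i = 0 := by
  refine ⟨fun i => inner ℝ (ε k i) y / ‖ε k i‖ ^ 2, ?_, fun i _ _ h0 => by simp [h0]⟩
  rw [← sub_eq_zero]
  refine perp_zero (ε k) (fun i h1 h2 => ⟨(h.ne hU hN hk h1 h2).1, h.four k hk i h1 h2⟩)
    (h.orth k hk) ?_ fun j h1 h2 => ?_
  · simp only [PiLp.sub_apply, hy, WithLp.ofLp_sum, Finset.sum_apply, PiLp.smul_apply, zero_sub,
      neg_eq_zero]
    refine Finset.sum_eq_zero fun i hi => ?_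
    have := Finset.mem_Ioc.1 hi
    rw [h.four k hk i this.1 this.2, smul_zero]
  · rw [inner_sub_right, inner_sum, Finset.sum_eq_single j]
    · have := norm_pos_iff.2 (h.ne hU hN hk h1 h2).1
      rw [real_inner_smul_right, real_inner_self_eq_norm_sq]
      field_simp
      ring
    · intro i hi hij
      have := Finset.mem_Ioc.1 hi
      rw [real_inner_smul_right]
      rcases lt_or_gt_of_ne hij with h3 | h3
      · rw [real_inner_comm, h.orth k hk i j this.1 h3 h2, mul_zero]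
      · rw [h.orth k hk j i h1 h3 this.2, mul_zero]
    · intro hj
      exact absurd (Finset.mem_Ioc.2 ⟨h1, h2⟩) hj

lemma Frames.step (hU : Uni V a) (hN : rk V = 4 + 1) {f : ℕ → Flag V} {s : ℕ} {R : ℕ → ℕ → ℕ}
    {ε : ℕ → ℕ → E5} (h : Frames a f s R ε)
    (hR : ∀ k, k < s → ∀ i, 1 ≤ i → i < 4 → R i k < s ∧ fr i (f k) = f (R i k))
    (ψ : E5 ≃ₗᵢ[ℝ] E5) {k j : ℕ} (hk : k < s) (h1 : 1 ≤ j) (h2 : j < 4)
    (hψ : ∀ i, 1 ≤ i → i ≤ 4 → ψ (ε k i) = fe i (f k)) :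
    ∀ i, 1 ≤ i → i ≤ 4 → ψ (ε (R j k) i) = fe i (f (R j k)) := by
  obtain ⟨r1, r2⟩ := hR k hk j h1 h2
  obtain ⟨l, rfl⟩ : ∃ l, j = l + 1 := ⟨j - 1, by omega⟩
  have ha := hU.apos
  have x0 : fx a l (f (R (l + 1) k)) = fx a l (f k) := by rw [← r2, fx_fr_ne _ (by omega)]
  have x2 : fx a (l + 2) (f (R (l + 1) k)) = fx a (l + 2) (f k) := by
    rw [← r2, fx_fr_ne _ (by omega)]
  have hA := hU.fx_lt (f k) (i := l) (by omega)
  have hB := hU.fx_lt (f k) (i := l + 1) (by omega)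
  have hA' := hU.fx_lt (f (R (l + 1) k)) (i := l) (by omega)
  have hB' := hU.fx_lt (f (R (l + 1) k)) (i := l + 1) (by omega)
  have n1 := h.nrm k hk l (by omega)
  have n2 := h.nrm k hk (l + 1) (by omega)
  have n3 := h.nrm _ r1 l (by omega)
  rw [x0] at hA' n3
  rw [show l + 1 + 1 = l + 2 from rfl] at hB hB' n2
  rw [x2] at hB'
  have o12 := h.orth k hk (l + 1) (l + 2) (by omega) (by omega) (by omega)
  have o21 : inner ℝ (ε k (l + 2)) (ε k (l + 1)) = 0 := by rw [real_inner_comm, o12]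
  have hs := h.sum k hk (l + 1) h1 h2
  obtain ⟨c, hc, hc'⟩ := h.span hU hN hk (h.four _ r1 (l + 1) h1 (by omega))
  have hz : ∀ i, 1 ≤ i → i ≤ 4 → i ≠ l + 1 → i ≠ l + 2 → c i = 0 := fun i i1 i2 i3 i4 => by
    refine hc' i i1 i2 ?_
    rw [← h.keep k hk (l + 1) i h1 h2 i1 i2 i3 i4]
    rcases lt_or_gt_of_ne i3 with h3 | h3
    · exact h.orth _ r1 i _ i1 h3 (by omega)
    · rw [real_inner_comm]; exact h.orth _ r1 _ i h1 h3 i2
  rw [Finset.sum_eq_add (l + 1) (l + 2) (by omega) (fun i hi hne => by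
      have := Finset.mem_Ioc.1 hi
      rw [hz i this.1 this.2 hne.1 hne.2, zero_smul])
    (fun hh => absurd (Finset.mem_Ioc.2 ⟨by omega, by omega⟩) hh)
    (fun hh => absurd (Finset.mem_Ioc.2 ⟨by omega, by omega⟩) hh)] at hc
  have key := circle_formula (k := a ^ 2 / 4) (by positivity) (sub_pos.2 hA) (sub_pos.2 hB)
    (sub_pos.2 hA') (sub_pos.2 hB') (by ring) o12 n1 n2 n3 hc (by
      rw [← hs, add_sub_cancel_left, real_inner_comm]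
      exact h.orth _ r1 _ _ h1 (by omega) (by omega)) (by
      have := h.opp k hk (l + 1) h1 h2
      rw [real_inner_self_eq_norm_sq, real_inner_self_eq_norm_sq, n1,
        show l + 1 + 1 = l + 2 from rfl, n2, mul_assoc, mul_assoc] at this
      have := lt_of_mul_lt_mul_left this (by positivity)
      simp only [inner_sub_left, real_inner_smul_left, o21, real_inner_self_eq_norm_sq, n1]
      refine mul_neg_of_pos_of_neg ?_ (by linarith)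
      have := mul_pos (sub_pos.2 hB) (mul_pos (by positivity : 0 < a ^ 2 / 4) (sub_pos.2 hA))
      linarith)
  have k1 : ψ (ε (R (l + 1) k) (l + 1)) = fe (l + 1) (f (R (l + 1) k)) := by
    rw [key, map_add, map_smul, map_smul, hψ _ h1 (by omega), hψ _ (by omega) (by omega), ← r2,
      hU.fe_fr (f k) (by omega)]
  intro i i1 i2
  by_cases e1 : i = l + 1
  · rw [e1, k1]
  · by_cases e2 : i = l + 1 + 1
    · rw [e2, eq_sub_of_add_eq' hs, map_sub, map_add, k1, hψ _ h1 (by omega),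
        hψ _ (by omega) (by omega), ← r2, fe_fr_add]
    · rw [h.keep k hk (l + 1) i h1 h2 i1 i2 e1 e2, hψ i i1 i2, ← r2, fe_fr_ne _ e1 e2]

lemma Frames.psi (hU : Uni V a) (hN : rk V = 4 + 1) {f : ℕ → Flag V} {s : ℕ} {R : ℕ → ℕ → ℕ}
    {ε : ℕ → ℕ → E5} (h : Frames a f s R ε)
    (hR : ∀ k, k < s → ∀ i, 1 ≤ i → i < 4 → R i k < s ∧ fr i (f k) = f (R i k)) (hs : 0 < s)
    {D : List ℕ} (hD : reach 4 R [0] D = true) (hall : ∀ k, k < s → k ∈ D ++ [0]) :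
    ∃ ψ : E5 ≃ₗᵢ[ℝ] E5, ∀ k, k < s → fc 0 (f k) = fc 0 (f 0) ∧
      ∀ i, 1 ≤ i → i ≤ 4 → ψ (ε k i) = fe i (f k) := by
  obtain ⟨ψ, hψ⟩ := exists_psi (by simp) (ε 0) (fun i => fe i (f 0)) (fun i h1 h2 => h.ne hU hN hs h1 h2)
    (h.orth 0 hs) fun i j i1 ij _ => hU.fe_orth _ (by omega) i1 (by omega) (by omega)
  refine ⟨ψ, fun k hk => (reach_ind (s := s) (fun k => k < s ∧ fc 0 (f k) = fc 0 (f 0) ∧
    ∀ i, 1 ≤ i → i ≤ 4 → ψ (ε k i) = fe i (f k)) (fun k i h1 h2 ⟨hk, e, e'⟩ => ?_) D [0]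
    (by simpa [hs] using hψ) hD k (hall k hk)).2⟩
  obtain ⟨r1, r2⟩ := hR k hk i h1 h2
  exact ⟨r1, by rw [← r2, fc_fr_ne _ (by omega), e], h.step hU hN hR ψ hk h1 h2 e'⟩

/-- the frame across the edge -/
def flip (ε : ℕ → E5) (i : ℕ) : E5 := if i = 1 then -ε i else ε i

lemma fe_flip (hU : Uni V a) (hN : rk V = 4 + 1) (Φ : Flag V) (ψ : E5 ≃ₗᵢ[ℝ] E5) {ε : ℕ → E5}
    (h : ∀ i, 1 ≤ i → i ≤ 4 → ψ (ε i) = fe i Φ) {i : ℕ} (h1 : 1 ≤ i) (h2 : i ≤ 4) :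
    ψ (flip ε i) = fe i (fr 0 Φ) := by
  unfold flip
  split_ifs with e
  · rw [e, map_neg, h 1 le_rfl (by omega), hU.fe_fr_zero Φ (by omega)]
  · rw [h i h1 h2, fe_fr_ne Φ (by omega) e]

/-! ### coordinates -/

abbrev Z5 := Zsqrtd 5
abbrev V4 := Z5 × Z5 × Z5 × Z5

def zr : Z5 →+* ℝ := Zsqrtd.toReal (by norm_num)

lemma zr_mk (p q : ℤ) : zr ⟨p, q⟩ = p + q * √5 := by
  simp [zr]

def vr (y : V4) : E5 := WithLp.toLp 2 ![zr y.1, zr y.2.1, zr y.2.2.1, zr y.2.2.2, 0]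

def dot (y z : V4) : Z5 := y.1 * z.1 + y.2.1 * z.2.1 + y.2.2.1 * z.2.2.1 + y.2.2.2 * z.2.2.2

def sm (c : Z5) (y : V4) : V4 := (c * y.1, c * y.2.1, c * y.2.2.1, c * y.2.2.2)

def ad (y z : V4) : V4 := (y.1 + z.1, y.2.1 + z.2.1, y.2.2.1 + z.2.2.1, y.2.2.2 + z.2.2.2)

/-- sufficient test for positivity -/
def posb (z : Z5) : Bool :=
  decide (0 < 1000 * z.re + (if 0 ≤ z.im then 2236 else 2237) * z.im)

lemma posb_pos {z : Z5} (h : posb z = true) : 0 < zr z := by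
  obtain ⟨p, q⟩ := z
  have h1 : (2236 : ℝ) / 1000 < √5 := Real.lt_sqrt_of_sq_lt (by norm_num)
  have h2 : √5 < (2237 : ℝ) / 1000 := (Real.sqrt_lt' (by norm_num)).2 (by norm_num)
  rw [zr_mk]
  simp only [posb, decide_eq_true_eq] at h
  split_ifs at h with hq
  · have h3 : (0 : ℝ) < 1000 * p + 2236 * q := by exact_mod_cast h
    have h4 : (0 : ℝ) ≤ q := by exact_mod_cast hq
    nlinarith
  · have h3 : (0 : ℝ) < 1000 * p + 2237 * q := by exact_mod_cast h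
    have h4 : (q : ℝ) < 0 := by exact_mod_cast not_le.1 hq
    nlinarith

lemma vr_four (y : V4) : vr y 4 = 0 := rfl

lemma inner_vr (y z : V4) : inner ℝ (vr y) (vr z) = zr (dot y z) := by
  simp [vr, dot, PiLp.inner_apply, Fin.sum_univ_five, mul_comm]

lemma vr_sm (c : Z5) (y : V4) : vr (sm c y) = zr c • vr y := by
  ext i
  fin_cases i <;> simp [vr, sm]

lemma vr_ad (y z : V4) : vr (ad y z) = vr y + vr z := by
  ext i
  fin_cases i <;> simp [vr, ad]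

/-- the decidable conditions for a table of frames; `X i k / d` is the normalised squared radius and
`c * |y| ^ 2 / d'` the difference of two of them -/
def framesOk (s : ℕ) (R : ℕ → ℕ → ℕ) (ep : ℕ → ℕ → V4) (X : ℕ → ℕ → Z5) (c d : Z5) : Bool :=
  (List.range s).all fun k =>
    ((List.range 4).all fun i =>
      decide (c * dot (ep k (i + 1)) (ep k (i + 1)) = d * (X (i + 1) k - X i k)) &&
      (List.range i).all fun j => decide (dot (ep k (j + 1)) (ep k (i + 1)) = 0)) &&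
    (List.range 3).all fun j =>
      decide (ad (ep (R (j + 1) k) (j + 1)) (ep (R (j + 1) k) (j + 2)) =
        ad (ep k (j + 1)) (ep k (j + 2))) &&
      posb (dot (ep k (j + 1)) (ep k (j + 1)) * dot (ep k (j + 2)) (ep (R (j + 1) k) (j + 1)) -
        dot (ep k (j + 2)) (ep k (j + 2)) * dot (ep k (j + 1)) (ep (R (j + 1) k) (j + 1))) &&
      (List.range 4).all fun i => i == j || i == j + 1 ||
        decide (ep (R (j + 1) k) (i + 1) = ep k (i + 1))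

lemma frames_of_ok {f : ℕ → Flag V} {s : ℕ} {R : ℕ → ℕ → ℕ} {ep : ℕ → ℕ → V4} {X : ℕ → ℕ → Z5}
    {c d : Z5} {t δ : ℝ} (ht : 0 < t) (hc : 0 < zr c) (hδ : 0 < δ)
    (e : t ^ 2 * zr d * δ = a ^ 2 / 4 * zr c)
    (hx : ∀ k, k < s → ∀ i, i ≤ 4 → fx a i (f k) = zr (X i k) / δ)
    (h : framesOk s R ep X c d = true) : Frames a f s R fun k i => t • vr (ep k i) := by
  simp only [framesOk, List.all_eq_true, List.mem_range, Bool.and_eq_true, decide_eq_true_eq,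
    Bool.or_eq_true, beq_iff_eq] at h
  refine ⟨fun k _ i _ _ => by simp [vr_four], fun k hk i hi => ?_, fun k hk i j i1 ij j4 => ?_,
    fun k hk j i j1 j4 i1 i4 e1 e2 => ?_, fun k hk j j1 j4 => ?_, fun k hk j j1 j4 => ?_⟩
  · have e1 := congrArg zr ((h k hk).1 i hi).1
    rw [map_mul, map_mul, map_sub] at e1
    rw [← real_inner_self_eq_norm_sq, real_inner_smul_left, real_inner_smul_right, inner_vr,
      hx k hk _ (by omega), hx k hk _ (by omega)]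
    refine mul_left_cancel₀ (mul_pos hc hδ).ne' ?_
    have e2 : zr (X (i + 1) k) / δ - zr (X i k) / δ = (zr (X (i + 1) k) - zr (X i k)) * δ⁻¹ := by
      ring
    have e3 : δ * δ⁻¹ = 1 := mul_inv_cancel₀ hδ.ne'
    rw [e2]
    linear_combination (t ^ 2 * δ) * e1 + (zr (X (i + 1) k) - zr (X i k)) * e -
      (a ^ 2 / 4 * zr c * (zr (X (i + 1) k) - zr (X i k))) * e3
  · obtain ⟨i, rfl⟩ : ∃ l, i = l + 1 := ⟨i - 1, by omega⟩
    obtain ⟨j, rfl⟩ : ∃ l, j = l + 1 := ⟨j - 1, by omega⟩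
    rw [real_inner_smul_left, real_inner_smul_right, inner_vr,
      ((h k hk).1 j (by omega)).2 i (by omega)]
    simp
  · obtain ⟨i, rfl⟩ : ∃ l, i = l + 1 := ⟨i - 1, by omega⟩
    obtain ⟨j, rfl⟩ : ∃ l, j = l + 1 := ⟨j - 1, by omega⟩
    rcases ((h k hk).2 j (by omega)).2 i (by omega) with (h1 | h1) | h1
    · omega
    · omega
    · rw [h1]
  · obtain ⟨j, rfl⟩ : ∃ l, j = l + 1 := ⟨j - 1, by omega⟩
    rw [← smul_add, ← smul_add, ← vr_ad, ← vr_ad, ((h k hk).2 j (by omega)).1.1]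
  · obtain ⟨j, rfl⟩ : ∃ l, j = l + 1 := ⟨j - 1, by omega⟩
    have := posb_pos ((h k hk).2 j (by omega)).1.2
    simp only [map_sub, map_mul] at this
    simp only [real_inner_smul_left, real_inner_smul_right, inner_vr]
    have h4 : 0 < t ^ 4 := by positivity
    nlinarith [mul_pos h4 this]

def flipz (ep : ℕ → V4) (i : ℕ) : V4 := if i = 1 then sm (-1) (ep i) else ep i

lemma flip_vr (t : ℝ) (ep : ℕ → V4) (i : ℕ) :
    flip (fun i => t • vr (ep i)) i = t • vr (flipz ep i) := by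
  unfold flip flipz
  split_ifs
  · simp [vr_sm]
  · rfl

/-- `|m| ^ 2` times the reflection of `y` in the hyperplane orthogonal to `m` -/
def rfz (m y : V4) : V4 := ad (sm (dot m m) y) (sm (-2 * dot m y) m)

lemma vr_rfz {m : V4} (hm : 0 < zr (dot m m)) (y : V4) :
    vr (rfz m y) = zr (dot m m) • rf (vr m) (vr y) := by
  rw [rfz, vr_ad, vr_sm, vr_sm, rf_apply, inner_vr, inner_vr, smul_sub, smul_smul, map_mul,
    sub_eq_add_neg, ← neg_smul]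
  congr 2
  simp only [map_neg, map_ofNat]
  field_simp

lemma rf_map (ψ : E5 ≃ₗᵢ[ℝ] E5) (m y : E5) : rf (ψ m) (ψ y) = ψ (rf m y) := by
  simp [rf_apply]

/-- the geometric content of a presentation -/
lemma pres_geo {N : ℕ} (hU : Uni V a) (hN : rk V = N + 1) (h1 : 1 ≤ N) {s : ℕ} {R M : ℕ → ℕ → ℕ}
    {Z C : ℕ → ℕ} {f : ℕ → Flag V}
    (hf : ∀ k, k < s → (∀ i, 1 ≤ i → i < N → R i k < s ∧ fr i (f k) = f (R i k) ∧ fm i (f k) = M i k) ∧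
      Z k < s ∧ UP.Eqv fr fm N (fr 0 (f k)) (f (Z k)) ∧
      ∀ k', k' < s → C k = C k' → UP.Eqv fr fm N (f k) (f k')) {k k' : ℕ} (hk : k < s) (hk' : k' < s)
    (hC : C k' = C (Z k)) : ∃ g, IsSym V g ∧ Maps a N g (f k') (fr 0 (f k)) := by
  obtain ⟨-, z1, z2, -⟩ := hf k hk
  have e1 := (hf k' hk').2.2.2 _ z1 hC
  have hB : Beh a N (f k') (fr 0 (f k)) := beh_of_eqv rigid hU hN h1 fun w hw i i1 i2 =>
    (e1 w hw i i1 i2).trans (z2 w hw i i1 i2).symm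
  obtain ⟨g, g1, g2⟩ := hU.exists_sym hN hB
  exact ⟨g, g1, hB, g2⟩

/-- four dimensional snubs from a presentation with exact radii and a model -/
theorem snub4 (hU : Uni V a) (hN : rk V = 4 + 1) {s : ℕ} {R M : ℕ → ℕ → ℕ} {Z C : ℕ → ℕ}
    {f : ℕ → Flag V}
    (hf : ∀ k, k < s → (∀ i, 1 ≤ i → i < 4 → R i k < s ∧ fr i (f k) = f (R i k) ∧ fm i (f k) = M i k) ∧
      Z k < s ∧ UP.Eqv fr fm 4 (fr 0 (f k)) (f (Z k)) ∧
      ∀ k', k' < s → C k = C k' → UP.Eqv fr fm 4 (f k) (f k'))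
    {ep : ℕ → ℕ → V4} {t : ℝ} (hF : Frames a f s R fun k i => t • vr (ep k i)) (hs : 0 < s)
    (m : V4) (B : List ((ℕ × ℕ) × V4)) (D : List (ℕ × ℕ)) (D' : List ℕ) (hm : posb (dot m m) = true)
    (hB : ∀ b ∈ B, b.1.1 < s ∧ b.1.2 < s ∧ C b.1.2 = C (Z b.1.1) ∧ posb (dot b.2 b.2) = true ∧
      ∀ i, i < 4 → sm (dot b.2 b.2) (rfz m (flipz (ep b.1.1) (i + 1))) =
        sm (dot m m) (rfz b.2 (ep b.1.2 (i + 1))))
    (hD : lkRun 4 R (fun k => M 1 k == 3) (B.map Prod.fst) D = true)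
    (hall : ∀ k, k < s → ∃ q ∈ D ++ B.map Prod.fst, q.1 = k)
    (hD' : reach 4 R [0] D' = true) (hall' : ∀ k, k < s → k ∈ D' ++ [0]) :
    IsSnubHull (convexHull ℝ (V : Set E5)) := by
  have hR : ∀ k, k < s → ∀ i, 1 ≤ i → i < 4 → R i k < s ∧ fr i (f k) = f (R i k) :=
    fun k hk i h1 h2 => ⟨((hf k hk).1 i h1 h2).1, ((hf k hk).1 i h1 h2).2.1⟩
  obtain ⟨ψ, hψ⟩ := hF.psi hU hN hR hs hD' hall'
  have m0 := posb_pos hm
  have ne0 : ∀ y : V4, 0 < zr (dot y y) → ψ (vr y) ≠ 0 := fun y hy h0 => by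
    rw [← inner_vr, ← ψ.inner_map_map, h0] at hy
    simp at hy
  have pp : ∀ (y : V4) (z : E5), Perp V z → inner ℝ (ψ (vr y)) z = 0 := fun y z hz => by
    obtain ⟨c, hc, -⟩ := hF.span hU hN hs (vr_four y)
    rw [hc, map_sum, sum_inner]
    refine Finset.sum_eq_zero fun i hi => ?_
    have := Finset.mem_Ioc.1 hi
    rw [map_smul, (hψ 0 hs).2 i this.1 this.2, real_inner_smul_left, real_inner_comm,
      hz.fe (by omega) _ this.1, mul_zero]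
  let G : Set (E5 ≃ₗᵢ[ℝ] E5) := {g | IsSym V g ∧ ∃ c, c ≠ 0 ∧ rf (ψ (vr m)) * g = rf c}
  refine snub_criterion hU hN (ne0 m m0) G (fun g hg => hg) (v := fc 0 (f 0)) ?_
  refine orbit_of_lk hU hN ((Subgroup.closure_le _).2 fun g hg => hg.1) hs hR
    (fun k hk => (hψ k hk).1) fun k hk => ?_
  obtain ⟨z, hz, rfl⟩ := hall k hk
  have := lk_run (a := a) (H := Subgroup.closure G) hU hN (by omega) hR
    (fun k hk ht => by rw [((hf k hk).1 1 le_rfl (by omega)).2.2]; simpa using ht) D _ ?_ hD z hz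
  · exact ⟨z.2, this.2.1, this.2.2⟩
  intro q hq
  obtain ⟨b, hb, rfl⟩ := List.mem_map.1 hq
  obtain ⟨b1, b2, b3, b4, b5⟩ := hB b hb
  obtain ⟨g, g1, g2⟩ := pres_geo hU hN (by omega) hf b1 b2 b3
  have c0 := posb_pos b4
  refine ⟨b1, b2, g, Subgroup.subset_closure ⟨g1, ψ (vr b.2), ne0 _ c0, ?_⟩, g2⟩
  have := hU.ext_frame hN (f b.1.2) (g := ((rf (ψ (vr m)) * g).toLinearEquiv : E5 →ₗ[ℝ] E5))
    (g' := ((rf (ψ (vr b.2))).toLinearEquiv : E5 →ₗ[ℝ] E5)) (fun i i1 i2 => ?_) (fun y hy => ?_)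
  · ext1 y
    exact LinearMap.congr_fun this y
  · change rf (ψ (vr m)) (g (fe i (f b.1.2))) = rf (ψ (vr b.2)) (fe i (f b.1.2))
    have e1 : g (fe i (f b.1.2)) = fe i (fr 0 (f b.1.1)) := g2.2 i i1 i2
    have e3 := fe_flip hU hN _ ψ (hψ _ b1).2 i1 i2
    have e4 : ψ (t • vr (ep b.1.2 i)) = fe i (f b.1.2) := (hψ _ b2).2 i i1 i2
    rw [flip_vr] at e3
    obtain ⟨l, rfl⟩ : ∃ l, i = l + 1 := ⟨i - 1, by omega⟩
    have e2 := congrArg vr (b5 l (by omega))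
    rw [vr_sm, vr_sm, vr_rfz m0, vr_rfz c0, smul_comm] at e2
    have e5 := smul_right_injective E5 c0.ne' (smul_right_injective E5 m0.ne' e2)
    rw [e1, ← e3, ← e4, rf_map, rf_map, map_smul (rf (vr m)), map_smul (rf (vr b.2)), e5]
  · change rf (ψ (vr m)) (g y) = rf (ψ (vr b.2)) y
    rw [g1.2 y hy, rf_fix (pp _ y hy), rf_fix (pp _ y hy)]

end

end Pool.Agent.MP_7fd204_co

/-! Identification of the grand antiprism. -/

namespace Pool.Agent.MP_7fd204_co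

open Classical Pointwise

noncomputable section

variable {V : Finset E5} {a : ℝ}

abbrev M4 := V4 × V4 × V4 × V4

def app (A : M4) (y : V4) : V4 := (dot A.1 y, dot A.2.1 y, dot A.2.2.1 y, dot A.2.2.2 y)

def lin (A : M4) : E5 →ₗ[ℝ] E5 :=
  (innerₛₗ ℝ (vr A.1)).smulRight (EuclideanSpace.single 0 1) +
  (innerₛₗ ℝ (vr A.2.1)).smulRight (EuclideanSpace.single 1 1) +
  (innerₛₗ ℝ (vr A.2.2.1)).smulRight (EuclideanSpace.single 2 1) +
  (innerₛₗ ℝ (vr A.2.2.2)).smulRight (EuclideanSpace.single 3 1)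

lemma lin_vr (A : M4) (y : V4) : lin A (vr y) = vr (app A y) := by
  simp only [lin, LinearMap.add_apply, LinearMap.smulRight_apply, innerₛₗ_apply_apply, inner_vr]
  ext i
  fin_cases i <;> simp [vr, app]

/-- isometries mapping a finite set into itself -/
def keepGroup (P : Finset E5) : Subgroup (E5 ≃ₗᵢ[ℝ] E5) where
  carrier := {g | ∀ x ∈ P, g x ∈ P}
  one_mem' := fun _ hx => hx
  mul_mem' := fun hg hh x hx => hg _ (hh x hx)
  inv_mem' := fun {g} hg x hx => by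
    obtain ⟨u, hu, he⟩ := Finset.surj_on_of_inj_on_of_card_le (s := P) (t := P)
      (fun u _ => g u) (fun u hu => hg u hu) (fun u u' _ _ he => g.injective he) le_rfl x hx
    rw [he]
    simpa using hu

def treeOk (As : List M4) : List V4 → List V4 → List (ℕ × ℕ) → Bool
  | _, [], _ => true
  | _, _ :: _, [] => false
  | L, y :: D, c :: I => (As[c.1]?.any fun A => L[c.2]?.any fun y' => decide (app A y' = sm 4 y)) &&
      treeOk As (y :: L) D I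

lemma tree_ind {As : List M4} (P : V4 → Prop)
    (hP : ∀ A ∈ As, ∀ y' y, app A y' = sm 4 y → P y' → P y) (D : List V4) :
    ∀ (L : List V4) (I : List (ℕ × ℕ)),
    (∀ y ∈ L, P y) → treeOk As L D I = true → ∀ y ∈ D ++ L, P y := by
  induction D with
  | nil => intro L I hL _; simpa using hL
  | cons p D ih =>
    intro L I hL h q hq
    rcases I with _ | ⟨c, I⟩
    · simp [treeOk] at h
    simp only [treeOk, Bool.and_eq_true, Option.any_eq_true, decide_eq_true_eq] at h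
    obtain ⟨⟨A, hA, y', hy', e⟩, h⟩ := h
    refine ih (p :: L) I (fun q hq => ?_) h q (by
      simp only [List.mem_append, List.mem_cons] at hq ⊢
      tauto)
    rcases List.mem_cons.1 hq with rfl | hq
    · exact hP A (List.mem_of_getElem? hA) y' _ e (hL y' (List.mem_of_getElem? hy'))
    · exact hL q hq

def permOk (A : M4) (S : List V4) : List V4 → List ℕ → Bool
  | [], _ => true
  | _ :: _, [] => false
  | y :: D, c :: I => (S[c]?.any fun y' => decide (app A y = sm 4 y')) && permOk A S D I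

lemma perm_ok {A : M4} {S : List V4} (D : List V4) : ∀ I, permOk A S D I = true →
    ∀ y ∈ D, ∃ y' ∈ S, app A y = sm 4 y' := by
  induction D with
  | nil => simp
  | cons p D ih =>
    intro I h q hq
    rcases I with _ | ⟨c, I⟩
    · simp [permOk] at h
    simp only [permOk, Bool.and_eq_true, Option.any_eq_true, decide_eq_true_eq] at h
    obtain ⟨⟨y', hy', e⟩, h⟩ := h
    rcases List.mem_cons.1 hq with rfl | hq
    · exact ⟨y', List.mem_of_getElem? hy', e⟩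
    · exact ih I h q hq

/-- the vertex set is the explicit list `D'' ++ [v₀]` -/
theorem vertices_eq (hU : Uni V a) (hN : rk V = 4 + 1) {s : ℕ} {R M : ℕ → ℕ → ℕ} {Z C : ℕ → ℕ}
    {f : ℕ → Flag V}
    (hf : ∀ k, k < s → (∀ i, 1 ≤ i → i < 4 → R i k < s ∧ fr i (f k) = f (R i k) ∧ fm i (f k) = M i k) ∧
      Z k < s ∧ UP.Eqv fr fm 4 (fr 0 (f k)) (f (Z k)) ∧
      ∀ k', k' < s → C k = C k' → UP.Eqv fr fm 4 (f k) (f k'))
    {ep : ℕ → ℕ → V4} {t : ℝ} (hF : Frames a f s R fun k i => t • vr (ep k i)) (hs : 0 < s)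
    (B : List ((ℕ × ℕ) × M4)) (D : List (ℕ × ℕ)) (D' : List ℕ) (v₀ : V4) (D'' : List V4) (d : Z5)
    (hB : ∀ b ∈ B, b.1.1 < s ∧ b.1.2 < s ∧ C b.1.2 = C (Z b.1.1) ∧
      (∀ i, i < 4 → app b.2 (ep b.1.2 (i + 1)) = sm 4 (flipz (ep b.1.1) (i + 1))) ∧
      ∀ y ∈ D'' ++ [v₀], ∃ y' ∈ D'' ++ [v₀], app b.2 y = sm 4 y')
    (hD : lkRun 4 R (fun k => M 1 k == 3) (B.map Prod.fst) D = true)
    (hall : ∀ k, k < s → ∃ q ∈ D ++ B.map Prod.fst, q.1 = k)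
    (hD' : reach 4 R [0] D' = true) (hall' : ∀ k, k < s → k ∈ D' ++ [0])
    (hv : sm (-d) v₀ = ad (ad (ad (ep 0 1) (ep 0 2)) (ep 0 3)) (ep 0 4))
    {I : List (ℕ × ℕ)} (hT : treeOk (B.map Prod.snd) [v₀] D'' I = true) :
    ∃ ψ : E5 ≃ₗᵢ[ℝ] E5, (V : Set E5) =
      {x | ∃ y ∈ D'' ++ [v₀], x = cen V + ψ ((t * zr d) • vr y)} := by
  have hR : ∀ k, k < s → ∀ i, 1 ≤ i → i < 4 → R i k < s ∧ fr i (f k) = f (R i k) :=
    fun k hk i h1 h2 => ⟨((hf k hk).1 i h1 h2).1, ((hf k hk).1 i h1 h2).2.1⟩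
  obtain ⟨ψ, hψ⟩ := hF.psi hU hN hR hs hD' hall'
  have gen : ∀ b ∈ B, ∃ g, IsSym V g ∧ Maps a 4 g (f b.1.2) (fr 0 (f b.1.1)) ∧
      ∀ y y', app b.2 y = sm 4 y' → g (ψ (vr y)) = ψ (vr y') := fun b hb => by
    obtain ⟨b1, b2, b3, b4, -⟩ := hB b hb
    obtain ⟨g, g1, g2⟩ := pres_geo hU hN (by omega) hf b1 b2 b3
    refine ⟨g, g1, g2, fun y y' e => ?_⟩
    have z4 : zr 4 = 4 := map_ofNat zr 4
    have key : ∀ i ∈ Finset.Ioc 0 4, (4 : ℝ) • g (ψ (t • vr (ep b.1.2 i))) =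
        ψ (lin b.2 (t • vr (ep b.1.2 i))) := fun i hi => by
      have hi' := Finset.mem_Ioc.1 hi
      have e1 : g (fe i (f b.1.2)) = fe i (fr 0 (f b.1.1)) := g2.2 i hi'.1 hi'.2
      have e3 := fe_flip hU hN _ ψ (hψ _ b1).2 hi'.1 hi'.2
      have e4 : ψ (t • vr (ep b.1.2 i)) = fe i (f b.1.2) := (hψ _ b2).2 i hi'.1 hi'.2
      rw [flip_vr] at e3
      obtain ⟨l, rfl⟩ : ∃ l, i = l + 1 := ⟨i - 1, by omega⟩
      rw [e4, e1, ← e3, map_smul (lin b.2), lin_vr, b4 l (by omega), vr_sm, z4, smul_comm t,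
        map_smul ψ (4 : ℝ)]
    obtain ⟨c, hc, -⟩ := hF.span hU hN b2 (vr_four y)
    have e2 : (4 : ℝ) • g (ψ (vr y)) = ψ (lin b.2 (vr y)) := by
      rw [hc]
      simp only [map_sum, Finset.smul_sum]
      refine Finset.sum_congr rfl fun i hi => ?_
      rw [map_smul ψ (c i), map_smul g (c i), smul_comm (4 : ℝ), key i hi, map_smul (lin b.2) (c i),
        map_smul ψ (c i)]
    rw [lin_vr, e, vr_sm, z4, map_smul] at e2
    exact smul_right_injective E5 (by norm_num) e2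
  have base : fc 0 (f 0) - cen V = (t * zr d) • ψ (vr v₀) := by
    have e1 := fc_sub (f 0) (j := 0) (k := 4) (by omega)
    rw [fc_top hN, Finset.sum_Ioc_succ_top (by omega), Finset.sum_Ioc_succ_top (by omega),
      Finset.sum_Ioc_succ_top (by omega), Finset.sum_Ioc_succ_top (by omega), Finset.Ioc_self,
      Finset.sum_empty, zero_add, ← (hψ 0 hs).2 _ (by omega) (by omega),
      ← (hψ 0 hs).2 _ (by omega) (by omega), ← (hψ 0 hs).2 _ (by omega) (by omega),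
      ← (hψ 0 hs).2 _ (by omega) (by omega), ← map_add, ← map_add, ← map_add, ← smul_add,
      ← smul_add, ← smul_add, ← vr_ad, ← vr_ad, ← vr_ad, ← hv, vr_sm, map_neg, smul_smul,
      map_smul] at e1
    rw [← neg_sub, e1, ← neg_smul]
    congr 1
    ring
  refine ⟨ψ, Set.Subset.antisymm ?_ ?_⟩
  · let P : Finset E5 := ((D'' ++ [v₀]).map fun y => ψ (vr y)).toFinset
    have hP : ∀ x, x ∈ P ↔ ∃ y ∈ D'' ++ [v₀], ψ (vr y) = x := fun x => by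
      simp only [P, List.mem_toFinset, List.mem_map]
    rw [orbit_of_lk hU hN (H := symGroup V ⊓ keepGroup P) inf_le_left hs hR
      (fun k hk => (hψ k hk).1) fun k hk => ?_]
    · rintro _ ⟨w, hw, rfl⟩
      obtain ⟨y, hy, e⟩ := (hP _).1 (hw.2 _ ((hP _).2 ⟨v₀, by simp, rfl⟩))
      exact ⟨y, hy, by rw [base, map_smul, map_smul, e]⟩
    · obtain ⟨z, hz, rfl⟩ := hall k hk
      have := lk_run (a := a) (H := symGroup V ⊓ keepGroup P) hU hN (by omega) hR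
        (fun k hk ht => by rw [((hf k hk).1 1 le_rfl (by omega)).2.2]; simpa using ht) D _ ?_ hD z hz
      · exact ⟨z.2, this.2.1, this.2.2⟩
      intro q hq
      obtain ⟨b, hb, rfl⟩ := List.mem_map.1 hq
      obtain ⟨g, g1, g2, g3⟩ := gen b hb
      obtain ⟨b1, b2, -, -, b5⟩ := hB b hb
      refine ⟨b1, b2, g, ⟨g1, fun x hx => ?_⟩, g2⟩
      obtain ⟨y, hy, rfl⟩ := (hP x).1 hx
      obtain ⟨y', hy', e⟩ := b5 y hy
      exact (hP _).2 ⟨y', hy', (g3 y y' e).symm⟩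
  · rintro _ ⟨y, hy, rfl⟩
    refine tree_ind (fun y => cen V + ψ ((t * zr d) • vr y) ∈ V) (fun A hA y' y e h => ?_) D'' [v₀] I
      (fun y hy => ?_) hT y hy
    · obtain ⟨b, hb, rfl⟩ := List.mem_map.1 hA
      obtain ⟨g, g1, -, g3⟩ := gen b hb
      have := g1.1 _ h
      rwa [add_sub_cancel_left, map_smul, map_smul, g3 y' y e, ← map_smul] at this
    · rw [List.mem_singleton.1 hy, map_smul, ← base, add_sub_cancel]
      exact fc_zero_mem_V _ (by omega)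

/-! ### the hundred vertices -/

def cd (y : V4) : Fin 4 → Z5 := ![y.1, y.2.1, y.2.2.1, y.2.2.2]

def pm (z w : Z5) : Prop := z = w ∨ z = -w

instance (z w : Z5) : Decidable (pm z w) := inferInstanceAs (Decidable (_ ∨ _))

def c600 (c : Fin 4 → Z5) : Prop :=
  (∃ i, pm (c i) 4 ∧ ∀ j, j ≠ i → c j = 0) ∨ (∀ i, pm (c i) 2) ∨
    ∃ σ : Equiv.Perm (Fin 4), Equiv.Perm.sign σ = 1 ∧
      pm (c (σ 0)) ⟨1, 1⟩ ∧ pm (c (σ 1)) 2 ∧ pm (c (σ 2)) ⟨-1, 1⟩ ∧ c (σ 3) = 0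

def cut (c : Fin 4 → Z5) : Prop :=
  (c 3 = 0 ∧ 2 * c 1 = ⟨1, 1⟩ * c 2) ∨ (c 0 = 0 ∧ 2 * c 2 = -(⟨1, 1⟩ * c 1))

instance (c : Fin 4 → Z5) : Decidable (cut c) := inferInstanceAs (Decidable (_ ∨ _))

lemma zr_inj : Function.Injective zr :=
  Zsqrtd.toReal_injective _ fun n h => by
    have h1 : n ≤ 2 := by nlinarith
    have h2 : -2 ≤ n := by nlinarith
    interval_cases n <;> simp at h

lemma phi_inv : phi⁻¹ = (√5 - 1) / 2 := by
  have : √5 * √5 = 5 := Real.mul_self_sqrt (by norm_num)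
  refine inv_eq_of_mul_eq_one_right ?_
  rw [phi]
  linear_combination this / 4

lemma zr_phi : zr ⟨1, 1⟩ = 2 * phi := by rw [zr_mk, phi]; push_cast; ring

lemma zr_phi' : zr ⟨-1, 1⟩ = 2 * phi⁻¹ := by rw [zr_mk, phi_inv]; push_cast; ring

lemma phi_pos : 0 < phi := by rw [phi]; positivity

lemma abs_iff {z w : Z5} {r : ℝ} (hr : 0 ≤ r) (hw : zr w = 4 * r) : |zr z / 4| = r ↔ pm z w := by
  rw [abs_eq hr, pm, ← zr_inj.eq_iff, ← zr_inj.eq_iff, map_neg, hw]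
  constructor <;> rintro (h | h) <;> [left; right; left; right] <;> linarith

lemma zero_iff {z : Z5} : zr z / 4 = 0 ↔ z = 0 := by
  rw [← zr_inj.eq_iff, map_zero]
  constructor <;> intro h <;> linarith

lemma grand_iff (c : Fin 4 → Z5) : (fun i => zr (c i) / 4) ∈ grandVerts ↔ c600 c ∧ ¬ cut c := by
  have p := phi_pos
  have z2 : zr 2 = 2 := map_ofNat zr 2
  have a4 : ∀ z, |zr z / 4| = 1 ↔ pm z 4 := fun z =>
    abs_iff (by norm_num) (by rw [mul_one]; exact map_ofNat zr 4)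
  have a2 : ∀ z, |zr z / 4| = 1 / 2 ↔ pm z 2 := fun z => abs_iff (by norm_num) (by rw [z2]; ring)
  have a1 : ∀ z, |zr z / 4| = phi / 2 ↔ pm z ⟨1, 1⟩ := fun z =>
    abs_iff (by positivity) (by rw [zr_phi]; ring)
  have a0 : ∀ z, |zr z / 4| = phi⁻¹ / 2 ↔ pm z ⟨-1, 1⟩ := fun z =>
    abs_iff (by positivity) (by rw [zr_phi']; ring)
  have e1 : ∀ z w, zr z / 4 = phi * (zr w / 4) ↔ 2 * z = ⟨1, 1⟩ * w := fun z w => by
    rw [← zr_inj.eq_iff, map_mul, map_mul, zr_phi, z2]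
    constructor <;> intro h <;> linarith
  have e2 : ∀ z w, zr z / 4 = -(phi * (zr w / 4)) ↔ 2 * z = -(⟨1, 1⟩ * w) := fun z w => by
    rw [← zr_inj.eq_iff, map_mul, map_neg, map_mul, zr_phi, z2]
    constructor <;> intro h <;> linarith
  simp only [grandVerts, cell600, Set.mem_setOf_eq, a4, a2, a1, a0, zero_iff, e1, e2, c600, cut,
    not_or]

lemma exists_code {x : Fin 4 → ℝ} (h : x ∈ cell600) : ∃ c : Fin 4 → Z5, x = fun i => zr (c i) / 4 := by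
  have key : ∀ (i : Fin 4) (w : Z5) (r : ℝ), zr w = 4 * r → |x i| = r → ∃ z, x i = zr z / 4 := by
    intro i w r hw hx
    rcases eq_or_eq_neg_of_abs_eq hx with h | h
    · exact ⟨w, by rw [h, hw]; ring⟩
    · exact ⟨-w, by rw [h, map_neg, hw]; ring⟩
  have : ∀ i, ∃ z, x i = zr z / 4 := fun i => by
    rcases h with ⟨j, h1, h2⟩ | h | ⟨σ, -, h0, h1, h2, h3⟩
    · by_cases hj : i = j
      · exact key i 4 1 (by rw [mul_one]; exact map_ofNat zr 4) (hj ▸ h1)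
      · exact ⟨0, by simp [h2 i hj]⟩
    · exact key i 2 _ (by rw [map_ofNat]; ring) (h i)
    · obtain ⟨j, rfl⟩ := σ.surjective i
      fin_cases j
      · exact key _ ⟨1, 1⟩ _ (by rw [zr_phi]; ring) h0
      · exact key _ 2 _ (by rw [map_ofNat]; ring) h1
      · exact key _ ⟨-1, 1⟩ _ (by rw [zr_phi']; ring) h2
      · exact ⟨0, by simpa using h3⟩
  choose c hc using this
  exact ⟨c, funext hc⟩

def sg (b : Bool) (z : Z5) : Z5 := if b then z else -z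

lemma pm_sg {z w : Z5} (h : pm z w) : ∃ b, z = sg b w := by
  rcases h with h | h
  · exact ⟨true, h⟩
  · exact ⟨false, h⟩

def tup (c : Fin 4 → Z5) : V4 := (c 0, c 1, c 2, c 3)

/-- completeness of a list of codes -/
lemma code_mem (S : List V4)
    (h1 : ∀ (i : Fin 4) (b : Bool), cut (fun j => if j = i then sg b 4 else 0) ∨
      tup (fun j => if j = i then sg b 4 else 0) ∈ S)
    (h2 : ∀ b0 b1 b2 b3 : Bool, (sg b0 2, sg b1 2, sg b2 2, sg b3 2) ∈ S)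
    (h3 : ∀ σ : Equiv.Perm (Fin 4), Equiv.Perm.sign σ = 1 → ∀ b0 b1 b2 : Bool,
      cut (fun j => ![sg b0 ⟨1, 1⟩, sg b1 2, sg b2 ⟨-1, 1⟩, 0] (σ.symm j)) ∨
      tup (fun j => ![sg b0 ⟨1, 1⟩, sg b1 2, sg b2 ⟨-1, 1⟩, 0] (σ.symm j)) ∈ S)
    {c : Fin 4 → Z5} (h : c600 c) (hc : ¬ cut c) : tup c ∈ S := by
  rcases h with ⟨i, p, q⟩ | p | ⟨σ, s, p0, p1, p2, p3⟩
  · obtain ⟨b, hb⟩ := pm_sg p
    have : c = fun j => if j = i then sg b 4 else 0 := by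
      funext j
      split_ifs with e
      · rw [e, hb]
      · exact q j e
    rw [this] at hc ⊢
    exact (h1 i b).resolve_left hc
  · obtain ⟨b0, e0⟩ := pm_sg (p 0)
    obtain ⟨b1, e1⟩ := pm_sg (p 1)
    obtain ⟨b2, e2⟩ := pm_sg (p 2)
    obtain ⟨b3, e3⟩ := pm_sg (p 3)
    rw [tup, e0, e1, e2, e3]
    exact h2 _ _ _ _
  · obtain ⟨b0, e0⟩ := pm_sg p0
    obtain ⟨b1, e1⟩ := pm_sg p1
    obtain ⟨b2, e2⟩ := pm_sg p2
    have : c = fun j => ![sg b0 ⟨1, 1⟩, sg b1 2, sg b2 ⟨-1, 1⟩, 0] (σ.symm j) := by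
      funext j
      obtain ⟨k, rfl⟩ := σ.surjective j
      rw [σ.symm_apply_apply]
      fin_cases k <;> simpa
    rw [this] at hc ⊢
    exact (h3 σ s b0 b1 b2).resolve_left hc

theorem isGrand_of (ha : 0 < a) (S : List V4) (hS : ∀ c, c600 c → ¬ cut c → tup c ∈ S)
    (hS' : ∀ y ∈ S, c600 (cd y) ∧ ¬ cut (cd y)) (ψ : E5 ≃ₗᵢ[ℝ] E5)
    (h : (V : Set E5) = {x | ∃ y ∈ S, x = cen V + ψ ((a * phi / 4) • vr y)}) : IsGrand V a := by
  refine ⟨ψ.toIsometryEquiv.trans (IsometryEquiv.addLeft (cen V)), ?_⟩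
  rw [h]
  ext x
  constructor
  · rintro ⟨y, hy, rfl⟩
    refine ⟨_, ⟨(4 : ℝ)⁻¹ • vr y, ⟨?_, by simp [vr_four]⟩, rfl⟩, ?_⟩
    · convert (grand_iff (cd y)).2 (hS' y hy) using 2 with i
      fin_cases i <;> simp [vr, cd, div_eq_inv_mul]
    · simp [smul_smul, div_eq_mul_inv]
  · rintro ⟨_, ⟨z, ⟨hz, hz4⟩, rfl⟩, rfl⟩
    obtain ⟨c, hc⟩ := exists_code hz.1
    rw [hc, grand_iff] at hz
    refine ⟨tup c, hS c hz.1 hz.2, ?_⟩
    have : z = (4 : ℝ)⁻¹ • vr (tup c) := by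
      ext i
      have := congrFun hc
      fin_cases i
      · simpa [vr, tup, div_eq_inv_mul] using this 0
      · simpa [vr, tup, div_eq_inv_mul] using this 1
      · simpa [vr, tup, div_eq_inv_mul] using this 2
      · simpa [vr, tup, div_eq_inv_mul] using this 3
      · simpa [vr_four] using hz4
    rw [this]
    simp [smul_smul, div_eq_mul_inv]

end

end Pool.Agent.MP_7fd204_co

/-! Explicit models of the snub 24-cell and of the grand antiprism over the integers of the golden field. -/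

namespace Pool.Agent.MP_7fd204_co

open UP

def v8 (a b c d e f g h : ℤ) : V4 := (⟨a, b⟩, ⟨c, d⟩, ⟨e, f⟩, ⟨g, h⟩)

/-- frame table -/
def epOf (T : List (List V4)) (k i : ℕ) : V4 := (T.getD k []).getD (i - 1) (0, 0, 0, 0)

/-- thirty times the normalised squared radii -/
def xOf (M : ℕ → ℕ → ℕ) (i k : ℕ) : Z5 :=
  if i = 0 then 0 else if i = 1 then 30 else if i = 2 then (if M 1 k = 3 then 40 else ⟨60, 12⟩)
  else if i = 3 then (if M 2 k = 3 then 45 else ⟨75, 15⟩) else ⟨180, 60⟩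

def sE : List (List V4) :=
  [[v8 (-30) 30 30 (-30) 30 (-30) (-30) 30, v8 10 (-10) 50 (-10) 10 (-10) 50 (-10),
    v8 20 (-20) (-5) (-5) 5 (-5) (-20) 10, v8 0 0 (-15) (-15) 75 45 60 30],
    [v8 0 0 90 (-30) 30 (-30) 60 0, v8 (-20) 20 (-10) (-10) 10 (-10) (-40) 20,
    v8 20 (-20) (-5) (-5) 5 (-5) (-20) 10, v8 0 0 (-15) (-15) 75 45 60 30],
    [v8 (-30) 30 30 (-30) 30 (-30) (-30) 30, v8 30 (-30) 10 (-10) 10 (-10) (-10) 10,
    v8 0 0 35 (-5) 5 (-5) 40 (-10), v8 0 0 (-15) (-15) 75 45 60 30],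
    [v8 (-30) 30 30 (-30) 30 (-30) (-30) 30, v8 10 (-10) 50 (-10) 10 (-10) 50 (-10),
    v8 50 10 10 10 50 10 10 10, v8 (-30) (-30) (-30) (-30) 30 30 30 30], [v8 0 0 90 (-30) 30 (-30) 60 0,
    v8 20 (-20) (-10) (-10) 10 (-10) (-40) 20, v8 (-20) 20 (-5) (-5) 5 (-5) (-20) 10,
    v8 0 0 (-15) (-15) 75 45 60 30], [v8 0 0 90 (-30) 30 (-30) 60 0,
    v8 (-20) 20 (-10) (-10) 10 (-10) (-40) 20, v8 50 10 10 10 50 10 10 10,
    v8 (-30) (-30) (-30) (-30) 30 30 30 30], [v8 30 (-30) 30 (-30) 30 (-30) (-30) 30,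
    v8 (-30) 30 10 (-10) 10 (-10) (-10) 10, v8 0 0 35 (-5) 5 (-5) 40 (-10),
    v8 0 0 (-15) (-15) 75 45 60 30], [v8 (-30) 30 30 (-30) 30 (-30) (-30) 30,
    v8 30 (-30) 10 (-10) 10 (-10) (-10) 10, v8 0 0 20 (-20) (-10) 10 10 (-10), v8 0 0 0 0 90 30 90 30],
    [v8 (-30) 30 30 (-30) 30 (-30) (-30) 30, v8 50 (-10) 10 (-10) 50 (-10) 10 (-10),
    v8 10 10 50 10 10 10 50 10, v8 (-30) (-30) (-30) (-30) 30 30 30 30],
    [v8 30 (-30) 30 (-30) 30 (-30) (-30) 30, v8 (-10) 10 50 (-10) 10 (-10) 50 (-10),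
    v8 (-20) 20 (-5) (-5) 5 (-5) (-20) 10, v8 0 0 (-15) (-15) 75 45 60 30],
    [v8 0 0 90 (-30) 30 (-30) 60 0, v8 20 (-20) (-10) (-10) 10 (-10) (-40) 20,
    v8 (-50) (-10) 10 10 50 10 10 10, v8 30 30 (-30) (-30) 30 30 30 30], [v8 0 0 90 (-30) 30 (-30) 60 0,
    v8 0 0 10 10 50 (-10) (-40) 20, v8 30 30 (-10) (-10) 10 10 10 10,
    v8 (-30) (-30) (-30) (-30) 30 30 30 30], [v8 30 (-30) 30 (-30) 30 (-30) (-30) 30,
    v8 (-30) 30 10 (-10) 10 (-10) (-10) 10, v8 0 0 20 (-20) (-10) 10 10 (-10), v8 0 0 0 0 90 30 90 30],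
    [v8 (-30) 30 30 (-30) 30 (-30) (-30) 30, v8 10 (-10) 30 (-30) (-10) 10 10 (-10),
    v8 20 (-20) 0 0 10 (-10) (-10) 10, v8 0 0 0 0 90 30 90 30], [v8 60 0 30 (-30) 90 (-30) 0 0,
    v8 (-40) 20 10 (-10) (-10) (-10) (-20) 20, v8 10 10 50 10 10 10 50 10,
    v8 (-30) (-30) (-30) (-30) 30 30 30 30], [v8 (-30) 30 30 (-30) 30 (-30) (-30) 30,
    v8 50 (-10) 10 (-10) 50 (-10) 10 (-10), v8 (-5) (-5) 20 (-20) (-20) 10 5 (-5),
    v8 (-15) (-15) 0 0 60 30 75 45], [v8 30 (-30) 30 (-30) 30 (-30) (-30) 30,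
    v8 (-10) 10 50 (-10) 10 (-10) 50 (-10), v8 (-50) (-10) 10 10 50 10 10 10,
    v8 30 30 (-30) (-30) 30 30 30 30], [v8 0 0 90 (-30) 30 (-30) 60 0, v8 0 0 10 10 50 (-10) (-40) 20,
    v8 (-30) (-30) (-10) (-10) 10 10 10 10, v8 30 30 (-30) (-30) 30 30 30 30],
    [v8 0 0 60 0 90 (-30) (-30) 30, v8 0 0 40 (-20) (-10) (-10) 50 (-10),
    v8 30 30 (-10) (-10) 10 10 10 10, v8 (-30) (-30) (-30) (-30) 30 30 30 30],
    [v8 30 (-30) 30 (-30) 30 (-30) (-30) 30, v8 (-10) 10 30 (-30) (-10) 10 10 (-10),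
    v8 (-20) 20 0 0 10 (-10) (-10) 10, v8 0 0 0 0 90 30 90 30], [v8 0 0 60 (-60) 0 0 0 0,
    v8 (-20) 20 0 0 20 (-20) (-20) 20, v8 20 (-20) 0 0 10 (-10) (-10) 10, v8 0 0 0 0 90 30 90 30],
    [v8 (-30) 30 30 (-30) 30 (-30) (-30) 30, v8 10 (-10) 30 (-30) (-10) 10 10 (-10),
    v8 35 (-5) 0 0 40 (-10) 5 (-5), v8 (-15) (-15) 0 0 60 30 75 45], [v8 60 0 30 (-30) 90 (-30) 0 0,
    v8 (-40) 20 50 (-10) 10 10 0 0, v8 10 10 10 10 (-10) (-10) 30 30,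
    v8 (-30) (-30) (-30) (-30) 30 30 30 30], [v8 60 0 30 (-30) 90 (-30) 0 0,
    v8 (-40) 20 10 (-10) (-10) (-10) (-20) 20, v8 (-5) (-5) 20 (-20) (-20) 10 5 (-5),
    v8 (-15) (-15) 0 0 60 30 75 45], [v8 30 (-30) 30 (-30) 30 (-30) (-30) 30,
    v8 (-50) 10 10 (-10) 50 (-10) 10 (-10), v8 (-10) (-10) 50 10 10 10 50 10,
    v8 30 30 (-30) (-30) 30 30 30 30], [v8 0 0 60 0 90 (-30) (-30) 30,
    v8 0 0 40 (-20) (-10) (-10) 50 (-10), v8 (-30) (-30) (-10) (-10) 10 10 10 10,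
    v8 30 30 (-30) (-30) 30 30 30 30], [v8 0 0 60 0 90 (-30) (-30) 30,
    v8 (-20) 20 40 (-20) 10 10 10 (-10), v8 50 10 (-10) (-10) (-10) (-10) 50 10,
    v8 (-30) (-30) (-30) (-30) 30 30 30 30], [v8 0 0 60 (-60) 0 0 0 0, v8 20 (-20) 0 0 20 (-20) (-20) 20,
    v8 (-20) 20 0 0 10 (-10) (-10) 10, v8 0 0 0 0 90 30 90 30], [v8 30 (-30) 30 (-30) 30 (-30) (-30) 30,
    v8 (-10) 10 30 (-30) (-10) 10 10 (-10), v8 (-35) 5 0 0 40 (-10) 5 (-5), v8 15 15 0 0 60 30 75 45],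
    [v8 0 0 60 (-60) 0 0 0 0, v8 (-20) 20 0 0 20 (-20) (-20) 20, v8 35 (-5) 0 0 40 (-10) 5 (-5),
    v8 (-15) (-15) 0 0 60 30 75 45], [v8 (-30) 30 90 (-30) 60 0 0 0,
    v8 50 (-10) (-10) (-10) 40 (-20) 0 0, v8 10 10 10 10 (-10) (-10) 30 30,
    v8 (-30) (-30) (-30) (-30) 30 30 30 30], [v8 60 0 30 (-30) 90 (-30) 0 0,
    v8 (-40) 20 50 (-10) 10 10 0 0, v8 (-20) (-20) (-20) (-20) 20 20 0 0, v8 0 0 0 0 0 0 60 60],
    [v8 60 0 30 (-30) 90 (-30) 0 0, v8 (-20) 0 30 (-30) (-30) 10 0 0, v8 (-25) 15 0 0 0 (-10) (-15) 15,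
    v8 (-15) (-15) 0 0 60 30 75 45], [v8 (-60) 0 30 (-30) 90 (-30) 0 0,
    v8 40 (-20) 10 (-10) (-10) (-10) (-20) 20, v8 (-10) (-10) 50 10 10 10 50 10,
    v8 30 30 (-30) (-30) 30 30 30 30], [v8 30 (-30) 30 (-30) 30 (-30) (-30) 30,
    v8 (-50) 10 10 (-10) 50 (-10) 10 (-10), v8 5 5 20 (-20) (-20) 10 5 (-5), v8 15 15 0 0 60 30 75 45],
    [v8 0 0 60 0 90 (-30) (-30) 30, v8 20 (-20) 40 (-20) 10 10 10 (-10),
    v8 (-50) (-10) (-10) (-10) (-10) (-10) 50 10, v8 30 30 (-30) (-30) 30 30 30 30],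
    [v8 (-30) 30 90 (-30) 60 0 0 0, v8 10 (-10) 10 10 40 (-20) (-20) 20,
    v8 50 10 (-10) (-10) (-10) (-10) 50 10, v8 (-30) (-30) (-30) (-30) 30 30 30 30],
    [v8 0 0 60 0 90 (-30) (-30) 30, v8 (-20) 20 40 (-20) 10 10 10 (-10), v8 20 (-20) 20 (-10) 5 5 5 (-5),
    v8 0 0 (-60) (-30) 15 15 75 45], [v8 0 0 60 (-60) 0 0 0 0, v8 20 (-20) 0 0 20 (-20) (-20) 20,
    v8 (-35) 5 0 0 40 (-10) 5 (-5), v8 15 15 0 0 60 30 75 45], [v8 0 0 60 (-60) 0 0 0 0,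
    v8 40 0 0 0 60 (-20) 0 0, v8 (-25) 15 0 0 0 (-10) (-15) 15, v8 (-15) (-15) 0 0 60 30 75 45],
    [v8 (-30) 30 90 (-30) 60 0 0 0, v8 50 (-10) (-10) (-10) 40 (-20) 0 0,
    v8 (-20) (-20) (-20) (-20) 20 20 0 0, v8 0 0 0 0 0 0 60 60], [v8 60 0 30 (-30) 90 (-30) 0 0,
    v8 (-20) 0 30 (-30) (-30) 10 0 0, v8 (-40) 0 0 0 60 20 0 0, v8 0 0 0 0 0 0 60 60],
    [v8 (-60) 0 30 (-30) 90 (-30) 0 0, v8 40 (-20) 50 (-10) 10 10 0 0,
    v8 (-10) (-10) 10 10 (-10) (-10) 30 30, v8 30 30 (-30) (-30) 30 30 30 30],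
    [v8 (-60) 0 30 (-30) 90 (-30) 0 0, v8 40 (-20) 10 (-10) (-10) (-10) (-20) 20,
    v8 5 5 20 (-20) (-20) 10 5 (-5), v8 15 15 0 0 60 30 75 45], [v8 30 (-30) 90 (-30) 60 0 0 0,
    v8 (-10) 10 10 10 40 (-20) (-20) 20, v8 (-50) (-10) (-10) (-10) (-10) (-10) 50 10,
    v8 30 30 (-30) (-30) 30 30 30 30], [v8 0 0 60 0 90 (-30) (-30) 30,
    v8 20 (-20) 40 (-20) 10 10 10 (-10), v8 (-20) 20 20 (-10) 5 5 5 (-5),
    v8 0 0 (-60) (-30) 15 15 75 45], [v8 (-30) 30 90 (-30) 60 0 0 0, v8 10 (-10) 10 10 40 (-20) (-20) 20,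
    v8 20 (-20) 20 (-10) 5 5 5 (-5), v8 0 0 (-60) (-30) 15 15 75 45], [v8 0 0 60 (-60) 0 0 0 0,
    v8 (-40) 0 0 0 60 (-20) 0 0, v8 25 (-15) 0 0 0 (-10) (-15) 15, v8 15 15 0 0 60 30 75 45],
    [v8 0 0 60 (-60) 0 0 0 0, v8 40 0 0 0 60 (-20) 0 0, v8 (-40) 0 0 0 60 20 0 0, v8 0 0 0 0 0 0 60 60],
    [v8 (-30) 30 90 (-30) 60 0 0 0, v8 30 (-30) 30 (-10) 20 0 0 0, v8 0 0 (-60) (-20) 40 0 0 0,
    v8 0 0 0 0 0 0 60 60], [v8 30 (-30) 90 (-30) 60 0 0 0, v8 (-50) 10 (-10) (-10) 40 (-20) 0 0,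
    v8 (-10) (-10) 10 10 (-10) (-10) 30 30, v8 30 30 (-30) (-30) 30 30 30 30],
    [v8 (-60) 0 30 (-30) 90 (-30) 0 0, v8 40 (-20) 50 (-10) 10 10 0 0, v8 20 20 (-20) (-20) 20 20 0 0,
    v8 0 0 0 0 0 0 60 60], [v8 (-60) 0 30 (-30) 90 (-30) 0 0, v8 20 0 30 (-30) (-30) 10 0 0,
    v8 25 (-15) 0 0 0 (-10) (-15) 15, v8 15 15 0 0 60 30 75 45], [v8 30 (-30) 90 (-30) 60 0 0 0,
    v8 (-10) 10 10 10 40 (-20) (-20) 20, v8 (-20) 20 20 (-10) 5 5 5 (-5),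
    v8 0 0 (-60) (-30) 15 15 75 45], [v8 (-30) 30 90 (-30) 60 0 0 0, v8 30 (-30) 30 (-10) 20 0 0 0,
    v8 0 0 0 10 25 (-15) (-15) 15, v8 0 0 (-60) (-30) 15 15 75 45], [v8 0 0 60 (-60) 0 0 0 0,
    v8 (-40) 0 0 0 60 (-20) 0 0, v8 40 0 0 0 60 20 0 0, v8 0 0 0 0 0 0 60 60],
    [v8 30 (-30) 90 (-30) 60 0 0 0, v8 (-30) 30 30 (-10) 20 0 0 0, v8 0 0 (-60) (-20) 40 0 0 0,
    v8 0 0 0 0 0 0 60 60], [v8 30 (-30) 90 (-30) 60 0 0 0, v8 (-50) 10 (-10) (-10) 40 (-20) 0 0,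
    v8 20 20 (-20) (-20) 20 20 0 0, v8 0 0 0 0 0 0 60 60], [v8 (-60) 0 30 (-30) 90 (-30) 0 0,
    v8 20 0 30 (-30) (-30) 10 0 0, v8 40 0 0 0 60 20 0 0, v8 0 0 0 0 0 0 60 60],
    [v8 30 (-30) 90 (-30) 60 0 0 0, v8 (-30) 30 30 (-10) 20 0 0 0, v8 0 0 0 10 25 (-15) (-15) 15,
    v8 0 0 (-60) (-30) 15 15 75 45]]

def sm0 : V4 := v8 1 0 1 0 0 0 0 0

def sB : List ((ℕ × ℕ) × V4) :=
  [((27, 20), v8 1 0 (-1) 0 0 0 0 0), ((44, 33), v8 1 0 0 0 (-1) 0 0 0), ((28, 6), v8 0 0 0 0 1 0 (-1) 0)]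

def sD : List (ℕ × ℕ) :=
  [(20,27), (29,38), (39,47), (48,55), (55,48), (47,39), (38,29), (50,42), (57,51), (56,58), (59,52),
    (53,43), (34,9), (24,16), (16,24), (9,34), (6,28), (12,19), (19,12), (33,44), (42,50), (51,57),
    (58,56), (52,59), (43,53), (35,10), (25,17), (18,11), (26,5), (37,1), (45,4), (10,35), (17,25),
    (11,18), (5,26), (1,37), (4,45), (13,7), (7,13), (2,21), (0,15), (3,8), (8,3), (15,0), (21,2),
    (32,54), (23,46), (14,36), (22,30), (31,40), (41,49), (54,32), (46,23), (36,14), (30,22), (40,31),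
    (49,41)]

def sD' : List ℕ :=
  [1, 4, 9, 6, 2, 7, 12, 19, 27, 20, 13, 21, 29, 39, 32, 23, 15, 8, 14, 22, 30, 36, 26, 18, 11, 5, 3,
    17, 25, 35, 44, 50, 42, 33, 24, 16, 10, 34, 43, 52, 47, 38, 28, 55, 58, 51, 57, 56, 49, 40, 31, 41,
    48, 54, 59, 53, 45, 37, 46]

def gE : List (List V4) :=
  [[v8 0 0 60 0 90 (-30) (-30) 30, v8 60 (-20) 20 0 (-10) (-10) 10 (-10),
    v8 15 5 25 (-15) (-20) 10 (-10) 10, v8 45 15 15 15 60 30 (-90) (-30)],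
    [v8 90 (-30) 60 0 30 (-30) 0 0, v8 (-30) 10 20 0 50 (-10) (-20) 20,
    v8 15 5 25 (-15) (-20) 10 (-10) 10, v8 45 15 15 15 60 30 (-90) (-30)],
    [v8 0 0 60 0 90 (-30) (-30) 30, v8 40 0 40 (-20) (-30) 10 (-10) 10, v8 35 (-15) 5 5 0 (-10) 10 (-10),
    v8 45 15 15 15 60 30 (-90) (-30)], [v8 0 0 60 0 90 (-30) (-30) 30,
    v8 60 (-20) 20 0 (-10) (-10) 10 (-10), v8 0 (-10) 10 0 (-20) 10 (-40) 10,
    v8 60 30 30 0 60 30 (-60) (-30)], [v8 90 (-30) 60 0 30 (-30) 0 0,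
    v8 10 10 40 (-20) (-10) 10 (-20) 20, v8 (-25) 5 5 5 40 (-10) (-10) 10,
    v8 45 15 15 15 60 30 (-90) (-30)], [v8 90 (-30) 60 0 30 (-30) 0 0,
    v8 (-30) 10 20 0 50 (-10) (-20) 20, v8 0 (-10) 10 0 (-20) 10 (-40) 10,
    v8 60 30 30 0 60 30 (-60) (-30)], [v8 60 0 90 (-30) 0 0 (-30) 30, v8 (-20) 0 10 10 60 (-20) (-10) 10,
    v8 35 (-15) 5 5 0 (-10) 10 (-10), v8 45 15 15 15 60 30 (-90) (-30)], [v8 0 0 60 0 90 (-30) (-30) 30,
    v8 40 0 40 (-20) (-30) 10 (-10) 10, v8 35 (-15) (-25) 5 15 5 (-5) 5,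
    v8 45 15 45 15 45 15 (-75) (-45)], [v8 0 0 60 0 90 (-30) (-30) 30,
    v8 20 (-20) 20 0 (-30) 10 (-50) 10, v8 40 (-10) 10 0 0 (-10) 20 (-10),
    v8 60 30 30 0 60 30 (-60) (-30)], [v8 60 0 90 (-30) 0 0 (-30) 30,
    v8 40 (-20) 10 10 20 (-20) 10 (-10), v8 (-25) 5 5 5 40 (-10) (-10) 10,
    v8 45 15 15 15 60 30 (-90) (-30)], [v8 90 (-30) 60 0 30 (-30) 0 0,
    v8 10 10 40 (-20) (-10) 10 (-20) 20, v8 5 5 (-25) 5 10 (-10) (-40) 10,
    v8 15 15 45 15 90 30 (-60) (-30)], [v8 90 (-30) 60 0 30 (-30) 0 0,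
    v8 (-10) (-10) 20 0 (-10) 10 (-60) 20, v8 (-20) 10 10 0 40 (-10) 0 10,
    v8 60 30 30 0 60 30 (-60) (-30)], [v8 60 0 90 (-30) 0 0 (-30) 30, v8 (-20) 0 10 10 60 (-20) (-10) 10,
    v8 35 (-15) (-25) 5 15 5 (-5) 5, v8 45 15 45 15 45 15 (-75) (-45)], [v8 0 0 60 0 90 (-30) (-30) 30,
    v8 60 (-20) (-20) 0 10 10 (-10) 10, v8 15 5 35 (-15) (-25) 5 (-5) 5,
    v8 45 15 45 15 45 15 (-75) (-45)], [v8 30 (-30) 60 0 0 0 (-90) 30, v8 (-10) 10 20 0 60 (-20) 10 10,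
    v8 40 (-10) 10 0 0 (-10) 20 (-10), v8 60 30 30 0 60 30 (-60) (-30)], [v8 0 0 60 0 90 (-30) (-30) 30,
    v8 20 (-20) 20 0 (-30) 10 (-50) 10, v8 10 (-10) 25 (-15) 15 5 20 (-10),
    v8 90 30 15 15 45 15 (-60) (-30)], [v8 60 0 90 (-30) 0 0 (-30) 30,
    v8 40 (-20) 10 10 20 (-20) 10 (-10), v8 5 5 (-25) 5 10 (-10) (-40) 10,
    v8 15 15 45 15 90 30 (-60) (-30)], [v8 90 (-30) 60 0 30 (-30) 0 0,
    v8 10 10 (-20) 0 10 (-10) (-60) 20, v8 5 5 35 (-15) (-10) 10 0 10, v8 15 15 45 15 90 30 (-60) (-30)],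
    [v8 30 (-30) 60 0 0 0 (-90) 30, v8 50 (-10) 20 0 20 (-20) 30 (-10), v8 (-20) 10 10 0 40 (-10) 0 10,
    v8 60 30 30 0 60 30 (-60) (-30)], [v8 90 (-30) 60 0 30 (-30) 0 0,
    v8 (-10) (-10) 20 0 (-10) 10 (-60) 20, v8 (-20) 10 25 (-15) 10 (-10) (-15) (-5),
    v8 60 30 15 15 90 30 (-45) (-15)], [v8 60 0 90 (-30) 0 0 (-30) 30,
    v8 40 (-20) (-30) 10 40 0 (-10) 10, v8 (-25) 5 15 5 35 (-15) (-5) 5,
    v8 45 15 45 15 45 15 (-75) (-45)], [v8 90 (-30) 0 0 60 0 (-30) 30,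
    v8 (-30) 10 40 0 40 (-20) (-10) 10, v8 15 5 35 (-15) (-25) 5 (-5) 5,
    v8 45 15 45 15 45 15 (-75) (-45)], [v8 0 0 60 0 90 (-30) (-30) 30,
    v8 60 (-20) (-20) 0 10 10 (-10) 10, v8 0 (-10) 35 (-15) 5 5 10 (-10),
    v8 60 30 45 15 15 15 (-90) (-30)], [v8 30 (-30) 60 0 0 0 (-90) 30, v8 (-10) 10 20 0 60 (-20) 10 10,
    v8 10 (-10) 25 (-15) 15 5 20 (-10), v8 90 30 15 15 45 15 (-60) (-30)],
    [v8 0 0 60 0 90 (-30) (-30) 30, v8 20 (-20) 40 (-20) 10 10 10 (-10),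
    v8 10 (-10) 5 5 (-25) 5 (-40) 10, v8 90 30 15 15 45 15 (-60) (-30)], [v8 60 0 90 (-30) 0 0 (-30) 30,
    v8 20 0 (-30) 10 20 (-20) (-50) 10, v8 25 (-15) 15 5 10 (-10) 20 (-10),
    v8 15 15 45 15 90 30 (-60) (-30)], [v8 60 0 0 0 30 (-30) (-90) 30,
    v8 40 (-20) 40 0 10 (-10) 30 (-10), v8 5 5 35 (-15) (-10) 10 0 10, v8 15 15 45 15 90 30 (-60) (-30)],
    [v8 90 (-30) 60 0 30 (-30) 0 0, v8 10 10 (-20) 0 10 (-10) (-60) 20,
    v8 (-25) 5 35 (-15) 5 (-5) (-15) (-5), v8 45 15 45 15 75 45 (-45) (-15)],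
    [v8 30 (-30) 60 0 0 0 (-90) 30, v8 50 (-10) 20 0 20 (-20) 30 (-10),
    v8 (-20) 10 25 (-15) 10 (-10) (-15) (-5), v8 60 30 15 15 90 30 (-45) (-15)],
    [v8 90 (-30) 60 0 30 (-30) 0 0, v8 (-30) 10 40 (-20) 10 (-10) (-40) 0,
    v8 0 (-10) 5 5 (-10) 10 (-35) 15, v8 60 30 15 15 90 30 (-45) (-15)], [v8 90 (-30) 0 0 60 0 (-30) 30,
    v8 10 10 60 (-20) (-20) 0 (-10) 10, v8 (-25) 5 15 5 35 (-15) (-5) 5,
    v8 45 15 45 15 45 15 (-75) (-45)], [v8 60 0 90 (-30) 0 0 (-30) 30,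
    v8 40 (-20) (-30) 10 40 0 (-10) 10, v8 5 5 0 (-10) 35 (-15) 10 (-10),
    v8 15 15 60 30 45 15 (-90) (-30)], [v8 90 (-30) 0 0 60 0 (-30) 30,
    v8 (-30) 10 40 0 40 (-20) (-10) 10, v8 0 (-10) 35 (-15) 5 5 10 (-10),
    v8 60 30 45 15 15 15 (-90) (-30)], [v8 0 0 60 0 90 (-30) (-30) 30,
    v8 20 (-20) 40 (-20) 10 10 10 (-10), v8 40 (-10) (-25) 5 5 5 (-10) 10,
    v8 60 30 45 15 15 15 (-90) (-30)], [v8 30 (-30) 60 0 0 0 (-90) 30,
    v8 10 (-10) 40 (-20) 40 0 30 (-10), v8 (-10) 10 5 5 35 (-15) 0 10, v8 90 30 15 15 45 15 (-60) (-30)],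
    [v8 30 (-30) 90 (-30) 60 0 0 0, v8 (-10) 10 10 10 40 (-20) (-20) 20,
    v8 10 (-10) 5 5 (-25) 5 (-40) 10, v8 90 30 15 15 45 15 (-60) (-30)], [v8 60 0 0 0 30 (-30) (-90) 30,
    v8 20 0 60 (-20) (-10) 10 10 10, v8 25 (-15) 15 5 10 (-10) 20 (-10),
    v8 15 15 45 15 90 30 (-60) (-30)], [v8 60 0 90 (-30) 0 0 (-30) 30,
    v8 20 0 (-30) 10 20 (-20) (-50) 10, v8 10 0 0 (-10) 40 (-10) 20 (-10),
    v8 30 0 60 30 60 30 (-60) (-30)], [v8 60 0 0 0 30 (-30) (-90) 30, v8 40 (-20) 40 0 10 (-10) 30 (-10),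
    v8 (-25) 5 35 (-15) 5 (-5) (-15) (-5), v8 45 15 45 15 75 45 (-45) (-15)],
    [v8 90 (-30) 60 0 30 (-30) 0 0, v8 (-30) 10 40 (-20) 10 (-10) (-40) 0,
    v8 15 5 (-25) 5 5 (-5) (-35) 15, v8 45 15 45 15 75 45 (-45) (-15)], [v8 30 (-30) 60 0 0 0 (-90) 30,
    v8 (-10) 10 40 (-20) 20 (-20) (-10) (-10), v8 40 (-10) 5 5 10 (-10) 25 (-5),
    v8 60 30 15 15 90 30 (-45) (-15)], [v8 0 0 90 (-30) 30 (-30) (-60) 0,
    v8 60 (-20) 10 10 10 (-10) 20 0, v8 0 (-10) 5 5 (-10) 10 (-35) 15, v8 60 30 15 15 90 30 (-45) (-15)],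
    [v8 90 (-30) 0 0 60 0 (-30) 30, v8 10 10 60 (-20) (-20) 0 (-10) 10, v8 5 5 0 (-10) 35 (-15) 10 (-10),
    v8 15 15 60 30 45 15 (-90) (-30)], [v8 60 0 90 (-30) 0 0 (-30) 30,
    v8 20 0 (-10) (-10) 60 (-20) 10 (-10), v8 25 (-15) (-20) 10 15 5 (-10) 10,
    v8 15 15 60 30 45 15 (-90) (-30)], [v8 90 (-30) 0 0 60 0 (-30) 30,
    v8 (-10) (-10) 60 (-20) 20 0 10 (-10), v8 (-20) 10 15 5 25 (-15) (-10) 10,
    v8 60 30 45 15 15 15 (-90) (-30)], [v8 30 (-30) 90 (-30) 60 0 0 0,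
    v8 (-10) 10 10 10 40 (-20) (-20) 20, v8 40 (-10) (-25) 5 5 5 (-10) 10,
    v8 60 30 45 15 15 15 (-90) (-30)], [v8 30 (-30) 90 (-30) 60 0 0 0,
    v8 10 (-10) 10 10 (-20) 0 (-60) 20, v8 (-10) 10 5 5 35 (-15) 0 10, v8 90 30 15 15 45 15 (-60) (-30)],
    [v8 30 (-30) 60 0 0 0 (-90) 30, v8 10 (-10) 40 (-20) 40 0 30 (-10),
    v8 (-10) 10 (-10) (-10) 20 0 (-60) (-20), v8 90 30 30 30 60 0 0 0], [v8 60 0 0 0 30 (-30) (-90) 30,
    v8 20 0 60 (-20) (-10) 10 10 10, v8 10 0 0 (-10) 40 (-10) 20 (-10), v8 30 0 60 30 60 30 (-60) (-30)],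
    [v8 60 0 90 (-30) 0 0 (-30) 30, v8 20 0 (-10) (-10) 60 (-20) 10 (-10),
    v8 10 0 (-20) 10 0 (-10) (-40) 10, v8 30 0 60 30 60 30 (-60) (-30)], [v8 60 0 0 0 30 (-30) (-90) 30,
    v8 (-20) 0 60 (-20) 10 (-10) (-10) (-10), v8 35 (-15) 15 5 5 (-5) 25 (-5),
    v8 45 15 45 15 75 45 (-45) (-15)], [v8 0 0 90 (-30) 30 (-30) (-60) 0,
    v8 60 (-20) 10 10 10 (-10) 20 0, v8 15 5 (-25) 5 5 (-5) (-35) 15, v8 45 15 45 15 75 45 (-45) (-15)],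
    [v8 0 0 90 (-30) 30 (-30) (-60) 0, v8 20 (-20) 10 10 (-10) 10 (-40) 20,
    v8 40 (-10) 5 5 10 (-10) 25 (-5), v8 60 30 15 15 90 30 (-45) (-15)], [v8 30 (-30) 60 0 0 0 (-90) 30,
    v8 (-10) 10 40 (-20) 20 (-20) (-10) (-10), v8 10 (-10) (-10) (-10) 40 20 (-20) (-20),
    v8 90 30 30 30 60 0 0 0], [v8 90 (-30) 0 0 60 0 (-30) 30, v8 10 10 20 (-20) 40 (-20) 10 (-10),
    v8 5 5 40 (-10) (-25) 5 (-10) 10, v8 15 15 60 30 45 15 (-90) (-30)], [v8 60 0 30 (-30) 90 (-30) 0 0,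
    v8 20 0 50 (-10) (-30) 10 (-20) 20, v8 25 (-15) (-20) 10 15 5 (-10) 10,
    v8 15 15 60 30 45 15 (-90) (-30)], [v8 30 (-30) 90 (-30) 60 0 0 0,
    v8 50 (-10) (-30) 10 20 0 (-20) 20, v8 (-20) 10 15 5 25 (-15) (-10) 10,
    v8 60 30 45 15 15 15 (-90) (-30)], [v8 90 (-30) 0 0 60 0 (-30) 30,
    v8 (-10) (-10) 60 (-20) 20 0 10 (-10), v8 (-20) 10 0 (-10) 10 0 (-40) 10,
    v8 60 30 60 30 30 0 (-60) (-30)], [v8 30 (-30) 90 (-30) 60 0 0 0, v8 10 (-10) 10 10 (-20) 0 (-60) 20,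
    v8 (-10) 10 (-10) (-10) 20 0 (-60) (-20), v8 90 30 30 30 60 0 0 0], [v8 60 0 0 0 30 (-30) (-90) 30,
    v8 20 0 20 (-20) 50 (-10) 30 (-10), v8 10 0 40 (-10) (-20) 10 0 10, v8 30 0 60 30 60 30 (-60) (-30)],
    [v8 60 0 30 (-30) 90 (-30) 0 0, v8 20 0 50 (-10) (-30) 10 (-20) 20,
    v8 10 0 (-20) 10 0 (-10) (-40) 10, v8 30 0 60 30 60 30 (-60) (-30)],
    [v8 0 0 90 (-30) 30 (-30) (-60) 0, v8 40 0 (-30) 10 10 (-10) (-40) 20,
    v8 35 (-15) 15 5 5 (-5) 25 (-5), v8 45 15 45 15 75 45 (-45) (-15)], [v8 60 0 0 0 30 (-30) (-90) 30,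
    v8 (-20) 0 60 (-20) 10 (-10) (-10) (-10), v8 20 0 (-30) (-10) 50 10 (-20) (-20),
    v8 60 0 90 30 30 30 0 0], [v8 0 0 90 (-30) 30 (-30) (-60) 0, v8 20 (-20) 10 10 (-10) 10 (-40) 20,
    v8 10 (-10) (-10) (-10) 40 20 (-20) (-20), v8 90 30 30 30 60 0 0 0], [v8 60 0 30 (-30) 90 (-30) 0 0,
    v8 40 (-20) (-10) 10 10 10 (-20) 20, v8 5 5 40 (-10) (-25) 5 (-10) 10,
    v8 15 15 60 30 45 15 (-90) (-30)], [v8 90 (-30) 0 0 60 0 (-30) 30,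
    v8 10 10 20 (-20) 40 (-20) 10 (-10), v8 (-25) 5 10 (-10) 5 5 (-40) 10,
    v8 45 15 90 30 15 15 (-60) (-30)], [v8 30 (-30) 90 (-30) 60 0 0 0,
    v8 50 (-10) (-30) 10 20 0 (-20) 20, v8 (-20) 10 0 (-10) 10 0 (-40) 10,
    v8 60 30 60 30 30 0 (-60) (-30)], [v8 90 (-30) 0 0 60 0 (-30) 30, v8 (-30) 10 20 (-20) 20 0 (-50) 10,
    v8 0 (-10) 40 (-10) 10 0 20 (-10), v8 60 30 60 30 30 0 (-60) (-30)], [v8 30 (-30) 90 (-30) 60 0 0 0,
    v8 (-10) 10 (-10) (-10) 20 0 (-60) 20, v8 10 (-10) 10 10 (-20) 0 (-60) (-20),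
    v8 90 30 30 30 60 0 0 0], [v8 60 0 30 (-30) 90 (-30) 0 0, v8 20 0 (-10) 10 (-10) (-10) (-60) 20,
    v8 10 0 40 (-10) (-20) 10 0 10, v8 30 0 60 30 60 30 (-60) (-30)], [v8 60 0 0 0 30 (-30) (-90) 30,
    v8 20 0 20 (-20) 50 (-10) 30 (-10), v8 (-20) 0 10 (-10) 10 10 (-60) (-20), v8 60 0 90 30 30 30 0 0],
    [v8 0 0 90 (-30) 30 (-30) (-60) 0, v8 40 0 (-30) 10 10 (-10) (-40) 20,
    v8 20 0 (-30) (-10) 50 10 (-20) (-20), v8 60 0 90 30 30 30 0 0], [v8 0 0 90 (-30) 30 (-30) (-60) 0,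
    v8 0 0 (-30) (-6) 30 18 (-60) 0, v8 30 (-30) 30 6 0 12 0 0, v8 90 30 30 30 60 0 0 0],
    [v8 60 0 30 (-30) 90 (-30) 0 0, v8 40 (-20) (-10) 10 10 10 (-20) 20,
    v8 (-25) 5 10 (-10) 5 5 (-40) 10, v8 45 15 90 30 15 15 (-60) (-30)], [v8 90 (-30) 0 0 60 0 (-30) 30,
    v8 (-30) 10 20 (-20) 20 0 (-50) 10, v8 15 5 10 (-10) 25 (-15) 20 (-10),
    v8 45 15 90 30 15 15 (-60) (-30)], [v8 30 (-30) 90 (-30) 60 0 0 0,
    v8 (-10) 10 (-10) (-10) 20 0 (-60) 20, v8 40 (-10) (-20) 10 10 0 0 10,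
    v8 60 30 60 30 30 0 (-60) (-30)], [v8 0 0 30 (-30) 60 0 (-90) 30, v8 60 (-20) (-10) 10 20 0 10 10,
    v8 0 (-10) 40 (-10) 10 0 20 (-10), v8 60 30 60 30 30 0 (-60) (-30)], [v8 0 0 30 (-30) 60 0 (-90) 30,
    v8 20 (-20) 50 (-10) 20 0 30 (-10), v8 10 (-10) 10 10 (-20) 0 (-60) (-20), v8 90 30 30 30 60 0 0 0],
    [v8 60 0 30 (-30) 90 (-30) 0 0, v8 20 0 (-10) 10 (-10) (-10) (-60) 20,
    v8 (-20) 0 10 (-10) 10 10 (-60) (-20), v8 60 0 90 30 30 30 0 0], [v8 0 0 90 (-30) 30 (-30) (-60) 0,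
    v8 0 0 (-30) (-6) 30 18 (-60) 0, v8 60 0 (-30) 6 30 (-18) 0 0, v8 60 0 90 30 30 30 0 0],
    [v8 0 0 30 (-30) 60 0 (-90) 30, v8 0 0 30 (-6) 0 (-12) (-30) (-30), v8 30 (-30) 30 6 0 12 0 0,
    v8 90 30 30 30 60 0 0 0], [v8 60 0 30 (-30) 90 (-30) 0 0, v8 (-20) 0 10 (-10) 10 10 (-60) 20,
    v8 35 (-15) (-10) 10 5 5 0 10, v8 45 15 90 30 15 15 (-60) (-30)], [v8 0 0 30 (-30) 60 0 (-90) 30,
    v8 60 (-20) (-10) 10 20 0 10 10, v8 15 5 10 (-10) 25 (-15) 20 (-10),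
    v8 45 15 90 30 15 15 (-60) (-30)], [v8 0 0 30 (-30) 60 0 (-90) 30,
    v8 20 (-20) 50 (-10) 20 0 30 (-10), v8 40 (-10) (-20) 10 10 0 0 10, v8 60 30 60 30 30 0 (-60) (-30)],
    [v8 60 0 30 (-30) 90 (-30) 0 0, v8 (-20) 0 10 (-10) 10 10 (-60) 20,
    v8 20 0 (-10) 10 (-10) (-10) (-60) (-20), v8 60 0 90 30 30 30 0 0], [v8 0 0 30 (-30) 60 0 (-90) 30,
    v8 0 0 30 (-6) 0 (-12) (-30) (-30), v8 60 0 (-30) 6 30 (-18) 0 0, v8 60 0 90 30 30 30 0 0],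
    [v8 0 0 30 (-30) 60 0 (-90) 30, v8 40 0 10 (-10) 40 (-20) 30 (-10), v8 35 (-15) (-10) 10 5 5 0 10,
    v8 45 15 90 30 15 15 (-60) (-30)], [v8 0 0 30 (-30) 60 0 (-90) 30,
    v8 40 0 10 (-10) 40 (-20) 30 (-10), v8 20 0 (-10) 10 (-10) (-10) (-60) (-20),
    v8 60 0 90 30 30 30 0 0]]

def gB : List ((ℕ × ℕ) × M4) :=
  [((0, 19), (v8 0 0 0 0 0 0 (-4) 0, v8 (-2) 0 1 (-1) 1 1 0 0, v8 1 1 (-2) 0 (-1) 1 0 0, v8 1 (-1) (-1) (-1) (-2) 0 0 0)),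
   ((0, 57), (v8 0 0 1 (-1) 2 0 (-1) (-1), v8 (-2) 0 2 0 (-2) 0 (-2) 0, v8 1 1 0 0 (-2) 0 1 (-1), v8 1 (-1) (-1) (-1) (-2) 0 0 0))]

def gD : List (ℕ × ℕ) :=
  [(2,29), (7,39), (13,27), (22,17), (33,10), (24,4), (15,1), (8,5), (3,11), (19,0), (29,2), (39,7),
    (27,13), (17,22), (10,33), (4,24), (1,15), (5,8), (11,3), (57,0), (67,2), (74,7), (65,13), (54,22),
    (42,33), (30,24), (21,15), (32,8), (44,3), (23,28), (34,40), (47,53), (53,47), (40,34), (28,23),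
    (18,14), (14,18), (38,23), (50,34), (62,47), (70,53), (59,40), (48,28), (36,18), (26,14), (66,23),
    (75,34), (68,47), (58,53), (46,40), (35,28), (45,18), (56,14), (16,11), (25,5), (37,1), (49,4),
    (43,10), (31,17), (20,27), (12,39), (6,29), (9,19), (41,41), (52,52), (63,63), (72,72), (79,79),
    (71,71), (61,61), (51,51), (76,41), (83,52), (77,63), (80,72), (85,79), (87,71), (86,61), (82,51),
    (73,23), (81,34), (84,47), (78,53), (69,40), (60,28), (55,18), (64,14)]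

def gD' : List ℕ :=
  [1, 4, 9, 6, 2, 7, 12, 20, 30, 21, 13, 22, 32, 44, 56, 45, 33, 24, 35, 46, 34, 23, 15, 8, 14, 18, 11,
    5, 3, 19, 28, 40, 52, 41, 29, 39, 51, 61, 50, 38, 27, 17, 26, 36, 25, 16, 10, 37, 48, 59, 69, 60, 49,
    43, 55, 64, 54, 42, 31, 65, 73, 81, 86, 82, 74, 67, 76, 83, 75, 66, 57, 68, 77, 80, 72, 63, 53, 47,
    58, 79, 85, 87, 84, 78, 70, 62, 71]

def gv : V4 := v8 (-2) 0 (-2) 0 (-2) 0 2 0

def gT : List V4 :=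
  [v8 (-2) 0 0 0 1 (-1) 1 1, v8 (-1) (-1) 0 0 (-2) 0 (-1) 1, v8 1 (-1) 0 0 (-1) (-1) 2 0,
    v8 (-2) 0 2 0 (-2) 0 2 0, v8 (-1) (-1) (-1) 1 0 0 2 0, v8 (-2) 0 1 (-1) (-1) (-1) 0 0,
    v8 (-1) (-1) 2 0 1 (-1) 0 0, v8 (-2) 0 (-1) 1 (-1) (-1) 0 0, v8 0 0 1 (-1) (-2) 0 1 1,
    v8 1 (-1) 2 0 0 0 1 1, v8 0 0 0 0 (-4) 0 0 0, v8 1 (-1) 1 1 (-2) 0 0 0,
    v8 0 0 (-2) 0 (-1) (-1) (-1) 1, v8 (-2) 0 1 1 0 0 (-1) 1, v8 (-1) (-1) 1 (-1) 0 0 2 0,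
    v8 (-1) (-1) 0 0 (-2) 0 1 (-1), v8 0 0 (-1) (-1) 1 (-1) 2 0, v8 (-2) 0 2 0 2 0 2 0,
    v8 0 0 (-2) 0 (-1) (-1) 1 (-1), v8 (-2) 0 1 1 0 0 1 (-1), v8 1 (-1) (-2) 0 0 0 1 1,
    v8 (-2) 0 0 0 (-1) 1 1 1, v8 1 (-1) 0 0 (-1) (-1) (-2) 0, v8 (-2) 0 2 0 (-2) 0 (-2) 0,
    v8 (-1) 1 0 0 (-1) (-1) 2 0, v8 0 0 1 1 1 (-1) 2 0, v8 (-1) 1 (-2) 0 0 0 1 1, v8 0 0 (-1) 1 2 0 1 1,
    v8 (-1) 1 0 0 (-1) (-1) (-2) 0, v8 0 0 1 1 1 (-1) (-2) 0, v8 2 0 (-2) 0 (-2) 0 2 0,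
    v8 0 0 1 1 (-1) 1 2 0, v8 2 0 1 (-1) (-1) (-1) 0 0, v8 0 0 4 0 0 0 0 0,
    v8 (-2) 0 (-1) (-1) 0 0 (-1) 1, v8 (-1) (-1) 0 0 2 0 (-1) 1, v8 (-2) 0 (-2) 0 (-2) 0 (-2) 0,
    v8 (-1) (-1) (-1) 1 0 0 (-2) 0, v8 2 0 (-1) (-1) 0 0 (-1) 1, v8 0 0 2 0 1 1 (-1) 1,
    v8 2 0 (-2) 0 (-2) 0 (-2) 0, v8 0 0 1 1 (-1) 1 (-2) 0, v8 (-2) 0 (-2) 0 2 0 2 0,
    v8 (-2) 0 0 0 1 (-1) (-1) (-1), v8 0 0 (-1) (-1) (-1) 1 2 0, v8 1 (-1) 0 0 1 1 2 0,
    v8 0 0 1 (-1) (-2) 0 (-1) (-1), v8 1 (-1) 2 0 0 0 (-1) (-1), v8 2 0 0 0 1 (-1) 1 1,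
    v8 (-1) 1 2 0 0 0 1 1, v8 2 0 (-1) 1 (-1) (-1) 0 0, v8 (-1) 1 1 1 (-2) 0 0 0, v8 2 0 (-2) 0 2 0 2 0,
    v8 (-1) 1 0 0 1 1 2 0, v8 2 0 0 0 1 (-1) (-1) (-1), v8 (-1) 1 2 0 0 0 (-1) (-1),
    v8 1 1 0 0 (-2) 0 (-1) 1, v8 2 0 1 1 0 0 (-1) 1, v8 1 1 1 (-1) 0 0 2 0, v8 2 0 2 0 2 0 2 0,
    v8 1 1 0 0 (-2) 0 1 (-1), v8 2 0 1 1 0 0 1 (-1), v8 (-1) (-1) (-2) 0 (-1) 1 0 0,
    v8 (-1) (-1) 1 (-1) 0 0 (-2) 0, v8 0 0 (-4) 0 0 0 0 0, v8 (-2) 0 (-1) 1 1 1 0 0,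
    v8 0 0 (-1) (-1) 1 (-1) (-2) 0, v8 (-2) 0 2 0 2 0 (-2) 0, v8 1 1 (-2) 0 (-1) 1 0 0,
    v8 2 0 (-1) 1 1 1 0 0, v8 1 1 1 (-1) 0 0 (-2) 0, v8 2 0 2 0 2 0 (-2) 0, v8 1 (-1) (-1) (-1) 2 0 0 0,
    v8 (-2) 0 1 (-1) 1 1 0 0, v8 1 (-1) (-2) 0 0 0 (-1) (-1), v8 (-2) 0 0 0 (-1) 1 (-1) (-1),
    v8 (-1) 1 (-1) (-1) 2 0 0 0, v8 0 0 0 0 4 0 0 0, v8 (-1) 1 (-2) 0 0 0 (-1) (-1),
    v8 0 0 (-1) 1 2 0 (-1) (-1), v8 2 0 2 0 (-2) 0 2 0, v8 2 0 0 0 (-1) 1 1 1, v8 2 0 2 0 (-2) 0 (-2) 0,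
    v8 2 0 1 (-1) 1 1 0 0, v8 2 0 0 0 (-1) 1 (-1) (-1), v8 1 1 (-1) 1 0 0 2 0, v8 1 1 2 0 1 (-1) 0 0,
    v8 1 1 0 0 2 0 (-1) 1, v8 1 1 (-1) 1 0 0 (-2) 0, v8 (-2) 0 (-1) (-1) 0 0 1 (-1),
    v8 (-1) (-1) 0 0 2 0 1 (-1), v8 2 0 (-1) (-1) 0 0 1 (-1), v8 0 0 2 0 1 1 1 (-1),
    v8 1 1 0 0 2 0 1 (-1), v8 (-2) 0 (-2) 0 2 0 (-2) 0, v8 0 0 (-1) (-1) (-1) 1 (-2) 0,
    v8 1 (-1) 0 0 1 1 (-2) 0, v8 2 0 (-2) 0 2 0 (-2) 0, v8 (-1) 1 0 0 1 1 (-2) 0]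

def gI : List (ℕ × ℕ) :=
  [(0,0), (0,0), (0,0), (1,1), (1,1), (0,1), (1,2), (0,2), (0,2), (1,3), (0,3), (1,4), (0,4), (1,5),
    (0,5), (0,5), (0,5), (1,6), (0,6), (1,7), (0,7), (1,8), (0,8), (1,9), (0,8), (1,9), (0,7), (1,8),
    (0,8), (1,9), (0,7), (1,8), (0,8), (1,9), (0,9), (1,10), (0,10), (1,11), (0,9), (1,10), (0,10),
    (1,11), (0,11), (0,11), (0,11), (1,12), (0,12), (1,13), (0,11), (1,12), (0,12), (1,13), (0,11),
    (1,12), (0,12), (1,13), (0,12), (1,13), (0,11), (1,12), (0,12), (1,13), (0,13), (0,13), (0,13),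
    (1,14), (0,14), (1,15), (0,13), (1,14), (0,14), (1,15), (0,15), (1,16), (0,16), (1,17), (0,15),
    (1,16), (0,16), (1,17), (0,16), (0,14), (0,14), (0,12), (0,12), (0,10), (0,10), (0,8), (0,8), (0,8),
    (1,9), (0,8), (1,9), (0,8), (0,8), (0,8), (1,9), (0,8), (1,9)]

def gP : List (List ℕ) :=
  [[1, 2, 99, 5, 7, 8, 10, 12, 14, 15, 16, 18, 20, 22, 3, 24, 21, 23, 26, 28, 4, 6, 30, 32, 34, 36, 35,
    37, 38, 40, 42, 43, 44, 46, 9, 11, 48, 50, 45, 47, 52, 54, 13, 56, 17, 19, 58, 60, 62, 63, 64, 66,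
    65, 67, 68, 70, 72, 74, 73, 75, 76, 78, 25, 80, 27, 29, 81, 82, 77, 79, 83, 84, 31, 33, 85, 86, 39,
    41, 87, 88, 89, 90, 91, 92, 93, 94, 95, 96, 97, 49, 51, 53, 55, 98, 57, 59, 61, 69, 71, 0],
   [1, 3, 4, 6, 7, 9, 11, 13, 14, 15, 17, 19, 21, 23, 2, 25, 20, 22, 27, 29, 99, 5, 31, 33, 35, 37, 34,
    36, 39, 41, 42, 43, 45, 47, 8, 10, 49, 51, 44, 46, 53, 55, 12, 57, 16, 18, 59, 61, 62, 63, 65, 67,
    64, 66, 69, 71, 73, 75, 72, 74, 77, 79, 24, 80, 26, 28, 81, 82, 76, 78, 83, 84, 30, 32, 85, 86, 38,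
    40, 87, 88, 90, 89, 92, 91, 93, 94, 96, 95, 98, 48, 50, 52, 54, 97, 56, 58, 60, 68, 70, 0]]

lemma s_frames : framesOk 60 sR (epOf sE) (xOf sM) ⟨3, 1⟩ 960 = true := by decide +kernel

lemma g_frames : framesOk 88 gR (epOf gE) (xOf gM) ⟨3, 1⟩ 960 = true := by decide +kernel

lemma s_gen : ∀ b ∈ sB, b.1.1 < 60 ∧ b.1.2 < 60 ∧ sC b.1.2 = sC (sZ b.1.1) ∧
    posb (dot b.2 b.2) = true ∧ ∀ i, i < 4 → sm (dot b.2 b.2) (rfz sm0 (flipz (epOf sE b.1.1) (i + 1))) =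
      sm (dot sm0 sm0) (rfz b.2 (epOf sE b.1.2 (i + 1))) := by decide +kernel

lemma s_lk : lkRun 4 sR (fun k => sM 1 k == 3) (sB.map Prod.fst) sD = true := by decide +kernel

lemma s_all : ∀ k, k < 60 → ∃ q ∈ sD ++ sB.map Prod.fst, q.1 = k := by decide +kernel

lemma s_reach : reach 4 sR [0] sD' = true := by decide +kernel

lemma s_all' : ∀ k, k < 60 → k ∈ sD' ++ [0] := by decide +kernel

lemma s_m : ∀ k, k < 60 → sM 1 k = 3 ∨ sM 1 k = 5 := by decide +kernel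

lemma g_gen : ∀ b ∈ gB, b.1.1 < 88 ∧ b.1.2 < 88 ∧ gC b.1.2 = gC (gZ b.1.1) ∧
    (∀ i, i < 4 → app b.2 (epOf gE b.1.2 (i + 1)) = sm 4 (flipz (epOf gE b.1.1) (i + 1))) ∧
    ∃ I ∈ gP, permOk b.2 (gT ++ [gv]) (gT ++ [gv]) I = true := by decide +kernel

lemma g_lk : lkRun 4 gR (fun k => gM 1 k == 3) (gB.map Prod.fst) gD = true := by decide +kernel

lemma g_all : ∀ k, k < 88 → ∃ q ∈ gD ++ gB.map Prod.fst, q.1 = k := by decide +kernel

lemma g_reach : reach 4 gR [0] gD' = true := by decide +kernel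

lemma g_all' : ∀ k, k < 88 → k ∈ gD' ++ [0] := by decide +kernel

lemma g_m : ∀ k, k < 88 → gM 1 k = 3 ∨ gM 1 k = 5 := by decide +kernel

lemma g_v : sm (-60) gv = ad (ad (ad (epOf gE 0 1) (epOf gE 0 2)) (epOf gE 0 3)) (epOf gE 0 4) := by
  decide +kernel

lemma g_tree : treeOk (gB.map Prod.snd) [gv] gT gI = true := by decide +kernel

lemma g_in : ∀ y ∈ gT ++ [gv], c600 (cd y) ∧ ¬ cut (cd y) := by
  unfold c600 cut pm
  decide +kernel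

lemma g_out {c : Fin 4 → Z5} (h : c600 c) (hc : ¬ cut c) : tup c ∈ gT ++ [gv] := by
  refine code_mem _ ?_ ?_ ?_ h hc
  · unfold cut
    decide +kernel
  · decide +kernel
  · unfold cut
    decide +kernel

end Pool.Agent.MP_7fd204_co

end

-- part MP_7fd204_co.GeoF
section

/-! The two bases of an antiprism are parallel. -/

namespace Pool.Agent.MP_7fd204_co

open Classical

noncomputable section

variable {V : Finset E5} {a : ℝ}

/-- `g` maps `Φ` to `Ψ` and the two flags are combinatorially equivalent -/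
def an_Mp (a : ℝ) (g : E5 ≃ₗᵢ[ℝ] E5) (Φ Ψ : Flag V) : Prop :=
  Maps a 3 g Φ Ψ ∧ UP.Eqv fr fm 3 Φ Ψ

lemma an_step (hU : Uni V a) (hN : rk V = 3 + 1) {g : E5 ≃ₗᵢ[ℝ] E5} {Φ Ψ : Flag V}
    (h : an_Mp a g Φ Ψ) {j : ℕ} (hj : j < 3) : an_Mp a g (fr j Φ) (fr j Ψ) :=
  ⟨h.1.step hU hN hj, h.2.step hj⟩

lemma an_mul {g g' : E5 ≃ₗᵢ[ℝ] E5} {Θ Φ Ψ : Flag V} (h : an_Mp a g Φ Ψ) (h' : an_Mp a g' Θ Φ) :
    an_Mp a (g * g') Θ Ψ :=
  ⟨h.1.mul h'.1, fun w hw i i1 i2 => (h'.2 w hw i i1 i2).trans (h.2 w hw i i1 i2)⟩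

lemma an_ex (hU : Uni V a) (hN : rk V = 3 + 1) {Φ Ψ : Flag V} (h : UP.Eqv fr fm 3 Φ Ψ) :
    ∃ g, an_Mp a g Φ Ψ := by
  have hB : Beh a 3 Φ Ψ := beh_of_eqv rigid hU hN (by omega) h
  obtain ⟨g, -, g2⟩ := hU.exists_sym hN hB
  exact ⟨g, ⟨hB, g2⟩, h⟩

lemma an_fe {g : E5 ≃ₗᵢ[ℝ] E5} {Φ Ψ : Flag V} (h : an_Mp a g Φ Ψ) {i : ℕ} (h1 : 1 ≤ i)
    (h2 : i ≤ 3) : g (fe i Φ) = fe i Ψ := h.1.2 i h1 h2

lemma an_tri {Φ : Flag V} (h : fm 1 Φ = 3) : fr 0 (fr 1 (fr 0 Φ)) = fr 1 (fr 0 (fr 1 Φ)) := by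
  rw [tri_rel h, fr_fr]

lemma an_quad {Φ : Flag V} (h : fm 2 Φ = 4) :
    fr 2 (fr 1 (fr 2 (fr 1 Φ))) = fr 1 (fr 2 (fr 1 (fr 2 Φ))) := by
  have e : (UP.rot fr 2)^[4] Φ = Φ := by
    rw [← h]
    exact Function.iterate_minimalPeriod
  simp only [Function.iterate_succ_apply', Function.iterate_zero, id, UP.rot,
    show 2 - 1 = 1 from rfl] at e
  conv_rhs => rw [← e, fr_fr, fr_fr, fr_fr, fr_fr]

lemma an_ioc (φ : ℕ → E5) : ∑ i ∈ Finset.Ioc 0 3, φ i = φ 1 + φ 2 + φ 3 := by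
  rw [show Finset.Ioc 0 3 = {1, 2, 3} from rfl]
  simp [add_assoc]

lemma an_fe_mem (hN : rk V = 3 + 1) (Ψ : Flag V) {i : ℕ} (h1 : 1 ≤ i) (h2 : i ≤ 2) :
    fe i Ψ ∈ dr (Ψ.f 3) := by
  have e : fe i Ψ = (fc 0 Ψ - cen (Ψ.f i)) - (fc 0 Ψ - cen (Ψ.f (i + 1))) := by
    rw [fe]; abel
  rw [e]
  exact sub_mem (dr_mono (Ψ.le (by omega)) (sub_cen_mem_dr (fc_zero_mem Ψ (by omega) h1)))
    (dr_mono (Ψ.le (by omega)) (sub_cen_mem_dr (fc_zero_mem Ψ (by omega) (by omega))))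

lemma an_dr_le (hU : Uni V a) (hN : rk V = 3 + 1) {Ψ Ψ' : Flag V} {n : E5} {c c' : ℝ}
    (h : fe 3 Ψ = c • n) (h' : fe 3 Ψ' = c' • n) : dr (Ψ.f 3) ≤ dr (Ψ'.f 3) := by
  refine dr_le.2 fun x hx y hy => ?_
  have n0 := fe_ne Ψ (i := 3) (by omega) (by omega)
  have n0' := fe_ne Ψ' (i := 3) (by omega) (by omega)
  have c0 : c ≠ 0 := fun h0 => n0 (by rw [h, h0, zero_smul])
  have o := hU.fe_orth_sp Ψ (j := 3) (k := 3) le_rfl (hm_mem_sp hx) (hm_mem_sp hy)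
  rw [h, real_inner_smul_left] at o
  have o' : inner ℝ (fe 3 Ψ') (x - y) = 0 := by
    rw [h', real_inner_smul_left, (mul_eq_zero.1 o).resolve_left c0, mul_zero]
  obtain ⟨d, hd⟩ := frame_span' Ψ' (k := 3) hN.ge (y := x) (y' := y)
    (by rw [Ψ'.top hN.le]; exact hm_mem_sp ((Ψ.face 3).subset hx))
    (by rw [Ψ'.top hN.le]; exact hm_mem_sp ((Ψ.face 3).subset hy))
  rw [an_ioc] at hd
  rw [hd, inner_add_right, inner_add_right, real_inner_smul_right, real_inner_smul_right,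
    real_inner_smul_right, hU.fe_orth Ψ' (by omega) (by omega) (by omega) (by omega),
    hU.fe_orth Ψ' (by omega) (by omega) (by omega) (by omega)] at o'
  have d0 : d 3 = 0 := by
    simpa [n0'] using o'
  rw [hd, d0, zero_smul, add_zero]
  exact add_mem (Submodule.smul_mem _ _ (an_fe_mem hN Ψ' le_rfl (by omega)))
    (Submodule.smul_mem _ _ (an_fe_mem hN Ψ' (by omega) le_rfl))

/-- a frame vector fixed by the two symmetries of the base is normal to the base -/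
lemma an_line (hU : Uni V a) (hN : rk V = 3 + 1) {Φ Θ : Flag V} {s0 s1 : E5 ≃ₗᵢ[ℝ] E5}
    (h0 : an_Mp a s0 Φ (fr 0 Φ)) (h1 : an_Mp a s1 Φ (fr 1 Φ)) (k0 : s0 (fe 3 Θ) = fe 3 Θ)
    (k1 : s1 (fe 3 Θ) = fe 3 Θ) : ∃ c : ℝ, fe 3 Θ = c • fe 3 Φ := by
  have o1 : inner ℝ (fe 3 Θ) (fe 1 Φ) = 0 := by
    have := s0.inner_map_map (fe 3 Θ) (fe 1 Φ)
    rw [k0, an_fe h0 le_rfl (by omega), hU.fe_fr_zero Φ (by omega), inner_neg_right] at this
    linarith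
  have o2 : inner ℝ (fe 3 Θ) (fe 2 Φ) = 0 := by
    have := s1.inner_map_map (fe 3 Θ) (fe 1 Φ)
    have e := hU.fe_fr Φ (i := 0) (by omega)
    simp only [zero_add] at e
    rw [k1, an_fe h1 le_rfl (by omega), e, inner_add_right, real_inner_smul_right,
      real_inner_smul_right, o1, mul_zero, zero_add] at this
    refine (mul_eq_zero.1 this).resolve_left (ne_of_gt ?_)
    have hA := sub_pos.2 (hU.fx_lt Φ (i := 0) (by omega))
    have hB := sub_pos.2 (hU.fx_lt Φ (i := 1) (by omega))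
    have hA' := sub_pos.2 (hU.fx_lt (fr 1 Φ) (i := 0) (by omega))
    rw [fx_fr_ne Φ (i := 1) (j := 0) (by omega)] at hA'
    simp only [zero_add, show 1 + 1 = 2 from rfl] at hA hB hA'
    unfold co2
    positivity
  obtain ⟨c, z, hz, e⟩ := hU.decomp hN Φ (fe 3 Θ)
  rw [an_ioc] at e
  have p1 := hz.fe (by omega) Φ (i := 1) le_rfl
  have p2 := hz.fe (by omega) Φ (i := 2) (by omega)
  have p3 := hz.fe (by omega) Φ (i := 3) (by omega)
  have p4 := hz.fe (by omega) Θ (i := 3) (by omega)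
  have q12 := hU.fe_orth Φ (by omega) (i := 1) (j := 2) (by omega) (by omega) (by omega)
  have q21 := hU.fe_orth Φ (by omega) (i := 2) (j := 1) (by omega) (by omega) (by omega)
  have q31 := hU.fe_orth Φ (by omega) (i := 3) (j := 1) (by omega) (by omega) (by omega)
  have q32 := hU.fe_orth Φ (by omega) (i := 3) (j := 2) (by omega) (by omega) (by omega)
  have n1 := inner_self_ne_zero (𝕜 := ℝ).2 (fe_ne Φ (i := 1) (by omega) (by omega))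
  have n2 := inner_self_ne_zero (𝕜 := ℝ).2 (fe_ne Φ (i := 2) (by omega) (by omega))
  rw [e] at o1 o2 p4
  simp only [inner_add_left, inner_add_right, real_inner_smul_left, real_inner_smul_right, p1, p2,
    p3, q12, q21, q31, q32, mul_zero, add_zero, zero_add] at o1 o2 p4
  have c1 := (mul_eq_zero.1 o1).resolve_right n1
  have c2 := (mul_eq_zero.1 o2).resolve_right n2
  have z0 : z = 0 := inner_self_eq_zero.1 p4
  exact ⟨c 3, by rw [e, c1, c2, z0]; simp⟩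

theorem anti_par (hU : Uni V a) (hN : rk V = 3 + 1) {p : ℕ} {Φ : Flag V}
    (h : UP.Pres fr fm 3 8 UP.aR (UP.aM p) UP.aZ UP.aC Φ) (Ψ Ψ' : Flag V) (h1 : fm 1 Ψ ≠ 3)
    (h2 : fm 1 Ψ' ≠ 3) : dr (Ψ.f 3) = dr (Ψ'.f 3) := by
  obtain ⟨f, -, hf⟩ := h
  have a0 : fr 1 (f 0) = f 1 := ((hf 0 (by omega)).1 1 le_rfl (by omega)).2.1
  have a2 : fr 1 (f 2) = f 4 := ((hf 2 (by omega)).1 1 le_rfl (by omega)).2.1
  have a3 : fr 1 (f 3) = f 5 := ((hf 3 (by omega)).1 1 le_rfl (by omega)).2.1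
  have a4 : fr 1 (f 4) = f 2 := ((hf 4 (by omega)).1 1 le_rfl (by omega)).2.1
  have a6 : fr 1 (f 6) = f 7 := ((hf 6 (by omega)).1 1 le_rfl (by omega)).2.1
  have b0 : fr 2 (f 0) = f 2 := ((hf 0 (by omega)).1 2 (by omega) (by omega)).2.1
  have b1 : fr 2 (f 1) = f 3 := ((hf 1 (by omega)).1 2 (by omega) (by omega)).2.1
  have b2 : fr 2 (f 2) = f 0 := ((hf 2 (by omega)).1 2 (by omega) (by omega)).2.1
  have b4 : fr 2 (f 4) = f 6 := ((hf 4 (by omega)).1 2 (by omega) (by omega)).2.1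
  have b5 : fr 2 (f 5) = f 7 := ((hf 5 (by omega)).1 2 (by omega) (by omega)).2.1
  have b6 : fr 2 (f 6) = f 4 := ((hf 6 (by omega)).1 2 (by omega) (by omega)).2.1
  have b7 : fr 2 (f 7) = f 5 := ((hf 7 (by omega)).1 2 (by omega) (by omega)).2.1
  have m1 : ∀ k, 2 ≤ k → k < 8 → fm 1 (f k) = 3 := fun k k2 k8 => by
    rw [((hf k k8).1 1 le_rfl (by omega)).2.2]
    interval_cases k <;> rfl
  have m6 : fm 2 (f 6) = 4 := ((hf 6 (by omega)).1 2 (by omega) (by omega)).2.2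
  have z0 : UP.Eqv fr fm 3 (fr 0 (f 0)) (f 0) := (hf 0 (by omega)).2.2.1
  have z4 : UP.Eqv fr fm 3 (fr 0 (f 4)) (f 6) := (hf 4 (by omega)).2.2.1
  have c01 : UP.Eqv fr fm 3 (f 0) (f 1) := (hf 0 (by omega)).2.2.2 1 (by omega) rfl
  have cm : ∀ Θ : Flag V, fr 0 (fr 2 Θ) = fr 2 (fr 0 Θ) := fun Θ => fr_comm le_rfl Θ
  obtain ⟨s0, hs0⟩ := an_ex hU hN z0.symm'
  obtain ⟨s1, hs1⟩ := an_ex hU hN c01
  obtain ⟨g, hg⟩ := an_ex hU hN z4.symm'
  have st0 := fun {g : E5 ≃ₗᵢ[ℝ] E5} {Φ Ψ : Flag V} (h : an_Mp a g Φ Ψ) =>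
    an_step hU hN h (j := 0) (by omega)
  have st1 := fun {g : E5 ≃ₗᵢ[ℝ] E5} {Φ Ψ : Flag V} (h : an_Mp a g Φ Ψ) =>
    an_step hU hN h (j := 1) (by omega)
  have st2 := fun {g : E5 ≃ₗᵢ[ℝ] E5} {Φ Ψ : Flag V} (h : an_Mp a g Φ Ψ) =>
    an_step hU hN h (j := 2) (by omega)
  have u2 : an_Mp a s0 (f 2) (fr 0 (f 2)) := by
    have := st2 hs0
    rwa [← cm, b0] at this
  have v4 : an_Mp a s1 (f 4) (f 5) := by
    have := st1 (st2 hs1)
    rwa [b0, b1, a2, a3] at this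
  have v6 : an_Mp a s1 (f 6) (f 7) := by
    have := st2 v4
    rwa [b4, b5] at this
  have w4 : an_Mp a g (f 4) (fr 0 (f 6)) := by
    have := st2 hg
    rwa [← cm, b6, b4] at this
  have gn : ∃ c : ℝ, g (fe 3 (f 0)) = c • fe 3 (f 0) := by
    have t0 := st2 (st1 (st2 hg))
    rw [b6, a4, b2] at t0
    rw [an_fe t0 (by omega) le_rfl]
    refine an_line hU hN hs0 (a0 ▸ hs1) ?_ ?_
    · have t1 := st2 (st1 (st2 (st0 (st1 u2))))
      rw [an_tri (m1 2 le_rfl (by omega)), a2,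
        an_quad ((z4.base (by omega) (by omega)).trans m6)] at t1
      rw [an_fe t1 (by omega) le_rfl, fe_fr_ne (i := 1) _ (by omega) (by omega)]
    · have t1 := st2 (st1 (st2 (st0 v4)))
      have e : fr 2 (fr 1 (fr 2 (fr 0 (f 5)))) = fr 0 (fr 2 (fr 1 (fr 2 (fr 0 (f 4))))) := by
        rw [← cm (f 5), ← cm (f 4), b5, b4, ← a6, ← an_tri (m1 6 (by omega) (by omega)), cm]
      rw [e] at t1
      rw [an_fe t1 (by omega) le_rfl, fe_fr_ne (i := 0) _ (by omega) (by omega)]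
  have s0n : s0 (fe 3 (f 0)) = fe 3 (f 0) := by
    rw [an_fe hs0 (by omega) le_rfl, fe_fr_ne (i := 0) _ (by omega) (by omega)]
  have n1 : fe 3 (f 1) = fe 3 (f 0) := by
    rw [← a0, fe_fr_ne (i := 1) _ (by omega) (by omega)]
  have s1n : s1 (fe 3 (f 0)) = fe 3 (f 0) := by
    rw [an_fe hs1 (by omega) le_rfl, n1]
  obtain ⟨γ, hγ⟩ := gn
  have cross : ∀ k, k < 8 → ∃ (g' : E5 ≃ₗᵢ[ℝ] E5) (c : ℝ) (k' : ℕ), g' (fe 3 (f 0)) = c • fe 3 (f 0) ∧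
      k' < 8 ∧ an_Mp a g' (f k') (fr 0 (f k)) := by
    have e10 : (s1 * s0) (fe 3 (f 0)) = (1 : ℝ) • fe 3 (f 0) := by
      simp [s0n, s1n]
    have e1g : (s1 * g) (fe 3 (f 0)) = γ • fe 3 (f 0) := by
      simp [hγ, s1n]
    intro k hk
    interval_cases k
    · exact ⟨s0, 1, 0, by simp [s0n], by omega, hs0⟩
    · exact ⟨s1 * s0, 1, 0, e10, by omega, an_mul (st0 hs1) hs0⟩
    · exact ⟨s0, 1, 2, by simp [s0n], by omega, u2⟩
    · refine ⟨s1 * s0, 1, 2, e10, by omega, an_mul ?_ u2⟩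
      have := st0 (st2 hs1)
      rwa [b0, b1] at this
    · exact ⟨g, γ, 6, hγ, by omega, hg⟩
    · exact ⟨s1 * g, γ, 6, e1g, by omega, an_mul (st0 v4) hg⟩
    · exact ⟨g, γ, 4, hγ, by omega, w4⟩
    · exact ⟨s1 * g, γ, 4, e1g, by omega, an_mul (st0 v6) w4⟩
  have all : ∀ Θ : Flag V, ∃ (g' : E5 ≃ₗᵢ[ℝ] E5) (c : ℝ) (k : ℕ), g' (fe 3 (f 0)) = c • fe 3 (f 0) ∧
      k < 8 ∧ an_Mp a g' (f k) Θ := by
    refine flag_induction hN _ (Φ := f 0)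
      ⟨1, 1, 0, by simp, by omega, Maps.one _, fun _ _ _ _ _ => rfl⟩ ?_
    rintro Θ i hi ⟨g', c, k, e, hk, mg⟩
    by_cases h0 : i = 0
    · subst h0
      obtain ⟨g'', c', k', e', hk', mg'⟩ := cross k hk
      exact ⟨g' * g'', c' * c, k', by simp [e', e, smul_smul], hk', an_mul (st0 mg) mg'⟩
    · obtain ⟨r1, r2, -⟩ := (hf k hk).1 i (by omega) hi
      exact ⟨g', c, _, e, r1, r2 ▸ an_step hU hN mg hi⟩
  have base : ∀ Θ : Flag V, fm 1 Θ ≠ 3 → ∃ c : ℝ, fe 3 Θ = c • fe 3 (f 0) := fun Θ hΘ => by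
    obtain ⟨g', c, k, e, hk, mg⟩ := all Θ
    have hk2 : k < 2 := by
      by_contra hc
      exact hΘ ((mg.2.base le_rfl (by omega)).symm.trans (m1 k (by omega) hk))
    refine ⟨c, ?_⟩
    rw [← an_fe mg (by omega) le_rfl, ← e]
    interval_cases k
    · rfl
    · rw [n1]
  obtain ⟨c, hc⟩ := base Ψ h1
  obtain ⟨c', hc'⟩ := base Ψ' h2
  exact le_antisymm (an_dr_le hU hN hc hc') (an_dr_le hU hN hc' hc)

end

end Pool.Agent.MP_7fd204_co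

/-! The classification from the three finite statements about abstract flag systems. -/

namespace Pool.Agent.MP_7fd204_co

open Classical Real UP

noncomputable section

variable {V : Finset E5} {a : ℝ}

lemma sin_inj {m n : ℕ} (hm : 2 ≤ m) (hn : 2 ≤ n) (h : sin (π / m) ^ 2 = sin (π / n) ^ 2) : m = n := by
  have key : ∀ k : ℕ, 2 ≤ k → 0 < π / k ∧ π / k ≤ π / 2 := fun k hk => by
    have : (2 : ℝ) ≤ k := by exact_mod_cast hk
    exact ⟨by positivity, div_le_div_of_nonneg_left pi_pos.le (by norm_num) this⟩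
  obtain ⟨a1, a2⟩ := key m hm
  obtain ⟨b1, b2⟩ := key n hn
  have p := pi_pos
  have e := (pow_left_inj₀ (sin_nonneg_of_nonneg_of_le_pi a1.le (by linarith))
    (sin_nonneg_of_nonneg_of_le_pi b1.le (by linarith)) (by norm_num)).1 h
  have e2 := injOn_sin ⟨by linarith, a2⟩ ⟨by linarith, b2⟩ e
  have m0 : (m : ℝ) ≠ 0 := by positivity
  have n0 : (n : ℝ) ≠ 0 := by positivity
  rw [div_eq_div_iff m0 n0] at e2
  exact_mod_cast (mul_left_cancel₀ p.ne' e2).symm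

lemma gold_x (hU : Uni V a) (hN : rk V = 4 + 1) {Φ Ψ : Flag V} (hG : Gold fr (fx a) fm Φ)
    {M : ℕ → ℕ → ℕ} {k : ℕ} (h1 : fm 1 Ψ = M 1 k) (h2 : fm 2 Ψ = M 2 k) (hm : M 1 k = 3 ∨ M 1 k = 5)
    {i : ℕ} (hi : i ≤ 4) : fx a i Ψ = zr (xOf M i k) / 30 := by
  obtain ⟨w, hw, rfl⟩ := connect_all hN Φ Ψ
  obtain ⟨g4, g3⟩ := hG w hw
  have p := ((hU.sys hN (by omega)).poly (by omega) (act fr w Φ)).2
  have s5 : √5 ^ 2 = 5 := sq_sqrt (by norm_num)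
  have z30 : zr 30 = 30 := map_ofNat zr 30
  have z40 : zr 40 = 40 := map_ofNat zr 40
  have z45 : zr 45 = 45 := map_ofNat zr 45
  interval_cases i
  · simp [xOf, fx_zero _ (by omega : 1 ≤ rk V)]
  · simp [xOf, hU.fx_one _ (by omega : 2 ≤ rk V), z30]
  · rw [h1] at p
    rcases hm with e | e
    · rw [e, Nat.cast_ofNat, sin_pi_div_three, div_pow, sq_sqrt (by norm_num)] at p
      simp only [xOf, e, OfNat.ofNat_ne_zero, OfNat.ofNat_ne_one, if_true, if_false, z40]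
      linarith
    · rw [e, Nat.cast_ofNat, sin_sq, cos_pi_div_five] at p
      simp only [xOf, e, OfNat.ofNat_ne_zero, OfNat.ofNat_ne_one, if_true, if_false, Nat.reduceEqDiff,
        zr_mk]
      push_cast
      linear_combination ((60 + 12 * √5) / 30) * p +
        (fx a 2 (act fr w Φ) * (7 + √5) / 40) * s5
  · rw [g3, h2]
    simp only [xOf, OfNat.ofNat_ne_zero, OfNat.ofNat_ne_one, if_true, if_false, Nat.reduceEqDiff]
    split_ifs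
    · rw [z45]; norm_num
    · rw [zr_mk]; push_cast; ring
  · rw [g4]
    simp only [xOf, OfNat.ofNat_ne_zero, OfNat.ofNat_ne_one, if_true, if_false, Nat.reduceEqDiff,
      zr_mk]
    push_cast
    ring

lemma gold_frames (hU : Uni V a) (hN : rk V = 4 + 1) {Φ : Flag V} (hG : Gold fr (fx a) fm Φ) {s : ℕ}
    {R M : ℕ → ℕ → ℕ} {f : ℕ → Flag V} {T : List (List V4)}
    (hf : ∀ k, k < s → ∀ i, 1 ≤ i → i < 4 → fm i (f k) = M i k)
    (hm : ∀ k, k < s → M 1 k = 3 ∨ M 1 k = 5)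
    (h : framesOk s R (epOf T) (xOf M) ⟨3, 1⟩ 960 = true) :
    Frames a f s R fun k i => (a * phi / 240) • vr (epOf T k i) := by
  have s5 : √5 ^ 2 = 5 := sq_sqrt (by norm_num)
  have := hU.apos
  have := phi_pos
  refine frames_of_ok (δ := 30) (by positivity) (by rw [zr_mk]; positivity) (by norm_num) ?_
    (fun k hk i hi => gold_x hU hN hG (hf k hk 1 (by omega) (by omega))
      (hf k hk 2 (by omega) (by omega)) (hm k hk) hi) h
  rw [(map_ofNat zr 960 : zr 960 = 960), zr_mk, phi]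
  push_cast
  linear_combination (a ^ 2 / 8) * s5

lemma snub24 (hU : Uni V a) (hN : rk V = 4 + 1) {Φ : Flag V} (h : Pres fr fm 4 60 sR sM sZ sC Φ)
    (hG : Gold fr (fx a) fm Φ) : IsSnubHull (convexHull ℝ (V : Set E5)) := by
  obtain ⟨f, -, hf⟩ := h
  exact snub4 hU hN hf (gold_frames hU hN hG (fun k hk i h1 h2 => ((hf k hk).1 i h1 h2).2.2) s_m
    s_frames) (by omega) sm0 sB sD sD' (by decide +kernel) s_gen s_lk s_all s_reach s_all'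

lemma grand (hU : Uni V a) (hN : rk V = 4 + 1) {Φ : Flag V} (h : Pres fr fm 4 88 gR gM gZ gC Φ)
    (hG : Gold fr (fx a) fm Φ) : IsGrand V a := by
  obtain ⟨f, -, hf⟩ := h
  obtain ⟨ψ, hψ⟩ := vertices_eq hU hN hf (gold_frames hU hN hG
    (fun k hk i h1 h2 => ((hf k hk).1 i h1 h2).2.2) g_m g_frames) (by omega) gB gD gD' gv gT 60
    (fun b hb => by
      obtain ⟨b1, b2, b3, b4, I, -, b5⟩ := g_gen b hb
      exact ⟨b1, b2, b3, b4, perm_ok _ I b5⟩) g_lk g_all g_reach g_all' g_v g_tree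
  refine isGrand_of hU.apos _ (fun c => g_out) g_in ψ ?_
  rw [hψ, (map_ofNat zr 60 : zr 60 = 60), show a * phi / 240 * 60 = a * phi / 4 by ring]

lemma antiprism (hU : Uni V a) (hN : rk V = 3 + 1) {Φ : Flag V} {p : ℕ}
    (h : Pres fr fm 3 8 aR (aM p) aZ aC Φ) : IsSnubHull (convexHull ℝ (V : Set E5)) := by
  refine snub3 hU hN h (fun k => decide (2 ≤ k)) (fun k hk ht => ?_) 0 1 4 2
    [(3, 2), (4, 6), (0, 1), (2, 3), (7, 5), (5, 7)] [1, 3, 5, 7, 6, 4, 2] (by decide) (by decide)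
    (by decide) (by decide) (by decide) (by decide)
  have := of_decide_eq_true ht
  interval_cases k <;> rfl

lemma snubs (hU : Uni V a) (hN : rk V = 3 + 1) {Φ : Flag V} {p : ℕ}
    (h : Pres fr fm 3 10 nR (nM p) nZ id Φ) : IsSnubHull (convexHull ℝ (V : Set E5)) := by
  refine snub3 hU hN h (fun k => decide (2 ≤ k)) (fun k hk ht => ?_) 0 1 5 2
    [(3, 2), (5, 7), (0, 1), (2, 3), (9, 4), (8, 6), (4, 9), (6, 8)] [1, 3, 5, 7, 9, 8, 6, 4, 2]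
    (by decide) (by decide) (by decide) (by decide) (by decide) (by decide)
  have := of_decide_eq_true ht
  interval_cases k <;> rfl

instance : Fact (Module.finrank ℝ E5 = 5) := ⟨by simp⟩

lemma big_split (h3 : C3) (h4 : C4) (hU : Uni V a) (hN : rk V = 5 + 1) (Ψ : Flag V)
    (h : fm 1 Ψ ∉ ({3, 4, 5, 6, 8, 10} : Set ℕ)) : Split V := by
  obtain ⟨q3, hq⟩ := (hU.sys hN (by omega)).poly (by omega) Ψ
  have a0 := hU.apos
  have key : ∀ G n F, Face V G → rk G = n + 1 → 2 ≤ n → Sp V (rad (Ψ.f 3)) F → F ⊆ G →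
      ∃ Θ : Flag G, Θ.f 3 = F ∧ fm 1 Θ = fm 1 Ψ := fun G n F hG hr hn hF hs => by
    obtain ⟨Θ, hΘ⟩ := exists_flag (hF.1.restrict hG.subset hs)
    rw [hF.2.1] at hΘ
    obtain ⟨p3, hp⟩ := ((hU.face hG).sys hr (by omega)).poly hn Θ
    have e : fx a 2 Θ = fx a 2 Ψ := by rw [fx, fx, hΘ, hF.2.2]
    rw [e] at hp
    exact ⟨Θ, hΘ, sin_inj (by omega) (by omega)
      (mul_left_cancel₀ (left_ne_zero_of_mul_eq_one hq) (hp.trans hq.symm))⟩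
  have two : ∀ F, Sp V (rad (Ψ.f 3)) F → ¬ Split F := fun F hF => by
    refine (hU.face hF.1).not_split hF.2.1 fun e => h ?_
    rw [fx, ← hF.2.2, e] at hq
    have : fm 1 Ψ = 4 := sin_inj (by omega) (by omega) (by
      rw [Nat.cast_ofNat, sin_pi_div_four, div_pow, sq_sqrt (by norm_num)]; linarith)
    simp [this]
  refine BigH.split hU hN (ρ := rad (Ψ.f 3)) ⟨two, fun K hK r4 F F' hF hF' s s' => ?_,
    fun H hH r5 F hF s => ?_⟩ ⟨Ψ.face 3, Ψ.rk_of_le (by omega), rfl⟩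
  · obtain ⟨Θ, e1, e2⟩ := key K 3 F hK r4 (by omega) hF s
    obtain ⟨Θ', e1', e2'⟩ := key K 3 F' hK r4 (by omega) hF' s'
    rcases h3 _ _ _ _ ((hU.face hK).sys r4 (by omega)) Θ with ⟨hs, -⟩ | hp | ⟨p, -, hp⟩
    · exact absurd (e2 ▸ hs [] (by simp [Wd])) h
    · have sK := (hU.face hK).edge_split r4 Θ hp
      exact le_antisymm
        (hU.dr_le_of hK sK hF'.1 s' (by rw [hF'.2.1, r4]) (two _ hF') hF.1 s (two _ hF) hF.2.1.ge)
        (hU.dr_le_of hK sK hF.1 s (by rw [hF.2.1, r4]) (two _ hF) hF'.1 s' (two _ hF') hF'.2.1.ge)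
    · rw [← e1, ← e1']
      exact anti_par (hU.face hK) r4 hp Θ Θ' (fun e => h (by simp [← e2, e]))
        (fun e => h (by simp [← e2', e]))
  · obtain ⟨Θ, -, e2⟩ := key H 4 F hH r5 (by omega) hF s
    rcases h4 _ _ _ _ ((hU.face hH).sys r5 (by omega)) Θ with ⟨hs, -⟩ | hp
    · exact absurd (e2 ▸ hs [] (by simp [Wd])) h
    · exact (hU.face hH).edge_split r5 Θ hp

theorem local_of (h3 : C3) (h4 : C4) (h5 : C5) : Local where
  three := fun V a hU hN Φ => by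
    rcases h3 _ _ _ _ (hU.sys hN (by omega)) Φ with ⟨-, h | h | h⟩ | h | ⟨p, -, h⟩
    · exact Or.inl h
    · exact Or.inr (Or.inr (snubs hU hN h))
    · exact Or.inr (Or.inr (snubs hU hN h))
    · exact Or.inr (Or.inl (hU.edge_split hN Φ h))
    · exact Or.inr (Or.inr (antiprism hU hN h))
  four := fun V a hU hN Φ => by
    rcases h4 _ _ _ _ (hU.sys hN (by omega)) Φ with ⟨-, h | h | h⟩ | h
    · exact Or.inl h
    · exact Or.inr (Or.inr (Or.inl (snub24 hU hN h.1 h.2)))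
    · exact Or.inr (Or.inr (Or.inr (grand hU hN h.1 h.2)))
    · exact Or.inr (Or.inl (hU.edge_split hN Φ h))
  five := fun V a hU hN Φ => by
    by_cases hs : UP.Small fr fm 5 Φ
    · exact (h5 _ _ _ _ (hU.sys hN (by omega)) Φ hs).imp_right (hU.edge_split hN Φ)
    · simp only [UP.Small, not_forall] at hs
      obtain ⟨w, -, hw⟩ := hs
      exact Or.inr (big_split h3 h4 hU hN _ hw)

theorem main_of' (h3 : C3) (h4 : C4) (h5 : C5) (P : Set E5) (h : IsUniform 5 P) :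
    IsWythoffian P ∨ Similar P grandPrism := main_of rigid (local_of h3 h4 h5) P h.unif

end

end Pool.Agent.MP_7fd204_co

end
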